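import Mathlib

open Set Filter Topology MeasureTheory

namespace Pool.Agent.V1199.Bary

variable {V : Type*} [AddCommGroup V] [Module ℝ V] [TopologicalSpace V]

/-- A map on the subset `K` of `V` is affine. -/
def Aff {K : Set V} {E : Type*} [AddCommGroup E] [Module ℝ E] (f : K → E) : Prop :=
  ∀ (x y z : K) (t : ℝ), 0 ≤ t → t ≤ 1 → (z : V) = t • (x : V) + (1 - t) • (y : V) →
    f z = t • f x + (1 - t) • f y

section bary

variable [IsTopologicalAddGroup V] [ContinuousSMul ℝ V] {K : Set V}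

theorem exists_comb (hKc : Convex ℝ K) (x y : K) {t : ℝ} (h0 : 0 ≤ t) (h1 : t ≤ 1) :
    ∃ z : K, (z : V) = t • (x : V) + (1 - t) • (y : V) :=
  ⟨⟨t • (x : V) + (1 - t) • (y : V), hKc x.2 y.2 h0 (by linarith) (by ring)⟩, rfl⟩

variable [CompactSpace K] [MeasurableSpace K] [BorelSpace K]

theorem integrable_cont (μ : Measure K) [IsFiniteMeasure μ] (a : C(K, ℝ)) :
    Integrable (fun x => a x) μ :=
  a.continuous.integrable_of_hasCompactSupport (HasCompactSupport.of_compactSpace _)

/-- Existence of barycentres. -/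
theorem exists_bary (hKc : Convex ℝ K) (μ : Measure K) [IsProbabilityMeasure μ] :
    ∃ b : K, ∀ a : C(K, ℝ), Aff (fun x => a x) → a b = ∫ x, a x ∂μ := by
  classical
  let ι := {a : C(K, ℝ) // Aff (fun x => a x)}
  have hne : (univ ∩ ⋂ a : ι, {x : K | a.1 x = ∫ y, a.1 y ∂μ}).Nonempty := by
    refine isCompact_univ.inter_iInter_nonempty _ (fun a => isClosed_eq a.1.continuous
      continuous_const) (fun u => ?_)
    rw [univ_inter]
    let Φ : K → (u → ℝ) := fun x a => a.1.1 x
    have hΦ : Continuous Φ := continuous_pi fun a => a.1.1.continuous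
    have hconv : Convex ℝ (range Φ) := by
      rintro _ ⟨x, rfl⟩ _ ⟨y, rfl⟩ s t hs ht hst
      obtain ⟨z, hz⟩ := exists_comb hKc x y hs (by linarith : s ≤ 1)
      refine ⟨z, ?_⟩
      funext a
      have := a.1.2 x y z s hs (by linarith) hz
      show a.1.1 z = s * a.1.1 x + t * a.1.1 y
      rw [show a.1.1 z = s • a.1.1 x + (1 - s) • a.1.1 y from this]
      have e : 1 - s = t := by linarith
      rw [e]; rfl
    have hcl : IsClosed (range Φ) := (isCompact_range hΦ).isClosed
    have hint : Integrable Φ μ :=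
      hΦ.integrable_of_hasCompactSupport (HasCompactSupport.of_compactSpace _)
    obtain ⟨b, hb⟩ := hconv.integral_mem hcl (ae_of_all _ fun x => mem_range_self x) hint
    refine ⟨b, ?_⟩
    rw [mem_iInter₂]
    intro a ha
    have h1 := congrFun hb ⟨a, ha⟩
    have h2 := eval_integral (μ := μ) (f := Φ) (fun i => integrable_cont μ i.1.1) ⟨a, ha⟩
    rw [h2] at h1
    exact h1
  obtain ⟨b, _, hb⟩ := hne
  rw [mem_iInter] at hb
  exact ⟨b, fun a ha => hb ⟨a, ha⟩⟩

/-- Restriction of continuous functionals are affine continuous functions. -/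
theorem aff_functional (φ : V →L[ℝ] ℝ) :
    Aff (K := K) (fun x => (⟨fun x : K => φ x, φ.continuous.comp continuous_subtype_val⟩ : C(K, ℝ)) x) := by
  intro x y z t _ _ hz
  show φ z = t • φ x + (1 - t) • φ y
  rw [hz, map_add, map_smul, map_smul]

theorem aff_const (c : ℝ) : Aff (K := K) (fun x => (ContinuousMap.const K c) x) := by
  intro x y z t _ _ _
  show c = t • c + (1 - t) • c
  rw [smul_eq_mul, smul_eq_mul]; ring

variable [LocallyConvexSpace ℝ V] [T2Space V]

/-- Affine continuous functions separate points. -/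
theorem eq_of_aff {x y : K} (h : ∀ a : C(K, ℝ), Aff (fun x => a x) → a x = a y) : x = y := by
  by_contra hne
  obtain ⟨φ, hφ⟩ := geometric_hahn_banach_point_point (x := (x : V)) (y := (y : V))
    (fun e => hne (Subtype.ext e))
  have := h _ (aff_functional φ)
  exact hφ.ne this

/-- Existence of barycentres of restrictions. -/
theorem exists_bary_restrict [Nonempty K] (hKc : Convex ℝ K) (μ : Measure K) [IsFiniteMeasure μ]
    (A : Set K) : ∃ b : K, ∀ a : C(K, ℝ), Aff (fun x => a x) →
      μ.real A * a b = ∫ x in A, a x ∂μ := by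
  by_cases hA : μ A = 0
  · obtain ⟨b⟩ := (inferInstance : Nonempty K)
    refine ⟨b, fun a _ => ?_⟩
    rw [measureReal_def, hA, Measure.restrict_eq_zero.mpr hA]
    simp
  · have hA' : μ A ≠ ⊤ := measure_ne_top μ A
    have hprob : IsProbabilityMeasure ((μ A)⁻¹ • μ.restrict A) := ⟨by
      rw [Measure.smul_apply, Measure.restrict_apply_univ, smul_eq_mul, ENNReal.inv_mul_cancel hA hA']⟩
    obtain ⟨b, hb⟩ := exists_bary hKc ((μ A)⁻¹ • μ.restrict A)
    refine ⟨b, fun a ha => ?_⟩
    rw [hb a ha, integral_smul_measure, ENNReal.toReal_inv, smul_eq_mul, ← mul_assoc,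
      measureReal_def, mul_inv_cancel₀ (ENNReal.toReal_ne_zero.mpr ⟨hA, hA'⟩), one_mul]

/-- The barycentre of the restriction of `μ` to `A`. -/
noncomputable def bary [Nonempty K] (hKc : Convex ℝ K) (μ : Measure K) [IsFiniteMeasure μ]
    (A : Set K) : K := (exists_bary_restrict hKc μ A).choose

theorem bary_spec [Nonempty K] (hKc : Convex ℝ K) (μ : Measure K) [IsFiniteMeasure μ]
    (A : Set K) (a : C(K, ℝ)) (ha : Aff (fun x => a x)) :
    μ.real A * a (bary hKc μ A) = ∫ x in A, a x ∂μ :=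
  (exists_bary_restrict hKc μ A).choose_spec a ha

/-- Additivity of the set function `A ↦ μ(A) f(bary A)`. -/
theorem bary_add [Nonempty K] (hKc : Convex ℝ K) (μ : Measure K) [IsFiniteMeasure μ] {f : K → ℝ}
    (hf : Aff f) {A B : Set K} (hB : MeasurableSet B) (hAB : Disjoint A B) :
    μ.real (A ∪ B) * f (bary hKc μ (A ∪ B)) =
      μ.real A * f (bary hKc μ A) + μ.real B * f (bary hKc μ B) := by
  have hadd : μ.real (A ∪ B) = μ.real A + μ.real B := measureReal_union hAB hB
  rcases (measureReal_nonneg (μ := μ) (s := A ∪ B)).eq_or_lt with h0 | h0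
  · have e1 : μ.real A = 0 := by
      have := measureReal_nonneg (μ := μ) (s := A)
      have := measureReal_nonneg (μ := μ) (s := B)
      linarith
    have e2 : μ.real B = 0 := by linarith
    rw [← h0, e1, e2]; ring
  · set T := μ.real (A ∪ B) with hT
    have hA0 := measureReal_nonneg (μ := μ) (s := A)
    have hB0 := measureReal_nonneg (μ := μ) (s := B)
    obtain ⟨z, hz⟩ := exists_comb hKc (bary hKc μ A) (bary hKc μ B) (t := μ.real A / T)
      (by positivity) (by rw [div_le_one h0]; linarith)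
    have e1 : 1 - μ.real A / T = μ.real B / T := by field_simp; linarith
    have hzb : z = bary hKc μ (A ∪ B) := by
      refine eq_of_aff fun a ha => ?_
      have h1 : a z = μ.real A / T * a (bary hKc μ A) + (1 - μ.real A / T) * a (bary hKc μ B) :=
        ha _ _ z _ (by positivity) (by rw [div_le_one h0]; linarith) hz
      have h2 := bary_spec hKc μ (A ∪ B) a ha
      have h3 := bary_spec hKc μ A a ha
      have h4 := bary_spec hKc μ B a ha
      have h5 : ∫ x in A ∪ B, a x ∂μ = ∫ x in A, a x ∂μ + ∫ x in B, a x ∂μ :=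
        setIntegral_union hAB hB (integrable_cont μ a).integrableOn
          (integrable_cont μ a).integrableOn
      rw [e1] at h1
      have h6 : T * a z = T * a (bary hKc μ (A ∪ B)) := by
        rw [h1, h2, h5, ← h3, ← h4]
        field_simp
      exact mul_left_cancel₀ h0.ne' h6
    have h1 := hf _ _ z _ (by positivity) (by rw [div_le_one h0]; linarith) hz
    rw [← hzb, h1, e1, smul_eq_mul, smul_eq_mul]
    field_simp

theorem hasSum_of_dominated {α : Type*} [MeasurableSpace α] (μ : Measure α) [IsFiniteMeasure μ]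
    (G : Set α → ℝ) (D : ℝ) (hadd : ∀ A B, MeasurableSet A → MeasurableSet B → Disjoint A B →
      G (A ∪ B) = G A + G B) (hdom : ∀ A, MeasurableSet A → |G A| ≤ D * μ.real A)
    {A : ℕ → Set α} (hA : ∀ i, MeasurableSet (A i)) (hd : Pairwise (Function.onFun Disjoint A)) :
    HasSum (fun i => G (A i)) (G (⋃ i, A i)) := by
  have hμ : HasSum (fun i => μ.real (A i)) (μ.real (⋃ i, A i)) := by
    have h1 : ∑' i, μ (A i) ≠ ⊤ := by
      rw [← measure_iUnion hd hA]; exact measure_ne_top _ _
    have h2 := ENNReal.hasSum_toReal h1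
    rw [measureReal_def, measure_iUnion hd hA, ENNReal.tsum_toReal_eq (fun i => measure_ne_top _ _)]
    exact h2
  have hsum : Summable (fun i => G (A i)) :=
    Summable.of_norm_bounded (hμ.summable.mul_left D) fun i => by
      rw [Real.norm_eq_abs]; exact hdom _ (hA i)
  rw [hsum.hasSum_iff_tendsto_nat]
  have hempty : G ∅ = 0 := by
    have := hadd ∅ ∅ MeasurableSet.empty MeasurableSet.empty (by simp)
    rw [union_self] at this
    linarith
  have hpart : ∀ n, ∑ i ∈ Finset.range n, G (A i) = G (⋃ i ∈ Finset.range n, A i) ∧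
      ∑ i ∈ Finset.range n, μ.real (A i) = μ.real (⋃ i ∈ Finset.range n, A i) := by
    intro n
    induction n with
    | zero => simp [hempty]
    | succ n ih =>
      have hm : MeasurableSet (⋃ i ∈ Finset.range n, A i) :=
        Finset.measurableSet_biUnion _ fun i _ => hA i
      have hdis : Disjoint (A n) (⋃ i ∈ Finset.range n, A i) := by
        rw [disjoint_iUnion₂_right]
        intro i hi
        exact hd (by rw [Finset.mem_range] at hi; omega)
      rw [Finset.sum_range_succ, Finset.sum_range_succ, Finset.range_add_one,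
        Finset.set_biUnion_insert, hadd _ _ (hA n) hm hdis,
        measureReal_union hdis hm (measure_ne_top _ _) (measure_ne_top _ _), ih.1, ih.2]
      exact ⟨add_comm _ _, add_comm _ _⟩
  have hdiff : ∀ n, |G (⋃ i, A i) - ∑ i ∈ Finset.range n, G (A i)| ≤
      D * (μ.real (⋃ i, A i) - ∑ i ∈ Finset.range n, μ.real (A i)) := by
    intro n
    rw [(hpart n).1, (hpart n).2]
    have hm : MeasurableSet (⋃ i ∈ Finset.range n, A i) :=
      Finset.measurableSet_biUnion _ fun i _ => hA i
    have hsub : (⋃ i ∈ Finset.range n, A i) ⊆ ⋃ i, A i :=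
      iUnion₂_subset fun i _ => subset_iUnion A i
    have hm' : MeasurableSet ((⋃ i, A i) \ ⋃ i ∈ Finset.range n, A i) :=
      (MeasurableSet.iUnion hA).diff hm
    have h1 : (⋃ i, A i) = (⋃ i ∈ Finset.range n, A i) ∪ ((⋃ i, A i) \ ⋃ i ∈ Finset.range n, A i) :=
      (union_sdiff_cancel hsub).symm
    have h2 := hadd _ _ hm hm' disjoint_sdiff_right
    have h3 := measureReal_union (μ := μ) (disjoint_sdiff_right (s := ⋃ i ∈ Finset.range n, A i)
      (t := ⋃ i, A i)) hm' (measure_ne_top _ _) (measure_ne_top _ _)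
    rw [← h1] at h2 h3
    rw [h2, h3, add_sub_cancel_left, add_sub_cancel_left]
    exact hdom _ hm'
  have h1 := (hμ.tendsto_sum_nat.const_sub (μ.real (⋃ i, A i))).const_mul D
  rw [sub_self, mul_zero] at h1
  have h2 : Tendsto (fun n => G (⋃ i, A i) - ∑ i ∈ Finset.range n, G (A i)) atTop (𝓝 0) :=
    squeeze_zero_norm (fun n => by rw [Real.norm_eq_abs]; exact hdiff n) h1
  have h3 := h2.const_sub (G (⋃ i, A i))
  simpa using h3

/-- Barycentres stay in closed convex sets. -/
theorem bary_mem [Nonempty K] (hKc : Convex ℝ K) (μ : Measure K) [IsFiniteMeasure μ]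
    {Z A : Set K} (hZ : IsClosed Z) (hZc : Convex ℝ ((↑) '' Z : Set V)) (hA : MeasurableSet A)
    (hAZ : μ (A \ Z) = 0) (hpos : 0 < μ.real A) : bary hKc μ A ∈ Z := by
  by_contra hcon
  have hcomp : IsCompact ((↑) '' Z : Set V) := hZ.isCompact.image continuous_subtype_val
  obtain ⟨φ, u, hφ1, hφ2⟩ := geometric_hahn_banach_closed_point hZc hcomp.isClosed
    (x := (bary hKc μ A : V)) (by
      rintro ⟨z, hz, hzb⟩
      exact hcon (by rwa [Subtype.ext hzb] at hz))
  have h1 := bary_spec hKc μ A _ (aff_functional φ)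
  have h2 : ∫ x in A, φ x ∂μ ≤ ∫ x in A, u ∂μ := by
    refine setIntegral_mono_on_ae ?_ ?_ hA ?_
    · exact (integrable_cont μ ⟨fun x : K => φ x,
        φ.continuous.comp continuous_subtype_val⟩).integrableOn
    · exact (integrable_const u).integrableOn
    · rw [ae_iff]
      refine measure_mono_null ?_ hAZ
      intro x hx
      simp only [mem_ofPred_eq] at hx
      push Not at hx
      refine ⟨hx.1, fun hxZ => ?_⟩
      have := hφ1 x ⟨x, hxZ, rfl⟩
      linarith [hx.2]
  rw [setIntegral_const, smul_eq_mul] at h2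
  have h3 : μ.real A * φ (bary hKc μ A) = ∫ x in A, φ x ∂μ := h1
  rw [← h3] at h2
  have h4 : μ.real A * u < μ.real A * φ (bary hKc μ A) := mul_lt_mul_of_pos_left hφ2 hpos
  linarith

/-- Choquet's theorem: affine functions of the first Baire class satisfy the barycentric formula
(one inequality). -/
theorem baryc_le [Nonempty K] (hKc : Convex ℝ K) (μ : Measure K) [IsFiniteMeasure μ] [μ.Regular]
    {f : K → ℝ} (hf : Aff f) {C : ℝ} (hfC : ∀ x, |f x| ≤ C) (g : ℕ → C(K, ℝ))
    (hg : ∀ x, Tendsto (fun n => g n x) atTop (𝓝 (f x))) :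
    ∫ x, f x ∂μ ≤ μ.real univ * f (bary hKc μ univ) := by
  classical
  by_contra hcon
  push Not at hcon
  have hfm : Measurable f :=
    measurable_of_tendsto_metrizable (fun n => (g n).continuous.measurable)
      (tendsto_pi_nhds.mpr hg)
  have hfi : Integrable f μ := by
    refine Integrable.of_bound hfm.aestronglyMeasurable C (ae_of_all _ fun x => ?_)
    rw [Real.norm_eq_abs]; exact hfC x
  have hC0 : 0 ≤ C := by
    obtain ⟨x⟩ := (inferInstance : Nonempty K)
    exact (abs_nonneg _).trans (hfC x)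
  obtain ⟨c, hc⟩ : ∃ c : ℝ, c = (∫ x, f x ∂μ - μ.real univ * f (bary hKc μ univ)) /
    (2 * (μ.real univ + 1)) := ⟨_, rfl⟩
  have hM0 : 0 ≤ μ.real univ := measureReal_nonneg
  have hc0 : 0 < c := by
    rw [hc]; exact div_pos (by linarith) (by positivity)
  let G : Set K → ℝ := fun A => ∫ x in A, f x ∂μ - μ.real A * f (bary hKc μ A) - c * μ.real A
  have hGadd : ∀ A B, MeasurableSet A → MeasurableSet B → Disjoint A B → G (A ∪ B) = G A + G B := by
    intro A B _ hB hAB
    have h1 := bary_add hKc μ hf hB hAB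
    have h2 : ∫ x in A ∪ B, f x ∂μ = ∫ x in A, f x ∂μ + ∫ x in B, f x ∂μ :=
      setIntegral_union hAB hB hfi.integrableOn hfi.integrableOn
    have h3 := measureReal_union (μ := μ) hAB hB (measure_ne_top _ _) (measure_ne_top _ _)
    show _ - _ - _ = (_ - _ - _) + (_ - _ - _)
    rw [h1, h2, h3]
    ring
  have hGdom : ∀ A, MeasurableSet A → |G A| ≤ (2 * C + c) * μ.real A := by
    intro A _
    have h1 : |∫ x in A, f x ∂μ| ≤ C * μ.real A := by
      have := norm_setIntegral_le_of_norm_le_const (μ := μ) (s := A) (f := f) (C := C)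
        (measure_lt_top _ _) (fun x _ => by rw [Real.norm_eq_abs]; exact hfC x)
      rwa [Real.norm_eq_abs] at this
    have h0 : 0 ≤ μ.real A := measureReal_nonneg
    have h2 : |μ.real A * f (bary hKc μ A)| ≤ C * μ.real A := by
      rw [abs_mul, abs_of_nonneg h0, mul_comm]
      exact mul_le_mul_of_nonneg_right (hfC _) h0
    have h3 : |c * μ.real A| = c * μ.real A := abs_of_nonneg (mul_nonneg hc0.le h0)
    calc |G A| ≤ |∫ x in A, f x ∂μ - μ.real A * f (bary hKc μ A)| + |c * μ.real A| := abs_sub _ _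
      _ ≤ (|∫ x in A, f x ∂μ| + |μ.real A * f (bary hKc μ A)|) + |c * μ.real A| :=
          add_le_add (abs_sub _ _) le_rfl
      _ ≤ (2 * C + c) * μ.real A := by rw [h3]; linarith
  have hGempty : G ∅ = 0 := by simp [G]
  let s : SignedMeasure K :=
    { measureOf' := fun A => if MeasurableSet A then G A else 0
      empty' := by rw [if_pos MeasurableSet.empty]; exact hGempty
      not_measurable' := fun A hA => if_neg hA
      m_iUnion' := by
        intro A hA hd
        rw [if_pos (MeasurableSet.iUnion hA)]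
        have h1 : (fun i => if MeasurableSet (A i) then G (A i) else 0) = fun i => G (A i) :=
          funext fun i => if_pos (hA i)
        rw [h1]
        exact hasSum_of_dominated μ G _ hGadd hGdom hA hd }
  have hs : ∀ A, MeasurableSet A → s A = G A := fun A hA => if_pos hA
  -- the hereditary set
  obtain ⟨P, hP, hP1, hP2⟩ := SignedMeasure.exists_compl_positive_negative s
  have hGP : ∀ A ⊆ P, MeasurableSet A → 0 ≤ G A := by
    intro A hAP hA
    have := VectorMeasure.subset_le_of_restrict_le_restrict 0 s hP hP1 hAP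
    rw [hs A hA] at this
    exact this
  have hGPc : G Pᶜ ≤ 0 := by
    have := VectorMeasure.subset_le_of_restrict_le_restrict s 0 hP.compl hP2 Subset.rfl
    rw [hs _ hP.compl] at this
    exact this
  have hGuniv : 0 < G univ := by
    show 0 < ∫ x in univ, f x ∂μ - μ.real univ * f (bary hKc μ univ) - c * μ.real univ
    rw [Measure.restrict_univ]
    have h1 : c * (2 * (μ.real univ + 1)) = ∫ x, f x ∂μ - μ.real univ * f (bary hKc μ univ) := by
      rw [hc]; field_simp
    nlinarith
  have hGPpos : 0 < G P := by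
    have h1 := hGadd P Pᶜ hP hP.compl disjoint_compl_right
    rw [union_compl_self] at h1
    linarith
  have hμP : 0 < μ.real P := by
    have h1 := hGdom P hP
    rw [abs_of_pos hGPpos] at h1
    by_contra hcon'
    push Not at hcon'
    have h0 : μ.real P = 0 := le_antisymm hcon' measureReal_nonneg
    rw [h0] at h1
    linarith
  -- restricting the values
  obtain ⟨k, hk⟩ : ∃ k : ℤ, 0 < μ.real (P ∩ f ⁻¹' Ico (k * (c / 2)) ((k + 1) * (c / 2))) := by
    by_contra hcon'
    push Not at hcon'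
    have h1 : ∀ k : ℤ, μ (P ∩ f ⁻¹' Ico (k * (c / 2)) ((k + 1) * (c / 2))) = 0 := by
      intro k
      have h0 : μ.real (P ∩ f ⁻¹' Ico (k * (c / 2)) ((k + 1) * (c / 2))) = 0 :=
        le_antisymm (hcon' k) measureReal_nonneg
      rwa [measureReal_eq_zero_iff (measure_ne_top _ _)] at h0
    have h2 : P ⊆ ⋃ k : ℤ, (P ∩ f ⁻¹' Ico (k * (c / 2)) ((k + 1) * (c / 2))) := by
      intro x hx
      rw [mem_iUnion]
      refine ⟨⌊f x / (c / 2)⌋, hx, ?_, ?_⟩
      · have := Int.floor_le (f x / (c / 2))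
        rwa [le_div_iff₀ (by positivity)] at this
      · have := Int.lt_floor_add_one (f x / (c / 2))
        rwa [div_lt_iff₀ (by positivity)] at this
    have h3 : μ P = 0 := measure_mono_null h2 (measure_iUnion_null h1)
    rw [measureReal_def, h3] at hμP
    simp at hμP
  obtain ⟨r, hr⟩ : ∃ r : ℝ, r = k * (c / 2) := ⟨_, rfl⟩
  have hr' : ((k : ℝ) + 1) * (c / 2) = r + c / 2 := by rw [hr]; ring
  rw [hr', ← hr] at hk
  obtain ⟨A₁, hA₁⟩ : ∃ A₁ : Set K, A₁ = P ∩ f ⁻¹' Ico r (r + c / 2) := ⟨_, rfl⟩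
  rw [← hA₁] at hk
  have hA₁m : MeasurableSet A₁ := by
    rw [hA₁]; exact hP.inter (hfm measurableSet_Ico)
  have hlow : ∀ A ⊆ A₁, MeasurableSet A → 0 < μ.real A → f (bary hKc μ A) ≤ r - c / 2 := by
    intro A hAA hA hpos
    have h1 : 0 ≤ G A := hGP A (hAA.trans (by rw [hA₁]; exact inter_subset_left)) hA
    have h2 : ∫ x in A, f x ∂μ ≤ ∫ x in A, (r + c / 2) ∂μ := by
      refine setIntegral_mono_on hfi.integrableOn (integrable_const _).integrableOn hA ?_
      intro x hx
      have := hAA hx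
      rw [hA₁] at this
      exact this.2.2.le
    rw [setIntegral_const, smul_eq_mul] at h2
    have h3 : 0 ≤ ∫ x in A, f x ∂μ - μ.real A * f (bary hKc μ A) - c * μ.real A := h1
    have h4 : μ.real A * f (bary hKc μ A) ≤ μ.real A * (r - c / 2) := by linarith
    exact le_of_mul_le_mul_left h4 hpos
  -- the support
  obtain ⟨U₀, hU₀⟩ : ∃ U₀ : Set K, U₀ = ⋃₀ {W : Set K | IsOpen W ∧ μ (A₁ ∩ W) = 0} := ⟨_, rfl⟩
  have hU₀o : IsOpen U₀ := by rw [hU₀]; exact isOpen_sUnion fun W hW => hW.1
  have hU₀n : μ (A₁ ∩ U₀) = 0 := by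
    have hreg : (μ.restrict A₁).Regular := Measure.Regular.restrict_of_measure_ne_top
      (measure_ne_top μ A₁)
    have h1 : (μ.restrict A₁) U₀ = 0 := by
      rw [hU₀o.measure_eq_iSup_isCompact (μ.restrict A₁)]
      simp only [ENNReal.iSup_eq_zero]
      intro Q hQ1 hQ2
      refine hQ2.measure_zero_of_nhdsWithin fun x hx => ?_
      have hx' := hQ1 hx
      rw [hU₀] at hx'
      obtain ⟨W, ⟨hW1, hW2⟩, hxW⟩ := hx'
      refine ⟨W, mem_nhdsWithin_of_mem_nhds (hW1.mem_nhds hxW), ?_⟩
      rw [Measure.restrict_apply hW1.measurableSet, inter_comm]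
      exact hW2
    rwa [Measure.restrict_apply hU₀o.measurableSet, inter_comm] at h1
  obtain ⟨A₂, hA₂⟩ : ∃ A₂ : Set K, A₂ = A₁ \ U₀ := ⟨_, rfl⟩
  have hA₂ne : A₂.Nonempty := by
    rw [nonempty_iff_ne_empty]
    intro he
    have h1 : A₁ ⊆ A₁ ∩ U₀ := fun x hx => ⟨hx, by
      by_contra hxU
      have : x ∈ A₂ := by rw [hA₂]; exact ⟨hx, hxU⟩
      rw [he] at this
      exact this⟩
    have h2 := measure_mono_null h1 hU₀n
    rw [measureReal_def, h2] at hk
    simp at hk
  have hA₂pos : ∀ x ∈ A₂, ∀ W : Set K, IsOpen W → x ∈ W → 0 < μ.real (A₁ ∩ W) := by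
    intro x hx W hW hxW
    rw [hA₂] at hx
    refine lt_of_le_of_ne measureReal_nonneg fun h0 => hx.2 ?_
    rw [hU₀]
    refine ⟨W, ⟨hW, ?_⟩, hxW⟩
    rwa [eq_comm, measureReal_eq_zero_iff (measure_ne_top _ _)] at h0
  -- the closed convex hull
  obtain ⟨H, hH⟩ : ∃ H : Set V, H = convexHull ℝ ((↑) '' A₂ : Set V) := ⟨_, rfl⟩
  have hHK : H ⊆ K := by
    rw [hH]
    refine convexHull_min ?_ hKc
    rintro _ ⟨x, _, rfl⟩
    exact x.2
  have hHc : Convex ℝ H := by rw [hH]; exact convex_convexHull ℝ _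
  have hKcl : IsClosed K := by
    have : IsCompact K := isCompact_iff_compactSpace.mpr inferInstance
    exact this.isClosed
  obtain ⟨Y, hY⟩ : ∃ Y : Set K, Y = (↑) ⁻¹' closure H := ⟨_, rfl⟩
  have hYcl : IsClosed Y := by rw [hY]; exact isClosed_closure.preimage continuous_subtype_val
  have hYim : ((↑) '' Y : Set V) = closure H := by
    rw [hY, Subtype.image_preimage_coe]
    exact inter_eq_right.mpr (closure_minimal hHK hKcl)
  have hYc : Convex ℝ ((↑) '' Y : Set V) := by rw [hYim]; exact hHc.closure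
  have hA₂Y : A₂ ⊆ Y := by
    intro x hx
    rw [hY]
    refine subset_closure ?_
    rw [hH]
    exact subset_convexHull ℝ _ ⟨x, hx, rfl⟩
  -- first dense set
  have hD1 : ∀ x ∈ Y, ∀ W : Set K, IsOpen W → x ∈ W → ∃ y ∈ W, y ∈ Y ∧ r ≤ f y := by
    intro x hx W hW hxW
    have h1 : x ∈ closure ((↑) ⁻¹' H : Set K) := by
      rw [closure_subtype, Subtype.image_preimage_coe, inter_eq_right.mpr hHK]
      rw [hY] at hx
      exact hx
    obtain ⟨y, hyW, hyH⟩ := mem_closure_iff.mp h1 W hW hxW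
    refine ⟨y, hyW, ?_, ?_⟩
    · rw [hY]; exact subset_closure hyH
    · have h2 : H ⊆ {v : V | ∃ h : v ∈ K, r ≤ f ⟨v, h⟩} := by
        rw [hH]
        refine convexHull_min ?_ ?_
        · rintro _ ⟨z, hz, rfl⟩
          refine ⟨z.2, ?_⟩
          rw [hA₂, hA₁] at hz
          exact hz.1.2.1
        · rintro u ⟨hu1, hu2⟩ v ⟨hv1, hv2⟩ s t hs' ht' hst
          refine ⟨hKc hu1 hv1 hs' ht' hst, ?_⟩
          have h3 := hf ⟨u, hu1⟩ ⟨v, hv1⟩ ⟨s • u + t • v, hKc hu1 hv1 hs' ht' hst⟩ s hs'
            (by linarith) (by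
              show s • u + t • v = s • u + (1 - s) • v
              rw [show 1 - s = t by linarith])
          rw [h3, show 1 - s = t by linarith, smul_eq_mul, smul_eq_mul]
          calc r = s * r + t * r := by rw [← add_mul, hst, one_mul]
            _ ≤ _ := add_le_add (mul_le_mul_of_nonneg_left hu2 hs')
                (mul_le_mul_of_nonneg_left hv2 ht')
      obtain ⟨_, h3⟩ := h2 hyH
      exact h3
  -- second dense set
  have hD2 : ∀ x ∈ Y, ∀ W : Set K, IsOpen W → x ∈ W → ∃ y ∈ W, y ∈ Y ∧ f y ≤ r - c / 2 := by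
    obtain ⟨Z, hZ⟩ : ∃ Z : Set V, Z = {v : V | ∃ h : v ∈ K, (⟨v, h⟩ : K) ∈ Y ∧
        f ⟨v, h⟩ ≤ r - c / 2} := ⟨_, rfl⟩
    have hZK : Z ⊆ K := by rw [hZ]; rintro v ⟨h, _⟩; exact h
    have hZc : Convex ℝ Z := by
      rw [hZ]
      rintro u ⟨hu1, hu2, hu3⟩ v ⟨hv1, hv2, hv3⟩ s t hs' ht' hst
      refine ⟨hKc hu1 hv1 hs' ht' hst, ?_, ?_⟩
      · obtain ⟨w, hw1, hw2⟩ := hYc ⟨_, hu2, rfl⟩ ⟨_, hv2, rfl⟩ hs' ht' hst
        have : w = ⟨s • u + t • v, hKc hu1 hv1 hs' ht' hst⟩ := Subtype.ext hw2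
        rwa [← this]
      · have h3 := hf ⟨u, hu1⟩ ⟨v, hv1⟩ ⟨s • u + t • v, hKc hu1 hv1 hs' ht' hst⟩ s hs'
            (by linarith) (by
              show s • u + t • v = s • u + (1 - s) • v
              rw [show 1 - s = t by linarith])
        rw [h3, show 1 - s = t by linarith, smul_eq_mul, smul_eq_mul]
        calc _ ≤ s * (r - c / 2) + t * (r - c / 2) := add_le_add
                (mul_le_mul_of_nonneg_left hu3 hs') (mul_le_mul_of_nonneg_left hv3 ht')
          _ = r - c / 2 := by rw [← add_mul, hst, one_mul]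
    have hA₂Z : ((↑) '' A₂ : Set V) ⊆ closure Z := by
      rintro _ ⟨x, hx, rfl⟩
      rw [mem_closure_iff_nhds]
      intro N hN
      obtain ⟨N', hN'1, hN'2, hN'3, hN'4⟩ : ∃ N' ∈ 𝓝 (x : V), IsClosed N' ∧ Convex ℝ N' ∧ N' ⊆ N := by
        obtain ⟨N₁, hN₁, hN₁c, hN₁N⟩ := exists_mem_nhds_isClosed_subset hN
        obtain ⟨N₂, ⟨hN₂, hN₂c⟩, hN₂N⟩ :=
          ((locallyConvexSpace_iff ℝ V).mp inferInstance (x : V)).mem_iff.mp hN₁
        exact ⟨closure N₂, mem_of_superset hN₂ subset_closure, isClosed_closure, hN₂c.closure,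
          (closure_minimal hN₂N hN₁c).trans hN₁N⟩
      have hO : IsOpen ((↑) ⁻¹' interior N' : Set K) :=
        isOpen_interior.preimage continuous_subtype_val
      have hpos := hA₂pos x hx _ hO (mem_interior_iff_mem_nhds.mpr hN'1)
      have hAm : MeasurableSet (A₁ ∩ ((↑) ⁻¹' interior N' : Set K)) := hA₁m.inter hO.measurableSet
      have hb1 : bary hKc μ (A₁ ∩ ((↑) ⁻¹' interior N' : Set K)) ∈ ((↑) ⁻¹' N' : Set K) := by
        refine bary_mem hKc μ (hN'2.preimage continuous_subtype_val) ?_ hAm ?_ hpos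
        · rw [Subtype.image_preimage_coe]
          exact hKc.inter hN'3
        · have : (A₁ ∩ ((↑) ⁻¹' interior N' : Set K)) \ ((↑) ⁻¹' N' : Set K) = ∅ := by
            rw [sdiff_eq_empty]
            intro y hy
            show (y : V) ∈ N'
            exact interior_subset hy.2
          rw [this, measure_empty]
      have hb2 : bary hKc μ (A₁ ∩ ((↑) ⁻¹' interior N' : Set K)) ∈ Y := by
        refine bary_mem hKc μ hYcl hYc hAm ?_ hpos
        refine measure_mono_null ?_ hU₀n
        rintro y ⟨⟨hy1, _⟩, hy2⟩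
        refine ⟨hy1, ?_⟩
        by_contra hyU
        exact hy2 (hA₂Y (by rw [hA₂]; exact ⟨hy1, hyU⟩))
      have hb3 := hlow _ inter_subset_left hAm hpos
      obtain ⟨bb, hbb⟩ : ∃ bb : K, bb = bary hKc μ (A₁ ∩ ((↑) ⁻¹' interior N' : Set K)) :=
        ⟨_, rfl⟩
      rw [← hbb] at hb1 hb2 hb3
      refine ⟨(bb : V), hN'4 hb1, ?_⟩
      rw [hZ]
      exact ⟨bb.2, hb2, hb3⟩
    have hYZ : closure H ⊆ closure Z := by
      refine closure_minimal ?_ isClosed_closure
      rw [hH]
      exact convexHull_min hA₂Z hZc.closure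
    intro x hx W hW hxW
    have h1 : x ∈ closure ((↑) ⁻¹' Z : Set K) := by
      rw [closure_subtype, Subtype.image_preimage_coe, inter_eq_right.mpr hZK]
      rw [hY] at hx
      exact hYZ hx
    obtain ⟨y, hyW, hyZ⟩ := mem_closure_iff.mp h1 W hW hxW
    rw [hZ] at hyZ
    obtain ⟨h, h2, h3⟩ := hyZ
    exact ⟨y, hyW, h2, h3⟩
  -- Baire category
  have hYne : Nonempty Y := by
    obtain ⟨x, hx⟩ := hA₂ne
    exact ⟨⟨x, hA₂Y hx⟩⟩
  have hYcomp : CompactSpace Y := isCompact_iff_compactSpace.mp hYcl.isCompact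
  have hcovN : (⋃ N : ℕ, {y : Y | ∀ n ≥ N, |g n y - g N y| ≤ c / 16}) = univ := by
    rw [eq_univ_iff_forall]
    intro y
    have h1 := (hg y).cauchySeq
    obtain ⟨N, hN⟩ := Metric.cauchySeq_iff.mp h1 (c / 16) (by positivity)
    rw [mem_iUnion]
    refine ⟨N, fun n hn => ?_⟩
    rw [← Real.dist_eq]
    exact (hN n hn N le_rfl).le
  obtain ⟨N, y₀, hy₀⟩ := nonempty_interior_of_iUnion_of_closed (fun N => by
    have : {y : Y | ∀ n ≥ N, |g n y - g N y| ≤ c / 16} =
        ⋂ (n : ℕ) (_ : n ≥ N), {y : Y | |g n y - g N y| ≤ c / 16} := by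
      ext y; simp
    rw [this]
    refine isClosed_iInter fun n => isClosed_iInter fun _ => isClosed_le ?_ continuous_const
    exact (((g n).continuous.comp continuous_subtype_val).sub
      ((g N).continuous.comp continuous_subtype_val)).abs) hcovN
  obtain ⟨O, hO, hOeq⟩ := isOpen_induced_iff.mp
    (isOpen_interior (s := {y : Y | ∀ n ≥ N, |g n y - g N y| ≤ c / 16}))
  have hfg : ∀ y ∈ O, y ∈ Y → |f y - g N y| ≤ c / 16 := by
    intro y hyO hyY
    have h1 : (⟨y, hyY⟩ : Y) ∈ interior {y : Y | ∀ n ≥ N, |g n y - g N y| ≤ c / 16} := by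
      rw [← hOeq]; exact hyO
    have h2 := interior_subset h1
    refine le_of_tendsto ((hg y).sub_const _).abs ?_
    filter_upwards [eventually_ge_atTop N] with n hn
    exact h2 n hn
  have hy₀O : (y₀ : K) ∈ O := by
    have : y₀ ∈ (Subtype.val ⁻¹' O : Set Y) := by rw [hOeq]; exact hy₀
    exact this
  have h1 : r - c / 16 ≤ g N y₀ := by
    by_contra hcon'
    push Not at hcon'
    obtain ⟨y, ⟨hyO, hylt⟩, hyY, hyf⟩ := hD1 y₀ y₀.2 (O ∩ {y : K | g N y < r - c / 16})
      (hO.inter (isOpen_lt (g N).continuous continuous_const)) ⟨hy₀O, hcon'⟩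
    have := (abs_le.mp (hfg y hyO hyY)).2
    have hylt' : g N y < r - c / 16 := hylt
    linarith
  have h2 : g N y₀ ≤ r - c / 2 + c / 16 := by
    by_contra hcon'
    push Not at hcon'
    obtain ⟨y, ⟨hyO, hylt⟩, hyY, hyf⟩ := hD2 y₀ y₀.2 (O ∩ {y : K | r - c / 2 + c / 16 < g N y})
      (hO.inter (isOpen_lt continuous_const (g N).continuous)) ⟨hy₀O, hcon'⟩
    have := (abs_le.mp (hfg y hyO hyY)).1
    have hylt' : r - c / 2 + c / 16 < g N y := hylt
    linarith
  linarith

/-- Choquet's theorem. -/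
theorem baryc_eq [Nonempty K] (hKc : Convex ℝ K) (μ : Measure K) [IsFiniteMeasure μ] [μ.Regular]
    {f : K → ℝ} (hf : Aff f) {C : ℝ} (hfC : ∀ x, |f x| ≤ C) (g : ℕ → C(K, ℝ))
    (hg : ∀ x, Tendsto (fun n => g n x) atTop (𝓝 (f x))) :
    ∫ x, f x ∂μ = μ.real univ * f (bary hKc μ univ) := by
  refine le_antisymm (baryc_le hKc μ hf hfC g hg) ?_
  have hf' : Aff (fun x => - f x) := by
    intro x y z t h0 h1 hz
    show - f z = t • (- f x) + (1 - t) • (- f y)
    rw [hf x y z t h0 h1 hz]
    simp only [smul_eq_mul]; ring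
  have := baryc_le hKc μ hf' (C := C) (fun x => by rw [abs_neg]; exact hfC x) (fun n => - g n)
    (fun x => (hg x).neg)
  rw [integral_neg] at this
  linarith

/-- Two measures which agree on the affine continuous functions agree on the affine functions of
the first Baire class. -/
theorem integral_eq_of_agree (hKc : Convex ℝ K) (μ ν : Measure K) [IsFiniteMeasure μ]
    [IsFiniteMeasure ν] [μ.Regular] [ν.Regular]
    (hagree : ∀ a : C(K, ℝ), Aff (fun x => a x) → ∫ x, a x ∂μ = ∫ x, a x ∂ν)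
    {f : K → ℝ} (hf : Aff f) {C : ℝ} (hfC : ∀ x, |f x| ≤ C) (g : ℕ → C(K, ℝ))
    (hg : ∀ x, Tendsto (fun n => g n x) atTop (𝓝 (f x))) : ∫ x, f x ∂μ = ∫ x, f x ∂ν := by
  rcases isEmpty_or_nonempty K with he | hne
  · rw [Measure.eq_zero_of_isEmpty μ, Measure.eq_zero_of_isEmpty ν]
  have hmass : μ.real univ = ν.real univ := by
    have := hagree _ (aff_const 1)
    simpa using this
  rw [baryc_eq hKc μ hf hfC g hg, baryc_eq hKc ν hf hfC g hg, ← hmass]
  rcases (measureReal_nonneg (μ := μ) (s := univ)).eq_or_lt with h0 | h0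
  · rw [← h0]; ring
  · congr 2
    refine eq_of_aff fun a ha => ?_
    have h1 := bary_spec hKc μ univ a ha
    have h2 := bary_spec hKc ν univ a ha
    rw [Measure.restrict_univ] at h1 h2
    rw [← hagree a ha, ← h1, ← hmass] at h2
    exact (mul_left_cancel₀ h0.ne' h2).symm

end bary

end Pool.Agent.V1199.Bary
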