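import Mathlib
import Pool.Agent.V1199.Bary

open Set Filter Topology MeasureTheory CompactlySupported NNReal
open scoped Pointwise

namespace Pool.Agent.V1199.AffBaire

open Pool.Agent.V1199.Bary

section dom

variable {K : Type*} [TopologicalSpace K] [CompactSpace K] [T2Space K]
variable {E : Type*} [NormedAddCommGroup E] [NormedSpace ℝ E]

/-- The values of `L` on the maps dominated by `φ`. -/
def valSet (L : C(K, E) →L[ℝ] ℝ) (φ : K → ℝ) : Set ℝ := {r | ∃ u : C(K, E), (∀ x, ‖u x‖ ≤ φ x) ∧ r = L u}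

/-- The variation functional. -/
noncomputable def vari (L : C(K, E) →L[ℝ] ℝ) (φ : K → ℝ) : ℝ := sSup (valSet L φ)

theorem valSet_bdd (L : C(K, E) →L[ℝ] ℝ) {φ : K → ℝ} {M : ℝ} (hM : ∀ x, φ x ≤ M) (hM0 : 0 ≤ M) :
    BddAbove (valSet L φ) := by
  refine ⟨‖L‖ * M, ?_⟩
  rintro _ ⟨u, hu, rfl⟩
  refine (le_abs_self _).trans ((L.le_opNorm u).trans ?_)
  refine mul_le_mul_of_nonneg_left ?_ (norm_nonneg _)
  exact (ContinuousMap.norm_le u hM0).mpr fun x => (hu x).trans (hM x)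

theorem bound_of_cont (φ : C(K, ℝ)) : ∃ M : ℝ, 0 ≤ M ∧ ∀ x, φ x ≤ M :=
  ⟨‖φ‖, norm_nonneg _, fun x => (le_abs_self _).trans (φ.norm_coe_le_norm x)⟩

theorem valSet_bdd' (L : C(K, E) →L[ℝ] ℝ) (φ : C(K, ℝ)) : BddAbove (valSet L φ) := by
  obtain ⟨M, hM0, hM⟩ := bound_of_cont φ
  exact valSet_bdd L hM hM0

theorem zero_mem_valSet (L : C(K, E) →L[ℝ] ℝ) {φ : K → ℝ} (hφ : ∀ x, 0 ≤ φ x) :
    (0 : ℝ) ∈ valSet L φ := ⟨0, fun x => by simpa using hφ x, by simp⟩

theorem vari_nonneg (L : C(K, E) →L[ℝ] ℝ) (φ : C(K, ℝ)) (hφ : ∀ x, 0 ≤ φ x) : 0 ≤ vari L φ :=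
  le_csSup (valSet_bdd' L φ) (zero_mem_valSet L hφ)

theorem le_vari (L : C(K, E) →L[ℝ] ℝ) (φ : C(K, ℝ)) {u : C(K, E)} (hu : ∀ x, ‖u x‖ ≤ φ x) :
    L u ≤ vari L φ := le_csSup (valSet_bdd' L φ) ⟨u, hu, rfl⟩

theorem vari_add (L : C(K, E) →L[ℝ] ℝ) (φ ψ : C(K, ℝ)) (hφ : ∀ x, 0 ≤ φ x) (hψ : ∀ x, 0 ≤ ψ x) :
    vari L (fun x => φ x + ψ x) = vari L φ + vari L ψ := by
  have hbdd : BddAbove (valSet L (fun x => φ x + ψ x)) := valSet_bdd' L (φ + ψ)
  refine le_antisymm ?_ ?_
  · refine csSup_le ⟨0, zero_mem_valSet L fun x => add_nonneg (hφ x) (hψ x)⟩ ?_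
    rintro _ ⟨w, hw, rfl⟩
    refine le_of_forall_pos_le_add fun ε hε => ?_
    obtain ⟨δ, hδ⟩ : ∃ δ : ℝ, δ = ε / (‖L‖ + 1) := ⟨_, rfl⟩
    have hδ0 : 0 < δ := by rw [hδ]; positivity
    have hpos : ∀ x, 0 < φ x + ψ x + δ := fun x => by linarith [hφ x, hψ x]
    let u : C(K, E) := ⟨fun x => (φ x / (φ x + ψ x + δ)) • w x, by
      refine Continuous.smul ?_ w.continuous
      exact φ.continuous.div ((φ.continuous.add ψ.continuous).add continuous_const)
        fun x => (hpos x).ne'⟩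
    let v : C(K, E) := ⟨fun x => (ψ x / (φ x + ψ x + δ)) • w x, by
      refine Continuous.smul ?_ w.continuous
      exact ψ.continuous.div ((φ.continuous.add ψ.continuous).add continuous_const)
        fun x => (hpos x).ne'⟩
    have hu : ∀ x, ‖u x‖ ≤ φ x := by
      intro x
      show ‖(φ x / (φ x + ψ x + δ)) • w x‖ ≤ φ x
      rw [norm_smul, Real.norm_of_nonneg (div_nonneg (hφ x) (hpos x).le), div_mul_eq_mul_div,
        div_le_iff₀ (hpos x)]
      exact mul_le_mul_of_nonneg_left (by linarith [hw x]) (hφ x)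
    have hv : ∀ x, ‖v x‖ ≤ ψ x := by
      intro x
      show ‖(ψ x / (φ x + ψ x + δ)) • w x‖ ≤ ψ x
      rw [norm_smul, Real.norm_of_nonneg (div_nonneg (hψ x) (hpos x).le), div_mul_eq_mul_div,
        div_le_iff₀ (hpos x)]
      exact mul_le_mul_of_nonneg_left (by linarith [hw x]) (hψ x)
    have hrest : ‖w - u - v‖ ≤ δ := by
      refine (ContinuousMap.norm_le _ hδ0.le).mpr fun x => ?_
      have : (w - u - v) x = (δ / (φ x + ψ x + δ)) • w x := by
        show w x - (φ x / (φ x + ψ x + δ)) • w x - (ψ x / (φ x + ψ x + δ)) • w x = _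
        have h1 : (1 : ℝ) - φ x / (φ x + ψ x + δ) - ψ x / (φ x + ψ x + δ) = δ / (φ x + ψ x + δ) := by
          have := (hpos x).ne'
          field_simp
          ring
        rw [← h1, sub_smul, sub_smul, one_smul]
      rw [this, norm_smul, Real.norm_of_nonneg (div_nonneg hδ0.le (hpos x).le), div_mul_eq_mul_div,
        div_le_iff₀ (hpos x)]
      exact mul_le_mul_of_nonneg_left (by linarith [hw x]) hδ0.le
    have h1 : L w = L u + L v + L (w - u - v) := by
      rw [map_sub, map_sub]; ring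
    have h2 : L (w - u - v) ≤ ε := by
      refine (le_abs_self _).trans ((L.le_opNorm _).trans ?_)
      calc ‖L‖ * ‖w - u - v‖ ≤ ‖L‖ * δ := mul_le_mul_of_nonneg_left hrest (norm_nonneg _)
        _ ≤ (‖L‖ + 1) * δ := mul_le_mul_of_nonneg_right (by linarith) hδ0.le
        _ = ε := by rw [hδ]; field_simp
    have h3 := le_vari L φ hu
    have h4 := le_vari L ψ hv
    linarith
  · have h1 : ∀ s ∈ valSet L φ, ∀ t ∈ valSet L ψ, s + t ≤ vari L (fun x => φ x + ψ x) := by
      rintro _ ⟨u, hu, rfl⟩ _ ⟨v, hv, rfl⟩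
      refine le_csSup hbdd ⟨u + v, fun x => ?_, by rw [map_add]⟩
      exact (norm_add_le _ _).trans (add_le_add (hu x) (hv x))
    have h2 : ∀ s ∈ valSet L φ, s ≤ vari L (fun x => φ x + ψ x) - vari L ψ := by
      intro s hs
      have : vari L ψ ≤ vari L (fun x => φ x + ψ x) - s :=
        csSup_le ⟨0, zero_mem_valSet L hψ⟩ fun t ht => by linarith [h1 s hs t ht]
      linarith
    have h3 : vari L φ ≤ vari L (fun x => φ x + ψ x) - vari L ψ :=
      csSup_le ⟨0, zero_mem_valSet L hφ⟩ h2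
    linarith

theorem vari_smul (L : C(K, E) →L[ℝ] ℝ) (φ : C(K, ℝ)) (hφ : ∀ x, 0 ≤ φ x) {c : ℝ} (hc : 0 ≤ c) :
    vari L (fun x => c * φ x) = c * vari L φ := by
  rcases hc.eq_or_lt with rfl | hc
  · rw [zero_mul]
    refine le_antisymm ?_ (le_csSup (valSet_bdd L (M := 0) (fun x => by simp) le_rfl)
      (zero_mem_valSet L fun x => by simp))
    refine csSup_le ⟨0, zero_mem_valSet L fun x => by simp⟩ ?_
    rintro _ ⟨u, hu, rfl⟩
    have : u = 0 := by
      ext x
      have h : ‖u x‖ ≤ 0 * φ x := hu x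
      rw [zero_mul] at h
      simpa using h
    rw [this, map_zero]
  · have key : ∀ (φ : C(K, ℝ)), (∀ x, 0 ≤ φ x) → ∀ c : ℝ, 0 < c →
        c * vari L φ ≤ vari L (fun x => c * φ x) := by
      intro φ hφ c hc
      have hb : BddAbove (valSet L (fun x => c * φ x)) := valSet_bdd' L (c • φ)
      rw [← le_div_iff₀' hc]
      refine csSup_le ⟨0, zero_mem_valSet L hφ⟩ ?_
      rintro _ ⟨u, hu, rfl⟩
      rw [le_div_iff₀' hc]
      refine le_csSup hb ⟨c • u, fun x => ?_, by rw [map_smul, smul_eq_mul]⟩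
      show ‖c • u x‖ ≤ c * φ x
      rw [norm_smul, Real.norm_of_nonneg hc.le]
      exact mul_le_mul_of_nonneg_left (hu x) hc.le
    refine le_antisymm ?_ (key φ hφ c hc)
    have h1 := key (c • φ) (fun x => mul_nonneg hc.le (hφ x)) c⁻¹ (inv_pos.mpr hc)
    have h2 : (fun x => c⁻¹ * (c • φ : C(K, ℝ)) x) = φ := by
      funext x
      show c⁻¹ * (c * φ x) = φ x
      field_simp
    rw [h2] at h1
    have h3 : vari L (⇑(c • φ : C(K, ℝ))) = vari L (fun x => c * φ x) := rfl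
    rw [h3, inv_mul_le_iff₀ hc] at h1
    exact h1

/-- A nonnegative compactly supported function as a real function. -/
def toR (φ : C_c(K, ℝ≥0)) : C(K, ℝ) := ⟨fun x => (φ x : ℝ), NNReal.continuous_coe.comp φ.continuous⟩

/-- The variation functional as a positive functional. -/
noncomputable def variL (L : C(K, E) →L[ℝ] ℝ) : C_c(K, ℝ≥0) →ₗ[ℝ≥0] ℝ≥0 where
  toFun φ := ⟨vari L (toR φ), vari_nonneg L _ fun x => (φ x).2⟩
  map_add' φ ψ := by
    apply NNReal.eq
    exact vari_add L (toR φ) (toR ψ) (fun x => (φ x).2) (fun x => (ψ x).2)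
  map_smul' c φ := by
    apply NNReal.eq
    exact vari_smul L (toR φ) (fun x => (φ x).2) c.2

/-- Domination of a functional by a measure. -/
theorem exists_dom [MeasurableSpace K] [BorelSpace K] (L : C(K, E) →L[ℝ] ℝ) :
    ∃ ν : Measure K, IsFiniteMeasure ν ∧ ν.Regular ∧ ∀ u : C(K, E), |L u| ≤ ∫ x, ‖u x‖ ∂ν := by
  refine ⟨NNRealRMK.rieszMeasure (variL L), ?_, NNRealRMK.rieszMeasure_regular _, ?_⟩
  · refine ⟨?_⟩
    let one : C_c(K, ℝ≥0) := CompactlySupportedContinuousMap.continuousMapEquiv (ContinuousMap.const K 1)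
    have h1 := NNRealRMK.lintegral_rieszMeasure (variL L) one
    have h2 : ∀ x, ((one x : ℝ≥0) : ENNReal) = 1 := fun x => by
      show (((1 : ℝ≥0)) : ENNReal) = 1
      simp
    simp only [h2, lintegral_one] at h1
    rw [h1]
    exact ENNReal.coe_lt_top
  · have key : ∀ u : C(K, E), L u ≤ ∫ x, ‖u x‖ ∂(NNRealRMK.rieszMeasure (variL L)) := by
      intro u
      let φ : C_c(K, ℝ≥0) := CompactlySupportedContinuousMap.continuousMapEquiv
        (⟨fun x => ‖u x‖₊, u.continuous.nnnorm⟩ : C(K, ℝ≥0))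
      have h1 := NNRealRMK.lintegral_rieszMeasure (variL L) φ
      have h2 : ∫ x, ‖u x‖ ∂(NNRealRMK.rieszMeasure (variL L)) = vari L (toR φ) := by
        rw [integral_eq_lintegral_of_nonneg_ae (ae_of_all _ fun x => norm_nonneg _)
          (u.continuous.norm.measurable.aestronglyMeasurable)]
        have h3 : ∀ x, ENNReal.ofReal ‖u x‖ = ((φ x : ℝ≥0) : ENNReal) := fun x => by
          show ENNReal.ofReal ‖u x‖ = ((‖u x‖₊ : ℝ≥0) : ENNReal)
          rw [ofReal_norm_eq_enorm]; rfl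
        simp only [h3]
        rw [h1]
        rfl
      rw [h2]
      exact le_vari L (toR φ) fun x => le_rfl
    intro u
    rw [abs_le]
    refine ⟨?_, key u⟩
    have := key (-u)
    rw [map_neg] at this
    have h3 : ∫ x, ‖(-u) x‖ ∂(NNRealRMK.rieszMeasure (variL L)) =
        ∫ x, ‖u x‖ ∂(NNRealRMK.rieszMeasure (variL L)) := by
      refine integral_congr_ae (ae_of_all _ fun x => ?_)
      show ‖-u x‖ = ‖u x‖
      rw [norm_neg]
    rw [h3] at this
    linarith

end dom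

section scalar

variable {V : Type*} [AddCommGroup V] [Module ℝ V] [TopologicalSpace V]
  [IsTopologicalAddGroup V] [ContinuousSMul ℝ V] [LocallyConvexSpace ℝ V] [T2Space V]
  {K : Set V} [CompactSpace K]

/-- A functional on `C(K, ℝ)` which kills the affine functions is asymptotically zero along bounded
sequences converging pointwise to an affine function. -/
theorem tendsto_scalar (hKc : Convex ℝ K) (L : C(K, ℝ) →L[ℝ] ℝ)
    (hA : ∀ a : C(K, ℝ), Aff (fun x => a x) → L a = 0) {f : K → ℝ} (hf : Aff f) {C : ℝ}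
    (g : ℕ → C(K, ℝ)) (hgC : ∀ n x, |g n x| ≤ C)
    (hg : ∀ x, Tendsto (fun n => g n x) atTop (𝓝 (f x))) :
    Tendsto (fun n => L (g n)) atTop (𝓝 0) := by
  letI : MeasurableSpace K := borel K
  haveI : BorelSpace K := ⟨rfl⟩
  obtain ⟨ν, hν1, hν2, hν⟩ := exists_dom (K := K) L
  have hfC : ∀ x, |f x| ≤ C := fun x => le_of_tendsto (hg x).abs (Eventually.of_forall fun n => hgC n x)
  let Λ₀ : C_c(K, ℝ) →ₗ[ℝ] ℝ :=
    { toFun := fun φ => L ⟨φ, φ.continuous⟩ + ∫ x, φ x ∂ν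
      map_add' := by
        intro φ ψ
        have h1 : ∫ x, (φ + ψ) x ∂ν = ∫ x, φ x ∂ν + ∫ x, ψ x ∂ν :=
          integral_add (integrable_cont ν ⟨φ, φ.continuous⟩) (integrable_cont ν ⟨ψ, ψ.continuous⟩)
        have h2 : (⟨⇑(φ + ψ), (φ + ψ).continuous⟩ : C(K, ℝ)) = ⟨φ, φ.continuous⟩ + ⟨ψ, ψ.continuous⟩ := rfl
        rw [h1, h2, map_add]
        ring
      map_smul' := by
        intro c φ
        have h1 : ∫ x, (c • φ) x ∂ν = c * ∫ x, φ x ∂ν := integral_const_mul c _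
        have h2 : (⟨⇑(c • φ), (c • φ).continuous⟩ : C(K, ℝ)) = c • ⟨φ, φ.continuous⟩ := rfl
        rw [h1, h2, map_smul, smul_eq_mul, RingHom.id_apply, smul_eq_mul]
        ring }
  let Λ : C_c(K, ℝ) →ₚ[ℝ] ℝ := PositiveLinearMap.mk₀ Λ₀ (by
    intro φ hφ
    have h1 := hν ⟨φ, φ.continuous⟩
    have h2 : ∫ x, ‖(⟨φ, φ.continuous⟩ : C(K, ℝ)) x‖ ∂ν = ∫ x, φ x ∂ν := by
      refine integral_congr_ae (ae_of_all _ fun x => ?_)
      show ‖φ x‖ = φ x
      exact Real.norm_of_nonneg (hφ x)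
    rw [h2] at h1
    show 0 ≤ L ⟨φ, φ.continuous⟩ + ∫ x, φ x ∂ν
    linarith [(abs_le.mp h1).1])
  have hrep : ∀ u : C(K, ℝ), ∫ x, u x ∂(RealRMK.rieszMeasure Λ) = L u + ∫ x, u x ∂ν := by
    intro u
    exact RealRMK.integral_rieszMeasure Λ (CompactlySupportedContinuousMap.continuousMapEquiv u)
  obtain ⟨μ, hμ⟩ : ∃ μ, μ = RealRMK.rieszMeasure Λ := ⟨_, rfl⟩
  rw [← hμ] at hrep
  haveI hμ2 : μ.Regular := by rw [hμ]; exact RealRMK.regular_rieszMeasure Λ
  haveI hμ1 : IsFiniteMeasure μ := CompactSpace.isFiniteMeasure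
  have hagree : ∀ a : C(K, ℝ), Aff (fun x => a x) → ∫ x, a x ∂μ = ∫ x, a x ∂ν := by
    intro a ha
    rw [hrep, hA a ha, zero_add]
  have heq := integral_eq_of_agree hKc μ ν hagree hf hfC g hg
  have hlim : ∀ (ρ : Measure K) [IsFiniteMeasure ρ],
      Tendsto (fun n => ∫ x, g n x ∂ρ) atTop (𝓝 (∫ x, f x ∂ρ)) := by
    intro ρ _
    refine tendsto_integral_of_dominated_convergence (fun _ => C)
      (fun n => (integrable_cont ρ (g n)).aestronglyMeasurable) (integrable_const C)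
      (fun n => ae_of_all _ fun x => ?_) (ae_of_all _ fun x => hg x)
    rw [Real.norm_eq_abs]; exact hgC n x
  have h1 := (hlim μ).sub (hlim ν)
  rw [heq, sub_self] at h1
  refine h1.congr fun n => ?_
  rw [hrep]; ring

end scalar

section approx

variable {K : Type*} [TopologicalSpace K] [CompactSpace K] [T2Space K]
variable {E : Type*} [NormedAddCommGroup E] [NormedSpace ℝ E]

/-- A rapidly convergent sequence can be uniformly approximated in `L¹`, with no uniform bound for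
the norms of the approximating operators. -/
theorem exists_compact (s : ℕ → C(K, E)) : ∃ C : Set E, IsCompact C ∧ (0 : E) ∈ C ∧
    ∀ (T : E →L[ℝ] E) (ε : ℝ),
    (∀ y ∈ C, ‖T y - y‖ ≤ ε) → ∀ k x, ‖T (s k x) - s k x‖ ≤
      ε * (2 ^ k * (‖s k x‖ + (1 / 4) ^ k)) := by
  let z : ℕ × K → E := fun p => ((1 / 2 : ℝ) ^ p.1 * (max ‖s p.1 p.2‖ ((1 / 4 : ℝ) ^ p.1))⁻¹) • s p.1 p.2
  have hpos : ∀ (k : ℕ) (x : K), 0 < max ‖s k x‖ ((1 / 4 : ℝ) ^ k) := fun k x =>
    lt_max_of_lt_right (by positivity)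
  have hz : Continuous z := by
    rw [continuous_prod_of_discrete_left]
    intro k
    refine Continuous.smul ?_ (s k).continuous
    have h1 : Continuous fun x => (max ‖s k x‖ ((1 / 4 : ℝ) ^ k))⁻¹ :=
      Continuous.inv₀ ((s k).continuous.norm.max continuous_const) fun x => (hpos k x).ne'
    have h2 : Continuous fun x => (1 / 2 : ℝ) ^ k * (max ‖s k x‖ ((1 / 4 : ℝ) ^ k))⁻¹ :=
      continuous_const.mul h1
    exact h2
  have hzn : ∀ k x, ‖z (k, x)‖ ≤ (1 / 2 : ℝ) ^ k := by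
    intro k x
    show ‖((1 / 2 : ℝ) ^ k * (max ‖s k x‖ ((1 / 4 : ℝ) ^ k))⁻¹) • s k x‖ ≤ _
    rw [norm_smul, Real.norm_of_nonneg (mul_nonneg (by positivity) (inv_nonneg.mpr (hpos k x).le)),
      mul_assoc, inv_mul_eq_div]
    exact mul_le_of_le_one_right (by positivity) ((div_le_one (hpos k x)).mpr (le_max_left _ _))
  have hzlim : Tendsto z (cocompact (ℕ × K)) (𝓝 0) := by
    rw [Metric.tendsto_nhds]
    intro ε hε
    obtain ⟨N, hN⟩ := exists_pow_lt_of_lt_one hε (by norm_num : (1 / 2 : ℝ) < 1)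
    refine mem_cocompact.mpr ⟨Iio N ×ˢ univ, (finite_Iio N).isCompact.prod isCompact_univ, ?_⟩
    rintro ⟨k, x⟩ hk
    have hk' : N ≤ k := by
      by_contra hcon
      exact hk ⟨by push Not at hcon; exact hcon, mem_univ _⟩
    show dist (z (k, x)) 0 < ε
    rw [dist_zero_right]
    exact (hzn k x).trans_lt ((pow_le_pow_of_le_one (by norm_num) (by norm_num) hk').trans_lt hN)
  refine ⟨_, hzlim.isCompact_insert_range_of_cocompact hz, mem_insert _ _, ?_⟩
  intro T ε hT k x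
  have h1 := hT (z (k, x)) (mem_insert_of_mem _ (mem_range_self _))
  have hε : 0 ≤ ε := (norm_nonneg _).trans h1
  have h2 : s k x = (2 ^ k * max ‖s k x‖ ((1 / 4 : ℝ) ^ k)) • z (k, x) := by
    show s k x = (2 ^ k * max ‖s k x‖ ((1 / 4 : ℝ) ^ k)) •
      (((1 / 2 : ℝ) ^ k * (max ‖s k x‖ ((1 / 4 : ℝ) ^ k))⁻¹) • s k x)
    rw [smul_smul]
    have : (2 ^ k * max ‖s k x‖ ((1 / 4 : ℝ) ^ k)) *
        ((1 / 2 : ℝ) ^ k * (max ‖s k x‖ ((1 / 4 : ℝ) ^ k))⁻¹) = 1 := by
      have h3 : (2 : ℝ) ^ k * (1 / 2 : ℝ) ^ k = 1 := by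
        rw [← mul_pow]; norm_num
      have h4 := mul_inv_cancel₀ (hpos k x).ne'
      calc _ = ((2 : ℝ) ^ k * (1 / 2 : ℝ) ^ k) * (max ‖s k x‖ ((1 / 4 : ℝ) ^ k) *
            (max ‖s k x‖ ((1 / 4 : ℝ) ^ k))⁻¹) := by ring
        _ = 1 := by rw [h3, h4, one_mul]
    rw [this, one_smul]
  have h3 : ‖T (s k x) - s k x‖ = (2 ^ k * max ‖s k x‖ ((1 / 4 : ℝ) ^ k)) * ‖T (z (k, x)) - z (k, x)‖ := by
    conv_lhs => rw [h2]
    rw [map_smul, ← smul_sub, norm_smul, Real.norm_of_nonneg (mul_nonneg (by positivity) (hpos k x).le)]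
  rw [h3, mul_comm ε]
  refine mul_le_mul (mul_le_mul_of_nonneg_left ?_ (by positivity)) h1 (norm_nonneg _)
    (by positivity)
  exact max_le_add_of_nonneg (norm_nonneg _) (by positivity)

theorem integral_norm_nonneg [MeasurableSpace K] (ν : Measure K) (u : C(K, E)) :
    0 ≤ ∫ x, ‖u x‖ ∂ν := integral_nonneg fun x => norm_nonneg _

theorem integrable_norm [MeasurableSpace K] [BorelSpace K] (ν : Measure K) [IsFiniteMeasure ν]
    (u : C(K, E)) : Integrable (fun x => ‖u x‖) ν :=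
  u.continuous.norm.integrable_of_hasCompactSupport (HasCompactSupport.of_compactSpace _)

/-- The key `L¹`-approximation: along a subsequence one can approximate by finite rank operators. -/
theorem exists_subseq [MeasurableSpace K] [BorelSpace K] (ν : Measure K) [IsFiniteMeasure ν]
    {M : ℝ} (g : ℕ → C(K, E)) (hgM : ∀ n x, ‖g n x‖ ≤ M) (f : K → E)
    (hg : ∀ x, Tendsto (fun n => g n x) atTop (𝓝 (f x))) :
    ∃ φ : ℕ → ℕ, StrictMono φ ∧ ∃ C : Set E, IsCompact C ∧ ∀ (T : E →L[ℝ] E) (ε : ℝ),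
      (∀ y ∈ C, ‖T y - y‖ ≤ ε) →
      ∀ k, ∫ x, ‖T (g (φ k) x) - g (φ k) x‖ ∂ν ≤ ε * (3 * ν.real univ + 2) := by
  have hcau : Tendsto (fun p : ℕ × ℕ => ∫ x, ‖g p.1 x - g p.2 x‖ ∂ν) atTop (𝓝 (∫ _ : K, (0 : ℝ) ∂ν)) := by
    refine tendsto_integral_filter_of_dominated_convergence (fun _ => 2 * M)
      (Eventually.of_forall fun p => (integrable_norm ν (g p.1 - g p.2)).aestronglyMeasurable)
      (Eventually.of_forall fun p => ae_of_all _ fun x => ?_) (integrable_const _)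
      (ae_of_all _ fun x => ?_)
    · rw [norm_norm]
      exact (norm_sub_le _ _).trans (by linarith [hgM p.1 x, hgM p.2 x])
    · have h1 := (hg x).cauchySeq
      have h2 : Tendsto (fun p : ℕ × ℕ => dist (g p.1 x) (g p.2 x)) atTop (𝓝 0) :=
        cauchySeq_iff_tendsto_dist_atTop_0.mp h1
      simpa [dist_eq_norm] using h2
  rw [integral_zero] at hcau
  obtain ⟨φ, hφ, hφ2⟩ := extraction_forall_of_eventually
    (P := fun k n => ∀ m ≥ n, ∫ x, ‖g n x - g m x‖ ∂ν ≤ (1 / 4 : ℝ) ^ k) (by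
      intro k
      have h1 : ∀ᶠ p : ℕ × ℕ in atTop, ∫ x, ‖g p.1 x - g p.2 x‖ ∂ν ≤ (1 / 4 : ℝ) ^ k :=
        hcau.eventually (eventually_le_nhds (by positivity))
      rw [eventually_atTop] at h1
      obtain ⟨⟨a, b⟩, hab⟩ := h1
      filter_upwards [eventually_ge_atTop (max a b)] with n hn m hm
      exact hab (n, m) ⟨(le_max_left _ _).trans hn, (le_max_right _ _).trans (hn.trans hm)⟩)
  refine ⟨φ, hφ, ?_⟩
  obtain ⟨C₁, hC₁, hC₁0, hC₁T⟩ := exists_compact (fun k => g (φ (k + 1)) - g (φ k))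
  refine ⟨C₁ ∪ range (g (φ 0)), hC₁.union (isCompact_range (g (φ 0)).continuous), ?_⟩
  intro T ε hT
  have hε : 0 ≤ ε := (norm_nonneg _).trans (hT 0 (Or.inl hC₁0))
  have key : ∀ k, ∫ x, ‖T (g (φ k) x) - g (φ k) x‖ ∂ν ≤
      ε * (ν.real univ + (1 + ν.real univ) * ∑ j ∈ Finset.range k, (1 / 2 : ℝ) ^ j) := by
    intro k
    let R : ℕ → C(K, E) := fun k => (ContinuousMap.comp ⟨T, T.continuous⟩ (g (φ k))) - g (φ k)
    have hR : ∀ k x, R k x = T (g (φ k) x) - g (φ k) x := fun k x => rfl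
    induction k with
    | zero =>
      have h1 : ∫ x, ‖T (g (φ 0) x) - g (φ 0) x‖ ∂ν ≤ ∫ _, ε ∂ν :=
        integral_mono (integrable_norm ν (R 0)) (integrable_const _)
          fun x => hT _ (Or.inr (mem_range_self x))
      rw [integral_const, smul_eq_mul] at h1
      simp only [Finset.range_zero, Finset.sum_empty, mul_zero, add_zero]
      linarith
    | succ k ih =>
      have h1 : ∫ x, ‖T (g (φ (k + 1)) x) - g (φ (k + 1)) x‖ ∂ν ≤
          ∫ x, (‖T (g (φ k) x) - g (φ k) x‖ +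
            ε * (2 ^ k * (‖g (φ k) x - g (φ (k + 1)) x‖ + (1 / 4) ^ k))) ∂ν := by
        refine integral_mono (integrable_norm ν (R (k + 1))) ?_ fun x => ?_
        · refine (integrable_norm ν (R k)).add ?_
          refine Integrable.const_mul (Integrable.const_mul ?_ _) _
          exact (integrable_norm ν (g (φ k) - g (φ (k + 1)))).add (integrable_const _)
        · have h2 := hC₁T T ε (fun y hy => hT y (Or.inl hy)) k x
          have h3 : T (g (φ (k + 1)) x) - g (φ (k + 1)) x = (T (g (φ k) x) - g (φ k) x) +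
              (T ((g (φ (k + 1)) - g (φ k)) x) - (g (φ (k + 1)) - g (φ k)) x) := by
            show _ = (T (g (φ k) x) - g (φ k) x) + (T (g (φ (k + 1)) x - g (φ k) x) -
              (g (φ (k + 1)) x - g (φ k) x))
            rw [map_sub]; abel
          have h4 : ‖(g (φ (k + 1)) - g (φ k)) x‖ = ‖g (φ k) x - g (φ (k + 1)) x‖ := by
            show ‖g (φ (k + 1)) x - g (φ k) x‖ = _
            rw [norm_sub_rev]
          rw [h4] at h2
          show ‖T (g (φ (k + 1)) x) - g (φ (k + 1)) x‖ ≤ _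
          rw [h3]
          exact (norm_add_le _ _).trans (add_le_add le_rfl h2)
      have h5 : ∫ x, (‖T (g (φ k) x) - g (φ k) x‖ +
            ε * (2 ^ k * (‖g (φ k) x - g (φ (k + 1)) x‖ + (1 / 4) ^ k))) ∂ν =
          ∫ x, ‖T (g (φ k) x) - g (φ k) x‖ ∂ν + ε * (2 ^ k *
            (∫ x, ‖g (φ k) x - g (φ (k + 1)) x‖ ∂ν + ν.real univ * (1 / 4) ^ k)) := by
        have i1 := integrable_norm ν (g (φ k) - g (φ (k + 1)))
        have i2 : Integrable (fun _ : K => (1 / 4 : ℝ) ^ k) ν := integrable_const _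
        have i3 := integral_add i1 i2
        rw [integral_const, smul_eq_mul] at i3
        have i4 := integral_add (integrable_norm ν (R k))
          (((i1.add i2).const_mul (2 ^ k)).const_mul ε)
        rw [integral_const_mul, integral_const_mul] at i4
        refine Eq.trans ?_ (i4.trans ?_)
        · rfl
        · congr 3
      have h6 := hφ2 k (φ (k + 1)) (hφ.monotone (Nat.le_succ k))
      rw [Finset.sum_range_succ]
      rw [h5] at h1
      have h7 : (2 : ℝ) ^ k * (1 / 4) ^ k = (1 / 2) ^ k := by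
        rw [← mul_pow]; norm_num
      have h8 : 2 ^ k * (∫ x, ‖g (φ k) x - g (φ (k + 1)) x‖ ∂ν + ν.real univ * (1 / 4) ^ k) ≤
          (1 + ν.real univ) * (1 / 2) ^ k := by
        calc 2 ^ k * (∫ x, ‖g (φ k) x - g (φ (k + 1)) x‖ ∂ν + ν.real univ * (1 / 4) ^ k)
            ≤ 2 ^ k * ((1 / 4) ^ k + ν.real univ * (1 / 4) ^ k) :=
              mul_le_mul_of_nonneg_left (by linarith) (by positivity)
          _ = (1 + ν.real univ) * (2 ^ k * (1 / 4) ^ k) := by ring
          _ = _ := by rw [h7]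
      have h9 := mul_le_mul_of_nonneg_left h8 hε
      calc _ ≤ _ := h1
        _ ≤ ε * (ν.real univ + (1 + ν.real univ) * ∑ j ∈ Finset.range k, (1 / 2 : ℝ) ^ j) +
            ε * ((1 + ν.real univ) * (1 / 2) ^ k) := add_le_add ih h9
        _ = _ := by ring
  intro k
  refine (key k).trans (mul_le_mul_of_nonneg_left ?_ hε)
  have hgeom : ∑ j ∈ Finset.range k, (1 / 2 : ℝ) ^ j ≤ 2 := by
    have := Summable.sum_le_tsum (Finset.range k) (fun j _ => by positivity)
      (summable_geometric_of_lt_one (by norm_num : (0 : ℝ) ≤ 1 / 2) (by norm_num))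
    rw [tsum_geometric_of_lt_one (by norm_num) (by norm_num)] at this
    norm_num at this ⊢
    exact this
  have h0 : 0 ≤ ν.real univ := measureReal_nonneg
  nlinarith

end approx

section main

variable {V : Type*} [AddCommGroup V] [Module ℝ V] [TopologicalSpace V]
  [IsTopologicalAddGroup V] [ContinuousSMul ℝ V] [LocallyConvexSpace ℝ V] [T2Space V]
  {K : Set V} [CompactSpace K]

section real

variable {E : Type*} [NormedAddCommGroup E] [NormedSpace ℝ E]

/-- Multiplication of scalar functions by a fixed vector. -/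
noncomputable def mulVec (e : E) : C(K, ℝ) →L[ℝ] C(K, E) :=
  LinearMap.mkContinuous
    { toFun := fun h => ⟨fun x => h x • e, h.continuous.smul continuous_const⟩
      map_add' := fun h k => by
        ext x
        show (h x + k x) • e = h x • e + k x • e
        rw [add_smul]
      map_smul' := fun c h => by
        ext x
        show (c * h x) • e = c • (h x • e)
        rw [mul_smul] } ‖e‖ (fun h => by
    refine (ContinuousMap.norm_le _ (by positivity)).mpr fun x => ?_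
    show ‖h x • e‖ ≤ ‖e‖ * ‖h‖
    rw [norm_smul, mul_comm]
    exact mul_le_mul_of_nonneg_left (h.norm_coe_le_norm x) (norm_nonneg _))

theorem tendsto_finrank (hKc : Convex ℝ K) (L : C(K, E) →L[ℝ] ℝ)
    (hA : ∀ a : C(K, E), Aff (fun x => a x) → L a = 0) (T : E →L[ℝ] E)
    (hT : FiniteDimensional ℝ (LinearMap.range (T : E →ₗ[ℝ] E))) {f : K → E} (hf : Aff f) {M : ℝ}
    (g : ℕ → C(K, E)) (hgM : ∀ n x, ‖g n x‖ ≤ M)
    (hg : ∀ x, Tendsto (fun n => g n x) atTop (𝓝 (f x))) :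
    Tendsto (fun n => L (ContinuousMap.comp ⟨T, T.continuous⟩ (g n))) atTop (𝓝 0) := by
  let b := Module.finBasis ℝ (LinearMap.range (T : E →ₗ[ℝ] E))
  let φ : Fin (Module.finrank ℝ (LinearMap.range (T : E →ₗ[ℝ] E))) → E →L[ℝ] ℝ := fun i =>
    (LinearMap.toContinuousLinearMap (b.coord i)).comp
      (T.codRestrict (LinearMap.range (T : E →ₗ[ℝ] E)) (fun y => LinearMap.mem_range_self _ y))
  have hTφ : ∀ y, T y = ∑ i, φ i y • (b i : E) := by
    intro y
    have h1 := b.sum_repr (T.codRestrict (LinearMap.range (T : E →ₗ[ℝ] E))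
      (fun y => LinearMap.mem_range_self _ y) y)
    have h2 := congrArg (Subtype.val) h1
    rw [Submodule.coe_sum] at h2
    exact h2.symm
  have hsum : ∀ n, L (ContinuousMap.comp ⟨T, T.continuous⟩ (g n)) =
      ∑ i, (L.comp (mulVec (K := K) (b i : E))) (ContinuousMap.comp ⟨φ i, (φ i).continuous⟩ (g n)) := by
    intro n
    have h1 : ContinuousMap.comp ⟨T, T.continuous⟩ (g n) =
        ∑ i, mulVec (K := K) (b i : E) (ContinuousMap.comp ⟨φ i, (φ i).continuous⟩ (g n)) := by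
      ext x
      rw [ContinuousMap.sum_apply]
      exact hTφ (g n x)
    rw [h1, map_sum]
    rfl
  simp only [hsum]
  have h0 : (0 : ℝ) = ∑ _i : Fin (Module.finrank ℝ (LinearMap.range (T : E →ₗ[ℝ] E))), (0 : ℝ) := by simp
  rw [h0]
  refine tendsto_finset_sum _ fun i _ => ?_
  refine tendsto_scalar hKc _ (fun a ha => ?_) (f := fun x => φ i (f x)) ?_ (C := ‖φ i‖ * M) _ ?_ ?_
  · show L (mulVec (b i : E) a) = 0
    refine hA _ ?_
    intro x y z t h0 h1 hz
    have h2 : a z = t • a x + (1 - t) • a y := ha x y z t h0 h1 hz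
    show a z • (b i : E) = t • (a x • (b i : E)) + (1 - t) • (a y • (b i : E))
    rw [h2, add_smul, smul_smul, smul_smul]
    rfl
  · intro x y z t h0 h1 hz
    show φ i (f z) = t • φ i (f x) + (1 - t) • φ i (f y)
    rw [hf x y z t h0 h1 hz, map_add, map_smul, map_smul]
  · intro n x
    show |φ i (g n x)| ≤ _
    rw [← Real.norm_eq_abs]
    exact ((φ i).le_opNorm _).trans (mul_le_mul_of_nonneg_left (hgM n x) (norm_nonneg _))
  · intro x
    exact ((φ i).continuous.tendsto _).comp (hg x)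

end real

variable (𝕜 : Type*) [RCLike 𝕜] (E : Type*) [NormedAddCommGroup E] [NormedSpace ℝ E]
  [NormedSpace 𝕜 E] [IsScalarTower ℝ 𝕜 E]

/-- The approximation property. -/
def HasAP : Prop := ∀ C : Set E, IsCompact C → ∀ ε : ℝ, 0 < ε → ∃ T : E →L[𝕜] E,
  FiniteDimensional 𝕜 (LinearMap.range (T : E →ₗ[𝕜] E)) ∧ ∀ y ∈ C, ‖T y - y‖ ≤ ε

variable {𝕜 E}

omit [NormedSpace ℝ E] [IsScalarTower ℝ 𝕜 E] in
theorem HasAP.real [NormedSpace ℝ E] [IsScalarTower ℝ 𝕜 E] (h : HasAP 𝕜 E) : HasAP ℝ E := by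
  intro C hC ε hε
  obtain ⟨T, hT, hTC⟩ := h C hC ε hε
  refine ⟨T.restrictScalars ℝ, ?_, hTC⟩
  have h1 : FiniteDimensional ℝ (LinearMap.range (T : E →ₗ[𝕜] E)) :=
    Module.Finite.trans 𝕜 _
  exact h1

theorem exists_subseq_tendsto (hKc : Convex ℝ K) (hAP : HasAP 𝕜 E) (L : C(K, E) →L[ℝ] ℝ)
    (hA : ∀ a : C(K, E), Aff (fun x => a x) → L a = 0) {f : K → E} (hf : Aff f) {M : ℝ}
    (g : ℕ → C(K, E)) (hgM : ∀ n x, ‖g n x‖ ≤ M)
    (hg : ∀ x, Tendsto (fun n => g n x) atTop (𝓝 (f x))) :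
    ∃ φ : ℕ → ℕ, StrictMono φ ∧ Tendsto (fun k => L (g (φ k))) atTop (𝓝 0) := by
  letI : MeasurableSpace K := borel K
  haveI : BorelSpace K := ⟨rfl⟩
  obtain ⟨ν, hν1, hν2, hν⟩ := exists_dom (K := K) L
  obtain ⟨φ, hφ, C, hC, hCT⟩ := exists_subseq ν g hgM f hg
  refine ⟨φ, hφ, ?_⟩
  rw [Metric.tendsto_nhds]
  intro ε hε
  have hν0 : 0 ≤ ν.real univ := measureReal_nonneg
  obtain ⟨T, hTf, hTC⟩ := hAP.real C hC (ε / (2 * (3 * ν.real univ + 2))) (by positivity)
  have h1 := tendsto_finrank hKc L hA T hTf hf (fun k => g (φ k)) (fun k => hgM (φ k))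
    (fun x => (hg x).comp hφ.tendsto_atTop)
  have h2 := (Metric.tendsto_nhds.mp h1) (ε / 2) (by positivity)
  filter_upwards [h2] with k hk
  rw [dist_zero_right, Real.norm_eq_abs] at hk ⊢
  have h3 := hν (ContinuousMap.comp ⟨T, T.continuous⟩ (g (φ k)) - g (φ k))
  have h4 := hCT T _ hTC k
  have h5 : ε / (2 * (3 * ν.real univ + 2)) * (3 * ν.real univ + 2) = ε / 2 := by
    field_simp
  rw [h5] at h4
  rw [map_sub] at h3
  have h6 : |L (ContinuousMap.comp ⟨T, T.continuous⟩ (g (φ k))) - L (g (φ k))| ≤ ε / 2 :=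
    h3.trans h4
  have h7 := abs_sub_abs_le_abs_sub (L (g (φ k))) (L (ContinuousMap.comp ⟨T, T.continuous⟩ (g (φ k))))
  rw [abs_sub_comm] at h6
  linarith

theorem exists_conv_approx (hKc : Convex ℝ K) (hAP : HasAP 𝕜 E) {f : K → E} (hf : Aff f) {M : ℝ}
    (g : ℕ → C(K, E)) (hgM : ∀ n x, ‖g n x‖ ≤ M)
    (hg : ∀ x, Tendsto (fun n => g n x) atTop (𝓝 (f x))) (n : ℕ) {δ : ℝ} (hδ : 0 < δ) :
    ∃ c ∈ convexHull ℝ (g '' Ici n), ∃ a : C(K, E), Aff (fun x => a x) ∧ ‖a - c‖ ≤ δ := by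
  by_contra hcon
  push Not at hcon
  have hconv : Convex ℝ {a : C(K, E) | Aff (fun x => a x)} := by
    intro a ha b hb s t _ _ _ x y z r h0 h1 hz
    show s • a z + t • b z = r • (s • a x + t • b x) + (1 - r) • (s • a y + t • b y)
    have e1 : a z = r • a x + (1 - r) • a y := ha x y z r h0 h1 hz
    have e2 : b z = r • b x + (1 - r) • b y := hb x y z r h0 h1 hz
    rw [e1, e2]
    simp only [smul_add, smul_smul]
    rw [mul_comm s r, mul_comm t r, mul_comm s (1 - r), mul_comm t (1 - r)]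
    abel
  obtain ⟨L, u, hL1, hL2⟩ := geometric_hahn_banach_open
    (s := Metric.ball (0 : C(K, E)) δ + convexHull ℝ (g '' Ici n))
    ((convex_ball _ _).add (convex_convexHull ℝ _)) (Metric.isOpen_ball.add_right) hconv (by
      rw [Set.disjoint_left]
      rintro _ ⟨b, hb, c, hc, rfl⟩ ha
      have := hcon c hc (b + c) ha
      rw [add_sub_cancel_right] at this
      rw [mem_ball_zero_iff] at hb
      linarith)
  have hL0 : ∀ a : C(K, E), Aff (fun x => a x) → L a = 0 := by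
    intro a ha
    by_contra hne
    have h1 := hL2 (((u - 1) / L a) • a) (by
      intro x y z r h0 h1 hz
      show ((u - 1) / L a) • a z = r • (((u - 1) / L a) • a x) + (1 - r) • (((u - 1) / L a) • a y)
      have e1 : a z = r • a x + (1 - r) • a y := ha x y z r h0 h1 hz
      rw [e1, smul_add, smul_comm _ r, smul_comm _ (1 - r)])
    rw [map_smul, smul_eq_mul, div_mul_cancel₀ _ hne] at h1
    linarith
  have hu : u ≤ 0 := by
    have := hL2 0 (by intro x y z r _ _ _; simp)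
    rwa [map_zero] at this
  have hLg : ∀ k ≥ n, ∀ b ∈ Metric.ball (0 : C(K, E)) δ, L b + L (g k) < 0 := by
    intro k hk b hb
    have := hL1 (b + g k) (add_mem_add hb (subset_convexHull ℝ _ (mem_image_of_mem _ hk)))
    rw [map_add] at this
    linarith
  have hneg : L (g n) < 0 := by
    have := hLg n le_rfl 0 (Metric.mem_ball_self hδ)
    rwa [map_zero, zero_add] at this
  obtain ⟨η, hη⟩ : ∃ η : ℝ, η = - (δ / (2 * (‖g n‖ + 1))) * L (g n) := ⟨_, rfl⟩
  have hη0 : 0 < η := by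
    rw [hη]
    exact mul_pos_of_neg_of_neg (neg_neg_of_pos (by positivity)) hneg
  have hb : (- (δ / (2 * (‖g n‖ + 1)))) • g n ∈ Metric.ball (0 : C(K, E)) δ := by
    rw [mem_ball_zero_iff, norm_smul, norm_neg, Real.norm_of_nonneg (by positivity),
      div_mul_eq_mul_div, div_lt_iff₀ (by positivity)]
    nlinarith [norm_nonneg (g n)]
  obtain ⟨φ, hφ, hlim⟩ := exists_subseq_tendsto hKc hAP L hL0 hf g hgM hg
  have h1 := (Metric.tendsto_nhds.mp hlim) η hη0
  obtain ⟨k, hk1, hk2⟩ := (h1.and (eventually_ge_atTop n)).exists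
  have h2 := hLg (φ k) (hk2.trans hφ.le_apply) _ hb
  rw [map_smul, smul_eq_mul, ← hη] at h2
  rw [dist_zero_right, Real.norm_eq_abs] at hk1
  linarith [(abs_lt.mp hk1).1]

/-- **Main theorem.** Bounded affine functions of the first Baire class are pointwise limits of
bounded sequences of affine continuous functions, with the same bound. -/
theorem exists_affine_seq (hKc : Convex ℝ K) (hAP : HasAP 𝕜 E) {f : K → E} (hf : Aff f) {M : ℝ}
    (hM : 0 < M) (g : ℕ → C(K, E)) (hgM : ∀ n x, ‖g n x‖ ≤ M)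
    (hg : ∀ x, Tendsto (fun n => g n x) atTop (𝓝 (f x))) :
    ∃ a : ℕ → C(K, E), (∀ n, Aff (fun x => a n x)) ∧ (∀ n x, ‖a n x‖ ≤ M) ∧
      ∀ x, Tendsto (fun n => a n x) atTop (𝓝 (f x)) := by
  have h1 : ∀ n : ℕ, ∃ c ∈ convexHull ℝ (g '' Ici n), ∃ a : C(K, E), Aff (fun x => a x) ∧
      ‖a - c‖ ≤ 1 / ((n : ℝ) + 1) := fun n =>
    exists_conv_approx hKc hAP hf g hgM hg n (by positivity)
  choose c hc a ha hac using h1
  have hcP : ∀ (x : K) (P : Set E) (n : ℕ), Convex ℝ P → (∀ k ≥ n, g k x ∈ P) → c n x ∈ P := by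
    intro x P n hP hk
    have h2 : convexHull ℝ (g '' Ici n) ⊆ {u : C(K, E) | u x ∈ P} := by
      refine convexHull_min ?_ ?_
      · rintro _ ⟨k, hk', rfl⟩
        exact hk k hk'
      · intro u hu v hv s t hs ht hst
        exact hP hu hv hs ht hst
    exact h2 (hc n)
  have hclim : ∀ x, Tendsto (fun n => c n x) atTop (𝓝 (f x)) := by
    intro x
    rw [Metric.tendsto_nhds]
    intro ε hε
    have h2 := (Metric.tendsto_nhds.mp (hg x)) ε hε
    rw [eventually_atTop] at h2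
    obtain ⟨N, hN⟩ := h2
    filter_upwards [eventually_ge_atTop N] with n hn
    exact hcP x (Metric.ball (f x) ε) n (convex_ball _ _) fun k hk => hN k (hn.trans hk)
  have hcM : ∀ n x, ‖c n x‖ ≤ M := by
    intro n x
    have := hcP x (Metric.closedBall 0 M) n (convex_closedBall _ _) fun k _ => by
      rw [mem_closedBall_zero_iff]; exact hgM k x
    rwa [mem_closedBall_zero_iff] at this
  have hone : Tendsto (fun n : ℕ => 1 / ((n : ℝ) + 1)) atTop (𝓝 0) :=
    tendsto_one_div_add_atTop_nhds_zero_nat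
  refine ⟨fun n => (M / (M + 1 / ((n : ℝ) + 1))) • a n, ?_, ?_, ?_⟩
  · intro n x y z r h0 h1 hz
    show (M / (M + 1 / ((n : ℝ) + 1))) • a n z = r • ((M / (M + 1 / ((n : ℝ) + 1))) • a n x) +
      (1 - r) • ((M / (M + 1 / ((n : ℝ) + 1))) • a n y)
    have e1 : a n z = r • a n x + (1 - r) • a n y := ha n x y z r h0 h1 hz
    rw [e1, smul_add, smul_comm _ r, smul_comm _ (1 - r)]
  · intro n x
    show ‖(M / (M + 1 / ((n : ℝ) + 1))) • a n x‖ ≤ M
    have h2 : ‖a n x‖ ≤ M + 1 / ((n : ℝ) + 1) := by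
      have h3 : ‖(a n - c n) x‖ ≤ 1 / ((n : ℝ) + 1) := ((a n - c n).norm_coe_le_norm x).trans (hac n)
      have h4 : a n x = (a n - c n) x + c n x := by
        show a n x = (a n x - c n x) + c n x
        abel
      rw [h4]
      exact (norm_add_le _ _).trans (by linarith [hcM n x])
    have h5 : 0 < M + 1 / ((n : ℝ) + 1) := by positivity
    rw [norm_smul, Real.norm_of_nonneg (by positivity), div_mul_eq_mul_div, div_le_iff₀ h5]
    exact mul_le_mul_of_nonneg_left h2 hM.le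
  · intro x
    have h2 : Tendsto (fun n => a n x - c n x) atTop (𝓝 0) :=
      squeeze_zero_norm (fun n => ((a n - c n).norm_coe_le_norm x).trans (hac n)) hone
    have h3 : Tendsto (fun n => a n x) atTop (𝓝 (f x)) := by
      have := h2.add (hclim x)
      simpa using this
    have h4 : Tendsto (fun n : ℕ => M / (M + 1 / ((n : ℝ) + 1))) atTop (𝓝 1) := by
      have h5 := (hone.const_add M)
      have h6 := (tendsto_const_nhds (x := M)).div h5 (by simpa using hM.ne')
      rw [add_zero, div_self hM.ne'] at h6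
      exact h6
    have := h4.smul h3
    simpa using this

/-- An affine function of the first Baire class is bounded. -/
theorem exists_bound (hKc : Convex ℝ K) {f : K → E} (hf : Aff f) (g : ℕ → C(K, E))
    (hg : ∀ x, Tendsto (fun n => g n x) atTop (𝓝 (f x))) : ∃ M : ℝ, 0 < M ∧ ∀ x, ‖f x‖ ≤ M := by
  rcases isEmpty_or_nonempty K with he | hne
  · exact ⟨1, one_pos, fun x => he.elim x⟩
  have hcov : (⋃ N : ℕ, {x : K | ∀ n, ‖g n x‖ ≤ N}) = univ := by
    rw [eq_univ_iff_forall]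
    intro x
    have h1 := (hg x).norm.bddAbove_range
    obtain ⟨B, hB⟩ := h1
    obtain ⟨N, hN⟩ := exists_nat_ge B
    rw [mem_iUnion]
    exact ⟨N, fun n => (hB (mem_range_self n)).trans hN⟩
  obtain ⟨N, x₀, hx₀⟩ := nonempty_interior_of_iUnion_of_closed (fun N => by
    have : {x : K | ∀ n, ‖g n x‖ ≤ N} = ⋂ n : ℕ, {x : K | ‖g n x‖ ≤ N} := by
      ext x; simp
    rw [this]
    exact isClosed_iInter fun n => isClosed_le (g n).continuous.norm continuous_const) hcov
  obtain ⟨O, hO, hOeq⟩ := isOpen_induced_iff.mp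
    (isOpen_interior (s := {x : K | ∀ n, ‖g n x‖ ≤ N}))
  have hx₀O : (x₀ : V) ∈ O := by
    have : x₀ ∈ (Subtype.val ⁻¹' O : Set K) := by rw [hOeq]; exact hx₀
    exact this
  have hfO : ∀ x : K, (x : V) ∈ O → ‖f x‖ ≤ N := by
    intro x hx
    have h1 : x ∈ (Subtype.val ⁻¹' O : Set K) := hx
    rw [hOeq] at h1
    exact le_of_tendsto (hg x).norm (Eventually.of_forall fun n => interior_subset h1 n)
  have htube : ∀ᶠ t : ℝ in 𝓝 0, ∀ y ∈ K, t • y + (1 - t) • (x₀ : V) ∈ O := by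
    refine (isCompact_iff_compactSpace.mpr inferInstance : IsCompact K).eventually_forall_of_forall_eventually
      fun y _ => ?_
    have hc : Continuous fun p : ℝ × V => p.1 • p.2 + (1 - p.1) • (x₀ : V) := by fun_prop
    refine hc.continuousAt.eventually_mem (hO.mem_nhds ?_)
    simpa using hx₀O
  obtain ⟨t, ht0, ht1, htO⟩ : ∃ t : ℝ, 0 < t ∧ t ≤ 1 ∧ ∀ y ∈ K, t • y + (1 - t) • (x₀ : V) ∈ O := by
    obtain ⟨ε, hε, hε2⟩ := Metric.eventually_nhds_iff.mp htube
    refine ⟨min (ε / 2) 1, by positivity, min_le_right _ _, hε2 ?_⟩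
    rw [dist_zero_right, Real.norm_of_nonneg (by positivity)]
    exact (min_le_left _ _).trans_lt (by linarith)
  refine ⟨(N + ‖f x₀‖) / t + 1, by positivity, fun x => ?_⟩
  obtain ⟨z, hz⟩ := exists_comb hKc x x₀ ht0.le ht1
  have h1 := hfO z (by rw [hz]; exact htO x x.2)
  have h2 := hf x x₀ z t ht0.le ht1 hz
  have h3 : t • f x = f z - (1 - t) • f x₀ := by rw [h2]; abel
  have h4 : t * ‖f x‖ ≤ N + ‖f x₀‖ := by
    have h5 : ‖t • f x‖ = t * ‖f x‖ := by rw [norm_smul, Real.norm_of_nonneg ht0.le]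
    rw [← h5, h3]
    refine (norm_sub_le _ _).trans (add_le_add h1 ?_)
    rw [norm_smul, Real.norm_of_nonneg (by linarith)]
    exact mul_le_of_le_one_left (norm_nonneg _) (by linarith)
  have h5 : ‖f x‖ ≤ (N + ‖f x₀‖) / t := by rw [le_div_iff₀' ht0]; exact h4
  linarith

/-- The general case. -/
theorem exists_affine_seq' (hKc : Convex ℝ K) (hAP : HasAP 𝕜 E) {f : K → E} (hf : Aff f)
    (g : ℕ → C(K, E)) (hg : ∀ x, Tendsto (fun n => g n x) atTop (𝓝 (f x))) :
    ∃ a : ℕ → C(K, E), (∀ n, Aff (fun x => a n x)) ∧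
      ∀ x, Tendsto (fun n => a n x) atTop (𝓝 (f x)) := by
  obtain ⟨M, hM, hfM⟩ := exists_bound hKc hf g hg
  let ρ : E → E := fun y => (M / max M ‖y‖) • y
  have hpos : ∀ y : E, 0 < max M ‖y‖ := fun y => lt_max_of_lt_left hM
  have hρ : Continuous ρ := by
    refine Continuous.smul ?_ continuous_id
    exact continuous_const.div (continuous_const.max continuous_norm) fun y => (hpos y).ne'
  have hρM : ∀ y, ‖ρ y‖ ≤ M := by
    intro y
    show ‖(M / max M ‖y‖) • y‖ ≤ M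
    rw [norm_smul, Real.norm_of_nonneg (div_nonneg hM.le (hpos y).le), div_mul_eq_mul_div,
      div_le_iff₀ (hpos y)]
    exact mul_le_mul_of_nonneg_left (le_max_right _ _) hM.le
  have hρf : ∀ x, ρ (f x) = f x := by
    intro x
    show (M / max M ‖f x‖) • f x = f x
    rw [max_eq_left (hfM x), div_self hM.ne', one_smul]
  obtain ⟨a, ha1, _, ha3⟩ := exists_affine_seq hKc hAP hf hM
    (fun n => ContinuousMap.comp ⟨ρ, hρ⟩ (g n)) (fun n x => hρM _) (fun x => by
      have := (hρ.tendsto (f x)).comp (hg x)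
      rw [hρf] at this
      exact this)
  exact ⟨a, ha1, ha3⟩

end main

end Pool.Agent.V1199.AffBaire
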