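import Mathlib

open Set Filter Topology
open scoped ENNReal

namespace Pool.Agent.V1199.ModTop

/-- The modular space `{v : ρ(l v) < ∞ for some l > 0}`. -/
def modSpace {X : Type} [AddCommGroup X] [Module ℝ X] (ρ : X → ℝ≥0∞) : Set X :=
  {v | ∃ l : ℝ, 0 < l ∧ ρ (l • v) < ⊤}

/-- `F` is `ρ`-closed. -/
def RhoClosed {X : Type} [AddCommGroup X] [Module ℝ X] (ρ : X → ℝ≥0∞) (F : Set X) : Prop :=
  F ⊆ modSpace ρ ∧ ∀ (x : ℕ → X) (a : X), a ∈ modSpace ρ → (∀ k, x k ∈ F) →
    Tendsto (fun k => ρ (x k - a)) atTop (𝓝 0) → a ∈ F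

/-- `U` is open for the modular topology: its complement in the modular space is `ρ`-closed. -/
def RhoOpen {X : Type} [AddCommGroup X] [Module ℝ X] (ρ : X → ℝ≥0∞) (U : Set X) : Prop :=
  U ⊆ modSpace ρ ∧ RhoClosed ρ (modSpace ρ \ U)

/-- The point `x` and the closed set `F` violate regularity of the modular topology. -/
def NotSeparated {X : Type} [AddCommGroup X] [Module ℝ X] (ρ : X → ℝ≥0∞) (F : Set X) (x : X) :
    Prop :=
  RhoClosed ρ F ∧ x ∈ modSpace ρ ∧ x ∉ F ∧
    ∀ U V : Set X, RhoOpen ρ U → RhoOpen ρ V → x ∈ U → F ⊆ V → (U ∩ V).Nonempty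

/-- The modular of the variable exponent sequence space. -/
noncomputable def rho (p : ℕ → ℝ) (a : ℕ → ℝ) : ℝ≥0∞ := ∑' j, ENNReal.ofReal (|a j| ^ p j)

/-- The exponents `p_n = n + 1`. -/
noncomputable def pe (n : ℕ) : ℝ := n + 1

theorem pe_ge (n : ℕ) : 1 ≤ pe n := by
  unfold pe
  linarith [(Nat.cast_nonneg n : (0 : ℝ) ≤ n)]

theorem rho_mono {p : ℕ → ℝ} (hp : ∀ n, 1 ≤ p n) {a b : ℕ → ℝ} (h : ∀ n, |a n| ≤ |b n|) :
    rho p a ≤ rho p b :=
  ENNReal.tsum_le_tsum (fun n => ENNReal.ofReal_le_ofReal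
    (Real.rpow_le_rpow (abs_nonneg _) (h n) (by linarith [hp n])))

theorem le_rho (p : ℕ → ℝ) (a : ℕ → ℝ) (n : ℕ) : ENNReal.ofReal (|a n| ^ p n) ≤ rho p a :=
  ENNReal.le_tsum n

theorem rho_eq_zero {p : ℕ → ℝ} (_ : ∀ n, 1 ≤ p n) {a : ℕ → ℝ} (h : rho p a = 0) : a = 0 := by
  funext n
  have h1 := le_rho p a n
  rw [h, nonpos_iff_eq_zero, ENNReal.ofReal_eq_zero] at h1
  by_contra hne
  have h2 : 0 < |a n| := abs_pos.mpr hne
  have := Real.rpow_pos_of_pos h2 (p n)
  linarith

/-- The tail sequence `(1/2) 1_{[M, ∞)}`. -/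
noncomputable def z (M : ℕ) : ℕ → ℝ := fun n => if M ≤ n then 1 / 2 else 0

theorem z_nonneg (M n : ℕ) : 0 ≤ z M n := by unfold z; split_ifs <;> norm_num
theorem z_le (M n : ℕ) : z M n ≤ 1 / 2 := by unfold z; split_ifs <;> norm_num

theorem rho_z (M : ℕ) : rho pe (z M) = ENNReal.ofReal ((1 / 2) ^ M) := by
  have h1 : ∀ n, |z M n| ^ pe n = if M ≤ n then (1 / 2 : ℝ) ^ (n + 1) else 0 := by
    intro n
    have e : pe n = ((n + 1 : ℕ) : ℝ) := by simp [pe]
    unfold z
    rw [e, Real.rpow_natCast]
    split_ifs with h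
    · rw [abs_of_pos (by norm_num)]
    · simp
  have h2 : Summable (fun n : ℕ => if M ≤ n then (1 / 2 : ℝ) ^ (n + 1) else 0) := by
    refine Summable.of_nonneg_of_le (fun n => by split_ifs <;> positivity) (fun n => ?_)
      (summable_geometric_of_lt_one (by norm_num : (0 : ℝ) ≤ 1 / 2) (by norm_num))
    split_ifs
    · rw [pow_succ]
      have : (0 : ℝ) < (1 / 2) ^ n := by positivity
      linarith
    · positivity
  unfold rho
  simp_rw [h1]
  rw [← ENNReal.ofReal_tsum_of_nonneg (fun n => by split_ifs <;> positivity) h2]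
  congr 1
  rw [← h2.sum_add_tsum_nat_add M]
  have h3 : ∑ i ∈ Finset.range M, (if M ≤ i then (1 / 2 : ℝ) ^ (i + 1) else 0) = 0 := by
    refine Finset.sum_eq_zero (fun i hi => ?_)
    rw [if_neg (by have := Finset.mem_range.mp hi; omega)]
  have h4 : ∀ i, (if M ≤ i + M then (1 / 2 : ℝ) ^ (i + M + 1) else 0) =
      (1 / 2 : ℝ) ^ i * (1 / 2) ^ (M + 1) := by
    intro i
    rw [if_pos (by omega), ← pow_add]
    congr 1
  rw [h3, zero_add]
  simp_rw [h4]
  rw [tsum_mul_right, tsum_geometric_of_lt_one (by norm_num) (by norm_num), pow_succ]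
  ring

theorem rho_z_tendsto : Tendsto (fun M => rho pe (z M)) atTop (𝓝 0) := by
  simp_rw [rho_z]
  rw [← ENNReal.ofReal_zero]
  exact ENNReal.tendsto_ofReal (tendsto_pow_atTop_nhds_zero_of_lt_one (by norm_num) (by norm_num))

/-- Codes of the finite initial segments of a binary sequence. -/
def code (τ : ℕ → Bool) : ℕ → ℕ
  | 0 => 1
  | k + 1 => 2 * code τ k + (if τ k then 1 else 0)

theorem code_bounds (τ : ℕ → Bool) (k : ℕ) : 2 ^ k ≤ code τ k ∧ code τ k < 2 ^ (k + 1) := by
  induction k with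
  | zero => simp [code]
  | succ k ih =>
    obtain ⟨h1, h2⟩ := ih
    have e1 : 2 ^ (k + 1) = 2 * 2 ^ k := by ring
    have e2 : 2 ^ (k + 1 + 1) = 2 * 2 ^ (k + 1) := by ring
    unfold code
    split_ifs <;> omega

theorem log_code (τ : ℕ → Bool) (k : ℕ) : Nat.log 2 (code τ k) = k := by
  obtain ⟨h1, h2⟩ := code_bounds τ k
  exact Nat.log_eq_of_pow_le_of_lt_pow h1 h2

theorem code_congr {τ σ : ℕ → Bool} {k : ℕ} (h : ∀ i < k, τ i = σ i) : code τ k = code σ k := by
  induction k with
  | zero => rfl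
  | succ k ih =>
    unfold code
    rw [ih (fun i hi => h i (by omega)), h k (by omega)]

theorem code_inj {τ σ : ℕ → Bool} {k : ℕ} (h : code τ k = code σ k) : ∀ i < k, τ i = σ i := by
  induction k with
  | zero => intro i hi; omega
  | succ k ih =>
    unfold code at h
    have h1 : code τ k = code σ k := by split_ifs at h <;> omega
    intro i hi
    rcases Nat.lt_succ_iff_lt_or_eq.mp hi with hi | rfl
    · exact ih h1 i hi
    · rw [h1] at h
      cases hτ : τ i <;> cases hσ : σ i <;> simp [hτ, hσ] at h <;> rfl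

/-- The sequence `(1/2) 1_{initial segments of τ}`. -/
noncomputable def y (τ : ℕ → Bool) : ℕ → ℝ := fun n => if code τ (Nat.log 2 n) = n then 1 / 2 else 0

theorem y_nonneg (τ : ℕ → Bool) (n : ℕ) : 0 ≤ y τ n := by unfold y; split_ifs <;> norm_num
theorem y_le (τ : ℕ → Bool) (n : ℕ) : y τ n ≤ 1 / 2 := by unfold y; split_ifs <;> norm_num

theorem y_code (τ : ℕ → Bool) (k : ℕ) : y τ (code τ k) = 1 / 2 := by
  unfold y
  rw [log_code, if_pos rfl]

theorem y_congr {τ σ : ℕ → Bool} {K n : ℕ} (h : ∀ i < K, τ i = σ i) (hn : n < 2 ^ K) :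
    y τ n = y σ n := by
  have h1 : Nat.log 2 n ≤ K := by
    rcases Nat.eq_zero_or_pos n with rfl | hpos
    · simp
    · exact (Nat.log_lt_of_lt_pow hpos.ne' hn).le
  unfold y
  rw [code_congr (fun i hi => h i (lt_of_lt_of_le hi h1))]

theorem rho_y_sub {τ σ : ℕ → Bool} {K : ℕ} (h : ∀ i < K, τ i = σ i) :
    rho pe (y τ - y σ) ≤ rho pe (z K) := by
  refine rho_mono pe_ge (fun n => ?_)
  rw [abs_of_nonneg (z_nonneg K n)]
  unfold z
  split_ifs with hn
  · rw [Pi.sub_apply, abs_le]
    constructor <;> linarith [y_nonneg τ n, y_nonneg σ n, y_le τ n, y_le σ n]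
  · have h2 : n < 2 ^ K := lt_trans (not_le.mp hn) Nat.lt_two_pow_self
    rw [Pi.sub_apply, y_congr h h2, sub_self, abs_zero]

/-- Continuity of `τ ↦ y τ`. -/
theorem rho_y_tendsto {t : ℕ → ℕ → Bool} {σ : ℕ → Bool} (h : Tendsto t atTop (𝓝 σ)) :
    Tendsto (fun k => rho pe (y (t k) - y σ)) atTop (𝓝 0) := by
  rw [ENNReal.tendsto_nhds_zero]
  intro ε hε
  obtain ⟨K, hK⟩ := ((ENNReal.tendsto_nhds_zero.mp rho_z_tendsto) ε hε).exists
  have h1 : ∀ᶠ k in atTop, ∀ i < K, t k i = σ i := by
    have h2 : ∀ i, ∀ᶠ k in atTop, t k i = σ i := by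
      intro i
      have := (tendsto_pi_nhds.mp h) i
      rw [nhds_discrete, tendsto_pure] at this
      exact this
    have h3 := (Finset.eventually_all (Finset.range K) (p := fun i k => t k i = σ i)
      (l := atTop)).mpr (fun i _ => h2 i)
    filter_upwards [h3] with k hk i hi
    exact hk i (Finset.mem_range.mpr hi)
  filter_upwards [h1] with k hk
  exact (rho_y_sub hk).trans hK

theorem mem_modSpace {a : ℕ → ℝ} (h : ∀ n, |a n| ≤ 1) : a ∈ modSpace (rho pe) := by
  refine ⟨1 / 2, by norm_num, ?_⟩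
  refine lt_of_le_of_lt (rho_mono pe_ge (b := z 0) (fun n => ?_)) ?_
  · rw [Pi.smul_apply, smul_eq_mul, abs_mul, abs_of_pos (by norm_num : (0 : ℝ) < 1 / 2)]
    have : |z 0 n| = 1 / 2 := by
      unfold z
      rw [if_pos (Nat.zero_le _), abs_of_pos (by norm_num)]
    rw [this]
    linarith [h n]
  · rw [rho_z]
    exact ENNReal.ofReal_lt_top

theorem y_mem (τ : ℕ → Bool) : y τ ∈ modSpace (rho pe) :=
  mem_modSpace (fun n => by rw [abs_of_nonneg (y_nonneg τ n)]; linarith [y_le τ n])

theorem yz_mem (τ : ℕ → Bool) (j : ℕ) : y τ + z j ∈ modSpace (rho pe) :=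
  mem_modSpace (fun n => by
    rw [Pi.add_apply, abs_of_nonneg (add_nonneg (y_nonneg τ n) (z_nonneg j n))]
    linarith [y_le τ n, z_le j n])

/-- The bits of `j`. -/
def bits (j : ℕ) : ℕ → Bool := fun i => j.testBit i

theorem bits_inj {i j : ℕ} (h : bits i = bits j) : i = j :=
  Nat.eq_of_testBit_eq (fun k => congrFun h k)

theorem exists_bits (τ : ℕ → Bool) (J K : ℕ) : ∃ j, J ≤ j ∧ ∀ i < K, bits j i = τ i := by
  have h1 : ∃ b, b < 2 ^ K ∧ ∀ i < K, Nat.testBit b i = τ i := by
    induction K with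
    | zero => exact ⟨0, by simp, fun i hi => absurd hi (Nat.not_lt_zero _)⟩
    | succ K ih =>
      obtain ⟨b, hb, hbi⟩ := ih
      refine ⟨2 ^ K * (if τ K then 1 else 0) + b, ?_, ?_⟩
      · have : 2 ^ (K + 1) = 2 * 2 ^ K := by ring
        split_ifs <;> omega
      · intro i hi
        rw [Nat.testBit_two_pow_mul_add _ hb]
        rcases Nat.lt_succ_iff_lt_or_eq.mp hi with hi | rfl
        · rw [if_pos hi]; exact hbi i hi
        · rw [if_neg (lt_irrefl _), Nat.sub_self]
          cases τ i <;> simp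
  obtain ⟨b, hb, hbi⟩ := h1
  refine ⟨2 ^ K * J + b, ?_, ?_⟩
  · have : 1 ≤ 2 ^ K := Nat.one_le_two_pow
    nlinarith
  · intro i hi
    unfold bits
    rw [Nat.testBit_two_pow_mul_add _ hb, if_pos hi]
    exact hbi i hi

/-- The closed set. -/
def F : Set (ℕ → ℝ) := range fun j => y (bits j) + z j

theorem coord_tendsto {x : ℕ → ℕ → ℝ} {a : ℕ → ℝ}
    (h : Tendsto (fun k => rho pe (x k - a)) atTop (𝓝 0)) (n : ℕ) :
    Tendsto (fun k => x k n) atTop (𝓝 (a n)) := by
  have h1 : Tendsto (fun k => ENNReal.ofReal (|x k n - a n| ^ pe n)) atTop (𝓝 0) :=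
    tendsto_of_tendsto_of_tendsto_of_le_of_le tendsto_const_nhds h (fun _ => bot_le)
      (fun k => le_rho pe (x k - a) n)
  rw [Metric.tendsto_atTop]
  intro ε hε
  have hpos : 0 < ε ^ pe n := Real.rpow_pos_of_pos hε _
  have h2 := (ENNReal.tendsto_nhds_zero.mp h1) (ENNReal.ofReal (ε ^ pe n / 2))
    (ENNReal.ofReal_pos.mpr (by linarith))
  obtain ⟨N, hN⟩ := eventually_atTop.mp h2
  refine ⟨N, fun k hk => ?_⟩
  have h3 := hN k hk
  rw [ENNReal.ofReal_le_ofReal_iff (by linarith)] at h3
  rw [Real.dist_eq]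
  by_contra hcon
  push Not at hcon
  have h4 : ε ^ pe n ≤ |x k n - a n| ^ pe n :=
    Real.rpow_le_rpow hε.le hcon (by linarith [pe_ge n])
  linarith

theorem F_closed : RhoClosed (rho pe) F := by
  refine ⟨?_, ?_⟩
  · rintro _ ⟨j, rfl⟩
    exact yz_mem _ _
  · intro x a _ hx hlim
    choose j hj using hx
    by_cases hfreq : ∃ m, ∃ᶠ k in atTop, j k = m
    · obtain ⟨m, hm⟩ := hfreq
      have h0 : rho pe (y (bits m) + z m - a) = 0 := by
        by_contra hne
        have hpos : 0 < rho pe (y (bits m) + z m - a) := pos_iff_ne_zero.mpr hne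
        have h1 := hlim.eventually (gt_mem_nhds hpos)
        obtain ⟨k, hk1, hk2⟩ := (hm.and_eventually h1).exists
        rw [← hj k, hk1] at hk2
        exact lt_irrefl _ hk2
      have h1 := rho_eq_zero pe_ge h0
      exact ⟨m, sub_eq_zero.mp h1⟩
    · exfalso
      push Not at hfreq
      -- `j k → ∞`
      have hj_ge : ∀ M, ∀ᶠ k in atTop, M ≤ j k := by
        intro M
        induction M with
        | zero => exact Eventually.of_forall (fun k => Nat.zero_le _)
        | succ M ih =>
          have h1 := hfreq M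
          filter_upwards [ih, h1] with k hk1 hk2
          omega
      -- eventually the modular distance is finite
      have hfin : ∀ᶠ k in atTop, rho pe (x k - a) < ⊤ :=
        hlim.eventually (gt_mem_nhds ENNReal.zero_lt_top)
      -- coordinates are eventually those of `y`
      have hval : ∀ n, ∀ᶠ k in atTop, y (bits (j k)) n = a n := by
        intro n
        have h1 := coord_tendsto hlim n
        have h2 : Tendsto (fun k => y (bits (j k)) n) atTop (𝓝 (a n)) := by
          refine h1.congr' ?_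
          filter_upwards [hj_ge (n + 1)] with k hk
          rw [← hj k]
          show y (bits (j k)) n + z (j k) n = _
          unfold z
          rw [if_neg (by omega), add_zero]
        have h3 : ∀ᶠ k in atTop, |y (bits (j k)) n - a n| < 1 / 8 := by
          have := (h2.sub_const (a n)).abs
          rw [sub_self, abs_zero] at this
          exact this.eventually (gt_mem_nhds (by norm_num))
        -- any two values within distance `1/4` coincide
        have h4 : ∀ τ σ : ℕ → Bool, |y τ n - y σ n| < 1 / 4 → y τ n = y σ n := by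
          intro τ σ h
          unfold y at h ⊢
          split_ifs at h ⊢ <;> norm_num at h <;> try rfl
        obtain ⟨K, hK⟩ := eventually_atTop.mp h3
        have h5 : ∀ k ≥ K, y (bits (j k)) n = y (bits (j K)) n := by
          intro k hk
          apply h4
          have e1 := abs_lt.mp (hK k hk)
          have e2 := abs_lt.mp (hK K le_rfl)
          rw [abs_lt]
          constructor <;> linarith [e1.1, e1.2, e2.1, e2.2]
        have h6 : Tendsto (fun k => y (bits (j k)) n) atTop (𝓝 (y (bits (j K)) n)) := by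
          refine tendsto_const_nhds.congr' ?_
          filter_upwards [eventually_ge_atTop K] with k hk
          exact (h5 k hk).symm
        have h7 := tendsto_nhds_unique h2 h6
        filter_upwards [eventually_ge_atTop K] with k hk
        rw [h7]
        exact h5 k hk
      have ha : ∀ n, a n ≤ 1 / 2 := by
        intro n
        obtain ⟨k, hk⟩ := (hval n).exists
        rw [← hk]
        exact y_le _ _
      -- for good `k`, `a` equals `1/2` at all but finitely many codes of `bits (j k)`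
      have hgood : ∀ k, rho pe (x k - a) < ⊤ → ∃ m₀, ∀ m ≥ m₀,
          a (code (bits (j k)) m) = 1 / 2 := by
        intro k hk
        by_contra hcon
        push Not at hcon
        -- infinitely many coordinates where `x k - a = 1`
        have hbig : ∀ m₀, ∃ m ≥ m₀, j k ≤ m ∧
            (x k - a) (code (bits (j k)) m) = 1 := by
          intro m₀
          obtain ⟨m, hm, hne⟩ := hcon (max m₀ (j k))
          refine ⟨m, le_of_max_le_left hm, le_of_max_le_right hm, ?_⟩
          have hjm : j k ≤ m := le_of_max_le_right hm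
          have h1 : a (code (bits (j k)) m) = 0 := by
            obtain ⟨k', hk'⟩ := (hval (code (bits (j k)) m)).exists
            rw [← hk'] at hne ⊢
            unfold y at hne ⊢
            split_ifs at hne ⊢ with h2
            · exact absurd rfl hne
            · rfl
          rw [Pi.sub_apply, h1, ← hj k]
          show y (bits (j k)) (code (bits (j k)) m) + z (j k) (code (bits (j k)) m) - 0 = 1
          rw [y_code]
          have h2 := (code_bounds (bits (j k)) m).1
          have h3 : m < 2 ^ m := Nat.lt_two_pow_self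
          unfold z
          rw [if_pos (by omega)]
          norm_num
        -- contradiction with finiteness
        have hsum : Summable (fun n => (ENNReal.ofReal (|(x k - a) n| ^ pe n)).toReal) :=
          ENNReal.summable_toReal hk.ne
        have htend := hsum.tendsto_atTop_zero
        have h1 : ∀ᶠ n in atTop, (ENNReal.ofReal (|(x k - a) n| ^ pe n)).toReal < 1 :=
          htend.eventually (gt_mem_nhds one_pos)
        obtain ⟨N, hN⟩ := eventually_atTop.mp h1
        obtain ⟨m, hm, _, hm2⟩ := hbig N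
        have h2 := (code_bounds (bits (j k)) m).1
        have h3 : m < 2 ^ m := Nat.lt_two_pow_self
        have h4 := hN (code (bits (j k)) m) (by omega)
        rw [hm2, abs_one, Real.one_rpow] at h4
        simp at h4
      -- two good indices with different `j`
      obtain ⟨k₁, hk₁⟩ := hfin.exists
      obtain ⟨k₂, hk₂, hk₂'⟩ := (hfin.and (hj_ge (j k₁ + 1))).exists
      have hne : bits (j k₁) ≠ bits (j k₂) := by
        intro h
        have := bits_inj h
        omega
      obtain ⟨i, hi⟩ := Function.ne_iff.mp hne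
      obtain ⟨m₁, hm₁⟩ := hgood k₁ hk₁
      obtain ⟨m₂, hm₂⟩ := hgood k₂ hk₂
      set m := max (max m₁ m₂) (i + 1) with hm
      have a1 := hm₁ m (by simp [hm])
      have a2 := hm₂ m (by simp [hm])
      obtain ⟨k, hk1, hk2⟩ := ((hval (code (bits (j k₁)) m)).and
        (hval (code (bits (j k₂)) m))).exists
      rw [a1] at hk1
      rw [a2] at hk2
      have b1 : code (bits (j k)) m = code (bits (j k₁)) m := by
        unfold y at hk1
        rw [log_code] at hk1
        by_contra hc
        rw [if_neg hc] at hk1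
        norm_num at hk1
      have b2 : code (bits (j k)) m = code (bits (j k₂)) m := by
        unfold y at hk2
        rw [log_code] at hk2
        by_contra hc
        rw [if_neg hc] at hk2
        norm_num at hk2
      have b3 := code_inj (b1.symm.trans b2) i (by simp [hm])
      exact hi b3

theorem y_notMem (τ : ℕ → Bool) : y τ ∉ F := by
  rintro ⟨j, hj⟩
  have h1 := congrFun hj (code (bits j) j)
  have h2 : y (bits j) (code (bits j) j) + z j (code (bits j) j) = y τ (code (bits j) j) := h1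
  rw [y_code] at h2
  have h3 := (code_bounds (bits j) j).1
  have h4 : j < 2 ^ j := Nat.lt_two_pow_self
  unfold z at h2
  rw [if_pos (by omega)] at h2
  have := y_le τ (code (bits j) j)
  linarith

theorem main (τ₀ : ℕ → Bool) : NotSeparated (rho pe) F (y τ₀) := by
  refine ⟨F_closed, y_mem _, y_notMem _, ?_⟩
  rintro U V ⟨_, hU⟩ ⟨_, hV⟩ hxU hFV
  by_contra hdis
  rw [not_nonempty_iff_eq_empty] at hdis
  have hVC : ∀ v ∈ V, v ∉ U := by
    intro v hv hvU
    have : v ∈ U ∩ V := ⟨hvU, hv⟩
    rw [hdis] at this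
    exact this
  -- the open sets of parameters
  have hopen : ∀ j, IsOpen {τ : ℕ → Bool | y τ + z j ∈ V} := by
    intro j
    rw [← isClosed_compl_iff]
    apply IsSeqClosed.isClosed
    intro t σ ht hlim hσ
    have h1 : y σ + z j ∈ modSpace (rho pe) \ V := by
      refine hV.2 (fun k => y (t k) + z j) _ (yz_mem _ _) (fun k => ⟨yz_mem _ _, ht k⟩) ?_
      refine (rho_y_tendsto hlim).congr (fun k => ?_)
      congr 1
      abel
    exact h1.2 hσ
  have hdense : ∀ J : ℕ, Dense (⋃ j ∈ Ici J, {τ : ℕ → Bool | y τ + z j ∈ V}) := by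
    intro J τ
    rw [mem_closure_iff_seq_limit]
    choose g hg1 hg2 using fun K => exists_bits τ J K
    refine ⟨fun K => bits (g K), fun K => ?_, ?_⟩
    · simp only [mem_iUnion]
      exact ⟨g K, hg1 K, hFV ⟨g K, rfl⟩⟩
    · rw [tendsto_pi_nhds]
      intro i
      refine tendsto_const_nhds.congr' ?_
      filter_upwards [eventually_gt_atTop i] with K hK
      exact (hg2 K i hK).symm
  have hB : Dense (⋂ J : ℕ, ⋃ j ∈ Ici J, {τ : ℕ → Bool | y τ + z j ∈ V}) :=
    dense_iInter_of_isOpen_nat (fun J => isOpen_biUnion (fun j _ => hopen j)) hdense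
  -- the closed set of parameters
  have hcl : IsClosed {τ : ℕ → Bool | y τ ∈ modSpace (rho pe) \ U} := by
    apply IsSeqClosed.isClosed
    intro t σ ht hlim
    exact hU.2 (fun k => y (t k)) _ (y_mem _) ht (rho_y_tendsto hlim)
  have hsub : (⋂ J : ℕ, ⋃ j ∈ Ici J, {τ : ℕ → Bool | y τ + z j ∈ V}) ⊆
      {τ : ℕ → Bool | y τ ∈ modSpace (rho pe) \ U} := by
    intro τ hτ
    rw [mem_iInter] at hτ
    have h1 : ∀ J : ℕ, ∃ j, J ≤ j ∧ y τ + z j ∈ V := by
      intro J
      have := hτ J
      simp only [mem_iUnion] at this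
      obtain ⟨j, hj, hj2⟩ := this
      exact ⟨j, hj, hj2⟩
    choose g hg1 hg2 using h1
    refine hU.2 (fun k => y τ + z (g k)) _ (y_mem _)
      (fun k => ⟨yz_mem _ _, hVC _ (hg2 k)⟩) ?_
    have hg : Tendsto g atTop atTop := tendsto_atTop_mono hg1 tendsto_id
    refine (rho_z_tendsto.comp hg).congr (fun k => ?_)
    show rho pe (z (g k)) = rho pe (y τ + z (g k) - y τ)
    congr 1
    abel
  have hall : {τ : ℕ → Bool | y τ ∈ modSpace (rho pe) \ U} = univ := by
    rw [eq_univ_iff_forall]
    intro τ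
    have h1 := hB τ
    exact hcl.closure_subset (closure_mono hsub h1)
  have : τ₀ ∈ {τ : ℕ → Bool | y τ ∈ modSpace (rho pe) \ U} := by rw [hall]; trivial
  exact this.2 hxU

end Pool.Agent.V1199.ModTop
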