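import Mathlib

open Set Filter Topology

namespace Pool.Agent.V1199

/-- Basic neighbourhoods for the weak topology. -/
theorem weak_basic {X : Type*} [NormedAddCommGroup X] [NormedSpace ℝ X]
    {U : Set (WeakSpace ℝ X)} (hU : IsOpen U) {x₀ : X} (h : toWeakSpace ℝ X x₀ ∈ U) :
    ∃ (F : Finset (StrongDual ℝ X)) (ε : ℝ), 0 < ε ∧
      ∀ y : X, (∀ f ∈ F, |f y - f x₀| < ε) → toWeakSpace ℝ X y ∈ U := by
  obtain ⟨V, hV, hVU⟩ := isOpen_induced_iff.mp hU
  rw [← hVU] at h
  obtain ⟨I, u, hu, hI⟩ := isOpen_pi_iff.mp hV _ h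
  have key : ∀ J : Finset (StrongDual ℝ X), J ⊆ I → ∃ ε : ℝ, 0 < ε ∧
      ∀ f ∈ J, Metric.ball (f x₀) ε ⊆ u f := by
    classical
    intro J
    induction J using Finset.induction_on with
    | empty => intro _; exact ⟨1, one_pos, by simp⟩
    | insert a J ha ih =>
      intro hJ
      obtain ⟨ε, hε, h1⟩ := ih ((Finset.subset_insert _ _).trans hJ)
      have haI : a ∈ I := hJ (Finset.mem_insert_self _ _)
      obtain ⟨δ, hδ, h2⟩ := Metric.isOpen_iff.mp (hu a haI).1 _ (hu a haI).2
      refine ⟨min ε δ, lt_min hε hδ, ?_⟩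
      intro f hf
      rcases Finset.mem_insert.mp hf with rfl | hf
      · exact (Metric.ball_subset_ball (min_le_right _ _)).trans h2
      · exact (Metric.ball_subset_ball (min_le_left _ _)).trans (h1 f hf)
  obtain ⟨ε, hε, h1⟩ := key I (Finset.Subset.refl _)
  refine ⟨I, ε, hε, fun y hy => ?_⟩
  rw [← hVU]
  apply hI
  intro f hf
  exact h1 f hf (by rw [Metric.mem_ball, Real.dist_eq]; exact hy f hf)

/-- Continuous functionals are weakly continuous. -/
theorem weak_continuous {X : Type*} [NormedAddCommGroup X] [NormedSpace ℝ X]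
    (f : StrongDual ℝ X) : Continuous (fun y : WeakSpace ℝ X => f ((toWeakSpace ℝ X).symm y)) :=
  WeakBilin.eval_continuous _ f

/-- A slice-type set is weakly open. -/
theorem weak_isOpen_lt {X : Type*} [NormedAddCommGroup X] [NormedSpace ℝ X]
    (f : StrongDual ℝ X) (c : ℝ) :
    IsOpen {y : WeakSpace ℝ X | c < f ((toWeakSpace ℝ X).symm y)} :=
  isOpen_lt continuous_const (weak_continuous f)

end Pool.Agent.V1199
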