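import Mathlib
import Pool.Agent.V1199.Weak

open Set Filter Topology

namespace Pool.Agent.V1199.CodeP

/-- The `ℚ`-vector space with a countable Hamel basis. -/
abbrev V := ℕ →₀ ℚ

/-- The set `𝒫` of pseudonorms on `V`. -/
def PN : Set (V → ℝ) :=
  {μ | (∀ v, 0 ≤ μ v) ∧ (∀ u v, μ (u + v) ≤ μ u + μ v) ∧ ∀ (q : ℚ) (v : V), μ (q • v) = |(q : ℝ)| * μ v}

/-- `(X, ι)` realises the Banach space `X_μ`: `X` is a real Banach space and `ι : V → X` is additive
with dense range and `‖ι v‖ = μ v`; that is, `X` is the completion of `V / N_μ`. -/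
structure IsModel (μ : V → ℝ) (X : Type) [NormedAddCommGroup X] [NormedSpace ℝ X]
    (ι : V →+ X) : Prop where
  complete : CompleteSpace X
  dense : DenseRange ι
  norm_eq : ∀ v, ‖ι v‖ = μ v

/-- The set `𝒫_∞`. -/
def Pinf : Set (V → ℝ) :=
  {μ | μ ∈ PN ∧ ∀ (X : Type) [NormedAddCommGroup X] [NormedSpace ℝ X] (ι : V →+ X),
    IsModel μ X ι → ¬ FiniteDimensional ℝ X}

/-- The diameter two property. -/
def D2P (X : Type) [NormedAddCommGroup X] [NormedSpace ℝ X] : Prop :=
  ∀ U : Set (WeakSpace ℝ X), IsOpen U → {x : X | ‖x‖ ≤ 1 ∧ toWeakSpace ℝ X x ∈ U}.Nonempty →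
    Metric.diam {x : X | ‖x‖ ≤ 1 ∧ toWeakSpace ℝ X x ∈ U} = 2

/-- The diametral diameter two property. -/
def DD2P (X : Type) [NormedAddCommGroup X] [NormedSpace ℝ X] : Prop :=
  ∀ U : Set (WeakSpace ℝ X), IsOpen U → ∀ x : X, ‖x‖ ≤ 1 → toWeakSpace ℝ X x ∈ U →
    ∀ ε : ℝ, 0 < ε → ∃ y : X, ‖y‖ ≤ 1 ∧ toWeakSpace ℝ X y ∈ U ∧ 1 + ‖x‖ - ε ≤ ‖x - y‖

/-! ### Existence of models -/

section exists_model

variable {μ : V → ℝ}

theorem pn_zero (hμ : μ ∈ PN) : μ 0 = 0 := by
  have := hμ.2.2 0 0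
  simpa using this

theorem pn_neg (hμ : μ ∈ PN) (v : V) : μ (-v) = μ v := by
  have := hμ.2.2 (-1) v
  simpa using this

/-- The weights. -/
noncomputable def wt (μ : V → ℝ) (i : ℕ) : ℝ := μ (Finsupp.single i 1)

/-- The weighted `ℓ¹`-norm of a finitely supported real function. -/
noncomputable def L1 (μ : V → ℝ) (w : ℕ →₀ ℝ) : ℝ := w.sum fun i a => |a| * wt μ i

/-- The inclusion of the rational space in the real one. -/
noncomputable def inc : V →+ (ℕ →₀ ℝ) :=
  Finsupp.mapRange.addMonoidHom (Rat.castHom ℝ).toAddMonoidHom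

theorem inc_apply (v : V) (i : ℕ) : inc v i = (v i : ℝ) := rfl

theorem L1_eq (w : ℕ →₀ ℝ) (s : Finset ℕ) (hs : w.support ⊆ s) :
    L1 μ w = ∑ i ∈ s, |w i| * wt μ i :=
  Finsupp.sum_of_support_subset _ hs _ (by simp)

theorem L1_nonneg (hμ : μ ∈ PN) (w : ℕ →₀ ℝ) : 0 ≤ L1 μ w :=
  Finset.sum_nonneg fun i _ => mul_nonneg (abs_nonneg _) (hμ.1 _)

theorem L1_add (hμ : μ ∈ PN) (w w' : ℕ →₀ ℝ) : L1 μ (w + w') ≤ L1 μ w + L1 μ w' := by
  classical
  rw [L1_eq (w + w') (w.support ∪ w'.support) Finsupp.support_add,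
    L1_eq w (w.support ∪ w'.support) Finset.subset_union_left,
    L1_eq w' (w.support ∪ w'.support) Finset.subset_union_right, ← Finset.sum_add_distrib]
  refine Finset.sum_le_sum fun i _ => ?_
  rw [← add_mul]
  exact mul_le_mul_of_nonneg_right (abs_add_le _ _) (hμ.1 _)

theorem L1_smul (r : ℝ) (w : ℕ →₀ ℝ) : L1 μ (r • w) = |r| * L1 μ w := by
  rw [L1_eq (r • w) w.support Finsupp.support_smul, L1_eq w w.support Finset.Subset.rfl,
    Finset.mul_sum]
  refine Finset.sum_congr rfl fun i _ => ?_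
  rw [Finsupp.smul_apply, smul_eq_mul, abs_mul, mul_assoc]

theorem mu_le_L1 (hμ : μ ∈ PN) (v : V) : μ v ≤ L1 μ (inc v) := by
  classical
  have key : ∀ s : Finset ℕ, μ (∑ i ∈ s, Finsupp.single i (v i)) ≤
      ∑ i ∈ s, |((v i : ℚ) : ℝ)| * wt μ i := by
    intro s
    induction s using Finset.induction_on with
    | empty => simp [pn_zero hμ]
    | insert a s ha ih =>
      rw [Finset.sum_insert ha, Finset.sum_insert ha]
      refine (hμ.2.1 _ _).trans (add_le_add (le_of_eq ?_) ih)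
      have : (Finsupp.single a (v a) : V) = (v a) • Finsupp.single a 1 := by
        rw [Finsupp.smul_single, smul_eq_mul, mul_one]
      rw [this, hμ.2.2]
      rfl
  have h1 := key v.support
  have h2 : ∑ i ∈ v.support, Finsupp.single i (v i) = v := v.sum_single
  rw [h2] at h1
  refine h1.trans (le_of_eq ?_)
  rw [L1_eq (inc v) v.support]
  · rfl
  · intro i hi
    rw [Finsupp.mem_support_iff, inc_apply] at hi
    rw [Finsupp.mem_support_iff]
    exact fun h => hi (by rw [h]; simp)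

/-- The extension of the pseudonorm to real coefficients. -/
noncomputable def nrm (μ : V → ℝ) (w : ℕ →₀ ℝ) : ℝ := ⨅ v : V, (μ v + L1 μ (w - inc v))

theorem nrm_bdd (hμ : μ ∈ PN) (w : ℕ →₀ ℝ) :
    BddBelow (range fun v : V => μ v + L1 μ (w - inc v)) :=
  ⟨0, by rintro _ ⟨v, rfl⟩; exact add_nonneg (hμ.1 v) (L1_nonneg hμ _)⟩

theorem nrm_le (hμ : μ ∈ PN) (w : ℕ →₀ ℝ) (v : V) : nrm μ w ≤ μ v + L1 μ (w - inc v) :=
  ciInf_le (nrm_bdd hμ w) v

theorem nrm_nonneg (hμ : μ ∈ PN) (w : ℕ →₀ ℝ) : 0 ≤ nrm μ w :=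
  le_ciInf fun v => add_nonneg (hμ.1 v) (L1_nonneg hμ _)

theorem nrm_inc (hμ : μ ∈ PN) (v : V) : nrm μ (inc v) = μ v := by
  refine le_antisymm ?_ ?_
  · have := nrm_le hμ (inc v) v
    rw [sub_self] at this
    have h0 : L1 μ 0 = 0 := by simp [L1]
    rwa [h0, add_zero] at this
  · refine le_ciInf fun u => ?_
    have h1 := hμ.2.1 u (v - u)
    rw [add_sub_cancel] at h1
    have h2 := mu_le_L1 hμ (v - u)
    rw [map_sub] at h2
    linarith

theorem nrm_add (hμ : μ ∈ PN) (w w' : ℕ →₀ ℝ) : nrm μ (w + w') ≤ nrm μ w + nrm μ w' := by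
  have : ∀ v v' : V, nrm μ (w + w') ≤ (μ v + L1 μ (w - inc v)) + (μ v' + L1 μ (w' - inc v')) := by
    intro v v'
    refine (nrm_le hμ _ (v + v')).trans ?_
    have h1 := hμ.2.1 v v'
    have h2 := L1_add hμ (w - inc v) (w' - inc v')
    have h3 : w + w' - inc (v + v') = (w - inc v) + (w' - inc v') := by rw [map_add]; abel
    rw [h3]
    linarith
  have h1 : ∀ v : V, nrm μ (w + w') - (μ v + L1 μ (w - inc v)) ≤ nrm μ w' := fun v =>
    le_ciInf fun v' => by linarith [this v v']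
  have h2 : nrm μ (w + w') - nrm μ w' ≤ nrm μ w := le_ciInf fun v => by linarith [h1 v]
  linarith

theorem nrm_smul_le (hμ : μ ∈ PN) (r : ℝ) (w : ℕ →₀ ℝ) : nrm μ (r • w) ≤ |r| * nrm μ w := by
  have key : ∀ v : V, nrm μ (r • w) ≤ |r| * (μ v + L1 μ (w - inc v)) := by
    intro v
    refine le_of_forall_pos_le_add fun ε hε => ?_
    have hA : 0 ≤ μ v + L1 μ (w - inc v) := add_nonneg (hμ.1 v) (L1_nonneg hμ _)
    have hB := L1_nonneg hμ w
    obtain ⟨q, hq⟩ := exists_rat_near r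
      (show 0 < ε / (μ v + L1 μ (w - inc v) + L1 μ w + 1) by positivity)
    have h1 := nrm_le hμ (r • w) (q • v)
    have h2 : r • w - inc (q • v) = (q : ℝ) • (w - inc v) + (r - q) • w := by
      have : inc (q • v) = (q : ℝ) • inc v := by
        ext i
        rw [inc_apply, Finsupp.smul_apply, Finsupp.smul_apply, inc_apply, smul_eq_mul, smul_eq_mul]
        push_cast
        ring
      rw [this]
      module
    have h3 := L1_add hμ ((q : ℝ) • (w - inc v)) ((r - q) • w)
    rw [L1_smul, L1_smul] at h3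
    rw [hμ.2.2, h2] at h1
    have h4 : |(q : ℝ)| ≤ |r| + |r - q| := by
      have := abs_sub_abs_le_abs_sub (q : ℝ) r
      rw [abs_sub_comm] at this
      linarith
    have h5 : |(q : ℝ)| * (μ v + L1 μ (w - inc v)) ≤
        (|r| + |r - q|) * (μ v + L1 μ (w - inc v)) := mul_le_mul_of_nonneg_right h4 hA
    have h6 : |r - q| * (μ v + L1 μ (w - inc v) + L1 μ w + 1) ≤ ε := by
      rw [lt_div_iff₀ (by positivity)] at hq
      exact hq.le
    nlinarith [abs_nonneg (r - q)]
  rcases eq_or_ne r 0 with rfl | hr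
  · have := key 0
    simp only [abs_zero, zero_mul] at this ⊢
    exact this
  · have h1 : ∀ v : V, nrm μ (r • w) / |r| ≤ μ v + L1 μ (w - inc v) := by
      intro v
      rw [div_le_iff₀ (abs_pos.mpr hr)]
      linarith [key v]
    have h2 : nrm μ (r • w) / |r| ≤ nrm μ w := le_ciInf h1
    rw [div_le_iff₀ (abs_pos.mpr hr)] at h2
    linarith

theorem nrm_neg (hμ : μ ∈ PN) (w : ℕ →₀ ℝ) : nrm μ (-w) = nrm μ w := by
  have h1 := nrm_smul_le hμ (-1) w
  have h2 := nrm_smul_le hμ (-1) (-w)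
  rw [abs_neg, abs_one, one_mul, neg_one_smul] at h1
  rw [abs_neg, abs_one, one_mul, neg_one_smul, neg_neg] at h2
  exact le_antisymm h1 h2

theorem L1_dense (hμ : μ ∈ PN) (w : ℕ →₀ ℝ) {ε : ℝ} (hε : 0 < ε) :
    ∃ v : V, L1 μ (w - inc v) < ε := by
  classical
  have hW : 0 ≤ ∑ i ∈ w.support, wt μ i := Finset.sum_nonneg fun i _ => hμ.1 _
  have hq : ∀ i : ℕ, ∃ q : ℚ, |w i - q| < ε / (∑ i ∈ w.support, wt μ i + 1) := fun i =>
    exists_rat_near _ (by positivity)
  choose q hq using hq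
  obtain ⟨v, hvdef⟩ : ∃ v : V, v = ∑ i ∈ w.support, Finsupp.single i (q i) := ⟨_, rfl⟩
  have hv : ∀ i, v i = if i ∈ w.support then q i else 0 := by
    intro i
    rw [hvdef, Finsupp.finsetSum_apply]
    simp only [Finsupp.single_apply]
    rw [Finset.sum_ite_eq']
  refine ⟨v, ?_⟩
  rw [L1_eq _ w.support]
  · calc ∑ i ∈ w.support, |(w - inc v) i| * wt μ i
        ≤ ∑ i ∈ w.support, ε / (∑ i ∈ w.support, wt μ i + 1) * wt μ i := by
          refine Finset.sum_le_sum fun i hi => ?_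
          refine mul_le_mul_of_nonneg_right ?_ (hμ.1 _)
          rw [Finsupp.sub_apply, inc_apply, hv, if_pos hi]
          exact (hq i).le
      _ = ε / (∑ i ∈ w.support, wt μ i + 1) * ∑ i ∈ w.support, wt μ i := by rw [Finset.mul_sum]
      _ < ε := by
          rw [div_mul_eq_mul_div, div_lt_iff₀ (by positivity)]
          nlinarith
  · intro i hi
    by_contra hcon
    rw [Finsupp.mem_support_iff, Finsupp.sub_apply, inc_apply, hv, if_neg hcon] at hi
    rw [Finsupp.notMem_support_iff] at hcon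
    rw [hcon] at hi
    simp at hi

/-- The real seminormed space attached to a pseudonorm. -/
def E (_ : PN) : Type := ℕ →₀ ℝ

noncomputable instance (μ : PN) : AddCommGroup (E μ) := inferInstanceAs (AddCommGroup (ℕ →₀ ℝ))
noncomputable instance (μ : PN) : Module ℝ (E μ) := inferInstanceAs (Module ℝ (ℕ →₀ ℝ))

/-- The seminorm of `E μ`. -/
noncomputable def ags (μ : PN) : AddGroupSeminorm (E μ) where
  toFun w := nrm μ.1 w
  map_zero' := by
    have := nrm_inc μ.2 0
    rw [map_zero, pn_zero μ.2] at this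
    exact this
  add_le' w w' := nrm_add μ.2 w w'
  neg' w := nrm_neg μ.2 w

noncomputable instance (μ : PN) : SeminormedAddCommGroup (E μ) :=
  AddGroupSeminorm.toSeminormedAddCommGroup (ags μ)

noncomputable instance (μ : PN) : NormedSpace ℝ (E μ) where
  norm_smul_le r w := nrm_smul_le μ.2 r w

theorem E_norm (μ : PN) (w : E μ) : ‖w‖ = nrm μ.1 w := rfl

theorem exists_model (μ : V → ℝ) (hμ : μ ∈ PN) : ∃ (X : Type) (_ : NormedAddCommGroup X)
    (_ : NormedSpace ℝ X) (ι : V →+ X), IsModel μ X ι := by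
  let ν : PN := ⟨μ, hμ⟩
  let j : V →+ E ν := inc
  let ι : V →+ UniformSpace.Completion (E ν) :=
    { toFun := fun v => (j v : UniformSpace.Completion (E ν))
      map_zero' := by rw [map_zero]; rfl
      map_add' := fun u v => by rw [map_add]; exact UniformSpace.Completion.coe_add _ _ }
  refine ⟨UniformSpace.Completion (E ν), inferInstance, inferInstance, ι, ?_, ?_, ?_⟩
  · infer_instance
  · have hj : DenseRange j := by
      intro w
      rw [Metric.mem_closure_iff]
      intro ε hε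
      obtain ⟨v, hv⟩ := L1_dense hμ w hε
      refine ⟨j v, ⟨v, rfl⟩, ?_⟩
      rw [dist_eq_norm, E_norm]
      have h1 : ∀ w : ℕ →₀ ℝ, nrm μ w ≤ L1 μ w := by
        intro w
        have := nrm_le hμ w 0
        rwa [pn_zero hμ, map_zero, sub_zero, zero_add] at this
      exact lt_of_le_of_lt (h1 _) hv
    have h2 : DenseRange (UniformSpace.Completion.coe' : E ν → UniformSpace.Completion (E ν)) :=
      UniformSpace.Completion.denseRange_coe
    exact h2.comp hj (UniformSpace.Completion.continuous_coe _)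
  · intro v
    show ‖((j v : E ν) : UniformSpace.Completion (E ν))‖ = μ v
    rw [UniformSpace.Completion.norm_coe, E_norm]
    exact nrm_inc hμ v

end exists_model

end Pool.Agent.V1199.CodeP
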