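import Mathlib
import Pool.Agent.V1199.Weak
import Pool.Agent.V1199.CodeP

open Set Filter Topology

namespace Pool.Agent.V1199.CodeP

/-- Functionals of norm at most one on the coded space. -/
def Fun1 (μ φ : V → ℝ) : Prop := (∀ u v, φ (u + v) = φ u + φ v) ∧ ∀ v, |φ v| ≤ μ v

theorem Fun1.sub {μ φ : V → ℝ} (h : Fun1 μ φ) (u v : V) : φ (u - v) = φ u - φ v := by
  have := h.1 (u - v) v
  rw [sub_add_cancel] at this
  linarith

/-- Extension of a coded functional to a model. -/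
theorem extend_fun {μ φ : V → ℝ} (h : Fun1 μ φ) {X : Type} [NormedAddCommGroup X]
    [NormedSpace ℝ X] {ι : V →+ X} (hι : IsModel μ X ι) :
    ∃ f : StrongDual ℝ X, (∀ v, f (ι v) = φ v) ∧ ∀ x, |f x| ≤ ‖x‖ := by
  let g : X → ℝ := fun x => ⨆ v : V, (φ v - ‖x - ι v‖)
  have hlip : ∀ u v : V, ∀ x, φ v - ‖x - ι v‖ ≤ φ u + ‖x - ι u‖ := by
    intro u v x
    have h1 : φ v - φ u ≤ ‖ι v - ι u‖ := by
      rw [← h.sub, ← map_sub, hι.norm_eq]
      exact (le_abs_self _).trans (h.2 _)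
    have h2 : ‖ι v - ι u‖ ≤ ‖x - ι v‖ + ‖x - ι u‖ := by
      have : ι v - ι u = (x - ι u) - (x - ι v) := by abel
      rw [this, add_comm]
      exact norm_sub_le _ _
    linarith
  have hbdd : ∀ x, BddAbove (range fun v : V => φ v - ‖x - ι v‖) := fun x =>
    ⟨φ 0 + ‖x - ι 0‖, by rintro _ ⟨v, rfl⟩; exact hlip 0 v x⟩
  have hKP : ∀ x v, |g x - φ v| ≤ ‖x - ι v‖ := by
    intro x v
    have h1 : φ v - ‖x - ι v‖ ≤ g x := le_ciSup (hbdd x) v
    have h2 : g x ≤ φ v + ‖x - ι v‖ := ciSup_le fun u => hlip v u x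
    rw [abs_le]
    constructor <;> linarith
  have happ : ∀ x : X, ∀ ε : ℝ, 0 < ε → ∃ v : V, ‖x - ι v‖ < ε := by
    intro x ε hε
    obtain ⟨v, hv⟩ := hι.dense.exists_dist_lt x hε
    exact ⟨v, by rwa [dist_eq_norm] at hv⟩
  have hadd : ∀ x y, g (x + y) = g x + g y := by
    intro x y
    have : |g (x + y) - (g x + g y)| ≤ 0 := by
      refine le_of_forall_pos_le_add fun ε hε => ?_
      obtain ⟨u, hu⟩ := happ x (ε / 4) (by positivity)
      obtain ⟨v, hv⟩ := happ y (ε / 4) (by positivity)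
      have e1 := hKP (x + y) (u + v)
      have e2 := hKP x u
      have e3 := hKP y v
      have e4 : ‖x + y - ι (u + v)‖ ≤ ‖x - ι u‖ + ‖y - ι v‖ := by
        rw [map_add]
        have : x + y - (ι u + ι v) = (x - ι u) + (y - ι v) := by abel
        rw [this]; exact norm_add_le _ _
      rw [h.1] at e1
      rw [abs_le] at e1 e2 e3 ⊢
      constructor <;> linarith [e1.1, e1.2, e2.1, e2.2, e3.1, e3.2]
    have := abs_nonpos_iff.mp this
    linarith
  have hφ0 : φ 0 = 0 := by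
    have := h.1 0 0
    rw [add_zero] at this
    linarith
  have hbound : ∀ x, |g x| ≤ ‖x‖ := by
    intro x
    have := hKP x 0
    rwa [hφ0, map_zero, sub_zero, sub_zero] at this
  let G : X →+ ℝ := { toFun := g, map_zero' := by
                        have := hadd 0 0
                        rw [add_zero] at this
                        linarith
                      map_add' := hadd }
  have hcont : Continuous G := by
    refine Metric.continuous_iff.mpr fun x ε hε => ⟨ε, hε, fun y hy => ?_⟩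
    rw [Real.dist_eq, ← map_sub]
    rw [dist_eq_norm] at hy
    exact (hbound _).trans_lt hy
  refine ⟨G.toRealLinearMap hcont, fun v => ?_, hbound⟩
  have := hKP (ι v) v
  rw [sub_self, norm_zero] at this
  have := abs_nonpos_iff.mp this
  show g (ι v) = φ v
  linarith

/-- Weakly open sets contain basic neighbourhoods given by functionals of norm at most one. -/
theorem weak_fin {X : Type} [NormedAddCommGroup X] [NormedSpace ℝ X] {U : Set (WeakSpace ℝ X)}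
    (hU : IsOpen U) {x₀ : X} (h : toWeakSpace ℝ X x₀ ∈ U) :
    ∃ (n k : ℕ) (g : Fin n → StrongDual ℝ X), (∀ i x, |g i x| ≤ ‖x‖) ∧
      ∀ y, (∀ i, |g i y - g i x₀| < 1 / ((k : ℝ) + 1)) → toWeakSpace ℝ X y ∈ U := by
  obtain ⟨F, ε, hε, hF⟩ := weak_basic hU h
  obtain ⟨M, hM⟩ : ∃ M : ℝ, ∀ f ∈ F, ‖f‖ ≤ M := by
    obtain ⟨M, hM⟩ := (F.image fun f => ‖f‖).bddAbove
    exact ⟨M, fun f hf => hM (Finset.mem_coe.mpr (Finset.mem_image_of_mem _ hf))⟩
  obtain ⟨M', hM'⟩ : ∃ M' : ℝ, M' = max M 1 := ⟨_, rfl⟩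
  have hM'1 : 1 ≤ M' := by rw [hM']; exact le_max_right _ _
  have hM'M : M ≤ M' := by rw [hM']; exact le_max_left _ _
  obtain ⟨k, hk⟩ := exists_nat_one_div_lt (show 0 < ε / M' by positivity)
  let e := F.equivFin.symm
  refine ⟨F.card, k, fun i => (1 / M') • (e i).1, fun i x => ?_, fun y hy => hF y fun f hf => ?_⟩
  · show |1 / M' * (e i).1 x| ≤ ‖x‖
    rw [abs_mul, abs_of_pos (by positivity)]
    have h1 : |(e i).1 x| ≤ M' * ‖x‖ := by
      have := (e i).1.le_opNorm x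
      rw [Real.norm_eq_abs] at this
      exact this.trans (mul_le_mul_of_nonneg_right ((hM _ (e i).2).trans hM'M) (norm_nonneg _))
    calc 1 / M' * |(e i).1 x| ≤ 1 / M' * (M' * ‖x‖) :=
          mul_le_mul_of_nonneg_left h1 (by positivity)
      _ = ‖x‖ := by field_simp
  · have h2 : |1 / M' * f y - 1 / M' * f x₀| < 1 / ((k : ℝ) + 1) := by
      have h1 : |1 / M' * (e (e.symm ⟨f, hf⟩)).1 y - 1 / M' * (e (e.symm ⟨f, hf⟩)).1 x₀| <
        1 / ((k : ℝ) + 1) := hy (e.symm ⟨f, hf⟩)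
      rw [Equiv.apply_symm_apply] at h1
      exact h1
    rw [← mul_sub, abs_mul, abs_of_pos (by positivity : (0 : ℝ) < 1 / M')] at h2
    have h3 : 1 / M' * |f y - f x₀| < ε / M' := h2.trans hk
    rw [div_mul_eq_mul_div, one_mul, div_lt_div_iff_of_pos_right (by positivity)] at h3
    exact h3

/-- Compactness: projections of closed relations along functionals are closed. -/
theorem isClosed_proj {n : ℕ} {T : Set ((V → ℝ) × (Fin n → V → ℝ))} (hT : IsClosed T) :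
    IsClosed {μ : V → ℝ | ∃ φ : Fin n → V → ℝ, (∀ i, Fun1 μ (φ i)) ∧ (μ, φ) ∈ T} := by
  refine isClosed_of_closure_subset fun μ hμ => ?_
  obtain ⟨W, hW1, hW2⟩ := mem_closure_iff_ultrafilter.mp hμ
  have hch : ∀ ν : V → ℝ, ∃ φ : Fin n → V → ℝ, ν ∈ {μ : V → ℝ | ∃ φ : Fin n → V → ℝ,
      (∀ i, Fun1 μ (φ i)) ∧ (μ, φ) ∈ T} → (∀ i, Fun1 ν (φ i)) ∧ (ν, φ) ∈ T := by
    intro ν
    by_cases hν : ν ∈ {μ : V → ℝ | ∃ φ : Fin n → V → ℝ, (∀ i, Fun1 μ (φ i)) ∧ (μ, φ) ∈ T}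
    · obtain ⟨φ, hφ⟩ := hν
      exact ⟨φ, fun _ => hφ⟩
    · exact ⟨fun _ _ => 0, fun h => absurd h hν⟩
  choose Φ hΦ using hch
  have hΦW : ∀ᶠ ν in (W : Filter (V → ℝ)), (∀ i, Fun1 ν (Φ ν i)) ∧ (ν, Φ ν) ∈ T := by
    filter_upwards [hW1] with ν hν using hΦ ν hν
  have hcoord : ∀ v : V, Tendsto (fun ν : V → ℝ => ν v) W (𝓝 (μ v)) := fun v =>
    ((continuous_apply v).tendsto μ).mono_left hW2
  have hlim : ∀ (i : Fin n) (v : V), ∃ l : ℝ, Tendsto (fun ν => Φ ν i v) W (𝓝 l) := by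
    intro i v
    have hK : IsCompact (Icc (-(μ v + 1)) (μ v + 1)) := isCompact_Icc
    have h1 : (W.map (fun ν => Φ ν i v) : Filter ℝ) ≤ 𝓟 (Icc (-(μ v + 1)) (μ v + 1)) := by
      rw [le_principal_iff]
      refine Filter.mem_map.mpr ?_
      filter_upwards [hΦW, (hcoord v).eventually (gt_mem_nhds (show μ v < μ v + 1 by linarith))]
        with ν h1 h2
      exact abs_le.mp (((h1.1 i).2 v).trans h2.le)
    obtain ⟨l, _, hl⟩ := hK.ultrafilter_le_nhds (W.map (fun ν => Φ ν i v)) h1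
    exact ⟨l, hl⟩
  choose φ hφ using hlim
  refine ⟨φ, fun i => ⟨fun u v => ?_, fun v => ?_⟩, ?_⟩
  · refine tendsto_nhds_unique (hφ i (u + v)) (((hφ i u).add (hφ i v)).congr' ?_)
    filter_upwards [hΦW] with ν h1
    exact ((h1.1 i).1 u v).symm
  · refine le_of_tendsto_of_tendsto (hφ i v).abs (hcoord v) ?_
    filter_upwards [hΦW] with ν h1
    exact (h1.1 i).2 v
  · have h1 : Tendsto (fun ν : V → ℝ => (ν, Φ ν)) W (𝓝 (μ, φ)) := by
      refine (tendsto_pi_nhds.mpr hcoord).prodMk_nhds ?_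
      exact tendsto_pi_nhds.mpr fun i => tendsto_pi_nhds.mpr fun v => hφ i v
    exact hT.mem_of_tendsto h1 (hΦW.mono fun ν h => h.2)

/-! ### The diameter two property -/

/-- Witnesses for the failure of the diameter two property. -/
def badD (n k m : ℕ) (x : V) : Set (V → ℝ) :=
  {μ | ∃ φ : Fin n → V → ℝ, (∀ i, Fun1 μ (φ i)) ∧ (μ, φ) ∈
    ⋂ (y : V) (z : V), {q : (V → ℝ) × (Fin n → V → ℝ) | 1 ≤ q.1 y ∨ 1 ≤ q.1 z ∨
      (∃ i, 1 / ((k : ℝ) + 1) ≤ |q.2 i y - q.2 i x|) ∨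
      (∃ i, 1 / ((k : ℝ) + 1) ≤ |q.2 i z - q.2 i x|) ∨ q.1 (y - z) ≤ 2 - 1 / ((m : ℝ) + 1)}}

theorem isClosed_badD (n k m : ℕ) (x : V) : IsClosed (badD n k m x) := by
  refine isClosed_proj (isClosed_iInter fun y => isClosed_iInter fun z => ?_)
  have hc1 : ∀ y : V, Continuous fun q : (V → ℝ) × (Fin n → V → ℝ) => q.1 y := fun y =>
    (continuous_apply y).comp continuous_fst
  have hc2 : ∀ (i : Fin n) (y : V), Continuous fun q : (V → ℝ) × (Fin n → V → ℝ) => q.2 i y :=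
    fun i y => (continuous_apply y).comp ((continuous_apply i).comp continuous_snd)
  refine (isClosed_le continuous_const (hc1 y)).union ((isClosed_le continuous_const (hc1 z)).union
    (IsClosed.union ?_ (IsClosed.union ?_ (isClosed_le (hc1 _) continuous_const))))
  · show IsClosed {q : (V → ℝ) × (Fin n → V → ℝ) | ∃ i, 1 / ((k : ℝ) + 1) ≤ |q.2 i y - q.2 i x|}
    rw [ofPred_exists]
    exact isClosed_iUnion_of_finite fun i =>
      isClosed_le continuous_const ((hc2 i y).sub (hc2 i x)).abs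
  · show IsClosed {q : (V → ℝ) × (Fin n → V → ℝ) | ∃ i, 1 / ((k : ℝ) + 1) ≤ |q.2 i z - q.2 i x|}
    rw [ofPred_exists]
    exact isClosed_iUnion_of_finite fun i =>
      isClosed_le continuous_const ((hc2 i z).sub (hc2 i x)).abs

theorem exists_dense_mem {μ : V → ℝ} {X : Type} [NormedAddCommGroup X]
    [NormedSpace ℝ X] {ι : V →+ X} (hι : IsModel μ X ι) {U : Set (WeakSpace ℝ X)} (hU : IsOpen U)
    {x₀ : X} (hx : ‖x₀‖ ≤ 1) (h : toWeakSpace ℝ X x₀ ∈ U) {δ : ℝ} (hδ : 0 < δ) :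
    ∃ v : V, μ v < 1 ∧ toWeakSpace ℝ X (ι v) ∈ U ∧ ‖x₀ - ι v‖ < δ := by
  have hUn : IsOpen ((toWeakSpaceCLM ℝ X) ⁻¹' U) := hU.preimage (toWeakSpaceCLM ℝ X).continuous
  have hcont : Tendsto (fun t : ℝ => (1 - t) • x₀) (𝓝[>] 0) (𝓝 ((1 - 0 : ℝ) • x₀)) := by
    have : Continuous (fun t : ℝ => (1 - t) • x₀) := by fun_prop
    exact (this.tendsto 0).mono_left nhdsWithin_le_nhds
  rw [sub_zero, one_smul] at hcont
  have h1 : ∀ᶠ t : ℝ in 𝓝[>] 0, (1 - t) • x₀ ∈ (toWeakSpaceCLM ℝ X) ⁻¹' U :=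
    hcont.eventually (hUn.mem_nhds h)
  have h2 : ∀ᶠ t : ℝ in 𝓝[>] 0, dist ((1 - t) • x₀) x₀ < δ / 2 :=
    hcont.eventually (Metric.ball_mem_nhds x₀ (half_pos hδ))
  obtain ⟨t, ⟨ht1, ht2⟩, ht3, ht4⟩ := ((h1.and h2).and
    (Ioo_mem_nhdsGT (zero_lt_one (α := ℝ)))).exists
  have h3 : ‖(1 - t) • x₀‖ < 1 := by
    rw [norm_smul, Real.norm_of_nonneg (by linarith)]
    nlinarith [norm_nonneg x₀]
  have hopen : IsOpen ((toWeakSpaceCLM ℝ X) ⁻¹' U ∩ (Metric.ball 0 1 ∩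
      Metric.ball ((1 - t) • x₀) (δ / 2))) :=
    hUn.inter (Metric.isOpen_ball.inter Metric.isOpen_ball)
  obtain ⟨v, hv1, hv2, hv3⟩ := hι.dense.exists_mem_open hopen ⟨(1 - t) • x₀, ht1, by
    rw [mem_ball_zero_iff]; exact h3, Metric.mem_ball_self (half_pos hδ)⟩
  refine ⟨v, ?_, hv1, ?_⟩
  · rw [← hι.norm_eq]
    rwa [mem_ball_zero_iff] at hv2
  · rw [← dist_eq_norm]
    rw [Metric.mem_ball, dist_comm] at hv3
    rw [dist_comm] at ht2
    have := dist_triangle x₀ ((1 - t) • x₀) (ι v)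
    linarith

theorem weak_open_fin {X : Type} [NormedAddCommGroup X] [NormedSpace ℝ X] {n : ℕ}
    (g : Fin n → StrongDual ℝ X) (x₀ : X) (ε : ℝ) :
    IsOpen {y : WeakSpace ℝ X | ∀ i, |g i ((toWeakSpace ℝ X).symm y) - g i x₀| < ε} := by
  rw [ofPred_forall]
  exact isOpen_iInter_of_finite fun i =>
    isOpen_lt ((weak_continuous (g i)).sub continuous_const).abs continuous_const

theorem d2p_iff {μ : V → ℝ} {X : Type} [NormedAddCommGroup X]
    [NormedSpace ℝ X] {ι : V →+ X} (hι : IsModel μ X ι) :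
    D2P X ↔ ∀ (n k m : ℕ) (x : V), ¬ (μ x < 1 ∧ μ ∈ badD n k m x) := by
  constructor
  · rintro hD n k m x ⟨hx1, φ, hφ, hmem⟩
    choose g hg1 hg2 using fun i => extend_fun (hφ i) hι
    have hk : (0 : ℝ) < 1 / ((k : ℝ) + 1) := by positivity
    have hm : (0 : ℝ) < 1 / ((m : ℝ) + 1) := by positivity
    have hU := weak_open_fin g (ι x) (1 / ((k : ℝ) + 1))
    have hxU : ∀ i, |g i (ι x) - g i (ι x)| < 1 / ((k : ℝ) + 1) := fun i => by
      rw [sub_self, abs_zero]; exact hk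
    have h1 := hD _ hU ⟨ι x, by rw [hι.norm_eq]; exact hx1.le, hxU⟩
    have h2 : Metric.diam {y : X | ‖y‖ ≤ 1 ∧ toWeakSpace ℝ X y ∈
        {y : WeakSpace ℝ X | ∀ i, |g i ((toWeakSpace ℝ X).symm y) - g i (ι x)| <
          1 / ((k : ℝ) + 1)}} ≤ 2 - 1 / ((m : ℝ) + 1) := by
      refine Metric.diam_le_of_forall_dist_le (by
        have : 1 / ((m : ℝ) + 1) ≤ 1 := by
          rw [div_le_one (by positivity)]; linarith [Nat.cast_nonneg (α := ℝ) m]
        linarith) ?_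
      rintro y ⟨hy1, hy2⟩ z ⟨hz1, hz2⟩
      rw [dist_eq_norm]
      refine le_of_forall_pos_le_add fun δ hδ => ?_
      obtain ⟨u, hu1, hu2, hu3⟩ := exists_dense_mem hι hU hy1 hy2 (half_pos hδ)
      obtain ⟨w, hw1, hw2, hw3⟩ := exists_dense_mem hι hU hz1 hz2 (half_pos hδ)
      have e1 := mem_iInter.mp (mem_iInter.mp hmem u) w
      rcases e1 with e | e | ⟨i, e⟩ | ⟨i, e⟩ | e
      · exact absurd hu1 (not_lt.mpr e)
      · exact absurd hw1 (not_lt.mpr e)
      · have := hu2 i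
        have e' : 1 / ((k : ℝ) + 1) ≤ |φ i u - φ i x| := e
        rw [← hg1 i u, ← hg1 i x] at e'
        exact absurd this (not_lt.mpr e')
      · have := hw2 i
        have e' : 1 / ((k : ℝ) + 1) ≤ |φ i w - φ i x| := e
        rw [← hg1 i w, ← hg1 i x] at e'
        exact absurd this (not_lt.mpr e')
      · have e' : μ (u - w) ≤ 2 - 1 / ((m : ℝ) + 1) := e
        rw [← hι.norm_eq, map_sub] at e'
        have e2 : ‖y - z‖ ≤ ‖y - ι u‖ + ‖ι u - ι w‖ + ‖z - ι w‖ := by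
          have : y - z = (y - ι u) + (ι u - ι w) - (z - ι w) := by abel
          rw [this]
          exact (norm_sub_le _ _).trans (add_le_add (norm_add_le _ _) le_rfl)
        linarith
    rw [h1] at h2
    linarith
  · intro h U hU hne
    by_contra hcon
    obtain ⟨x₀, hx1, hx2⟩ := hne
    have hbdd : Bornology.IsBounded {x : X | ‖x‖ ≤ 1 ∧ toWeakSpace ℝ X x ∈ U} :=
      (Metric.isBounded_closedBall (x := (0 : X)) (r := 1)).subset fun x hx => by
        rw [mem_closedBall_zero_iff]; exact hx.1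
    have hle : Metric.diam {x : X | ‖x‖ ≤ 1 ∧ toWeakSpace ℝ X x ∈ U} ≤ 2 := by
      refine Metric.diam_le_of_forall_dist_le (by norm_num) ?_
      rintro y ⟨hy, _⟩ z ⟨hz, _⟩
      rw [dist_eq_norm]
      exact (norm_sub_le _ _).trans (by linarith)
    have hlt := lt_of_le_of_ne hle hcon
    obtain ⟨m, hm⟩ := exists_nat_one_div_lt
      (show 0 < 2 - Metric.diam {x : X | ‖x‖ ≤ 1 ∧ toWeakSpace ℝ X x ∈ U} by linarith)
    obtain ⟨v, hv1, hv2, _⟩ := exists_dense_mem hι hU hx1 hx2 one_pos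
    obtain ⟨n, k, g, hg1, hg2⟩ := weak_fin hU hv2
    refine h n k m v ⟨hv1, fun i u => g i (ι u), fun i => ⟨fun u w => by
      show g i (ι (u + w)) = g i (ι u) + g i (ι w)
      rw [map_add, map_add],
      fun u => (hg1 i _).trans (hι.norm_eq u).le⟩, ?_⟩
    refine mem_iInter.mpr fun y => mem_iInter.mpr fun z => ?_
    by_cases e1 : 1 ≤ μ y
    · exact Or.inl e1
    by_cases e2 : 1 ≤ μ z
    · exact Or.inr (Or.inl e2)
    by_cases e3 : ∃ i, 1 / ((k : ℝ) + 1) ≤ |g i (ι y) - g i (ι v)|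
    · exact Or.inr (Or.inr (Or.inl e3))
    by_cases e4 : ∃ i, 1 / ((k : ℝ) + 1) ≤ |g i (ι z) - g i (ι v)|
    · exact Or.inr (Or.inr (Or.inr (Or.inl e4)))
    push Not at e1 e2 e3 e4
    refine Or.inr (Or.inr (Or.inr (Or.inr ?_)))
    show μ (y - z) ≤ _
    rw [← hι.norm_eq, map_sub, ← dist_eq_norm]
    have h1 := Metric.dist_le_diam_of_mem hbdd (x := ι y) (y := ι z)
      ⟨by rw [hι.norm_eq]; exact e1.le, hg2 _ e3⟩ ⟨by rw [hι.norm_eq]; exact e2.le, hg2 _ e4⟩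
    linarith

/-! ### The diametral diameter two property -/

/-- Witnesses for the failure of the diametral diameter two property. -/
def badDD (n k m : ℕ) (x : V) : Set (V → ℝ) :=
  {μ | ∃ φ : Fin n → V → ℝ, (∀ i, Fun1 μ (φ i)) ∧ (μ, φ) ∈
    ⋂ (y : V), {q : (V → ℝ) × (Fin n → V → ℝ) | 1 ≤ q.1 y ∨
      (∃ i, 1 / ((k : ℝ) + 1) ≤ |q.2 i y - q.2 i x|) ∨
      q.1 (x - y) ≤ 1 + q.1 x - 1 / ((m : ℝ) + 1)}}

theorem isClosed_badDD (n k m : ℕ) (x : V) : IsClosed (badDD n k m x) := by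
  refine isClosed_proj (isClosed_iInter fun y => ?_)
  have hc1 : ∀ y : V, Continuous fun q : (V → ℝ) × (Fin n → V → ℝ) => q.1 y := fun y =>
    (continuous_apply y).comp continuous_fst
  have hc2 : ∀ (i : Fin n) (y : V), Continuous fun q : (V → ℝ) × (Fin n → V → ℝ) => q.2 i y :=
    fun i y => (continuous_apply y).comp ((continuous_apply i).comp continuous_snd)
  refine (isClosed_le continuous_const (hc1 y)).union (IsClosed.union ?_
    (isClosed_le (hc1 _) ((continuous_const.add (hc1 x)).sub continuous_const)))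
  show IsClosed {q : (V → ℝ) × (Fin n → V → ℝ) | ∃ i, 1 / ((k : ℝ) + 1) ≤ |q.2 i y - q.2 i x|}
  rw [ofPred_exists]
  exact isClosed_iUnion_of_finite fun i =>
    isClosed_le continuous_const ((hc2 i y).sub (hc2 i x)).abs

theorem dd2p_iff {μ : V → ℝ} {X : Type} [NormedAddCommGroup X]
    [NormedSpace ℝ X] {ι : V →+ X} (hι : IsModel μ X ι) :
    DD2P X ↔ ∀ (n k m : ℕ) (x : V), ¬ (μ x < 1 ∧ μ ∈ badDD n k m x) := by
  constructor
  · rintro hD n k m x ⟨hx1, φ, hφ, hmem⟩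
    choose g hg1 hg2 using fun i => extend_fun (hφ i) hι
    have hk : (0 : ℝ) < 1 / ((k : ℝ) + 1) := by positivity
    have hm : (0 : ℝ) < 1 / ((m : ℝ) + 1) := by positivity
    have hU := weak_open_fin g (ι x) (1 / ((k : ℝ) + 1))
    have hxU : ∀ i, |g i (ι x) - g i (ι x)| < 1 / ((k : ℝ) + 1) := fun i => by
      rw [sub_self, abs_zero]; exact hk
    obtain ⟨y, hy1, hy2, hy3⟩ := hD _ hU (ι x) (by rw [hι.norm_eq]; exact hx1.le) hxU
      (1 / ((m : ℝ) + 1) / 2) (by positivity)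
    obtain ⟨u, hu1, hu2, hu3⟩ := exists_dense_mem hι hU hy1 hy2
      (δ := 1 / ((m : ℝ) + 1) / 2) (by positivity)
    rcases mem_iInter.mp hmem u with e | ⟨i, e⟩ | e
    · exact absurd hu1 (not_lt.mpr e)
    · have := hu2 i
      have e' : 1 / ((k : ℝ) + 1) ≤ |φ i u - φ i x| := e
      rw [← hg1 i u, ← hg1 i x] at e'
      exact absurd this (not_lt.mpr e')
    · have e' : μ (x - u) ≤ 1 + μ x - 1 / ((m : ℝ) + 1) := e
      rw [← hι.norm_eq, map_sub, ← hι.norm_eq x] at e'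
      have e2 : ‖ι x - y‖ ≤ ‖ι x - ι u‖ + ‖y - ι u‖ := by
        have : ι x - y = (ι x - ι u) - (y - ι u) := by abel
        rw [this]; exact norm_sub_le _ _
      linarith
  · intro h U hU x₀ hx1 hx2 ε hε
    by_contra hcon
    push Not at hcon
    obtain ⟨m, hm⟩ := exists_nat_one_div_lt (show 0 < ε / 2 by positivity)
    obtain ⟨v, hv1, hv2, hv3⟩ := exists_dense_mem hι hU hx1 hx2 (δ := ε / 4) (by positivity)
    obtain ⟨n, k, g, hg1, hg2⟩ := weak_fin hU hv2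
    refine h n k m v ⟨hv1, fun i u => g i (ι u), fun i => ⟨fun u w => by
      show g i (ι (u + w)) = g i (ι u) + g i (ι w)
      rw [map_add, map_add],
      fun u => (hg1 i _).trans (hι.norm_eq u).le⟩, ?_⟩
    refine mem_iInter.mpr fun y => ?_
    by_cases e1 : 1 ≤ μ y
    · exact Or.inl e1
    by_cases e3 : ∃ i, 1 / ((k : ℝ) + 1) ≤ |g i (ι y) - g i (ι v)|
    · exact Or.inr (Or.inl e3)
    push Not at e1 e3
    refine Or.inr (Or.inr ?_)
    show μ (v - y) ≤ 1 + μ v - _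
    rw [← hι.norm_eq, map_sub, ← hι.norm_eq v]
    have h1 := hcon (ι y) (by rw [hι.norm_eq]; exact e1.le) (hg2 _ e3)
    have h2 : ‖ι v - ι y‖ ≤ ‖x₀ - ι y‖ + ‖x₀ - ι v‖ := by
      have : ι v - ι y = (x₀ - ι y) - (x₀ - ι v) := by abel
      rw [this]; exact norm_sub_le _ _
    have h3 : ‖x₀‖ ≤ ‖x₀ - ι v‖ + ‖ι v‖ := by
      have := norm_add_le (x₀ - ι v) (ι v)
      rwa [sub_add_cancel] at this
    linarith

/-- The complement of a countable union of the witnesses is `G_δ`. -/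
theorem gdelta_of_bad {bad : ℕ → ℕ → ℕ → V → Set (V → ℝ)}
    (hbad : ∀ n k m x, IsClosed (bad n k m x)) :
    IsGδ {μ : V → ℝ | ∀ (n k m : ℕ) (x : V), ¬ (μ x < 1 ∧ μ ∈ bad n k m x)} := by
  have : {μ : V → ℝ | ∀ (n k m : ℕ) (x : V), ¬ (μ x < 1 ∧ μ ∈ bad n k m x)} =
      ⋂ (p : ℕ × ℕ × ℕ × ℕ × V), {μ : V → ℝ | μ p.2.2.2.2 ≤ 1 - 1 / ((p.2.2.2.1 : ℝ) + 1) ∧
        μ ∈ bad p.1 p.2.1 p.2.2.1 p.2.2.2.2}ᶜ := by
    ext μ
    simp only [mem_ofPred_eq, mem_iInter, mem_compl_iff, Prod.forall]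
    constructor
    · rintro h n k m j x ⟨h1, h2⟩
      have : (0 : ℝ) < 1 / ((j : ℝ) + 1) := by positivity
      exact h n k m x ⟨by linarith, h2⟩
    · rintro h n k m x ⟨h1, h2⟩
      obtain ⟨j, hj⟩ := exists_nat_one_div_lt (show 0 < 1 - μ x by linarith)
      exact h n k m j x ⟨by linarith, h2⟩
  rw [this]
  refine IsGδ.iInter_of_isOpen fun p => ?_
  rw [isOpen_compl_iff]
  exact (isClosed_le (continuous_apply _) continuous_const).inter (hbad _ _ _ _)

end Pool.Agent.V1199.CodeP
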