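import Mathlib

set_option autoImplicit false

open Filter Topology

universe u

namespace Pool.Agent.V1199.DsB

section
variable {𝕜 : Type} [RCLike 𝕜] {X : Type u} [NormedAddCommGroup X] [NormedSpace 𝕜 X]

/-! ### a biorthogonal system -/

theorem exists_functional {W : Submodule 𝕜 X} (hW : IsClosed (W : Set X)) {x : X} (hx : x ∉ W) :
    ∃ f : StrongDual 𝕜 X, (∀ w ∈ W, f w = 0) ∧ f x = 1 := by
  have : IsClosed (W : Set X) := hW
  have hne : ‖(W.mkQL x : X ⧸ W)‖ ≠ 0 := by
    intro h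
    apply hx
    have h2 : (Submodule.Quotient.mk x : X ⧸ W) = 0 := by
      have := norm_eq_zero.1 h
      exact this
    rwa [Submodule.Quotient.mk_eq_zero] at h2
  obtain ⟨g, _, hg⟩ := exists_dual_vector 𝕜 (W.mkQL x : X ⧸ W) hne
  refine ⟨((‖(W.mkQL x : X ⧸ W)‖ : ℝ) : 𝕜)⁻¹ • g.comp W.mkQL, ?_, ?_⟩
  · intro w hw
    have : (W.mkQL w : X ⧸ W) = 0 := (Submodule.Quotient.mk_eq_zero W).2 hw
    rw [_root_.smul_apply, ContinuousLinearMap.comp_apply, this, map_zero, smul_zero]
  · rw [_root_.smul_apply, ContinuousLinearMap.comp_apply, hg, smul_eq_mul]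
    exact inv_mul_cancel₀ (by exact_mod_cast hne)

variable (𝕜) in
open Classical in
/-- the Gram-Schmidt type construction -/
noncomputable def bi (y : ℕ → X) (k : ℕ) : X × StrongDual 𝕜 X :=
  let x : X := y k - ∑ i : Fin k, (bi y i).2 (y k) • (bi y i).1
  (x, if h : ∃ f : StrongDual 𝕜 X, (∀ i : Fin k, f (bi y i).1 = 0) ∧ f x = 1 then h.choose else 0)
termination_by k
decreasing_by all_goals exact i.2

theorem bi_fst (y : ℕ → X) (k : ℕ) :
    (bi 𝕜 y k).1 = y k - ∑ i : Fin k, (bi 𝕜 y i).2 (y k) • (bi 𝕜 y i).1 := by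
  rw [bi]

open Classical in
theorem bi_snd (y : ℕ → X) (k : ℕ) :
    (bi 𝕜 y k).2 = if h : ∃ f : StrongDual 𝕜 X, (∀ i : Fin k, f (bi 𝕜 y i).1 = 0) ∧
      f (bi 𝕜 y k).1 = 1 then h.choose else 0 := by
  conv_lhs => rw [bi]
  rw [bi_fst y k]

theorem bi_spec (y : ℕ → X) (k : ℕ) :
    (∀ j < k, (bi 𝕜 y j).2 (bi 𝕜 y k).1 = 0 ∧ (bi 𝕜 y k).2 (bi 𝕜 y j).1 = 0) ∧
    ((bi 𝕜 y k).1 ≠ 0 → (bi 𝕜 y k).2 (bi 𝕜 y k).1 = 1) ∧
    ((bi 𝕜 y k).1 = 0 → (bi 𝕜 y k).2 = 0) := by
  induction k using Nat.strong_induction_on with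
  | _ k ih =>
    have hoff : ∀ i < k, ∀ j < k, i ≠ j → (bi 𝕜 y j).2 (bi 𝕜 y i).1 = 0 := by
      intro i hi j hj hij
      rcases lt_or_gt_of_ne hij with h | h
      · exact ((ih j hj).1 i h).2
      · exact ((ih i hi).1 j h).1
    have h1 : ∀ j < k, (bi 𝕜 y j).2 (bi 𝕜 y k).1 = 0 := by
      intro j hj
      by_cases hz : (bi 𝕜 y j).1 = 0
      · rw [(ih j hj).2.2 hz]; simp
      · rw [bi_fst y k, map_sub, map_sum, Finset.sum_eq_single (⟨j, hj⟩ : Fin k)]
        · simp only [map_smul, smul_eq_mul, (ih j hj).2.1 hz, mul_one, sub_self]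
        · intro i _ hij
          rw [map_smul, hoff i i.2 j hj (fun h => hij (Fin.ext h)), smul_zero]
        · intro h; exact absurd (Finset.mem_univ _) h
    by_cases hz : (bi 𝕜 y k).1 = 0
    · have hf : (bi 𝕜 y k).2 = 0 := by
        rw [bi_snd, dif_neg]
        rintro ⟨f, _, hf⟩
        rw [hz, map_zero] at hf
        exact zero_ne_one hf
      refine ⟨fun j hj => ⟨h1 j hj, by rw [hf]; simp⟩, fun h => absurd hz h, fun _ => hf⟩
    · have hex : ∃ f : StrongDual 𝕜 X, (∀ i : Fin k, f (bi 𝕜 y i).1 = 0) ∧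
          f (bi 𝕜 y k).1 = 1 := by
        set W : Submodule 𝕜 X := Submodule.span 𝕜 (Set.range fun i : Fin k => (bi 𝕜 y i).1) with hW
        have hfd : FiniteDimensional 𝕜 W := FiniteDimensional.span_of_finite 𝕜 (Set.finite_range _)
        have hcl : IsClosed (W : Set X) := Submodule.closed_of_finiteDimensional W
        have hnot : (bi 𝕜 y k).1 ∉ W := by
          intro hmem
          rw [hW, Submodule.mem_span_range_iff_exists_fun] at hmem
          obtain ⟨c, hc⟩ := hmem
          apply hz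
          rw [← hc]
          apply Finset.sum_eq_zero
          intro j _
          by_cases hzj : (bi 𝕜 y j).1 = 0
          · rw [hzj, smul_zero]
          · have h2 := h1 j j.2
            rw [← hc, map_sum, Finset.sum_eq_single j] at h2
            · rw [map_smul, (ih j j.2).2.1 hzj, smul_eq_mul, mul_one] at h2
              rw [h2, zero_smul]
            · intro i _ hij
              rw [map_smul, hoff i i.2 j j.2 (fun h => hij (Fin.ext h)), smul_zero]
            · intro h; exact absurd (Finset.mem_univ _) h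
        obtain ⟨f, hf1, hf2⟩ := exists_functional hcl hnot
        exact ⟨f, fun i => hf1 _ (Submodule.subset_span ⟨i, rfl⟩), hf2⟩
      have hf : (bi 𝕜 y k).2 = hex.choose := by
        rw [bi_snd, dif_pos hex]
      have hspec := hex.choose_spec
      rw [← hf] at hspec
      exact ⟨fun j hj => ⟨h1 j hj, hspec.1 ⟨j, hj⟩⟩, fun _ => hspec.2, fun h => absurd h hz⟩

theorem exists_biorthogonal [Nontrivial X] [TopologicalSpace.SeparableSpace X] :
    ∃ (x : ℕ → X) (f : ℕ → StrongDual 𝕜 X), (∀ j k, j ≠ k → f j (x k) = 0) ∧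
      (∀ k, x k ≠ 0 → f k (x k) = 1) ∧ Dense (Submodule.span 𝕜 (Set.range x) : Set X) ∧
      ∃ k, x k ≠ 0 := by
  set y : ℕ → X := TopologicalSpace.denseSeq X with hy
  have hdense : Dense (Submodule.span 𝕜 (Set.range fun k => (bi 𝕜 y k).1) : Set X) := by
    refine (TopologicalSpace.denseRange_denseSeq X).mono ?_
    rintro _ ⟨k, rfl⟩
    have h := bi_fst (𝕜 := 𝕜) y k
    have h2 : y k = (bi 𝕜 y k).1 + ∑ i : Fin k, (bi 𝕜 y i).2 (y k) • (bi 𝕜 y i).1 := by
      rw [h]; abel
    rw [← hy, SetLike.mem_coe, h2]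
    refine Submodule.add_mem _ (Submodule.subset_span ⟨k, rfl⟩) ?_
    exact Submodule.sum_mem _ fun i _ => Submodule.smul_mem _ _ (Submodule.subset_span ⟨i, rfl⟩)
  refine ⟨fun k => (bi 𝕜 y k).1, fun k => (bi 𝕜 y k).2, ?_, fun k => (bi_spec y k).2.1, hdense, ?_⟩
  · intro j k hjk
    rcases lt_or_gt_of_ne hjk with h | h
    · exact ((bi_spec y k).1 j h).1
    · exact ((bi_spec y j).1 k h).2
  · by_contra hcon
    push Not at hcon
    have hspan : Submodule.span 𝕜 (Set.range fun k => (bi 𝕜 y k).1) = ⊥ := by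
      rw [Submodule.span_eq_bot]
      rintro _ ⟨k, rfl⟩
      exact hcon k
    rw [hspan] at hdense
    obtain ⟨v, hv⟩ := exists_ne (0 : X)
    have h3 : closure ((⊥ : Submodule 𝕜 X) : Set X) = {0} := by
      simp
    have h4 := hdense v
    rw [h3] at h4
    exact hv h4


theorem exists_fundamental [TopologicalSpace.SeparableSpace X] (hX : ¬ FiniteDimensional 𝕜 X) :
    ∃ (e : ℕ → X) (f : ℕ → StrongDual 𝕜 X), (∀ j k, f j (e k) = if j = k then 1 else 0) ∧
      Dense (Submodule.span 𝕜 (Set.range e) : Set X) := by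
  have : Nontrivial X := by
    by_contra h
    rw [not_nontrivial_iff_subsingleton] at h
    exact hX inferInstance
  obtain ⟨x, f, h1, h2, h3, -⟩ := exists_biorthogonal (𝕜 := 𝕜) (X := X)
  have hinf : {k | x k ≠ 0}.Infinite := by
    intro hfin
    apply hX
    set W : Submodule 𝕜 X := Submodule.span 𝕜 (x '' {k | x k ≠ 0}) with hW
    have hWf : FiniteDimensional 𝕜 W := FiniteDimensional.span_of_finite 𝕜 (hfin.image x)
    have hle : Submodule.span 𝕜 (Set.range x) ≤ W := by
      rw [Submodule.span_le]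
      rintro _ ⟨k, rfl⟩
      by_cases hk : x k = 0
      · rw [hk]; exact W.zero_mem
      · exact Submodule.subset_span ⟨k, hk, rfl⟩
    have hcl : IsClosed (W : Set X) := Submodule.closed_of_finiteDimensional W
    have htop : W = ⊤ := by
      rw [← SetLike.coe_set_eq, Submodule.top_coe]
      have h4 : Dense (W : Set X) := h3.mono hle
      rw [← hcl.closure_eq]
      exact h4.closure_eq
    rw [htop] at hWf
    exact Module.Finite.equiv (Submodule.topEquiv (R := 𝕜) (M := X))
  have hmem : ∀ i, x (Nat.nth (fun k => x k ≠ 0) i) ≠ 0 := fun i =>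
    Nat.nth_mem_of_infinite (p := fun k => x k ≠ 0) hinf i
  refine ⟨fun i => x (Nat.nth (fun k => x k ≠ 0) i), fun i => f (Nat.nth (fun k => x k ≠ 0) i),
    ?_, ?_⟩
  · intro j k
    dsimp only
    split_ifs with h
    · rw [h]; exact h2 _ (hmem k)
    · exact h1 _ _ fun h' => h ((Nat.nth_injective hinf) h')
  · refine h3.mono ?_
    have hle : Submodule.span 𝕜 (Set.range x) ≤
        Submodule.span 𝕜 (Set.range fun i => x (Nat.nth (fun k => x k ≠ 0) i)) := by
      rw [Submodule.span_le]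
      rintro _ ⟨k, rfl⟩
      by_cases hk : x k = 0
      · rw [hk]; exact Submodule.zero_mem _
      · have h5 : k ∈ Set.range (Nat.nth (fun k => x k ≠ 0)) := by
          rw [Nat.range_nth_of_infinite hinf]; exact hk
        obtain ⟨i, hi⟩ := h5
        refine Submodule.subset_span ⟨i, ?_⟩
        dsimp only
        rw [hi]
    exact hle

end

end Pool.Agent.V1199.DsB
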