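import Mathlib

open Set Filter Topology

namespace Pool.Agent.V1199

variable {𝕜 : Type*} [RCLike 𝕜] {X : Type*} [NormedAddCommGroup X] [NormedSpace 𝕜 X]

/-- Basic neighbourhoods for the weak topology. -/
theorem weakK_basic {U : Set (WeakSpace 𝕜 X)} (hU : IsOpen U) {x₀ : X}
    (h : toWeakSpace 𝕜 X x₀ ∈ U) :
    ∃ (F : Finset (StrongDual 𝕜 X)) (ε : ℝ), 0 < ε ∧
      ∀ y : X, (∀ f ∈ F, ‖f y - f x₀‖ < ε) → toWeakSpace 𝕜 X y ∈ U := by
  obtain ⟨V, hV, hVU⟩ := isOpen_induced_iff.mp hU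
  rw [← hVU] at h
  obtain ⟨I, u, hu, hI⟩ := isOpen_pi_iff.mp hV _ h
  have key : ∀ J : Finset (StrongDual 𝕜 X), J ⊆ I → ∃ ε : ℝ, 0 < ε ∧
      ∀ f ∈ J, Metric.ball (f x₀) ε ⊆ u f := by
    classical
    intro J
    induction J using Finset.induction_on with
    | empty => intro _; exact ⟨1, one_pos, by simp⟩
    | insert a J ha ih =>
      intro hJ
      obtain ⟨ε, hε, h1⟩ := ih ((Finset.subset_insert _ _).trans hJ)
      have haI : a ∈ I := hJ (Finset.mem_insert_self _ _)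
      obtain ⟨δ, hδ, h2⟩ := Metric.isOpen_iff.mp (hu a haI).1 _ (hu a haI).2
      refine ⟨min ε δ, lt_min hε hδ, ?_⟩
      intro f hf
      rcases Finset.mem_insert.mp hf with rfl | hf
      · exact (Metric.ball_subset_ball (min_le_right _ _)).trans h2
      · exact (Metric.ball_subset_ball (min_le_left _ _)).trans (h1 f hf)
  obtain ⟨ε, hε, h1⟩ := key I (Finset.Subset.refl _)
  refine ⟨I, ε, hε, fun y hy => ?_⟩
  rw [← hVU]
  apply hI
  intro f hf
  exact h1 f hf (by rw [Metric.mem_ball, dist_eq_norm]; exact hy f hf)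

/-- Continuous functionals are weakly continuous. -/
theorem weakK_continuous (f : StrongDual 𝕜 X) :
    Continuous (fun y : WeakSpace 𝕜 X => f ((toWeakSpace 𝕜 X).symm y)) :=
  WeakBilin.eval_continuous _ f

/-- The set where a translate of the norm exceeds a constant is weakly open. -/
theorem weakK_isOpen_norm (x : X) (θ : 𝕜) (c : ℝ) :
    IsOpen {y : WeakSpace 𝕜 X | c < ‖x + θ • (toWeakSpace 𝕜 X).symm y‖} := by
  have : {y : WeakSpace 𝕜 X | c < ‖x + θ • (toWeakSpace 𝕜 X).symm y‖} =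
      ⋃ (g : StrongDual 𝕜 X) (_ : ‖g‖ ≤ 1), {y : WeakSpace 𝕜 X |
        c < RCLike.re (g x + θ * g ((toWeakSpace 𝕜 X).symm y))} := by
    ext y
    simp only [mem_ofPred_eq, mem_iUnion, exists_prop]
    constructor
    · intro h
      obtain ⟨g, hg1, hg2⟩ := exists_dual_vector'' 𝕜 (x + θ • (toWeakSpace 𝕜 X).symm y)
      refine ⟨g, hg1, ?_⟩
      rw [map_add, map_smul, smul_eq_mul] at hg2
      rw [hg2, RCLike.ofReal_re]
      exact h
    · rintro ⟨g, hg1, hg2⟩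
      refine hg2.trans_le ?_
      rw [← smul_eq_mul, ← map_smul, ← map_add]
      refine (RCLike.re_le_norm _).trans ((g.le_opNorm _).trans ?_)
      nlinarith [norm_nonneg (x + θ • (toWeakSpace 𝕜 X).symm y)]
  rw [this]
  refine isOpen_iUnion fun g => isOpen_iUnion fun _ => isOpen_lt continuous_const ?_
  exact RCLike.continuous_re.comp (continuous_const.add (continuous_const.mul (weakK_continuous g)))

/-- In infinite dimensions finitely many functionals have a common non-trivial kernel. -/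
theorem exists_common_ker (h : ¬ FiniteDimensional 𝕜 X) (F : Finset (StrongDual 𝕜 X)) :
    ∃ v : X, v ≠ 0 ∧ ∀ f ∈ F, f v = 0 := by
  by_contra hcon
  push Not at hcon
  apply h
  let T : X →ₗ[𝕜] (F → 𝕜) := LinearMap.pi (fun f => (f.1 : StrongDual 𝕜 X).toLinearMap)
  have hT : Function.Injective T := by
    rw [injective_iff_map_eq_zero]
    intro v hv
    by_contra hv0
    obtain ⟨f, hf, hfv⟩ := hcon v hv0
    exact hfv (congrFun hv ⟨f, hf⟩)
  exact FiniteDimensional.of_injective T hT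

/-- In infinite dimensions weakly open sets meeting the ball meet the sphere. -/
theorem weakK_meets_sphere (h : ¬ FiniteDimensional 𝕜 X) {U : Set (WeakSpace 𝕜 X)}
    (hU : IsOpen U) {x₀ : X} (hx : ‖x₀‖ ≤ 1) (h0 : toWeakSpace 𝕜 X x₀ ∈ U) :
    ∃ y : X, ‖y‖ = 1 ∧ toWeakSpace 𝕜 X y ∈ U := by
  obtain ⟨F, ε, hε, hF⟩ := weakK_basic hU h0
  obtain ⟨v, hv, hvF⟩ := exists_common_ker h F
  have hcont : Continuous (fun t : ℝ => ‖x₀ + (t : 𝕜) • v‖) := by fun_prop
  have h1 : (fun t : ℝ => ‖x₀ + (t : 𝕜) • v‖) 0 ≤ 1 := by simpa using hx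
  have hvn : 0 < ‖v‖ := norm_pos_iff.mpr hv
  have h2 : 1 ≤ (fun t : ℝ => ‖x₀ + (t : 𝕜) • v‖) (2 / ‖v‖) := by
    have e1 : ‖((2 / ‖v‖ : ℝ) : 𝕜) • v‖ = 2 := by
      rw [norm_smul, RCLike.norm_ofReal, abs_of_pos (by positivity)]
      field_simp
    have e2 : ‖((2 / ‖v‖ : ℝ) : 𝕜) • v‖ ≤ ‖x₀ + ((2 / ‖v‖ : ℝ) : 𝕜) • v‖ + ‖x₀‖ := by
      have := norm_sub_le (x₀ + ((2 / ‖v‖ : ℝ) : 𝕜) • v) x₀
      rwa [add_sub_cancel_left] at this
    show 1 ≤ ‖x₀ + ((2 / ‖v‖ : ℝ) : 𝕜) • v‖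
    linarith
  obtain ⟨t, _, ht⟩ := intermediate_value_Icc (show (0 : ℝ) ≤ 2 / ‖v‖ by positivity)
    hcont.continuousOn ⟨h1, h2⟩
  refine ⟨x₀ + (t : 𝕜) • v, ht, hF _ (fun f hf => ?_)⟩
  rw [map_add, map_smul, hvF f hf, smul_zero, add_zero, sub_self, norm_zero]
  exact hε

end Pool.Agent.V1199
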