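import Mathlib
import Pool.Agent.V1199.WeakK

open Set Filter Topology

namespace Pool.Agent.V1199

variable {𝕜 : Type*} [RCLike 𝕜] {X : Type*} [NormedAddCommGroup X] [NormedSpace 𝕜 X]

/-- The super alternative Daugavet property. -/
def SuperADP (𝕜 : Type*) [RCLike 𝕜] (X : Type*) [NormedAddCommGroup X] [NormedSpace 𝕜 X] : Prop :=
  ∀ x : X, ‖x‖ = 1 → ∀ U : Set (WeakSpace 𝕜 X), IsOpen U →
    (∃ y : X, ‖y‖ = 1 ∧ toWeakSpace 𝕜 X y ∈ U) →
    IsLUB {r : ℝ | ∃ y : X, ‖y‖ ≤ 1 ∧ toWeakSpace 𝕜 X y ∈ U ∧ ∃ θ : 𝕜, ‖θ‖ = 1 ∧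
      r = ‖x + θ • y‖} 2

theorem adp_finite (hX : SuperADP 𝕜 X) (hinf : ¬ FiniteDimensional 𝕜 X) (I : Finset X)
    (hI : ∀ x ∈ I, ‖x‖ = 1) (F : Finset (StrongDual 𝕜 X)) {ε : ℝ} (hε : 0 < ε) :
    ∃ y : X, ‖y‖ ≤ 1 ∧ (∀ f ∈ F, ‖f y‖ < ε) ∧
      ∀ x ∈ I, ∃ θ : 𝕜, ‖θ‖ = 1 ∧ 2 - ε < ‖x + θ • y‖ := by
  classical
  induction I using Finset.induction_on with
  | empty => exact ⟨0, by simp, fun f _ => by simpa using hε, by simp⟩
  | insert a I ha ih =>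
    obtain ⟨y₀, hy1, hy2, hy3⟩ := ih (fun x hx => hI x (Finset.mem_insert_of_mem hx))
    let U : Set (WeakSpace 𝕜 X) := (⋂ f ∈ F, {y | ‖f ((toWeakSpace 𝕜 X).symm y)‖ < ε}) ∩
      (⋂ x ∈ I, ⋃ (θ : 𝕜) (_ : ‖θ‖ = 1), {y | 2 - ε < ‖x + θ • (toWeakSpace 𝕜 X).symm y‖})
    have hU : IsOpen U := by
      refine IsOpen.inter ?_ ?_
      · refine isOpen_biInter_finset fun f _ => isOpen_lt ?_ continuous_const
        exact (weakK_continuous f).norm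
      · refine isOpen_biInter_finset fun x _ => ?_
        exact isOpen_iUnion fun θ => isOpen_iUnion fun _ => weakK_isOpen_norm x θ _
    have hmem : ∀ y : X, toWeakSpace 𝕜 X y ∈ U ↔ (∀ f ∈ F, ‖f y‖ < ε) ∧
        ∀ x ∈ I, ∃ θ : 𝕜, ‖θ‖ = 1 ∧ 2 - ε < ‖x + θ • y‖ := by
      intro y
      simp only [U, mem_inter_iff, mem_iInter, mem_ofPred_eq, mem_iUnion, exists_prop,
        LinearEquiv.symm_apply_apply]
    have h0 : toWeakSpace 𝕜 X y₀ ∈ U := (hmem y₀).mpr ⟨hy2, hy3⟩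
    have h1 := hX a (hI a (Finset.mem_insert_self _ _)) U hU (weakK_meets_sphere hinf hU hy1 h0)
    obtain ⟨r, ⟨y, hy, hyU, θ, hθ, rfl⟩, hr, _⟩ := h1.exists_between (show 2 - ε < 2 by linarith)
    rw [hmem] at hyU
    refine ⟨y, hy, hyU.1, fun x hx => ?_⟩
    rcases Finset.mem_insert.mp hx with rfl | hx
    · exact ⟨θ, hθ, hr⟩
    · exact hyU.2 x hx

theorem exists_norm_one (𝕜 : Type*) [RCLike 𝕜] (X : Type*) [NormedAddCommGroup X]
    [NormedSpace 𝕜 X] [Nontrivial X] : ∃ x : X, ‖x‖ = 1 := by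
  obtain ⟨v, hv⟩ := exists_ne (0 : X)
  have hvn : 0 < ‖v‖ := norm_pos_iff.mpr hv
  refine ⟨((‖v‖⁻¹ : ℝ) : 𝕜) • v, ?_⟩
  rw [norm_smul, RCLike.norm_ofReal, abs_of_pos (inv_pos.mpr hvn), inv_mul_cancel₀ hvn.ne']

/-- Closed norming subsets of the dual ball. -/
def Norming (C : Set (WeakDual 𝕜 X)) : Prop :=
  IsClosed C ∧ C ⊆ WeakDual.toStrongDual ⁻¹' Metric.closedBall (0 : StrongDual 𝕜 X) 1 ∧
    ∀ x : X, ∃ p ∈ C, RCLike.re (p x) = ‖x‖

theorem re_le_of_mem_ball {p : WeakDual 𝕜 X}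
    (hp : p ∈ WeakDual.toStrongDual ⁻¹' Metric.closedBall (0 : StrongDual 𝕜 X) 1) (x : X) :
    ‖p x‖ ≤ ‖x‖ := by
  have h1 : ‖WeakDual.toStrongDual p‖ ≤ 1 := by
    rw [mem_preimage, mem_closedBall_zero_iff] at hp; exact hp
  have h2 : ‖(WeakDual.toStrongDual p) x‖ ≤ ‖x‖ := by
    refine ((WeakDual.toStrongDual p).le_opNorm x).trans ?_
    nlinarith [norm_nonneg x]
  exact h2

theorem re_continuous (x : X) : Continuous (fun p : WeakDual 𝕜 X => RCLike.re (p x)) :=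
  RCLike.continuous_re.comp (WeakDual.eval_continuous x)

theorem exists_minimal_norming : ∃ C : Set (WeakDual 𝕜 X), Minimal Norming C := by
  have hK := WeakDual.isCompact_closedBall (𝕜 := 𝕜) (E := X) (0 : StrongDual 𝕜 X) 1
  have h0 : Norming (𝕜 := 𝕜) (X := X)
      (WeakDual.toStrongDual ⁻¹' Metric.closedBall (0 : StrongDual 𝕜 X) 1) := by
    refine ⟨hK.isClosed, Subset.rfl, fun x => ?_⟩
    obtain ⟨g, hg1, hg2⟩ := exists_dual_vector'' 𝕜 x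
    refine ⟨StrongDual.toWeakDual g, ?_, ?_⟩
    · rw [mem_preimage, mem_closedBall_zero_iff]
      exact hg1
    · have : (StrongDual.toWeakDual g) x = g x := rfl
      rw [this, hg2, RCLike.ofReal_re]
  obtain ⟨C, _, hC⟩ := zorn_superset_nonempty {C : Set (WeakDual 𝕜 X) | Norming C} (by
    intro c hc hchain hne
    refine ⟨⋂₀ c, ⟨?_, ?_, ?_⟩, fun s hs => sInter_subset_of_mem hs⟩
    · exact isClosed_sInter (fun s hs => (hc hs).1)
    · obtain ⟨s, hs⟩ := hne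
      exact (sInter_subset_of_mem hs).trans (hc hs).2.1
    · intro x
      have hne' : (⋂ s : c, (s.1 ∩ {p : WeakDual 𝕜 X | RCLike.re (p x) = ‖x‖})).Nonempty := by
        have : Nonempty c := hne.to_subtype
        refine IsCompact.nonempty_iInter_of_directed_nonempty_isCompact_isClosed _ ?_ ?_ ?_ ?_
        · intro s t
          rcases hchain.total s.2 t.2 with h | h
          · exact ⟨s, Subset.rfl, inter_subset_inter_left _ h⟩
          · exact ⟨t, inter_subset_inter_left _ h, Subset.rfl⟩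
        · rintro ⟨s, hs⟩
          obtain ⟨p, hp1, hp2⟩ := (hc hs).2.2 x
          exact ⟨p, hp1, hp2⟩
        · rintro ⟨s, hs⟩
          refine hK.of_isClosed_subset ?_ (inter_subset_left.trans (hc hs).2.1)
          exact (hc hs).1.inter (isClosed_eq (re_continuous x) continuous_const)
        · rintro ⟨s, hs⟩
          exact (hc hs).1.inter (isClosed_eq (re_continuous x) continuous_const)
      obtain ⟨p, hp⟩ := hne'
      rw [mem_iInter] at hp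
      obtain ⟨s, hs⟩ := hne
      exact ⟨p, fun t ht => (hp ⟨t, ht⟩).1, (hp ⟨s, hs⟩).2⟩) _ h0
  exact ⟨C, hC⟩

/-- Slices form a `π`-base of a minimal norming set. -/
theorem slice_base [Nontrivial X] {C : Set (WeakDual 𝕜 X)} (hC : Minimal Norming C)
    {U : Set (WeakDual 𝕜 X)} (hU : IsOpen U) (hne : (C ∩ U).Nonempty) :
    ∃ (x : X) (δ : ℝ), ‖x‖ = 1 ∧ 0 < δ ∧ ∀ p ∈ C, 1 - δ < RCLike.re (p x) → p ∈ U := by
  have hK := WeakDual.isCompact_closedBall (𝕜 := 𝕜) (E := X) (0 : StrongDual 𝕜 X) 1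
  have hcl : IsClosed (C \ U) := hC.prop.1.sdiff hU
  have hcomp : IsCompact (C \ U) := hK.of_isClosed_subset hcl (sdiff_subset.trans hC.prop.2.1)
  rcases (C \ U).eq_empty_or_nonempty with he | hne'
  · obtain ⟨x, hx⟩ := exists_norm_one 𝕜 X
    refine ⟨x, 1, hx, one_pos, fun p hp _ => ?_⟩
    by_contra hpU
    have : p ∈ C \ U := ⟨hp, hpU⟩
    rw [he] at this
    exact this
  · have hnn : ¬ Norming (C \ U) := by
      intro hn
      have := hC.le_of_le hn sdiff_subset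
      obtain ⟨p, hp1, hp2⟩ := hne
      exact (this hp1).2 hp2
    have hex : ∃ x : X, ∀ p ∈ C \ U, RCLike.re (p x) ≠ ‖x‖ := by
      by_contra hcon
      push Not at hcon
      exact hnn ⟨hcl, sdiff_subset.trans hC.prop.2.1, hcon⟩
    obtain ⟨x, hx⟩ := hex
    obtain ⟨q, hq1, hq2⟩ := hcomp.exists_isMaxOn hne' (re_continuous (𝕜 := 𝕜) x).continuousOn
    have hx0 : x ≠ 0 := by
      rintro rfl
      obtain ⟨p, hp⟩ := hne'
      apply hx p hp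
      rw [map_zero, map_zero, norm_zero]
    have hxn : 0 < ‖x‖ := norm_pos_iff.mpr hx0
    have hlt : RCLike.re (q x) < ‖x‖ :=
      lt_of_le_of_ne ((RCLike.re_le_norm _).trans (re_le_of_mem_ball (hC.prop.2.1 hq1.1) x))
        (hx q hq1)
    have hsc : ∀ p : WeakDual 𝕜 X, RCLike.re (p (((‖x‖⁻¹ : ℝ) : 𝕜) • x)) =
        ‖x‖⁻¹ * RCLike.re (p x) := by
      intro p
      have : p (((‖x‖⁻¹ : ℝ) : 𝕜) • x) = ((‖x‖⁻¹ : ℝ) : 𝕜) * p x := map_smul p _ x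
      rw [this, RCLike.re_ofReal_mul]
    refine ⟨((‖x‖⁻¹ : ℝ) : 𝕜) • x, 1 - ‖x‖⁻¹ * RCLike.re (q x), ?_, ?_, ?_⟩
    · rw [norm_smul, RCLike.norm_ofReal, abs_of_pos (inv_pos.mpr hxn), inv_mul_cancel₀ hxn.ne']
    · have : ‖x‖⁻¹ * RCLike.re (q x) < ‖x‖⁻¹ * ‖x‖ :=
        mul_lt_mul_of_pos_left hlt (inv_pos.mpr hxn)
      rw [inv_mul_cancel₀ hxn.ne'] at this
      linarith
    · intro p hp hlt'
      by_contra hpU
      rw [hsc] at hlt'
      have h1 : RCLike.re (p x) ≤ RCLike.re (q x) := hq2 ⟨hp, hpU⟩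
      have h2 := mul_le_mul_of_nonneg_left h1 (inv_pos.mpr hxn).le
      linarith

/-- The basic step: large values on finitely many open sets. -/
theorem adp_open (hX : SuperADP 𝕜 X) (hinf : ¬ FiniteDimensional 𝕜 X) {C : Set (WeakDual 𝕜 X)}
    (hC : Minimal Norming C) {𝒰 : Set (Set C)} (h𝒰 : 𝒰.Finite)
    (hop : ∀ U ∈ 𝒰, IsOpen U ∧ U.Nonempty) (F : Finset (StrongDual 𝕜 X)) {ε : ℝ} (hε : 0 < ε) :
    ∃ y : X, ‖y‖ ≤ 1 ∧ (∀ f ∈ F, ‖f y‖ < ε) ∧ ∀ U ∈ 𝒰, ∃ p ∈ U, 1 - ε < ‖p.1 y‖ := by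
  classical
  have : Nontrivial X := by
    by_contra hcon
    rw [not_nontrivial_iff_subsingleton] at hcon
    exact hinf inferInstance
  have hex : ∀ U : Set C, ∃ (x : X) (δ : ℝ), 0 < δ ∧ ‖x‖ = 1 ∧ (U ∈ 𝒰 → ∀ p : C,
      1 - δ < RCLike.re (p.1 x) → p ∈ U) := by
    intro U
    by_cases hU : U ∈ 𝒰
    · obtain ⟨V, hV, hVU⟩ := isOpen_induced_iff.mp (hop U hU).1
      obtain ⟨p, hp⟩ := (hop U hU).2
      obtain ⟨x, δ, h1, h2, h3⟩ := slice_base hC hV ⟨p.1, p.2, by rw [← hVU] at hp; exact hp⟩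
      refine ⟨x, δ, h2, h1, fun _ p hp => ?_⟩
      rw [← hVU]
      exact h3 p.1 p.2 hp
    · obtain ⟨x, hx⟩ := exists_norm_one 𝕜 X
      exact ⟨x, 1, one_pos, hx, fun h => absurd h hU⟩
  choose x δ hδ hx hU using hex
  have hmin : ∃ η : ℝ, 0 < η ∧ η ≤ ε ∧ ∀ U ∈ 𝒰, η ≤ δ U := by
    have key : ∀ S : Finset (Set C), ∃ η : ℝ, 0 < η ∧ η ≤ ε ∧ ∀ U ∈ S, η ≤ δ U := by
      intro S
      induction S using Finset.induction_on with
      | empty => exact ⟨ε, hε, le_rfl, by simp⟩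
      | insert a S ha ih =>
        obtain ⟨η, h1, h2, h3⟩ := ih
        refine ⟨min η (δ a), lt_min h1 (hδ a), (min_le_left _ _).trans h2, fun U hU => ?_⟩
        rcases Finset.mem_insert.mp hU with rfl | hU
        · exact min_le_right _ _
        · exact (min_le_left _ _).trans (h3 U hU)
    obtain ⟨η, h1, h2, h3⟩ := key h𝒰.toFinset
    exact ⟨η, h1, h2, fun U hU => h3 U (h𝒰.mem_toFinset.mpr hU)⟩
  obtain ⟨η, hη, hηε, hηδ⟩ := hmin
  obtain ⟨y, hy1, hy2, hy3⟩ := adp_finite hX hinf (h𝒰.toFinset.image x)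
    (by intro z hz; obtain ⟨U, _, rfl⟩ := Finset.mem_image.mp hz; exact hx U) F hη
  refine ⟨y, hy1, fun f hf => (hy2 f hf).trans_le hηε, fun U hU𝒰 => ?_⟩
  obtain ⟨θ, hθ, hlt⟩ := hy3 (x U) (Finset.mem_image_of_mem x (h𝒰.mem_toFinset.mpr hU𝒰))
  obtain ⟨p, hpC, hp⟩ := hC.prop.2.2 (x U + θ • y)
  have e1 : p (x U + θ • y) = p (x U) + θ * p y := by
    rw [map_add, map_smul, smul_eq_mul]
  rw [e1, map_add] at hp
  have e2 : RCLike.re (p (x U)) ≤ 1 := by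
    rw [← hx U]
    exact (RCLike.re_le_norm _).trans (re_le_of_mem_ball (hC.prop.2.1 hpC) _)
  have e3 : RCLike.re (θ * p y) ≤ ‖p y‖ := by
    refine (RCLike.re_le_norm _).trans ?_
    rw [norm_mul, hθ, one_mul]
  have e4 : ‖p y‖ ≤ 1 := (re_le_of_mem_ball (hC.prop.2.1 hpC) _).trans hy1
  refine ⟨⟨p, hpC⟩, hU U hU𝒰 ⟨p, hpC⟩ ?_, ?_⟩
  · show 1 - δ U < RCLike.re (p (x U))
    linarith [hηδ U hU𝒰]
  · show 1 - ε < ‖p y‖
    linarith

end Pool.Agent.V1199
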