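import Mathlib
import Pool.Agent.V1199.Weak

open Set Filter Topology

namespace Pool.Agent.V1199.PiBase

variable {X : Type*} [NormedAddCommGroup X] [NormedSpace ℝ X]

/-- A 1-unconditional basis, with its coordinate functionals. -/
structure UncBasis (e : ℕ → X) (ψ : ℕ → StrongDual ℝ X) : Prop where
  tendsto : ∀ x, Tendsto (fun M => ∑ n ∈ Finset.range M, ψ n x • e n) atTop (𝓝 x)
  biorth : ∀ m n, ψ m (e n) = if m = n then 1 else 0
  signs : ∀ (s : Finset ℕ) (a ε : ℕ → ℝ), (∀ n, ε n = 1 ∨ ε n = -1) →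
    ‖∑ n ∈ s, (ε n * a n) • e n‖ ≤ ‖∑ n ∈ s, a n • e n‖

variable {e : ℕ → X} {ψ : ℕ → StrongDual ℝ X}

/-- The vector with the coordinates `a`. -/
noncomputable def L (e : ℕ → X) : (ℕ →₀ ℝ) →ₗ[ℝ] X := Finsupp.linearCombination ℝ e

theorem L_apply (a : ℕ →₀ ℝ) {s : Finset ℕ} (hs : a.support ⊆ s) : L e a = ∑ n ∈ s, a n • e n := by
  rw [L, Finsupp.linearCombination_apply, Finsupp.sum]
  refine Finset.sum_subset hs fun n _ hn => ?_
  rw [Finsupp.notMem_support_iff] at hn
  rw [hn, zero_smul]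

/-- Multiplication by signs. -/
noncomputable def sg (σ : ℕ → ℝ) (a : ℕ →₀ ℝ) : ℕ →₀ ℝ :=
  Finsupp.onFinset a.support (fun n => σ n * a n) fun n hn => by
    rw [Finsupp.mem_support_iff]
    intro h
    exact hn (by rw [h, mul_zero])

theorem sg_apply (σ : ℕ → ℝ) (a : ℕ →₀ ℝ) (n : ℕ) : sg σ a n = σ n * a n := rfl

theorem sg_support (σ : ℕ → ℝ) (a : ℕ →₀ ℝ) : (sg σ a).support ⊆ a.support :=
  Finsupp.support_onFinset_subset

theorem norm_sg (h : UncBasis e ψ) {σ : ℕ → ℝ} (hσ : ∀ n, σ n = 1 ∨ σ n = -1) (a : ℕ →₀ ℝ) :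
    ‖L e (sg σ a)‖ ≤ ‖L e a‖ := by
  rw [L_apply (sg σ a) (sg_support σ a), L_apply a (Finset.Subset.refl _)]
  exact h.signs a.support a σ hσ

theorem norm_filter (h : UncBasis e ψ) (p : ℕ → Prop) [DecidablePred p] (a : ℕ →₀ ℝ) :
    ‖L e (a.filter p)‖ ≤ ‖L e a‖ := by
  have hσ : ∀ n, (if p n then (1 : ℝ) else -1) = 1 ∨ (if p n then (1 : ℝ) else -1) = -1 := by
    intro n
    by_cases hn : p n
    · left; rw [if_pos hn]
    · right; rw [if_neg hn]
  have h1 : a.filter p = (1 / 2 : ℝ) • (a + sg (fun n => if p n then 1 else -1) a) := by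
    ext n
    rw [Finsupp.smul_apply, Finsupp.add_apply, sg_apply, Finsupp.filter_apply, smul_eq_mul]
    split_ifs <;> ring
  rw [h1, map_smul, map_add, norm_smul, Real.norm_of_nonneg (by norm_num : (0 : ℝ) ≤ 1 / 2)]
  have h2 := norm_add_le (L e a) (L e (sg (fun n => if p n then 1 else -1) a))
  have h3 := norm_sg h hσ a
  linarith

/-- The weighted `ℓ₁`-norm. -/
noncomputable def G (w : ℕ → ℝ) (a : ℕ →₀ ℝ) : ℝ := ∑ n ∈ a.support, w n * |a n|

theorem G_eq (w : ℕ → ℝ) (a : ℕ →₀ ℝ) {s : Finset ℕ} (hs : a.support ⊆ s) :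
    G w a = ∑ n ∈ s, w n * |a n| := by
  refine Finset.sum_subset hs fun n _ hn => ?_
  rw [Finsupp.notMem_support_iff] at hn
  rw [hn, abs_zero, mul_zero]

theorem G_add {w : ℕ → ℝ} {a b : ℕ →₀ ℝ} (hab : ∀ n, a n = 0 ∨ b n = 0) :
    G w (a + b) = G w a + G w b := by
  classical
  rw [G_eq w (a + b) Finsupp.support_add, G_eq w a (Finset.subset_union_left (s₂ := b.support)),
    G_eq w b (Finset.subset_union_right (s₁ := a.support)), ← Finset.sum_add_distrib]
  refine Finset.sum_congr rfl fun n _ => ?_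
  rw [Finsupp.add_apply]
  rcases hab n with h | h <;> rw [h] <;> simp

theorem G_smul {w : ℕ → ℝ} (c : ℝ) (a : ℕ →₀ ℝ) : G w (c • a) = |c| * G w a := by
  rw [G_eq w (c • a) Finsupp.support_smul, G, Finset.mul_sum]
  refine Finset.sum_congr rfl fun n _ => ?_
  rw [Finsupp.smul_apply, smul_eq_mul, abs_mul]
  ring

theorem G_nonneg {w : ℕ → ℝ} (hw : ∀ n, 0 ≤ w n) (a : ℕ →₀ ℝ) : 0 ≤ G w a :=
  Finset.sum_nonneg fun n _ => mul_nonneg (hw n) (abs_nonneg _)

/-- The weight of a finite set of functionals. -/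
noncomputable def wt (e : ℕ → X) (F : Finset (StrongDual ℝ X)) (n : ℕ) : ℝ := ∑ f ∈ F, |f (e n)|

theorem wt_nonneg (F : Finset (StrongDual ℝ X)) (n : ℕ) : 0 ≤ wt e F n :=
  Finset.sum_nonneg fun _ _ => abs_nonneg _

theorem abs_le_G {F : Finset (StrongDual ℝ X)} {f : StrongDual ℝ X} (hf : f ∈ F) (a : ℕ →₀ ℝ) :
    |f (L e a)| ≤ G (wt e F) a := by
  rw [L_apply a (Finset.Subset.refl _), map_sum]
  refine (Finset.abs_sum_le_sum_abs _ _).trans (Finset.sum_le_sum fun n _ => ?_)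
  rw [map_smul, smul_eq_mul, abs_mul, mul_comm]
  exact mul_le_mul_of_nonneg_right
    (Finset.single_le_sum (f := fun f : StrongDual ℝ X => |f (e n)|) (fun _ _ => abs_nonneg _) hf)
    (abs_nonneg _)

theorem G_le (h : UncBasis e ψ) (F : Finset (StrongDual ℝ X)) (a : ℕ →₀ ℝ) :
    G (wt e F) a ≤ (∑ f ∈ F, ‖f‖) * ‖L e a‖ := by
  have h1 : G (wt e F) a = ∑ f ∈ F, ∑ n ∈ a.support, |f (e n)| * |a n| := by
    rw [Finset.sum_comm]
    refine Finset.sum_congr rfl fun n _ => ?_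
    rw [wt, Finset.sum_mul]
  rw [h1, Finset.sum_mul]
  refine Finset.sum_le_sum fun f _ => ?_
  let σ : ℕ → ℝ := fun n => if 0 ≤ f (e n) * a n then 1 else -1
  have hσ : ∀ n, σ n = 1 ∨ σ n = -1 := by
    intro n
    by_cases hn : 0 ≤ f (e n) * a n
    · left; exact if_pos hn
    · right; exact if_neg hn
  have h2 : ∑ n ∈ a.support, |f (e n)| * |a n| = f (L e (sg σ a)) := by
    rw [L_apply (sg σ a) (sg_support σ a), map_sum]
    refine Finset.sum_congr rfl fun n _ => ?_
    rw [map_smul, smul_eq_mul, sg_apply, ← abs_mul]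
    by_cases hn : 0 ≤ f (e n) * a n
    · rw [abs_of_nonneg hn, show σ n = 1 from if_pos hn]; ring
    · rw [abs_of_neg (not_le.mp hn), show σ n = -1 from if_neg hn]; ring
  rw [h2]
  exact (le_abs_self _).trans ((f.le_opNorm _).trans
    (mul_le_mul_of_nonneg_left (norm_sg h hσ a) (norm_nonneg _)))

/-- The partial sums of the expansion of `y`. -/
noncomputable def P (ψ : ℕ → StrongDual ℝ X) (M : ℕ) (y : X) : ℕ →₀ ℝ :=
  Finsupp.onFinset (Finset.range M) (fun n => if n < M then ψ n y else 0) fun n hn => by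
    rw [Finset.mem_range]
    by_contra hcon
    exact hn (if_neg hcon)

theorem P_apply (M : ℕ) (y : X) (n : ℕ) : P ψ M y n = if n < M then ψ n y else 0 := rfl

theorem L_P (M : ℕ) (y : X) : L e (P ψ M y) = ∑ n ∈ Finset.range M, ψ n y • e n := by
  rw [L_apply (P ψ M y) Finsupp.support_onFinset_subset]
  refine Finset.sum_congr rfl fun n hn => ?_
  rw [P_apply, if_pos (Finset.mem_range.mp hn)]

theorem tendsto_P (h : UncBasis e ψ) (y : X) : Tendsto (fun M => L e (P ψ M y)) atTop (𝓝 y) := by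
  simp only [L_P]
  exact h.tendsto y

theorem norm_P (h : UncBasis e ψ) (M : ℕ) (y : X) : ‖L e (P ψ M y)‖ ≤ ‖y‖ := by
  refine ge_of_tendsto (tendsto_P h y).norm ?_
  filter_upwards [eventually_ge_atTop M] with M' hM'
  have h1 : P ψ M y = (P ψ M' y).filter (· < M) := by
    ext n
    rw [Finsupp.filter_apply, P_apply, P_apply]
    split_ifs <;> first | rfl | omega
  rw [h1]
  exact norm_filter h _ _

theorem ψ_L (h : UncBasis e ψ) (a : ℕ →₀ ℝ) (n : ℕ) : ψ n (L e a) = a n := by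
  rw [L_apply a (Finset.subset_insert n a.support), map_sum,
    Finset.sum_eq_single_of_mem n (Finset.mem_insert_self _ _)]
  · rw [map_smul, h.biorth, if_pos rfl, smul_eq_mul, mul_one]
  · intro m _ hm
    rw [map_smul, h.biorth, if_neg hm.symm, smul_zero]

theorem exists_bound_supp (a : ℕ →₀ ℝ) : ∃ N : ℕ, ∀ n, N ≤ n → a n = 0 := by
  refine ⟨a.support.sup id + 1, fun n hn => ?_⟩
  by_contra hne
  have := Finset.le_sup (f := id) (Finsupp.mem_support_iff.mpr hne)
  simp only [id_eq] at this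
  omega

/-- The main lemma. -/
theorem main (h : UncBasis e ψ) (F : Finset (StrongDual ℝ X)) {ε : ℝ} (hε : 0 < ε) (x : ℕ →₀ ℝ)
    (hx : ‖L e x‖ ≤ 1) : ∃ (x' : ℕ →₀ ℝ) (n' : ℕ) (ε' : ℝ), ‖L e x'‖ ≤ 1 ∧ 0 < ε' ∧
      ∀ y : X, ‖y‖ ≤ 1 → (∀ i < n', |ψ i y - x' i| < ε') → ∀ f ∈ F, |f y - f (L e x)| < ε := by
  obtain ⟨C, hC⟩ : ∃ C : ℝ, C = ∑ f ∈ F, ‖f‖ := ⟨_, rfl⟩
  have hC0 : 0 ≤ C := by rw [hC]; exact Finset.sum_nonneg fun _ _ => norm_nonneg _
  have hCf : ∀ f ∈ F, ‖f‖ ≤ C := fun f hf => by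
    rw [hC]; exact Finset.single_le_sum (f := fun f : StrongDual ℝ X => ‖f‖) (fun _ _ => norm_nonneg _) hf
  obtain ⟨N₀, hN₀⟩ := exists_bound_supp x
  let w := wt e F
  have hw : ∀ n, 0 ≤ w n := wt_nonneg F
  let A : Set ℝ := {r | ∃ η : ℝ, 0 < η ∧ ∃ n : ℕ, ∀ z : ℕ →₀ ℝ, (∀ i < n, z i = 0) →
    ‖L e (x + z)‖ ≤ 1 + η → G w z ≤ r}
  have hzN : ∀ z : ℕ →₀ ℝ, (∀ i < N₀, z i = 0) → ‖L e z‖ ≤ ‖L e (x + z)‖ := by
    intro z hz
    have h1 : z = (x + z).filter (N₀ ≤ ·) := by
      ext n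
      rw [Finsupp.filter_apply, Finsupp.add_apply]
      split_ifs with hn
      · rw [hN₀ n hn, zero_add]
      · exact hz n (not_le.mp hn)
    conv_lhs => rw [h1]
    exact norm_filter h _ _
  have hAne : A.Nonempty := by
    refine ⟨C * 2, 1, one_pos, N₀, fun z hz hz2 => ?_⟩
    have h1 := G_le h F z
    rw [← hC] at h1
    refine h1.trans (mul_le_mul_of_nonneg_left ?_ hC0)
    linarith [hzN z hz]
  have hA0 : ∀ r ∈ A, 0 ≤ r := by
    rintro r ⟨η, hη, n, hr⟩
    have := hr 0 (fun _ _ => rfl) (by rw [add_zero]; linarith)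
    rwa [G, Finsupp.support_zero, Finset.sum_empty] at this
  have hAbdd : BddBelow A := ⟨0, hA0⟩
  obtain ⟨α, hα⟩ : ∃ α : ℝ, α = sInf A := ⟨_, rfl⟩
  obtain ⟨δ, hδ⟩ : ∃ δ : ℝ, δ = ε / 8 := ⟨_, rfl⟩
  have hδ0 : 0 < δ := by rw [hδ]; positivity
  obtain ⟨r, ⟨η₀, hη₀, n₀, hr⟩, hrα⟩ : ∃ r ∈ A, r < α + δ :=
    exists_lt_of_csInf_lt hAne (by rw [← hα]; linarith)
  have hlow : ∀ η : ℝ, 0 < η → ∀ n : ℕ, ∃ z : ℕ →₀ ℝ, (∀ i < n, z i = 0) ∧
      ‖L e (x + z)‖ ≤ 1 + η ∧ α - δ < G w z := by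
    intro η hη n
    by_contra hcon
    push Not at hcon
    have h1 : α - δ ∈ A := ⟨η, hη, n, hcon⟩
    have h2 := csInf_le hAbdd h1
    rw [← hα] at h2
    linarith
  obtain ⟨η, hη⟩ : ∃ η : ℝ, η = min (min (η₀ / 3) 1) (δ / (C + 1)) := ⟨_, rfl⟩
  have hη0 : 0 < η := by rw [hη]; positivity
  have hη1 : 3 * η ≤ η₀ := by
    have : η ≤ η₀ / 3 := by rw [hη]; exact (min_le_left _ _).trans (min_le_left _ _)
    linarith
  have hη2 : η ≤ 1 := by rw [hη]; exact (min_le_left _ _).trans (min_le_right _ _)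
  have hη3 : C * η ≤ δ := by
    have h1 : η ≤ δ / (C + 1) := by rw [hη]; exact min_le_right _ _
    rw [le_div_iff₀ (by linarith)] at h1
    nlinarith
  -- two near maximisers
  choose z hz1 hz2 hz3 using hlow η hη0
  have hbdd : ∀ n, N₀ ≤ n → (fun f : F => (f : StrongDual ℝ X) (L e (z n))) ∈
      Metric.closedBall (0 : F → ℝ) (C * 2) := by
    intro n hn
    rw [mem_closedBall_zero_iff, pi_norm_le_iff_of_nonneg (by positivity)]
    intro f
    refine ((f : StrongDual ℝ X).le_opNorm _).trans ?_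
    refine mul_le_mul (hCf f f.2) ?_ (norm_nonneg _) hC0
    have h1 := hzN (z n) (fun i hi => hz1 n i (hi.trans_le hn))
    linarith [hz2 n]
  obtain ⟨v, _, φ, hφ, hv⟩ := tendsto_subseq_of_bounded (Metric.isBounded_closedBall)
    (fun n => hbdd (N₀ + n) (Nat.le_add_right _ _))
  obtain ⟨k₁, hk₁⟩ := (Metric.tendsto_atTop.mp hv) δ hδ0
  obtain ⟨m₁, hm₁⟩ : ∃ m : ℕ, m = N₀ + φ (max k₁ n₀) := ⟨_, rfl⟩
  obtain ⟨N₁, hN₁⟩ := exists_bound_supp (z m₁)
  obtain ⟨m₂, hm₂⟩ : ∃ m : ℕ, m = N₀ + φ (max (max k₁ n₀) N₁) := ⟨_, rfl⟩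
  have hm₁n : n₀ ≤ m₁ := by
    have := hφ.le_apply (x := max k₁ n₀)
    have := le_max_right k₁ n₀
    omega
  have hm₂n : n₀ ≤ m₂ ∧ N₁ ≤ m₂ := by
    have := hφ.le_apply (x := max (max k₁ n₀) N₁)
    have := le_max_right (max k₁ n₀) N₁
    have := le_max_left (max k₁ n₀) N₁
    have := le_max_right k₁ n₀
    omega
  have hm₁N : N₀ ≤ m₁ := by omega
  have hm₂N : N₀ ≤ m₂ := by omega
  have hclose : ∀ f ∈ F, |f (L e (z m₁)) - f (L e (z m₂))| ≤ 2 * δ := by
    intro f hf
    have h1 := hk₁ (max k₁ n₀) (le_max_left _ _)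
    have h2 := hk₁ (max (max k₁ n₀) N₁) ((le_max_left _ _).trans (le_max_left _ _))
    have h3 := (dist_le_pi_dist _ _ ⟨f, hf⟩).trans h1.le
    have h4 := (dist_le_pi_dist _ _ ⟨f, hf⟩).trans h2.le
    simp only [Function.comp_apply] at h3 h4
    rw [← hm₁] at h3
    rw [← hm₂] at h4
    have h5 := dist_triangle_right (f (L e (z m₁))) (f (L e (z m₂))) (v ⟨f, hf⟩)
    rw [Real.dist_eq (f (L e (z m₁)))] at h5
    linarith
  obtain ⟨u, hu⟩ : ∃ u : ℕ →₀ ℝ, u = (1 / 2 : ℝ) • (z m₁ - z m₂) := ⟨_, rfl⟩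
  have hu0 : ∀ i < n₀, u i = 0 := by
    intro i hi
    rw [hu, Finsupp.smul_apply, Finsupp.sub_apply, hz1 m₁ i (hi.trans_le hm₁n),
      hz1 m₂ i (hi.trans_le hm₂n.1)]
    simp
  have huG : α - δ ≤ G w u := by
    have h1 : G w (z m₁ + (-1 : ℝ) • z m₂) = G w (z m₁) + G w ((-1 : ℝ) • z m₂) := by
      refine G_add fun n => ?_
      rcases lt_or_ge n N₁ with hn | hn
      · right
        rw [Finsupp.smul_apply, hz1 m₂ n (hn.trans_le hm₂n.2), smul_zero]
      · left; exact hN₁ n hn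
    have h2 : z m₁ - z m₂ = z m₁ + (-1 : ℝ) • z m₂ := by
      rw [neg_one_smul, sub_eq_add_neg]
    rw [hu, G_smul, h2, h1, G_smul, abs_neg, abs_one, one_mul,
      abs_of_pos (by norm_num : (0 : ℝ) < 1 / 2)]
    linarith [hz3 m₁, hz3 m₂]
  have hxu : ‖L e (x + u)‖ ≤ 1 + η := by
    have h1 : x + u = (1 / 2 : ℝ) • (x + z m₁) +
        (1 / 2 : ℝ) • sg (fun n => if n < m₂ then 1 else -1) (x + z m₂) := by
      ext n
      simp only [Finsupp.add_apply, Finsupp.smul_apply, sg_apply, smul_eq_mul, hu,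
        Finsupp.sub_apply]
      split_ifs with hn
      · rw [hz1 m₂ n hn]; ring
      · rw [hN₀ n (by omega)]; ring
    have hσ : ∀ n, (if n < m₂ then (1 : ℝ) else -1) = 1 ∨ (if n < m₂ then (1 : ℝ) else -1) = -1 := by
      intro n
      by_cases hn : n < m₂
      · left; rw [if_pos hn]
      · right; rw [if_neg hn]
    rw [h1, map_add, map_smul, map_smul]
    refine (norm_add_le _ _).trans ?_
    rw [norm_smul, norm_smul, Real.norm_of_nonneg (by norm_num : (0 : ℝ) ≤ 1 / 2)]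
    have h2 := norm_sg h hσ (x + z m₂)
    linarith [hz2 m₁, hz2 m₂]
  have hfu : ∀ f ∈ F, |f (L e u)| ≤ δ := by
    intro f hf
    rw [hu, map_smul, map_smul, map_sub, map_sub, smul_eq_mul, abs_mul,
      abs_of_pos (by norm_num : (0 : ℝ) < 1 / 2)]
    linarith [hclose f hf]
  obtain ⟨x', hx'⟩ : ∃ x' : ℕ →₀ ℝ, x' = (1 + η)⁻¹ • (x + u) := ⟨_, rfl⟩
  have h1η : 0 < 1 + η := by linarith
  have hx'1 : ‖L e x'‖ ≤ 1 := by
    rw [hx', map_smul, norm_smul, Real.norm_of_nonneg (inv_nonneg.mpr h1η.le), inv_mul_le_iff₀ h1η]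
    linarith
  have hx'2 : (1 + η) • x' = x + u := by rw [hx', smul_inv_smul₀ h1η.ne']
  obtain ⟨N₂, hN₂⟩ := exists_bound_supp (x + u)
  obtain ⟨n', hn'⟩ : ∃ n' : ℕ, n' = max (max N₂ n₀) (max N₀ m₂) + 0 := ⟨_, rfl⟩
  have hn'1 : N₂ ≤ n' ∧ n₀ ≤ n' ∧ N₀ ≤ n' := by
    rw [hn']; refine ⟨?_, ?_, ?_⟩ <;> simp
  have hun' : ∀ i, n' ≤ i → u i = 0 := by
    intro i hi
    have h1 := hN₂ i (by omega)
    rw [Finsupp.add_apply, hN₀ i (by omega), zero_add] at h1
    exact h1
  have hx'n : ∀ i, n' ≤ i → x' i = 0 := by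
    intro i hi
    rw [hx', Finsupp.smul_apply, hN₂ i (by omega), smul_zero]
  obtain ⟨E, hE⟩ : ∃ E : ℝ, E = 1 + ∑ i ∈ Finset.range n', ‖e i‖ := ⟨_, rfl⟩
  have hE0 : 0 < E := by
    rw [hE]
    have : 0 ≤ ∑ i ∈ Finset.range n', ‖e i‖ := Finset.sum_nonneg fun _ _ => norm_nonneg _
    linarith
  refine ⟨x', n', η / E, hx'1, by positivity, ?_⟩
  intro y hy hyx f hf
  -- head and tail
  have hhead : ‖L e (x' - P ψ n' y)‖ ≤ η := by
    have h1 : (x' - P ψ n' y).support ⊆ Finset.range n' := by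
      intro n hn
      rw [Finset.mem_range]
      by_contra hcon
      rw [Finsupp.mem_support_iff, Finsupp.sub_apply, hx'n n (not_lt.mp hcon), P_apply,
        if_neg hcon] at hn
      exact hn (sub_zero _)
    rw [L_apply _ h1]
    refine (norm_sum_le _ _).trans ?_
    have h2 : ∑ i ∈ Finset.range n', ‖(x' - P ψ n' y) i • e i‖ ≤
        ∑ i ∈ Finset.range n', η / E * ‖e i‖ := by
      refine Finset.sum_le_sum fun i hi => ?_
      rw [Finset.mem_range] at hi
      rw [norm_smul, Finsupp.sub_apply, P_apply, if_pos hi, Real.norm_eq_abs, abs_sub_comm]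
      exact mul_le_mul_of_nonneg_right (hyx i hi).le (norm_nonneg _)
    refine h2.trans ?_
    rw [← Finset.mul_sum, div_mul_eq_mul_div, div_le_iff₀ hE0]
    exact mul_le_mul_of_nonneg_left (by rw [hE]; linarith) hη0.le
  have htail : ∀ M, n' ≤ M → |f (L e (P ψ M y)) - f (L e x)| ≤ 5 * δ := by
    intro M hM
    obtain ⟨t, ht⟩ : ∃ t : ℕ →₀ ℝ, t = P ψ M y - P ψ n' y := ⟨_, rfl⟩
    have ht0 : ∀ i < n', t i = 0 := by
      intro i hi
      rw [ht, Finsupp.sub_apply, P_apply, P_apply, if_pos hi, if_pos (by omega), sub_self]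
    have h1 : ‖L e (x' + t)‖ ≤ 1 + η := by
      have h2 : x' + t = (x' - P ψ n' y) + P ψ M y := by rw [ht]; abel
      rw [h2, map_add]
      exact (norm_add_le _ _).trans (by linarith [norm_P h M y])
    have h3 : ‖L e (x + (u + (1 + η) • t))‖ ≤ 1 + η₀ := by
      have h4 : x + (u + (1 + η) • t) = (1 + η) • (x' + t) := by
        rw [smul_add, hx'2]; abel
      rw [h4, map_smul, norm_smul, Real.norm_of_nonneg h1η.le]
      nlinarith
    have h5 := hr (u + (1 + η) • t) (fun i hi => by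
      rw [Finsupp.add_apply, Finsupp.smul_apply, hu0 i hi, ht0 i (by omega)]; simp) h3
    rw [G_add (fun n => by
      rcases lt_or_ge n n' with hn | hn
      · right; rw [Finsupp.smul_apply, ht0 n hn, smul_zero]
      · left; exact hun' n hn), G_smul, abs_of_pos h1η] at h5
    have h6 : G w t ≤ 2 * δ := by
      have := G_nonneg hw t
      nlinarith
    have h7 : |f (L e t)| ≤ 2 * δ := (abs_le_G hf t).trans h6
    have h8 : |f (L e (x' - P ψ n' y))| ≤ δ := by
      refine ((f.le_opNorm _).trans ?_).trans hη3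
      exact mul_le_mul (hCf f hf) hhead (norm_nonneg _) hC0
    have h9 : |f (L e x') - f (L e x)| ≤ 2 * δ := by
      have h10 : f (L e x') - f (L e x) = (1 + η)⁻¹ * (f (L e u) - η * f (L e x)) := by
        rw [hx', map_smul, map_smul, map_add, map_add, smul_eq_mul]
        field_simp
        ring
      rw [h10, abs_mul, abs_of_pos (inv_pos.mpr h1η), inv_mul_le_iff₀ h1η]
      have h11 : |f (L e x)| ≤ C := by
        refine (f.le_opNorm _).trans ?_
        calc ‖f‖ * ‖L e x‖ ≤ C * 1 := mul_le_mul (hCf f hf) hx (norm_nonneg _) hC0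
          _ = C := mul_one C
      have h12 : |f (L e u) - η * f (L e x)| ≤ δ + η * C := by
        refine (abs_sub _ _).trans (add_le_add (hfu f hf) ?_)
        rw [abs_mul, abs_of_pos hη0]
        exact mul_le_mul_of_nonneg_left h11 hη0.le
      nlinarith
    have h13 : f (L e (P ψ M y)) - f (L e x) =
        f (L e t) - f (L e (x' - P ψ n' y)) + (f (L e x') - f (L e x)) := by
      rw [ht, map_sub, map_sub, map_sub, map_sub]; ring
    rw [h13]
    refine (abs_add_le _ _).trans ?_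
    have h14 := abs_sub (f (L e t)) (f (L e (x' - P ψ n' y)))
    linarith
  have hlim : |f y - f (L e x)| ≤ 5 * δ := by
    refine le_of_tendsto (((f.continuous.tendsto y).comp (tendsto_P h y)).sub_const _).abs ?_
    filter_upwards [eventually_ge_atTop n'] with M hM
    exact htail M hM
  rw [hδ] at hlim
  linarith

/-- The elements of the countable `π`-base. -/
def D (ψ : ℕ → StrongDual ℝ X) (p : (Σ n : ℕ, Fin n → ℚ) × ℕ) : Set (WeakSpace ℝ X) :=
  {y | ∀ i : Fin p.1.1, |ψ i ((toWeakSpace ℝ X).symm y) - p.1.2 i| < 1 / ((p.2 : ℝ) + 1)}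

theorem isOpen_D (p : (Σ n : ℕ, Fin n → ℚ) × ℕ) : IsOpen (D ψ p) := by
  have : D ψ p = ⋂ i : Fin p.1.1,
      {y : WeakSpace ℝ X | |ψ i ((toWeakSpace ℝ X).symm y) - p.1.2 i| < 1 / ((p.2 : ℝ) + 1)} := by
    ext y; simp [D]
  rw [this]
  refine isOpen_iInter_of_finite fun i => isOpen_lt ?_ continuous_const
  exact ((weak_continuous (ψ i)).sub continuous_const).abs

/-- The unit ball of a space with a 1-unconditional basis has a countable `π`-base for the weak
topology. -/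
theorem exists_pibase (h : UncBasis e ψ) :
    ∃ U : ℕ → Set (WeakSpace ℝ X),
      (∀ n, IsOpen (U n) ∧
          (U n ∩ (toWeakSpace ℝ X) '' Metric.closedBall (0 : X) 1).Nonempty) ∧
      ∀ V : Set (WeakSpace ℝ X), IsOpen V →
        (V ∩ (toWeakSpace ℝ X) '' Metric.closedBall (0 : X) 1).Nonempty →
          ∃ n, U n ∩ (toWeakSpace ℝ X) '' Metric.closedBall (0 : X) 1 ⊆ V := by
  classical
  obtain ⟨enum, henum⟩ := exists_surjective_nat ((Σ n : ℕ, Fin n → ℚ) × ℕ)
  let U : ℕ → Set (WeakSpace ℝ X) := fun n =>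
    if (D ψ (enum n) ∩ (toWeakSpace ℝ X) '' Metric.closedBall (0 : X) 1).Nonempty
    then D ψ (enum n) else univ
  refine ⟨U, fun n => ?_, fun V hV hVne => ?_⟩
  · by_cases hn : (D ψ (enum n) ∩ (toWeakSpace ℝ X) '' Metric.closedBall (0 : X) 1).Nonempty
    · have : U n = D ψ (enum n) := if_pos hn
      rw [this]
      exact ⟨isOpen_D _, hn⟩
    · have : U n = univ := if_neg hn
      rw [this]
      exact ⟨isOpen_univ, toWeakSpace ℝ X 0, mem_univ _, 0, by simp, rfl⟩
  · obtain ⟨_, hyV, y₀, hy₀, rfl⟩ := hVne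
    obtain ⟨F, ε, hε, hF⟩ := weak_basic hV hyV
    have hev : ∀ᶠ M in atTop, ∀ f ∈ F, |f (L e (P ψ M y₀)) - f y₀| < ε / 2 := by
      rw [Filter.eventually_all_finset]
      intro f _
      have h1 := (f.continuous.tendsto y₀).comp (tendsto_P h y₀)
      exact (Metric.tendsto_nhds.mp h1) (ε / 2) (by positivity)
    obtain ⟨M, hM⟩ := hev.exists
    have hPM : ‖L e (P ψ M y₀)‖ ≤ 1 := (norm_P h M y₀).trans (by simpa using hy₀)
    obtain ⟨x', n', ε', hx', hε', hmain⟩ := main h F (half_pos hε) (P ψ M y₀) hPM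
    obtain ⟨k, hk⟩ := exists_nat_one_div_lt (half_pos hε')
    have hq : ∀ i : Fin n', ∃ q : ℚ, |x' i - q| < 1 / ((k : ℝ) + 1) := by
      intro i
      obtain ⟨q, hq⟩ := exists_rat_near (x' i) (ε := 1 / ((k : ℝ) + 1)) (by positivity)
      exact ⟨q, hq⟩
    choose q hq using hq
    obtain ⟨n, hn⟩ := henum (⟨n', q⟩, k)
    have hmem : toWeakSpace ℝ X (L e x') ∈ D ψ (enum n) := by
      rw [hn]
      intro i
      show |ψ i (L e x') - q i| < 1 / ((k : ℝ) + 1)
      rw [ψ_L h]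
      exact hq i
    have hne : (D ψ (enum n) ∩ (toWeakSpace ℝ X) '' Metric.closedBall (0 : X) 1).Nonempty :=
      ⟨_, hmem, L e x', by simpa using hx', rfl⟩
    have hU : U n = D ψ (enum n) := if_pos hne
    refine ⟨n, ?_⟩
    rw [hU]
    rintro _ ⟨hy1, y, hy, rfl⟩
    refine hF y fun f hf => ?_
    have h1 : ∀ i < n', |ψ i y - x' i| < ε' := by
      intro i hi
      rw [hn] at hy1
      have h2 : |ψ i y - q ⟨i, hi⟩| < 1 / ((k : ℝ) + 1) := hy1 ⟨i, hi⟩
      have h3 := hq ⟨i, hi⟩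
      have h4 : |ψ i y - x' i| ≤ |ψ i y - q ⟨i, hi⟩| + |x' i - q ⟨i, hi⟩| := by
        have h5 : ψ i y - x' i = (ψ i y - q ⟨i, hi⟩) - (x' i - q ⟨i, hi⟩) := by ring
        rw [h5]; exact abs_sub _ _
      linarith
    have h2 := hmain y (by simpa using hy) h1 f hf
    have h3 := hM f hf
    have h4 : |f y - f y₀| ≤ |f y - f (L e (P ψ M y₀))| + |f (L e (P ψ M y₀)) - f y₀| :=
      abs_sub_le _ _ _
    linarith

section frozen

theorem uncBasis_of (e : ℕ → X)
    (hb : ∀ x : X, ∃! a : ℕ → ℝ, HasSum (fun n => a n • e n) x)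
    (hs : ∀ (s : Finset ℕ) (a ε : ℕ → ℝ), (∀ n, ε n = 1 ∨ ε n = -1) →
      ‖∑ n ∈ s, (ε n * a n) • e n‖ ≤ ‖∑ n ∈ s, a n • e n‖) :
    ∃ ψ : ℕ → StrongDual ℝ X, UncBasis e ψ := by
  choose c hc hcu using hb
  have hcu' : ∀ (x : X) (a : ℕ → ℝ), HasSum (fun n => a n • e n) x → a = c x := fun x a h => hcu x a h
  have hadd : ∀ x y, c (x + y) = fun n => c x n + c y n := by
    intro x y
    refine (hcu' (x + y) _ ?_).symm
    have := (hc x).add (hc y)
    simpa only [add_smul] using this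
  have hsmul : ∀ (r : ℝ) x, c (r • x) = fun n => r * c x n := by
    intro r x
    refine (hcu' (r • x) _ ?_).symm
    have := (hc x).const_smul r
    simpa only [mul_smul] using this
  have he : ∀ m, c (e m) = fun n => if n = m then 1 else 0 := by
    intro m
    refine (hcu' (e m) _ ?_).symm
    have h := hasSum_single (f := fun n => (if n = m then (1 : ℝ) else 0) • e n) m
      (fun n hn => by rw [if_neg hn, zero_smul])
    simpa using h
  have he0 : ∀ m, e m ≠ 0 := by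
    intro m h0
    have h1 := congrFun (he m) m
    have h2 := congrFun (hsmul 0 0) m
    rw [zero_smul, zero_mul] at h2
    rw [h0, h2, if_pos rfl] at h1
    exact zero_ne_one h1
  have hbound : ∀ x n, |c x n| ≤ ‖e n‖⁻¹ * ‖x‖ := by
    intro x n
    rw [le_inv_mul_iff₀ (norm_pos_iff.mpr (he0 n)), mul_comm]
    refine ge_of_tendsto (hc x).tendsto_sum_nat.norm ?_
    filter_upwards [eventually_gt_atTop n] with M hM
    have h1 : c x n • e n = (1 / 2 : ℝ) • (∑ k ∈ Finset.range M, c x k • e k +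
        ∑ k ∈ Finset.range M, ((if k = n then 1 else -1) * c x k) • e k) := by
      rw [← Finset.sum_add_distrib, Finset.smul_sum,
        Finset.sum_eq_single_of_mem n (Finset.mem_range.mpr hM)]
      · rw [if_pos rfl, one_mul, ← two_smul ℝ, smul_smul]
        norm_num
      · intro k _ hk
        rw [if_neg hk, neg_one_mul, neg_smul, add_neg_cancel, smul_zero]
    have h2 := hs (Finset.range M) (c x) (fun k => if k = n then 1 else -1) (fun k => by
      by_cases hk : k = n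
      · left; exact if_pos hk
      · right; exact if_neg hk)
    rw [← Real.norm_eq_abs, ← norm_smul, h1, norm_smul,
      Real.norm_of_nonneg (by norm_num : (0 : ℝ) ≤ 1 / 2)]
    have h3 := norm_add_le (∑ k ∈ Finset.range M, c x k • e k)
      (∑ k ∈ Finset.range M, ((if k = n then 1 else -1) * c x k) • e k)
    linarith
  refine ⟨fun n => LinearMap.mkContinuous
    { toFun := fun x => c x n
      map_add' := fun x y => by rw [hadd]
      map_smul' := fun r x => by rw [hsmul]; rfl } ‖e n‖⁻¹ (fun x => hbound x n), ?_, ?_, hs⟩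
  · intro x
    exact (hc x).tendsto_sum_nat
  · intro m n
    show c (e n) m = _
    rw [he n]

/-- The same for Schauder bases. -/
theorem uncBasis_of_schauder (e : ℕ → X)
    (hb : ∀ x : X, ∃! a : ℕ → ℝ, Tendsto (fun M => ∑ n ∈ Finset.range M, a n • e n) atTop (𝓝 x))
    (hs : ∀ (s : Finset ℕ) (a ε : ℕ → ℝ), (∀ n, ε n = 1 ∨ ε n = -1) →
      ‖∑ n ∈ s, (ε n * a n) • e n‖ ≤ ‖∑ n ∈ s, a n • e n‖) :
    ∃ ψ : ℕ → StrongDual ℝ X, UncBasis e ψ := by
  choose c hc hcu using hb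
  have hcu' : ∀ (x : X) (a : ℕ → ℝ),
      Tendsto (fun M => ∑ n ∈ Finset.range M, a n • e n) atTop (𝓝 x) → a = c x :=
    fun x a h => hcu x a h
  have hadd : ∀ x y, c (x + y) = fun n => c x n + c y n := by
    intro x y
    refine (hcu' (x + y) _ ?_).symm
    have := (hc x).add (hc y)
    simpa only [add_smul, Finset.sum_add_distrib] using this
  have hsmul : ∀ (r : ℝ) x, c (r • x) = fun n => r * c x n := by
    intro r x
    refine (hcu' (r • x) _ ?_).symm
    have := (hc x).const_smul r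
    simpa only [mul_smul, Finset.smul_sum] using this
  have he : ∀ m, c (e m) = fun n => if n = m then 1 else 0 := by
    intro m
    refine (hcu' (e m) _ ?_).symm
    refine tendsto_const_nhds.congr' ?_
    filter_upwards [eventually_gt_atTop m] with M hM
    rw [Finset.sum_eq_single_of_mem m (Finset.mem_range.mpr hM)]
    · rw [if_pos rfl, one_smul]
    · intro n _ hn
      rw [if_neg hn, zero_smul]
  have he0 : ∀ m, e m ≠ 0 := by
    intro m h0
    have h1 := congrFun (he m) m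
    have h2 := congrFun (hsmul 0 0) m
    rw [zero_smul, zero_mul] at h2
    rw [h0, h2, if_pos rfl] at h1
    exact zero_ne_one h1
  have hbound : ∀ x n, |c x n| ≤ ‖e n‖⁻¹ * ‖x‖ := by
    intro x n
    rw [le_inv_mul_iff₀ (norm_pos_iff.mpr (he0 n)), mul_comm]
    refine ge_of_tendsto (hc x).norm ?_
    filter_upwards [eventually_gt_atTop n] with M hM
    have h1 : c x n • e n = (1 / 2 : ℝ) • (∑ k ∈ Finset.range M, c x k • e k +
        ∑ k ∈ Finset.range M, ((if k = n then 1 else -1) * c x k) • e k) := by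
      rw [← Finset.sum_add_distrib, Finset.smul_sum,
        Finset.sum_eq_single_of_mem n (Finset.mem_range.mpr hM)]
      · rw [if_pos rfl, one_mul, ← two_smul ℝ, smul_smul]
        norm_num
      · intro k _ hk
        rw [if_neg hk, neg_one_mul, neg_smul, add_neg_cancel, smul_zero]
    have h2 := hs (Finset.range M) (c x) (fun k => if k = n then 1 else -1) (fun k => by
      by_cases hk : k = n
      · left; exact if_pos hk
      · right; exact if_neg hk)
    rw [← Real.norm_eq_abs, ← norm_smul, h1, norm_smul,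
      Real.norm_of_nonneg (by norm_num : (0 : ℝ) ≤ 1 / 2)]
    have h3 := norm_add_le (∑ k ∈ Finset.range M, c x k • e k)
      (∑ k ∈ Finset.range M, ((if k = n then 1 else -1) * c x k) • e k)
    linarith
  refine ⟨fun n => LinearMap.mkContinuous
    { toFun := fun x => c x n
      map_add' := fun x y => by rw [hadd]
      map_smul' := fun r x => by rw [hsmul]; rfl } ‖e n‖⁻¹ (fun x => hbound x n), ?_, ?_, hs⟩
  · intro x
    exact hc x
  · intro m n
    show c (e n) m = _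
    rw [he n]

theorem UncBasis.nontrivial {e : ℕ → X} {ψ : ℕ → StrongDual ℝ X} (h : UncBasis e ψ) :
    Nontrivial X := by
  refine ⟨e 0, 0, fun h0 => ?_⟩
  have := h.biorth 0 0
  rw [h0, map_zero, if_pos rfl] at this
  exact zero_ne_one this

/-- A sequence of non-zero vectors with dense span and the sign condition. -/
theorem uncBasis_of_dense (e : ℕ → X) (he0 : ∀ n, e n ≠ 0)
    (hd : DenseRange (L e))
    (hs : ∀ (s : Finset ℕ) (a ε : ℕ → ℝ), (∀ n, ε n = 1 ∨ ε n = -1) →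
      ‖∑ n ∈ s, (ε n * a n) • e n‖ ≤ ‖∑ n ∈ s, a n • e n‖) :
    ∃ ψ : ℕ → StrongDual ℝ X, UncBasis e ψ := by
  have hfil : ∀ (p : ℕ → Prop) [DecidablePred p] (a : ℕ →₀ ℝ), ‖L e (a.filter p)‖ ≤ ‖L e a‖ := by
    intro p _ a
    have h1 : a.filter p = (1 / 2 : ℝ) • (a + sg (fun n => if p n then 1 else -1) a) := by
      ext n
      rw [Finsupp.smul_apply, Finsupp.add_apply, sg_apply, Finsupp.filter_apply, smul_eq_mul]
      split_ifs <;> ring
    have hσ : ∀ n, (if p n then (1 : ℝ) else -1) = 1 ∨ (if p n then (1 : ℝ) else -1) = -1 := by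
      intro n
      by_cases hn : p n
      · left; rw [if_pos hn]
      · right; rw [if_neg hn]
    rw [h1, map_smul, map_add, norm_smul, Real.norm_of_nonneg (by norm_num : (0 : ℝ) ≤ 1 / 2)]
    have h2 := norm_add_le (L e a) (L e (sg (fun n => if p n then 1 else -1) a))
    have h3 : ‖L e (sg (fun n => if p n then 1 else -1) a)‖ ≤ ‖L e a‖ := by
      rw [L_apply (sg (fun n => if p n then 1 else -1) a) (sg_support _ a),
        L_apply a (Finset.Subset.refl _)]
      exact hs a.support a _ hσ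
    linarith
  have hbound : ∀ (a : ℕ →₀ ℝ) n, |a n| ≤ ‖e n‖⁻¹ * ‖L e a‖ := by
    intro a n
    rw [le_inv_mul_iff₀ (norm_pos_iff.mpr (he0 n)), mul_comm]
    have h1 := hfil (fun k => k = n) a
    have h2 : L e (a.filter fun k => k = n) = a n • e n := by
      have h3 : (a.filter fun k => k = n) = Finsupp.single n (a n) := by
        ext k
        rw [Finsupp.filter_apply, Finsupp.single_apply]
        split_ifs with h4 h5 h5
        · rw [h4]
        · exact absurd h4.symm h5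
        · exact absurd h5.symm h4
        · rfl
      rw [h3, L, Finsupp.linearCombination_single]
    rw [h2, norm_smul, Real.norm_eq_abs] at h1
    exact h1
  have hinj : Function.Injective (L e) := by
    rw [injective_iff_map_eq_zero]
    intro a ha
    ext n
    have := hbound a n
    rw [ha, norm_zero, mul_zero] at this
    simpa using abs_nonpos_iff.mp this
  let R := LinearMap.range (L e)
  let eq := LinearEquiv.ofInjective (L e) hinj
  have hex : ∀ n, ∃ φ : StrongDual ℝ X, ∀ a : ℕ →₀ ℝ, φ (L e a) = a n := by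
    intro n
    let φ₀ : StrongDual ℝ R := LinearMap.mkContinuous
      ((Finsupp.lapply n : (ℕ →₀ ℝ) →ₗ[ℝ] ℝ).comp eq.symm.toLinearMap) ‖e n‖⁻¹ (fun x => by
        obtain ⟨a, rfl⟩ := eq.surjective x
        show ‖(eq.symm (eq a)) n‖ ≤ _
        rw [LinearEquiv.symm_apply_apply]
        exact hbound a n)
    obtain ⟨φ, hφ, _⟩ := exists_extension_norm_eq R φ₀
    refine ⟨φ, fun a => ?_⟩
    have h1 := hφ (eq a)
    have h2 : φ₀ (eq a) = a n := by
      show (eq.symm (eq a)) n = a n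
      rw [LinearEquiv.symm_apply_apply]
    rw [h2] at h1
    exact h1
  choose ψ hψ using hex
  have hP : ∀ (M : ℕ) (y : X), ‖L e (P ψ M y)‖ ≤ ‖y‖ := by
    intro M y
    have hcl : IsClosed {y : X | ‖L e (P ψ M y)‖ ≤ ‖y‖} := by
      refine isClosed_le ?_ continuous_norm
      simp only [L_P]
      exact (continuous_finset_sum _ fun n _ => (ψ n).continuous.smul continuous_const).norm
    have h1 : ∀ y ∈ range (L e), y ∈ {y : X | ‖L e (P ψ M y)‖ ≤ ‖y‖} := by
      rintro _ ⟨a, rfl⟩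
      show ‖L e (P ψ M (L e a))‖ ≤ ‖L e a‖
      have h2 : P ψ M (L e a) = a.filter (· < M) := by
        ext n
        rw [P_apply, Finsupp.filter_apply, hψ]
      rw [h2]
      exact hfil _ a
    have h2 := closure_minimal h1 hcl
    exact h2 (hd y)
  refine ⟨ψ, ?_, ?_, hs⟩
  · intro y
    simp only [← L_P]
    rw [Metric.tendsto_atTop]
    intro ε hε
    obtain ⟨_, ⟨a, rfl⟩, ha⟩ := Metric.mem_closure_iff.mp (hd y) (ε / 2) (by positivity)
    obtain ⟨N, hN⟩ := exists_bound_supp a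
    refine ⟨N, fun M hM => ?_⟩
    have h1 : L e (P ψ M (L e a)) = L e a := by
      congr 1
      ext n
      rw [P_apply, hψ]
      split_ifs with hn
      · rfl
      · exact (hN n (by omega)).symm
    have h2 : L e (P ψ M y) - y = L e (P ψ M (y - L e a)) - (y - L e a) := by
      have h3 : L e (P ψ M (y - L e a)) = L e (P ψ M y) - L e (P ψ M (L e a)) := by
        rw [L_P, L_P, L_P, ← Finset.sum_sub_distrib]
        refine Finset.sum_congr rfl fun n _ => ?_
        rw [map_sub, sub_smul]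
      rw [h3, h1]; abel
    rw [dist_eq_norm, h2]
    have h4 := norm_sub_le (L e (P ψ M (y - L e a))) (y - L e a)
    have h5 := hP M (y - L e a)
    rw [dist_eq_norm] at ha
    linarith
  · intro m n
    have h1 := hψ m (Finsupp.single n 1)
    rw [L, Finsupp.linearCombination_single, one_smul, Finsupp.single_apply] at h1
    rw [h1]
    simp only [eq_comm]

end frozen

end Pool.Agent.V1199.PiBase
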