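import Mathlib
import Pool.Agent.V1199.Adp
import Pool.Agent.V1199.PiBase

open Set Filter Topology

namespace Pool.Agent.V1199.AdpPi

open Pool.Agent.V1199

variable {X : Type*} [NormedAddCommGroup X] [NormedSpace ℝ X]

/-- The super alternative Daugavet property of a real Banach space. -/
def SADP (X : Type*) [NormedAddCommGroup X] [NormedSpace ℝ X] : Prop :=
  ∀ x : X, ‖x‖ = 1 → ∀ U : Set (WeakSpace ℝ X), IsOpen U →
    (∃ y : X, ‖y‖ ≤ 1 ∧ toWeakSpace ℝ X y ∈ U) →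
    IsLUB {r : ℝ | ∃ y : X, ‖y‖ ≤ 1 ∧ toWeakSpace ℝ X y ∈ U ∧ (r = ‖x + y‖ ∨ r = ‖x - y‖)} 2

/-- A space with the super ADP has no countable `π`-base. -/
theorem not_pibase [Nontrivial X] (hX : SADP X) (U : ℕ → Set (WeakSpace ℝ X))
    (hU : ∀ n, IsOpen (U n) ∧ (U n ∩ (toWeakSpace ℝ X) '' Metric.closedBall (0 : X) 1).Nonempty)
    (hbase : ∀ V : Set (WeakSpace ℝ X), IsOpen V →
        (V ∩ (toWeakSpace ℝ X) '' Metric.closedBall (0 : X) 1).Nonempty →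
          ∃ n, U n ∩ (toWeakSpace ℝ X) '' Metric.closedBall (0 : X) 1 ⊆ V) : False := by
  obtain ⟨C, hC⟩ := exists_minimal_norming (𝕜 := ℝ) (X := X)
  have hK := WeakDual.isCompact_closedBall (𝕜 := ℝ) (E := X) (0 : StrongDual ℝ X) 1
  have hCK : IsCompact C := hK.of_isClosed_subset hC.prop.1 hC.prop.2.1
  have hCc : CompactSpace C := isCompact_iff_compactSpace.mp hCK
  have hev : ∀ y : X, Continuous (fun p : C => |p.1 y|) := fun y =>
    ((WeakDual.eval_continuous y).comp continuous_subtype_val).abs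
  let D : ℕ × ℕ → Set C := fun q => ⋃ (y : X) (_ : ‖y‖ ≤ 1 ∧ toWeakSpace ℝ X y ∈ U q.1),
    {p : C | 1 - 1 / ((q.2 : ℝ) + 1) < |p.1 y|}
  have hDo : ∀ q, IsOpen (D q) := fun q => isOpen_iUnion fun y => isOpen_iUnion fun _ =>
    isOpen_lt continuous_const (hev y)
  have hDd : ∀ q, Dense (D q) := by
    rintro ⟨n, k⟩
    rw [dense_iff_inter_open]
    intro O hO hOne
    obtain ⟨V, hV, hVO⟩ := isOpen_induced_iff.mp hO
    obtain ⟨p₀, hp₀⟩ := hOne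
    obtain ⟨x, δ, hx, hδ, hslice⟩ := slice_base hC hV ⟨p₀.1, p₀.2, by rw [← hVO] at hp₀; exact hp₀⟩
    obtain ⟨hUo, _, hyU, y₀, hy₀, rfl⟩ := hU n
    have h1 := hX x hx (U n) hUo ⟨y₀, by simpa using hy₀, hyU⟩
    obtain ⟨η, hη⟩ : ∃ η : ℝ, η = min δ (1 / ((k : ℝ) + 1)) := ⟨_, rfl⟩
    have hη0 : 0 < η := by rw [hη]; positivity
    obtain ⟨r, ⟨y, hy, hyU', hr⟩, hr1, _⟩ := h1.exists_between (show 2 - η < 2 by linarith)
    obtain ⟨θ, hθ, hlt⟩ : ∃ θ : ℝ, (θ = 1 ∨ θ = -1) ∧ 2 - η < ‖x + θ • y‖ := by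
      rcases hr with rfl | rfl
      · exact ⟨1, Or.inl rfl, by rwa [one_smul]⟩
      · exact ⟨-1, Or.inr rfl, by rwa [neg_one_smul, ← sub_eq_add_neg]⟩
    obtain ⟨p, hpC, hp⟩ := hC.prop.2.2 (x + θ • y)
    have hp' : p (x + θ • y) = ‖x + θ • y‖ := hp
    have e1 : p (x + θ • y) = p x + θ * p y := by rw [map_add, map_smul, smul_eq_mul]
    have hb : ∀ v : X, |p v| ≤ ‖v‖ := fun v => by
      have := re_le_of_mem_ball (hC.prop.2.1 hpC) v
      rwa [Real.norm_eq_abs] at this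
    have e2 : p x ≤ 1 := by rw [← hx]; exact (le_abs_self _).trans (hb x)
    have e3 : |p y| ≤ 1 := (hb y).trans hy
    have e4 : θ * p y ≤ |p y| := by
      rcases hθ with rfl | rfl
      · rw [one_mul]; exact le_abs_self _
      · rw [neg_one_mul]; exact neg_le_abs _
    have e5 : η ≤ δ := by rw [hη]; exact min_le_left _ _
    have e6 : η ≤ 1 / ((k : ℝ) + 1) := by rw [hη]; exact min_le_right _ _
    refine ⟨⟨p, hpC⟩, ?_, ?_⟩
    · rw [← hVO]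
      refine hslice p hpC ?_
      show 1 - δ < p x
      linarith
    · show (⟨p, hpC⟩ : C) ∈ ⋃ (y : X) (_ : ‖y‖ ≤ 1 ∧ toWeakSpace ℝ X y ∈ U n), _
      rw [mem_iUnion₂]
      refine ⟨y, ⟨hy, hyU'⟩, ?_⟩
      show 1 - 1 / ((k : ℝ) + 1) < |p y|
      linarith
  have hne : Nonempty C := by
    obtain ⟨p, hp, _⟩ := hC.prop.2.2 0
    exact ⟨⟨p, hp⟩⟩
  obtain ⟨p₀, hp₀⟩ := (dense_iInter_of_isOpen hDo hDd).nonempty
  rw [mem_iInter] at hp₀
  let V : Set (WeakSpace ℝ X) := {y | |p₀.1 ((toWeakSpace ℝ X).symm y)| < 1 / 2}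
  have hV : IsOpen V := by
    refine isOpen_lt ?_ continuous_const
    exact (weak_continuous (WeakDual.toStrongDual p₀.1)).abs
  obtain ⟨n, hn⟩ := hbase V hV ⟨toWeakSpace ℝ X 0, by
    show |p₀.1 ((toWeakSpace ℝ X).symm (toWeakSpace ℝ X 0))| < 1 / 2
    rw [LinearEquiv.symm_apply_apply, map_zero, abs_zero]; norm_num, 0, by simp, rfl⟩
  have h1 := hp₀ (n, 1)
  rw [mem_iUnion₂] at h1
  obtain ⟨y, ⟨hy, hyU⟩, hlt⟩ := h1
  have h2 : toWeakSpace ℝ X y ∈ V := hn ⟨hyU, y, by simpa using hy, rfl⟩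
  have h3 : |p₀.1 y| < 1 / 2 := h2
  have h4 : 1 - 1 / (((1 : ℕ) : ℝ) + 1) < |p₀.1 y| := hlt
  norm_num at h4
  linarith

end Pool.Agent.V1199.AdpPi
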