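import Mathlib

open Set Filter Topology
open scoped ZeroAtInfty BoundedContinuousFunction

namespace Pool.Agent.V1199

/-- The unit vectors of `c₀ = C₀(ℕ, ℝ)`. -/
noncomputable def e (n : ℕ) : C₀(ℕ, ℝ) where
  toFun k := if k = n then 1 else 0
  continuous_toFun := continuous_of_discreteTopology
  zero_at_infty' := by
    rw [Filter.cocompact_eq_cofinite, Nat.cofinite_eq_atTop]
    refine tendsto_const_nhds.congr' ?_
    filter_upwards [eventually_gt_atTop n] with k hk
    rw [if_neg (by omega)]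

theorem e_apply (n k : ℕ) : e n k = if k = n then 1 else 0 := rfl

theorem c0_tendsto (y : C₀(ℕ, ℝ)) : Tendsto (fun n => y n) atTop (𝓝 0) := by
  have := zero_at_infty y
  rwa [Filter.cocompact_eq_cofinite, Nat.cofinite_eq_atTop] at this

theorem c0_norm_le {y : C₀(ℕ, ℝ)} {r : ℝ} (hr : 0 ≤ r) : ‖y‖ ≤ r ↔ ∀ n, |y n| ≤ r := by
  rw [← ZeroAtInftyContinuousMap.norm_toBCF_eq_norm, BoundedContinuousFunction.norm_le hr]
  rfl

theorem c0_abs_le (y : C₀(ℕ, ℝ)) (n : ℕ) : |y n| ≤ ‖y‖ :=
  (c0_norm_le (norm_nonneg y)).mp le_rfl n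

theorem c0_sum_apply (s : Finset ℕ) (a : ℕ → ℝ) (k : ℕ) :
    (∑ n ∈ s, a n • e n) k = if k ∈ s then a k else 0 := by
  classical
  induction s using Finset.induction_on with
  | empty => simp
  | insert m s hm ih =>
    rw [Finset.sum_insert hm, ZeroAtInftyContinuousMap.add_apply, ih,
      ZeroAtInftyContinuousMap.smul_apply, e_apply]
    by_cases h : k = m
    · subst h
      simp [hm]
    · simp [h]

/-- Functionals on `c₀` vanish along the unit vectors. -/
theorem c0_dual_tendsto (f : StrongDual ℝ C₀(ℕ, ℝ)) : Tendsto (fun n => f (e n)) atTop (𝓝 0) := by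
  have hs : Summable (fun n => |f (e n)|) := by
    refine summable_of_sum_le (c := ‖f‖) (fun n => abs_nonneg _) (fun s => ?_)
    let a : ℕ → ℝ := fun n => if 0 ≤ f (e n) then 1 else -1
    have ha : ∀ n, |a n| ≤ 1 := by
      intro n
      simp only [a]
      split_ifs <;> simp
    have h1 : ∑ n ∈ s, |f (e n)| = f (∑ n ∈ s, a n • e n) := by
      rw [map_sum]
      refine Finset.sum_congr rfl (fun n _ => ?_)
      rw [map_smul, smul_eq_mul]
      simp only [a]
      split_ifs with h
      · rw [abs_of_nonneg h, one_mul]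
      · rw [abs_of_neg (not_le.mp h)]; ring
    have h2 : ‖∑ n ∈ s, a n • e n‖ ≤ 1 := by
      rw [c0_norm_le zero_le_one]
      intro k
      rw [c0_sum_apply]
      split_ifs
      · exact ha k
      · simp
    calc ∑ n ∈ s, |f (e n)| = f (∑ n ∈ s, a n • e n) := h1
      _ ≤ ‖f (∑ n ∈ s, a n • e n)‖ := le_abs_self _
      _ ≤ ‖f‖ * ‖∑ n ∈ s, a n • e n‖ := f.le_opNorm _
      _ ≤ ‖f‖ * 1 := by gcongr
      _ = ‖f‖ := mul_one _
  have := hs.tendsto_atTop_zero
  exact tendsto_zero_iff_abs_tendsto_zero _ |>.mpr this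

/-- Same along any bounded operator out of `c₀`. -/
theorem c0_dual_comp_tendsto {X : Type*} [NormedAddCommGroup X] [NormedSpace ℝ X]
    (J : C₀(ℕ, ℝ) →L[ℝ] X) (f : StrongDual ℝ X) :
    Tendsto (fun n => f (J (e n))) atTop (𝓝 0) :=
  c0_dual_tendsto (f.comp J)

theorem e_norm (n : ℕ) : ‖e n‖ = 1 := by
  apply le_antisymm
  · rw [c0_norm_le zero_le_one]
    intro k
    rw [e_apply]
    split_ifs <;> simp
  · have := c0_abs_le (e n) n
    rwa [e_apply, if_pos rfl, abs_one] at this

theorem c0_eval_continuous (n : ℕ) : Continuous (fun y : C₀(ℕ, ℝ) => y n) :=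
  (BoundedContinuousFunction.lipschitz_eval_const n).continuous.comp
    ZeroAtInftyContinuousMap.isometry_toBCF.continuous

/-- Evaluation functional. -/
noncomputable def c0ev (n : ℕ) : StrongDual ℝ C₀(ℕ, ℝ) :=
  LinearMap.mkContinuous
    { toFun := fun y => y n
      map_add' := fun y z => rfl
      map_smul' := fun c y => rfl } 1
    (fun y => by rw [one_mul]; exact c0_abs_le y n)

theorem c0ev_apply (n : ℕ) (y : C₀(ℕ, ℝ)) : c0ev n y = y n := rfl

end Pool.Agent.V1199
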