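import Mathlib
import Pool.Agent.V1199.Weak

open Set Filter Topology

namespace Pool.Agent.V1199.ScdPi

/-- The unit interval. -/
abbrev I : Type := Icc (0 : ℝ) 1

/-- The space `C[0,1]`. -/
abbrev CI : Type := C(I, ℝ)

/-- The ambient Banach space `ℝ² × C[0,1]`. -/
abbrev XX : Type := (ℝ × ℝ) × CI

/-- `t` is a bad point for the functional `μ`. -/
def Bad (μ : StrongDual ℝ CI) (ε : ℝ) (t : I) : Prop :=
  ∀ N : Set I, IsOpen N → t ∈ N → ∃ h : CI, ‖h‖ ≤ 1 ∧ (∀ s ∉ N, h s = 0) ∧ ε < μ h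

theorem finite_bad (μ : StrongDual ℝ CI) {ε : ℝ} (hε : 0 < ε) : {t | Bad μ ε t}.Finite := by
  by_contra hinf
  obtain ⟨n, hn⟩ := exists_nat_gt (‖μ‖ / ε)
  obtain ⟨s, hs, hcard⟩ := (show {t | Bad μ ε t}.Infinite from hinf).exists_subset_card_eq n
  obtain ⟨N, hN, hdis⟩ := s.finite_toSet.t2_separation
  have hex : ∀ t : I, ∃ h : CI, t ∈ s → ‖h‖ ≤ 1 ∧ (∀ r ∉ N t, h r = 0) ∧ ε < μ h := by
    intro t
    by_cases ht : t ∈ s
    · obtain ⟨h, hh⟩ := (show Bad μ ε t from hs ht) (N t) (hN t).2 (hN t).1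
      exact ⟨h, fun _ => hh⟩
    · exact ⟨0, fun h => absurd h ht⟩
  choose h hh using hex
  have hnorm : ‖∑ t ∈ s, h t‖ ≤ 1 := by
    refine (ContinuousMap.norm_le _ zero_le_one).mpr fun r => ?_
    rw [ContinuousMap.sum_apply]
    by_cases hr : ∃ t ∈ s, r ∈ N t
    · obtain ⟨t, ht, hrt⟩ := hr
      rw [Finset.sum_eq_single_of_mem t ht]
      · exact ((h t).norm_coe_le_norm r).trans (hh t ht).1
      · intro t' ht' hne
        refine (hh t' ht').2.1 r fun hr' => ?_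
        exact Set.disjoint_left.mp (hdis ht' ht hne) hr' hrt
    · push Not at hr
      rw [Finset.sum_eq_zero fun t ht => (hh t ht).2.1 r (hr t ht), norm_zero]
      exact zero_le_one
  have h1 : (n : ℝ) * ε ≤ μ (∑ t ∈ s, h t) := by
    rw [map_sum, ← hcard, ← nsmul_eq_mul, ← Finset.sum_const]
    exact Finset.sum_le_sum fun t ht => (hh t ht).2.2.le
  have h2 : μ (∑ t ∈ s, h t) ≤ ‖μ‖ := by
    refine (le_abs_self _).trans ((μ.le_opNorm _).trans ?_)
    exact mul_le_of_le_one_right (norm_nonneg _) hnorm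
  rw [div_lt_iff₀ hε] at hn
  linarith

/-- The bad points of a countable set of functionals form a countable set. -/
theorem countable_bad {S : Set (StrongDual ℝ CI)} (hS : S.Countable) :
    {t : I | ∃ μ ∈ S, ∃ ε : ℝ, 0 < ε ∧ Bad μ ε t}.Countable := by
  have h1 : {t : I | ∃ μ ∈ S, ∃ ε : ℝ, 0 < ε ∧ Bad μ ε t} ⊆
      ⋃ μ ∈ S, ⋃ n : ℕ, {t | Bad μ (1 / ((n : ℝ) + 1)) t} := by
    rintro t ⟨μ, hμ, ε, hε, hb⟩
    obtain ⟨n, hn⟩ := exists_nat_one_div_lt hε
    simp only [mem_iUnion]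
    refine ⟨μ, hμ, n, fun N hN ht => ?_⟩
    obtain ⟨h, h1, h2, h3⟩ := hb N hN ht
    exact ⟨h, h1, h2, hn.trans h3⟩
  refine Countable.mono h1 (hS.biUnion fun μ _ => countable_iUnion fun n => ?_)
  exact (finite_bad μ (by positivity)).countable

theorem exists_nhds {t : I} (F : Finset (StrongDual ℝ CI)) {ε : ℝ} (hε : 0 < ε)
    (ht : ∀ μ ∈ F, ¬ Bad μ ε t) : ∃ N : Set I, IsOpen N ∧ t ∈ N ∧ ∀ μ ∈ F, ∀ h : CI, ‖h‖ ≤ 1 →
      (∀ s ∉ N, h s = 0) → |μ h| ≤ ε := by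
  classical
  induction F using Finset.induction_on with
  | empty => exact ⟨univ, isOpen_univ, mem_univ _, by simp⟩
  | insert μ F hμ ih =>
    obtain ⟨N, hN, htN, hN2⟩ := ih fun ν hν => ht ν (Finset.mem_insert_of_mem hν)
    have h1 := ht μ (Finset.mem_insert_self _ _)
    unfold Bad at h1
    push Not at h1
    obtain ⟨M, hM, htM, hM2⟩ := h1
    refine ⟨N ∩ M, hN.inter hM, ⟨htN, htM⟩, fun ν hν h hh hs => ?_⟩
    rcases Finset.mem_insert.mp hν with rfl | hν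
    · rw [abs_le]
      have h2 : ∀ s ∉ M, h s = 0 := fun s hs' => hs s fun h' => hs' h'.2
      have h3 := hM2 h hh h2
      have h4 := hM2 (-h) (by rwa [norm_neg]) (fun s hs' => by
        show - h s = 0
        rw [h2 s hs', neg_zero])
      rw [map_neg] at h4
      exact ⟨by linarith, h3⟩
    · exact hN2 ν hν h hh fun s hs' => hs s fun h' => hs' h'.1

/-- Modification of a function near a good point. -/
theorem exists_modification {t : I} (F : Finset (StrongDual ℝ CI)) {ε : ℝ} (hε : 0 < ε)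
    (ht : ∀ μ ∈ F, ¬ Bad μ ε t) (g : CI) (hg : ‖g‖ ≤ 1) :
    ∃ g' : CI, ‖g'‖ ≤ 1 ∧ g' t = 1 ∧ ∀ μ ∈ F, |μ g' - μ g| ≤ 2 * ε := by
  obtain ⟨N, hN, htN, hN2⟩ := exists_nhds F hε ht
  obtain ⟨φ, hφ0, hφ1, hφ⟩ := exists_continuous_zero_one_of_isClosed (X := I) hN.isClosed_compl
    (isClosed_singleton (x := t)) (by
      rw [Set.disjoint_left]
      intro s hs hst
      rw [mem_singleton_iff] at hst
      exact hs (hst ▸ htN))
  have hgb : ∀ s, |g s| ≤ 1 := fun s => (g.norm_coe_le_norm s).trans hg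
  let g' : CI := g + φ * (1 - g)
  have hg' : ∀ s, g' s = g s + φ s * (1 - g s) := fun s => rfl
  refine ⟨g', ?_, ?_, fun μ hμ => ?_⟩
  · refine (ContinuousMap.norm_le _ zero_le_one).mpr fun s => ?_
    rw [hg', Real.norm_eq_abs, abs_le]
    have h1 := abs_le.mp (hgb s)
    have h2 := hφ s
    constructor <;> nlinarith [h2.1, h2.2]
  · rw [hg', hφ1 (mem_singleton t)]
    show g t + 1 * (1 - g t) = 1
    ring
  · have h1 : g' - g = (2 : ℝ) • ((1 / 2 : ℝ) • (φ * (1 - g))) := by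
      rw [smul_smul]
      norm_num
      show g + φ * (1 - g) - g = φ * (1 - g)
      ring
    rw [← map_sub, h1, map_smul, smul_eq_mul, abs_mul, abs_of_pos (by norm_num : (0 : ℝ) < 2)]
    refine mul_le_mul_of_nonneg_left (hN2 μ hμ _ ?_ ?_) (by norm_num)
    · refine (ContinuousMap.norm_le _ zero_le_one).mpr fun s => ?_
      show ‖(1 / 2 : ℝ) * (φ s * (1 - g s))‖ ≤ 1
      rw [Real.norm_eq_abs, abs_le]
      have h1 := abs_le.mp (hgb s)
      have h2 := hφ s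
      constructor <;> nlinarith [h2.1, h2.2]
    · intro s hs
      show (1 / 2 : ℝ) * (φ s * (1 - g s)) = 0
      rw [hφ0 hs]
      show (1 / 2 : ℝ) * (0 * (1 - g s)) = 0
      ring

/-- The limits `-1, 0, 1`. -/
def a (j : Fin 3) : ℝ := (j : ℝ) - 1

/-- The parameters `t_i`. -/
noncomputable def tt (i : Fin 3 × ℕ) : ℝ :=
  if i.1 = 2 then 1 - 1 / ((i.2 : ℝ) + 3) else a i.1 + 1 / ((i.2 : ℝ) + 3)

theorem inv_bound (k : ℕ) : 0 < 1 / ((k : ℝ) + 3) ∧ 1 / ((k : ℝ) + 3) ≤ 1 / 3 := by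
  refine ⟨by positivity, ?_⟩
  rw [div_le_div_iff₀ (by positivity) (by positivity)]
  have : (0 : ℝ) ≤ k := Nat.cast_nonneg k
  linarith

theorem inv_sep {k l : ℕ} (h : k ≠ l) :
    1 / (((k : ℝ) + 3) * (k + 4)) ≤ |1 / ((l : ℝ) + 3) - 1 / ((k : ℝ) + 3)| := by
  have hk : (0 : ℝ) ≤ k := Nat.cast_nonneg k
  have hl : (0 : ℝ) ≤ l := Nat.cast_nonneg l
  rcases lt_or_gt_of_ne h with h | h
  · have h1 : (k : ℝ) + 1 ≤ l := by exact_mod_cast h
    have h2 : 1 / ((l : ℝ) + 3) ≤ 1 / ((k : ℝ) + 4) := by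
      rw [div_le_div_iff₀ (by positivity) (by positivity)]; linarith
    have h3 : 1 / ((k : ℝ) + 3) - 1 / ((k : ℝ) + 4) = 1 / (((k : ℝ) + 3) * (k + 4)) := by
      field_simp; ring
    rw [abs_sub_comm]
    exact le_trans (by linarith) (le_abs_self _)
  · have h1 : (l : ℝ) + 1 ≤ k := by exact_mod_cast h
    have h2 : 1 / (((k : ℝ) + 3) * (k + 4)) ≤ 1 / ((l : ℝ) + 3) - 1 / ((k : ℝ) + 3) := by
      rw [div_sub_div _ _ (by positivity) (by positivity), div_le_div_iff₀ (by positivity)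
        (by positivity)]
      have e1 : (1 : ℝ) ≤ 1 * ((k : ℝ) + 3) - ((l : ℝ) + 3) * 1 := by linarith
      have e2 : ((l : ℝ) + 3) * ((k : ℝ) + 3) ≤ ((k : ℝ) + 3) * (k + 4) := by nlinarith
      nlinarith [mul_pos (show (0 : ℝ) < k + 3 by positivity) (show (0 : ℝ) < (k : ℝ) + 4 by positivity)]
    exact h2.trans (le_abs_self _)

theorem tt_cases (i : Fin 3 × ℕ) : (i.1 = 0 ∧ tt i = -1 + 1 / ((i.2 : ℝ) + 3)) ∨
    (i.1 = 1 ∧ tt i = 1 / ((i.2 : ℝ) + 3)) ∨ (i.1 = 2 ∧ tt i = 1 - 1 / ((i.2 : ℝ) + 3)) := by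
  obtain ⟨p, k⟩ := i
  fin_cases p
  · left
    refine ⟨rfl, ?_⟩
    show (if (0 : Fin 3) = 2 then 1 - 1 / ((k : ℝ) + 3) else a 0 + 1 / ((k : ℝ) + 3)) = _
    rw [if_neg (by decide)]
    norm_num [a]
  · right; left
    refine ⟨rfl, ?_⟩
    show (if (1 : Fin 3) = 2 then 1 - 1 / ((k : ℝ) + 3) else a 1 + 1 / ((k : ℝ) + 3)) = _
    rw [if_neg (by decide)]
    norm_num [a]
  · right; right
    exact ⟨rfl, rfl⟩

theorem tt_isol (i : Fin 3 × ℕ) : ∃ d : ℝ, 0 < d ∧ ∀ j, j ≠ i → d ≤ (tt j - tt i) ^ 2 := by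
  have hk : (0 : ℝ) ≤ i.2 := Nat.cast_nonneg i.2
  refine ⟨(1 / (((i.2 : ℝ) + 3) * (i.2 + 4))) ^ 2, by positivity, ?_⟩
  intro j hne
  have hc0 : 0 < 1 / (((i.2 : ℝ) + 3) * (i.2 + 4)) := by positivity
  have hc1 : 1 / (((i.2 : ℝ) + 3) * (i.2 + 4)) ≤ 1 / 3 := by
    rw [div_le_div_iff₀ (by positivity) (by positivity)]; nlinarith
  have h1 := inv_bound i.2
  have h2 := inv_bound j.2
  have hsame : j.1 = i.1 → 1 / (((i.2 : ℝ) + 3) * (i.2 + 4)) ≤
      |1 / ((j.2 : ℝ) + 3) - 1 / ((i.2 : ℝ) + 3)| := fun h =>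
    inv_sep fun h' => hne (Prod.ext h h'.symm)
  have key : 1 / (((i.2 : ℝ) + 3) * (i.2 + 4)) ≤ |tt j - tt i| := by
    rcases tt_cases i with ⟨hi, hi2⟩ | ⟨hi, hi2⟩ | ⟨hi, hi2⟩ <;>
      rcases tt_cases j with ⟨hj, hj2⟩ | ⟨hj, hj2⟩ | ⟨hj, hj2⟩ <;> rw [hi2, hj2]
    · have := hsame (hj.trans hi.symm)
      rwa [add_sub_add_left_eq_sub]
    · refine hc1.trans ((?_ : (1 : ℝ) / 3 ≤ _).trans (le_abs_self _)); linarith
    · refine hc1.trans ((?_ : (1 : ℝ) / 3 ≤ _).trans (le_abs_self _)); linarith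
    · refine hc1.trans ((?_ : (1 : ℝ) / 3 ≤ _).trans (neg_le_abs _)); linarith
    · exact hsame (hj.trans hi.symm)
    · refine hc1.trans ((?_ : (1 : ℝ) / 3 ≤ _).trans (le_abs_self _)); linarith
    · refine hc1.trans ((?_ : (1 : ℝ) / 3 ≤ _).trans (neg_le_abs _)); linarith
    · refine hc1.trans ((?_ : (1 : ℝ) / 3 ≤ _).trans (neg_le_abs _)); linarith
    · have := hsame (hj.trans hi.symm)
      rw [abs_sub_comm] at this
      rwa [sub_sub_sub_cancel_left]
  rw [← sq_abs (tt j - tt i)]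
  exact pow_le_pow_left₀ hc0.le key 2

theorem tt_mem (i : Fin 3 × ℕ) : |tt i| ≤ 1 := by
  have h1 := inv_bound i.2
  rw [abs_le]
  rcases tt_cases i with ⟨_, h⟩ | ⟨_, h⟩ | ⟨_, h⟩ <;> rw [h] <;> constructor <;> linarith

theorem tt_tendsto (j : Fin 3) : Tendsto (fun k : ℕ => tt (j, k)) atTop (𝓝 (a j)) := by
  have h1 : Tendsto (fun k : ℕ => 1 / ((k : ℝ) + 3)) atTop (𝓝 0) := by
    have h2 : Tendsto (fun k : ℕ => (k : ℝ) + 3) atTop atTop :=
      tendsto_atTop_add_const_right _ _ tendsto_natCast_atTop_atTop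
    have h3 := h2.inv_tendsto_atTop
    refine h3.congr fun k => ?_
    rw [one_div]; rfl
  by_cases hj : j = 2
  · subst hj
    have h2 : (fun k : ℕ => tt (2, k)) = fun k : ℕ => 1 - 1 / ((k : ℝ) + 3) := by
      funext k; rfl
    have h3 : a 2 = 1 - 0 := by
      show ((2 : ℕ) : ℝ) - 1 = 1 - 0
      norm_num
    rw [h2, h3]
    exact h1.const_sub 1
  · have h2 : (fun k : ℕ => tt (j, k)) = fun k : ℕ => a j + 1 / ((k : ℝ) + 3) := by
      funext k
      exact if_neg hj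
    rw [h2]
    have h3 := h1.const_add (a j)
    rw [add_zero] at h3
    exact h3

/-- A dense sequence in the unit ball of `C[0,1]`. -/
noncomputable def xs (m : ℕ) : CI :=
  (TopologicalSpace.denseSeq (Metric.closedBall (0 : CI) 1) m : CI)

theorem xs_norm (m : ℕ) : ‖xs m‖ ≤ 1 := by
  have := (TopologicalSpace.denseSeq (Metric.closedBall (0 : CI) 1) m).2
  rwa [mem_closedBall_zero_iff] at this

theorem xs_dense {g : CI} (hg : ‖g‖ ≤ 1) : g ∈ closure (range xs) := by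
  have h1 := TopologicalSpace.denseRange_denseSeq (Metric.closedBall (0 : CI) 1)
    ⟨g, by rwa [mem_closedBall_zero_iff]⟩
  rw [closure_subtype] at h1
  rwa [← range_comp] at h1

/-- The points `u_i`. -/
noncomputable def uu (i : Fin 3 × ℕ) : XX := ((tt i, tt i ^ 2), xs i.2.unpair.1)

/-- The set `U`. -/
noncomputable def UU : Set XX := closure (convexHull ℝ (range uu))

theorem UU_closed : IsClosed UU := isClosed_closure

theorem UU_convex : Convex ℝ UU := (convex_convexHull ℝ _).closure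

theorem uu_mem (i : Fin 3 × ℕ) : uu i ∈ UU := subset_closure (subset_convexHull ℝ _ (mem_range_self i))

/-- A closed convex set which contains the points `u_i` contains `U`. -/
theorem UU_sub {Z : Set XX} (hZ : IsClosed Z) (hZc : Convex ℝ Z) (h : ∀ i, uu i ∈ Z) : UU ⊆ Z :=
  closure_minimal (convexHull_min (range_subset_iff.mpr h) hZc) hZ

theorem uu_norm (i : Fin 3 × ℕ) : ‖uu i‖ ≤ 1 := by
  have h1 := tt_mem i
  have h2 : |tt i ^ 2| ≤ 1 := by
    rw [abs_pow]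
    exact pow_le_one₀ (abs_nonneg _) h1
  exact norm_prod_le_iff.mpr ⟨norm_prod_le_iff.mpr ⟨h1, h2⟩, xs_norm _⟩

theorem UU_norm {y : XX} (hy : y ∈ UU) : ‖y‖ ≤ 1 := by
  have h1 := UU_sub (Z := Metric.closedBall (0 : XX) 1) Metric.isClosed_closedBall
    (convex_closedBall _ _) (fun i => by rw [mem_closedBall_zero_iff]; exact uu_norm i) hy
  rwa [mem_closedBall_zero_iff] at h1

theorem vertex_mem (j : Fin 3) {g : CI} (hg : ‖g‖ ≤ 1) : (((a j, a j ^ 2), g) : XX) ∈ UU := by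
  have h1 : ∀ m, (((a j, a j ^ 2), xs m) : XX) ∈ UU := by
    intro m
    have h2 : Tendsto (fun l : ℕ => uu (j, Nat.pair m l)) atTop (𝓝 ((a j, a j ^ 2), xs m)) := by
      have h3 : Tendsto (fun l : ℕ => tt (j, Nat.pair m l)) atTop (𝓝 (a j)) :=
        (tt_tendsto j).comp (tendsto_atTop_mono (fun l => Nat.right_le_pair m l) tendsto_id)
      have h4 : (fun l : ℕ => uu (j, Nat.pair m l)) = fun l : ℕ =>
          ((tt (j, Nat.pair m l), tt (j, Nat.pair m l) ^ 2), xs m) := by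
        funext l
        simp [uu]
      rw [h4]
      exact (h3.prodMk_nhds (h3.pow 2)).prodMk_nhds tendsto_const_nhds
    exact UU_closed.mem_of_tendsto h2 (Eventually.of_forall fun l => uu_mem _)
  have h2 : IsClosed {g : CI | (((a j, a j ^ 2), g) : XX) ∈ UU} :=
    UU_closed.preimage (by fun_prop)
  have h3 : range xs ⊆ {g : CI | (((a j, a j ^ 2), g) : XX) ∈ UU} := by
    rintro _ ⟨m, rfl⟩
    exact h1 m
  exact closure_minimal h3 h2 (xs_dense hg)

theorem triangle_mem {x y : ℝ} (h1 : |x| ≤ y) (h2 : y ≤ 1) {g : CI} (hg : ‖g‖ ≤ 1) :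
    (((x, y), g) : XX) ∈ UU := by
  have e0 : a 0 = -1 := by simp [a]
  have e1 : a 1 = 0 := by simp [a]
  have e2 : a 2 = 1 := by
    show ((2 : ℕ) : ℝ) - 1 = 1
    norm_num
  have v0 := vertex_mem 0 hg
  have v1 := vertex_mem 1 hg
  have v2 := vertex_mem 2 hg
  rw [e0] at v0
  rw [e1] at v1
  rw [e2] at v2
  have hx := abs_le.mp h1
  have key := UU_convex.sum_mem (t := Finset.univ) (w := ![(y - x) / 2, 1 - y, (y + x) / 2])
    (z := ![((-1, (-1) ^ 2), g), ((0, 0 ^ 2), g), ((1, 1 ^ 2), g)]) (by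
      intro i _
      fin_cases i
      · show 0 ≤ (y - x) / 2; linarith
      · show 0 ≤ 1 - y; linarith
      · show 0 ≤ (y + x) / 2; linarith) (by
      rw [Fin.sum_univ_three]
      show (y - x) / 2 + (1 - y) + (y + x) / 2 = 1
      ring) (by
      intro i _
      fin_cases i
      · exact v0
      · exact v1
      · exact v2)
  rw [Fin.sum_univ_three] at key
  have e : (((x, y), g) : XX) = ((y - x) / 2) • (((-1, (-1) ^ 2), g) : XX) +
      (1 - y) • (((0, 0 ^ 2), g) : XX) + ((y + x) / 2) • (((1, 1 ^ 2), g) : XX) := by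
    refine Prod.ext (Prod.ext ?_ ?_) ?_
    · show x = (y - x) / 2 * (-1) + (1 - y) * 0 + (y + x) / 2 * 1
      ring
    · show y = (y - x) / 2 * (-1) ^ 2 + (1 - y) * 0 ^ 2 + (y + x) / 2 * 1 ^ 2
      ring
    · show g = ((y - x) / 2) • g + (1 - y) • g + ((y + x) / 2) • g
      rw [← add_smul, ← add_smul]
      have : (y - x) / 2 + (1 - y) + (y + x) / 2 = 1 := by ring
      rw [this, one_smul]
  rw [e]
  exact key

/-- The exposing functionals. -/
noncomputable def hh (t : ℝ) : StrongDual ℝ XX :=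
  (2 * t) • ((ContinuousLinearMap.fst ℝ ℝ ℝ).comp (ContinuousLinearMap.fst ℝ (ℝ × ℝ) CI)) -
    ((ContinuousLinearMap.snd ℝ ℝ ℝ).comp (ContinuousLinearMap.fst ℝ (ℝ × ℝ) CI))

theorem hh_apply (t : ℝ) (y : XX) : hh t y = 2 * t * y.1.1 - y.1.2 := rfl

theorem hh_ne (t : ℝ) : hh t ≠ 0 := by
  intro h
  have := congrArg (fun f : StrongDual ℝ XX => f ((0, 1), 0)) h
  simp [hh_apply] at this

/-- The basic inequality. -/
theorem expose (i : Fin 3 × ℕ) : ∃ c : ℝ, 0 < c ∧ ∀ y ∈ UU,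
    ‖y - uu i‖ ≤ c * (hh (tt i) (uu i) - hh (tt i) y) := by
  obtain ⟨d, hd, hdi⟩ := tt_isol i
  refine ⟨2 / d, by positivity, ?_⟩
  refine UU_sub (Z := {y : XX | ‖y - uu i‖ ≤ 2 / d * (hh (tt i) (uu i) - hh (tt i) y)}) ?_ ?_ ?_
  · refine isClosed_le (by fun_prop) ?_
    exact continuous_const.mul (continuous_const.sub (hh (tt i)).continuous)
  · intro y hy z hz s t hs ht hst
    show ‖s • y + t • z - uu i‖ ≤ 2 / d * (hh (tt i) (uu i) - hh (tt i) (s • y + t • z))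
    have hy' : ‖y - uu i‖ ≤ 2 / d * (hh (tt i) (uu i) - hh (tt i) y) := hy
    have hz' : ‖z - uu i‖ ≤ 2 / d * (hh (tt i) (uu i) - hh (tt i) z) := hz
    have e1 : s • y + t • z - uu i = s • (y - uu i) + t • (z - uu i) := by
      rw [smul_sub, smul_sub]
      have : uu i = s • uu i + t • uu i := by rw [← add_smul, hst, one_smul]
      nth_rewrite 1 [this]
      abel
    have e2 : hh (tt i) (uu i) - hh (tt i) (s • y + t • z) =
        s * (hh (tt i) (uu i) - hh (tt i) y) + t * (hh (tt i) (uu i) - hh (tt i) z) := by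
      rw [map_add, map_smul, map_smul, smul_eq_mul, smul_eq_mul]
      have : hh (tt i) (uu i) = (s + t) * hh (tt i) (uu i) := by rw [hst, one_mul]
      nth_rewrite 1 [this]
      ring
    rw [e1, e2]
    refine (norm_add_le _ _).trans ?_
    rw [norm_smul, norm_smul, Real.norm_of_nonneg hs, Real.norm_of_nonneg ht]
    have h1 := mul_le_mul_of_nonneg_left hy' hs
    have h2 := mul_le_mul_of_nonneg_left hz' ht
    linarith
  · intro j
    show ‖uu j - uu i‖ ≤ 2 / d * (hh (tt i) (uu i) - hh (tt i) (uu j))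
    have e : hh (tt i) (uu i) - hh (tt i) (uu j) = (tt j - tt i) ^ 2 := by
      rw [hh_apply, hh_apply]
      show 2 * tt i * tt i - tt i ^ 2 - (2 * tt i * tt j - tt j ^ 2) = _
      ring
    rw [e]
    rcases eq_or_ne j i with rfl | hj
    · simp
    · have h1 : ‖uu j - uu i‖ ≤ 2 :=
        (norm_sub_le _ _).trans (by linarith [uu_norm i, uu_norm j])
      have h2 := hdi j hj
      refine h1.trans ?_
      rw [div_mul_eq_mul_div, le_div_iff₀ hd]
      linarith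

section defs

variable {X : Type*} [NormedAddCommGroup X] [NormedSpace ℝ X]

/-- The slice of `A` determined by `f` and `ε`. -/
def Slice (A : Set X) (f : StrongDual ℝ X) (ε : ℝ) : Set X := {x ∈ A | sSup (f '' A) - ε < f x}

/-- The sequence `V` is determining for `A`. -/
def Determining (A : Set X) (V : ℕ → Set X) : Prop :=
  ∀ B : Set X, (∀ n, (B ∩ V n).Nonempty) → A ⊆ closure (convexHull ℝ B)

/-- Slicely countably determined sets. -/
def SCD (A : Set X) : Prop :=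
  ∃ (f : ℕ → StrongDual ℝ X) (ε : ℕ → ℝ), (∀ n, f n ≠ 0 ∧ 0 < ε n ∧ (Slice A (f n) (ε n)).Nonempty) ∧
    Determining A fun n => Slice A (f n) (ε n)

/-- `A` with the relative weak topology has a countable `π`-base. -/
def HasCountablePiBase (A : Set X) : Prop :=
  ∃ P : ℕ → Set (WeakSpace ℝ X), (∀ n, IsOpen (P n) ∧ (P n ∩ (toWeakSpace ℝ X) '' A).Nonempty) ∧
    ∀ V : Set (WeakSpace ℝ X), IsOpen V → (V ∩ (toWeakSpace ℝ X) '' A).Nonempty →
      ∃ n, P n ∩ (toWeakSpace ℝ X) '' A ⊆ V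

end defs

theorem UU_bdd (f : StrongDual ℝ XX) : BddAbove (f '' UU) := by
  refine ⟨‖f‖, ?_⟩
  rintro _ ⟨y, hy, rfl⟩
  refine (le_abs_self _).trans ((f.le_opNorm y).trans ?_)
  exact mul_le_of_le_one_right (norm_nonneg _) (UU_norm hy)

theorem UU_scd : SCD UU := by
  obtain ⟨enum, henum⟩ := exists_surjective_nat ((Fin 3 × ℕ) × ℕ)
  refine ⟨fun n => hh (tt (enum n).1), fun n => 1 / (((enum n).2 : ℝ) + 1), fun n => ?_, ?_⟩
  · refine ⟨hh_ne _, by positivity, ?_⟩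
    have h1 : (hh (tt (enum n).1) '' UU).Nonempty := ⟨_, uu 0, uu_mem 0, rfl⟩
    have h2 : sSup (hh (tt (enum n).1) '' UU) - 1 / (((enum n).2 : ℝ) + 1) <
        sSup (hh (tt (enum n).1) '' UU) := by
      have : 0 < 1 / (((enum n).2 : ℝ) + 1) := by positivity
      linarith
    obtain ⟨_, ⟨y, hy, rfl⟩, hlt⟩ := exists_lt_of_lt_csSup h1 h2
    exact ⟨y, hy, hlt⟩
  · intro B hB
    refine UU_sub isClosed_closure (convex_convexHull ℝ B).closure fun i => ?_
    have h1 : uu i ∈ closure B := by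
      rw [Metric.mem_closure_iff]
      intro δ hδ
      obtain ⟨c, hc, hexp⟩ := expose i
      obtain ⟨k, hk⟩ := exists_nat_one_div_lt (div_pos hδ hc)
      obtain ⟨n, hn⟩ := henum (i, k)
      obtain ⟨b, hbB, hbU, hb⟩ := hB n
      simp only [hn] at hb
      refine ⟨b, hbB, ?_⟩
      have h2 := hexp b hbU
      have h3 : hh (tt i) (uu i) ≤ sSup (hh (tt i) '' UU) := le_csSup (UU_bdd _) ⟨_, uu_mem i, rfl⟩
      have h4 : hh (tt i) (uu i) - hh (tt i) b < δ / c := by linarith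
      rw [dist_comm, dist_eq_norm]
      refine h2.trans_lt ?_
      rwa [lt_div_iff₀' hc] at h4
    exact closure_mono (subset_convexHull ℝ B) h1

theorem I_not_countable : ¬ (univ : Set I).Countable := by
  intro h
  have h1 : (Icc (0 : ℝ) 1).Countable := by
    have := h.image (Subtype.val : I → ℝ)
    rwa [image_univ, Subtype.range_coe] at this
  have h2 := h1.measure_zero MeasureTheory.volume
  rw [Real.volume_Icc] at h2
  norm_num at h2

theorem UU_no_pibase : ¬ HasCountablePiBase UU := by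
  classical
  rintro ⟨P, hP, hbase⟩
  have hex : ∀ n, ∃ (p : XX) (F : Finset (StrongDual ℝ XX)) (ε : ℝ), 0 < ε ∧
      ((∃ q ∈ UU, toWeakSpace ℝ XX q ∈ P n ∧ |q.1.1| < q.1.2 ∧ q.1.2 < 1) →
        p ∈ UU ∧ |p.1.1| < p.1.2 ∧ p.1.2 < 1 ∧
        ∀ y : XX, (∀ f ∈ F, |f y - f p| < ε) → toWeakSpace ℝ XX y ∈ P n) := by
    intro n
    by_cases h : ∃ q ∈ UU, toWeakSpace ℝ XX q ∈ P n ∧ |q.1.1| < q.1.2 ∧ q.1.2 < 1
    · obtain ⟨q, hq, hqP, h1, h2⟩ := h
      obtain ⟨F, ε, hε, hF⟩ := weak_basic (hP n).1 hqP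
      exact ⟨q, F, ε, hε, fun _ => ⟨hq, h1, h2, hF⟩⟩
    · exact ⟨0, ∅, 1, one_pos, fun h' => absurd h' h⟩
  choose p F ε hε hp using hex
  let inr : CI →L[ℝ] XX := ContinuousLinearMap.inr ℝ (ℝ × ℝ) CI
  let S : Set (StrongDual ℝ CI) := ⋃ n, ((fun f : StrongDual ℝ XX => f.comp inr) '' (F n : Set (StrongDual ℝ XX)))
  have hS : S.Countable := countable_iUnion fun n => ((F n).finite_toSet.image _).countable
  obtain ⟨t, ht⟩ : ∃ t : I, ¬ ∃ μ ∈ S, ∃ ε : ℝ, 0 < ε ∧ Bad μ ε t := by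
    by_contra hcon
    push Not at hcon
    refine I_not_countable ((countable_bad hS).mono fun t _ => ?_)
    obtain ⟨μ, h1, ε', h2, h3⟩ := hcon t
    exact ⟨μ, h1, ε', h2, h3⟩
  let ev : StrongDual ℝ XX := (ContinuousMap.evalCLM ℝ t).comp (ContinuousLinearMap.snd ℝ (ℝ × ℝ) CI)
  let e1 : StrongDual ℝ XX := (ContinuousLinearMap.fst ℝ ℝ ℝ).comp (ContinuousLinearMap.fst ℝ (ℝ × ℝ) CI)
  let e2 : StrongDual ℝ XX := (ContinuousLinearMap.snd ℝ ℝ ℝ).comp (ContinuousLinearMap.fst ℝ (ℝ × ℝ) CI)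
  let V : Set (WeakSpace ℝ XX) := {z | |e1 ((toWeakSpace ℝ XX).symm z)| < e2 ((toWeakSpace ℝ XX).symm z) ∧
    e2 ((toWeakSpace ℝ XX).symm z) < 1 ∧ |ev ((toWeakSpace ℝ XX).symm z)| < 1 / 2}
  have hV : IsOpen V := by
    refine IsOpen.inter ?_ (IsOpen.inter ?_ ?_)
    · exact isOpen_lt (weak_continuous e1).abs (weak_continuous e2)
    · exact isOpen_lt (weak_continuous e2) continuous_const
    · exact isOpen_lt (weak_continuous ev).abs continuous_const
  have hVmem : ∀ y : XX, toWeakSpace ℝ XX y ∈ V ↔ |y.1.1| < y.1.2 ∧ y.1.2 < 1 ∧ |y.2 t| < 1 / 2 :=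
    fun y => Iff.rfl
  obtain ⟨n, hn⟩ := hbase V hV ⟨toWeakSpace ℝ XX ((0, 1 / 2), 0), by
    rw [hVmem]
    refine ⟨by norm_num, by norm_num, ?_⟩
    show |(0 : CI) t| < 1 / 2
    norm_num, _, triangle_mem (by norm_num) (by norm_num) (by simp), rfl⟩
  obtain ⟨_, hqP, q, hqU, rfl⟩ := (hP n).2
  have hqV := (hVmem q).mp (hn ⟨hqP, q, hqU, rfl⟩)
  obtain ⟨hpU, hp1, hp2, hp3⟩ := hp n ⟨q, hqU, hqP, hqV.1, hqV.2.1⟩
  have hg : ‖(p n).2‖ ≤ 1 := (norm_snd_le (p n)).trans (UU_norm hpU)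
  obtain ⟨g', hg'1, hg't, hg'F⟩ := exists_modification (t := t) ((F n).image fun f => f.comp inr)
    (ε := ε n / 4) (by have := hε n; positivity) (by
      intro μ hμ hbad
      obtain ⟨f, hf, rfl⟩ := Finset.mem_image.mp hμ
      refine ht ⟨f.comp inr, mem_iUnion.mpr ⟨n, f, hf, rfl⟩, ε n / 4, ?_, hbad⟩
      have := hε n
      positivity) (p n).2 hg
  have hyP : toWeakSpace ℝ XX ((p n).1, g') ∈ P n := by
    refine hp3 _ fun f hf => ?_
    have h1 := hg'F (f.comp inr) (Finset.mem_image_of_mem _ hf)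
    have h2 : f ((p n).1, g') - f (p n) = (f.comp inr) g' - (f.comp inr) (p n).2 := by
      rw [← map_sub, ← map_sub]
      show f (((p n).1, g') - p n) = f (0, g' - (p n).2)
      congr 1
      exact Prod.ext (sub_self _) rfl
    rw [h2]
    have := hε n
    linarith
  have hyU : (((p n).1, g') : XX) ∈ UU := by
    have := triangle_mem hp1.le hp2.le hg'1
    exact this
  have h3 := (hVmem _).mp (hn ⟨hyP, _, hyU, rfl⟩)
  have h4 : |g' t| < 1 / 2 := h3.2.2
  rw [hg't] at h4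
  norm_num at h4

end Pool.Agent.V1199.ScdPi
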