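import Mathlib
import Pool.Agent.V1199.PiBase

open Set Filter Topology

namespace Pool.Agent.V1199.Stopping

/-- The nodes of the infinite binary tree. -/
abbrev Node : Type := List Bool

/-- Finitely supported families of scalars on the tree. -/
abbrev Fam : Type := Node →₀ ℝ

/-- An antichain of nodes, for the initial segment order. -/
def Anti (A : Set Node) : Prop := ∀ s ∈ A, ∀ t ∈ A, s <+: t → s = t

open Classical in
/-- The set of the sums `∑_{t ∈ A} |a_t|`, `A` an antichain. -/
def vals (a : Fam) : Set ℝ := {r | ∃ A : Set Node, Anti A ∧ r = ∑ t ∈ a.support with t ∈ A, |a t|}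

open Classical in
theorem sum_eq (a : Fam) (A : Set Node) {s : Finset Node} (hs : a.support ⊆ s) :
    ∑ t ∈ a.support with t ∈ A, |a t| = ∑ t ∈ s, if t ∈ A then |a t| else 0 := by
  rw [Finset.sum_filter]
  refine Finset.sum_subset hs fun t _ ht => ?_
  rw [Finsupp.notMem_support_iff] at ht
  rw [ht, abs_zero, ite_self]

theorem vals_bdd (a : Fam) : BddAbove (vals a) := by
  classical
  refine ⟨∑ t ∈ a.support, |a t|, ?_⟩
  rintro _ ⟨A, _, rfl⟩
  exact Finset.sum_le_sum_of_subset_of_nonneg (Finset.filter_subset _ _) fun _ _ _ => abs_nonneg _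

theorem zero_mem (a : Fam) : (0 : ℝ) ∈ vals a := by
  classical
  exact ⟨∅, fun s hs => absurd hs (notMem_empty s), by simp⟩

/-- The norm of the stopping time space. -/
noncomputable def snorm (a : Fam) : ℝ := sSup (vals a)

theorem isLUB_snorm (a : Fam) : IsLUB (vals a) (snorm a) := isLUB_csSup ⟨0, zero_mem a⟩ (vals_bdd a)

theorem snorm_nonneg (a : Fam) : 0 ≤ snorm a := (isLUB_snorm a).1 (zero_mem a)

theorem abs_le_snorm (a : Fam) (t : Node) : |a t| ≤ snorm a := by
  classical
  by_cases ht : t ∈ a.support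
  · refine (isLUB_snorm a).1 ⟨{t}, ?_, ?_⟩
    · intro s hs u hu _
      rw [mem_singleton_iff] at hs hu
      rw [hs, hu]
    · have h1 := sum_eq a {t} (Finset.Subset.refl a.support)
      refine Eq.trans ?_ h1.symm
      symm
      refine (Finset.sum_eq_single_of_mem t ht fun u _ hut => ?_).trans ?_
      · exact if_neg hut
      · exact if_pos (mem_singleton t)
  · rw [Finsupp.notMem_support_iff] at ht
    rw [ht, abs_zero]
    exact snorm_nonneg a

theorem snorm_add (a b : Fam) : snorm (a + b) ≤ snorm a + snorm b := by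
  classical
  refine (isLUB_snorm (a + b)).2 ?_
  rintro _ ⟨A, hA, rfl⟩
  have h1 := (isLUB_snorm a).1 ⟨A, hA, rfl⟩
  have h2 := (isLUB_snorm b).1 ⟨A, hA, rfl⟩
  rw [sum_eq a A (Finset.subset_union_left (s₂ := b.support))] at h1
  rw [sum_eq b A (Finset.subset_union_right (s₁ := a.support))] at h2
  rw [sum_eq (a + b) A Finsupp.support_add]
  refine le_trans ?_ (add_le_add h1 h2)
  rw [← Finset.sum_add_distrib]
  refine Finset.sum_le_sum fun t _ => ?_
  split_ifs
  · rw [Finsupp.add_apply]; exact abs_add_le _ _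
  · simp

theorem snorm_smul_le (c : ℝ) (a : Fam) : snorm (c • a) ≤ |c| * snorm a := by
  classical
  refine (isLUB_snorm (c • a)).2 ?_
  rintro _ ⟨A, hA, rfl⟩
  have h1 := (isLUB_snorm a).1 ⟨A, hA, rfl⟩
  rw [sum_eq a A (Finset.Subset.refl _)] at h1
  rw [sum_eq (c • a) A Finsupp.support_smul]
  refine le_trans ?_ (mul_le_mul_of_nonneg_left h1 (abs_nonneg c))
  rw [Finset.mul_sum]
  refine Finset.sum_le_sum fun t _ => ?_
  split_ifs
  · rw [Finsupp.smul_apply, smul_eq_mul, abs_mul]
  · simp

/-- The normed space of the finitely supported families. -/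
def S0 : Type := Fam

noncomputable instance : AddCommGroup S0 := inferInstanceAs (AddCommGroup Fam)
noncomputable instance : Module ℝ S0 := inferInstanceAs (Module ℝ Fam)
noncomputable instance : Norm S0 := ⟨fun x => snorm x⟩

theorem norm_core : NormedSpace.Core ℝ S0 where
  norm_nonneg x := snorm_nonneg x
  norm_smul c x := by
    refine le_antisymm (snorm_smul_le c x) ?_
    rcases eq_or_ne c 0 with rfl | hc
    · rw [norm_zero, zero_mul]; exact snorm_nonneg _
    · have h1 := snorm_smul_le c⁻¹ (c • x)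
      have h2 : c⁻¹ • c • x = x := inv_smul_smul₀ hc x
      have h3 : snorm x ≤ |c⁻¹| * snorm (c • x) := by
        have h4 : snorm (c⁻¹ • (c • x : Fam)) = snorm x := congrArg snorm h2
        rw [← h4]; exact h1
      show |c| * snorm x ≤ snorm (c • x)
      calc |c| * snorm x ≤ |c| * (|c⁻¹| * snorm (c • x)) :=
            mul_le_mul_of_nonneg_left h3 (abs_nonneg _)
        _ = (|c| * |c⁻¹|) * snorm (c • x) := by ring
        _ = snorm (c • x) := by rw [← abs_mul, mul_inv_cancel₀ hc, abs_one, one_mul]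
  norm_triangle x y := snorm_add x y
  norm_eq_zero_iff x := by
    constructor
    · intro h
      refine Finsupp.ext (f := (x : Fam)) (g := (0 : Fam)) fun k => ?_
      have h1 := abs_le_snorm x k
      have h2 : snorm x = 0 := h
      rw [h2] at h1
      exact abs_eq_zero.mp (le_antisymm h1 (abs_nonneg _))
    · rintro rfl
      have h1 := snorm_smul_le 0 (0 : Fam)
      rw [abs_zero, zero_mul, zero_smul] at h1
      exact le_antisymm h1 (snorm_nonneg _)

noncomputable instance : NormedAddCommGroup S0 := NormedAddCommGroup.ofCore norm_core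
noncomputable instance : NormedSpace ℝ S0 := NormedSpace.ofCore norm_core

theorem norm_S0 (x : S0) : ‖x‖ = snorm x := rfl

section space

variable {X : Type*} [NormedAddCommGroup X] [NormedSpace ℝ X]

/-- Any realisation of the stopping time space has a countable `π`-base. -/
theorem exists_pibase (ι : Fam →ₗ[ℝ] X) (hd : DenseRange ι)
    (hι : ∀ a, IsLUB (vals a) ‖ι a‖) :
    ∃ U : ℕ → Set (WeakSpace ℝ X),
      (∀ n, IsOpen (U n) ∧
          (U n ∩ (toWeakSpace ℝ X) '' Metric.closedBall (0 : X) 1).Nonempty) ∧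
      ∀ V : Set (WeakSpace ℝ X), IsOpen V →
        (V ∩ (toWeakSpace ℝ X) '' Metric.closedBall (0 : X) 1).Nonempty →
          ∃ n, U n ∩ (toWeakSpace ℝ X) '' Metric.closedBall (0 : X) 1 ⊆ V := by
  classical
  have hnorm : ∀ a, ‖ι a‖ = snorm a := fun a => (hι a).unique (isLUB_snorm a)
  obtain ⟨enum⟩ : Nonempty (ℕ ≃ Node) := nonempty_equiv_of_countable
  let e : ℕ → X := fun n => ι (Finsupp.single (enum n) 1)
  have hL : ∀ a : ℕ →₀ ℝ, PiBase.L e a = ι (a.mapDomain enum) := by
    intro a
    rw [PiBase.L_apply a (Finset.Subset.refl _), Finsupp.mapDomain, Finsupp.sum, map_sum]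
    refine Finset.sum_congr rfl fun n _ => ?_
    show a n • ι (Finsupp.single (enum n) 1) = ι (Finsupp.single (enum n) (a n))
    rw [← map_smul, Finsupp.smul_single, smul_eq_mul, mul_one]
  have he0 : ∀ n, e n ≠ 0 := by
    intro n h0
    have h1 := abs_le_snorm (Finsupp.single (enum n) 1) (enum n)
    rw [← hnorm, show ι (Finsupp.single (enum n) 1) = 0 from h0, norm_zero,
      Finsupp.single_eq_same, abs_one] at h1
    linarith
  have hdense : DenseRange (PiBase.L e) := by
    have : range (PiBase.L e) = range ι := by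
      ext x
      constructor
      · rintro ⟨a, rfl⟩
        exact ⟨_, (hL a).symm⟩
      · rintro ⟨b, rfl⟩
        refine ⟨b.mapDomain enum.symm, ?_⟩
        rw [hL, ← Finsupp.mapDomain_comp]
        have : (enum : ℕ → Node) ∘ enum.symm = id := by
          funext t; simp
        rw [this, Finsupp.mapDomain_id]
    rw [DenseRange, this]
    exact hd
  have hsum : ∀ (s : Finset ℕ) (a : ℕ → ℝ), ∑ n ∈ s, a n • e n =
      ι (∑ n ∈ s, Finsupp.single (enum n) (a n)) := by
    intro s a
    rw [map_sum]
    refine Finset.sum_congr rfl fun n _ => ?_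
    show a n • ι (Finsupp.single (enum n) 1) = _
    rw [← map_smul, Finsupp.smul_single, smul_eq_mul, mul_one]
  have hap : ∀ (s : Finset ℕ) (a : ℕ → ℝ) (m : ℕ),
      (∑ n ∈ s, Finsupp.single (enum n) (a n)) (enum m) = if m ∈ s then a m else 0 := by
    intro s a m
    rw [Finsupp.finsetSum_apply]
    simp only [Finsupp.single_apply, enum.injective.eq_iff]
    rw [Finset.sum_ite_eq' s m a]
  have hs : ∀ (s : Finset ℕ) (a ε : ℕ → ℝ), (∀ n, ε n = 1 ∨ ε n = -1) →
      ‖∑ n ∈ s, (ε n * a n) • e n‖ ≤ ‖∑ n ∈ s, a n • e n‖ := by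
    intro s a ε hε
    rw [hsum, hsum, hnorm, hnorm]
    have habs : ∀ t, |(∑ n ∈ s, Finsupp.single (enum n) (ε n * a n)) t| =
        |(∑ n ∈ s, Finsupp.single (enum n) (a n)) t| := by
      intro t
      obtain ⟨m, rfl⟩ := enum.surjective t
      rw [hap, hap s a m]
      split_ifs
      · rw [abs_mul]
        rcases hε m with h | h <;> rw [h] <;> simp
      · rfl
    refine (isLUB_snorm _).2 ?_
    rintro _ ⟨A, hA, rfl⟩
    have h1 := (isLUB_snorm (∑ n ∈ s, Finsupp.single (enum n) (a n))).1 ⟨A, hA, rfl⟩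
    refine le_trans (le_of_eq ?_) h1
    have hsupp : (∑ n ∈ s, Finsupp.single (enum n) (ε n * a n)).support =
        (∑ n ∈ s, Finsupp.single (enum n) (a n)).support := by
      ext t
      rw [Finsupp.mem_support_iff, Finsupp.mem_support_iff, ← abs_ne_zero, habs, abs_ne_zero]
    rw [hsupp]
    exact Finset.sum_congr rfl fun t _ => habs t
  obtain ⟨ψ, h⟩ := PiBase.uncBasis_of_dense e he0 hdense hs
  exact PiBase.exists_pibase h

end space

end Pool.Agent.V1199.Stopping
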