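import Mathlib

/-!
Step-isometries of Banach spaces are continuous (problem MP_68c038).
-/

open Set Filter Topology Metric TopologicalSpace

namespace StepIso

variable {X : Type*} [NormedAddCommGroup X] [NormedSpace ℝ X]

/-- The step-isometry property in terms of open balls of integer radius. -/
def Step (T : X ≃ X) : Prop := ∀ (k : ℕ) (x y : X), ‖x - y‖ < k ↔ ‖T x - T y‖ < k

omit [NormedSpace ℝ X] in
lemma Step.symm {T : X ≃ X} (h : Step T) : Step T.symm := by
  intro k x y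
  have := h k (T.symm x) (T.symm y)
  simpa using this.symm

/-- Norm-to-weak continuity. -/
lemma weak {T : X ≃ X} (h : Step T) {ι : Type*} {l : Filter ι} {x : ι → X} {a : X}
    (hx : Tendsto x l (𝓝 a)) (f : X →L[ℝ] ℝ) :
    Tendsto (fun i => f (T (x i))) l (𝓝 (f (T a))) := by
  have key : ∀ (g : X →L[ℝ] ℝ) (ε : ℝ), 0 < ε → ∀ᶠ i in l, g (T a) - ε < g (T (x i)) := by
    intro g ε hε
    obtain ⟨u, hu1, hu2⟩ : ∃ u : X, ‖u‖ < 1 ∧ ‖g‖ - ε < g u := by
      by_cases hg : 0 ≤ ‖g‖ - ε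
      · obtain ⟨u, hu1, hu2⟩ := g.exists_lt_apply_of_lt_opNorm (show ‖g‖ - ε < ‖g‖ by linarith)
        rcases le_total 0 (g u) with h0 | h0
        · refine ⟨u, hu1, ?_⟩
          rwa [Real.norm_of_nonneg h0] at hu2
        · refine ⟨-u, by rwa [norm_neg], ?_⟩
          rw [Real.norm_of_nonpos h0] at hu2
          simpa using hu2
      · refine ⟨0, by simp, ?_⟩
        simp only [map_zero]
        linarith
    have h1 : ‖T.symm (T a + u) - a‖ < 1 := by
      have := (h 1 (T.symm (T a + u)) a).2 (by simpa using hu1)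
      simpa using this
    have h2 : ∀ᶠ i in l, ‖T.symm (T a + u) - x i‖ < 1 := by
      have h3 : Tendsto (fun i => ‖T.symm (T a + u) - x i‖) l (𝓝 ‖T.symm (T a + u) - a‖) :=
        (tendsto_const_nhds.sub hx).norm
      exact h3.eventually (gt_mem_nhds h1)
    filter_upwards [h2] with i hi
    have h4 : ‖T a + u - T (x i)‖ < 1 := by
      have := (h 1 (T.symm (T a + u)) (x i)).1 (by simpa using hi)
      simpa using this
    have h5 : g (T a + u - T (x i)) ≤ ‖g‖ := by
      calc g (T a + u - T (x i)) ≤ ‖g (T a + u - T (x i))‖ := le_abs_self _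
        _ ≤ ‖g‖ * ‖T a + u - T (x i)‖ := g.le_opNorm _
        _ ≤ ‖g‖ * 1 := by gcongr
        _ = ‖g‖ := mul_one _
    rw [map_sub, map_add] at h5
    linarith
  rw [Metric.tendsto_nhds]
  intro ε hε
  filter_upwards [key f ε hε, key (-f) ε hε] with i h1 h2
  rw [Real.dist_eq, abs_lt]
  simp only [neg_apply] at h2
  constructor <;> linarith

/-- Ultralimits of functionals in the unit ball. -/
lemma ultralimit {ι : Type*} (U : Ultrafilter ι) (f : ι → X →L[ℝ] ℝ) (hf : ∀ i, ‖f i‖ ≤ 1) :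
    ∃ q : X →L[ℝ] ℝ, ‖q‖ ≤ 1 ∧ ∀ v, Tendsto (fun i => f i v) U (𝓝 (q v)) := by
  have hc := WeakDual.isCompact_closedBall (𝕜 := ℝ) (E := X) (0 : StrongDual ℝ X) 1
  have h1 : ((U.map (fun i => StrongDual.toWeakDual (f i)) : Ultrafilter (WeakDual ℝ X)) :
      Filter (WeakDual ℝ X)) ≤
      𝓟 (WeakDual.toStrongDual ⁻¹' closedBall (0 : StrongDual ℝ X) 1) := by
    rw [le_principal_iff]
    refine Filter.mem_map.2 (Filter.univ_mem' fun i => ?_)
    simpa using hf i
  obtain ⟨q, hq, hq2⟩ := hc.ultrafilter_le_nhds _ h1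
  refine ⟨WeakDual.toStrongDual q, by simpa using hq, fun v => ?_⟩
  have h2 : Tendsto (fun i => StrongDual.toWeakDual (f i)) U (𝓝 q) := by
    rw [Tendsto]
    exact hq2
  exact ((WeakDual.eval_continuous v).tendsto q).comp h2

/-- Second difference of the norm. -/
lemma exists_small_second_diff (e v : X) {c δ : ℝ} (hc : 0 < c) (hδ : 0 < δ) :
    ∃ s : ℝ, 0 < s ∧ s < δ ∧ ∃ t : ℝ, 0 < t ∧
      ‖(e + s • v) + t • v‖ + ‖(e + s • v) - t • v‖ - 2 * ‖e + s • v‖ < c * t := by
  by_contra hcon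
  push Not at hcon
  obtain ⟨N, hN⟩ := exists_nat_gt (2 * ‖v‖ / c)
  set h : ℝ := δ / (N + 1) with hh
  have hpos : 0 < h := by positivity
  set φ : ℝ → ℝ := fun s => ‖e + s • v‖ with hφ
  have hD : ∀ i : ℕ, |φ ((i + 1 : ℕ) * h) - φ (i * h)| ≤ h * ‖v‖ := by
    intro i
    calc |φ ((i + 1 : ℕ) * h) - φ (i * h)| ≤ ‖(e + (((i + 1 : ℕ) : ℝ) * h) • v) - (e + ((i : ℝ) * h) • v)‖ :=
          abs_norm_sub_norm_le _ _
      _ = ‖h • v‖ := by
          congr 1
          push_cast
          module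
      _ = h * ‖v‖ := by rw [norm_smul, Real.norm_of_nonneg hpos.le]
  have hind : ∀ i : ℕ, i ≤ N → φ ((1 : ℕ) * h) - φ ((0 : ℕ) * h) + i * (c * h) ≤
      φ ((i + 1 : ℕ) * h) - φ (i * h) := by
    intro i
    induction i with
    | zero => intro _; simp
    | succ i ih =>
      intro hi
      have h1 := ih (by omega)
      have hs : ((i + 1 : ℕ) : ℝ) * h < δ := by
        rw [hh, mul_div_assoc', div_lt_iff₀ (by positivity)]
        have : ((i + 1 : ℕ) : ℝ) < (N : ℝ) + 1 := by
          have : ((i + 1 : ℕ) : ℝ) ≤ N := by exact_mod_cast hi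
          linarith
        nlinarith
      have h2 := hcon (((i + 1 : ℕ) : ℝ) * h) (by positivity) hs h hpos
      have e1 : (e + (((i + 1 : ℕ) : ℝ) * h) • v) + h • v = e + (((i + 1 + 1 : ℕ) : ℝ) * h) • v := by
        push_cast; module
      have e2 : (e + (((i + 1 : ℕ) : ℝ) * h) • v) - h • v = e + ((i : ℝ) * h) • v := by
        push_cast; module
      rw [e1, e2] at h2
      simp only [hφ] at h1 ⊢
      push_cast at h1 h2 ⊢
      linarith
  have h3 := hind N le_rfl
  have h4 := hD N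
  have h5 := hD 0
  rw [abs_le] at h4 h5
  have h6 : (N : ℝ) * (c * h) ≤ 2 * (h * ‖v‖) := by
    have := h4.2
    have := h5.1
    simp only [zero_add] at *
    linarith
  have h7 : (N : ℝ) * c ≤ 2 * ‖v‖ := by
    have : h * ((N : ℝ) * c) ≤ h * (2 * ‖v‖) := by linarith
    exact le_of_mul_le_mul_left this hpos
  rw [div_lt_iff₀ hc] at hN
  linarith

/-- Gateaux smoothness of the norm at `e`. -/
def Smooth (e : X) : Prop :=
  ∀ v : X, ∀ η : ℝ, 0 < η → ∃ t : ℝ, 0 < t ∧ ‖e + t • v‖ + ‖e - t • v‖ - 2 * ‖e‖ < η * t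

lemma Smooth.smul {e : X} (he : Smooth e) {r : ℝ} (hr : 0 < r) : Smooth (r • e) := by
  intro v η hη
  obtain ⟨t, ht, h⟩ := he v η hη
  refine ⟨r * t, by positivity, ?_⟩
  have e1 : r • e + (r * t) • v = r • (e + t • v) := by module
  have e2 : r • e - (r * t) • v = r • (e - t • v) := by module
  rw [e1, e2, norm_smul, norm_smul, norm_smul, Real.norm_of_nonneg hr.le]
  nlinarith

/-- Mazur's theorem. -/
lemma dense_smooth [CompleteSpace X] [SeparableSpace X] : Dense {e : X | Smooth e} := by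
  classical
  haveI : Nonempty X := ⟨0⟩
  let d : ℕ → X := denseSeq X
  have hd : DenseRange d := denseRange_denseSeq X
  let O : ℕ × ℕ → Set X := fun jn => {e | ∃ t : ℝ, 0 < t ∧
    ‖e + t • d jn.1‖ + ‖e - t • d jn.1‖ - 2 * ‖e‖ < (1 / (jn.2 + 1 : ℝ)) * t}
  have hO : ∀ jn, IsOpen (O jn) := by
    intro jn
    have : O jn = ⋃ t ∈ Ioi (0 : ℝ), {e : X |
      ‖e + t • d jn.1‖ + ‖e - t • d jn.1‖ - 2 * ‖e‖ < (1 / (jn.2 + 1 : ℝ)) * t} := by
      ext e
      simp [O]
    rw [this]
    refine isOpen_biUnion fun t _ => ?_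
    exact isOpen_lt (by fun_prop) continuous_const
  have hOd : ∀ jn, Dense (O jn) := by
    intro jn
    rw [Metric.dense_iff]
    intro e r hr
    obtain ⟨s, hs0, hs1, t, ht, hlt⟩ := exists_small_second_diff e (d jn.1)
      (c := 1 / (jn.2 + 1 : ℝ)) (δ := r / (‖d jn.1‖ + 1)) (by positivity) (by positivity)
    refine ⟨e + s • d jn.1, ?_, t, ht, hlt⟩
    rw [mem_ball, dist_eq_norm, add_sub_cancel_left, norm_smul, Real.norm_of_nonneg hs0.le]
    rw [lt_div_iff₀ (by positivity)] at hs1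
    nlinarith [norm_nonneg (d jn.1)]
  have hD := dense_iInter_of_isOpen hO hOd
  refine hD.mono ?_
  intro e he v η hη
  rw [mem_iInter] at he
  obtain ⟨j, hj⟩ : ∃ j, ‖v - d j‖ < η / 4 := by
    obtain ⟨j, hj⟩ := hd.exists_dist_lt v (show 0 < η / 4 by positivity)
    exact ⟨j, by rwa [← dist_eq_norm]⟩
  obtain ⟨n, hn⟩ := exists_nat_one_div_lt (show 0 < η / 2 by positivity)
  obtain ⟨t, ht, hlt⟩ := he (j, n)
  refine ⟨t, ht, ?_⟩
  have h1 : ‖e + t • v‖ ≤ ‖e + t • d j‖ + t * ‖v - d j‖ := by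
    have : e + t • v = (e + t • d j) + t • (v - d j) := by module
    rw [this]
    refine (norm_add_le _ _).trans ?_
    rw [norm_smul, Real.norm_of_nonneg ht.le]
  have h2 : ‖e - t • v‖ ≤ ‖e - t • d j‖ + t * ‖v - d j‖ := by
    have : e - t • v = (e - t • d j) - t • (v - d j) := by module
    rw [this]
    refine (norm_sub_le _ _).trans ?_
    rw [norm_smul, Real.norm_of_nonneg ht.le]
  simp only at hlt
  have h3 : 1 / ((n : ℝ) + 1) * t ≤ η / 2 * t := by gcongr
  have h4 : t * ‖v - d j‖ < t * (η / 4) := by gcongr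
  linarith

/-- A unit vector close to the direction of `y`, together with its norming functional, which is
the derivative of the norm at infinity in that direction. -/
lemma exists_direction [CompleteSpace X] [SeparableSpace X] {y : X} (hy : y ≠ 0) :
    ∃ (e : X) (p : X →L[ℝ] ℝ), ‖e‖ = 1 ∧ ‖p‖ ≤ 1 ∧ p e = 1 ∧ ‖y‖ / 2 ≤ p y ∧
      ∀ v : X, ∀ η : ℝ, 0 < η → ∃ R0 : ℝ, ∀ R : ℝ, R0 ≤ R → ‖R • e + v‖ < R + p v + η := by
  have hy' : 0 < ‖y‖ := norm_pos_iff.2 hy
  obtain ⟨e0, he0s, he0⟩ := dense_smooth.exists_dist_lt (‖y‖⁻¹ • y) (show (0 : ℝ) < 1 / 4 by norm_num)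
  rw [dist_eq_norm] at he0
  have hu : ‖‖y‖⁻¹ • y‖ = 1 := by
    rw [norm_smul, norm_inv, norm_norm, inv_mul_cancel₀ hy'.ne']
  have hne : |1 - ‖e0‖| < 1 / 4 := by
    have := (abs_norm_sub_norm_le (‖y‖⁻¹ • y) e0).trans_lt he0
    rwa [hu] at this
  rw [abs_lt] at hne
  have he0' : 0 < ‖e0‖ := by linarith
  set e : X := ‖e0‖⁻¹ • e0 with he
  have hes : Smooth e := Smooth.smul he0s (by positivity)
  have hen : ‖e‖ = 1 := by
    rw [he, norm_smul, norm_inv, norm_norm, inv_mul_cancel₀ he0'.ne']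
  have hee : ‖e0 - e‖ < 1 / 4 := by
    have : e0 - e = (‖e0‖ - 1) • e := by
      rw [sub_smul, one_smul, he, smul_smul, mul_inv_cancel₀ he0'.ne', one_smul]
    rw [this, norm_smul, hen, mul_one, Real.norm_eq_abs, abs_lt]
    constructor <;> linarith
  have hclose : ‖‖y‖⁻¹ • y - e‖ < 1 / 2 := by
    calc ‖‖y‖⁻¹ • y - e‖ = ‖(‖y‖⁻¹ • y - e0) + (e0 - e)‖ := by congr 1; abel
      _ ≤ _ := norm_add_le _ _
      _ < 1 / 2 := by linarith
  clear_value e
  obtain ⟨p, hp1, hp2⟩ := exists_dual_vector'' ℝ e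
  have hpe : p e = 1 := by rw [hp2, hen]; simp
  have hple : ∀ z, p z ≤ ‖z‖ := fun z => by
    calc p z ≤ ‖p z‖ := le_abs_self _
      _ ≤ ‖p‖ * ‖z‖ := p.le_opNorm _
      _ ≤ 1 * ‖z‖ := by gcongr
      _ = ‖z‖ := one_mul _
  refine ⟨e, p, hen, hp1, hpe, ?_, ?_⟩
  · have h1 := hple (e - ‖y‖⁻¹ • y)
    rw [norm_sub_rev] at h1
    rw [map_sub, map_smul, hpe, smul_eq_mul] at h1
    have h2 : 1 / 2 < ‖y‖⁻¹ * p y := by linarith
    have h3 : ‖y‖ * (1 / 2) < ‖y‖ * (‖y‖⁻¹ * p y) := by gcongr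
    rw [← mul_assoc, mul_inv_cancel₀ hy'.ne', one_mul] at h3
    linarith
  · intro v η hη
    obtain ⟨t, ht, hlt⟩ := hes v η hη
    refine ⟨1 / t, fun R hR => ?_⟩
    have h1 := hple (e - t • v)
    rw [map_sub, map_smul, hpe, smul_eq_mul] at h1
    rw [hen] at hlt
    have h2 : ‖e + t • v‖ < 1 + t * p v + η * t := by linarith
    have h3 : ‖(1 / t) • e + v‖ < 1 / t + p v + η := by
      have : (1 / t) • e + v = (1 / t) • (e + t • v) := by
        rw [smul_add, smul_smul, one_div_mul_cancel ht.ne', one_smul]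
      rw [this, norm_smul, Real.norm_of_nonneg (by positivity)]
      calc 1 / t * ‖e + t • v‖ < 1 / t * (1 + t * p v + η * t) := by gcongr
        _ = 1 / t + p v + η := by field_simp
    have h4 : R • e + v = (R - 1 / t) • e + ((1 / t) • e + v) := by module
    rw [h4]
    calc ‖(R - 1 / t) • e + ((1 / t) • e + v)‖ ≤ ‖(R - 1 / t) • e‖ + ‖(1 / t) • e + v‖ := norm_add_le _ _
      _ = (R - 1 / t) + ‖(1 / t) • e + v‖ := by
          rw [norm_smul, hen, mul_one, Real.norm_of_nonneg (by linarith)]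
      _ < R + p v + η := by linarith

/-- The two functionals attached to a point `x` near `0` whose image is far from `0`. -/
lemma key [CompleteSpace X] [SeparableSpace X] {T : X ≃ X} (hT : Step T) (h0 : T 0 = 0)
    {x : X} (hx : ‖x‖ ≤ 1) {c : ℝ} (hc : 0 < c) (hc1 : c ≤ 1 / 2) (hy : 2 * c ≤ ‖T x‖) :
    ∃ p q : X →L[ℝ] ℝ, ‖p‖ ≤ 1 ∧ (∀ v, p (T v) < c → q v ≤ ‖x‖) ∧ 1 / 2 ≤ ‖q‖ := by
  have hy0 : T x ≠ 0 := by
    rw [← norm_pos_iff]; linarith
  obtain ⟨e, p, he, hp, hpe, hpy, hlim⟩ := exists_direction hy0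
  have hple : ∀ z, p z ≤ ‖z‖ := fun z => by
    calc p z ≤ ‖p z‖ := le_abs_self _
      _ ≤ ‖p‖ * ‖z‖ := p.le_opNorm _
      _ ≤ 1 * ‖z‖ := by gcongr
      _ = ‖z‖ := one_mul _
  let z : ℕ → X := fun m => T.symm (-(((m : ℝ) - c) • e))
  have hTz : ∀ m, T (z m) = -(((m : ℝ) - c) • e) := fun m => by simp [z]
  have hxz : ∀ m : ℕ, (m : ℝ) ≤ ‖x - z m‖ := by
    intro m
    by_contra hcon
    push Not at hcon
    have h1 := (hT m x (z m)).1 hcon
    rw [hTz, sub_neg_eq_add] at h1
    have h2 := hple (T x + ((m : ℝ) - c) • e)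
    rw [map_add, map_smul, hpe, smul_eq_mul, mul_one] at h2
    linarith
  have hF : ∀ m : ℕ, ∃ f : X →L[ℝ] ℝ, ‖f‖ ≤ 1 ∧ f (x - z m) = ‖x - z m‖ := by
    intro m
    obtain ⟨f, hf1, hf2⟩ := exists_dual_vector'' ℝ (x - z m)
    exact ⟨f, hf1, by rw [hf2]; simp⟩
  choose f hf1 hf2 using hF
  have hfle : ∀ m z, f m z ≤ ‖z‖ := fun m z => by
    calc f m z ≤ ‖f m z‖ := le_abs_self _
      _ ≤ ‖f m‖ * ‖z‖ := (f m).le_opNorm _
      _ ≤ 1 * ‖z‖ := by gcongr; exact hf1 m
      _ = ‖z‖ := one_mul _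
  obtain ⟨q, hq1, hq2⟩ := ultralimit (hyperfilter ℕ) f hf1
  have hev : ∀ N : ℕ, ∀ᶠ m in (hyperfilter ℕ : Filter ℕ), N ≤ m := by
    intro N
    exact Filter.Eventually.filter_mono (Nat.hyperfilter_le_atTop) (eventually_ge_atTop N)
  refine ⟨p, q, hp, ?_, ?_⟩
  · intro v hv
    obtain ⟨R0, hR0⟩ := hlim (T v) (c - p (T v)) (by linarith)
    obtain ⟨N, hN⟩ := exists_nat_ge (R0 + c)
    refine le_of_tendsto (hq2 v) ?_
    filter_upwards [hev N] with m hm
    have hm' : (N : ℝ) ≤ m := by exact_mod_cast hm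
    have h1 := hR0 ((m : ℝ) - c) (by linarith)
    have h2 : ‖v - z m‖ < m := by
      rw [hT m v (z m), hTz, sub_neg_eq_add, add_comm]
      linarith
    have h3 := hfle m (v - z m)
    have h4 := hf2 m
    have h5 := hxz m
    have h6 := hfle m x
    rw [map_sub] at h3 h4
    linarith
  · have hz4 : ‖z 4‖ < 4 := by
      have := (hT 4 (z 4) 0).2 (by
        rw [hTz, h0, sub_zero, norm_neg, norm_smul, he, mul_one]
        push_cast
        rw [Real.norm_of_nonneg (by linarith)]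
        linarith)
      simpa using this
    have h2 : 2 ≤ q (-(z 4)) := by
      refine ge_of_tendsto (hq2 _) ?_
      filter_upwards [hev 4] with m hm
      have hm' : (4 : ℝ) ≤ m := by exact_mod_cast hm
      have h1 : ‖z m - z 4‖ < (m : ℝ) - 3 := by
        have h3 : ((m - 3 : ℕ) : ℝ) = (m : ℝ) - 3 := by
          rw [Nat.cast_sub (by omega)]; simp
        rw [← h3, hT, hTz, hTz]
        have e1 : -(((m : ℝ) - c) • e) - -((((4 : ℕ) : ℝ) - c) • e) = -(((m : ℝ) - 4) • e) := by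
          push_cast
          module
        rw [e1, norm_neg, norm_smul, he, mul_one, Real.norm_of_nonneg (by linarith), h3]
        linarith
      have h3 := hfle m (z 4 - z m)
      rw [norm_sub_rev] at h3
      have h4 := hf2 m
      have h5 := hxz m
      have h6 := hfle m x
      rw [map_sub] at h3 h4
      rw [map_neg]
      linarith
    have h3 : q (-(z 4)) ≤ ‖q‖ * ‖z 4‖ := by
      calc q (-(z 4)) ≤ ‖q (-(z 4))‖ := le_abs_self _
        _ ≤ ‖q‖ * ‖-(z 4)‖ := q.le_opNorm _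
        _ = ‖q‖ * ‖z 4‖ := by rw [norm_neg]
    nlinarith [norm_nonneg q, norm_nonneg (z 4)]

/-- The separable case. -/
lemma separable_case [CompleteSpace X] [SeparableSpace X] {T : X ≃ X} (hT : Step T) (h0 : T 0 = 0)
    {x : ℕ → X} (hx : Tendsto x atTop (𝓝 0)) {c : ℝ} (hc : 0 < c)
    (hy : ∀ n, 2 * c ≤ ‖T (x n)‖) : False := by
  wlog hc1 : c ≤ 1 / 2 generalizing c
  · exact this (c := 1 / 2) (by norm_num) (fun n => by have := hy n; linarith [not_le.1 hc1]) le_rfl
  wlog hx1 : ∀ n, ‖x n‖ ≤ 1 generalizing x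
  · have h1 : Tendsto (fun n => ‖x n‖) atTop (𝓝 0) := by simpa using hx.norm
    obtain ⟨N, hN⟩ := eventually_atTop.1 (h1.eventually (ge_mem_nhds (show (0 : ℝ) < 1 by norm_num)))
    exact this (x := fun n => x (n + N)) ((tendsto_add_atTop_iff_nat N).2 hx)
      (fun n => hy _) (fun n => hN _ (by omega))
  have hxpos : ∀ n, 0 < ‖x n‖ := by
    intro n
    rw [norm_pos_iff]
    intro h
    have := hy n
    rw [h, h0, norm_zero] at this
    linarith
  choose p q hp hpq hq using fun n => key hT h0 (hx1 n) hc hc1 (hy n)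
  -- Banach-Steinhaus
  obtain ⟨u, hu⟩ : ∃ u : X, ∀ C : ℝ, ∃ n, C * ‖x n‖ < q n u := by
    by_contra hcon
    push Not at hcon
    obtain ⟨C, hC⟩ := banach_steinhaus (g := fun n => (‖x n‖)⁻¹ • q n) (by
      intro u
      obtain ⟨C1, hC1⟩ := hcon u
      obtain ⟨C2, hC2⟩ := hcon (-u)
      refine ⟨max C1 C2, fun n => ?_⟩
      have h1 := hC1 n
      have h2 := hC2 n
      rw [map_neg] at h2
      have h3 := hxpos n
      have h4 : |q n u| ≤ max C1 C2 * ‖x n‖ := by
        rw [abs_le]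
        have h5 : C1 * ‖x n‖ ≤ max C1 C2 * ‖x n‖ := by gcongr; exact le_max_left _ _
        have h6 : C2 * ‖x n‖ ≤ max C1 C2 * ‖x n‖ := by gcongr; exact le_max_right _ _
        constructor <;> linarith
      simp only [smul_apply, smul_eq_mul, norm_mul, norm_inv, norm_norm]
      rw [inv_mul_le_iff₀ h3, mul_comm]
      exact h4)
    have h1 : Tendsto (fun n => C * ‖x n‖) atTop (𝓝 0) := by
      have := hx.norm.const_mul C
      simpa using this
    obtain ⟨n, hn⟩ := (h1.eventually (gt_mem_nhds (show (0 : ℝ) < 1 / 2 by norm_num))).exists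
    have h2 := hC n
    simp only [norm_smul, norm_inv, norm_norm] at h2
    rw [inv_mul_le_iff₀ (hxpos n), mul_comm] at h2
    have h3 := hq n
    linarith
  choose n hn using fun l : ℕ => hu (l : ℝ)
  obtain ⟨P, hP1, hP2⟩ := ultralimit (hyperfilter ℕ) (fun l => p (n l)) (fun l => hp _)
  have hlow : ∀ k : ℕ, c ≤ P (T ((1 / ((k : ℝ) + 1)) • u)) := by
    intro k
    refine ge_of_tendsto (hP2 _) ?_
    filter_upwards [Filter.Eventually.filter_mono (Nat.hyperfilter_le_atTop)
      (eventually_ge_atTop (k + 1))] with l hl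
    by_contra hcon
    push Not at hcon
    have h1 := hpq _ _ hcon
    rw [map_smul, smul_eq_mul, div_mul_eq_mul_div, one_mul, div_le_iff₀ (by positivity)] at h1
    have h2 := hn l
    have h3 : ((k : ℝ) + 1) ≤ l := by exact_mod_cast hl
    have h4 := hxpos (n l)
    nlinarith
  have hlim : Tendsto (fun k : ℕ => (1 / ((k : ℝ) + 1)) • u) atTop (𝓝 0) := by
    have := (tendsto_one_div_add_atTop_nhds_zero_nat (𝕜 := ℝ)).smul_const u
    simpa using this
  have h1 := weak hT hlim P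
  rw [h0, map_zero] at h1
  have := ge_of_tendsto' h1 hlow
  linarith

/-- A point of `X` which is a weak limit of points of a subspace lies in its closure. -/
lemma mem_closure_of_weak {Y : Submodule ℝ X} {ι : Type*} {l : Filter ι} [l.NeBot] {y : ι → X}
    {z : X} (hy : ∀ i, y i ∈ Y) (hz : ∀ f : X →L[ℝ] ℝ, Tendsto (fun i => f (y i)) l (𝓝 (f z))) :
    z ∈ Y.topologicalClosure := by
  by_contra hcon
  obtain ⟨f, u, hf1, hf2⟩ := geometric_hahn_banach_closed_point
    (s := (Y.topologicalClosure : Set X)) Y.topologicalClosure.convex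
    Y.isClosed_topologicalClosure hcon
  have hzero : ∀ a ∈ Y.topologicalClosure, f a = 0 := by
    intro a ha
    by_contra hne
    have h1 := hf1 _ (Y.topologicalClosure.smul_mem ((u + 1) / f a) ha)
    rw [map_smul, smul_eq_mul, div_mul_cancel₀ _ hne] at h1
    linarith
  have h0 : f z = 0 := by
    refine tendsto_nhds_unique (hz f) ?_
    have : (fun i => f (y i)) = fun _ => 0 := by
      funext i
      exact hzero _ (Y.le_topologicalClosure (hy i))
    rw [this]
    exact tendsto_const_nhds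
  have h1 := hf1 0 (Submodule.zero_mem _)
  rw [map_zero] at h1
  rw [h0] at hf2
  linarith

/-- Images of separable sets under step-isometries are separable. -/
lemma isSeparable_image {T : X ≃ X} (hT : Step T) {S : Set X} (hS : IsSeparable S) :
    IsSeparable (T '' S) := by
  obtain ⟨D, hD, hSD⟩ := hS
  have h1 : IsSeparable ((Submodule.span ℝ (T '' D)).topologicalClosure : Set X) := by
    rw [Submodule.topologicalClosure_coe]
    exact ((hD.image T).isSeparable.span (R := ℝ)).closure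
  refine h1.mono ?_
  rintro _ ⟨s, hs, rfl⟩
  obtain ⟨d, hd, hlim⟩ := mem_closure_iff_seq_limit.1 (hSD hs)
  exact mem_closure_of_weak (fun n => Submodule.subset_span ⟨d n, hd n, rfl⟩)
    (fun f => weak hT hlim f)

/-- Every separable set is contained in an invariant closed separable subspace. -/
lemma exists_invariant {T : X ≃ X} (hT : Step T) {S : Set X} (hS : IsSeparable S) :
    ∃ Y : Submodule ℝ X, IsClosed (Y : Set X) ∧ IsSeparable (Y : Set X) ∧ S ⊆ Y ∧
      ∀ a, a ∈ Y ↔ T a ∈ Y := by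
  let F : Submodule ℝ X → Submodule ℝ X := fun Z =>
    Submodule.span ℝ ((Z : Set X) ∪ T '' Z ∪ T.symm '' Z)
  let Z : ℕ → Submodule ℝ X := fun k => F^[k] (Submodule.span ℝ S)
  have hZs : ∀ k, Z (k + 1) = F (Z k) := fun k => Function.iterate_succ_apply' _ _ _
  have hsep : ∀ k, IsSeparable (Z k : Set X) := by
    intro k
    induction k with
    | zero => exact hS.span (R := ℝ)
    | succ k ih =>
      rw [hZs]
      exact ((ih.union (isSeparable_image hT ih)).union (isSeparable_image hT.symm ih)).span (R := ℝ)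
  have hmono : Monotone Z := by
    refine monotone_nat_of_le_succ fun k => ?_
    rw [hZs]
    intro z hz
    exact Submodule.subset_span (Or.inl (Or.inl hz))
  have hZT : ∀ k, ∀ z ∈ Z k, T z ∈ Z (k + 1) := by
    intro k z hz
    rw [hZs]
    exact Submodule.subset_span (Or.inl (Or.inr ⟨z, hz, rfl⟩))
  have hZT' : ∀ k, ∀ z ∈ Z k, T.symm z ∈ Z (k + 1) := by
    intro k z hz
    rw [hZs]
    exact Submodule.subset_span (Or.inr ⟨z, hz, rfl⟩)
  let W : Submodule ℝ X := ⨆ k, Z k
  have hW : ∀ z, z ∈ W ↔ ∃ k, z ∈ Z k := fun z =>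
    Submodule.mem_iSup_of_directed Z hmono.directed_le
  have hWsep : IsSeparable (W : Set X) := by
    have : (W : Set X) = ⋃ k, (Z k : Set X) := by
      ext z
      simp only [SetLike.mem_coe, hW, mem_iUnion]
    rw [this]
    exact IsSeparable.iUnion hsep
  have inv : ∀ {T' : X ≃ X}, Step T' → (∀ w ∈ W, T' w ∈ W) →
      ∀ a ∈ W.topologicalClosure, T' a ∈ W.topologicalClosure := by
    intro T' hT' hw a ha
    rw [← SetLike.mem_coe, Submodule.topologicalClosure_coe] at ha
    obtain ⟨d, hd, hlim⟩ := mem_closure_iff_seq_limit.1 ha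
    exact mem_closure_of_weak (fun n => hw _ (hd n)) (fun f => weak hT' hlim f)
  refine ⟨W.topologicalClosure, W.isClosed_topologicalClosure, ?_, ?_, fun a => ⟨?_, ?_⟩⟩
  · rw [Submodule.topologicalClosure_coe]
    exact hWsep.closure
  · intro s hs
    refine W.le_topologicalClosure ((hW s).2 ⟨0, Submodule.subset_span hs⟩)
  · exact inv hT (fun w hw => by
      obtain ⟨k, hk⟩ := (hW w).1 hw
      exact (hW _).2 ⟨k + 1, hZT k w hk⟩) a
  · intro ha
    have := inv hT.symm (fun w hw => by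
      obtain ⟨k, hk⟩ := (hW w).1 hw
      exact (hW _).2 ⟨k + 1, hZT' k w hk⟩) _ ha
    simpa using this

/-- Every step-isometry of a Banach space fixing `0` is continuous at `0`. -/
lemma general_case [CompleteSpace X] {T : X ≃ X} (hT : Step T) (h0 : T 0 = 0)
    {x : ℕ → X} (hx : Tendsto x atTop (𝓝 0)) {c : ℝ} (hc : 0 < c)
    (hy : ∀ n, 2 * c ≤ ‖T (x n)‖) : False := by
  obtain ⟨Y, hYc, hYs, hSY, hinv⟩ := exists_invariant hT (S := range x)
    (Set.countable_range x).isSeparable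
  haveI : CompleteSpace Y := hYc.completeSpace_coe
  haveI : SeparableSpace Y := hYs.separableSpace
  let T' : Y ≃ Y := T.subtypeEquiv hinv
  have hT'c : ∀ a : Y, ((T' a : Y) : X) = T a := fun a => rfl
  have hT' : Step T' := by
    intro k a b
    have := hT k a b
    rw [← hT'c, ← hT'c] at this
    simpa only [← Submodule.coe_sub, Submodule.coe_norm] using this
  have h0' : T' 0 = 0 := by
    apply Subtype.ext
    rw [hT'c]
    simpa using h0
  let x' : ℕ → Y := fun n => ⟨x n, hSY ⟨n, rfl⟩⟩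
  have hx' : Tendsto x' atTop (𝓝 0) := by
    rw [tendsto_subtype_rng]
    simpa [x'] using hx
  refine separable_case hT' h0' hx' hc fun n => ?_
  show 2 * c ≤ ‖((T' (x' n) : Y) : X)‖
  rw [hT'c]
  exact hy n

/-- Every step-isometry of a Banach space is continuous. -/
theorem continuous_of_step [CompleteSpace X] {T : X ≃ X} (hT : Step T) : Continuous T := by
  rw [Metric.continuous_iff]
  by_contra hcon
  push Not at hcon
  obtain ⟨a, ε, hε, h⟩ := hcon
  choose b hb1 hb2 using fun n : ℕ => h (1 / ((n : ℝ) + 1)) (by positivity)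
  -- translate
  let T' : X ≃ X := ((Equiv.addLeft a).trans T).trans (Equiv.subRight (T a))
  have hT'c : ∀ v, T' v = T (a + v) - T a := fun v => rfl
  have hT' : Step T' := by
    intro k u v
    rw [hT'c, hT'c, sub_sub_sub_cancel_right, ← hT, add_sub_add_left_eq_sub]
  have h0' : T' 0 = 0 := by simp [hT'c]
  have hlim : Tendsto (fun n => b n - a) atTop (𝓝 0) := by
    rw [tendsto_zero_iff_norm_tendsto_zero]
    refine squeeze_zero (fun n => norm_nonneg _) (fun n => ?_)
      (tendsto_one_div_add_atTop_nhds_zero_nat (𝕜 := ℝ))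
    rw [← dist_eq_norm]
    exact (hb1 n).le
  refine general_case hT' h0' hlim (c := ε / 2) (by positivity) fun n => ?_
  have := hb2 n
  rw [dist_eq_norm] at this
  rw [hT'c, add_sub_cancel]
  linarith

/-- The floor formulation. -/
theorem continuous_of_floor [CompleteSpace X] {T : X ≃ X}
    (hT : ∀ x y : X, ⌊‖x - y‖⌋ = ⌊‖T x - T y‖⌋) : Continuous T := by
  refine continuous_of_step fun k x y => ?_
  have h1 := hT x y
  constructor
  · intro h
    have : ⌊‖x - y‖⌋ < (k : ℤ) := by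
      rw [Int.floor_lt]; exact_mod_cast h
    rw [h1, Int.floor_lt] at this
    exact_mod_cast this
  · intro h
    have : ⌊‖T x - T y‖⌋ < (k : ℤ) := by
      rw [Int.floor_lt]; exact_mod_cast h
    rw [← h1, Int.floor_lt] at this
    exact_mod_cast this

end StepIso
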