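import Mathlib

open Set Filter Topology

namespace Pool.Agent.V1199.Assouad

/-- The Euclidean plane. -/
abbrev Pl := EuclideanSpace ℝ (Fin 2)

/-- `N_r(E) ≤ M`: every finite family of pairwise disjoint closed balls of radius `r` centred in
`E` has at most `M` members. -/
def PackLe (E : Set Pl) (r M : ℝ) : Prop :=
  ∀ S : Finset Pl, (S : Set Pl) ⊆ E →
    ((S : Set Pl).PairwiseDisjoint fun p => Metric.closedBall p r) → (S.card : ℝ) ≤ M

/-- The Assouad dimension. -/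
noncomputable def dimA (F : Set Pl) : ℝ :=
  sInf {β : ℝ | ∃ C : ℝ, 0 < C ∧ ∀ r R : ℝ, 0 < r → r < R → ∀ x ∈ F,
    PackLe (Metric.ball x R ∩ F) r (C * (R / r) ^ β)}

/-- The Assouad spectrum. -/
noncomputable def dimSpec (θ : ℝ) (F : Set Pl) : ℝ :=
  sInf {β : ℝ | ∃ C : ℝ, 0 < C ∧ ∀ r : ℝ, 0 < r → r < 1 → ∀ x ∈ F,
    PackLe (Metric.ball x (r ^ θ) ∩ F) r (C * (r ^ (θ - 1)) ^ β)}

theorem far_of_disjoint {p q : Pl} {r : ℝ} (hd : Disjoint (Metric.closedBall p r)
    (Metric.closedBall q r)) : 2 * r < dist p q := by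
  by_contra h
  push Not at h
  rw [Set.disjoint_left] at hd
  refine hd (a := midpoint ℝ p q) ?_ ?_
  · rw [Metric.mem_closedBall, dist_midpoint_left]
    simp only [Real.norm_ofNat]
    linarith
  · rw [Metric.mem_closedBall, dist_midpoint_right]
    simp only [Real.norm_ofNat]
    linarith

theorem close_of_cell {p q : Pl} {r : ℝ} (hr : 0 < r) (h0 : ⌊p 0 / r⌋ = ⌊q 0 / r⌋)
    (h1 : ⌊p 1 / r⌋ = ⌊q 1 / r⌋) : dist p q ≤ 2 * r := by
  have key : ∀ a b : ℝ, ⌊a / r⌋ = ⌊b / r⌋ → |a - b| ≤ r := by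
    intro a b h
    have e1 := Int.floor_le (a / r)
    have e2 := Int.lt_floor_add_one (a / r)
    have e3 := Int.floor_le (b / r)
    have e4 := Int.lt_floor_add_one (b / r)
    rw [h] at e1 e2
    have e5 : |a / r - b / r| ≤ 1 := by
      rw [abs_le]; constructor <;> linarith
    rw [← sub_div, abs_div, abs_of_pos hr, div_le_one hr] at e5
    exact e5
  have h2 := key _ _ h0
  have h3 := key _ _ h1
  rw [EuclideanSpace.dist_eq, Fin.sum_univ_two, Real.dist_eq, Real.dist_eq]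
  refine Real.sqrt_le_iff.mpr ⟨by positivity, ?_⟩
  nlinarith [abs_nonneg (p 0 - q 0), abs_nonneg (p 1 - q 1)]

theorem int_card {T : Finset ℤ} {D : ℝ} (hD : 0 ≤ D) (h : ∀ a ∈ T, ∀ b ∈ T, (a : ℝ) - b ≤ D) :
    (T.card : ℝ) ≤ D + 1 := by
  rcases T.eq_empty_or_nonempty with rfl | hne
  · simp; linarith
  · have h1 : T ⊆ Finset.Icc (T.min' hne) (T.max' hne) := fun x hx =>
      Finset.mem_Icc.mpr ⟨T.min'_le x hx, T.le_max' x hx⟩
    have h2 := Finset.card_le_card h1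
    rw [Int.card_Icc] at h2
    have h3 := h _ (T.max'_mem hne) _ (T.min'_mem hne)
    have h4 : (T.min' hne) ≤ (T.max' hne) := T.min'_le _ (T.max'_mem hne)
    have h5 : ((T.max' hne + 1 - T.min' hne).toNat : ℤ) = T.max' hne + 1 - T.min' hne :=
      Int.toNat_of_nonneg (by omega)
    have h6 : (T.card : ℝ) ≤ ((T.max' hne + 1 - T.min' hne).toNat : ℤ) := by exact_mod_cast h2
    rw [h5] at h6
    push_cast at h6
    linarith

/-- The floors of a finite set of numbers of small diameter. -/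
theorem floor_card {ι : Type*} (A : Finset ι) (g : ι → ℝ) {r D : ℝ} (hr : 0 < r) (hD : 0 ≤ D)
    (h : ∀ a ∈ A, ∀ b ∈ A, g a - g b ≤ D) :
    ((A.image fun a => ⌊g a / r⌋).card : ℝ) ≤ D / r + 2 := by
  have := int_card (T := A.image fun a => ⌊g a / r⌋) (D := D / r + 1) (by positivity) (by
    intro a ha b hb
    obtain ⟨p, hp, rfl⟩ := Finset.mem_image.mp ha
    obtain ⟨q, hq, rfl⟩ := Finset.mem_image.mp hb
    have e1 := Int.floor_le (g p / r)
    have e2 := Int.lt_floor_add_one (g q / r)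
    have e3 : g p / r - g q / r ≤ D / r := by
      rw [← sub_div]; exact div_le_div_of_nonneg_right (h p hp q hq) hr.le
    linarith)
  linarith

/-- The main counting lemma. -/
theorem count {S : Finset Pl} {r s D : ℝ} (hr : 0 < r) (hs : 0 ≤ s) (hD : 0 ≤ D)
    (hS : (S : Set Pl).PairwiseDisjoint fun p => Metric.closedBall p r) (T : Finset ℝ)
    (hT : ∀ p ∈ S, ∃ t ∈ T, t ≤ p 0 ∧ p 0 ≤ t + s)
    (hcol : ∀ p ∈ S, ∀ q ∈ S, |p 0 - q 0| ≤ r → p 1 - q 1 ≤ D) :
    (S.card : ℝ) ≤ T.card * (s / r + 2) * (D / r + 2) := by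
  classical
  let Cols : Finset ℤ := S.image fun p => ⌊p 0 / r⌋
  have hcols : (Cols.card : ℝ) ≤ T.card * (s / r + 2) := by
    have h1 : Cols ⊆ T.biUnion fun t =>
        (S.filter fun p => t ≤ p 0 ∧ p 0 ≤ t + s).image fun p => ⌊p 0 / r⌋ := by
      intro i hi
      obtain ⟨p, hp, rfl⟩ := Finset.mem_image.mp hi
      obtain ⟨t, ht, h1, h2⟩ := hT p hp
      rw [Finset.mem_biUnion]
      exact ⟨t, ht, Finset.mem_image_of_mem _ (Finset.mem_filter.mpr ⟨hp, h1, h2⟩)⟩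
    have h2 := (Finset.card_le_card h1).trans Finset.card_biUnion_le
    have h3 : (Cols.card : ℝ) ≤ ∑ t ∈ T,
        (((S.filter fun p => t ≤ p 0 ∧ p 0 ≤ t + s).image fun p => ⌊p 0 / r⌋).card : ℝ) := by
      exact_mod_cast h2
    refine h3.trans ?_
    rw [← nsmul_eq_mul, ← Finset.sum_const]
    refine Finset.sum_le_sum fun t _ => floor_card _ _ hr hs ?_
    intro a ha b hb
    have e1 := (Finset.mem_filter.mp ha).2
    have e2 := (Finset.mem_filter.mp hb).2
    linarith [e1.2, e2.1]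
  have hfib : ∀ i ∈ Cols, ((S.filter fun p => ⌊p 0 / r⌋ = i).card : ℝ) ≤ D / r + 2 := by
    intro i _
    have hinj : Set.InjOn (fun p : Pl => ⌊p 1 / r⌋)
        (S.filter fun p => ⌊p 0 / r⌋ = i : Finset Pl) := by
      intro p hp q hq hpq
      have hp' := Finset.mem_filter.mp hp
      have hq' := Finset.mem_filter.mp hq
      by_contra hne
      have h1 := far_of_disjoint (hS hp'.1 hq'.1 hne)
      have h2 := close_of_cell hr (hp'.2.trans hq'.2.symm) hpq
      linarith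
    rw [← Finset.card_image_of_injOn hinj]
    refine floor_card _ _ hr hD ?_
    intro p hp q hq
    have hp' := Finset.mem_filter.mp hp
    have hq' := Finset.mem_filter.mp hq
    refine hcol p hp'.1 q hq'.1 ?_
    have h := hp'.2.trans hq'.2.symm
    have e1 := Int.floor_le (p 0 / r)
    have e2 := Int.lt_floor_add_one (p 0 / r)
    have e3 := Int.floor_le (q 0 / r)
    have e4 := Int.lt_floor_add_one (q 0 / r)
    rw [h] at e1 e2
    have e5 : |p 0 / r - q 0 / r| ≤ 1 := by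
      rw [abs_le]; constructor <;> linarith
    rw [← sub_div, abs_div, abs_of_pos hr, div_le_one hr] at e5
    exact e5
  have h4 : (S.card : ℝ) = ∑ i ∈ Cols, ((S.filter fun p => ⌊p 0 / r⌋ = i).card : ℝ) := by
    have := Finset.card_eq_sum_card_fiberwise (f := fun p : Pl => ⌊p 0 / r⌋) (s := S) (t := Cols)
      (fun p hp => Finset.mem_image_of_mem _ hp)
    exact_mod_cast this
  rw [h4]
  refine (Finset.sum_le_sum hfib).trans ?_
  rw [Finset.sum_const, nsmul_eq_mul]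
  exact mul_le_mul_of_nonneg_right hcols (by positivity)

/-- A cell of a `b`-adic subdivision containing a given point. -/
theorem exists_cell {a s x : ℝ} {b : ℕ} (hb : 0 < b) (hs : 0 < s) (h1 : a ≤ x) (h2 : x ≤ a + s) :
    ∃ j : ℕ, j < b ∧ a + j * (s / b) ≤ x ∧ x ≤ a + (j + 1) * (s / b) := by
  have hb' : (0 : ℝ) < b := by exact_mod_cast hb
  have hsb : 0 < s / b := by positivity
  have hnn : 0 ≤ (x - a) / (s / b) := div_nonneg (by linarith) hsb.le
  by_cases h : ⌊(x - a) / (s / b)⌋₊ < b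
  · refine ⟨_, h, ?_, ?_⟩
    · have := Nat.floor_le hnn
      rw [le_div_iff₀ hsb] at this
      linarith
    · have := (Nat.lt_floor_add_one ((x - a) / (s / b))).le
      rw [div_le_iff₀ hsb] at this
      linarith
  · push Not at h
    have h3 : (b : ℝ) ≤ (x - a) / (s / b) := (Nat.le_floor_iff hnn).mp h
    rw [le_div_iff₀ hsb] at h3
    have h4 : (b : ℝ) * (s / b) = s := by field_simp
    rw [h4] at h3
    refine ⟨b - 1, by omega, ?_, ?_⟩
    · rw [Nat.cast_sub (by omega)]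
      push_cast
      have : ((b : ℝ) - 1) * (s / b) = s - s / b := by field_simp
      rw [this]
      linarith
    · rw [Nat.cast_sub (by omega)]
      push_cast
      have : ((b : ℝ) - 1 + 1) * (s / b) = s := by rw [sub_add_cancel, h4]
      rw [this]; exact h2

/-- Covering of a porous set. -/
theorem porous_cover {L : Set ℝ} {b : ℕ} (hb : 2 ≤ b) {ℓ : ℝ} (hℓ : 0 < ℓ)
    (hP : ∀ a s : ℝ, ℓ ≤ s → ∃ j : ℕ, j < b ∧ ∀ x ∈ L, a + j * (s / b) ≤ x →
      ¬ x ≤ a + (j + 1) * (s / b)) (k : ℕ) :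
    ∀ a s : ℝ, 0 < s → (k = 0 ∨ ℓ ≤ s / b ^ (k - 1)) →
      ∃ T : Finset ℝ, T.card ≤ (b - 1) ^ k ∧
        ∀ x ∈ L, a ≤ x → x ≤ a + s → ∃ t ∈ T, t ≤ x ∧ x ≤ t + s / b ^ k := by
  classical
  induction k with
  | zero =>
    intro a s _ _
    exact ⟨{a}, by simp, fun x _ h1 h2 => ⟨a, Finset.mem_singleton_self a, h1, by simpa using h2⟩⟩
  | succ k ih =>
    intro a s hs hk
    have hb' : (0 : ℝ) < b := by exact_mod_cast (by omega : 0 < b)
    have hk' : ℓ ≤ s / b ^ k := by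
      rcases hk with h | h
      · omega
      · simpa using h
    have hls : ℓ ≤ s := by
      refine hk'.trans (div_le_self hs.le ?_)
      exact one_le_pow₀ (by exact_mod_cast (by omega : 1 ≤ b))
    obtain ⟨j₀, hj₀, hmiss⟩ := hP a s hls
    have hIH : ∀ j : ℕ, ∃ T : Finset ℝ, T.card ≤ (b - 1) ^ k ∧
        ∀ x ∈ L, a + j * (s / b) ≤ x → x ≤ a + j * (s / b) + s / b →
          ∃ t ∈ T, t ≤ x ∧ x ≤ t + s / b / b ^ k := by
      intro j
      refine ih (a + j * (s / b)) (s / b) (by positivity) ?_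
      rcases Nat.eq_zero_or_pos k with h | h
      · exact Or.inl h
      · right
        have : s / b / b ^ (k - 1) = s / b ^ k := by
          rw [div_div, ← pow_succ']
          congr 2
          omega
        rw [this]; exact hk'
    choose T hT1 hT2 using hIH
    refine ⟨((Finset.range b).erase j₀).biUnion T, ?_, ?_⟩
    · refine Finset.card_biUnion_le.trans ?_
      refine (Finset.sum_le_card_nsmul _ _ ((b - 1) ^ k) (fun j _ => hT1 j)).trans ?_
      rw [Finset.card_erase_of_mem (Finset.mem_range.mpr hj₀), Finset.card_range, smul_eq_mul,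
        pow_succ']
    · intro x hx h1 h2
      obtain ⟨j, hj, h3, h4⟩ := exists_cell (b := b) (by omega) hs h1 h2
      have hne : j ≠ j₀ := by
        rintro rfl
        exact hmiss x hx h3 h4
      obtain ⟨t, ht, h5, h6⟩ := hT2 j x hx h3 (by linarith)
      refine ⟨t, Finset.mem_biUnion.mpr ⟨j, Finset.mem_erase.mpr ⟨hne, Finset.mem_range.mpr hj⟩, ht⟩,
        h5, ?_⟩
      rw [pow_succ', ← div_div]
      exact h6

/-- The level sets of an anti-Hölder function are porous. -/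
theorem level_porous {f : ℝ → ℝ} {K c : ℝ} (hK : 0 < K) (hc : 0 < c)
    (hH : ∀ x ∈ Icc (0 : ℝ) 1, ∀ y ∈ Icc (0 : ℝ) 1, |f x - f y| ≤ K * √|x - y|)
    (hL : ∀ a ∈ Icc (0 : ℝ) 1, ∀ b ∈ Icc (0 : ℝ) 1, a < b → ∃ u ∈ Icc a b, ∃ v ∈ Icc a b,
      c * √(b - a) ≤ |f u - f v|) {b : ℕ} (hb : 4 < b) (hbc : 32 * K ^ 2 ≤ b * c ^ 2)
    {R y₀ : ℝ} (hR : 0 < R) (a s : ℝ) (hs : 64 * R ^ 2 / c ^ 2 ≤ s) :
    ∃ j : ℕ, j < b ∧ ∀ x ∈ {x ∈ Icc (0 : ℝ) 1 | |f x - y₀| ≤ R}, a + j * (s / b) ≤ x →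
      ¬ x ≤ a + (j + 1) * (s / b) := by
  have hb' : (4 : ℝ) < b := by exact_mod_cast hb
  have hb0 : (0 : ℝ) < b := by linarith
  have hs0 : 0 < s := lt_of_lt_of_le (by positivity) hs
  have hsb : s / b < s / 4 := div_lt_div_of_pos_left hs0 (by norm_num) hb'
  obtain ⟨z, hz1, hz2, hz⟩ : ∃ z : ℝ, a ≤ z ∧ z ≤ a + s ∧
      ∀ x ∈ Icc (0 : ℝ) 1, |x - z| ≤ s / b → R < |f x - y₀| := by
    by_cases h1 : a ≤ -(s / 4)
    · refine ⟨a, le_rfl, by linarith, fun x hx hxa => ?_⟩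
      exfalso
      have := (abs_le.mp hxa).2
      linarith [hx.1]
    by_cases h2 : 1 + s / 4 ≤ a + s
    · refine ⟨a + s, by linarith, le_rfl, fun x hx hxa => ?_⟩
      exfalso
      have := (abs_le.mp hxa).1
      linarith [hx.2]
    push Not at h1 h2
    have ha' : max a 0 ≤ a + s / 4 := max_le (by linarith) (by linarith)
    have hb'' : a + s - s / 4 ≤ min (a + s) 1 := le_min (by linarith) (by linarith)
    have hlen : s / 2 ≤ min (a + s) 1 - max a 0 := by linarith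
    have hA : max a 0 ∈ Icc (0 : ℝ) 1 := ⟨le_max_right _ _, by
      have := min_le_right (a + s) 1
      linarith⟩
    have hB : min (a + s) 1 ∈ Icc (0 : ℝ) 1 := ⟨by
      have := le_max_right a 0
      linarith, min_le_right _ _⟩
    obtain ⟨u, hu, v, hv, huv⟩ := hL _ hA _ hB (by linarith)
    have hu01 : u ∈ Icc (0 : ℝ) 1 := ⟨hA.1.trans hu.1, hu.2.trans hB.2⟩
    have hv01 : v ∈ Icc (0 : ℝ) 1 := ⟨hA.1.trans hv.1, hv.2.trans hB.2⟩
    have hua : a ≤ u ∧ u ≤ a + s := ⟨(le_max_left _ _).trans hu.1, hu.2.trans (min_le_left _ _)⟩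
    have hva : a ≤ v ∧ v ≤ a + s := ⟨(le_max_left _ _).trans hv.1, hv.2.trans (min_le_left _ _)⟩
    have h3 : c * √(s / 2) ≤ |f u - f v| := by
      refine le_trans ?_ huv
      exact mul_le_mul_of_nonneg_left (Real.sqrt_le_sqrt hlen) hc.le
    have h4 : |f u - f v| ≤ |f u - y₀| + |f v - y₀| := by
      have : f u - f v = (f u - y₀) - (f v - y₀) := by ring
      rw [this]; exact abs_sub _ _
    -- the numerical facts
    have h5 : K * √(s / b) ≤ c * √(s / 2) / 4 := by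
      have e1 : √(s / b) ≤ c / (4 * K) * √(s / 2) := by
        rw [Real.sqrt_le_iff]
        refine ⟨by positivity, ?_⟩
        rw [mul_pow, Real.sq_sqrt (by positivity), div_pow, mul_pow]
        rw [div_le_iff₀ hb0]
        have : c ^ 2 / (4 ^ 2 * K ^ 2) * (s / 2) * b = s * (b * c ^ 2) / (32 * K ^ 2) := by
          field_simp; ring
        rw [this, le_div_iff₀ (by positivity)]
        exact mul_le_mul_of_nonneg_left hbc hs0.le
      calc K * √(s / b) ≤ K * (c / (4 * K) * √(s / 2)) := mul_le_mul_of_nonneg_left e1 hK.le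
        _ = c * √(s / 2) / 4 := by field_simp
    have h6 : R < c * √(s / 2) / 4 := by
      have e1 : 5 * R / c ≤ √(s / 2) := by
        rw [Real.le_sqrt (by positivity) (by positivity)]
        have : 64 * R ^ 2 / c ^ 2 / 2 ≤ s / 2 := div_le_div_of_nonneg_right hs (by norm_num)
        refine le_trans ?_ this
        rw [div_pow, mul_pow, div_div, div_le_div_iff₀ (by positivity) (by positivity)]
        have : 0 < R ^ 2 * c ^ 2 := by positivity
        nlinarith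
      have e2 : c * (5 * R / c) ≤ c * √(s / 2) := mul_le_mul_of_nonneg_left e1 hc.le
      have e3 : c * (5 * R / c) = 5 * R := by field_simp
      rw [e3] at e2
      linarith
    have key : ∀ w ∈ Icc (0 : ℝ) 1, c * √(s / 2) / 2 ≤ |f w - y₀| →
        ∀ x ∈ Icc (0 : ℝ) 1, |x - w| ≤ s / b → R < |f x - y₀| := by
      intro w hw hfw x hx hxw
      have e1 := hH x hx w hw
      have e2 : √|x - w| ≤ √(s / b) := Real.sqrt_le_sqrt hxw
      have e3 : |f x - f w| ≤ c * √(s / 2) / 4 :=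
        (e1.trans (mul_le_mul_of_nonneg_left e2 hK.le)).trans h5
      have e4 : |f w - y₀| ≤ |f x - f w| + |f x - y₀| := by
        have : f w - y₀ = -(f x - f w) + (f x - y₀) := by ring
        rw [this]
        refine (abs_add_le _ _).trans ?_
        rw [abs_neg]
      linarith
    rcases le_total (|f v - y₀|) (|f u - y₀|) with h | h
    · exact ⟨u, hua.1, hua.2, key u hu01 (by linarith)⟩
    · exact ⟨v, hva.1, hva.2, key v hv01 (by linarith)⟩
  obtain ⟨j, hj, h1, h2⟩ := exists_cell (b := b) (by omega) hs0 hz1 hz2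
  refine ⟨j, hj, fun x hx h3 h4 => ?_⟩
  have h5 : |x - z| ≤ s / b := by
    rw [abs_le]; constructor <;> linarith
  exact absurd hx.2 (not_le.mpr (hz x hx.1 h5))

theorem coord_le (p q : Pl) (i : Fin 2) : |p i - q i| ≤ dist p q := by
  rw [EuclideanSpace.dist_eq, ← Real.dist_eq]
  refine Real.le_sqrt_of_sq_le ?_
  exact Finset.single_le_sum (f := fun i => dist (p i) (q i) ^ 2) (fun _ _ => sq_nonneg _)
    (Finset.mem_univ i)

/-- A scale selection lemma. -/
theorem exists_scale {b : ℕ} (hb : 4 < b) {M ℓ : ℝ} (hℓ : 0 < ℓ) (hM : ℓ < M) :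
    ∃ k : ℕ, 0 < k ∧ M / b ^ k ≤ ℓ ∧ ℓ ≤ M / b ^ (k - 1) ∧ (b : ℝ) ^ k ≤ b * (M / ℓ) := by
  have hb' : (4 : ℝ) < b := by exact_mod_cast hb
  have hex : ∃ k : ℕ, M / (b : ℝ) ^ k ≤ ℓ := by
    obtain ⟨k, hk⟩ := pow_unbounded_of_one_lt (M / ℓ) (by linarith : (1 : ℝ) < b)
    refine ⟨k, ?_⟩
    rw [div_lt_iff₀ hℓ] at hk
    rw [div_le_iff₀ (by positivity)]
    linarith
  classical
  have h1 := Nat.find_spec hex
  have hpos : 0 < Nat.find hex := by
    rcases Nat.eq_zero_or_pos (Nat.find hex) with h | h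
    · rw [h, pow_zero, div_one] at h1
      linarith
    · exact h
  have h2 := Nat.find_min hex (m := Nat.find hex - 1) (by omega)
  push Not at h2
  refine ⟨Nat.find hex, hpos, h1, h2.le, ?_⟩
  rw [lt_div_iff₀ (by positivity)] at h2
  have e : (b : ℝ) ^ (Nat.find hex) = b * b ^ (Nat.find hex - 1) := by
    rw [← pow_succ']; congr 1; omega
  rw [e]
  refine mul_le_mul_of_nonneg_left ?_ (by linarith)
  rw [le_div_iff₀ hℓ]
  linarith

/-- The graph over the unit interval. -/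
def Gr (f : ℝ → ℝ) : Set Pl := {p | p 0 ∈ Icc (0 : ℝ) 1 ∧ p 1 = f (p 0)}

theorem pack_bound {f : ℝ → ℝ} {K c : ℝ} (hK : 1 ≤ K) (hc : 0 < c)
    (hH : ∀ x ∈ Icc (0 : ℝ) 1, ∀ y ∈ Icc (0 : ℝ) 1, |f x - f y| ≤ K * √|x - y|)
    (hL : ∀ a ∈ Icc (0 : ℝ) 1, ∀ b ∈ Icc (0 : ℝ) 1, a < b → ∃ u ∈ Icc a b, ∃ v ∈ Icc a b,
      c * √(b - a) ≤ |f u - f v|) :
    ∃ γ : ℝ, 0 < γ ∧ γ < 1 ∧ ∃ C : ℝ, 0 < C ∧ (∀ r R : ℝ, 0 < r → r < R → ∀ x ∈ Gr f,
      PackLe (Metric.ball x R ∩ Gr f) r (C * (R / r) ^ (1 + γ))) ∧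
      ∃ A R₀ : ℝ, 0 < A ∧ 0 < R₀ ∧ ∀ r R : ℝ, 0 < r → r < R → R < R₀ → r < A * R ^ 2 →
        ∀ x ∈ Gr f, PackLe (Metric.ball x R ∩ Gr f) r
          (C * ((R / (A * R ^ 2)) ^ (1 + γ) * (A * R ^ 2 / r * √(A * R ^ 2 / r)))) := by
  have hK0 : 0 < K := by linarith
  obtain ⟨b, hb4, hbc⟩ : ∃ b : ℕ, 4 < b ∧ 32 * K ^ 2 ≤ b * c ^ 2 := by
    obtain ⟨n, hn⟩ := exists_nat_ge (32 * K ^ 2 / c ^ 2)
    refine ⟨n + 5, by omega, ?_⟩
    rw [div_le_iff₀ (by positivity)] at hn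
    push_cast
    nlinarith [sq_nonneg c]
  have hb' : (4 : ℝ) < b := by exact_mod_cast hb4
  have hb1 : ((b - 1 : ℕ) : ℝ) = (b : ℝ) - 1 := by
    rw [Nat.cast_sub (by omega)]; simp
  -- the exponent
  obtain ⟨γ, hγ1, hγ2, hγ⟩ : ∃ γ : ℝ, 1 / 2 ≤ γ ∧ γ < 1 ∧ (b : ℝ) ^ γ = ((b - 1 : ℕ) : ℝ) := by
    refine ⟨Real.log (b - 1) / Real.log b, ?_, ?_, ?_⟩
    · rw [le_div_iff₀ (Real.log_pos (by linarith))]
      have h1 : Real.log b ≤ Real.log ((b - 1) ^ 2) :=
        Real.log_le_log (by linarith) (by nlinarith)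
      rw [Real.log_pow] at h1
      push_cast at h1
      linarith
    · rw [div_lt_one (Real.log_pos (by linarith))]
      exact Real.log_lt_log (by linarith) (by linarith)
    · rw [hb1, Real.rpow_def_of_pos (by linarith), mul_div_cancel₀ _
        (Real.log_pos (by linarith)).ne', Real.exp_log (by linarith)]
  have hpow : ∀ k : ℕ, (((b - 1) ^ k : ℕ) : ℝ) = ((b : ℝ) ^ k) ^ γ := by
    intro k
    push_cast
    rw [← hγ, ← Real.rpow_natCast, ← Real.rpow_mul (by linarith), ← Real.rpow_natCast,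
      ← Real.rpow_mul (by linarith), mul_comm]
  have hγ0 : 0 < γ := by linarith
  obtain ⟨A, hA⟩ : ∃ A : ℝ, A = 64 / c ^ 2 := ⟨_, rfl⟩
  have hA0 : 0 < A := by rw [hA]; positivity
  have hporous : ∀ (R y₀ : ℝ), 0 < R → ∀ a s : ℝ, A * R ^ 2 ≤ s → ∃ j : ℕ, j < b ∧
      ∀ x ∈ {x ∈ Icc (0 : ℝ) 1 | |f x - y₀| ≤ R}, a + j * (s / b) ≤ x →
        ¬ x ≤ a + (j + 1) * (s / b) := by
    intro R y₀ hR a s hs
    refine level_porous hK0 hc hH hL hb4 hbc hR a s ?_
    rw [hA] at hs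
    refine le_trans (le_of_eq ?_) hs
    ring
  obtain ⟨R₀, hR₀⟩ : ∃ R₀ : ℝ, R₀ = min 1 (1 / A) := ⟨_, rfl⟩
  have hR₀0 : 0 < R₀ := by rw [hR₀]; exact lt_min one_pos (by positivity)
  have hR₀1 : R₀ ≤ 1 := by rw [hR₀]; exact min_le_left _ _
  have hR₀A : R₀ ≤ 1 / A := by rw [hR₀]; exact min_le_right _ _
  have h2b : ∀ q : ℝ, 0 ≤ q → (2 * (b : ℝ) * q) ^ γ ≤ 2 * b * q ^ γ := by
    intro q hq
    rw [Real.mul_rpow (by positivity) hq]
    refine mul_le_mul_of_nonneg_right ?_ (by positivity)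
    calc (2 * (b : ℝ)) ^ γ ≤ (2 * b) ^ (1 : ℝ) :=
          Real.rpow_le_rpow_of_exponent_le (by linarith) hγ2.le
      _ = 2 * b := Real.rpow_one _
  have h32 : ∀ t : ℝ, 1 ≤ t → t * √t ≤ t ^ (1 + γ) := by
    intro t ht
    have : t * √t = t ^ (3 / 2 : ℝ) := by
      rw [Real.sqrt_eq_rpow]
      conv_lhs => rw [← Real.rpow_one t, ← Real.rpow_mul (by linarith), one_mul,
        ← Real.rpow_add (by linarith)]
      norm_num
    rw [this]
    exact Real.rpow_le_rpow_of_exponent_le ht (by linarith)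
  have hreg2 : ∀ r R : ℝ, 0 < r → r < R → R < R₀ → r < A * R ^ 2 →
      ∀ x ∈ Gr f, PackLe (Metric.ball x R ∩ Gr f) r ((3 * (K + 2) * √A * (2 * b)) *
        ((R / (A * R ^ 2)) ^ (1 + γ) * (A * R ^ 2 / r * √(A * R ^ 2 / r)))) := by
    intro r R hr hrR hRR hrA x hx S hSsub hS
    have hR : 0 < R := hr.trans hrR
    have hSG : ∀ p ∈ S, p 0 ∈ Icc (0 : ℝ) 1 ∧ p 1 = f (p 0) := fun p hp => (hSsub hp).2
    have hSd : ∀ p ∈ S, |p 0 - x 0| ≤ R ∧ |p 1 - x 1| ≤ R := by
      intro p hp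
      have h := (hSsub hp).1
      rw [Metric.mem_ball] at h
      exact ⟨(coord_le p x 0).trans h.le, (coord_le p x 1).trans h.le⟩
    -- vertical differences in a column
    have hcolK : ∀ p ∈ S, ∀ q ∈ S, |p 0 - q 0| ≤ r → p 1 - q 1 ≤ K * √r := by
      intro p hp q hq hpq
      rw [(hSG p hp).2, (hSG q hq).2]
      refine (le_abs_self _).trans ((hH _ (hSG p hp).1 _ (hSG q hq).1).trans ?_)
      exact mul_le_mul_of_nonneg_left (Real.sqrt_le_sqrt hpq) hK0.le
    have hR1 : R ≤ 1 := hRR.le.trans hR₀1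
    have hr1 : r ≤ 1 := hrR.le.trans hR1
    have hsr0 : 0 < √r := Real.sqrt_pos.mpr hr
    have hinv : √r / r = √(1 / r) := by
      rw [Real.sqrt_div zero_le_one, Real.sqrt_one, div_eq_div_iff hr.ne' hsr0.ne',
        Real.mul_self_sqrt hr.le, one_mul]
    have hcell : K * √r / r + 2 ≤ (K + 2) * √(1 / r) := by
      have : (1 : ℝ) ≤ √(1 / r) := by
        rw [Real.one_le_sqrt, one_le_div hr]; exact hr1
      rw [mul_div_assoc, hinv]
      linarith
    have hAR : A * R ^ 2 ≤ R := by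
      have : R ≤ 1 / A := hRR.le.trans hR₀A
      rw [le_div_iff₀ hA0] at this
      nlinarith
    have hAR0 : 0 < A * R ^ 2 := by positivity
    have hpor := hporous R (x 1) hR
    have hcov : ∀ k : ℕ, (k = 0 ∨ A * R ^ 2 ≤ 2 * R / b ^ (k - 1)) →
        ∃ T : Finset ℝ, T.card ≤ (b - 1) ^ k ∧ ∀ p ∈ S, ∃ t ∈ T, t ≤ p 0 ∧
          p 0 ≤ t + 2 * R / b ^ k := by
      intro k hk
      obtain ⟨T, hT1, hT2⟩ := porous_cover (by omega : 2 ≤ b) hAR0 hpor k (x 0 - R) (2 * R)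
        (by positivity) hk
      refine ⟨T, hT1, fun p hp => hT2 (p 0) ⟨(hSG p hp).1, ?_⟩ ?_ ?_⟩
      · rw [← (hSG p hp).2]; exact (hSd p hp).2
      · linarith [(abs_le.mp (hSd p hp).1).1]
      · linarith [(abs_le.mp (hSd p hp).1).2]
    obtain ⟨k, hk0, hk1, hk2, hk3⟩ := exists_scale hb4 (M := 2 * R) hAR0 (by linarith)
    obtain ⟨T, hT1, hT2⟩ := hcov k (Or.inr hk2)
    have h1 := count (s := 2 * R / b ^ k) (D := K * √r) hr (by positivity) (by positivity) hS T hT2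
      hcolK
    obtain ⟨t, ht⟩ : ∃ t : ℝ, t = A * R ^ 2 / r := ⟨_, rfl⟩
    obtain ⟨q, hq⟩ : ∃ q : ℝ, q = R / (A * R ^ 2) := ⟨_, rfl⟩
    have hq0 : 0 < q := by rw [hq]; positivity
    have ht1 : 1 ≤ t := by rw [ht, one_le_div hr]; exact hrA.le
    have h2 : (T.card : ℝ) ≤ 2 * b * q ^ γ := by
      have e1 : (T.card : ℝ) ≤ (((b - 1) ^ k : ℕ) : ℝ) := by exact_mod_cast hT1
      rw [hpow] at e1
      refine e1.trans (le_trans ?_ (h2b q hq0.le))
      refine Real.rpow_le_rpow (by positivity) (hk3.trans (le_of_eq ?_)) hγ0.le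
      rw [hq]; ring
    have h3 : 2 * R / b ^ k / r ≤ t := by
      rw [ht]; exact div_le_div_of_nonneg_right hk1 hr.le
    have h4 : √(1 / r) = √A * √t * q := by
      have e1 : 1 / r = A * t * q ^ 2 := by
        rw [ht, hq]; field_simp
      rw [e1, Real.sqrt_mul (by positivity), Real.sqrt_mul (by positivity), Real.sqrt_sq hq0.le]
    have h5 : (S.card : ℝ) ≤ (2 * b * q ^ γ) * (3 * t) * ((K + 2) * (√A * √t * q)) := by
      refine h1.trans ?_
      refine mul_le_mul (mul_le_mul h2 (by linarith) (by positivity) (by positivity))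
        (by rw [← h4]; exact hcell) (by positivity) (by positivity)
    have h6 : (2 * b * q ^ γ) * (3 * t) * ((K + 2) * (√A * √t * q)) =
        3 * (K + 2) * √A * (2 * b) * (q ^ (1 + γ) * (t * √t)) := by
      rw [Real.rpow_add hq0, Real.rpow_one]; ring
    rw [h6] at h5
    rw [← ht, ← hq]
    exact h5
  refine ⟨γ, hγ0, hγ2, 24 * b + 3 * (K + 2) * √A * (2 * b) +
    3 * (K + 2) * (1 / R₀ * √(1 / R₀)) + 3 * (K + 2), by positivity, ?_, A, R₀, hA0, hR₀0, ?_⟩
  swap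
  · intro r R hr hrR hRR hrA x hx S hSsub hS
    have h1 := hreg2 r R hr hrR hRR hrA x hx S hSsub hS
    have hR : 0 < R := hr.trans hrR
    refine h1.trans (mul_le_mul_of_nonneg_right ?_ (by positivity))
    have : (0 : ℝ) ≤ 24 * b + 3 * (K + 2) * (1 / R₀ * √(1 / R₀)) + 3 * (K + 2) := by positivity
    linarith
  intro r R hr hrR x hx S hSsub hS
  have hR : 0 < R := hr.trans hrR
  have hm1 : 1 ≤ R / r := (one_le_div hr).mpr hrR.le
  have hmpos : (1 : ℝ) ≤ (R / r) ^ (1 + γ) := Real.one_le_rpow hm1 (by linarith)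
  have hSG : ∀ p ∈ S, p 0 ∈ Icc (0 : ℝ) 1 ∧ p 1 = f (p 0) := fun p hp => (hSsub hp).2
  have hSd : ∀ p ∈ S, |p 0 - x 0| ≤ R ∧ |p 1 - x 1| ≤ R := by
    intro p hp
    have h := (hSsub hp).1
    rw [Metric.mem_ball] at h
    exact ⟨(coord_le p x 0).trans h.le, (coord_le p x 1).trans h.le⟩
  -- vertical differences in a column
  have hcolK : ∀ p ∈ S, ∀ q ∈ S, |p 0 - q 0| ≤ r → p 1 - q 1 ≤ K * √r := by
    intro p hp q hq hpq
    rw [(hSG p hp).2, (hSG q hq).2]
    refine (le_abs_self _).trans ((hH _ (hSG p hp).1 _ (hSG q hq).1).trans ?_)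
    exact mul_le_mul_of_nonneg_left (Real.sqrt_le_sqrt hpq) hK0.le
  have hcolR : ∀ p ∈ S, ∀ q ∈ S, |p 0 - q 0| ≤ r → p 1 - q 1 ≤ 2 * R := by
    intro p hp q hq _
    have e1 := (abs_le.mp (hSd p hp).2).2
    have e2 := (abs_le.mp (hSd q hq).2).1
    linarith
  by_cases hr1 : 1 < r
  · -- large radius
    have h1 := count (D := K) hr zero_le_one hK0.le hS {0} (by
      intro p hp
      refine ⟨0, Finset.mem_singleton_self _, (hSG p hp).1.1, ?_⟩
      linarith [(hSG p hp).1.2]) (by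
      intro p hp q hq _
      rw [(hSG p hp).2, (hSG q hq).2]
      refine (le_abs_self _).trans ((hH _ (hSG p hp).1 _ (hSG q hq).1).trans ?_)
      have : √|p 0 - q 0| ≤ 1 := by
        rw [Real.sqrt_le_one]
        rw [abs_le]
        constructor <;> linarith [(hSG p hp).1.1, (hSG p hp).1.2, (hSG q hq).1.1, (hSG q hq).1.2]
      nlinarith)
    have h2 : 1 / r ≤ 1 := by rw [div_le_one hr]; exact hr1.le
    have h3 : K / r ≤ K := div_le_self hK0.le hr1.le
    have h4 : (S.card : ℝ) ≤ 3 * (K + 2) := by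
      refine h1.trans ?_
      simp only [Finset.card_singleton, Nat.cast_one, one_mul]
      exact mul_le_mul (by linarith) (by linarith) (by positivity) (by norm_num)
    have h5 : 3 * (K + 2) ≤ 3 * (K + 2) * (R / r) ^ (1 + γ) :=
      le_mul_of_one_le_right (by positivity) hmpos
    have h6 : (0 : ℝ) ≤ (24 * b + 3 * (K + 2) * √A * (2 * b) +
      3 * (K + 2) * (1 / R₀ * √(1 / R₀))) * (R / r) ^ (1 + γ) := by positivity
    linarith
  push Not at hr1
  have hsr : √r / r * √r = 1 := by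
    rw [div_mul_eq_mul_div, Real.mul_self_sqrt hr.le, div_self hr.ne']
  have hsr1 : √r ≤ 1 := Real.sqrt_le_one.mpr hr1
  have hsr0 : 0 < √r := Real.sqrt_pos.mpr hr
  have hinv : √r / r = √(1 / r) := by
    rw [Real.sqrt_div zero_le_one, Real.sqrt_one, div_eq_div_iff hr.ne' hsr0.ne',
      Real.mul_self_sqrt hr.le, one_mul]
  have hcell : K * √r / r + 2 ≤ (K + 2) * √(1 / r) := by
    have : (1 : ℝ) ≤ √(1 / r) := by
      rw [Real.one_le_sqrt, one_le_div hr]; exact hr1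
    rw [mul_div_assoc, hinv]
    linarith
  by_cases hRR : R₀ ≤ R
  · -- large `R`
    have h1 := count (D := K * √r) hr zero_le_one (by positivity) hS {0} (by
      intro p hp
      refine ⟨0, Finset.mem_singleton_self _, (hSG p hp).1.1, ?_⟩
      linarith [(hSG p hp).1.2]) hcolK
    have h2 : 1 ≤ 1 / r := by rw [one_le_div hr]; exact hr1
    have h3 : 1 / r ≤ R / r * (1 / R₀) := by
      rw [div_mul_div_comm, mul_one, div_le_div_iff₀ hr (by positivity)]
      nlinarith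
    have h4 : (S.card : ℝ) ≤ 3 * (K + 2) * (1 / r * √(1 / r)) := by
      refine h1.trans ?_
      simp only [Finset.card_singleton, Nat.cast_one, one_mul]
      calc (1 / r + 2) * (K * √r / r + 2) ≤ (3 * (1 / r)) * ((K + 2) * √(1 / r)) :=
            mul_le_mul (by linarith) hcell (by positivity) (by positivity)
        _ = _ := by ring
    have h5 : 1 / r * √(1 / r) ≤ (1 / R₀ * √(1 / R₀)) * (R / r) ^ (1 + γ) := by
      calc 1 / r * √(1 / r) ≤ (R / r * (1 / R₀)) * √(R / r * (1 / R₀)) :=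
            mul_le_mul h3 (Real.sqrt_le_sqrt h3) (by positivity) (by positivity)
        _ = (1 / R₀ * √(1 / R₀)) * (R / r * √(R / r)) := by
            rw [Real.sqrt_mul (by positivity)]; ring
        _ ≤ _ := mul_le_mul_of_nonneg_left (h32 _ hm1) (by positivity)
    have h6 : (0 : ℝ) ≤ (24 * b + 3 * (K + 2) * √A * (2 * b) +
      3 * (K + 2)) * (R / r) ^ (1 + γ) := by positivity
    have h7 := mul_le_mul_of_nonneg_left h5 (show 0 ≤ 3 * (K + 2) by positivity)
    linarith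
  push Not at hRR
  have hR1 : R ≤ 1 := hRR.le.trans hR₀1
  have hAR : A * R ^ 2 ≤ R := by
    have : R ≤ 1 / A := hRR.le.trans hR₀A
    rw [le_div_iff₀ hA0] at this
    nlinarith
  have hAR0 : 0 < A * R ^ 2 := by positivity
  have hpor := hporous R (x 1) hR
  have hcov : ∀ k : ℕ, (k = 0 ∨ A * R ^ 2 ≤ 2 * R / b ^ (k - 1)) →
      ∃ T : Finset ℝ, T.card ≤ (b - 1) ^ k ∧ ∀ p ∈ S, ∃ t ∈ T, t ≤ p 0 ∧
        p 0 ≤ t + 2 * R / b ^ k := by
    intro k hk
    obtain ⟨T, hT1, hT2⟩ := porous_cover (by omega : 2 ≤ b) hAR0 hpor k (x 0 - R) (2 * R)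
      (by positivity) hk
    refine ⟨T, hT1, fun p hp => hT2 (p 0) ⟨(hSG p hp).1, ?_⟩ ?_ ?_⟩
    · rw [← (hSG p hp).2]; exact (hSd p hp).2
    · linarith [(abs_le.mp (hSd p hp).1).1]
    · linarith [(abs_le.mp (hSd p hp).1).2]
  by_cases hrA : A * R ^ 2 ≤ r
  · -- first regime
    obtain ⟨k, hk0, hk1, hk2, hk3⟩ := exists_scale hb4 (M := 2 * R) hr (by linarith)
    obtain ⟨T, hT1, hT2⟩ := hcov k (Or.inr (hrA.trans hk2))
    have h1 := count (s := 2 * R / b ^ k) (D := 2 * R) hr (by positivity) (by positivity) hS T hT2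
      hcolR
    have h2 : (T.card : ℝ) ≤ 2 * b * (R / r) ^ γ := by
      have e1 : (T.card : ℝ) ≤ (((b - 1) ^ k : ℕ) : ℝ) := by exact_mod_cast hT1
      rw [hpow] at e1
      refine e1.trans (le_trans ?_ (h2b (R / r) (by positivity)))
      refine Real.rpow_le_rpow (by positivity) (hk3.trans (le_of_eq (by ring))) hγ0.le
    have h3 : 2 * R / b ^ k / r ≤ 1 := by rw [div_le_one hr]; exact hk1
    have h4 : 2 * R / r = 2 * (R / r) := by ring
    have h5 : (S.card : ℝ) ≤ (2 * b * (R / r) ^ γ) * 3 * (4 * (R / r)) := by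
      refine h1.trans ?_
      refine mul_le_mul (mul_le_mul h2 (by linarith) (by positivity) (by positivity))
        (by rw [h4]; linarith) (by positivity) (by positivity)
    have h6 : (2 * b * (R / r) ^ γ) * 3 * (4 * (R / r)) = 24 * b * (R / r) ^ (1 + γ) := by
      rw [Real.rpow_add (by positivity), Real.rpow_one]; ring
    have h7 : (0 : ℝ) ≤ (3 * (K + 2) * √A * (2 * b) + 3 * (K + 2) * (1 / R₀ * √(1 / R₀)) +
      3 * (K + 2)) * (R / r) ^ (1 + γ) := by positivity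
    linarith
  · -- second regime
    push Not at hrA
    have h1 := hreg2 r R hr hrR hRR hrA x hx S hSsub hS
    obtain ⟨t, ht⟩ : ∃ t : ℝ, t = A * R ^ 2 / r := ⟨_, rfl⟩
    obtain ⟨q, hq⟩ : ∃ q : ℝ, q = R / (A * R ^ 2) := ⟨_, rfl⟩
    have hq0 : 0 < q := by rw [hq]; positivity
    have ht1 : 1 ≤ t := by rw [ht, one_le_div hr]; exact hrA.le
    have htq : R / r = q * t := by
      rw [ht, hq]; field_simp
    rw [← ht, ← hq] at h1
    have h7 : q ^ (1 + γ) * (t * √t) ≤ (R / r) ^ (1 + γ) := by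
      rw [htq, Real.mul_rpow hq0.le (by linarith)]
      exact mul_le_mul_of_nonneg_left (h32 t ht1) (by positivity)
    have h8 := mul_le_mul_of_nonneg_left h7 (show 0 ≤ 3 * (K + 2) * √A * (2 * b) by positivity)
    have h9 : (0 : ℝ) ≤ (24 * b + 3 * (K + 2) * (1 / R₀ * √(1 / R₀)) +
      3 * (K + 2)) * (R / r) ^ (1 + γ) := by positivity
    linarith

end Pool.Agent.V1199.Assouad
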