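import Mathlib

open Set Filter Topology

namespace Pool.Agent.V1199.Takagi

/-- Distance to the nearest integer. -/
noncomputable def tri (x : ℝ) : ℝ := ‖(x : UnitAddCircle)‖

theorem tri_nonneg (x : ℝ) : 0 ≤ tri x := norm_nonneg _

theorem tri_le_half (x : ℝ) : tri x ≤ 1 / 2 := by
  unfold tri
  rw [UnitAddCircle.norm_eq]
  exact abs_sub_round x

theorem tri_lip (x y : ℝ) : |tri x - tri y| ≤ |x - y| := by
  unfold tri
  refine (abs_norm_sub_norm_le _ _).trans ?_
  rw [← AddCircle.coe_sub, UnitAddCircle.norm_eq]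
  exact (round_le (x - y) 0).trans (by simp)

theorem tri_int (n : ℤ) : tri n = 0 := by
  unfold tri
  rw [UnitAddCircle.norm_eq]
  simp

theorem tri_half (n : ℤ) : tri (n + 1 / 2) = 1 / 2 := by
  unfold tri
  rw [UnitAddCircle.norm_eq]
  have : round ((n : ℝ) + 1 / 2) = n + 1 := by
    rw [round_eq]
    have : (n : ℝ) + 1 / 2 + 1 / 2 = ((n + 1 : ℤ) : ℝ) := by push_cast; ring
    rw [this, Int.floor_intCast]
  rw [this]
  push_cast
  have : (n : ℝ) + 1 / 2 - (n + 1) = -(1 / 2) := by ring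
  rw [this, abs_neg, abs_of_pos (by norm_num)]

/-- The Takagi type function. -/
noncomputable def F (x : ℝ) : ℝ := ∑' k : ℕ, (1 / 4) ^ k * tri (16 ^ k * x)

theorem summable_F (x : ℝ) : Summable (fun k : ℕ => (1 / 4 : ℝ) ^ k * tri (16 ^ k * x)) := by
  refine Summable.of_nonneg_of_le (fun k => by have := tri_nonneg (16 ^ k * x); positivity)
    (fun k => ?_) (summable_geometric_of_lt_one (by norm_num) (by norm_num : (1 / 4 : ℝ) < 1))
  have h1 := tri_le_half (16 ^ k * x)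
  have h2 : (0 : ℝ) ≤ (1 / 4) ^ k := by positivity
  nlinarith

theorem F_nonneg (x : ℝ) : 0 ≤ F x :=
  tsum_nonneg fun k => by have := tri_nonneg (16 ^ k * x); positivity

theorem F_le (x : ℝ) : F x ≤ 2 / 3 := by
  have h := (summable_F x).tsum_le_tsum (g := fun k : ℕ => (1 / 4 : ℝ) ^ k * (1 / 2))
    (fun k => mul_le_mul_of_nonneg_left (tri_le_half _) (by positivity))
    ((summable_geometric_of_lt_one (by norm_num) (by norm_num : (1 / 4 : ℝ) < 1)).mul_right _)
  rw [tsum_mul_right, tsum_geometric_of_lt_one (by norm_num) (by norm_num)] at h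
  refine h.trans (by norm_num)

theorem F_eq (x : ℝ) : F x = tri x + 1 / 4 * F (16 * x) := by
  unfold F
  rw [(summable_F x).tsum_eq_zero_add, ← tsum_mul_left]
  congr 1
  · simp
  · refine tsum_congr fun k => ?_
    rw [pow_succ, pow_succ]
    ring_nf

theorem F_int (n : ℤ) : F n = 0 := by
  unfold F
  rw [← tsum_zero (β := ℕ) (α := ℝ)]
  refine tsum_congr fun k => ?_
  have : (16 : ℝ) ^ k * n = ((16 ^ k * n : ℤ) : ℝ) := by push_cast; ring
  rw [this, tri_int, mul_zero]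

theorem F_half (j : ℤ) : |F (j / 2) - F ((j + 1) / 2)| = 1 / 2 := by
  have h1 : ∀ j : ℤ, F ((j : ℝ) / 2) = tri ((j : ℝ) / 2) := by
    intro j
    rw [F_eq]
    have : (16 : ℝ) * (j / 2) = ((8 * j : ℤ) : ℝ) := by push_cast; ring
    rw [this, F_int]; ring
  have h2 : F (((j : ℝ) + 1) / 2) = tri (((j : ℝ) + 1) / 2) := by
    have := h1 (j + 1)
    push_cast at this
    exact this
  rw [h1, h2]
  rcases Int.even_or_odd j with ⟨m, hm⟩ | ⟨m, hm⟩
  · have e1 : (j : ℝ) / 2 = (m : ℝ) := by rw [hm]; push_cast; ring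
    have e2 : ((j : ℝ) + 1) / 2 = (m : ℝ) + 1 / 2 := by rw [hm]; push_cast; ring
    rw [e1, e2, tri_int, tri_half]; norm_num
  · have e1 : (j : ℝ) / 2 = (m : ℝ) + 1 / 2 := by rw [hm]; push_cast; ring
    have e2 : ((j : ℝ) + 1) / 2 = ((m + 1 : ℤ) : ℝ) := by rw [hm]; push_cast; ring
    rw [e1, e2, tri_int, tri_half]; norm_num

/-- Upper Hölder bound. -/
theorem F_holder_aux (m : ℕ) : ∀ x y : ℝ, (1 / 16) ^ (m + 1) < |x - y| → |x - y| ≤ 1 →
    |F x - F y| ≤ 3 * √|x - y| - 1 / 3 * |x - y| := by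
  induction m with
  | zero =>
    intro x y h1 h2
    have h3 : |F x - F y| ≤ 2 / 3 := by
      rw [abs_le]
      constructor <;> linarith [F_nonneg x, F_nonneg y, F_le x, F_le y]
    have h4 : 1 / 4 < √|x - y| := by
      rw [Real.lt_sqrt (by norm_num)]
      norm_num at h1 ⊢
      linarith
    have h5 : √|x - y| ≤ 1 := Real.sqrt_le_one.mpr h2
    have h6 := Real.mul_self_sqrt (abs_nonneg (x - y))
    nlinarith
  | succ m ih =>
    intro x y h1 h2
    by_cases h : |x - y| ≤ 1 / 16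
    · have e1 : |16 * x - 16 * y| = 16 * |x - y| := by
        rw [← mul_sub, abs_mul]; norm_num
      have h3 := ih (16 * x) (16 * y) (by rw [e1]; rw [pow_succ] at h1; linarith)
        (by rw [e1]; linarith)
      rw [e1] at h3
      have e2 : √(16 * |x - y|) = 4 * √|x - y| := by
        rw [Real.sqrt_mul (by norm_num)]
        congr 1
        rw [show (16 : ℝ) = 4 ^ 2 by norm_num, Real.sqrt_sq (by norm_num)]
      rw [e2] at h3
      rw [F_eq x, F_eq y]
      have h4 := tri_lip x y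
      have h5 : |tri x + 1 / 4 * F (16 * x) - (tri y + 1 / 4 * F (16 * y))| ≤
          |tri x - tri y| + 1 / 4 * |F (16 * x) - F (16 * y)| := by
        have : tri x + 1 / 4 * F (16 * x) - (tri y + 1 / 4 * F (16 * y)) =
          (tri x - tri y) + 1 / 4 * (F (16 * x) - F (16 * y)) := by ring
        rw [this]
        refine (abs_add_le _ _).trans ?_
        rw [abs_mul, abs_of_pos (by norm_num : (0 : ℝ) < 1 / 4)]
      linarith
    · push Not at h
      have h3 : |F x - F y| ≤ 2 / 3 := by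
        rw [abs_le]
        constructor <;> linarith [F_nonneg x, F_nonneg y, F_le x, F_le y]
      have h4 : 1 / 4 < √|x - y| := by
        rw [Real.lt_sqrt (by norm_num)]
        norm_num at h ⊢
        linarith
      have h5 : √|x - y| ≤ 1 := Real.sqrt_le_one.mpr h2
      have h6 := Real.mul_self_sqrt (abs_nonneg (x - y))
      nlinarith

theorem F_holder (x y : ℝ) (h : |x - y| ≤ 1) : |F x - F y| ≤ 3 * √|x - y| := by
  rcases (abs_nonneg (x - y)).eq_or_lt with h0 | h0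
  · have : x = y := by
      have := abs_eq_zero.mp h0.symm
      linarith
    subst this
    simp
  · obtain ⟨m, hm⟩ := exists_pow_lt_of_lt_one h0 (by norm_num : (1 / 16 : ℝ) < 1)
    have h1 : (1 / 16 : ℝ) ^ (m + 1) < |x - y| := by
      refine lt_of_le_of_lt ?_ hm
      exact pow_le_pow_of_le_one (by norm_num) (by norm_num) (Nat.le_succ m)
    have := F_holder_aux m x y h1 h
    linarith

/-- Lower bound on dyadic-like cells. -/
theorem F_cell (k : ℕ) : ∀ j : ℤ, (1 / 4) ^ k * (1 / 3) + 1 / 6 * (1 / 16) ^ k ≤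
    |F (j / 2 / 16 ^ k) - F ((j + 1) / 2 / 16 ^ k)| := by
  induction k with
  | zero =>
    intro j
    have := F_half j
    simp only [pow_zero, div_one]
    rw [this]; norm_num
  | succ k ih =>
    intro j
    have h1 := ih j
    rw [F_eq (j / 2 / 16 ^ (k + 1)), F_eq ((j + 1) / 2 / 16 ^ (k + 1))]
    have e1 : (16 : ℝ) * (j / 2 / 16 ^ (k + 1)) = j / 2 / 16 ^ k := by
      rw [pow_succ]; field_simp
    have e2 : (16 : ℝ) * ((j + 1) / 2 / 16 ^ (k + 1)) = (j + 1) / 2 / 16 ^ k := by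
      rw [pow_succ]; field_simp
    rw [e1, e2]
    have h2 := tri_lip (j / 2 / 16 ^ (k + 1)) ((j + 1) / 2 / 16 ^ (k + 1))
    have e3 : |(j : ℝ) / 2 / 16 ^ (k + 1) - (j + 1) / 2 / 16 ^ (k + 1)| =
        1 / 2 * (1 / 16) ^ (k + 1) := by
      have : (j : ℝ) / 2 / 16 ^ (k + 1) - (j + 1) / 2 / 16 ^ (k + 1) =
          -(1 / 2 * (1 / 16) ^ (k + 1)) := by
        rw [one_div_pow]; field_simp; ring
      rw [this, abs_neg, abs_of_pos (by positivity)]
    rw [e3] at h2
    set A := F ((j : ℝ) / 2 / 16 ^ k) with hA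
    set B := F (((j : ℝ) + 1) / 2 / 16 ^ k) with hB
    set a := tri ((j : ℝ) / 2 / 16 ^ (k + 1)) with ha
    set b := tri (((j : ℝ) + 1) / 2 / 16 ^ (k + 1)) with hb
    have h3 : 1 / 4 * |A - B| ≤ |a + 1 / 4 * A - (b + 1 / 4 * B)| + |a - b| := by
      have : 1 / 4 * (A - B) = (a + 1 / 4 * A - (b + 1 / 4 * B)) - (a - b) := by ring
      have h4 := abs_sub (a + 1 / 4 * A - (b + 1 / 4 * B)) (a - b)
      rw [← this, abs_mul, abs_of_pos (by norm_num : (0 : ℝ) < 1 / 4)] at h4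
      exact h4
    rw [pow_succ, pow_succ]
    rw [pow_succ] at h2
    nlinarith

/-- Lower oscillation bound on every interval. -/
theorem F_osc {a b : ℝ} (hab : a < b) (h1 : b - a ≤ 1) :
    ∃ u v : ℝ, a ≤ u ∧ u ≤ b ∧ a ≤ v ∧ v ≤ b ∧ 1 / 12 * √(b - a) ≤ |F u - F v| := by
  have h0 : 0 < b - a := by linarith
  obtain ⟨k, hk1, hk2⟩ : ∃ k : ℕ, (1 / 16 : ℝ) ^ k ≤ b - a ∧ b - a ≤ 16 * (1 / 16) ^ k := by
    obtain ⟨n, hn⟩ := exists_pow_lt_of_lt_one h0 (by norm_num : (1 / 16 : ℝ) < 1)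
    have hex : ∃ n : ℕ, (1 / 16 : ℝ) ^ n ≤ b - a := ⟨n, hn.le⟩
    classical
    refine ⟨Nat.find hex, Nat.find_spec hex, ?_⟩
    rcases Nat.eq_zero_or_pos (Nat.find hex) with h | h
    · rw [h]; norm_num; linarith
    · have := Nat.find_min hex (m := Nat.find hex - 1) (by omega)
      push Not at this
      have e : (1 / 16 : ℝ) ^ (Nat.find hex) = (1 / 16) ^ (Nat.find hex - 1) * (1 / 16) := by
        rw [← pow_succ]; congr 1; omega
      rw [e]
      linarith
  have hp : (0 : ℝ) < 16 ^ k := by positivity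
  have e16 : (1 / 16 : ℝ) ^ k = 1 / 16 ^ k := one_div_pow _ _
  rw [e16] at hk1 hk2
  set j : ℤ := ⌈2 * 16 ^ k * a⌉ with hj
  have hj1 : 2 * 16 ^ k * a ≤ j := Int.le_ceil _
  have hj2 : (j : ℝ) < 2 * 16 ^ k * a + 1 := Int.ceil_lt_add_one _
  have hb : (16 : ℝ) ^ k * a + 1 ≤ 16 ^ k * b := by
    have : 16 ^ k * (1 / 16 ^ k) ≤ 16 ^ k * (b - a) := mul_le_mul_of_nonneg_left hk1 hp.le
    rw [mul_one_div_cancel hp.ne'] at this
    linarith
  refine ⟨j / 2 / 16 ^ k, (j + 1) / 2 / 16 ^ k, ?_, ?_, ?_, ?_, ?_⟩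
  · rw [le_div_iff₀ hp]; linarith
  · rw [div_le_iff₀ hp]; linarith
  · rw [le_div_iff₀ hp]; linarith
  · rw [div_le_iff₀ hp]; linarith
  · refine le_trans ?_ (F_cell k j)
    have h2 : √(b - a) ≤ 4 * (1 / 4) ^ k := by
      refine Real.sqrt_le_iff.mpr ⟨by positivity, hk2.trans (le_of_eq ?_)⟩
      rw [mul_pow, ← pow_mul, mul_comm k 2, pow_mul, ← e16]
      norm_num
    have h3 : (0 : ℝ) ≤ 1 / 6 * (1 / 16) ^ k := by positivity
    linarith

end Pool.Agent.V1199.Takagi
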