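import Mathlib
import Pool.Agent.V1199.Takagi
import Pool.Agent.V1199.Assouad

open Set Filter Topology

namespace Pool.Agent.V1199.COmega

open Pool.Agent.V1199.Assouad

/-- A (finite) modulus of continuity on `[0,1]`. -/
structure Modulus where
  toFun : ℝ → ℝ
  mono : MonotoneOn toFun (Icc 0 1)
  pos : ∀ t ∈ Ioc (0 : ℝ) 1, 0 < toFun t
  zero : toFun 0 = 0
  lim : Tendsto toFun (𝓝[>] 0) (𝓝 0)

/-- The functions `f : [0,1] → ℝ` with `|f x - f y| ≤ C ω(|x - y|)` for some `C`. -/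
def sub (ω : Modulus) : AddSubgroup (Icc (0 : ℝ) 1 → ℝ) where
  carrier := {f | ∃ C : ℝ, ∀ x y : Icc (0 : ℝ) 1, |f x - f y| ≤ C * ω.toFun |(x : ℝ) - y|}
  zero_mem' := ⟨0, by intro x y; simp⟩
  add_mem' := by
    rintro f g ⟨C, hC⟩ ⟨D, hD⟩
    refine ⟨C + D, fun x y => ?_⟩
    have : (f + g) x - (f + g) y = (f x - f y) + (g x - g y) := by
      simp only [Pi.add_apply]; ring
    rw [this, add_mul]
    exact (abs_add_le _ _).trans (add_le_add (hC x y) (hD x y))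
  neg_mem' := by
    rintro f ⟨C, hC⟩
    refine ⟨C, fun x y => ?_⟩
    have : (-f) x - (-f) y = -(f x - f y) := by
      simp only [Pi.neg_apply]; ring
    rw [this, abs_neg]
    exact hC x y

/-- The space `C^ω[0,1]`. -/
def COm (ω : Modulus) : Type := sub ω

instance (ω : Modulus) : AddCommGroup (COm ω) := inferInstanceAs (AddCommGroup (sub ω))

instance (ω : Modulus) : CoeFun (COm ω) (fun _ => Icc (0 : ℝ) 1 → ℝ) := ⟨fun f => f.1⟩

variable {ω : Modulus}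

theorem coe_add (f g : COm ω) (x : Icc (0 : ℝ) 1) : (f + g) x = f x + g x := rfl
theorem coe_sub (f g : COm ω) (x : Icc (0 : ℝ) 1) : (f - g) x = f x - g x := rfl
theorem coe_neg (f : COm ω) (x : Icc (0 : ℝ) 1) : (-f) x = -f x := rfl
theorem coe_zero (x : Icc (0 : ℝ) 1) : (0 : COm ω) x = 0 := rfl

theorem abs_mem (x y : Icc (0 : ℝ) 1) : |(x : ℝ) - y| ∈ Icc (0 : ℝ) 1 := by
  refine ⟨abs_nonneg _, ?_⟩
  rw [abs_le]
  constructor <;> linarith [x.2.1, x.2.2, y.2.1, y.2.2]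

theorem om_nonneg (ω : Modulus) (x y : Icc (0 : ℝ) 1) : 0 ≤ ω.toFun |(x : ℝ) - y| := by
  have := ω.mono ⟨le_rfl, zero_le_one⟩ (abs_mem x y) (abs_nonneg _)
  rwa [ω.zero] at this

theorem om_pos (ω : Modulus) {x y : Icc (0 : ℝ) 1} (h : x ≠ y) : 0 < ω.toFun |(x : ℝ) - y| := by
  refine ω.pos _ ⟨abs_pos.mpr (sub_ne_zero.mpr fun e => h (Subtype.ext e)), (abs_mem x y).2⟩

/-- The norm `‖f‖_∞ + [f]_ω`; the pairs on the diagonal contribute `0 / 0 = 0` to `[f]_ω`. -/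
noncomputable def N (ω : Modulus) (f : Icc (0 : ℝ) 1 → ℝ) : ℝ :=
  (⨆ x, |f x|) + ⨆ p : Icc (0 : ℝ) 1 × Icc (0 : ℝ) 1, |f p.1 - f p.2| / ω.toFun |(p.1 : ℝ) - p.2|

theorem quot_le {f : Icc (0 : ℝ) 1 → ℝ} {B : ℝ} (hB : 0 ≤ B) {x y : Icc (0 : ℝ) 1}
    (h : |f x - f y| ≤ B * ω.toFun |(x : ℝ) - y|) : |f x - f y| / ω.toFun |(x : ℝ) - y| ≤ B := by
  by_cases hxy : x = y
  · subst hxy
    simpa using hB
  · rw [div_le_iff₀ (om_pos ω hxy)]
    exact h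

theorem N_le {f : Icc (0 : ℝ) 1 → ℝ} {A B : ℝ} (hB : 0 ≤ B) (h1 : ∀ x, |f x| ≤ A)
    (h2 : ∀ x y : Icc (0 : ℝ) 1, |f x - f y| ≤ B * ω.toFun |(x : ℝ) - y|) : N ω f ≤ A + B := by
  have : Nonempty (Icc (0 : ℝ) 1) := ⟨⟨0, le_rfl, zero_le_one⟩⟩
  exact add_le_add (ciSup_le h1) (ciSup_le fun p => quot_le hB (h2 p.1 p.2))

theorem bdd (f : COm ω) : BddAbove (range fun x => |f x|) ∧
    BddAbove (range fun p : Icc (0 : ℝ) 1 × Icc (0 : ℝ) 1 =>
      |f p.1 - f p.2| / ω.toFun |(p.1 : ℝ) - p.2|) := by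
  obtain ⟨C, hC⟩ := f.2
  have hC' : ∀ x y : Icc (0 : ℝ) 1, |f x - f y| ≤ max C 0 * ω.toFun |(x : ℝ) - y| := fun x y =>
    (hC x y).trans (mul_le_mul_of_nonneg_right (le_max_left _ _) (om_nonneg ω x y))
  constructor
  · refine ⟨|f ⟨0, le_rfl, zero_le_one⟩| + max C 0 * ω.toFun 1, ?_⟩
    rintro _ ⟨x, rfl⟩
    have h1 := hC' x ⟨0, le_rfl, zero_le_one⟩
    have h2 : ω.toFun |(x : ℝ) - ((⟨0, le_rfl, zero_le_one⟩ : Icc (0 : ℝ) 1) : ℝ)| ≤ ω.toFun 1 :=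
      ω.mono (abs_mem _ _) ⟨zero_le_one, le_rfl⟩ (abs_mem _ _).2
    have h3 := mul_le_mul_of_nonneg_left h2 (le_max_right C 0)
    have h4 : |f x| ≤ |f x - f ⟨0, le_rfl, zero_le_one⟩| + |f ⟨0, le_rfl, zero_le_one⟩| := by
      have := abs_add_le (f x - f ⟨0, le_rfl, zero_le_one⟩) (f ⟨0, le_rfl, zero_le_one⟩)
      rwa [sub_add_cancel] at this
    show |f x| ≤ _
    linarith
  · refine ⟨max C 0, ?_⟩
    rintro _ ⟨p, rfl⟩
    exact quot_le (le_max_right _ _) (hC' p.1 p.2)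

theorem iSup1_nonneg (f : Icc (0 : ℝ) 1 → ℝ) : 0 ≤ ⨆ x, |f x| :=
  Real.iSup_nonneg fun _ => abs_nonneg _

theorem iSup2_nonneg (f : Icc (0 : ℝ) 1 → ℝ) : 0 ≤ ⨆ p : Icc (0 : ℝ) 1 × Icc (0 : ℝ) 1,
    |f p.1 - f p.2| / ω.toFun |(p.1 : ℝ) - p.2| :=
  Real.iSup_nonneg fun p => div_nonneg (abs_nonneg _) (om_nonneg ω _ _)

theorem abs_le_N (f : COm ω) (x : Icc (0 : ℝ) 1) : |f x| ≤ N ω f.1 := by
  have h1 := le_ciSup (bdd f).1 x
  have h2 := iSup2_nonneg (ω := ω) f.1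
  have h3 : |f x| ≤ ⨆ x, |f.1 x| := h1
  unfold N
  linarith

theorem diff_le_N (f : COm ω) (x y : Icc (0 : ℝ) 1) :
    |f x - f y| ≤ N ω f.1 * ω.toFun |(x : ℝ) - y| := by
  have h1 := le_ciSup (bdd f).2 (x, y)
  have h2 := iSup1_nonneg f.1
  have h3 : |f x - f y| / ω.toFun |(x : ℝ) - y| ≤ N ω f.1 := by
    refine le_trans h1 ?_
    unfold N
    exact le_add_of_nonneg_left h2
  by_cases hxy : x = y
  · subst hxy
    simp [ω.zero]
  · rwa [div_le_iff₀ (om_pos ω hxy)] at h3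

theorem N_nonneg (f : Icc (0 : ℝ) 1 → ℝ) : 0 ≤ N ω f := add_nonneg (iSup1_nonneg f) (iSup2_nonneg f)

/-- The norm of `C^ω[0,1]`. -/
noncomputable def agn (ω : Modulus) : AddGroupNorm (COm ω) where
  toFun f := N ω f.1
  map_zero' := by
    refine le_antisymm ?_ (N_nonneg _)
    have := N_le (ω := ω) (f := (0 : COm ω).1) (A := 0) (B := 0) le_rfl
      (fun x => by rw [coe_zero]; simp) (fun x y => by rw [coe_zero, coe_zero]; simp)
    simpa using this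
  add_le' f g := by
    have e1 : N ω (f + g).1 ≤ N ω f.1 + N ω g.1 := by
      have : Nonempty (Icc (0 : ℝ) 1) := ⟨⟨0, le_rfl, zero_le_one⟩⟩
      have h1 : (⨆ x, |(f + g).1 x|) ≤ (⨆ x, |f.1 x|) + ⨆ x, |g.1 x| := by
        refine ciSup_le fun x => ?_
        exact (abs_add_le _ _).trans (add_le_add (le_ciSup (bdd f).1 x) (le_ciSup (bdd g).1 x))
      have h2 : (⨆ p : Icc (0 : ℝ) 1 × Icc (0 : ℝ) 1,
          |(f + g).1 p.1 - (f + g).1 p.2| / ω.toFun |(p.1 : ℝ) - p.2|) ≤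
          (⨆ p : Icc (0 : ℝ) 1 × Icc (0 : ℝ) 1, |f.1 p.1 - f.1 p.2| / ω.toFun |(p.1 : ℝ) - p.2|) +
          ⨆ p : Icc (0 : ℝ) 1 × Icc (0 : ℝ) 1, |g.1 p.1 - g.1 p.2| / ω.toFun |(p.1 : ℝ) - p.2| := by
        refine ciSup_le fun p => ?_
        refine le_trans ?_ (add_le_add (le_ciSup (bdd f).2 p) (le_ciSup (bdd g).2 p))
        show |(f + g).1 p.1 - (f + g).1 p.2| / ω.toFun |(p.1 : ℝ) - p.2| ≤
          |f.1 p.1 - f.1 p.2| / ω.toFun |(p.1 : ℝ) - p.2| +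
          |g.1 p.1 - g.1 p.2| / ω.toFun |(p.1 : ℝ) - p.2|
        rw [← add_div]
        refine div_le_div_of_nonneg_right ?_ (om_nonneg ω _ _)
        have : (f + g).1 p.1 - (f + g).1 p.2 = (f.1 p.1 - f.1 p.2) + (g.1 p.1 - g.1 p.2) := by
          show (f.1 p.1 + g.1 p.1) - (f.1 p.2 + g.1 p.2) = _
          ring
        rw [this]
        exact abs_add_le _ _
      unfold N
      linarith
    exact e1
  neg' f := by
    show N ω (-f).1 = N ω f.1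
    unfold N
    congr 1
    · refine iSup_congr fun x => ?_
      show |-(f.1 x)| = _
      rw [abs_neg]
    · refine iSup_congr fun p => ?_
      show |-(f.1 p.1) - -(f.1 p.2)| / _ = _
      congr 1
      rw [← abs_neg]
      congr 1
      ring
  eq_zero_of_map_eq_zero' f hf := by
    have hf' : N ω f.1 = 0 := hf
    apply Subtype.ext
    funext x
    have := abs_le_N f x
    rw [hf'] at this
    exact abs_nonpos_iff.mp this

noncomputable instance (ω : Modulus) : NormedAddCommGroup (COm ω) :=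
  AddGroupNorm.toNormedAddCommGroup (agn ω)

theorem norm_def (f : COm ω) : ‖f‖ = N ω f.1 := rfl

instance (ω : Modulus) : CompleteSpace (COm ω) := by
  refine Metric.complete_of_cauchySeq_tendsto fun u hu => ?_
  have hu' : ∀ ε > 0, ∃ n₀, ∀ m ≥ n₀, ∀ n ≥ n₀, N ω (u m - u n).1 < ε := by
    intro ε hε
    obtain ⟨n₀, hn₀⟩ := Metric.cauchySeq_iff.mp hu ε hε
    refine ⟨n₀, fun m hm n hn => ?_⟩
    have := hn₀ m hm n hn
    rw [dist_eq_norm] at this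
    exact this
  have hlim : ∀ x, ∃ l, Tendsto (fun n => u n x) atTop (𝓝 l) := by
    intro x
    refine cauchySeq_tendsto_of_complete ?_
    rw [Metric.cauchySeq_iff]
    intro ε hε
    obtain ⟨n₀, hn₀⟩ := hu' ε hε
    refine ⟨n₀, fun m hm n hn => ?_⟩
    rw [Real.dist_eq]
    exact (abs_le_N (u m - u n) x).trans_lt (hn₀ m hm n hn)
  choose g hg using hlim
  have key : ∀ ε > 0, ∃ n₀, ∀ m ≥ n₀, (∀ x, |u m x - g x| ≤ ε) ∧
      ∀ x y : Icc (0 : ℝ) 1, |(u m x - g x) - (u m y - g y)| ≤ ε * ω.toFun |(x : ℝ) - y| := by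
    intro ε hε
    obtain ⟨n₀, hn₀⟩ := hu' ε hε
    refine ⟨n₀, fun m hm => ⟨fun x => ?_, fun x y => ?_⟩⟩
    · have h1 : Tendsto (fun n => |u m x - u n x|) atTop (𝓝 |u m x - g x|) :=
        ((hg x).const_sub _).abs
      refine le_of_tendsto h1 ?_
      filter_upwards [eventually_ge_atTop n₀] with n hn
      exact (abs_le_N (u m - u n) x).trans (hn₀ m hm n hn).le
    · have h1 : Tendsto (fun n => |(u m x - u n x) - (u m y - u n y)|) atTop
          (𝓝 |(u m x - g x) - (u m y - g y)|) :=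
        (((hg x).const_sub _).sub ((hg y).const_sub _)).abs
      refine le_of_tendsto h1 ?_
      filter_upwards [eventually_ge_atTop n₀] with n hn
      refine (diff_le_N (u m - u n) x y).trans ?_
      exact mul_le_mul_of_nonneg_right (hn₀ m hm n hn).le (om_nonneg ω x y)
  have hgmem : g ∈ sub ω := by
    obtain ⟨n₀, hn₀⟩ := key 1 one_pos
    refine ⟨N ω (u n₀).1 + 1, fun x y => ?_⟩
    have h1 := (hn₀ n₀ le_rfl).2 x y
    have h2 := diff_le_N (u n₀) x y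
    have h3 : g x - g y = (u n₀ x - u n₀ y) - ((u n₀ x - g x) - (u n₀ y - g y)) := by ring
    rw [h3, add_mul]
    exact (abs_sub _ _).trans (add_le_add h2 h1)
  obtain ⟨G, hG⟩ : ∃ G : COm ω, G = ⟨g, hgmem⟩ := ⟨_, rfl⟩
  refine ⟨G, ?_⟩
  rw [Metric.tendsto_atTop]
  intro ε hε
  obtain ⟨n₀, hn₀⟩ := key (ε / 4) (by positivity)
  refine ⟨n₀, fun n hn => ?_⟩
  rw [dist_eq_norm, norm_def]
  have h1 : N ω (u n - G).1 ≤ ε / 4 + ε / 4 := by
    rw [hG]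
    exact N_le (by positivity) (fun x => (hn₀ n hn).1 x) (fun x y => (hn₀ n hn).2 x y)
  linarith

/-- The graph of a function on the unit interval. -/
def graph (f : Icc (0 : ℝ) 1 → ℝ) : Set Pl := {p | ∃ x : Icc (0 : ℝ) 1, p = !₂[(x : ℝ), f x]}

theorem graph_eq (f : Icc (0 : ℝ) 1 → ℝ) :
    graph f = Gr (IccExtend zero_le_one f) := by
  ext p
  constructor
  · rintro ⟨x, rfl⟩
    refine ⟨x.2, ?_⟩
    show f x = IccExtend zero_le_one f (x : ℝ)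
    rw [IccExtend_val]
  · rintro ⟨h1, h2⟩
    refine ⟨⟨p 0, h1⟩, ?_⟩
    have h3 : p 1 = f ⟨p 0, h1⟩ := by rw [h2, IccExtend_of_mem _ _ h1]
    ext i
    fin_cases i
    · rfl
    · exact h3

/-- The square root modulus. -/
noncomputable def sqrtMod : Modulus where
  toFun := Real.sqrt
  mono := fun x _ y _ h => Real.sqrt_le_sqrt h
  pos := fun t ht => Real.sqrt_pos.mpr ht.1
  zero := Real.sqrt_zero
  lim := by
    have : Tendsto Real.sqrt (𝓝 0) (𝓝 (Real.sqrt 0)) := Real.continuous_sqrt.tendsto 0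
    rw [Real.sqrt_zero] at this
    exact this.mono_left nhdsWithin_le_nhds

/-- The Takagi type function as an element of the space. -/
noncomputable def f₀ : COm sqrtMod :=
  ⟨fun x => Takagi.F x, 3, fun x y => Takagi.F_holder _ _ (abs_mem x y).2⟩

theorem ball_pack {f : COm sqrtMod} (hf : ‖f - f₀‖ < 1 / 24) :
    ∃ γ : ℝ, 0 < γ ∧ γ < 1 ∧ ∃ C : ℝ, 0 < C ∧ (∀ r R : ℝ, 0 < r → r < R → ∀ x ∈ graph f,
      PackLe (Metric.ball x R ∩ graph f) r (C * (R / r) ^ (1 + γ))) ∧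
      ∃ A R₀ : ℝ, 0 < A ∧ 0 < R₀ ∧ ∀ r R : ℝ, 0 < r → r < R → R < R₀ → r < A * R ^ 2 →
        ∀ x ∈ graph f, PackLe (Metric.ball x R ∩ graph f) r
          (C * ((R / (A * R ^ 2)) ^ (1 + γ) * (A * R ^ 2 / r * √(A * R ^ 2 / r)))) := by
  have hd : ∀ x y : Icc (0 : ℝ) 1, |(f x - f₀ x) - (f y - f₀ y)| ≤ 1 / 24 * √|(x : ℝ) - y| := by
    intro x y
    refine (diff_le_N (f - f₀) x y).trans ?_
    exact mul_le_mul_of_nonneg_right hf.le (Real.sqrt_nonneg _)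
  rw [graph_eq]
  refine pack_bound (K := 4) (c := 1 / 24) (by norm_num) (by norm_num) ?_ ?_
  · intro x hx y hy
    rw [IccExtend_of_mem _ _ hx, IccExtend_of_mem _ _ hy]
    have h1 := hd ⟨x, hx⟩ ⟨y, hy⟩
    have h2 : |f₀ ⟨x, hx⟩ - f₀ ⟨y, hy⟩| ≤ 3 * √|x - y| := Takagi.F_holder _ _
      (abs_mem ⟨x, hx⟩ ⟨y, hy⟩).2
    have h3 : f ⟨x, hx⟩ - f ⟨y, hy⟩ = ((f ⟨x, hx⟩ - f₀ ⟨x, hx⟩) - (f ⟨y, hy⟩ - f₀ ⟨y, hy⟩)) +
      (f₀ ⟨x, hx⟩ - f₀ ⟨y, hy⟩) := by ring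
    rw [h3]
    refine (abs_add_le _ _).trans ?_
    have h4 := Real.sqrt_nonneg |x - y|
    simp only at h1
    linarith
  · intro a ha b hb hab
    obtain ⟨u, v, h1, h2, h3, h4, h5⟩ := Takagi.F_osc hab (by linarith [ha.1, hb.2])
    have hu : u ∈ Icc (0 : ℝ) 1 := ⟨ha.1.trans h1, h2.trans hb.2⟩
    have hv : v ∈ Icc (0 : ℝ) 1 := ⟨ha.1.trans h3, h4.trans hb.2⟩
    refine ⟨u, ⟨h1, h2⟩, v, ⟨h3, h4⟩, ?_⟩
    rw [IccExtend_of_mem _ _ hu, IccExtend_of_mem _ _ hv]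
    have h6 := hd ⟨u, hu⟩ ⟨v, hv⟩
    have h7 : |Takagi.F u - Takagi.F v| ≤ |(f ⟨u, hu⟩ - f₀ ⟨u, hu⟩) - (f ⟨v, hv⟩ - f₀ ⟨v, hv⟩)| +
        |f ⟨u, hu⟩ - f ⟨v, hv⟩| := by
      have : Takagi.F u - Takagi.F v = -((f ⟨u, hu⟩ - f₀ ⟨u, hu⟩) - (f ⟨v, hv⟩ - f₀ ⟨v, hv⟩)) +
        (f ⟨u, hu⟩ - f ⟨v, hv⟩) := by
        show f₀ ⟨u, hu⟩ - f₀ ⟨v, hv⟩ = _
        ring
      rw [this]
      refine (abs_add_le _ _).trans ?_
      rw [abs_neg]
    have h8 : √|u - v| ≤ √(b - a) := by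
      refine Real.sqrt_le_sqrt ?_
      rw [abs_le]; constructor <;> linarith
    simp only at h6
    linarith

theorem one_le_of_pack {E : Set Pl} {x : Pl} (hx : x ∈ E) {r M : ℝ} (h : PackLe E r M) :
    1 ≤ M := by
  have := h {x} (by simpa using hx) (by simp)
  simpa using this

theorem graph_nonempty (f : Icc (0 : ℝ) 1 → ℝ) : (graph f).Nonempty :=
  ⟨!₂[(0 : ℝ), f ⟨0, le_rfl, zero_le_one⟩], ⟨⟨0, le_rfl, zero_le_one⟩, rfl⟩⟩

theorem ball_dimA {f : COm sqrtMod} (hf : ‖f - f₀‖ < 1 / 24) : dimA (graph f) < 2 := by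
  obtain ⟨γ, _, hγ, C, hC, h, _⟩ := ball_pack hf
  have hbdd : BddBelow {β : ℝ | ∃ C : ℝ, 0 < C ∧ ∀ r R : ℝ, 0 < r → r < R → ∀ x ∈ graph f,
      PackLe (Metric.ball x R ∩ graph f) r (C * (R / r) ^ β)} := by
    refine ⟨0, ?_⟩
    rintro β ⟨C, hC, h⟩
    by_contra hβ
    push Not at hβ
    obtain ⟨x, hx⟩ := graph_nonempty f.1
    have h1 : Tendsto (fun R : ℝ => C * (R / 1) ^ β) atTop (𝓝 (C * 0)) := by
      refine Tendsto.const_mul _ ?_
      have := tendsto_rpow_neg_atTop (y := -β) (by linarith)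
      simpa using this
    rw [mul_zero] at h1
    obtain ⟨R, hR1, hR2⟩ := ((h1.eventually (gt_mem_nhds (zero_lt_one (α := ℝ)))).and
      (eventually_gt_atTop 1)).exists
    have := one_le_of_pack (E := Metric.ball x R ∩ graph f) (x := x)
      ⟨Metric.mem_ball_self (by linarith), hx⟩
      (h 1 R one_pos hR2 x hx)
    linarith
  have := csInf_le hbdd ⟨C, hC, h⟩
  have h2 : dimA (graph f) ≤ 1 + γ := this
  linarith

theorem ball_dimSpec {f : COm sqrtMod} (hf : ‖f - f₀‖ < 1 / 24) {θ : ℝ} (hθ : θ < 1) :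
    dimSpec θ (graph f) < 2 := by
  obtain ⟨γ, _, hγ, C, hC, h, _⟩ := ball_pack hf
  have hbdd : BddBelow {β : ℝ | ∃ C : ℝ, 0 < C ∧ ∀ r : ℝ, 0 < r → r < 1 → ∀ x ∈ graph f,
      PackLe (Metric.ball x (r ^ θ) ∩ graph f) r (C * (r ^ (θ - 1)) ^ β)} := by
    refine ⟨0, ?_⟩
    rintro β ⟨C, hC, h⟩
    by_contra hβ
    push Not at hβ
    obtain ⟨x, hx⟩ := graph_nonempty f.1
    have h1 : Tendsto (fun r : ℝ => C * (r ^ (θ - 1)) ^ β) (𝓝[>] 0) (𝓝 (C * 0)) := by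
      refine Tendsto.const_mul _ ?_
      have h2 : Tendsto (fun r : ℝ => r ^ ((θ - 1) * β)) (𝓝[>] 0) (𝓝 (0 ^ ((θ - 1) * β))) :=
        ((Real.continuousAt_rpow_const 0 _ (Or.inr (by nlinarith))).tendsto).mono_left
          nhdsWithin_le_nhds
      rw [Real.zero_rpow (by nlinarith)] at h2
      refine h2.congr' ?_
      filter_upwards [self_mem_nhdsWithin] with r hr
      exact Real.rpow_mul (le_of_lt hr) _ _
    rw [mul_zero] at h1
    obtain ⟨r, hr1, hr2, hr3⟩ := ((h1.eventually (gt_mem_nhds (zero_lt_one (α := ℝ)))).and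
      (Ioo_mem_nhdsGT (zero_lt_one (α := ℝ)))).exists
    · have := one_le_of_pack (E := Metric.ball x (r ^ θ) ∩ graph f) (x := x)
        ⟨Metric.mem_ball_self (Real.rpow_pos_of_pos hr2 _), hx⟩
        (h r hr2 hr3 x hx)
      linarith
  have := csInf_le hbdd (a := 1 + γ) ⟨C, hC, fun r hr hr1 x hx => by
    have e : r ^ θ / r = r ^ (θ - 1) := by
      rw [Real.rpow_sub hr, Real.rpow_one]
    rw [← e]
    refine h r (r ^ θ) hr ?_ x hx
    calc r = r ^ (1 : ℝ) := (Real.rpow_one r).symm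
      _ < r ^ θ := Real.rpow_lt_rpow_of_exponent_gt hr hr1 hθ⟩
  have h2 : dimSpec θ (graph f) ≤ 1 + γ := this
  linarith

/-- On the ball the spectrum is strictly smaller than the general upper bound. -/
theorem ball_dimSpec_lt {f : COm sqrtMod} (hf : ‖f - f₀‖ < 1 / 24) {θ : ℝ} (hθ0 : 0 < θ)
    (hθ : θ < 1 / 2) : dimSpec θ (graph f) < (3 / 2 - θ) / (1 - θ) := by
  obtain ⟨γ, hγ0, hγ, C, hC, h, A, R₀, hA, hR₀, h2⟩ := ball_pack hf
  have hbdd : BddBelow {β : ℝ | ∃ C : ℝ, 0 < C ∧ ∀ r : ℝ, 0 < r → r < 1 → ∀ x ∈ graph f,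
      PackLe (Metric.ball x (r ^ θ) ∩ graph f) r (C * (r ^ (θ - 1)) ^ β)} := by
    refine ⟨0, ?_⟩
    rintro β ⟨C, hC, h⟩
    by_contra hβ
    push Not at hβ
    obtain ⟨x, hx⟩ := graph_nonempty f.1
    have h1 : Tendsto (fun r : ℝ => C * (r ^ (θ - 1)) ^ β) (𝓝[>] 0) (𝓝 (C * 0)) := by
      refine Tendsto.const_mul _ ?_
      have h2 : Tendsto (fun r : ℝ => r ^ ((θ - 1) * β)) (𝓝[>] 0) (𝓝 (0 ^ ((θ - 1) * β))) :=
        ((Real.continuousAt_rpow_const 0 _ (Or.inr (by nlinarith))).tendsto).mono_left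
          nhdsWithin_le_nhds
      rw [Real.zero_rpow (by nlinarith)] at h2
      refine h2.congr' ?_
      filter_upwards [self_mem_nhdsWithin] with r hr
      exact Real.rpow_mul (le_of_lt hr) _ _
    rw [mul_zero] at h1
    obtain ⟨r, hr1, hr2, hr3⟩ := ((h1.eventually (gt_mem_nhds (zero_lt_one (α := ℝ)))).and
      (Ioo_mem_nhdsGT (zero_lt_one (α := ℝ)))).exists
    · have := one_le_of_pack (E := Metric.ball x (r ^ θ) ∩ graph f) (x := x)
        ⟨Metric.mem_ball_self (Real.rpow_pos_of_pos hr2 _), hx⟩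
        (h r hr2 hr3 x hx)
      linarith
  -- the small scale on which the second regime applies
  have hev : ∀ᶠ r : ℝ in 𝓝[>] 0, r ^ θ < R₀ ∧ r < A * (r ^ θ) ^ 2 := by
    have e1 : Tendsto (fun r : ℝ => r ^ θ) (𝓝[>] 0) (𝓝 (0 ^ θ)) :=
      ((Real.continuousAt_rpow_const 0 _ (Or.inr hθ0.le)).tendsto).mono_left nhdsWithin_le_nhds
    rw [Real.zero_rpow hθ0.ne'] at e1
    have e2 : Tendsto (fun r : ℝ => r ^ (1 - 2 * θ)) (𝓝[>] 0) (𝓝 (0 ^ (1 - 2 * θ))) :=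
      ((Real.continuousAt_rpow_const 0 _ (Or.inr (by linarith))).tendsto).mono_left
        nhdsWithin_le_nhds
    rw [Real.zero_rpow (by linarith)] at e2
    filter_upwards [e1.eventually (gt_mem_nhds hR₀), e2.eventually (gt_mem_nhds hA),
      self_mem_nhdsWithin] with r hr1 hr2 hr3
    have hr3' : (0 : ℝ) < r := hr3
    refine ⟨hr1, ?_⟩
    have e3 : (r ^ θ) ^ 2 = r ^ (2 * θ) := by
      rw [← Real.rpow_natCast, ← Real.rpow_mul hr3'.le]; congr 1; push_cast; ring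
    have e4 : r = r ^ (1 - 2 * θ) * r ^ (2 * θ) := by
      rw [← Real.rpow_add hr3', sub_add_cancel, Real.rpow_one]
    rw [e3]
    conv_lhs => rw [e4]
    exact mul_lt_mul_of_pos_right hr2 (Real.rpow_pos_of_pos hr3' _)
  obtain ⟨r₀, hr₀, hr₀'⟩ := (mem_nhdsGT_iff_exists_Ioo_subset.mp hev)
  have hr₀0 : (0 : ℝ) < r₀ := hr₀
  obtain ⟨β, hβ⟩ : ∃ β : ℝ, β = (3 / 2 - θ * (2 - γ)) / (1 - θ) := ⟨_, rfl⟩
  have hβpos : 0 < β := by
    rw [hβ]
    refine div_pos ?_ (by linarith)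
    nlinarith
  obtain ⟨D, hD⟩ : ∃ D : ℝ, D = (1 / A) ^ (1 + γ) * (A * √A) := ⟨_, rfl⟩
  have hD0 : 0 < D := by rw [hD]; positivity
  have hmem : β ∈ {β : ℝ | ∃ C : ℝ, 0 < C ∧ ∀ r : ℝ, 0 < r → r < 1 → ∀ x ∈ graph f,
      PackLe (Metric.ball x (r ^ θ) ∩ graph f) r (C * (r ^ (θ - 1)) ^ β)} := by
    refine ⟨C * (1 / r₀) ^ (1 + γ) + C * D, by positivity, fun r hr hr1 x hx S hS hS' => ?_⟩
    have hrR : r < r ^ θ := by
      calc r = r ^ (1 : ℝ) := (Real.rpow_one r).symm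
        _ < r ^ θ := Real.rpow_lt_rpow_of_exponent_gt hr hr1 (by linarith)
    have hRpos : 0 < r ^ θ := Real.rpow_pos_of_pos hr θ
    have hone : 1 ≤ (r ^ (θ - 1)) ^ β := by
      refine Real.one_le_rpow ?_ hβpos.le
      exact Real.one_le_rpow_of_pos_of_le_one_of_nonpos hr hr1.le (by linarith)
    by_cases hrr : r < r₀
    · obtain ⟨h3, h4⟩ := hr₀' ⟨hr, hrr⟩
      have h5 := h2 r (r ^ θ) hr hrR h3 h4 x hx S hS hS'
      have h6 : (r ^ θ / (A * (r ^ θ) ^ 2)) ^ (1 + γ) *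
          (A * (r ^ θ) ^ 2 / r * √(A * (r ^ θ) ^ 2 / r)) = D * (r ^ (θ - 1)) ^ β := by
        have e1 : r ^ θ / (A * (r ^ θ) ^ 2) = (1 / A) * r ^ (-θ) := by
          rw [Real.rpow_neg hr.le]; field_simp
        have e2 : A * (r ^ θ) ^ 2 / r = A * r ^ (2 * θ - 1) := by
          rw [Real.rpow_sub hr, Real.rpow_one, two_mul, Real.rpow_add hr]; ring
        have e3 : √(A * r ^ (2 * θ - 1)) = √A * r ^ ((2 * θ - 1) / 2) := by
          rw [Real.sqrt_mul hA.le, Real.sqrt_eq_rpow (r ^ (2 * θ - 1)), ← Real.rpow_mul hr.le]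
          congr 2; ring
        have e4 : (r ^ (θ - 1)) ^ β = r ^ (-θ * (1 + γ) + (2 * θ - 1) + (2 * θ - 1) / 2) := by
          rw [← Real.rpow_mul hr.le]
          congr 1
          rw [hβ]
          have : (1 - θ) ≠ 0 := by linarith
          field_simp
          ring
        rw [e1, e2, e3, e4, Real.mul_rpow (by positivity) (by positivity), ← Real.rpow_mul hr.le,
          Real.rpow_add hr, Real.rpow_add hr, hD]
        ring
      rw [h6] at h5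
      have h7 : (0 : ℝ) ≤ C * (1 / r₀) ^ (1 + γ) * (r ^ (θ - 1)) ^ β := by positivity
      linarith
    · push Not at hrr
      have h5 := h r (r ^ θ) hr hrR x hx S hS hS'
      have h6 : (r ^ θ / r) ^ (1 + γ) ≤ (1 / r₀) ^ (1 + γ) := by
        refine Real.rpow_le_rpow (by positivity) ?_ (by linarith)
        refine div_le_div₀ zero_le_one (Real.rpow_le_one hr.le hr1.le hθ0.le) hr₀0 hrr
      have h7 : C * (r ^ θ / r) ^ (1 + γ) ≤ C * (1 / r₀) ^ (1 + γ) :=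
        mul_le_mul_of_nonneg_left h6 hC.le
      have h8 : C * (1 / r₀) ^ (1 + γ) ≤ C * (1 / r₀) ^ (1 + γ) * (r ^ (θ - 1)) ^ β :=
        le_mul_of_one_le_right (by positivity) hone
      have h9 : (0 : ℝ) ≤ C * D * (r ^ (θ - 1)) ^ β := by positivity
      linarith
  have h3 : dimSpec θ (graph f) ≤ β := csInf_le hbdd hmem
  refine h3.trans_lt ?_
  rw [hβ]
  refine div_lt_div_of_pos_right ?_ (by linarith)
  nlinarith

/-- A property failing on a ball is not residual. -/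
theorem not_residual {P : Set (COm sqrtMod)} (h : ∀ f : COm sqrtMod, ‖f - f₀‖ < 1 / 24 → f ∉ P) :
    P ∉ residual (COm sqrtMod) := by
  intro hP
  have hd := dense_of_mem_residual hP
  obtain ⟨f, hf1, hf2⟩ := hd.inter_open_nonempty (Metric.ball f₀ (1 / 24)) Metric.isOpen_ball
    ⟨f₀, Metric.mem_ball_self (by norm_num)⟩
  rw [Metric.mem_ball, dist_eq_norm] at hf1
  exact h f hf1 hf2

theorem sqrt_concave : ConcaveOn ℝ (Icc (0 : ℝ) 1) sqrtMod.toFun :=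
  (Real.strictConcaveOn_sqrt.concaveOn).subset Icc_subset_Ici_self (convex_Icc _ _)

theorem sqrt_div : Tendsto (fun t => sqrtMod.toFun t / t) (𝓝[>] 0) atTop := by
  have h1 : Tendsto (fun t : ℝ => (√t)⁻¹) (𝓝[>] 0) atTop := by
    have h2 : Tendsto (fun t : ℝ => √t) (𝓝[>] 0) (𝓝[>] 0) := by
      refine tendsto_nhdsWithin_iff.mpr ⟨sqrtMod.lim, ?_⟩
      filter_upwards [self_mem_nhdsWithin] with t ht
      exact Real.sqrt_pos.mpr ht
    exact h2.inv_tendsto_nhdsGT_zero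
  refine h1.congr' ?_
  filter_upwards [self_mem_nhdsWithin] with t ht
  have ht' : 0 < t := ht
  show (√t)⁻¹ = √t / t
  rw [inv_eq_one_div, div_eq_div_iff (Real.sqrt_pos.mpr ht').ne' ht'.ne', one_mul,
    Real.mul_self_sqrt ht'.le]

theorem sqrt_log : Tendsto (fun t => Real.log (sqrtMod.toFun t) / Real.log t) (𝓝[>] 0)
    (𝓝 (1 / 2)) := by
  refine tendsto_const_nhds.congr' ?_
  filter_upwards [Ioo_mem_nhdsGT (zero_lt_one (α := ℝ))] with t ht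
  show 1 / 2 = Real.log (√t) / Real.log t
  rw [Real.log_sqrt ht.1.le]
  have := (Real.log_neg ht.1 ht.2).ne
  field_simp

end Pool.Agent.V1199.COmega
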