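import Mathlib

open Set Filter Topology

namespace Pool.Agent.V1199.Tsirelson

/-- The finite sequences, indexed by `1, 2, 3, …`. -/
abbrev c00 : Type := ℕ+ →₀ ℝ

/-- The restriction `Ex` of `x` to the finite set `E`. -/
noncomputable def res (E : Finset ℕ+) (x : c00) : c00 := x.filter (· ∈ E)

/-- `n ≤ E_1 < E_2 < … < E_n`, all sets non-empty (the sets are numbered from `0`). -/
def Admissible {n : ℕ} (E : Fin n → Finset ℕ+) : Prop :=
  (∀ i, (E i).Nonempty) ∧ (∀ i, ∀ k ∈ E i, n ≤ (k : ℕ)) ∧ ∀ i j, i < j → ∀ a ∈ E i, ∀ b ∈ E j, a < b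

/-- The set of the numbers `|x_k|` and `(1/2) ∑ N(E_i x)`. -/
def vals (N : c00 → ℝ) (x : c00) : Set ℝ :=
  {r | (∃ k, r = |x k|) ∨ ∃ (n : ℕ) (E : Fin n → Finset ℕ+), 1 ≤ n ∧ Admissible E ∧
    r = 1 / 2 * ∑ i, N (res (E i) x)}

/-- `N` satisfies the implicit equation of Figiel and Johnson. -/
def IsTsirelson (N : c00 → ℝ) : Prop := ∀ x, IsLUB (vals N x) (N x)

/-- The `ℓ₁` norm. -/
noncomputable def l1 (x : c00) : ℝ := ∑ k ∈ x.support, |x k|

theorem l1_eq {x : c00} {s : Finset ℕ+} (hs : x.support ⊆ s) : l1 x = ∑ k ∈ s, |x k| := by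
  refine Finset.sum_subset hs fun k _ hk => ?_
  rw [Finsupp.notMem_support_iff] at hk
  rw [hk, abs_zero]

theorem l1_nonneg (x : c00) : 0 ≤ l1 x := Finset.sum_nonneg fun _ _ => abs_nonneg _

theorem res_apply (E : Finset ℕ+) (x : c00) (k : ℕ+) : res E x k = if k ∈ E then x k else 0 := by
  unfold res
  rw [Finsupp.filter_apply]

theorem res_add (E : Finset ℕ+) (x y : c00) : res E (x + y) = res E x + res E y := by
  ext k
  rw [Finsupp.add_apply, res_apply, res_apply, res_apply, Finsupp.add_apply]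
  split_ifs <;> simp

theorem res_smul (E : Finset ℕ+) (c : ℝ) (x : c00) : res E (c • x) = c • res E x := by
  ext k
  rw [Finsupp.smul_apply, res_apply, res_apply, Finsupp.smul_apply]
  split_ifs <;> simp

theorem l1_res (E : Finset ℕ+) (x : c00) : l1 (res E x) = ∑ k ∈ x.support, if k ∈ E then |x k| else 0 := by
  have h : (res E x).support ⊆ x.support := by
    intro k hk
    rw [Finsupp.mem_support_iff, res_apply] at hk
    rw [Finsupp.mem_support_iff]
    intro h0
    exact hk (by simp [h0])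
  rw [l1_eq h]
  refine Finset.sum_congr rfl fun k _ => ?_
  rw [res_apply]
  split_ifs <;> simp

theorem sum_l1_res {n : ℕ} {E : Fin n → Finset ℕ+} (hE : Admissible E) (x : c00) :
    ∑ i, l1 (res (E i) x) ≤ l1 x := by
  simp only [l1_res]
  rw [Finset.sum_comm]
  refine Finset.sum_le_sum fun k _ => ?_
  by_cases h : ∃ i, k ∈ E i
  · obtain ⟨i, hi⟩ := h
    rw [Finset.sum_eq_single i]
    · rw [if_pos hi]
    · intro j _ hj
      refine if_neg fun hk => ?_
      rcases lt_or_gt_of_ne hj with h1 | h1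
      · exact lt_irrefl _ (hE.2.2 j i h1 k hk k hi)
      · exact lt_irrefl _ (hE.2.2 i j h1 k hi k hk)
    · intro h; exact absurd (Finset.mem_univ i) h
  · push Not at h
    rw [Finset.sum_eq_zero fun i _ => if_neg (h i)]
    exact abs_nonneg _

/-- One step of the iteration. -/
noncomputable def step (N : c00 → ℝ) (x : c00) : ℝ := sSup (vals N x)

theorem vals_bdd {N : c00 → ℝ} (hN : ∀ x, N x ≤ l1 x) (x : c00) : ∀ r ∈ vals N x, r ≤ l1 x := by
  rintro r (⟨k, rfl⟩ | ⟨n, E, _, hE, rfl⟩)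
  · by_cases hk : k ∈ x.support
    · exact Finset.single_le_sum (f := fun k => |x k|) (fun _ _ => abs_nonneg _) hk
    · rw [Finsupp.notMem_support_iff] at hk
      rw [hk, abs_zero]
      exact l1_nonneg x
  · have h1 : ∑ i, N (res (E i) x) ≤ l1 x :=
      (Finset.sum_le_sum fun i _ => hN _).trans (sum_l1_res hE x)
    have := l1_nonneg x
    linarith

theorem abs_mem_vals (N : c00 → ℝ) (x : c00) (k : ℕ+) : |x k| ∈ vals N x := Or.inl ⟨k, rfl⟩

/-- The iterates. -/
noncomputable def iter : ℕ → c00 → ℝ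
  | 0 => fun x => sSup (range fun k => |x k|)
  | m + 1 => step (iter m)

theorem iter_le (m : ℕ) (x : c00) : iter m x ≤ l1 x := by
  induction m generalizing x with
  | zero =>
    refine csSup_le (range_nonempty _) ?_
    rintro _ ⟨k, rfl⟩
    exact vals_bdd (N := l1) (fun _ => le_rfl) x _ (abs_mem_vals _ x k)
  | succ m ih => exact csSup_le ⟨_, abs_mem_vals _ x 1⟩ (vals_bdd ih x)

theorem iter_bdd (m : ℕ) (x : c00) : BddAbove (vals (iter m) x) :=
  ⟨l1 x, fun r hr => vals_bdd (iter_le m) x r hr⟩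

theorem iter_mono (m : ℕ) (x : c00) : iter m x ≤ iter (m + 1) x := by
  induction m generalizing x with
  | zero =>
    refine csSup_le (range_nonempty _) ?_
    rintro _ ⟨k, rfl⟩
    exact le_csSup (iter_bdd 0 x) (abs_mem_vals _ x k)
  | succ m ih =>
    refine csSup_le ⟨_, abs_mem_vals _ x 1⟩ ?_
    rintro r (⟨k, rfl⟩ | ⟨n, E, hn, hE, rfl⟩)
    · exact le_csSup (iter_bdd (m + 1) x) (abs_mem_vals _ x k)
    · have h1 : 1 / 2 * ∑ i, iter m (res (E i) x) ≤ 1 / 2 * ∑ i, iter (m + 1) (res (E i) x) :=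
        mul_le_mul_of_nonneg_left (Finset.sum_le_sum fun i _ => ih _) (by norm_num)
      exact h1.trans (le_csSup (iter_bdd (m + 1) x) (Or.inr ⟨n, E, hn, hE, rfl⟩))

theorem iter_monotone (x : c00) : Monotone fun m => iter m x :=
  monotone_nat_of_le_succ fun m => iter_mono m x

theorem iter_add (m : ℕ) (x y : c00) : iter m (x + y) ≤ iter m x + iter m y := by
  have hb : ∀ z : c00, BddAbove (range fun k => |z k|) := fun z =>
    ⟨l1 z, by rintro _ ⟨k, rfl⟩; exact vals_bdd (N := l1) (fun _ => le_rfl) z _ (abs_mem_vals _ z k)⟩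
  induction m generalizing x y with
  | zero =>
    refine csSup_le (range_nonempty _) ?_
    rintro _ ⟨k, rfl⟩
    show |(x + y) k| ≤ _
    rw [Finsupp.add_apply]
    exact (abs_add_le _ _).trans (add_le_add (le_csSup (hb x) ⟨k, rfl⟩) (le_csSup (hb y) ⟨k, rfl⟩))
  | succ m ih =>
    refine csSup_le ⟨_, abs_mem_vals _ _ 1⟩ ?_
    rintro r (⟨k, rfl⟩ | ⟨n, E, hn, hE, rfl⟩)
    · rw [Finsupp.add_apply]
      exact (abs_add_le _ _).trans (add_le_add (le_csSup (iter_bdd m x) (abs_mem_vals _ x k))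
        (le_csSup (iter_bdd m y) (abs_mem_vals _ y k)))
    · have h1 : ∑ i, iter m (res (E i) (x + y)) ≤
          ∑ i, iter m (res (E i) x) + ∑ i, iter m (res (E i) y) := by
        rw [← Finset.sum_add_distrib]
        refine Finset.sum_le_sum fun i _ => ?_
        rw [res_add]; exact ih _ _
      have h2 := le_csSup (iter_bdd m x) (Or.inr ⟨n, E, hn, hE, rfl⟩)
      have h3 := le_csSup (iter_bdd m y) (Or.inr ⟨n, E, hn, hE, rfl⟩)
      show _ ≤ step (iter m) x + step (iter m) y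
      unfold step
      linarith

theorem iter_smul_le (m : ℕ) (c : ℝ) (x : c00) : iter m (c • x) ≤ |c| * iter m x := by
  have hb : ∀ z : c00, BddAbove (range fun k => |z k|) := fun z =>
    ⟨l1 z, by rintro _ ⟨k, rfl⟩; exact vals_bdd (N := l1) (fun _ => le_rfl) z _ (abs_mem_vals _ z k)⟩
  induction m generalizing x with
  | zero =>
    refine csSup_le (range_nonempty _) ?_
    rintro _ ⟨k, rfl⟩
    show |(c • x) k| ≤ _
    rw [Finsupp.smul_apply, smul_eq_mul, abs_mul]
    exact mul_le_mul_of_nonneg_left (le_csSup (hb x) ⟨k, rfl⟩) (abs_nonneg _)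
  | succ m ih =>
    refine csSup_le ⟨_, abs_mem_vals _ _ 1⟩ ?_
    rintro r (⟨k, rfl⟩ | ⟨n, E, hn, hE, rfl⟩)
    · rw [Finsupp.smul_apply, smul_eq_mul, abs_mul]
      exact mul_le_mul_of_nonneg_left (le_csSup (iter_bdd m x) (abs_mem_vals _ x k)) (abs_nonneg _)
    · have h1 : ∑ i, iter m (res (E i) (c • x)) ≤ |c| * ∑ i, iter m (res (E i) x) := by
        rw [Finset.mul_sum]
        refine Finset.sum_le_sum fun i _ => ?_
        rw [res_smul]; exact ih _
      have h2 := le_csSup (iter_bdd m x) (Or.inr ⟨n, E, hn, hE, rfl⟩)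
      calc 1 / 2 * ∑ i, iter m (res (E i) (c • x)) ≤ |c| * (1 / 2 * ∑ i, iter m (res (E i) x)) := by
            linarith
        _ ≤ |c| * step (iter m) x := mul_le_mul_of_nonneg_left h2 (abs_nonneg _)

/-- The Tsirelson norm. -/
noncomputable def tnorm (x : c00) : ℝ := ⨆ m, iter m x

theorem tnorm_bdd (x : c00) : BddAbove (range fun m => iter m x) :=
  ⟨l1 x, by rintro _ ⟨m, rfl⟩; exact iter_le m x⟩

theorem iter_le_tnorm (m : ℕ) (x : c00) : iter m x ≤ tnorm x := le_ciSup (tnorm_bdd x) m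

theorem tendsto_iter (x : c00) : Tendsto (fun m => iter m x) atTop (𝓝 (tnorm x)) :=
  tendsto_atTop_ciSup (iter_monotone x) (tnorm_bdd x)

theorem abs_le_tnorm (x : c00) (k : ℕ+) : |x k| ≤ tnorm x :=
  (le_csSup (iter_bdd 0 x) (abs_mem_vals _ x k)).trans (iter_le_tnorm 1 x)

theorem isTsirelson_tnorm : IsTsirelson tnorm := by
  intro x
  constructor
  · rintro r (⟨k, rfl⟩ | ⟨n, E, hn, hE, rfl⟩)
    · exact abs_le_tnorm x k
    · have h1 : Tendsto (fun m => 1 / 2 * ∑ i, iter m (res (E i) x)) atTop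
          (𝓝 (1 / 2 * ∑ i, tnorm (res (E i) x))) :=
        (tendsto_finset_sum _ fun i _ => tendsto_iter _).const_mul _
      refine le_of_tendsto h1 (Eventually.of_forall fun m => ?_)
      exact (le_csSup (iter_bdd m x) (Or.inr ⟨n, E, hn, hE, rfl⟩)).trans (iter_le_tnorm (m + 1) x)
  · intro b hb
    have key : ∀ m, iter m x ≤ b := by
      intro m
      refine (iter_mono m x).trans (csSup_le ⟨_, abs_mem_vals _ _ 1⟩ ?_)
      rintro r (⟨k, rfl⟩ | ⟨n, E, hn, hE, rfl⟩)
      · exact hb (abs_mem_vals _ x k)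
      · have h1 : 1 / 2 * ∑ i, iter m (res (E i) x) ≤ 1 / 2 * ∑ i, tnorm (res (E i) x) :=
          mul_le_mul_of_nonneg_left (Finset.sum_le_sum fun i _ => iter_le_tnorm m _) (by norm_num)
        exact h1.trans (hb (Or.inr ⟨n, E, hn, hE, rfl⟩))
    exact ciSup_le key

theorem tnorm_nonneg (x : c00) : 0 ≤ tnorm x := (abs_nonneg _).trans (abs_le_tnorm x 1)

theorem tnorm_add (x y : c00) : tnorm (x + y) ≤ tnorm x + tnorm y :=
  ciSup_le fun m => (iter_add m x y).trans (add_le_add (iter_le_tnorm m x) (iter_le_tnorm m y))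

theorem tnorm_smul_le (c : ℝ) (x : c00) : tnorm (c • x) ≤ |c| * tnorm x :=
  ciSup_le fun m => (iter_smul_le m c x).trans
    (mul_le_mul_of_nonneg_left (iter_le_tnorm m x) (abs_nonneg _))

/-- The space `c₀₀` with the Tsirelson norm. -/
def T0 : Type := c00

noncomputable instance : AddCommGroup T0 := inferInstanceAs (AddCommGroup c00)
noncomputable instance : Module ℝ T0 := inferInstanceAs (Module ℝ c00)

noncomputable instance : Norm T0 := ⟨fun x => tnorm x⟩

theorem norm_core : NormedSpace.Core ℝ T0 where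
  norm_nonneg x := tnorm_nonneg x
  norm_smul c x := by
    refine le_antisymm (tnorm_smul_le c x) ?_
    rcases eq_or_ne c 0 with rfl | hc
    · rw [norm_zero, zero_mul]; exact tnorm_nonneg _
    · have h1 := tnorm_smul_le c⁻¹ (c • x)
      have h2 : c⁻¹ • c • x = x := inv_smul_smul₀ hc x
      have h3 : tnorm x ≤ |c⁻¹| * tnorm (c • x) := by
        have h4 : tnorm (c⁻¹ • (c • x : c00)) = tnorm x := congrArg tnorm h2
        rw [← h4]; exact h1
      show |c| * tnorm x ≤ tnorm (c • x)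
      calc |c| * tnorm x ≤ |c| * (|c⁻¹| * tnorm (c • x)) :=
            mul_le_mul_of_nonneg_left h3 (abs_nonneg _)
        _ = (|c| * |c⁻¹|) * tnorm (c • x) := by ring
        _ = tnorm (c • x) := by rw [← abs_mul, mul_inv_cancel₀ hc, abs_one, one_mul]
  norm_triangle x y := tnorm_add x y
  norm_eq_zero_iff x := by
    constructor
    · intro h
      refine Finsupp.ext (f := (x : c00)) (g := (0 : c00)) fun k => ?_
      have h1 := abs_le_tnorm x k
      have h2 : tnorm x = 0 := h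
      rw [h2] at h1
      exact abs_eq_zero.mp (le_antisymm h1 (abs_nonneg _))
    · rintro rfl
      have h1 := tnorm_smul_le 0 (0 : c00)
      rw [abs_zero, zero_mul, zero_smul] at h1
      exact le_antisymm h1 (tnorm_nonneg _)

noncomputable instance : NormedAddCommGroup T0 := NormedAddCommGroup.ofCore norm_core
noncomputable instance : NormedSpace ℝ T0 := NormedSpace.ofCore norm_core

theorem norm_T0 (x : T0) : ‖x‖ = tnorm x := rfl

/-- The vectors `e_{2j+4} + e_{2j+5}`. -/
noncomputable def vec (j : ℕ) : c00 :=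
  Finsupp.single (Nat.succPNat (2 * j + 3)) 1 + Finsupp.single (Nat.succPNat (2 * j + 4)) 1

theorem succ_eq_iff (n : ℕ) (k : ℕ+) : Nat.succPNat n = k ↔ (k : ℕ) = n + 1 := by
  rw [← PNat.coe_inj, Nat.succPNat_coe]
  exact eq_comm

theorem vec_apply (j : ℕ) (k : ℕ+) :
    vec j k = if (k : ℕ) = 2 * j + 4 ∨ (k : ℕ) = 2 * j + 5 then 1 else 0 := by
  unfold vec
  rw [Finsupp.add_apply, Finsupp.single_apply, Finsupp.single_apply]
  simp only [succ_eq_iff]
  split_ifs <;> first | omega | norm_num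

section space

variable {T : Type*} [NormedAddCommGroup T] [NormedSpace ℝ T]

theorem abs_le_norm {ι : c00 →ₗ[ℝ] T} (hι : IsTsirelson fun x => ‖ι x‖) (x : c00) (k : ℕ+) :
    |x k| ≤ ‖ι x‖ := (hι x).1 (abs_mem_vals _ x k)

theorem norm_single {ι : c00 →ₗ[ℝ] T} (hι : IsTsirelson fun x => ‖ι x‖) (k : ℕ+) :
    ‖ι (Finsupp.single k 1)‖ ≤ 1 := by
  by_contra hcon
  push Not at hcon
  have hub : ∀ r ∈ vals (fun x => ‖ι x‖) (Finsupp.single k 1),
      r ≤ max 1 (1 / 2 * ‖ι (Finsupp.single k 1)‖) := by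
    rintro r (⟨l, rfl⟩ | ⟨n, E, hn, hE, rfl⟩)
    · refine le_max_of_le_left ?_
      rw [Finsupp.single_apply]
      split_ifs <;> simp
    · refine le_max_of_le_right (mul_le_mul_of_nonneg_left ?_ (by norm_num))
      have h1 : ∀ i, ‖ι (res (E i) (Finsupp.single k 1))‖ =
          ‖ι (Finsupp.single k 1)‖ * l1 (res (E i) (Finsupp.single k 1)) := by
        intro i
        by_cases hk : k ∈ E i
        · have h2 : res (E i) (Finsupp.single k (1 : ℝ)) = Finsupp.single k 1 := by
            ext l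
            rw [res_apply, Finsupp.single_apply]
            split_ifs with h3 h4 h4
            · rfl
            · rfl
            · subst h4; exact absurd hk h3
            · rfl
          have h3 : l1 (Finsupp.single k (1 : ℝ)) = 1 := by
            rw [l1_eq (s := {k}) Finsupp.support_single_subset]
            simp
          rw [h2, h3, mul_one]
        · have h2 : res (E i) (Finsupp.single k (1 : ℝ)) = 0 := by
            ext l
            rw [res_apply, Finsupp.single_apply, Finsupp.zero_apply]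
            split_ifs with h3 h4
            · subst h4; exact absurd h3 hk
            · rfl
            · rfl
          have h3 : l1 (0 : c00) = 0 := by simp [l1]
          rw [h2, h3, map_zero, norm_zero, mul_zero]
      have h2 : ∑ i, l1 (res (E i) (Finsupp.single k (1 : ℝ))) ≤ 1 := by
        refine (sum_l1_res hE _).trans ?_
        rw [l1_eq (s := {k}) Finsupp.support_single_subset]
        simp
      show ∑ i, ‖ι (res (E i) (Finsupp.single k 1))‖ ≤ _
      simp only [h1]
      rw [← Finset.mul_sum]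
      exact mul_le_of_le_one_right (norm_nonneg _) h2
  have h1 : ‖ι (Finsupp.single k 1)‖ ≤ max 1 (1 / 2 * ‖ι (Finsupp.single k 1)‖) :=
    (hι (Finsupp.single k 1)).2 hub
  rcases le_max_iff.mp h1 with h2 | h2 <;> linarith

theorem norm_le_l1 {ι : c00 →ₗ[ℝ] T} (hι : IsTsirelson fun x => ‖ι x‖) (x : c00) :
    ‖ι x‖ ≤ l1 x := by
  have h1 : x = ∑ k ∈ x.support, x k • Finsupp.single k (1 : ℝ) := by
    conv_lhs => rw [← Finsupp.sum_single x]
    unfold Finsupp.sum
    refine Finset.sum_congr rfl fun k _ => ?_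
    rw [Finsupp.smul_single, smul_eq_mul, mul_one]
  have h2 : ι x = ∑ k ∈ x.support, x k • ι (Finsupp.single k (1 : ℝ)) := by
    conv_lhs => rw [h1]
    rw [map_sum]
    simp only [map_smul]
  rw [h2]
  refine (norm_sum_le _ _).trans (Finset.sum_le_sum fun k _ => ?_)
  rw [norm_smul, Real.norm_eq_abs]
  exact mul_le_of_le_one_right (abs_nonneg _) (norm_single hι k)

theorem l1_vec (j : ℕ) : l1 (vec j) ≤ 2 := by
  have h2 : (vec j).support ⊆ {Nat.succPNat (2 * j + 3), Nat.succPNat (2 * j + 4)} := by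
    intro k hk
    rw [Finsupp.mem_support_iff, vec_apply] at hk
    rw [Finset.mem_insert, Finset.mem_singleton, eq_comm, succ_eq_iff, @eq_comm _ k,
      succ_eq_iff]
    by_contra hcon
    exact hk (if_neg (by omega))
  have h3 : Nat.succPNat (2 * j + 3) ≠ Nat.succPNat (2 * j + 4) := by
    intro h
    rw [succ_eq_iff, Nat.succPNat_coe] at h
    omega
  rw [l1_eq h2, Finset.sum_pair h3, vec_apply, vec_apply]
  split_ifs <;> norm_num

theorem norm_vec {ι : c00 →ₗ[ℝ] T} (hι : IsTsirelson fun x => ‖ι x‖) (j : ℕ) :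
    ‖ι (vec j)‖ ≤ 1 := by
  refine (hι (vec j)).2 ?_
  rintro r (⟨k, rfl⟩ | ⟨n, E, hn, hE, rfl⟩)
  · rw [vec_apply]
    split_ifs <;> norm_num
  · have h1 := l1_vec j
    have h2 : ∑ i, ‖ι (res (E i) (vec j))‖ ≤ l1 (vec j) :=
      (Finset.sum_le_sum fun i _ => norm_le_l1 hι _).trans (sum_l1_res hE _)
    show 1 / 2 * ∑ i, ‖ι (res (E i) (vec j))‖ ≤ 1
    linarith

theorem two_le_norm {ι : c00 →ₗ[ℝ] T} (hι : IsTsirelson fun x => ‖ι x‖) {i j : ℕ} (hij : i < j) :
    2 ≤ ‖ι (vec i) - ι (vec j)‖ := by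
  rw [← map_sub]
  obtain ⟨x, hx⟩ : ∃ x, x = vec i - vec j := ⟨_, rfl⟩
  rw [← hx]
  let a : Fin 4 → ℕ+ := ![Nat.succPNat (2 * i + 3), Nat.succPNat (2 * i + 4),
    Nat.succPNat (2 * j + 3), Nat.succPNat (2 * j + 4)]
  have ha0 : ((a 0 : ℕ+) : ℕ) = 2 * i + 4 := rfl
  have ha1 : ((a 1 : ℕ+) : ℕ) = 2 * i + 5 := rfl
  have ha2 : ((a 2 : ℕ+) : ℕ) = 2 * j + 4 := rfl
  have ha3 : ((a 3 : ℕ+) : ℕ) = 2 * j + 5 := rfl
  have hmono : StrictMono a := by
    intro p q hpq
    rw [← PNat.coe_lt_coe]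
    fin_cases p <;> fin_cases q <;> first
      | (exfalso; revert hpq; decide)
      | (simp only [Fin.zero_eta, Fin.mk_one, Fin.reduceFinMk, ha0, ha1, ha2, ha3]; omega)
  have hadm : Admissible (fun p => ({a p} : Finset ℕ+)) := by
    refine ⟨fun p => Finset.singleton_nonempty _, fun p k hk => ?_, fun p q hpq k hk l hl => ?_⟩
    · rw [Finset.mem_singleton] at hk
      subst hk
      have h0 : a 0 ≤ a p := hmono.monotone (Fin.zero_le p)
      rw [← PNat.coe_le_coe, ha0] at h0
      omega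
    · rw [Finset.mem_singleton] at hk hl
      subst hk; subst hl
      exact hmono hpq
  have h1 := (hι x).1 (Or.inr ⟨4, fun p => {a p}, by norm_num, hadm, rfl⟩)
  have h2 : ∀ p, 1 ≤ ‖ι (res {a p} x)‖ := by
    intro p
    have h3 := abs_le_norm hι (res {a p} x) (a p)
    rw [res_apply, if_pos (Finset.mem_singleton_self _)] at h3
    refine le_trans ?_ h3
    rw [hx, Finsupp.sub_apply, vec_apply, vec_apply]
    fin_cases p
    · have e1 : ((a ((fun i => i) ⟨0, by omega⟩) : ℕ+) : ℕ) = 2 * i + 4 := rfl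
      rw [e1, if_pos (Or.inl rfl), if_neg (by omega)]; norm_num
    · have e1 : ((a ((fun i => i) ⟨1, by omega⟩) : ℕ+) : ℕ) = 2 * i + 5 := rfl
      rw [e1, if_pos (Or.inr rfl), if_neg (by omega)]; norm_num
    · have e1 : ((a ((fun i => i) ⟨2, by omega⟩) : ℕ+) : ℕ) = 2 * j + 4 := rfl
      rw [e1, if_neg (by omega), if_pos (Or.inl rfl)]; norm_num
    · have e1 : ((a ((fun i => i) ⟨3, by omega⟩) : ℕ+) : ℕ) = 2 * j + 5 := rfl
      rw [e1, if_neg (by omega), if_pos (Or.inr rfl)]; norm_num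
  have h3 : (4 : ℝ) ≤ ∑ p : Fin 4, ‖ι (res {a p} x)‖ := by
    rw [Fin.sum_univ_four]
    linarith [h2 0, h2 1, h2 2, h2 3]
  have h4 : 1 / 2 * ∑ p : Fin 4, ‖ι (res {a p} x)‖ ≤ ‖ι x‖ := h1
  linarith

end space

end Pool.Agent.V1199.Tsirelson
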