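import Mathlib

open Set Filter Topology

namespace Pool.Agent.V1199

variable {𝕜 : Type*} [RCLike 𝕜] {X : Type*} [NormedAddCommGroup X] [NormedSpace 𝕜 X]

theorem wstar_tower : IsScalarTower ℝ 𝕜 (WeakDual 𝕜 X) :=
  ⟨fun a b f => by
    apply ContinuousLinearMap.ext
    intro x
    exact smul_assoc a b (f x)⟩

theorem wstar_group : IsTopologicalAddGroup (WeakDual 𝕜 X) := inferInstance

theorem wstar_smul : ContinuousSMul 𝕜 (WeakDual 𝕜 X) := inferInstance

theorem wstar_lc : LocallyConvexSpace ℝ (WeakDual 𝕜 X) := by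
  let L : WeakDual 𝕜 X →ₗ[ℝ] (X → 𝕜) :=
    { toFun := fun f x => f x
      map_add' := fun f g => rfl
      map_smul' := fun c f => rfl }
  exact LocallyConvexSpace.induced L

theorem wstar_sep {K T : Set (WeakDual 𝕜 X)} (hK : Convex ℝ K) (hKc : IsClosed K)
    (hT : Convex ℝ T) (hTc : IsCompact T) (hd : Disjoint K T) :
    ∃ (f : StrongDual 𝕜 (WeakDual 𝕜 X)) (u v : ℝ), (∀ a ∈ K, RCLike.re (f a) < u) ∧ u < v ∧
      ∀ b ∈ T, v < RCLike.re (f b) := by
  have := @RCLike.geometric_hahn_banach_closed_compact 𝕜 (WeakDual 𝕜 X) _ _ _ K T _ _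
    wstar_tower wstar_group wstar_smul wstar_lc hK hKc hT hTc hd
  exact this

/-- Weak-star continuous functionals are evaluations. -/
theorem wstar_eval (f : StrongDual 𝕜 (WeakDual 𝕜 X)) : ∃ x : X, ∀ ξ : WeakDual 𝕜 X, f ξ = ξ x := by
  obtain ⟨x, hx⟩ := LinearMap.dualEmbedding_surjective (topDualPairing 𝕜 X) f
  refine ⟨x, fun ξ => ?_⟩
  rw [← hx]
  rfl

theorem wstar_separation {K : Set (WeakDual 𝕜 X)} (hK : Convex ℝ K) (hKc : IsClosed K)
    (η : StrongDual 𝕜 X) {δ : ℝ} (hδ : 0 ≤ δ)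
    (hdist : ∀ ξ ∈ K, δ < ‖η - WeakDual.toStrongDual ξ‖) :
    ∃ x : X, ‖x‖ ≤ 1 ∧ ∀ ξ ∈ K, RCLike.re (ξ x) ≤ RCLike.re (η x) - δ := by
  by_cases hne : K.Nonempty
  · have hcomp : IsCompact (WeakDual.toStrongDual ⁻¹' Metric.closedBall η δ) :=
      WeakDual.isCompact_closedBall η δ
    have hconv : Convex ℝ (WeakDual.toStrongDual ⁻¹' Metric.closedBall η δ :
        Set (WeakDual 𝕜 X)) := by
      intro a ha b hb s t hs ht hst
      have := (convex_closedBall η δ) ha hb hs ht hst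
      exact this
    have hdisj : Disjoint K (WeakDual.toStrongDual ⁻¹' Metric.closedBall η δ) := by
      rw [Set.disjoint_left]
      intro ξ hξ hξ'
      have h1 := hdist ξ hξ
      rw [mem_preimage, Metric.mem_closedBall, dist_eq_norm, norm_sub_rev] at hξ'
      linarith
    obtain ⟨f, u, v, h1, h2, h3⟩ :=
      wstar_sep hK hKc hconv hcomp hdisj
    obtain ⟨x, hx⟩ := wstar_eval f
    have hx0 : x ≠ 0 := by
      rintro rfl
      obtain ⟨ξ, hξ⟩ := hne
      have e1 := h1 ξ hξ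
      have e2 := h3 (StrongDual.toWeakDual η) (by
        show η ∈ Metric.closedBall η δ
        exact Metric.mem_closedBall_self hδ)
      rw [hx, map_zero, map_zero] at e1 e2
      linarith
    have hxn : 0 < ‖x‖ := norm_pos_iff.mpr hx0
    obtain ⟨g, hg1, hg2⟩ := exists_dual_vector 𝕜 x hxn.ne'
    -- the extreme point of the ball
    have e3 := h3 (StrongDual.toWeakDual (η - (δ : 𝕜) • g)) (by
      show η - (δ : 𝕜) • g ∈ Metric.closedBall η δ
      rw [Metric.mem_closedBall, dist_eq_norm, sub_sub_cancel_left, norm_neg, norm_smul, hg1,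
        mul_one, RCLike.norm_ofReal, abs_of_nonneg hδ])
    have e4 : f (StrongDual.toWeakDual (η - (δ : 𝕜) • g)) = η x - (δ : 𝕜) * g x := by
      rw [hx]; rfl
    rw [e4, hg2, map_sub, RCLike.re_ofReal_mul, RCLike.ofReal_re] at e3
    refine ⟨((‖x‖⁻¹ : ℝ) : 𝕜) • x, ?_, fun ξ hξ => ?_⟩
    · rw [norm_smul, RCLike.norm_ofReal, abs_of_pos (inv_pos.mpr hxn),
        inv_mul_cancel₀ hxn.ne']
    · have e5 := h1 ξ hξ
      rw [hx] at e5
      have e9 : ξ (((‖x‖⁻¹ : ℝ) : 𝕜) • x) = ((‖x‖⁻¹ : ℝ) : 𝕜) * ξ x := map_smul ξ _ x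
      have e10 : η (((‖x‖⁻¹ : ℝ) : 𝕜) • x) = ((‖x‖⁻¹ : ℝ) : 𝕜) * η x := map_smul η _ x
      rw [e9, e10, RCLike.re_ofReal_mul, RCLike.re_ofReal_mul]
      have e6 : RCLike.re (ξ x) ≤ RCLike.re (η x) - δ * ‖x‖ := by linarith
      have e7 : ‖x‖⁻¹ * RCLike.re (ξ x) ≤ ‖x‖⁻¹ * (RCLike.re (η x) - δ * ‖x‖) :=
        mul_le_mul_of_nonneg_left e6 (by positivity)
      have e8 : ‖x‖⁻¹ * (RCLike.re (η x) - δ * ‖x‖) = ‖x‖⁻¹ * RCLike.re (η x) - δ := by
        field_simp
      linarith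
  · rw [not_nonempty_iff_eq_empty] at hne
    subst hne
    exact ⟨0, by simp, fun ξ hξ => absurd hξ (notMem_empty ξ)⟩

theorem isCompact_convexJoin {E : Type*} [AddCommGroup E] [Module ℝ E] [TopologicalSpace E]
    [IsTopologicalAddGroup E] [ContinuousSMul ℝ E] {s t : Set E} (hs : IsCompact s)
    (ht : IsCompact t) : IsCompact (convexJoin ℝ s t) := by
  have h : convexJoin ℝ s t =
      (fun p : E × E × ℝ => (1 - p.2.2) • p.1 + p.2.2 • p.2.1) '' (s ×ˢ t ×ˢ Icc (0 : ℝ) 1) := by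
    ext x
    rw [mem_convexJoin]
    constructor
    · rintro ⟨a, ha, b, hb, u, v, hu, hv, huv, rfl⟩
      refine ⟨(a, b, v), ⟨ha, hb, hv, by linarith⟩, ?_⟩
      have : 1 - v = u := by linarith
      simp only [this]
    · rintro ⟨⟨a, b, v⟩, ⟨ha, hb, hv⟩, rfl⟩
      exact ⟨a, ha, b, hb, 1 - v, v, by linarith [hv.2], hv.1, by ring, rfl⟩
  rw [h]
  refine (hs.prod (ht.prod isCompact_Icc)).image ?_
  fun_prop

/-- The convex hull of finitely many compact convex sets is compact. -/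
theorem isCompact_hull_iUnion {E : Type*} [AddCommGroup E] [Module ℝ E] [TopologicalSpace E]
    [IsTopologicalAddGroup E] [ContinuousSMul ℝ E] (L : ℕ → Set E) (hL : ∀ i, IsCompact (L i))
    (hLc : ∀ i, Convex ℝ (L i)) (n : ℕ) : IsCompact (convexHull ℝ (⋃ i < n, L i)) := by
  induction n with
  | zero => simp
  | succ n ih =>
    have h1 : (⋃ i < n + 1, L i) = (⋃ i < n, L i) ∪ L n := by
      ext x
      simp only [mem_iUnion, mem_union, exists_prop]
      constructor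
      · rintro ⟨i, hi, hx⟩
        rcases Nat.lt_succ_iff_lt_or_eq.mp hi with h | h
        · exact Or.inl ⟨i, h, hx⟩
        · exact Or.inr (h ▸ hx)
      · rintro (⟨i, hi, hx⟩ | hx)
        · exact ⟨i, by omega, hx⟩
        · exact ⟨n, by omega, hx⟩
    rw [h1]
    rcases (⋃ i < n, L i).eq_empty_or_nonempty with h | h
    · rw [h, empty_union, (hLc n).convexHull_eq]
      exact hL n
    · rcases (L n).eq_empty_or_nonempty with h' | h'
      · rw [h', union_empty]
        exact ih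
      · rw [← convexHull_convexHull_union_left, (convex_convexHull ℝ _).convexHull_union (hLc n)
          (h.mono (subset_convexHull ℝ _)) h']
        exact isCompact_convexJoin ih (hL n)

theorem wstar_rsmul : ContinuousSMul ℝ (WeakDual 𝕜 X) := inferInstance

theorem wstar_rconst : ContinuousConstSMul ℝ (WeakDual 𝕜 X) := inferInstance

theorem wstar_isCompact_hull (L : ℕ → Set (WeakDual 𝕜 X)) (hL : ∀ i, IsCompact (L i))
    (hLc : ∀ i, Convex ℝ (L i)) (n : ℕ) : IsCompact (convexHull ℝ (⋃ i < n, L i)) :=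
  @isCompact_hull_iUnion (WeakDual 𝕜 X) _ _ _ wstar_group wstar_rsmul L hL hLc n

theorem wstar_convex_closure {s : Set (WeakDual 𝕜 X)} (hs : Convex ℝ s) :
    Convex ℝ (closure s) :=
  @Convex.closure ℝ (WeakDual 𝕜 X) _ _ _ _ _ wstar_group wstar_rconst s hs

theorem wstar_convex_image {s : Set (StrongDual 𝕜 X)} (hs : Convex ℝ s) :
    Convex ℝ (StrongDual.toWeakDual '' s : Set (WeakDual 𝕜 X)) := by
  rintro _ ⟨a, ha, rfl⟩ _ ⟨b, hb, rfl⟩ u v hu hv huv
  exact ⟨u • a + v • b, hs ha hb hu hv huv, rfl⟩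

theorem wstar_compact_of_subset_ball {s : Set (WeakDual 𝕜 X)} {r : ℝ}
    (hs : s ⊆ WeakDual.toStrongDual ⁻¹' Metric.closedBall (0 : StrongDual 𝕜 X) r) :
    IsCompact (closure s) := by
  have h1 := WeakDual.isCompact_closedBall (0 : StrongDual 𝕜 X) r
  exact h1.of_isClosed_subset isClosed_closure (closure_minimal hs h1.isClosed)

theorem convex_toStrongDual_preimage {C : Set (StrongDual 𝕜 X)} (hC : Convex ℝ C) :
    Convex ℝ {ξ : WeakDual 𝕜 X | WeakDual.toStrongDual ξ ∈ C} := by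
  intro a ha b hb u v hu hv huv
  exact hC ha hb hu hv huv

end Pool.Agent.V1199
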