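import Mathlib
import Pool.Agent.V1199.Adp

open Set Filter Topology

namespace Pool.Agent.V1199

variable {𝕜 : Type*} [RCLike 𝕜] {X : Type*} [NormedAddCommGroup X] [NormedSpace 𝕜 X]

/-- `Good ε Θ V`: on finitely many open subsets of `V` one can find a small (in the weak sense)
vector which takes on each of them a value close to an element of `Θ`. -/
def Good {C : Set (WeakDual 𝕜 X)} (ε : ℝ) (Θ : Finset 𝕜) (V : Set C) : Prop :=
  ∀ 𝒰 : Set (Set C), 𝒰.Finite → (∀ U ∈ 𝒰, IsOpen U ∧ U.Nonempty ∧ U ⊆ V) →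
    ∀ F : Finset (StrongDual 𝕜 X), ∃ y : X, ‖y‖ ≤ 1 ∧ (∀ f ∈ F, ‖f y‖ < ε) ∧
      ∀ U ∈ 𝒰, ∃ p ∈ U, ∃ θ ∈ Θ, ‖p.1 y - θ‖ < 2 * ε

theorem good_color {C : Set (WeakDual 𝕜 X)} {ε : ℝ} (Θ : Finset 𝕜) :
    ∀ V : Set C, IsOpen V → V.Nonempty → Good ε Θ V →
      ∃ θ ∈ Θ, ∃ V' : Set C, IsOpen V' ∧ V'.Nonempty ∧ Good ε {θ} V' := by
  classical
  induction Θ using Finset.induction_on with
  | empty =>
    intro V hV hne hG
    obtain ⟨y, _, _, h⟩ := hG {V} (finite_singleton V)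
      (by rintro U rfl; exact ⟨hV, hne, Subset.rfl⟩) ∅
    obtain ⟨p, _, θ, hθ, _⟩ := h V rfl
    exact absurd hθ (Finset.notMem_empty θ)
  | insert c Θ hc ih =>
    intro V hV hne hG
    by_cases hex : ∃ V' : Set C, V' ⊆ V ∧ IsOpen V' ∧ V'.Nonempty ∧ Good ε {c} V'
    · obtain ⟨V', _, h2, h3, h4⟩ := hex
      exact ⟨c, Finset.mem_insert_self _ _, V', h2, h3, h4⟩
    · push Not at hex
      have hbad : ∀ V' : Set C, ∃ (𝒰 : Set (Set C)) (F : Finset (StrongDual 𝕜 X)),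
          𝒰.Finite ∧ (V' ⊆ V → IsOpen V' → V'.Nonempty →
            (∀ U ∈ 𝒰, IsOpen U ∧ U.Nonempty ∧ U ⊆ V') ∧
            ∀ y : X, ‖y‖ ≤ 1 → (∀ f ∈ F, ‖f y‖ < ε) → ∃ U ∈ 𝒰, ∀ p ∈ U, 2 * ε ≤ ‖p.1 y - c‖) := by
        intro V'
        by_cases h : V' ⊆ V ∧ IsOpen V' ∧ V'.Nonempty
        · have h1 := hex V' h.1 h.2.1 h.2.2
          unfold Good at h1
          push Not at h1
          obtain ⟨𝒰, h2, h3, F, h4⟩ := h1
          refine ⟨𝒰, F, h2, fun _ _ _ => ⟨h3, fun y hy hyF => ?_⟩⟩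
          obtain ⟨U, hU, h5⟩ := h4 y hy hyF
          exact ⟨U, hU, fun p hp => h5 p hp c (Finset.mem_singleton_self c)⟩
        · exact ⟨∅, ∅, finite_empty, fun h1 h2 h3 => absurd ⟨h1, h2, h3⟩ h⟩
      choose 𝒰 F hfin hprop using hbad
      have hG' : Good ε Θ V := by
        intro 𝒱 h𝒱 hop F₀
        obtain ⟨y, hy1, hy2, hy3⟩ := hG (⋃ U ∈ 𝒱, 𝒰 U) (h𝒱.biUnion fun U _ => hfin U)
          (by
            intro U hU
            simp only [mem_iUnion, exists_prop] at hU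
            obtain ⟨V', hV', hU⟩ := hU
            obtain ⟨h1, h2, h3⟩ := hop V' hV'
            obtain ⟨e1, e2, e3⟩ := (hprop V' h3 h1 h2).1 U hU
            exact ⟨e1, e2, e3.trans h3⟩)
          (F₀ ∪ h𝒱.toFinset.biUnion F)
        refine ⟨y, hy1, fun f hf => hy2 f (Finset.mem_union_left _ hf), fun U hU => ?_⟩
        obtain ⟨h1, h2, h3⟩ := hop U hU
        obtain ⟨e1, e2⟩ := hprop U h3 h1 h2
        obtain ⟨U', hU', hno⟩ := e2 y hy1 (fun f hf => hy2 f (Finset.mem_union_right _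
          (Finset.mem_biUnion.mpr ⟨U, h𝒱.mem_toFinset.mpr hU, hf⟩)))
        obtain ⟨p, hp, θ, hθ, hlt⟩ := hy3 U' (by
          simp only [mem_iUnion, exists_prop]
          exact ⟨U, hU, hU'⟩)
        refine ⟨p, (e1 U' hU').2.2 hp, θ, ?_, hlt⟩
        rcases Finset.mem_insert.mp hθ with rfl | hθ
        · exact absurd hlt (not_lt.mpr (hno p hp))
        · exact hθ
      obtain ⟨θ, hθ, h⟩ := ih V hV hne hG'
      exact ⟨θ, Finset.mem_insert_of_mem hθ, h⟩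

/-- Existence of an open set on which the sign is controlled. -/
theorem exists_good_one (hX : SuperADP 𝕜 X) (hinf : ¬ FiniteDimensional 𝕜 X)
    {C : Set (WeakDual 𝕜 X)} (hC : Minimal Norming C) {ε : ℝ} (hε : 0 < ε) :
    ∃ V : Set C, IsOpen V ∧ V.Nonempty ∧ Good ε {(1 : 𝕜)} V := by
  classical
  obtain ⟨t, ht1, ht2, ht3⟩ := (isCompact_sphere (0 : 𝕜) 1).finite_cover_balls hε
  have hne : (univ : Set C).Nonempty := by
    obtain ⟨p, hp, _⟩ := hC.prop.2.2 0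
    exact ⟨⟨p, hp⟩, trivial⟩
  have hG : Good ε ht2.toFinset (univ : Set C) := by
    intro 𝒰 h𝒰 hop F
    obtain ⟨y, hy1, hy2, hy3⟩ := adp_open hX hinf hC h𝒰
      (fun U hU => ⟨(hop U hU).1, (hop U hU).2.1⟩) F (ε := min ε (1 / 2))
      (lt_min hε (by norm_num))
    refine ⟨y, hy1, fun f hf => (hy2 f hf).trans_le (min_le_left _ _), fun U hU => ?_⟩
    obtain ⟨p, hp, hlt⟩ := hy3 U hU
    have h1 : 1 - ε < ‖p.1 y‖ := by linarith [min_le_left ε (1 / 2)]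
    have h2 : 0 < ‖p.1 y‖ := by linarith [min_le_right ε (1 / 2)]
    have h3 : ‖p.1 y‖ ≤ 1 := (re_le_of_mem_ball (hC.prop.2.1 p.2) _).trans hy1
    have h4 : ((‖p.1 y‖⁻¹ : ℝ) : 𝕜) * p.1 y ∈ Metric.sphere (0 : 𝕜) 1 := by
      rw [mem_sphere_zero_iff_norm, norm_mul, RCLike.norm_ofReal, abs_of_pos (inv_pos.mpr h2),
        inv_mul_cancel₀ h2.ne']
    have h5 := ht3 h4
    simp only [mem_iUnion, exists_prop] at h5
    obtain ⟨θ, hθ, h6⟩ := h5
    refine ⟨p, hp, θ, ht2.mem_toFinset.mpr hθ, ?_⟩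
    rw [Metric.mem_ball, dist_eq_norm] at h6
    have h7 : ‖p.1 y - ((‖p.1 y‖⁻¹ : ℝ) : 𝕜) * p.1 y‖ < ε := by
      have : p.1 y - ((‖p.1 y‖⁻¹ : ℝ) : 𝕜) * p.1 y = ((1 - ‖p.1 y‖⁻¹ : ℝ) : 𝕜) * p.1 y := by
        push_cast; ring
      rw [this, norm_mul, RCLike.norm_ofReal]
      have h8 : 1 ≤ ‖p.1 y‖⁻¹ := (one_le_inv₀ h2).mpr h3
      rw [abs_of_nonpos (by linarith)]
      have : -(1 - ‖p.1 y‖⁻¹) * ‖p.1 y‖ = 1 - ‖p.1 y‖ := by
        field_simp; ring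
      rw [this]
      linarith
    calc ‖p.1 y - θ‖ = ‖(p.1 y - ((‖p.1 y‖⁻¹ : ℝ) : 𝕜) * p.1 y) +
          (((‖p.1 y‖⁻¹ : ℝ) : 𝕜) * p.1 y - θ)‖ := by congr 1; ring
      _ ≤ _ := norm_add_le _ _
      _ < 2 * ε := by linarith
  obtain ⟨θ, hθ, V, hV1, hV2, hV3⟩ := good_color _ univ isOpen_univ hne hG
  have hθ1 : ‖θ‖ = 1 := by
    have := ht1 (ht2.mem_toFinset.mp hθ)
    rwa [mem_sphere_zero_iff_norm] at this
  refine ⟨V, hV1, hV2, fun 𝒰 h𝒰 hop F => ?_⟩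
  obtain ⟨y, hy1, hy2, hy3⟩ := hV3 𝒰 h𝒰 hop F
  refine ⟨(starRingEnd 𝕜 θ) • y, ?_, ?_, ?_⟩
  · rw [norm_smul, RCLike.norm_conj, hθ1, one_mul]; exact hy1
  · intro f hf
    rw [map_smul, norm_smul, RCLike.norm_conj, hθ1, one_mul]
    exact hy2 f hf
  · intro U hU
    obtain ⟨p, hp, θ', hθ', hlt⟩ := hy3 U hU
    rw [Finset.mem_singleton] at hθ'
    subst hθ'
    refine ⟨p, hp, 1, Finset.mem_singleton_self _, ?_⟩
    have e1 : p.1 ((starRingEnd 𝕜 θ') • y) = (starRingEnd 𝕜 θ') * p.1 y := map_smul p.1 _ y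
    have e2 : (starRingEnd 𝕜 θ') * θ' = 1 := by
      rw [RCLike.conj_mul, hθ1]; simp
    rw [e1, ← e2, ← mul_sub, norm_mul, RCLike.norm_conj, hθ1, one_mul]
    exact hlt

/-- The vectors form an (almost) independent sequence up to stage `n`. -/
def Ind {C : Set (WeakDual 𝕜 X)} (η : ℝ) (V : Set C) (n : ℕ) (y : ℕ → X) : Prop :=
  ∀ c : Fin n → Bool, ∃ p ∈ V, ∀ i : Fin n, ‖p.1 (y i) - (if c i then 1 else 0 : 𝕜)‖ < η

theorem ind_step {C : Set (WeakDual 𝕜 X)} {ε : ℝ} {V : Set C} (hV : IsOpen V)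
    (hG : Good ε {(1 : 𝕜)} V) {n : ℕ} {y : ℕ → X} (hy : Ind (𝕜 := 𝕜) (2 * ε) V n y) (hε : 0 < ε) :
    ∃ z : X, ‖z‖ ≤ 1 ∧ Ind (𝕜 := 𝕜) (2 * ε) V (n + 1) (Function.update y n z) := by
  classical
  let W : (Fin n → Bool) → Set C := fun c =>
    {p | p ∈ V ∧ ∀ i : Fin n, ‖p.1 (y i) - (if c i then 1 else 0 : 𝕜)‖ < 2 * ε}
  have hWo : ∀ c, IsOpen (W c) := by
    intro c
    refine IsOpen.and hV ?_
    have : {p : C | ∀ i : Fin n, ‖p.1 (y i) - (if c i then 1 else 0 : 𝕜)‖ < 2 * ε} =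
        ⋂ i : Fin n, {p : C | ‖p.1 (y i) - (if c i then 1 else 0 : 𝕜)‖ < 2 * ε} := by
      ext p; simp
    show IsOpen {p : C | ∀ i : Fin n, ‖p.1 (y i) - (if c i then 1 else 0 : 𝕜)‖ < 2 * ε}
    rw [this]
    refine isOpen_iInter_of_finite fun i => isOpen_lt ?_ continuous_const
    exact (((WeakDual.eval_continuous (y i)).comp continuous_subtype_val).sub
      continuous_const).norm
  have hWne : ∀ c, (W c).Nonempty := by
    intro c
    obtain ⟨p, hp1, hp2⟩ := hy c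
    exact ⟨p, hp1, hp2⟩
  choose q hq using hWne
  obtain ⟨z, hz1, hz2, hz3⟩ := hG (range W) (finite_range W)
    (by rintro _ ⟨c, rfl⟩; exact ⟨hWo c, ⟨q c, hq c⟩, fun p hp => hp.1⟩)
    (Finset.univ.image (fun c => WeakDual.toStrongDual (q c).1))
  refine ⟨z, hz1, fun c => ?_⟩
  let c' : Fin n → Bool := fun i => c i.castSucc
  have hold : ∀ i : Fin n, Function.update y n z (i : ℕ) = y i := by
    intro i
    rw [Function.update_of_ne (by omega)]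
  cases hcl : c (Fin.last n)
  · refine ⟨q c', (hq c').1, fun i => ?_⟩
    refine Fin.lastCases ?_ (fun j => ?_) i
    · rw [hcl]
      simp only [Fin.val_last, Function.update_self, Bool.false_eq_true, if_false, sub_zero]
      have := hz2 _ (Finset.mem_image_of_mem _ (Finset.mem_univ c'))
      have e : ‖(q c').1 z‖ < ε := this
      linarith
    · have := (hq c').2 j
      simp only [Fin.val_castSucc, hold]
      exact this
  · obtain ⟨p, hp, θ, hθ, hlt⟩ := hz3 (W c') ⟨c', rfl⟩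
    rw [Finset.mem_singleton] at hθ
    subst hθ
    refine ⟨p, hp.1, fun i => ?_⟩
    refine Fin.lastCases ?_ (fun j => ?_) i
    · rw [hcl]
      simp only [Fin.val_last, Function.update_self, if_true]
      exact hlt
    · have := hp.2 j
      simp only [Fin.val_castSucc, hold]
      exact this

/-- The super ADP produces an almost independent sequence. -/
theorem exists_independent (hX : SuperADP 𝕜 X) (hinf : ¬ FiniteDimensional 𝕜 X) {η : ℝ}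
    (hη : 0 < η) :
    ∃ y : ℕ → X, (∀ n, ‖y n‖ ≤ 1) ∧ ∀ (n : ℕ) (c : ℕ → Bool), ∃ p : StrongDual 𝕜 X, ‖p‖ ≤ 1 ∧
      ∀ i < n, ‖p (y i) - (if c i then 1 else 0 : 𝕜)‖ < η := by
  classical
  obtain ⟨C, hC⟩ := exists_minimal_norming (𝕜 := 𝕜) (X := X)
  obtain ⟨V, hV1, hV2, hV3⟩ := exists_good_one hX hinf hC (ε := η / 2) (by positivity)
  have hη2 : 2 * (η / 2) = η := by ring
  have step : ∀ (n : ℕ) (s : {y : ℕ → X // (∀ i, ‖y i‖ ≤ 1) ∧ Ind (𝕜 := 𝕜) η V n y}),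
      ∃ s' : {y : ℕ → X // (∀ i, ‖y i‖ ≤ 1) ∧ Ind (𝕜 := 𝕜) η V (n + 1) y},
        ∀ i < n, s'.1 i = s.1 i := by
    rintro n ⟨y, hy1, hy2⟩
    rw [← hη2] at hy2
    obtain ⟨z, hz1, hz2⟩ := ind_step hV1 hV3 hy2 (by positivity)
    rw [hη2] at hz2
    refine ⟨⟨Function.update y n z, fun i => ?_, hz2⟩, fun i hi => ?_⟩
    · by_cases h : i = n
      · subst h; rw [Function.update_self]; exact hz1
      · rw [Function.update_of_ne h]; exact hy1 i
    · exact Function.update_of_ne (by omega) _ _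
  choose next hnext using step
  have h0 : Ind (𝕜 := 𝕜) η V 0 (fun _ => (0 : X)) := by
    intro c
    obtain ⟨p, hp⟩ := hV2
    exact ⟨p, hp, fun i => i.elim0⟩
  let st : (n : ℕ) → {y : ℕ → X // (∀ i, ‖y i‖ ≤ 1) ∧ Ind (𝕜 := 𝕜) η V n y} := fun n =>
    Nat.rec (motive := fun n => {y : ℕ → X // (∀ i, ‖y i‖ ≤ 1) ∧ Ind (𝕜 := 𝕜) η V n y})
      ⟨fun _ => 0, by simp, h0⟩ (fun n s => next n s) n
  have hst : ∀ n, st (n + 1) = next n (st n) := fun n => rfl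
  have hcoh : ∀ n m, n ≤ m → ∀ i < n, (st m).1 i = (st n).1 i := by
    intro n m hnm
    induction hnm with
    | refl => intro i _; rfl
    | @step m hm ih =>
      intro i hi
      rw [hst, hnext m (st m) i (lt_of_lt_of_le hi hm), ih i hi]
  refine ⟨fun n => (st (n + 1)).1 n, fun n => (st (n + 1)).2.1 n, fun n c => ?_⟩
  obtain ⟨p, _, hp⟩ := (st n).2.2 (fun i => c i)
  refine ⟨WeakDual.toStrongDual p.1, ?_, fun i hi => ?_⟩
  · have := hC.prop.2.1 p.2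
    rwa [mem_preimage, mem_closedBall_zero_iff] at this
  · have e := hp ⟨i, hi⟩
    have e2 : (st (i + 1)).1 i = (st n).1 i := (hcoh (i + 1) n hi i (Nat.lt_succ_self i)).symm
    show ‖(WeakDual.toStrongDual p.1) ((st (i + 1)).1 i) - _‖ < η
    rw [e2]
    exact e

end Pool.Agent.V1199
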