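import Mathlib
import Pool.Agent.V1199.AdpIndep

open Set Filter Topology

namespace Pool.Agent.V1199

variable {𝕜 : Type*} [RCLike 𝕜] {X : Type*} [NormedAddCommGroup X] [NormedSpace 𝕜 X]

/-- The dual of `X` has the convex point of continuity property. -/
def DualCPCP (𝕜 : Type*) [RCLike 𝕜] (X : Type*) [NormedAddCommGroup X] [NormedSpace 𝕜 X] : Prop :=
  ∀ C : Set (StrongDual 𝕜 X), C.Nonempty → IsClosed C → Convex ℝ C → Bornology.IsBounded C →
    ∃ a ∈ C, ∀ ε : ℝ, 0 < ε → ∃ U : Set (WeakSpace 𝕜 (StrongDual 𝕜 X)), IsOpen U ∧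
      toWeakSpace 𝕜 (StrongDual 𝕜 X) a ∈ U ∧
      ∀ z ∈ C, toWeakSpace 𝕜 (StrongDual 𝕜 X) z ∈ U → ‖z - a‖ < ε

/-- `X` contains a closed subspace isomorphic to `ℓ¹`. -/
def ContainsL1 (𝕜 : Type*) [RCLike 𝕜] (X : Type*) [NormedAddCommGroup X] [NormedSpace 𝕜 X] :
    Prop :=
  ∃ Y : Submodule 𝕜 X, IsClosed (Y : Set X) ∧
    Nonempty (lp (fun _ : ℕ => 𝕜) 1 ≃L[𝕜] Y)

/-- An almost independent sequence. -/
def Indep (𝕜 : Type*) [RCLike 𝕜] {X : Type*} [NormedAddCommGroup X] [NormedSpace 𝕜 X]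
    (η : ℝ) (y : ℕ → X) : Prop :=
  (∀ n, ‖y n‖ ≤ 1) ∧ ∀ (n : ℕ) (c : ℕ → Bool), ∃ p : StrongDual 𝕜 X, ‖p‖ ≤ 1 ∧
      ∀ i < n, ‖p (y i) - (if c i then 1 else 0 : 𝕜)‖ < η

theorem exists_pattern (a : ℕ → 𝕜) (n : ℕ) : ∃ c : ℕ → Bool,
    (∑ i ∈ Finset.range n, ‖a i‖) / 4 ≤ ‖∑ i ∈ Finset.range n, a i * (if c i then 1 else 0 : 𝕜)‖ := by
  classical
  by_contra hcon
  push Not at hcon
  have hkey : ∀ (g : 𝕜 → ℝ), (∀ z w, g (z + w) = g z + g w) → g 0 = 0 → (∀ z, g z ≤ ‖z‖) →
      ∑ i ∈ Finset.range n, max (g (a i)) 0 < (∑ i ∈ Finset.range n, ‖a i‖) / 4 := by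
    intro g hg h0 hle
    refine lt_of_le_of_lt ?_ (hcon (fun i => decide (0 < g (a i))))
    refine le_trans ?_ (hle _)
    have hsum : ∀ (s : Finset ℕ) (f : ℕ → 𝕜), g (∑ i ∈ s, f i) = ∑ i ∈ s, g (f i) := by
      intro s f
      induction s using Finset.induction_on with
      | empty => simpa using h0
      | insert b s hb ih => rw [Finset.sum_insert hb, Finset.sum_insert hb, hg, ih]
    rw [hsum]
    refine le_of_eq (Finset.sum_congr rfl fun i _ => ?_)
    by_cases h : 0 < g (a i)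
    · simp [h, max_eq_left h.le]
    · simp [h, max_eq_right (not_lt.mp h), h0]
  have h1 := hkey (fun z => RCLike.re z) (fun z w => map_add _ z w) (map_zero _)
    (fun z => (le_abs_self _).trans (RCLike.abs_re_le_norm z))
  have h2 := hkey (fun z => -RCLike.re z) (fun z w => by simp only [map_add]; ring) (by simp)
    (fun z => (neg_le_abs _).trans (RCLike.abs_re_le_norm z))
  have h3 := hkey (fun z => RCLike.im z) (fun z w => map_add _ z w) (map_zero _)
    (fun z => (le_abs_self _).trans (RCLike.abs_im_le_norm z))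
  have h4 := hkey (fun z => -RCLike.im z) (fun z w => by simp only [map_add]; ring) (by simp)
    (fun z => (neg_le_abs _).trans (RCLike.abs_im_le_norm z))
  have h5 : ∑ i ∈ Finset.range n, ‖a i‖ ≤ ∑ i ∈ Finset.range n, (max (RCLike.re (a i)) 0 +
      max (-RCLike.re (a i)) 0 + max (RCLike.im (a i)) 0 + max (-RCLike.im (a i)) 0) := by
    refine Finset.sum_le_sum fun i _ => ?_
    have e1 : ‖a i‖ ≤ |RCLike.re (a i)| + |RCLike.im (a i)| := by
      conv_lhs => rw [← RCLike.re_add_im (a i)]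
      refine (norm_add_le _ _).trans ?_
      rw [RCLike.norm_ofReal, norm_mul, RCLike.norm_ofReal]
      have : ‖(RCLike.I : 𝕜)‖ ≤ 1 := by
        by_cases hI : (RCLike.I : 𝕜) = 0
        · rw [hI, norm_zero]; exact zero_le_one
        · exact (RCLike.norm_I_of_ne_zero hI).le
      nlinarith [abs_nonneg (RCLike.im (a i))]
    have e2 : |RCLike.re (a i)| = max (RCLike.re (a i)) 0 + max (-RCLike.re (a i)) 0 := by
      rcases le_total 0 (RCLike.re (a i)) with h | h
      · rw [abs_of_nonneg h, max_eq_left h, max_eq_right (by linarith), add_zero]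
      · rw [abs_of_nonpos h, max_eq_right h, max_eq_left (by linarith), zero_add]
    have e3 : |RCLike.im (a i)| = max (RCLike.im (a i)) 0 + max (-RCLike.im (a i)) 0 := by
      rcases le_total 0 (RCLike.im (a i)) with h | h
      · rw [abs_of_nonneg h, max_eq_left h, max_eq_right (by linarith), add_zero]
      · rw [abs_of_nonpos h, max_eq_right h, max_eq_left (by linarith), zero_add]
    linarith
  rw [Finset.sum_add_distrib, Finset.sum_add_distrib, Finset.sum_add_distrib] at h5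
  linarith

theorem l1_lower {y : ℕ → X} (hy : Indep 𝕜 (1 / 8) y) (a : ℕ → 𝕜) (n : ℕ) :
    (∑ i ∈ Finset.range n, ‖a i‖) / 8 ≤ ‖∑ i ∈ Finset.range n, a i • y i‖ := by
  obtain ⟨c, hc⟩ := exists_pattern a n
  obtain ⟨p, hp1, hp2⟩ := hy.2 n c
  have h1 : p (∑ i ∈ Finset.range n, a i • y i) = ∑ i ∈ Finset.range n, a i * p (y i) := by
    rw [map_sum]
    exact Finset.sum_congr rfl fun i _ => by rw [map_smul, smul_eq_mul]
  have h2 : ‖p (∑ i ∈ Finset.range n, a i • y i)‖ ≤ ‖∑ i ∈ Finset.range n, a i • y i‖ := by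
    refine (p.le_opNorm _).trans ?_
    nlinarith [norm_nonneg (∑ i ∈ Finset.range n, a i • y i)]
  have h3 : ∑ i ∈ Finset.range n, a i * (if c i then 1 else 0 : 𝕜) =
      ∑ i ∈ Finset.range n, a i * p (y i) -
        ∑ i ∈ Finset.range n, a i * (p (y i) - (if c i then 1 else 0 : 𝕜)) := by
    rw [← Finset.sum_sub_distrib]
    exact Finset.sum_congr rfl fun i _ => by ring
  have h4 : ‖∑ i ∈ Finset.range n, a i * (p (y i) - (if c i then 1 else 0 : 𝕜))‖ ≤
      (∑ i ∈ Finset.range n, ‖a i‖) / 8 := by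
    rw [Finset.sum_div]
    refine norm_sum_le_of_le _ fun i hi => ?_
    rw [norm_mul]
    have := (hp2 i (Finset.mem_range.mp hi)).le
    nlinarith [norm_nonneg (a i)]
  have h5 : ‖∑ i ∈ Finset.range n, a i * (if c i then 1 else 0 : 𝕜)‖ ≤
      ‖∑ i ∈ Finset.range n, a i * p (y i)‖ +
        ‖∑ i ∈ Finset.range n, a i * (p (y i) - (if c i then 1 else 0 : 𝕜))‖ := by
    rw [h3]; exact norm_sub_le _ _
  rw [← h1] at h5
  linarith

theorem containsL1_of_indep [CompleteSpace X] {y : ℕ → X} (hy : Indep 𝕜 (1 / 8) y) :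
    ContainsL1 𝕜 X := by
  have hnorm : ∀ a : lp (fun _ : ℕ => 𝕜) 1, HasSum (fun i => ‖a i‖) ‖a‖ := by
    intro a
    have h := lp.hasSum_norm (p := 1) (by simp) a
    simpa using h
  have hsum : ∀ a : lp (fun _ : ℕ => 𝕜) 1, Summable (fun i => a i • y i) := by
    intro a
    refine Summable.of_norm_bounded (hnorm a).summable fun i => ?_
    rw [norm_smul]
    nlinarith [norm_nonneg (a i), hy.1 i, norm_nonneg (y i)]
  let T₀ : lp (fun _ : ℕ => 𝕜) 1 →ₗ[𝕜] X :=
    { toFun := fun a => ∑' i, a i • y i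
      map_add' := fun a b => by
        rw [← (hsum a).tsum_add (hsum b)]
        refine tsum_congr fun i => ?_
        rw [lp.coeFn_add, Pi.add_apply, add_smul]
      map_smul' := fun c a => by
        rw [RingHom.id_apply, ← (hsum a).tsum_const_smul]
        refine tsum_congr fun i => ?_
        rw [lp.coeFn_smul, Pi.smul_apply, smul_eq_mul, mul_smul] }
  have hT₀ : ∀ a, ‖T₀ a‖ ≤ 1 * ‖a‖ := by
    intro a
    rw [one_mul]
    refine tsum_of_norm_bounded (hnorm a) fun i => ?_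
    rw [norm_smul]
    nlinarith [norm_nonneg (a i), hy.1 i, norm_nonneg (y i)]
  let T : lp (fun _ : ℕ => 𝕜) 1 →L[𝕜] X := T₀.mkContinuous 1 hT₀
  have hTlow : ∀ a, ‖a‖ ≤ 8 * ‖T a‖ := by
    intro a
    have h1 : Tendsto (fun n => (∑ i ∈ Finset.range n, ‖a i‖) / 8) atTop (𝓝 (‖a‖ / 8)) :=
      (hnorm a).tendsto_sum_nat.div_const _
    have h2 : Tendsto (fun n => ‖∑ i ∈ Finset.range n, a i • y i‖) atTop (𝓝 ‖T a‖) :=
      ((hsum a).hasSum.tendsto_sum_nat).norm
    have := le_of_tendsto_of_tendsto' h1 h2 (fun n => l1_lower hy a n)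
    linarith
  have hanti : AntilipschitzWith 8 T := by
    refine T.antilipschitz_of_bound fun a => ?_
    simpa using hTlow a
  have hcl : IsClosed (range T) := hanti.isClosed_range T.uniformContinuous
  refine ⟨T.range, ?_, ⟨T.equivRange hanti.injective hcl⟩⟩
  rw [LinearMap.coe_range]
  exact hcl

/-! ### Failure of the CPCP in the dual -/

/-- `Fits η y l f`: the functional `f` takes on `y k` approximately the value of the `k`-th bit. -/
def Fits (η : ℝ) (y : ℕ → X) : List Bool → StrongDual 𝕜 X → Prop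
  | [], _ => True
  | b :: l, f => ‖f (y l.length) - (if b then 1 else 0 : 𝕜)‖ ≤ η ∧ Fits η y l f

/-- The bits of a node. -/
def bits : List Bool → ℕ → Bool
  | [] => fun _ => false
  | b :: l => Function.update (bits l) l.length b

theorem fits_of_bits {η : ℝ} {y : ℕ → X} {f : StrongDual 𝕜 X} (l : List Bool)
    (h : ∀ i < l.length, ‖f (y i) - (if bits l i then 1 else 0 : 𝕜)‖ ≤ η) : Fits η y l f := by
  induction l with
  | nil => trivial
  | cons b l ih =>
    refine ⟨?_, ih fun i hi => ?_⟩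
    · have := h l.length (by simp)
      simpa [bits] using this
    · have := h i (by simp; omega)
      rwa [bits, Function.update_of_ne (by omega)] at this

/-- Averages over the extensions of a node. -/
noncomputable def avg (p : List Bool → StrongDual 𝕜 X) : ℕ → List Bool → StrongDual 𝕜 X
  | 0, l => p l
  | k + 1, l => (1 / 2 : ℝ) • avg p k (true :: l) + (1 / 2 : ℝ) • avg p k (false :: l)

theorem half_apply (f g : StrongDual 𝕜 X) (x : X) :
    ((1 / 2 : ℝ) • f + (1 / 2 : ℝ) • g) x = (1 / 2 : ℝ) • f x + (1 / 2 : ℝ) • g x := rfl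

theorem half_close {u v w : 𝕜} {η : ℝ} (hu : ‖u - w‖ ≤ η) (hv : ‖v - w‖ ≤ η) :
    ‖(1 / 2 : ℝ) • u + (1 / 2 : ℝ) • v - w‖ ≤ η := by
  have : (1 / 2 : ℝ) • u + (1 / 2 : ℝ) • v - w = (1 / 2 : ℝ) • (u - w) + (1 / 2 : ℝ) • (v - w) := by
    module
  rw [this]
  refine (norm_add_le _ _).trans ?_
  rw [norm_smul, norm_smul]
  norm_num
  linarith

theorem half_norm {E : Type*} [SeminormedAddCommGroup E] [NormedSpace ℝ E] {u v : E} {r : ℝ}
    (hu : ‖u‖ ≤ r) (hv : ‖v‖ ≤ r) : ‖(1 / 2 : ℝ) • u + (1 / 2 : ℝ) • v‖ ≤ r := by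
  refine (norm_add_le _ _).trans ?_
  rw [norm_smul, norm_smul]
  norm_num
  linarith

theorem fits_half {η : ℝ} {y : ℕ → X} (l : List Bool) {f g : StrongDual 𝕜 X} (hf : Fits η y l f)
    (hg : Fits η y l g) : Fits η y l ((1 / 2 : ℝ) • f + (1 / 2 : ℝ) • g) := by
  induction l with
  | nil => trivial
  | cons b l ih =>
    refine ⟨?_, ih hf.2 hg.2⟩
    rw [half_apply]
    exact half_close hf.1 hg.1

theorem avg_fits {η : ℝ} {y : ℕ → X} {p : List Bool → StrongDual 𝕜 X}
    (hp : ∀ l, Fits η y l (p l)) (k : ℕ) : ∀ l, Fits η y l (avg p k l) := by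
  induction k with
  | zero => exact hp
  | succ k ih =>
    intro l
    exact fits_half l (ih (true :: l)).2 (ih (false :: l)).2

theorem avg_norm {p : List Bool → StrongDual 𝕜 X} (hp : ∀ l, ‖p l‖ ≤ 1) (k : ℕ) :
    ∀ l, ‖avg p k l‖ ≤ 1 := by
  induction k with
  | zero => exact hp
  | succ k ih =>
    intro l
    exact half_norm (ih _) (ih _)

/-- A dyadic martingale in the dual whose values on `y` are the bits. -/
theorem exists_martingale {η : ℝ} {y : ℕ → X} (hy : Indep 𝕜 η y) :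
    ∃ φ : List Bool → StrongDual 𝕜 X, (∀ l, ‖φ l‖ ≤ 1) ∧ (∀ l, Fits η y l (φ l)) ∧
      ∀ l, φ l = (1 / 2 : ℝ) • φ (true :: l) + (1 / 2 : ℝ) • φ (false :: l) := by
  have h1 : ∀ l : List Bool, ∃ p : StrongDual 𝕜 X, ‖p‖ ≤ 1 ∧ Fits η y l p := by
    intro l
    obtain ⟨p, hp1, hp2⟩ := hy.2 l.length (bits l)
    exact ⟨p, hp1, fits_of_bits l fun i hi => (hp2 i hi).le⟩
  choose p hp1 hp2 using h1
  let W : Ultrafilter ℕ := Ultrafilter.of atTop
  have hW : (W : Filter ℕ) ≤ atTop := Ultrafilter.of_le _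
  have hK := WeakDual.isCompact_closedBall (𝕜 := 𝕜) (E := X) (0 : StrongDual 𝕜 X) 1
  have h2 : ∀ l : List Bool, ∃ f : StrongDual 𝕜 X, ‖f‖ ≤ 1 ∧
      ∀ x, Tendsto (fun N => avg p (N - l.length) l x) W (𝓝 (f x)) := by
    intro l
    obtain ⟨f, hf1, hf2⟩ := hK.ultrafilter_le_nhds
      (W.map (fun N => StrongDual.toWeakDual (avg p (N - l.length) l))) (by
        rw [le_principal_iff]
        refine Filter.mem_map.mpr (Filter.univ_mem' fun N => ?_)
        show avg p (N - l.length) l ∈ Metric.closedBall (0 : StrongDual 𝕜 X) 1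
        rw [mem_closedBall_zero_iff]
        exact avg_norm hp1 _ l)
    refine ⟨WeakDual.toStrongDual f, ?_, fun x => ?_⟩
    · rw [mem_preimage, mem_closedBall_zero_iff] at hf1
      exact hf1
    · have h3 : Tendsto (fun N => StrongDual.toWeakDual (avg p (N - l.length) l)) W (𝓝 f) := hf2
      exact ((WeakDual.eval_continuous x).tendsto f).comp h3
  choose φ hφ1 hφ2 using h2
  refine ⟨φ, hφ1, fun l => ?_, fun l => ?_⟩
  · have key : ∀ l' : List Bool, ∀ F : ℕ → StrongDual 𝕜 X, (∀ N, Fits η y l' (F N)) →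
        ∀ f : StrongDual 𝕜 X, (∀ x, Tendsto (fun N => F N x) W (𝓝 (f x))) → Fits η y l' f := by
      intro l'
      induction l' with
      | nil => intro _ _ _ _; trivial
      | cons b l' ih =>
        intro F hF f hf
        refine ⟨?_, ih F (fun N => (hF N).2) f hf⟩
        exact le_of_tendsto (((hf _).sub_const _).norm) (Eventually.of_forall fun N => (hF N).1)
    exact key l _ (fun N => avg_fits hp2 _ l) _ (hφ2 l)
  · apply ContinuousLinearMap.ext
    intro x
    rw [half_apply]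
    refine tendsto_nhds_unique (hφ2 l x) ?_
    have h3 := ((hφ2 (true :: l) x).const_smul (1 / 2 : ℝ)).add
      ((hφ2 (false :: l) x).const_smul (1 / 2 : ℝ))
    refine h3.congr' ?_
    filter_upwards [hW (eventually_gt_atTop l.length)] with N hN
    have e : N - l.length = (N - (l.length + 1)) + 1 := by omega
    rw [e, List.length_cons, List.length_cons]
    rfl

section martingale

variable {φ : List Bool → StrongDual 𝕜 X} {η : ℝ} {y : ℕ → X}

/-- Averages over the nodes whose last bit is prescribed. -/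
noncomputable def Z (φ : List Bool → StrongDual 𝕜 X) (b : Bool) (k : ℕ) (l : List Bool) :
    StrongDual 𝕜 X :=
  avg (fun l => φ (b :: l)) k l

theorem Z_mem (b : Bool) (k : ℕ) : ∀ l, Z φ b k l ∈ convexHull ℝ (range φ) := by
  induction k with
  | zero => exact fun l => subset_convexHull ℝ _ ⟨_, rfl⟩
  | succ k ih =>
    intro l
    exact (convex_convexHull ℝ _) (ih _) (ih _) (by norm_num) (by norm_num) (by norm_num)

theorem Z_half (hφ : ∀ l, φ l = (1 / 2 : ℝ) • φ (true :: l) + (1 / 2 : ℝ) • φ (false :: l))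
    (k : ℕ) : ∀ l, (1 / 2 : ℝ) • Z φ true k l + (1 / 2 : ℝ) • Z φ false k l = φ l := by
  induction k with
  | zero => exact fun l => (hφ l).symm
  | succ k ih =>
    intro l
    rw [hφ l, ← ih (true :: l), ← ih (false :: l)]
    show (1 / 2 : ℝ) • ((1 / 2 : ℝ) • Z φ true k (true :: l) + (1 / 2 : ℝ) • Z φ true k (false :: l)) +
      (1 / 2 : ℝ) • ((1 / 2 : ℝ) • Z φ false k (true :: l) + (1 / 2 : ℝ) • Z φ false k (false :: l)) = _
    module

theorem Z_apply (hfit : ∀ l, Fits η y l (φ l)) (b : Bool) (k : ℕ) :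
    ∀ l : List Bool, ‖Z φ b k l (y (l.length + k)) - (if b then 1 else 0 : 𝕜)‖ ≤ η := by
  induction k with
  | zero => exact fun l => (hfit (b :: l)).1
  | succ k ih =>
    intro l
    have e1 := ih (true :: l)
    have e2 := ih (false :: l)
    rw [List.length_cons] at e1 e2
    have e3 : l.length + 1 + k = l.length + (k + 1) := by ring
    rw [e3] at e1 e2
    exact half_close e1 e2

/-- Energy of the martingale at stage `k` above a node. -/
noncomputable def energy (φ : List Bool → StrongDual 𝕜 X) (F : StrongDual 𝕜 (StrongDual 𝕜 X)) :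
    ℕ → List Bool → ℝ
  | 0, l => ‖F (φ l)‖ ^ 2
  | k + 1, l => (energy φ F k (true :: l) + energy φ F k (false :: l)) / 2

theorem energy_le (hn : ∀ l, ‖φ l‖ ≤ 1) (F : StrongDual 𝕜 (StrongDual 𝕜 X)) (k : ℕ) :
    ∀ l, energy φ F k l ≤ ‖F‖ ^ 2 := by
  induction k with
  | zero =>
    intro l
    show ‖F (φ l)‖ ^ 2 ≤ _
    have : ‖F (φ l)‖ ≤ ‖F‖ := by
      refine (F.le_opNorm _).trans ?_
      nlinarith [norm_nonneg F, hn l]
    exact pow_le_pow_left₀ (norm_nonneg _) this 2
  | succ k ih =>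
    intro l
    show (energy φ F k (true :: l) + energy φ F k (false :: l)) / 2 ≤ _
    linarith [ih (true :: l), ih (false :: l)]

theorem energy_diff (hφ : ∀ l, φ l = (1 / 2 : ℝ) • φ (true :: l) + (1 / 2 : ℝ) • φ (false :: l))
    (F : StrongDual 𝕜 (StrongDual 𝕜 X)) (k : ℕ) :
    ∀ l, ‖F (Z φ true k l - Z φ false k l)‖ ^ 2 ≤ 4 * (energy φ F (k + 1) l - energy φ F k l) := by
  have hF : ∀ (f g : StrongDual 𝕜 X), F ((1 / 2 : ℝ) • f + (1 / 2 : ℝ) • g) =
      (1 / 2 : ℝ) • F f + (1 / 2 : ℝ) • F g := by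
    intro f g
    have e : ∀ h : StrongDual 𝕜 X, (1 / 2 : ℝ) • h = ((1 / 2 : ℝ) : 𝕜) • h := by
      intro h
      apply ContinuousLinearMap.ext
      intro x
      show (1 / 2 : ℝ) • h x = ((1 / 2 : ℝ) : 𝕜) • h x
      rw [RCLike.real_smul_eq_coe_smul (K := 𝕜)]
    rw [e, e, map_add, map_smul, map_smul, ← RCLike.real_smul_eq_coe_smul,
      ← RCLike.real_smul_eq_coe_smul]
  induction k with
  | zero =>
    intro l
    show ‖F (φ (true :: l) - φ (false :: l))‖ ^ 2 ≤
      4 * ((‖F (φ (true :: l))‖ ^ 2 + ‖F (φ (false :: l))‖ ^ 2) / 2 - ‖F (φ l)‖ ^ 2)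
    have h1 := parallelogram_law_with_norm 𝕜 (F (φ (true :: l))) (F (φ (false :: l)))
    have h2 : ‖F (φ l)‖ = ‖F (φ (true :: l)) + F (φ (false :: l))‖ / 2 := by
      conv_lhs => rw [hφ l, hF, ← smul_add, norm_smul]
      norm_num
      ring
    rw [map_sub, h2]
    nlinarith
  | succ k ih =>
    intro l
    have e1 := ih (true :: l)
    have e2 := ih (false :: l)
    have h1 : Z φ true (k + 1) l - Z φ false (k + 1) l =
        (1 / 2 : ℝ) • (Z φ true k (true :: l) - Z φ false k (true :: l)) +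
          (1 / 2 : ℝ) • (Z φ true k (false :: l) - Z φ false k (false :: l)) := by
      show ((1 / 2 : ℝ) • Z φ true k (true :: l) + (1 / 2 : ℝ) • Z φ true k (false :: l)) -
        ((1 / 2 : ℝ) • Z φ false k (true :: l) + (1 / 2 : ℝ) • Z φ false k (false :: l)) = _
      module
    rw [h1, hF]
    set u := F (Z φ true k (true :: l) - Z φ false k (true :: l)) with hu
    set v := F (Z φ true k (false :: l) - Z φ false k (false :: l)) with hv
    have h2 : ‖(1 / 2 : ℝ) • u + (1 / 2 : ℝ) • v‖ = ‖u + v‖ / 2 := by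
      rw [← smul_add, norm_smul]
      norm_num
      ring
    have h3 := parallelogram_law_with_norm 𝕜 u v
    have h4 : energy φ F (k + 1 + 1) l = (energy φ F (k + 1) (true :: l) +
      energy φ F (k + 1) (false :: l)) / 2 := rfl
    have h5 : energy φ F (k + 1) l = (energy φ F k (true :: l) +
      energy φ F k (false :: l)) / 2 := rfl
    rw [h2, h4, h5]
    nlinarith [sq_nonneg ‖u - v‖]

theorem Z_weak (hn : ∀ l, ‖φ l‖ ≤ 1)
    (hφ : ∀ l, φ l = (1 / 2 : ℝ) • φ (true :: l) + (1 / 2 : ℝ) • φ (false :: l))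
    (F : StrongDual 𝕜 (StrongDual 𝕜 X)) (l : List Bool) :
    Tendsto (fun k => F (Z φ true k l - Z φ false k l)) atTop (𝓝 0) := by
  have hmono : Monotone (fun k => energy φ F k l) := by
    refine monotone_nat_of_le_succ fun k => ?_
    have := energy_diff hφ F k l
    nlinarith [sq_nonneg ‖F (Z φ true k l - Z φ false k l)‖]
  have hbdd : BddAbove (range fun k => energy φ F k l) := ⟨‖F‖ ^ 2, by
    rintro _ ⟨k, rfl⟩; exact energy_le hn F k l⟩
  have h1 := tendsto_atTop_ciSup hmono hbdd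
  have h2 := ((tendsto_add_atTop_iff_nat 1).mpr h1).sub h1
  rw [sub_self] at h2
  have h3 := h2.const_mul 4
  rw [mul_zero] at h3
  have h4 : Tendsto (fun k => ‖F (Z φ true k l - Z φ false k l)‖ ^ 2) atTop (𝓝 0) :=
    squeeze_zero (fun k => sq_nonneg _) (fun k => energy_diff hφ F k l) h3
  have h5 := h4.sqrt
  simp only [Real.sqrt_zero, Real.sqrt_sq (norm_nonneg _)] at h5
  exact tendsto_zero_iff_norm_tendsto_zero.mpr h5

/-- Every point of the convex hull is a weak limit of far apart points. -/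
theorem hull_split (hn : ∀ l, ‖φ l‖ ≤ 1) (hfit : ∀ l, Fits η y l (φ l))
    (hφ : ∀ l, φ l = (1 / 2 : ℝ) • φ (true :: l) + (1 / 2 : ℝ) • φ (false :: l))
    {x : StrongDual 𝕜 X} (hx : x ∈ convexHull ℝ (range φ)) :
    ∃ (u v : ℕ → StrongDual 𝕜 X), (∀ N, u N ∈ convexHull ℝ (range φ)) ∧
      (∀ N, v N ∈ convexHull ℝ (range φ)) ∧
      (∀ N, (1 / 2 : ℝ) • u N + (1 / 2 : ℝ) • v N = x) ∧
      (∀ᶠ N in atTop, ‖u N (y N) - 1‖ ≤ η ∧ ‖v N (y N)‖ ≤ η) ∧
      ∀ F : StrongDual 𝕜 (StrongDual 𝕜 X), Tendsto (fun N => F (u N - v N)) atTop (𝓝 0) := by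
  let Q : Set (StrongDual 𝕜 X) := {x | ∃ (u v : ℕ → StrongDual 𝕜 X),
    (∀ N, u N ∈ convexHull ℝ (range φ)) ∧ (∀ N, v N ∈ convexHull ℝ (range φ)) ∧
      (∀ N, (1 / 2 : ℝ) • u N + (1 / 2 : ℝ) • v N = x) ∧
      (∀ᶠ N in atTop, ‖u N (y N) - 1‖ ≤ η ∧ ‖v N (y N)‖ ≤ η) ∧
      ∀ F : StrongDual 𝕜 (StrongDual 𝕜 X), Tendsto (fun N => F (u N - v N)) atTop (𝓝 0)}
  have hQ : convexHull ℝ (range φ) ⊆ Q := by
    refine convexHull_min ?_ ?_
    · rintro _ ⟨l, rfl⟩
      refine ⟨fun N => Z φ true (N - l.length) l, fun N => Z φ false (N - l.length) l,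
        fun N => Z_mem _ _ _, fun N => Z_mem _ _ _, fun N => Z_half hφ _ l, ?_, fun F => ?_⟩
      · filter_upwards [eventually_ge_atTop l.length] with N hN
        have e1 := Z_apply hfit true (N - l.length) l
        have e2 := Z_apply hfit false (N - l.length) l
        rw [Nat.add_sub_cancel' hN] at e1 e2
        refine ⟨by simpa using e1, by simpa using e2⟩
      · exact (Z_weak hn hφ F l).comp (tendsto_sub_atTop_nat l.length)
    · rintro x ⟨u, v, h1, h2, h3, h4, h5⟩ x' ⟨u', v', h1', h2', h3', h4', h5'⟩ s t hs ht hst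
      refine ⟨fun N => s • u N + t • u' N, fun N => s • v N + t • v' N,
        fun N => (convex_convexHull ℝ _) (h1 N) (h1' N) hs ht hst,
        fun N => (convex_convexHull ℝ _) (h2 N) (h2' N) hs ht hst, fun N => ?_, ?_, fun F => ?_⟩
      · rw [← h3 N, ← h3' N]
        module
      · filter_upwards [h4, h4'] with N e e'
        have a1 : (s • u N + t • u' N) (y N) - 1 =
            s • (u N (y N) - 1) + t • (u' N (y N) - 1) := by
          have : (s • u N + t • u' N) (y N) = s • u N (y N) + t • u' N (y N) := rfl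
          rw [this]
          have h1' : (1 : 𝕜) = s • (1 : 𝕜) + t • (1 : 𝕜) := by rw [← add_smul, hst, one_smul]
          conv_lhs => rw [h1']
          module
        have a2 : (s • v N + t • v' N) (y N) = s • v N (y N) + t • v' N (y N) := rfl
        constructor
        · rw [a1]
          refine (norm_add_le _ _).trans ?_
          rw [norm_smul, norm_smul, Real.norm_of_nonneg hs, Real.norm_of_nonneg ht]
          calc s * ‖u N (y N) - 1‖ + t * ‖u' N (y N) - 1‖ ≤ s * η + t * η :=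
                add_le_add (mul_le_mul_of_nonneg_left e.1 hs) (mul_le_mul_of_nonneg_left e'.1 ht)
            _ = η := by rw [← add_mul, hst, one_mul]
        · rw [a2]
          refine (norm_add_le _ _).trans ?_
          rw [norm_smul, norm_smul, Real.norm_of_nonneg hs, Real.norm_of_nonneg ht]
          calc s * ‖v N (y N)‖ + t * ‖v' N (y N)‖ ≤ s * η + t * η :=
                add_le_add (mul_le_mul_of_nonneg_left e.2 hs) (mul_le_mul_of_nonneg_left e'.2 ht)
            _ = η := by rw [← add_mul, hst, one_mul]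
      · have a3 : ∀ N, F (s • u N + t • u' N - (s • v N + t • v' N)) =
            (s : 𝕜) * F (u N - v N) + (t : 𝕜) * F (u' N - v' N) := by
          intro N
          have e : ∀ (r : ℝ) (h : StrongDual 𝕜 X), r • h = (r : 𝕜) • h := by
            intro r h
            apply ContinuousLinearMap.ext
            intro x
            show r • h x = (r : 𝕜) • h x
            rw [RCLike.real_smul_eq_coe_smul (K := 𝕜)]
          have e' : s • u N + t • u' N - (s • v N + t • v' N) =
              (s : 𝕜) • (u N - v N) + (t : 𝕜) • (u' N - v' N) := by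
            rw [← e, ← e]; module
          rw [e', map_add, map_smul, map_smul, smul_eq_mul, smul_eq_mul]
        simp only [a3]
        have := ((h5 F).const_mul (s : 𝕜)).add ((h5' F).const_mul (t : 𝕜))
        simpa using this
  exact hQ hx

end martingale

theorem not_cpcp_of_indep {y : ℕ → X} (hy : Indep 𝕜 (1 / 8) y) : ¬ DualCPCP 𝕜 X := by
  intro hcp
  obtain ⟨φ, hn, hfit, hφ⟩ := exists_martingale hy
  have hball : convexHull ℝ (range φ) ⊆ Metric.closedBall (0 : StrongDual 𝕜 X) 1 := by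
    refine convexHull_min ?_ (convex_closedBall _ _)
    rintro _ ⟨l, rfl⟩
    rw [mem_closedBall_zero_iff]
    exact hn l
  obtain ⟨a, haC, ha⟩ := hcp (closure (convexHull ℝ (range φ)))
    ⟨φ [], subset_closure (subset_convexHull ℝ _ ⟨_, rfl⟩)⟩ isClosed_closure
    (convex_convexHull ℝ _).closure
    ((Metric.isBounded_closedBall.subset hball).closure)
  obtain ⟨U, hU, haU, hUC⟩ := ha (1 / 8) (by norm_num)
  have hUn : IsOpen ((toWeakSpaceCLM 𝕜 (StrongDual 𝕜 X)) ⁻¹' U) :=
    hU.preimage (toWeakSpaceCLM 𝕜 (StrongDual 𝕜 X)).continuous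
  obtain ⟨x, hxU, hx⟩ := mem_closure_iff.mp haC _ hUn haU
  obtain ⟨u, v, h1, h2, h3, h4, h5⟩ := hull_split hn hfit hφ hx
  obtain ⟨F, ε, hε, hF⟩ := weakK_basic (𝕜 := 𝕜) hU (x₀ := x) hxU
  have hev : ∀ᶠ N in atTop, ∀ f ∈ F, ‖f (u N - v N)‖ < ε := by
    rw [Filter.eventually_all_finset]
    intro f _
    have := (h5 f).norm
    rw [norm_zero] at this
    exact this.eventually (gt_mem_nhds hε)
  obtain ⟨N, hN1, hN2⟩ := (h4.and hev).exists
  have e1 : ∀ f : StrongDual 𝕜 (StrongDual 𝕜 X), ‖f (u N) - f x‖ ≤ ‖f (u N - v N)‖ := by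
    intro f
    have : u N - x = (1 / 2 : ℝ) • (u N - v N) := by
      rw [← h3 N]; module
    rw [← map_sub, this]
    have e : ∀ (h : StrongDual 𝕜 X), (1 / 2 : ℝ) • h = ((1 / 2 : ℝ) : 𝕜) • h := by
      intro h
      apply ContinuousLinearMap.ext
      intro x
      show (1 / 2 : ℝ) • h x = ((1 / 2 : ℝ) : 𝕜) • h x
      rw [RCLike.real_smul_eq_coe_smul (K := 𝕜)]
    rw [e, map_smul, norm_smul, RCLike.norm_ofReal]
    rw [abs_of_pos (by norm_num : (0 : ℝ) < 1 / 2)]
    linarith [norm_nonneg (f (u N - v N))]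
  have e2 : ∀ f : StrongDual 𝕜 (StrongDual 𝕜 X), ‖f (v N) - f x‖ ≤ ‖f (u N - v N)‖ := by
    intro f
    have : v N - x = -((1 / 2 : ℝ) • (u N - v N)) := by
      rw [← h3 N]; module
    rw [← map_sub, this]
    have e : ∀ (h : StrongDual 𝕜 X), (1 / 2 : ℝ) • h = ((1 / 2 : ℝ) : 𝕜) • h := by
      intro h
      apply ContinuousLinearMap.ext
      intro x
      show (1 / 2 : ℝ) • h x = ((1 / 2 : ℝ) : 𝕜) • h x
      rw [RCLike.real_smul_eq_coe_smul (K := 𝕜)]
    rw [map_neg, norm_neg, e, map_smul, norm_smul, RCLike.norm_ofReal]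
    rw [abs_of_pos (by norm_num : (0 : ℝ) < 1 / 2)]
    linarith [norm_nonneg (f (u N - v N))]
  have h6 := hUC (u N) (subset_closure (h1 N)) (hF _ fun f hf => (e1 f).trans_lt (hN2 f hf))
  have h7 := hUC (v N) (subset_closure (h2 N)) (hF _ fun f hf => (e2 f).trans_lt (hN2 f hf))
  have h8 : ‖(u N - v N) (y N)‖ ≤ ‖u N - v N‖ := by
    refine ((u N - v N).le_opNorm _).trans ?_
    nlinarith [norm_nonneg (u N - v N), hy.1 N]
  have h9 : ‖u N - v N‖ ≤ ‖u N - a‖ + ‖v N - a‖ := by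
    have : u N - v N = (u N - a) - (v N - a) := by abel
    rw [this]; exact norm_sub_le _ _
  have h10 : (1 : ℝ) ≤ ‖(u N - v N) (y N)‖ + ‖u N (y N) - 1‖ + ‖v N (y N)‖ := by
    have : (1 : 𝕜) = (u N - v N) (y N) - (u N (y N) - 1) + v N (y N) := by
      rw [_root_.sub_apply]; ring
    calc (1 : ℝ) = ‖(1 : 𝕜)‖ := norm_one.symm
      _ = ‖(u N - v N) (y N) - (u N (y N) - 1) + v N (y N)‖ := by rw [← this]
      _ ≤ _ := (norm_add_le _ _).trans (add_le_add (norm_sub_le _ _) le_rfl)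
  linarith [hN1.1, hN1.2]

end Pool.Agent.V1199
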