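import Pool.Agent.V1199.HamB

set_option autoImplicit false

open Filter Topology
open scoped ENNReal

namespace Pool.Agent.V1199.Ham

abbrev HH : Type := lp (fun _ : ℕ => ℝ) 2

abbrev Ch : Type := {S : Finset (ℕ × ℕ) // Chn S}

abbrev Fib (S : Ch) : Type := PiLp 2 (fun _ : S.1 => HH)

abbrev YY : Type := lp Fib ∞
abbrev ZZ : Type := lp (fun _ : ℕ => HH) ∞
abbrev WW : Type := YY × ZZ

/-- `HH`-valued null sequences of finite quadratic variation (an `ℓ₂`-valued James space) -/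
def XS : Submodule ℝ WW where
  carrier := {w | (∀ (S : Ch) (p : S.1), w.1 S p = w.2 p.1.1 - w.2 p.1.2) ∧
    Tendsto (fun t => w.2 t) atTop (𝓝 0)}
  add_mem' := by
    rintro a b ⟨ha1, ha2⟩ ⟨hb1, hb2⟩
    refine ⟨fun S p => ?_, ?_⟩
    · have h1 := ha1 S p
      have h2 := hb1 S p
      simp only [Prod.fst_add, Prod.snd_add, lp.coeFn_add, Pi.add_apply, PiLp.add_apply]
      rw [h1, h2]
      abel
    · have := ha2.add hb2
      simpa using this
  zero_mem' := by
    refine ⟨fun S p => by simp, by simp⟩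
  smul_mem' := by
    rintro c a ⟨ha1, ha2⟩
    refine ⟨fun S p => ?_, ?_⟩
    · have h1 := ha1 S p
      simp only [Prod.smul_fst, Prod.smul_snd, lp.coeFn_smul, Pi.smul_apply, PiLp.smul_apply]
      rw [h1, smul_sub]
    · have := ha2.const_smul c
      simpa using this

lemma cont1 (S : Ch) (p : S.1) : Continuous (fun w : WW => w.1 S p) := by
  have h1 : LipschitzWith 1 (fun w : WW => w.1 S p) := by
    refine LipschitzWith.of_dist_le_mul fun a b => ?_
    rw [dist_eq_norm, dist_eq_norm, NNReal.coe_one, one_mul]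
    calc ‖a.1 S p - b.1 S p‖ = ‖(a.1 S - b.1 S) p‖ := by rw [PiLp.sub_apply]
      _ ≤ ‖a.1 S - b.1 S‖ := PiLp.norm_apply_le _ p
      _ = ‖(a.1 - b.1) S‖ := by rw [lp.coeFn_sub, Pi.sub_apply]
      _ ≤ ‖a.1 - b.1‖ := lp.norm_apply_le_norm (by simp) _ S
      _ ≤ ‖a - b‖ := norm_fst_le (a - b)
  exact h1.continuous

lemma cont2 (t : ℕ) : Continuous (fun w : WW => w.2 t) := by
  have h1 : LipschitzWith 1 (fun w : WW => w.2 t) := by
    refine LipschitzWith.of_dist_le_mul fun a b => ?_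
    rw [dist_eq_norm, dist_eq_norm, NNReal.coe_one, one_mul]
    calc ‖a.2 t - b.2 t‖ = ‖(a.2 - b.2) t‖ := by rw [lp.coeFn_sub, Pi.sub_apply]
      _ ≤ ‖a.2 - b.2‖ := lp.norm_apply_le_norm (by simp) _ t
      _ ≤ ‖a - b‖ := norm_snd_le (a - b)
  exact h1.continuous

lemma isClosed_XS : IsClosed (XS : Set WW) := by
  have h1 : IsClosed {w : WW | ∀ (S : Ch) (p : S.1), w.1 S p = w.2 p.1.1 - w.2 p.1.2} := by
    simp only [Set.setOf_forall]
    refine isClosed_iInter fun S => isClosed_iInter fun p => ?_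
    exact isClosed_eq (cont1 S p) ((cont2 _).sub (cont2 _))
  have h2 : IsClosed {w : WW | Tendsto (fun t => w.2 t) atTop (𝓝 0)} := by
    rw [← isSeqClosed_iff_isClosed]
    intro x w hx hw
    simp only [Set.mem_setOf_eq] at hx ⊢
    rw [Metric.tendsto_atTop]
    intro ε hε
    rw [Metric.tendsto_atTop] at hw
    obtain ⟨N, hN⟩ := hw (ε / 2) (by positivity)
    have h3 := hN N le_rfl
    have h4 := hx N
    rw [Metric.tendsto_atTop] at h4
    obtain ⟨M, hM⟩ := h4 (ε / 2) (by positivity)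
    refine ⟨M, fun t ht => ?_⟩
    have h5 := hM t ht
    have h6 : dist (w.2 t) ((x N).2 t) ≤ dist (x N) w := by
      rw [dist_comm, dist_eq_norm, dist_eq_norm]
      calc ‖(x N).2 t - w.2 t‖ = ‖((x N).2 - w.2) t‖ := by rw [lp.coeFn_sub, Pi.sub_apply]
        _ ≤ ‖(x N).2 - w.2‖ := lp.norm_apply_le_norm (by simp) _ t
        _ ≤ ‖x N - w‖ := norm_snd_le (x N - w)
    have := dist_triangle (w.2 t) ((x N).2 t) 0
    linarith
  exact h1.inter h2

/-- the space as a type of its own -/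
def XX : Type := XS

noncomputable instance : NormedAddCommGroup XX := inferInstanceAs (NormedAddCommGroup XS)
noncomputable instance : NormedSpace ℝ XX := inferInstanceAs (NormedSpace ℝ XS)
instance : CompleteSpace XX := isClosed_XS.completeSpace_coe

/-- the path of an element of `XX` -/
def val (x : XX) (t : ℕ) : HH := (show XS from x).1.2 t

lemma val_sub (x y : XX) : val (x - y) = val x - val y := rfl

lemma norm_val_le (x : XX) (t : ℕ) : ‖val x t‖ ≤ ‖x‖ :=
  (lp.norm_apply_le_norm (by simp) (show XS from x).1.2 t).trans (norm_snd_le (show XS from x).1)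

lemma Q_eq (x : XX) (S : Ch) : Q S.1 (val x) = ‖(show XS from x).1.1 S‖ ^ 2 := by
  rw [PiLp.norm_sq_eq_of_L2]
  unfold Q
  rw [← Finset.sum_coe_sort]
  refine Finset.sum_congr rfl fun p _ => ?_
  rw [(show XS from x).2.1 S p]
  rfl

lemma Q_val_le (x : XX) {S : Finset (ℕ × ℕ)} (hS : Chn S) : Q S (val x) ≤ ‖x‖ ^ 2 := by
  rw [show Q S (val x) = Q (⟨S, hS⟩ : Ch).1 (val x) from rfl, Q_eq]
  exact pow_le_pow_left₀ (norm_nonneg _)
    ((lp.norm_apply_le_norm (by simp) (show XS from x).1.1 ⟨S, hS⟩).trans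
      (norm_fst_le (show XS from x).1)) 2

lemma norm_le_of {x : XX} {r : ℝ} (hr : 0 ≤ r) (h1 : ∀ S, Chn S → Q S (val x) ≤ r ^ 2)
    (h2 : ∀ t, ‖val x t‖ ^ 2 ≤ r ^ 2) : ‖x‖ ≤ r := by
  have h3 : ‖(show XS from x).1.1‖ ≤ r := by
    refine lp.norm_le_of_forall_le hr fun S => ?_
    refine (pow_le_pow_iff_left₀ (norm_nonneg _) hr two_ne_zero).1 ?_
    rw [← Q_eq]
    exact h1 S.1 S.2
  have h4 : ‖(show XS from x).1.2‖ ≤ r := by
    refine lp.norm_le_of_forall_le hr fun t => ?_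
    exact (pow_le_pow_iff_left₀ (norm_nonneg _) hr two_ne_zero).1 (h2 t)
  have h5 : ‖x‖ = ‖(show XS from x).1‖ := rfl
  rw [h5, Prod.norm_def]
  exact max_le h3 h4

lemma tendsto_val (x : XX) : Tendsto (val x) atTop (𝓝 0) := (show XS from x).2.2

/-- unit vectors of `HH` -/
noncomputable def ee (j : ℕ) : HH := lp.single 2 j (1 : ℝ)

lemma inner_ee (j : ℕ) (x : HH) : @inner ℝ _ _ (ee j) x = x j := by
  unfold ee
  rw [lp.inner_single_left]
  simp

lemma norm_ee (j : ℕ) : ‖ee j‖ = 1 := by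
  unfold ee
  rw [lp.norm_single (by norm_num)]
  simp

noncomputable def upath (t j : ℕ) (τ : ℕ) : HH := if τ ≤ t then ee j else 0

lemma Q_upath (t j : ℕ) {S : Finset (ℕ × ℕ)} (hS : Chn S) : Q S (upath t j) ≤ 1 := by
  classical
  unfold Q
  have h1 : ∀ p ∈ S, p ∉ S.filter (fun p : ℕ × ℕ => p.1 ≤ t ∧ t < p.2) →
      ‖upath t j p.1 - upath t j p.2‖ ^ 2 = 0 := by
    intro p hp hp2
    have h3 := hS.1 p hp
    have h4 : ¬ (p.1 ≤ t ∧ t < p.2) := fun h => hp2 (Finset.mem_filter.2 ⟨hp, h⟩)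
    unfold upath
    by_cases h5 : p.1 ≤ t
    · have h6 : p.2 ≤ t := by
        by_contra h
        exact h4 ⟨h5, by omega⟩
      simp [h5, h6]
    · have h6 : ¬ p.2 ≤ t := by omega
      simp [h5, h6]
  rw [← Finset.sum_subset (Finset.filter_subset (fun p : ℕ × ℕ => p.1 ≤ t ∧ t < p.2) S) h1]
  have hcard : (S.filter (fun p : ℕ × ℕ => p.1 ≤ t ∧ t < p.2)).card ≤ 1 := by
    rw [Finset.card_le_one]
    intro p hp q hq
    by_contra hne
    obtain ⟨hp1, hp2, hp3⟩ := Finset.mem_filter.1 hp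
    obtain ⟨hq1, hq2, hq3⟩ := Finset.mem_filter.1 hq
    rcases hS.2 p hp1 q hq1 hne with h | h <;> omega
  have h2 : ∀ p ∈ S.filter (fun p : ℕ × ℕ => p.1 ≤ t ∧ t < p.2),
      ‖upath t j p.1 - upath t j p.2‖ ^ 2 ≤ 1 := by
    intro p hp
    obtain ⟨hp1, hp2, hp3⟩ := Finset.mem_filter.1 hp
    have h6 : ¬ p.2 ≤ t := by omega
    simp [upath, hp2, h6, norm_ee]
  calc _ ≤ ∑ _p ∈ S.filter (fun p : ℕ × ℕ => p.1 ≤ t ∧ t < p.2), (1 : ℝ) := Finset.sum_le_sum h2
    _ ≤ 1 := by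
      rw [Finset.sum_const, nsmul_eq_mul, mul_one]
      exact_mod_cast hcard

lemma norm_upath (t j τ : ℕ) : ‖upath t j τ‖ ≤ 1 := by
  unfold upath
  split_ifs
  · exact (norm_ee j).le
  · simp

noncomputable def fib (t j : ℕ) (S : Ch) : Fib S :=
  WithLp.toLp 2 (fun p : S.1 => upath t j p.1.1 - upath t j p.1.2)

lemma norm_fib (t j : ℕ) (S : Ch) : ‖fib t j S‖ ≤ 1 := by
  have h1 : ‖fib t j S‖ ^ 2 ≤ 1 := by
    rw [PiLp.norm_sq_eq_of_L2]
    have h2 := Q_upath t j S.2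
    unfold Q at h2
    rw [← Finset.sum_coe_sort] at h2
    exact h2
  have := norm_nonneg (fib t j S)
  nlinarith

noncomputable def uW (t j : ℕ) : WW :=
  (⟨fib t j, memℓp_infty ⟨1, by rintro _ ⟨S, rfl⟩; exact norm_fib t j S⟩⟩,
   ⟨upath t j, memℓp_infty ⟨1, by rintro _ ⟨τ, rfl⟩; exact norm_upath t j τ⟩⟩)

noncomputable def uu (t j : ℕ) : XX := show XS from ⟨uW t j, by
  refine ⟨fun S p => rfl, ?_⟩
  refine tendsto_const_nhds.congr' ?_
  filter_upwards [eventually_gt_atTop t] with τ hτ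
  change (0 : HH) = upath t j τ
  rw [upath, if_neg (by omega)]⟩

lemma val_uu (t j : ℕ) : val (uu t j) = upath t j := rfl

lemma norm_uu (t j : ℕ) : ‖uu t j‖ ≤ 1 := by
  refine norm_le_of zero_le_one (fun S hS => ?_) (fun τ => ?_)
  · rw [val_uu]
    simpa using Q_upath t j hS
  · rw [val_uu]
    have := norm_upath t j τ
    have := norm_nonneg (upath t j τ)
    nlinarith

/-- coordinate functionals -/
noncomputable def gg (t j : ℕ) : XX →L[ℝ] ℝ :=
  LinearMap.mkContinuous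
    { toFun := fun x => @inner ℝ _ _ (ee j) (val x t)
      map_add' := fun x y => by
        rw [show val (x + y) t = val x t + val y t from rfl, inner_add_right]
      map_smul' := fun c x => by
        rw [show val (c • x) t = c • val x t from rfl, inner_smul_right]; rfl } 1 (fun x => by
      have h1 := abs_real_inner_le_norm (ee j) (val x t)
      rw [norm_ee, one_mul] at h1
      change |@inner ℝ _ _ (ee j) (val x t)| ≤ _
      rw [one_mul]
      exact h1.trans (norm_val_le x t))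

lemma gg_apply (t j : ℕ) (x : XX) : gg t j x = @inner ℝ _ _ (ee j) (val x t) := rfl

lemma gg_uu (t j t' i : ℕ) (h : t ≤ t') : gg t j (uu t' i) = if j = i then 1 else 0 := by
  rw [gg_apply, val_uu, upath, if_pos h, inner_ee]
  unfold ee
  rw [lp.single_apply]
  by_cases hji : j = i
  · subst hji; simp
  · simp [hji]

lemma exists_phi : ∃ φ : ℕ → ((XX →L[ℝ] ℝ) →L[ℝ] ℝ),
    ∀ i t j, φ i (gg t j) = if j = i then 1 else 0 := by
  have h1 : ∀ i, ∃ q : (XX →L[ℝ] ℝ) →L[ℝ] ℝ, ‖q‖ ≤ 1 ∧ ∀ g : XX →L[ℝ] ℝ,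
      Tendsto (fun t => NormedSpace.inclusionInDoubleDual ℝ XX (uu t i) g)
        (hyperfilter ℕ : Filter ℕ) (𝓝 (q g)) := by
    intro i
    refine ultralimit (hyperfilter ℕ) (fun t => NormedSpace.inclusionInDoubleDual ℝ XX (uu t i)) ?_
    intro t
    exact (NormedSpace.double_dual_bound ℝ XX (uu t i)).trans (norm_uu t i)
  choose φ _ hφ using h1
  refine ⟨φ, fun i t j => ?_⟩
  have h2 := hφ i (gg t j)
  refine tendsto_nhds_unique h2 (tendsto_const_nhds.congr' ?_)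
  have h3 : (hyperfilter ℕ : Filter ℕ) ≤ atTop := Nat.hyperfilter_le_atTop
  filter_upwards [h3 (eventually_ge_atTop t)] with t' ht'
  rw [NormedSpace.dual_def, gg_uu t j t' i ht']

lemma abstract_fin {V : Type*} [AddCommGroup V] [Module ℝ V] (R : Submodule ℝ V) (s : Finset V)
    (hs : ∀ v, v ∈ Submodule.span ℝ ((↑s : Set V) ∪ (R : Set V))) (φ : ℕ → V)
    (hφ : ∀ (I : Finset ℕ) (c : ℕ → ℝ), ∑ i ∈ I, c i • φ i ∈ R → ∀ j ∈ I, c j = 0) : False := by
  have hfin : Module.Finite ℝ (V ⧸ R) := by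
    classical
    refine ⟨⟨s.image R.mkQ, ?_⟩⟩
    rw [eq_top_iff]
    rintro y -
    obtain ⟨v, rfl⟩ := R.mkQ_surjective y
    have h1 := hs v
    have h2 : R.mkQ v ∈ (Submodule.span ℝ ((↑s : Set V) ∪ (R : Set V))).map R.mkQ :=
      Submodule.mem_map_of_mem h1
    rw [Submodule.map_span, Set.image_union] at h2
    refine Submodule.span_le.2 ?_ h2
    rintro z (⟨v, hv, rfl⟩ | ⟨v, hv, rfl⟩)
    · refine Submodule.subset_span ?_
      rw [Finset.coe_image]
      exact ⟨v, hv, rfl⟩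
    · have h4 : R.mkQ v = 0 := by rw [Submodule.mkQ_apply, Submodule.Quotient.mk_eq_zero]; exact hv
      rw [h4]
      exact Submodule.zero_mem _
  have hli : LinearIndependent ℝ (fun i : ℕ => R.mkQ (φ i)) := by
    rw [linearIndependent_iff']
    intro I c hc j hj
    have h1 : R.mkQ (∑ i ∈ I, c i • φ i) = 0 := by
      rw [map_sum]
      simpa using hc
    rw [Submodule.mkQ_apply, Submodule.Quotient.mk_eq_zero] at h1
    exact hφ I c h1 j hj
  have h5 := hli.finite_of_isNoetherian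
  exact not_finite ℕ

lemma not_qr (s : Finset ((XX →L[ℝ] ℝ) →L[ℝ] ℝ)) : ∃ φ : (XX →L[ℝ] ℝ) →L[ℝ] ℝ,
    φ ∉ Submodule.span ℝ
      ((↑s : Set ((XX →L[ℝ] ℝ) →L[ℝ] ℝ)) ∪
        {ψ : (XX →L[ℝ] ℝ) →L[ℝ] ℝ | ∃ x : XX, ∀ g : XX →L[ℝ] ℝ, ψ g = g x}) := by
  by_contra hcon
  push Not at hcon
  obtain ⟨φ, hφ⟩ := exists_phi
  refine abstract_fin (LinearMap.range (NormedSpace.inclusionInDoubleDual ℝ XX).toLinearMap) s
    ?_ φ ?_
  · intro v
    refine Submodule.span_mono ?_ (hcon v)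
    refine Set.union_subset_union_right _ ?_
    rintro ψ ⟨x, hx⟩
    refine ⟨x, ?_⟩
    ext g
    rw [hx g]
    rfl
  · rintro I c ⟨x, hx⟩ j hj
    have h2 : ∀ t, @inner ℝ _ _ (ee j) (val x t) = c j := by
      intro t
      have h3 : (NormedSpace.inclusionInDoubleDual ℝ XX x) (gg t j) =
          (∑ i ∈ I, c i • φ i) (gg t j) := by rw [← hx]; rfl
      have h4 : (NormedSpace.inclusionInDoubleDual ℝ XX x) (gg t j) =
          @inner ℝ _ _ (ee j) (val x t) := rfl
      rw [h4] at h3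
      rw [h3]
      have h5 : (∑ i ∈ I, c i • φ i) (gg t j) = ∑ i ∈ I, c i * (φ i (gg t j)) := by
        simp
      rw [h5]
      simp only [hφ]
      simp [hj]
    have h3 : Tendsto (fun t => @inner ℝ _ _ (ee j) (val x t)) atTop (𝓝 (@inner ℝ _ _ (ee j) (0 : HH))) :=
      (tendsto_const_nhds).inner (tendsto_val x)
    simp only [h2, inner_zero_right] at h3
    exact tendsto_nhds_unique tendsto_const_nhds h3

end Pool.Agent.V1199.Ham
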