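import Mathlib

open Set Filter Topology

namespace Pool.Agent.V1199

variable {𝕜 : Type*} [RCLike 𝕜] {X : Type*} [NormedAddCommGroup X] [NormedSpace 𝕜 X]

theorem ccs_super_core (x : X) (hx : ‖x‖ = 1)
    (H : ∀ (m : ℕ), 0 < m → ∀ (g : Fin m → StrongDual 𝕜 X) (t : Fin m → ℝ),
      (∀ j, t j < RCLike.re (g j x)) → ∀ θ : ℝ, 0 < θ →
      ∃ y : Fin m → X, (∀ j, ‖y j‖ ≤ 1 ∧ t j < RCLike.re (g j (y j))) ∧
        2 - θ < ‖x - ∑ j, (((m : ℝ)⁻¹ : ℝ) : 𝕜) • y j‖)
    (F : Finset (StrongDual 𝕜 X)) (ε : ℝ) (hε : 0 < ε) (θ : ℝ) (hθ : 0 < θ) :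
    ∃ y : X, ‖y‖ ≤ 1 ∧ (∀ f ∈ F, ‖f y - f x‖ < ε) ∧ 2 - θ < ‖x - y‖ := by
  classical
  -- the finite family of functionals (real and imaginary parts)
  let g : (F × Bool) → StrongDual 𝕜 X := fun p =>
    if p.2 then p.1.1 else (-(RCLike.I : 𝕜)) • p.1.1
  let E := EuclideanSpace ℝ (F × Bool)
  let Φ : X → E := fun y => WithLp.toLp 2 (fun p => RCLike.re (g p y))
  have hΦ : ∀ y p, Φ y p = RCLike.re (g p y) := fun y p => rfl
  set M : ℝ := ∑ p, ‖g p‖ with hM
  have hM0 : 0 ≤ M := Finset.sum_nonneg fun p _ => norm_nonneg _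
  set ε' : ℝ := ε / 2 with hε'
  have hε'0 : 0 < ε' := by positivity
  set δ : ℝ := ε' / (8 * (M + 1)) with hδ
  have hδ0 : 0 < δ := by positivity
  obtain ⟨T, hTK, hTfin, hTcov⟩ := (isCompact_closedBall (0 : E) 1).finite_cover_balls hδ0
  have hTne : T.Nonempty := by
    have h0 : (0 : E) ∈ Metric.closedBall (0 : E) 1 := by simp
    have := hTcov h0
    simp only [mem_iUnion, exists_prop] at this
    obtain ⟨c, hc, -⟩ := this
    exact ⟨c, hc⟩
  have hinner : ∀ (c : E) (y : X), inner ℝ c (Φ y) =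
      RCLike.re ((∑ p, ((c p : ℝ) : 𝕜) • g p) y) := by
    intro c y
    rw [_root_.sum_apply, map_sum, PiLp.inner_apply]
    refine Finset.sum_congr rfl fun p _ => ?_
    rw [_root_.smul_apply, smul_eq_mul, RCLike.re_ofReal_mul, hΦ]
    simp [mul_comm]
  set m : ℕ := hTfin.toFinset.card with hm
  have hm0 : 0 < m := by
    rw [hm, Finset.card_pos]
    simpa using hTne
  have hm0' : (0 : ℝ) < m := by exact_mod_cast hm0
  let e := hTfin.toFinset.equivFin
  let c : Fin m → E := fun j => (e.symm j).1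
  let G : Fin m → StrongDual 𝕜 X := fun j => ∑ p, ((c j p : ℝ) : 𝕜) • g p
  set θ' : ℝ := θ / (m + 1) with hθ'
  have hθ'0 : 0 < θ' := by positivity
  obtain ⟨y, hy, hxy⟩ := H m hm0 G (fun j => RCLike.re (G j x) - ε' / 2)
    (fun j => by linarith) θ' hθ'0
  obtain ⟨f, hf1, hf2⟩ := exists_dual_vector'' 𝕜 (x - ∑ j, (((m : ℝ)⁻¹ : ℝ) : 𝕜) • y j)
  have hfle : ∀ z : X, ‖z‖ ≤ 1 → |RCLike.re (f z)| ≤ 1 := by
    intro z hz
    refine (RCLike.abs_re_le_norm _).trans ((f.le_opNorm z).trans ?_)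
    nlinarith [norm_nonneg z, norm_nonneg f]
  have hre : RCLike.re (f x) - (m : ℝ)⁻¹ * ∑ j, RCLike.re (f (y j)) =
      ‖x - ∑ j, (((m : ℝ)⁻¹ : ℝ) : 𝕜) • y j‖ := by
    have h1 : RCLike.re (f (x - ∑ j, (((m : ℝ)⁻¹ : ℝ) : 𝕜) • y j)) =
        ‖x - ∑ j, (((m : ℝ)⁻¹ : ℝ) : 𝕜) • y j‖ := by
      rw [hf2, RCLike.ofReal_re]
    rw [← h1, map_sub, map_sub, map_sum, map_sum, Finset.mul_sum]
    congr 1
    refine Finset.sum_congr rfl fun j _ => ?_
    rw [map_smul, smul_eq_mul, RCLike.re_ofReal_mul]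
  have hfx1 := (abs_le.mp (hfle x hx.le)).2
  have hsum0 : ∀ j, 0 ≤ RCLike.re (f (y j)) + 1 := fun j => by
    have := (abs_le.mp (hfle (y j) (hy j).1)).1
    linarith
  have hsum : ∑ j, (RCLike.re (f (y j)) + 1) < m * θ' := by
    rw [Finset.sum_add_distrib]
    simp only [Finset.sum_const, Finset.card_univ, Fintype.card_fin, nsmul_eq_mul, mul_one]
    have h2 : (m : ℝ)⁻¹ * ∑ j, RCLike.re (f (y j)) < -1 + θ' := by linarith
    have h3 := mul_lt_mul_of_pos_left h2 hm0'
    rw [← mul_assoc, mul_inv_cancel₀ hm0'.ne', one_mul] at h3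
    linarith
  have hfy : ∀ j, RCLike.re (f (y j)) < -1 + m * θ' := by
    intro j
    have := Finset.single_le_sum (f := fun j => RCLike.re (f (y j)) + 1)
      (fun i _ => hsum0 i) (Finset.mem_univ j)
    linarith
  have hfx : 1 - θ' < RCLike.re (f x) := by
    have h4 : (-1 : ℝ) ≤ (m : ℝ)⁻¹ * ∑ j, RCLike.re (f (y j)) := by
      have h5 : -(m : ℝ) ≤ ∑ j, RCLike.re (f (y j)) := by
        have := Finset.sum_nonneg (s := Finset.univ) (fun i _ => hsum0 i)
        rw [Finset.sum_add_distrib] at this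
        simp only [Finset.sum_const, Finset.card_univ, Fintype.card_fin, nsmul_eq_mul,
          mul_one] at this
        linarith
      have := mul_le_mul_of_nonneg_left h5 (inv_nonneg.mpr hm0'.le)
      rw [mul_neg, inv_mul_cancel₀ hm0'.ne'] at this
      exact this
    linarith
  -- the compact convex set of images
  let L : (Fin m → ℝ) → E := fun w => ∑ j, w j • Φ (y j)
  have hLcont : Continuous L := by
    refine continuous_finsetSum _ fun j _ => ?_
    exact (continuous_apply j).smul continuous_const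
  have hLlin : IsLinearMap ℝ L := by
    constructor
    · intro a b
      simp only [L, Pi.add_apply, add_smul, Finset.sum_add_distrib]
    · intro r a
      simp only [L, Pi.smul_apply, smul_eq_mul, mul_smul, Finset.smul_sum]
  have hAcomp : IsCompact (L '' stdSimplex ℝ (Fin m)) := (isCompact_stdSimplex _ _).image hLcont
  have hAconv : Convex ℝ (L '' stdSimplex ℝ (Fin m)) :=
    (convex_stdSimplex ℝ (Fin m)).is_linear_image hLlin
  have hmemj : ∀ j, Φ (y j) ∈ L '' stdSimplex ℝ (Fin m) := by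
    intro j
    refine ⟨Pi.single j 1, single_mem_stdSimplex ℝ j, ?_⟩
    simp only [L]
    rw [Finset.sum_eq_single j]
    · simp
    · intro i _ hij
      simp [Pi.single_eq_of_ne hij]
    · intro h; exact absurd (Finset.mem_univ _) h
  obtain ⟨z, hzA, hz⟩ := exists_norm_eq_iInf_of_complete_convex
    (⟨_, hmemj ⟨0, hm0⟩⟩ : (L '' stdSimplex ℝ (Fin m)).Nonempty) hAcomp.isComplete hAconv (Φ x)
  have hzin := (norm_eq_iInf_iff_real_inner_le_zero hAconv hzA).mp hz
  have hzlt : ‖Φ x - z‖ < ε' := by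
    by_contra hcon
    push Not at hcon
    set r := ‖Φ x - z‖ with hr
    have hr0 : 0 < r := hε'0.trans_le hcon
    set c0 : E := r⁻¹ • (Φ x - z) with hc0
    have hc0n : ‖c0‖ = 1 := by
      rw [hc0, norm_smul, norm_inv, Real.norm_of_nonneg hr0.le, ← hr, inv_mul_cancel₀ hr0.ne']
    have hc0K : c0 ∈ Metric.closedBall (0 : E) 1 := by
      rw [mem_closedBall_zero_iff]; exact hc0n.le
    have := hTcov hc0K
    simp only [mem_iUnion, exists_prop] at this
    obtain ⟨c1, hc1T, hc1⟩ := this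
    have hc1' : c1 ∈ hTfin.toFinset := by simpa using hc1T
    set j : Fin m := e ⟨c1, hc1'⟩ with hj
    have hcj : c j = c1 := by
      simp only [c, hj, Equiv.symm_apply_apply]
    have hyj := (hy j).2
    have hGj : ∀ v : X, RCLike.re (G j v) = inner ℝ c1 (Φ v) := by
      intro v
      rw [hinner c1 v, ← hcj]
    simp only [hGj] at hyj
    -- inner c0 (Φ x - Φ (y j)) ≥ r
    have h1 : r ≤ inner ℝ c0 (Φ x - Φ (y j)) := by
      have h2 := hzin _ (hmemj j)
      have h3 : inner ℝ (Φ x - z) (Φ x - Φ (y j)) =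
          inner ℝ (Φ x - z) (Φ x - z) - inner ℝ (Φ x - z) (Φ (y j) - z) := by
        rw [← inner_sub_right]; congr 1; abel
      have h4 : inner ℝ (Φ x - z) (Φ x - z) = r ^ 2 := by
        rw [real_inner_self_eq_norm_sq]
      rw [hc0, inner_smul_left, h3, h4]
      simp only [conj_trivial]
      rw [le_inv_mul_iff₀ hr0]
      nlinarith
    have h5 : |inner ℝ (c0 - c1) (Φ x - Φ (y j))| ≤ δ * (2 * M) := by
      have h6 : inner ℝ (c0 - c1) (Φ x - Φ (y j)) =
          ∑ p, (c0 - c1) p * (RCLike.re (g p x) - RCLike.re (g p (y j))) := by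
        rw [PiLp.inner_apply]
        refine Finset.sum_congr rfl fun p _ => ?_
        exact mul_comm _ _
      rw [h6]
      refine (Finset.abs_sum_le_sum_abs _ _).trans ?_
      rw [hM, Finset.mul_sum, Finset.mul_sum]
      refine Finset.sum_le_sum fun p _ => ?_
      rw [abs_mul]
      have h7 : |(c0 - c1) p| ≤ δ := by
        have := PiLp.norm_apply_le (c0 - c1) p
        rw [Real.norm_eq_abs] at this
        refine this.trans ?_
        rw [← dist_eq_norm]
        exact (Metric.mem_ball.mp hc1).le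
      have h8 : |RCLike.re (g p x) - RCLike.re (g p (y j))| ≤ 2 * ‖g p‖ := by
        have h9 : ∀ v : X, ‖v‖ ≤ 1 → |RCLike.re (g p v)| ≤ ‖g p‖ := by
          intro v hv
          refine (RCLike.abs_re_le_norm _).trans ((ContinuousLinearMap.le_opNorm _ v).trans ?_)
          nlinarith [norm_nonneg (g p), norm_nonneg v]
        have ha := abs_le.mp (h9 x hx.le)
        have hb := abs_le.mp (h9 (y j) (hy j).1)
        rw [abs_le]
        constructor <;> linarith [ha.1, ha.2, hb.1, hb.2]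
      exact mul_le_mul h7 h8 (abs_nonneg _) hδ0.le
    have h10 : inner ℝ c0 (Φ x - Φ (y j)) = inner ℝ (c0 - c1) (Φ x - Φ (y j)) +
        (inner ℝ c1 (Φ x) - inner ℝ c1 (Φ (y j))) := by
      rw [← inner_sub_right, ← inner_add_left]; congr 1; abel
    have h11 : δ * (2 * M) ≤ ε' / 4 := by
      rw [hδ, div_mul_eq_mul_div, div_le_div_iff₀ (by positivity) (by norm_num)]
      nlinarith
    have h12 := (abs_le.mp h5).2
    linarith
  obtain ⟨w, hw, hwz⟩ := hzA
  obtain ⟨hw0, hw1⟩ := hw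
  refine ⟨∑ j, ((w j : ℝ) : 𝕜) • y j, ?_, ?_, ?_⟩
  · calc ‖∑ j, ((w j : ℝ) : 𝕜) • y j‖ ≤ ∑ j, ‖((w j : ℝ) : 𝕜) • y j‖ := norm_sum_le _ _
      _ ≤ ∑ j, w j := by
          refine Finset.sum_le_sum fun j _ => ?_
          rw [norm_smul, RCLike.norm_ofReal, abs_of_nonneg (hw0 j)]
          nlinarith [hw0 j, (hy j).1]
      _ = 1 := hw1
  · intro h hh
    have hreal : ∀ (k : StrongDual 𝕜 X), RCLike.re (k (∑ j, ((w j : ℝ) : 𝕜) • y j)) =
        ∑ j, w j * RCLike.re (k (y j)) := by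
      intro k
      rw [map_sum, map_sum]
      refine Finset.sum_congr rfl fun j _ => ?_
      rw [map_smul, smul_eq_mul, RCLike.re_ofReal_mul]
    have hcoord : ∀ p, |RCLike.re (g p (∑ j, ((w j : ℝ) : 𝕜) • y j)) - RCLike.re (g p x)| < ε' := by
      intro p
      have h1 : z p = RCLike.re (g p (∑ j, ((w j : ℝ) : 𝕜) • y j)) := by
        rw [hreal, ← hwz]
        simp only [L]
        rw [WithLp.ofLp_sum, Finset.sum_apply]
        refine Finset.sum_congr rfl fun j _ => ?_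
        rfl
      have h2 := PiLp.norm_apply_le (Φ x - z) p
      rw [PiLp.sub_apply, hΦ, h1, Real.norm_eq_abs, abs_sub_comm] at h2
      exact h2.trans_lt hzlt
    have hA := hcoord (⟨h, hh⟩, true)
    have hB := hcoord (⟨h, hh⟩, false)
    simp only [g, if_true] at hA
    have hB' : |RCLike.im (h (∑ j, ((w j : ℝ) : 𝕜) • y j)) - RCLike.im (h x)| < ε' := by
      have e1 : ∀ v : X, RCLike.re (g (⟨h, hh⟩, false) v) = RCLike.im (h v) := by
        intro v
        simp only [g, Bool.false_eq_true, if_false]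
        rw [_root_.smul_apply, smul_eq_mul]
        simp
      rw [e1, e1] at hB
      exact hB
    rw [← RCLike.re_add_im (h (∑ j, ((w j : ℝ) : 𝕜) • y j) - h x)]
    refine (norm_add_le _ _).trans_lt ?_
    rw [norm_mul, RCLike.norm_ofReal, RCLike.norm_ofReal, map_sub, map_sub]
    have hI : ‖(RCLike.I : 𝕜)‖ ≤ 1 := by
      by_cases hI0 : (RCLike.I : 𝕜) = 0
      · rw [hI0, norm_zero]; exact zero_le_one
      · exact (RCLike.norm_I_of_ne_zero hI0).le
    have : |RCLike.im (h (∑ j, ((w j : ℝ) : 𝕜) • y j)) - RCLike.im (h x)| * ‖(RCLike.I : 𝕜)‖ ≤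
        |RCLike.im (h (∑ j, ((w j : ℝ) : 𝕜) • y j)) - RCLike.im (h x)| * 1 :=
      mul_le_mul_of_nonneg_left hI (abs_nonneg _)
    have hA' : |RCLike.re (h (∑ j, ((w j : ℝ) : 𝕜) • y j)) - RCLike.re (h x)| < ε' := hA
    rw [hε'] at hA' hB'
    linarith
  · have h1 : RCLike.re (f (∑ j, ((w j : ℝ) : 𝕜) • y j)) = ∑ j, w j * RCLike.re (f (y j)) := by
      rw [map_sum, map_sum]
      refine Finset.sum_congr rfl fun j _ => ?_
      rw [map_smul, smul_eq_mul, RCLike.re_ofReal_mul]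
    have h2 : ∑ j, w j * RCLike.re (f (y j)) ≤ ∑ j, w j * (-1 + m * θ') :=
      Finset.sum_le_sum fun j _ => mul_le_mul_of_nonneg_left (hfy j).le (hw0 j)
    rw [← Finset.sum_mul, hw1, one_mul] at h2
    have h3 : RCLike.re (f (x - ∑ j, ((w j : ℝ) : 𝕜) • y j)) ≤
        ‖x - ∑ j, ((w j : ℝ) : 𝕜) • y j‖ := by
      refine (RCLike.re_le_norm _).trans ((f.le_opNorm _).trans ?_)
      nlinarith [norm_nonneg (x - ∑ j, ((w j : ℝ) : 𝕜) • y j)]
    rw [map_sub, map_sub, h1] at h3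
    have h4 : θ' + m * θ' = θ := by
      rw [hθ']; field_simp; ring
    linarith

end Pool.Agent.V1199
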