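import Pool.Agent.V1199.DsMat

open Filter Topology Finset

namespace Pool.Agent.V1199.Ds

variable {𝕜 : Type*} [RCLike 𝕜] {F : Type*} [AddCommGroup F] [Module 𝕜 F]

/-- bounded for every seminorm. -/
def Bv (𝕜 : Type*) [RCLike 𝕜] {F : Type*} [AddCommGroup F] [Module 𝕜 F] (v : ℕ → F) : Prop :=
  ∀ q : Seminorm 𝕜 F, ∃ C, ∀ n, q (v n) ≤ C

/-- null for every seminorm. -/
def Zv (𝕜 : Type*) [RCLike 𝕜] {F : Type*} [AddCommGroup F] [Module 𝕜 F] (v : ℕ → F) : Prop :=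
  ∀ q : Seminorm 𝕜 F, Tendsto (fun n => q (v n)) atTop (𝓝 0)

theorem Bv.const (w : F) : Bv 𝕜 (fun _ => w) := fun q => ⟨q w, fun _ => le_rfl⟩

theorem Bv.smul {v : ℕ → F} (hv : Bv 𝕜 v) {c : ℕ → 𝕜} {D : ℝ} (hc : ∀ n, ‖c n‖ ≤ D) :
    Bv 𝕜 (fun n => c n • v n) := by
  intro q
  obtain ⟨C, hC⟩ := hv q
  refine ⟨D * C, fun n => ?_⟩
  rw [map_smul_eq_mul]
  exact mul_le_mul (hc n) (hC n) (apply_nonneg q _) ((norm_nonneg _).trans (hc n))

theorem qsum (q : Seminorm 𝕜 F) {ι : Type*} (t : Finset ι) (v : ι → F) :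
    q (∑ i ∈ t, v i) ≤ ∑ i ∈ t, q (v i) := by
  classical
  induction t using Finset.induction_on with
  | empty => simp
  | insert a t ha ih =>
    rw [Finset.sum_insert ha, Finset.sum_insert ha]
    exact (map_add_le_add q _ _).trans (add_le_add le_rfl ih)

theorem Bv.sum {ι : Type*} (t : Finset ι) {v : ι → ℕ → F} (hv : ∀ i ∈ t, Bv 𝕜 (v i)) :
    Bv 𝕜 (fun n => ∑ i ∈ t, v i n) := by
  intro q
  have h : ∀ i, ∃ C, i ∈ t → ∀ n, q (v i n) ≤ C := by
    intro i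
    by_cases hi : i ∈ t
    · obtain ⟨C, hC⟩ := hv i hi q
      exact ⟨C, fun _ => hC⟩
    · exact ⟨0, fun h => absurd h hi⟩
  choose C hC using h
  refine ⟨∑ i ∈ t, C i, fun n => (qsum q t _).trans (Finset.sum_le_sum fun i hi => hC i hi n)⟩

theorem Bv.map {v : ℕ → F} (hv : Bv 𝕜 v) (L : F →ₗ[𝕜] F) : Bv 𝕜 (fun n => L (v n)) :=
  fun q => hv (q.comp L)

theorem Zv.sum {ι : Type*} (t : Finset ι) {v : ι → ℕ → F} (hv : ∀ i ∈ t, Zv 𝕜 (v i)) :
    Zv 𝕜 (fun n => ∑ i ∈ t, v i n) := by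
  intro q
  have h1 : Tendsto (fun n => ∑ i ∈ t, q (v i n)) atTop (𝓝 (∑ i ∈ t, 0)) :=
    tendsto_finsetSum t fun i hi => hv i hi q
  rw [Finset.sum_const_zero] at h1
  exact squeeze_zero (fun n => apply_nonneg q _) (fun n => qsum q t _) h1

theorem Zv.map {v : ℕ → F} (hv : Zv 𝕜 v) (L : F →ₗ[𝕜] F) : Zv 𝕜 (fun n => L (v n)) :=
  fun q => hv (q.comp L)

theorem Bv.smul_zero {v : ℕ → F} (hv : Bv 𝕜 v) {c : ℕ → 𝕜} (hc : Tendsto c atTop (𝓝 0)) :
    Zv 𝕜 (fun n => c n • v n) := by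
  intro q
  obtain ⟨C, hC⟩ := hv q
  have h1 : Tendsto (fun n => ‖c n‖ * C) atTop (𝓝 0) := by
    have := hc.norm.mul_const C
    rwa [norm_zero, zero_mul] at this
  refine squeeze_zero (fun n => apply_nonneg q _) (fun n => ?_) h1
  rw [map_smul_eq_mul]
  exact mul_le_mul_of_nonneg_left (hC n) (norm_nonneg _)

variable {N R : Module.End 𝕜 F}

theorem T_R (hNR : ∀ v, N (R v) = v) {b : F} (hb : N b = 0) (n l : ℕ) :
    ((1 + N) ^ n) ((R ^ l) b) = ∑ i ∈ range (l + 1), (n.choose (l - i) : 𝕜) • (R ^ i) b := by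
  induction n with
  | zero =>
    rw [Finset.sum_range_succ, Finset.sum_eq_zero]
    · simp
    · intro i hi
      have : l - i ≠ 0 := by have := Finset.mem_range.1 hi; omega
      rw [Nat.choose_eq_zero_of_lt (by omega), Nat.cast_zero, zero_smul]
  | succ n ih =>
    rw [pow_succ', Module.End.mul_apply, ih, LinearMap.add_apply, Module.End.one_apply]
    have h2 : N (∑ i ∈ range (l + 1), (n.choose (l - i) : 𝕜) • (R ^ i) b) =
        ∑ i ∈ range l, (n.choose (l - (i + 1)) : 𝕜) • (R ^ i) b := by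
      rw [map_sum, Finset.sum_range_succ']
      have h3 : N ((n.choose (l - 0) : 𝕜) • (R ^ 0) b) = 0 := by
        rw [map_smul, pow_zero, Module.End.one_apply, hb, smul_zero]
      rw [h3, add_zero]
      refine Finset.sum_congr rfl fun i _ => ?_
      rw [map_smul, pow_succ', Module.End.mul_apply, hNR]
    rw [h2, Finset.sum_range_succ, Finset.sum_range_succ (n := l)]
    rw [add_right_comm, ← Finset.sum_add_distrib]
    congr 1
    · refine Finset.sum_congr rfl fun i hi => ?_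
      have hi' := Finset.mem_range.1 hi
      rw [← add_smul]
      congr 1
      obtain ⟨m, hm⟩ : ∃ m, l - i = m + 1 := ⟨l - i - 1, by omega⟩
      rw [hm, show l - (i + 1) = m by omega, Nat.choose_succ_succ, Nat.cast_add, add_comm]
    · simp

/-- components. -/
def comp (N R : Module.End 𝕜 F) (s : F) (i : ℕ) : F := (N ^ i) s - R ((N ^ (i + 1)) s)

theorem comp_ker (hNR : ∀ v, N (R v) = v) (s : F) (i : ℕ) : N (comp N R s i) = 0 := by
  unfold comp
  rw [map_sub, hNR, pow_succ', Module.End.mul_apply, sub_self]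

theorem sum_comp {s : F} {M : ℕ} (hs : (N ^ M) s = 0) :
    ∑ i ∈ range M, (R ^ i) (comp N R s i) = s := by
  have h : ∀ i, (R ^ i) (comp N R s i) = (R ^ i) ((N ^ i) s) - (R ^ (i + 1)) ((N ^ (i + 1)) s) := by
    intro i
    unfold comp
    rw [map_sub, pow_succ R, Module.End.mul_apply]
  simp_rw [h]
  rw [Finset.sum_range_sub', hs, map_zero, sub_zero]
  simp

theorem choose_bound {p q : ℕ} (hpq : p ≤ q) (n : ℕ) :
    ‖((n : 𝕜) ^ q)⁻¹ * (n.choose p : 𝕜)‖ ≤ 1 := by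
  rw [norm_mul, norm_inv, norm_pow, RCLike.norm_natCast, RCLike.norm_natCast]
  rcases Nat.eq_zero_or_pos n with rfl | hn
  · rcases Nat.eq_zero_or_pos p with rfl | hp
    · rcases Nat.eq_zero_or_pos q with rfl | hq
      · simp
      · rw [Nat.cast_zero, zero_pow hq.ne']; simp
    · rw [Nat.choose_eq_zero_of_lt hp]; simp
  · have h1 : (n.choose p : ℝ) ≤ (n : ℝ) ^ q := by
      have h2 : n.choose p ≤ n ^ q :=
        (Nat.choose_le_pow n p).trans (Nat.pow_le_pow_right hn hpq)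
      exact_mod_cast h2
    have h3 : (0 : ℝ) < (n : ℝ) ^ q := by positivity
    rw [inv_mul_le_iff₀ h3, mul_one]
    exact h1

theorem solve (hNR : ∀ v, N (R v) = v) (M : ℕ) {s u : F} (hs : (N ^ M) s = 0)
    (hu : (N ^ M) u = 0) (G : Submodule 𝕜 F) (hGs : ∀ i < M, comp N R s i ∈ G)
    (hGu : ∀ i < M, comp N R u i ∈ G) :
    ∃ y : ℕ → ℕ → F, (∀ j n, y j n ∈ G) ∧ (∀ j n, N (y j n) = 0) ∧ (∀ j, Bv 𝕜 (y j)) ∧
      ∀ᶠ n : ℕ in atTop,
        ((1 + N) ^ n) (s + ∑ j ∈ range M, (((n : 𝕜) ^ (j + 1))⁻¹) • (R ^ (M + j)) (y j n)) =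
        u + ∑ j ∈ range M, ∑ i ∈ range (j + 1),
          (((n : 𝕜) ^ (j + 1))⁻¹ * (n.choose (j - i) : 𝕜)) • (R ^ (M + i)) (y j n) := by
  obtain ⟨γ, ⟨C, hC⟩, hγ⟩ := exists_inv M
  set ρ : ℕ → ℕ → F := fun k n => ((n : 𝕜) ^ (M - 1 - k))⁻¹ • comp N R u k -
    ∑ l ∈ Finset.Ico k M, (((n : 𝕜) ^ (M - 1 - k))⁻¹ * (n.choose (l - k) : 𝕜)) • comp N R s l
    with hρ
  set y : ℕ → ℕ → F := fun j n => ∑ k ∈ range M, ((γ n j k : ℝ) : 𝕜) • ρ k n with hy
  have hρG : ∀ k < M, ∀ n, ρ k n ∈ G := by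
    intro k hk n
    refine G.sub_mem (G.smul_mem _ (hGu k hk)) (G.sum_mem fun l hl => G.smul_mem _ (hGs l ?_))
    exact (Finset.mem_Ico.1 hl).2
  have hρN : ∀ k n, N (ρ k n) = 0 := by
    intro k n
    rw [hρ]
    dsimp only
    rw [map_sub, map_smul, comp_ker hNR, smul_zero, map_sum, Finset.sum_eq_zero, sub_zero]
    intro l _
    rw [map_smul, comp_ker hNR, smul_zero]
  have hρB : ∀ k, Bv 𝕜 (ρ k) := by
    intro k
    have h1 : Bv 𝕜 (fun n : ℕ => ((n : 𝕜) ^ (M - 1 - k))⁻¹ • comp N R u k) := by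
      refine (Bv.const (𝕜 := 𝕜) (comp N R u k)).smul (D := 1) fun n => ?_
      have := choose_bound (𝕜 := 𝕜) (Nat.zero_le (M - 1 - k)) n
      rwa [Nat.choose_zero_right, Nat.cast_one, mul_one] at this
    have h2 : Bv 𝕜 (fun n : ℕ => ∑ l ∈ Finset.Ico k M,
        (((n : 𝕜) ^ (M - 1 - k))⁻¹ * (n.choose (l - k) : 𝕜)) • comp N R s l) := by
      refine Bv.sum _ fun l hl => (Bv.const (𝕜 := 𝕜) (comp N R s l)).smul (D := 1) fun n => ?_
      refine choose_bound ?_ n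
      have := Finset.mem_Ico.1 hl
      omega
    intro q
    obtain ⟨C1, hC1⟩ := h1 q
    obtain ⟨C2, hC2⟩ := h2 q
    exact ⟨C1 + C2, fun n => (map_sub_le_add q _ _).trans (add_le_add (hC1 n) (hC2 n))⟩
  refine ⟨y, fun j n => G.sum_mem fun k hk => G.smul_mem _ (hρG k (Finset.mem_range.1 hk) n),
    ?_, ?_, ?_⟩
  · intro j n
    rw [hy]
    dsimp only
    rw [map_sum]
    exact Finset.sum_eq_zero fun k _ => by rw [map_smul, hρN, smul_zero]
  · intro j
    refine Bv.sum _ fun k _ => (hρB k).smul (D := C) fun n => ?_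
    rw [RCLike.norm_ofReal]
    exact hC n j k
  have hyN : ∀ j n, N (y j n) = 0 := by
    intro j n
    rw [hy]
    dsimp only
    rw [map_sum]
    exact Finset.sum_eq_zero fun k _ => by rw [map_smul, hρN, smul_zero]
  filter_upwards [hγ, eventually_gt_atTop 0] with n hn hn0
  have hn𝕜 : (n : 𝕜) ≠ 0 := by exact_mod_cast hn0.ne'
  -- the key bracket identity
  have key : ∀ i < M, (∑ l ∈ Finset.Ico i M, (n.choose (l - i) : 𝕜) • comp N R s l) +
      ∑ j ∈ range M, (((n : 𝕜) ^ (j + 1))⁻¹ * (n.choose (M + j - i) : 𝕜)) • y j n =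
      comp N R u i := by
    intro i hi
    have e1 : ∑ j ∈ range M, (((n : 𝕜) ^ (j + 1))⁻¹ * (n.choose (M + j - i) : 𝕜)) • y j n =
        ∑ k ∈ range M, (∑ j ∈ range M,
          (((n : 𝕜) ^ (j + 1))⁻¹ * (n.choose (M + j - i) : 𝕜)) * ((γ n j k : ℝ) : 𝕜)) • ρ k n := by
      simp only [hy, Finset.smul_sum, smul_smul, Finset.sum_smul]
      rw [Finset.sum_comm]
    have e2 : ∀ k < M, ∑ j ∈ range M,
        (((n : 𝕜) ^ (j + 1))⁻¹ * (n.choose (M + j - i) : 𝕜)) * ((γ n j k : ℝ) : 𝕜) =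
        (n : 𝕜) ^ (M - 1 - i) * (if i = k then 1 else 0) := by
      intro k hk
      have h1 := hn i hi k hk
      have h2 := congrArg (fun x : ℝ => (x : 𝕜)) h1
      push_cast at h2
      have h3 : (((if i = k then (1:ℝ) else 0) : ℝ) : 𝕜) = if i = k then 1 else 0 := by
        split_ifs <;> simp
      rw [← h3, ← h2, Finset.mul_sum]
      refine Finset.sum_congr rfl fun j _ => ?_
      have h4 : (n : 𝕜) ^ (M + j - i) = (n : 𝕜) ^ (M - 1 - i) * (n : 𝕜) ^ (j + 1) := by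
        rw [← pow_add]; congr 1; omega
      rw [h4]
      have h5 : (n : 𝕜) ^ (M - 1 - i) ≠ 0 := pow_ne_zero _ hn𝕜
      have h6 : (n : 𝕜) ^ (j + 1) ≠ 0 := pow_ne_zero _ hn𝕜
      field_simp
    rw [e1]
    have e3 : ∑ k ∈ range M, (∑ j ∈ range M,
        (((n : 𝕜) ^ (j + 1))⁻¹ * (n.choose (M + j - i) : 𝕜)) * ((γ n j k : ℝ) : 𝕜)) • ρ k n =
        (n : 𝕜) ^ (M - 1 - i) • ρ i n := by
      rw [Finset.sum_eq_single i]
      · rw [e2 i hi, if_pos rfl, mul_one]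
      · intro k hk hki
        rw [e2 k (Finset.mem_range.1 hk), if_neg (Ne.symm hki), mul_zero, zero_smul]
      · intro h; exact absurd (Finset.mem_range.2 hi) h
    rw [e3, hρ]
    dsimp only
    have h5 : (n : 𝕜) ^ (M - 1 - i) ≠ 0 := pow_ne_zero _ hn𝕜
    rw [smul_sub, smul_smul, mul_inv_cancel₀ h5, one_smul, Finset.smul_sum]
    have e4 : ∀ l ∈ Finset.Ico i M, (n : 𝕜) ^ (M - 1 - i) •
        ((((n : 𝕜) ^ (M - 1 - i))⁻¹ * (n.choose (l - i) : 𝕜)) • comp N R s l) =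
        (n.choose (l - i) : 𝕜) • comp N R s l := by
      intro l _
      rw [smul_smul, mul_inv_cancel_left₀ h5]
    rw [Finset.sum_congr rfl e4]
    abel
  -- expand
  have hs1 : ((1 + N) ^ n) s = ∑ i ∈ range M, (R ^ i)
      (∑ l ∈ Finset.Ico i M, (n.choose (l - i) : 𝕜) • comp N R s l) := by
    conv_lhs => rw [← sum_comp (N := N) (R := R) hs]
    rw [map_sum]
    simp_rw [T_R hNR (comp_ker hNR s _), map_sum, map_smul]
    refine Finset.sum_comm' ?_
    intro x y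
    simp only [Finset.mem_range, Finset.mem_Ico]
    omega
  have hz1 : ∀ j, ((1 + N) ^ n) ((((n : 𝕜) ^ (j + 1))⁻¹) • (R ^ (M + j)) (y j n)) =
      (∑ i ∈ range M, (R ^ i) ((((n : 𝕜) ^ (j + 1))⁻¹ * (n.choose (M + j - i) : 𝕜)) • y j n)) +
      ∑ i ∈ range (j + 1), (((n : 𝕜) ^ (j + 1))⁻¹ * (n.choose (j - i) : 𝕜)) •
        (R ^ (M + i)) (y j n) := by
    intro j
    rw [map_smul, T_R hNR (hyN j n), show M + j + 1 = M + (j + 1) by ring,
      Finset.sum_range_add, smul_add, Finset.smul_sum, Finset.smul_sum]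
    congr 1
    · refine Finset.sum_congr rfl fun i _ => ?_
      rw [smul_smul, map_smul]
    · refine Finset.sum_congr rfl fun i _ => ?_
      rw [smul_smul, Nat.add_sub_add_left]
  rw [map_add, map_sum, hs1, Finset.sum_congr rfl fun j _ => hz1 j, Finset.sum_add_distrib,
    ← add_assoc]
  congr 1
  rw [Finset.sum_comm, ← Finset.sum_add_distrib]
  conv_rhs => rw [← sum_comp (N := N) (R := R) hu]
  refine Finset.sum_congr rfl fun i hi => ?_
  rw [← key i (Finset.mem_range.1 hi), map_add, ← map_sum]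

end Pool.Agent.V1199.Ds
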