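import Mathlib

open Filter Topology Finset

namespace Pool.Agent.V1199.Ds

/-- the limit matrix is invertible. -/
theorem det_ne (M : ℕ) :
    (Matrix.of fun i j : Fin M => (1 / ((M + j - i).factorial : ℝ))).det ≠ 0 := by
  have h1 : (Matrix.of fun i j : Fin M => (1 / ((M + j - i).factorial : ℝ))) =
      Matrix.transpose (Matrix.of fun j i : Fin M => (1 / ((M + j).factorial : ℝ)) *
        (Matrix.of fun j i : Fin M => (descPochhammer ℝ (i : ℕ)).eval ((M + j : ℕ) : ℝ)) j i) := by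
    ext i j
    simp only [Matrix.transpose_apply, Matrix.of_apply]
    rw [descPochhammer_eval_eq_descFactorial]
    have h2 : (i : ℕ) ≤ M + j := by have := i.2; omega
    have h3 := Nat.factorial_mul_descFactorial h2
    have h4 : ((M + (j : ℕ) - i).factorial : ℝ) * ((M + (j : ℕ)).descFactorial i : ℝ) =
        ((M + (j : ℕ)).factorial : ℝ) := by exact_mod_cast h3
    have h5 : ((M + (j : ℕ) - i).factorial : ℝ) ≠ 0 := by positivity
    have h6 : ((M + (j : ℕ)).factorial : ℝ) ≠ 0 := by positivity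
    rw [div_mul_eq_mul_div, one_mul, div_eq_div_iff h5 h6, one_mul, mul_comm, h4]
  rw [h1, Matrix.det_transpose, Matrix.det_mul_column,
    ← Matrix.det_eval_matrixOfPolynomials_eq_det_vandermonde (fun j : Fin M => ((M + j : ℕ) : ℝ))
      (fun i : Fin M => descPochhammer ℝ (i : ℕ)) (fun i => descPochhammer_natDegree ℝ i)
      (fun i => monic_descPochhammer ℝ i)]
  refine mul_ne_zero (Finset.prod_ne_zero_iff.2 fun i _ => by positivity) ?_
  rw [Matrix.det_vandermonde_ne_zero_iff]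
  intro a b hab
  have hab' : ((M + a : ℕ) : ℝ) = ((M + b : ℕ) : ℝ) := hab
  have : (M + a : ℕ) = (M + b : ℕ) := by exact_mod_cast hab'
  exact Fin.ext (by omega)

theorem choose_tendsto (k : ℕ) :
    Tendsto (fun n : ℕ => (n.choose k : ℝ) / (n : ℝ) ^ k) atTop (𝓝 (1 / (k.factorial : ℝ))) := by
  have h := isEquivalent_choose k
  have h1 : ∀ᶠ n : ℕ in atTop, (fun n : ℕ => (n : ℝ) ^ k / (k.factorial : ℝ)) n ≠ 0 := by
    filter_upwards [eventually_gt_atTop 0] with n hn
    positivity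
  have h2 := (Asymptotics.isEquivalent_iff_tendsto_one h1).1 h
  have h3 := h2.mul_const (1 / (k.factorial : ℝ))
  rw [one_mul] at h3
  refine h3.congr' ?_
  filter_upwards [eventually_gt_atTop 0] with n hn
  have : (n : ℝ) ^ k ≠ 0 := by positivity
  have : (k.factorial : ℝ) ≠ 0 := by positivity
  simp only [Pi.div_apply]
  field_simp

/-- approximate inverses with bounded entries. -/
theorem exists_inv (M : ℕ) : ∃ γ : ℕ → ℕ → ℕ → ℝ, (∃ C, ∀ n j i, |γ n j i| ≤ C) ∧
    ∀ᶠ n : ℕ in atTop, ∀ i < M, ∀ k < M,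
      ∑ j ∈ range M, ((n.choose (M + j - i) : ℝ) / (n : ℝ) ^ (M + j - i)) * γ n j k =
        if i = k then 1 else 0 := by
  set A : ℕ → Matrix (Fin M) (Fin M) ℝ := fun n => Matrix.of fun i j : Fin M =>
    ((n.choose (M + j - i) : ℝ) / (n : ℝ) ^ (M + (j : ℕ) - i)) with hA
  set L : Matrix (Fin M) (Fin M) ℝ :=
    Matrix.of fun i j : Fin M => (1 / ((M + j - i).factorial : ℝ)) with hL
  have hAL : Tendsto A atTop (𝓝 L) := by
    refine tendsto_pi_nhds.2 fun i => tendsto_pi_nhds.2 fun j => ?_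
    exact choose_tendsto _
  have hdet : Tendsto (fun n => (A n).det) atTop (𝓝 L.det) :=
    ((continuous_id.matrix_det).tendsto L).comp hAL
  have hne : ∀ᶠ n in atTop, (A n).det ≠ 0 := hdet.eventually_ne (det_ne M)
  have hadj : Tendsto (fun n => (A n).adjugate) atTop (𝓝 L.adjugate) :=
    ((continuous_id.matrix_adjugate).tendsto L).comp hAL
  have hinv : ∀ i j : Fin M, Tendsto (fun n => (A n)⁻¹ i j) atTop (𝓝 (L⁻¹ i j)) := by
    intro i j
    have h1 : Tendsto (fun n => ((A n).det)⁻¹ * (A n).adjugate i j) atTop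
        (𝓝 ((L.det)⁻¹ * L.adjugate i j)) :=
      (hdet.inv₀ (det_ne M)).mul (tendsto_pi_nhds.1 (tendsto_pi_nhds.1 hadj i) j)
    have e : ∀ B : Matrix (Fin M) (Fin M) ℝ, B⁻¹ i j = (B.det)⁻¹ * B.adjugate i j := by
      intro B
      rw [Matrix.inv_def, Matrix.smul_apply, smul_eq_mul, Ring.inverse_eq_inv']
    simpa only [e] using h1
  have hbd : ∀ i j : Fin M, ∃ C, ∀ n, |(A n)⁻¹ i j| ≤ C := by
    intro i j
    obtain ⟨C, hC⟩ := ((hinv i j).abs).bddAbove_range
    exact ⟨C, fun n => hC ⟨n, rfl⟩⟩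
  choose C hC using hbd
  refine ⟨fun n j i => if h : j < M ∧ i < M then (A n)⁻¹ ⟨j, h.1⟩ ⟨i, h.2⟩ else 0,
    ⟨∑ i, ∑ j, |C i j|, ?_⟩, ?_⟩
  · intro n j i
    dsimp only
    split_ifs with h
    · refine (hC ⟨j, h.1⟩ ⟨i, h.2⟩ n).trans ((le_abs_self _).trans ?_)
      refine le_trans ?_ (Finset.single_le_sum (f := fun i => ∑ j, |C i j|)
        (fun i _ => Finset.sum_nonneg fun j _ => abs_nonneg _) (Finset.mem_univ ⟨j, h.1⟩))
      exact Finset.single_le_sum (f := fun j' => |C ⟨j, h.1⟩ j'|) (fun _ _ => abs_nonneg _)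
        (Finset.mem_univ (⟨i, h.2⟩ : Fin M))
    · rw [abs_zero]
      positivity
  · filter_upwards [hne] with n hn i hi k hk
    have h1 : A n * (A n)⁻¹ = 1 := Matrix.mul_nonsing_inv _ (isUnit_iff_ne_zero.2 hn)
    have h2 := congrFun (congrFun h1 ⟨i, hi⟩) ⟨k, hk⟩
    rw [Matrix.mul_apply, Matrix.one_apply] at h2
    rw [Finset.sum_range]
    simp only [Fin.is_lt, hk, and_self, dite_true, Fin.eta]
    rw [hA] at h2
    simp only [Matrix.of_apply] at h2
    rw [h2]
    simp only [Fin.mk.injEq]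

end Pool.Agent.V1199.Ds
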