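import Pool.Agent.V1199.DsStep

open Filter Topology Finset

namespace Pool.Agent.V1199.Ds

variable {𝕜 : Type} [RCLike 𝕜]

/-- going up one level. -/
def up : ℕ → ℕ → Option ℕ
  | 0, k => if (Nat.unpair k).2 = 0 then some (Nat.unpair k).1 else none
  | _ + 1, k => if k % 2 = 1 then some (k / 2) else none

/-- staying at the same level. -/
def sm : ℕ → ℕ → Option ℕ
  | 0, k => if (Nat.unpair k).2 = 0 then none else
      some (Nat.pair (Nat.unpair k).1 ((Nat.unpair k).2 - 1))
  | _ + 1, _ => none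

/-- predecessor. -/
def pre : ℕ × ℕ → ℕ × ℕ
  | (0, k) => (0, Nat.pair (Nat.unpair k).1 ((Nat.unpair k).2 + 1))
  | (1, a) => (0, Nat.pair a 0)
  | (j + 2, k) => (j + 1, 2 * k + 1)

variable (𝕜) in
/-- image of a basis vector without weights. -/
noncomputable def nx (α : ℕ × ℕ) : ℕ × ℕ →₀ 𝕜 :=
  (match up α.1 α.2 with
    | some k' => Finsupp.single (α.1 + 1, k') 1
    | none => 0) +
  (match sm α.1 α.2 with
    | some k' => Finsupp.single (α.1, k') 1
    | none => 0)

theorem nx_pre (β : ℕ × ℕ) : nx 𝕜 (pre β) = Finsupp.single β 1 := by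
  rcases β with ⟨j, k⟩
  match j with
  | 0 =>
    simp only [pre, nx, up, sm, Nat.unpair_pair]
    simp
  | 1 =>
    simp only [pre, nx, up, sm, Nat.unpair_pair]
    simp
  | j + 2 =>
    simp only [pre, nx, up, sm]
    have h1 : (2 * k + 1) % 2 = 1 := by omega
    have h2 : (2 * k + 1) / 2 = k := by omega
    simp [h1, h2]

variable (w : ℕ × ℕ → 𝕜)

/-- the weighted shift. -/
noncomputable def NF : Module.End 𝕜 (ℕ × ℕ →₀ 𝕜) :=
  Finsupp.linearCombination 𝕜 (fun α => w α • nx 𝕜 α)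

/-- the right inverse. -/
noncomputable def RF : Module.End 𝕜 (ℕ × ℕ →₀ 𝕜) :=
  Finsupp.linearCombination 𝕜 (fun β => (w (pre β))⁻¹ • Finsupp.single (pre β) (1 : 𝕜))

theorem NF_single (α : ℕ × ℕ) (c : 𝕜) : NF w (Finsupp.single α c) = c • w α • nx 𝕜 α := by
  unfold NF
  rw [Finsupp.linearCombination_single]

theorem RF_single (β : ℕ × ℕ) (c : 𝕜) :
    RF w (Finsupp.single β c) = c • (w (pre β))⁻¹ • Finsupp.single (pre β) (1 : 𝕜) := by
  unfold RF
  rw [Finsupp.linearCombination_single]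

theorem NF_RF (hw : ∀ α, w α ≠ 0) (v : ℕ × ℕ →₀ 𝕜) : NF w (RF w v) = v := by
  have h : (NF w).comp (RF w) = LinearMap.id := by
    refine Finsupp.lhom_ext fun β c => ?_
    rw [LinearMap.comp_apply, RF_single, map_smul, map_smul, NF_single, one_smul, nx_pre,
      smul_smul, smul_smul, inv_mul_cancel_right₀ (hw _), LinearMap.id_apply, Finsupp.smul_single,
      smul_eq_mul, mul_one]
  exact LinearMap.congr_fun h v

/-- elements killed by a power. -/
def nilSub (N : Module.End 𝕜 (ℕ × ℕ →₀ 𝕜)) : Submodule 𝕜 (ℕ × ℕ →₀ 𝕜) where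
  carrier := {v | ∃ M : ℕ, (N ^ M) v = 0}
  add_mem' := by
    rintro a b ⟨M1, h1⟩ ⟨M2, h2⟩
    refine ⟨M1 + M2, ?_⟩
    rw [map_add, show (N ^ (M1 + M2)) a = (N ^ M2) ((N ^ M1) a) by
      rw [add_comm, pow_add, Module.End.mul_apply], h1, map_zero, pow_add,
      Module.End.mul_apply, h2, map_zero, add_zero]
  zero_mem' := ⟨0, map_zero _⟩
  smul_mem' := by
    rintro c a ⟨M, h⟩
    exact ⟨M, by rw [map_smul, h, smul_zero]⟩

theorem nil_up (k : ℕ) : ∀ j, Finsupp.single (j + 1, k) (1 : 𝕜) ∈ nilSub (NF w) := by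
  induction k using Nat.strong_induction_on with
  | _ k ih =>
    intro j
    by_cases hk : k % 2 = 1
    · obtain ⟨M, hM⟩ := ih (k / 2) (by omega) (j + 1)
      refine ⟨M + 1, ?_⟩
      rw [pow_succ, Module.End.mul_apply, NF_single]
      have : nx 𝕜 (j + 1, k) = Finsupp.single (j + 1 + 1, k / 2) (1 : 𝕜) := by
        simp [nx, up, sm, hk]
      rw [this, map_smul, map_smul, hM, smul_zero, smul_zero]
    · refine ⟨1, ?_⟩
      rw [pow_one, NF_single]
      have : nx 𝕜 (j + 1, k) = 0 := by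
        simp [nx, up, sm, hk]
      rw [this, smul_zero, smul_zero]

theorem nil_zero (a b : ℕ) : Finsupp.single (0, Nat.pair a b) (1 : 𝕜) ∈ nilSub (NF w) := by
  induction b with
  | zero =>
    obtain ⟨M, hM⟩ := nil_up w a 0
    refine ⟨M + 1, ?_⟩
    rw [pow_succ, Module.End.mul_apply, NF_single]
    have : nx 𝕜 (0, Nat.pair a 0) = Finsupp.single (0 + 1, a) (1 : 𝕜) := by
      simp [nx, up, sm, Nat.unpair_pair]
    rw [this, map_smul, map_smul, hM, smul_zero, smul_zero]
  | succ b ih =>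
    obtain ⟨M, hM⟩ := ih
    refine ⟨M + 1, ?_⟩
    rw [pow_succ, Module.End.mul_apply, NF_single]
    have : nx 𝕜 (0, Nat.pair a (b + 1)) = Finsupp.single (0, Nat.pair a b) (1 : 𝕜) := by
      simp [nx, up, sm, Nat.unpair_pair]
    rw [this, map_smul, map_smul, hM, smul_zero, smul_zero]

theorem nil_all (v : ℕ × ℕ →₀ 𝕜) : ∃ M : ℕ, ((NF w) ^ M) v = 0 := by
  have h : ∀ v, v ∈ nilSub (NF w) := by
    intro v
    induction v using Finsupp.induction_linear with
    | zero => exact Submodule.zero_mem _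
    | add f g hf hg => exact Submodule.add_mem _ hf hg
    | single α c =>
      have h1 : Finsupp.single α (1 : 𝕜) ∈ nilSub (NF w) := by
        rcases α with ⟨j, k⟩
        cases j with
        | zero =>
          have := nil_zero w (Nat.unpair k).1 (Nat.unpair k).2
          rwa [Nat.pair_unpair] at this
        | succ j => exact nil_up w k j
      have := Submodule.smul_mem _ c h1
      rwa [Finsupp.smul_single, smul_eq_mul, mul_one] at this
  exact h v

/-- level zero. -/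
noncomputable def F0 (𝕜 : Type) [RCLike 𝕜] : Submodule 𝕜 (ℕ × ℕ →₀ 𝕜) :=
  Finsupp.supported 𝕜 𝕜 {α : ℕ × ℕ | α.1 = 0}

theorem pre_fst (β : ℕ × ℕ) : (pre β).1 = β.1 - 1 := by
  rcases β with ⟨j, k⟩
  match j with
  | 0 => rfl
  | 1 => rfl
  | j + 2 => rfl

theorem RF_pow_single (m : ℕ) : ∀ β : ℕ × ℕ, ∃ (c : 𝕜) (β' : ℕ × ℕ),
    ((RF w) ^ m) (Finsupp.single β 1) = c • Finsupp.single β' 1 ∧ β'.1 = β.1 - m := by
  induction m with
  | zero => exact fun β => ⟨1, β, by rw [pow_zero, one_smul]; rfl, rfl⟩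
  | succ m ih =>
    intro β
    obtain ⟨c, β', h1, h2⟩ := ih (pre β)
    refine ⟨(w (pre β))⁻¹ * c, β', ?_, ?_⟩
    · rw [pow_succ, Module.End.mul_apply, RF_single, one_smul, map_smul, h1, smul_smul]
    · rw [h2, pre_fst]; omega

theorem lev_all (v : ℕ × ℕ →₀ 𝕜) : ∃ m0 : ℕ, ∀ m, m0 ≤ m → ((RF w) ^ m) v ∈ F0 𝕜 := by
  induction v using Finsupp.induction_linear with
  | zero => exact ⟨0, fun m _ => by rw [map_zero]; exact Submodule.zero_mem _⟩
  | add f g hf hg =>
    obtain ⟨m1, h1⟩ := hf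
    obtain ⟨m2, h2⟩ := hg
    refine ⟨m1 + m2, fun m hm => ?_⟩
    rw [map_add]
    exact Submodule.add_mem _ (h1 m (by omega)) (h2 m (by omega))
  | single α c =>
    refine ⟨α.1, fun m hm => ?_⟩
    obtain ⟨c', β', h1, h2⟩ := RF_pow_single w m α
    have h3 : Finsupp.single α c = c • Finsupp.single α (1 : 𝕜) := by
      rw [Finsupp.smul_single, smul_eq_mul, mul_one]
    rw [h3, map_smul, h1]
    refine Submodule.smul_mem _ _ (Submodule.smul_mem _ _ ?_)
    unfold F0
    rw [Finsupp.mem_supported]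
    intro x hx
    have hx' := Finsupp.support_single_subset hx
    rw [Finset.mem_singleton] at hx'
    rw [hx']
    change β'.1 = 0
    omega

end Pool.Agent.V1199.Ds
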