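import Pool.Agent.V1199.DsAlg

open Filter Topology Finset

namespace Pool.Agent.V1199.Ds

variable {𝕜 : Type*} [RCLike 𝕜] {F : Type*} [AddCommGroup F] [Module 𝕜 F]
  {N R : Module.End 𝕜 F}

theorem coef_zero (j p : ℕ) (hp : p ≤ j) :
    Tendsto (fun n : ℕ => ((n : 𝕜) ^ (j + 1))⁻¹ * (n.choose p : 𝕜)) atTop (𝓝 0) := by
  have h0 : Tendsto (fun n : ℕ => ((n : ℝ))⁻¹) atTop (𝓝 0) := tendsto_inv_atTop_nhds_zero_nat
  refine squeeze_zero_norm (fun n => ?_) h0
  rw [pow_succ, mul_inv, mul_comm (((n : 𝕜) ^ j)⁻¹) _, mul_assoc, norm_mul]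
  refine (mul_le_mul_of_nonneg_left (choose_bound hp n) (norm_nonneg _)).trans ?_
  rw [mul_one, norm_inv, RCLike.norm_natCast]

/-- elements whose far preimages are at level zero. -/
def lev (R : Module.End 𝕜 F) (F0 : Submodule 𝕜 F) (m0 : ℕ) : Submodule 𝕜 F where
  carrier := {w | ∀ m, m0 ≤ m → (R ^ m) w ∈ F0}
  add_mem' := by
    intro a b ha hb m hm
    rw [map_add]
    exact F0.add_mem (ha m hm) (hb m hm)
  zero_mem' := by
    intro m _
    rw [map_zero]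
    exact F0.zero_mem
  smul_mem' := by
    intro c a ha m hm
    rw [map_smul]
    exact F0.smul_mem _ (ha m hm)

theorem comp_eq_zero {s : F} {M : ℕ} (hs : (N ^ M) s = 0) {i : ℕ} (hi : M ≤ i) :
    comp N R s i = 0 := by
  have h : ∀ j, M ≤ j → (N ^ j) s = 0 := by
    intro j hj
    obtain ⟨k, rfl⟩ := Nat.exists_eq_add_of_le hj
    rw [add_comm, pow_add, Module.End.mul_apply, hs, map_zero]
  unfold comp
  rw [h i hi, h (i + 1) (by omega), map_zero, sub_zero]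

theorem step (hNR : ∀ v, N (R v) = v) (F0 : Submodule 𝕜 F) (hnil : ∀ v, ∃ M : ℕ, (N ^ M) v = 0)
    (hlev : ∀ v, ∃ m0 : ℕ, ∀ m, m0 ≤ m → (R ^ m) v ∈ F0) (s u : F) (p : ℕ) :
    ∃ z r : ℕ → F, Zv 𝕜 z ∧ Zv 𝕜 r ∧ (∀ m ≤ p, ∀ n, ((1 + N) ^ m) (z n) ∈ F0) ∧
      (∀ n, r n ∈ F0) ∧ ∀ᶠ n in atTop, ((1 + N) ^ n) (s + z n) = u + r n := by
  obtain ⟨Ms, hMs⟩ := hnil s
  obtain ⟨Mu, hMu⟩ := hnil u
  choose μ hμ using hlev
  set m0 : ℕ := (∑ i ∈ range Ms, μ (comp N R s i)) + ∑ i ∈ range Mu, μ (comp N R u i) with hm0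
  set M : ℕ := Ms + Mu + m0 + p with hM
  have hsM : (N ^ M) s = 0 := by
    rw [show M = (Mu + m0 + p) + Ms by omega, pow_add, Module.End.mul_apply, hMs, map_zero]
  have huM : (N ^ M) u = 0 := by
    rw [show M = (Ms + m0 + p) + Mu by omega, pow_add, Module.End.mul_apply, hMu, map_zero]
  have hGs : ∀ i < M, comp N R s i ∈ lev R F0 m0 := by
    intro i _
    by_cases hi : i < Ms
    · intro m hm
      refine hμ _ m (le_trans ?_ hm)
      rw [hm0]
      exact le_trans (Finset.single_le_sum (f := fun i => μ (comp N R s i))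
        (fun _ _ => Nat.zero_le _) (Finset.mem_range.2 hi)) (Nat.le_add_right _ _)
    · rw [comp_eq_zero hMs (not_lt.1 hi)]
      exact Submodule.zero_mem _
  have hGu : ∀ i < M, comp N R u i ∈ lev R F0 m0 := by
    intro i _
    by_cases hi : i < Mu
    · intro m hm
      refine hμ _ m (le_trans ?_ hm)
      rw [hm0]
      exact le_trans (Finset.single_le_sum (f := fun i => μ (comp N R u i))
        (fun _ _ => Nat.zero_le _) (Finset.mem_range.2 hi)) (Nat.le_add_left _ _)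
    · rw [comp_eq_zero hMu (not_lt.1 hi)]
      exact Submodule.zero_mem _
  obtain ⟨y, hyG, hyN, hyB, hyE⟩ := solve hNR M hsM huM (lev R F0 m0) hGs hGu
  refine ⟨fun n => ∑ j ∈ range M, (((n : 𝕜) ^ (j + 1))⁻¹) • (R ^ (M + j)) (y j n),
    fun n => ∑ j ∈ range M, ∑ i ∈ range (j + 1),
      (((n : 𝕜) ^ (j + 1))⁻¹ * (n.choose (j - i) : 𝕜)) • (R ^ (M + i)) (y j n), ?_, ?_, ?_, ?_, hyE⟩
  · refine Zv.sum _ fun j _ => ((hyB j).map (R ^ (M + j))).smul_zero ?_
    have := coef_zero (𝕜 := 𝕜) j 0 (Nat.zero_le _)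
    simpa using this
  · refine Zv.sum _ fun j _ => Zv.sum _ fun i _ => ((hyB j).map (R ^ (M + i))).smul_zero ?_
    exact coef_zero j (j - i) (Nat.sub_le _ _)
  · intro m hm n
    rw [map_sum]
    refine F0.sum_mem fun j _ => ?_
    rw [map_smul, T_R hNR (hyN j n)]
    refine F0.smul_mem _ (F0.sum_mem fun i hi => ?_)
    by_cases hmi : M + j - i ≤ m
    · refine F0.smul_mem _ (hyG j n i ?_)
      omega
    · rw [Nat.choose_eq_zero_of_lt (by omega), Nat.cast_zero, zero_smul]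
      exact F0.zero_mem
  · intro n
    refine F0.sum_mem fun j _ => F0.sum_mem fun i _ => F0.smul_mem _ (hyG j n _ ?_)
    omega

end Pool.Agent.V1199.Ds
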