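import Mathlib

open Set Filter Topology

namespace Pool.Agent.V1199.Fr

/-- A power series with bounded coefficients which is frequently small to infinite order along a
null sequence vanishes. -/
theorem ps_zero (a : ℕ → ℝ) (C : ℝ) (ha : ∀ m, |a m| ≤ C) (t : ℕ → ℝ) (ht0 : ∀ i, 0 < t i)
    (hlim : Tendsto t atTop (𝓝 0))
    (h : ∀ N : ℕ, ∃ K : ℝ, ∃ᶠ i in atTop, |∑' m, a m * t i ^ m| ≤ K * t i ^ N) :
    ∀ m, a m = 0 := by
  intro m
  induction m using Nat.strong_induction_on with
  | _ m ih =>
    by_contra hm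
    have hC : 0 ≤ C := (abs_nonneg _).trans (ha 0)
    obtain ⟨K, hK⟩ := h (m + 1)
    have hK' : 0 ≤ |K| := abs_nonneg K
    have hev : ∀ᶠ i in atTop, t i < 1 / 2 ∧ (|K| + 2 * C) * t i < |a m| := by
      have h1 : ∀ᶠ i in atTop, t i < 1 / 2 := hlim.eventually_lt_const (by norm_num)
      have h2 : Tendsto (fun i => (|K| + 2 * C) * t i) atTop (𝓝 ((|K| + 2 * C) * 0)) :=
        hlim.const_mul _
      rw [mul_zero] at h2
      exact h1.and (h2.eventually_lt_const (abs_pos.mpr hm))
    obtain ⟨i, hi1, hi2, hi3⟩ := (hK.and_eventually hev).exists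
    set s := t i with hs
    have hs0 : 0 < s := ht0 i
    have hs1 : s < 1 := by linarith
    have hsum : Summable (fun k => a k * s ^ k) := by
      refine Summable.of_norm_bounded ((summable_geometric_of_lt_one hs0.le hs1).mul_left C) ?_
      intro k
      rw [Real.norm_eq_abs, abs_mul, abs_of_pos (pow_pos hs0 k)]
      exact mul_le_mul_of_nonneg_right (ha k) (pow_pos hs0 k).le
    have hsplit := hsum.sum_add_tsum_nat_add (m + 1)
    rw [Finset.sum_range_succ, Finset.sum_eq_zero (fun k hk => by
      rw [ih k (Finset.mem_range.mp hk), zero_mul]), zero_add] at hsplit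
    have htail : |∑' k, a (k + (m + 1)) * s ^ (k + (m + 1))| ≤ 2 * C * s ^ (m + 1) := by
      have hg := (hasSum_geometric_of_lt_one hs0.le hs1).mul_left (C * s ^ (m + 1))
      have h1 : ‖∑' k, a (k + (m + 1)) * s ^ (k + (m + 1))‖ ≤ C * s ^ (m + 1) * (1 - s)⁻¹ := by
        refine tsum_of_norm_bounded hg ?_
        intro k
        rw [Real.norm_eq_abs, abs_mul, abs_of_pos (pow_pos hs0 _), pow_add]
        calc |a (k + (m + 1))| * (s ^ k * s ^ (m + 1)) ≤ C * (s ^ k * s ^ (m + 1)) :=
              mul_le_mul_of_nonneg_right (ha _) (by positivity)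
          _ = C * s ^ (m + 1) * s ^ k := by ring
      rw [Real.norm_eq_abs] at h1
      have h2 : (1 - s)⁻¹ ≤ 2 := by
        rw [inv_le_comm₀ (by linarith) (by norm_num)]
        linarith
      calc _ ≤ C * s ^ (m + 1) * (1 - s)⁻¹ := h1
        _ ≤ C * s ^ (m + 1) * 2 := mul_le_mul_of_nonneg_left h2 (by positivity)
        _ = 2 * C * s ^ (m + 1) := by ring
    have h3 : |a m * s ^ m| ≤ |K| * s ^ (m + 1) + 2 * C * s ^ (m + 1) := by
      have h4 : a m * s ^ m = (∑' k, a k * s ^ k) - ∑' k, a (k + (m + 1)) * s ^ (k + (m + 1)) := by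
        rw [← hsplit]; ring
      rw [h4]
      refine (abs_sub _ _).trans (add_le_add (hi1.trans ?_) htail)
      exact mul_le_mul_of_nonneg_right (le_abs_self K) (by positivity)
    rw [abs_mul, abs_of_pos (pow_pos hs0 m)] at h3
    have h5 : |K| * s ^ (m + 1) + 2 * C * s ^ (m + 1) = ((|K| + 2 * C) * s) * s ^ m := by ring
    rw [h5] at h3
    have h6 := le_of_mul_le_mul_right h3 (pow_pos hs0 m)
    linarith

/-- The underlying separable space. -/
abbrev E1 : Type := lp (fun _ : ℕ => ℝ) 1

/-- Unit vectors. -/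
noncomputable def e (n : ℕ) : E1 := lp.single 1 n (1 : ℝ)

noncomputable def w (n : ℕ) : ℝ := (1 / 2) ^ (n ^ 2)

theorem w_pos (n : ℕ) : 0 < w n := by unfold w; positivity

theorem w_zero : w 0 = 1 := by simp [w]

theorem w_le (n : ℕ) : w n ≤ (1 / 2) ^ n := by
  unfold w
  exact pow_le_pow_of_le_one (by norm_num) (by norm_num) (Nat.le_self_pow (by norm_num) n)

theorem w_le_one (n : ℕ) : w n ≤ 1 := pow_le_one₀ (by norm_num) (by norm_num)

theorem norm_e (n : ℕ) : ‖e n‖ = 1 := by
  unfold e
  rw [lp.norm_single (by norm_num)]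
  simp

/-- Coordinate functionals. -/
noncomputable def co (n : ℕ) : E1 →L[ℝ] ℝ :=
  LinearMap.mkContinuous
    { toFun := fun f => f n
      map_add' := fun f g => by simp
      map_smul' := fun c f => by simp } 1 (fun f => by
        rw [one_mul]
        exact lp.norm_apply_le_norm (by norm_num) f n)

theorem co_apply (n : ℕ) (f : E1) : co n f = f n := rfl

theorem abs_co_le (n : ℕ) (f : E1) : |co n f| ≤ ‖f‖ := by
  rw [co_apply, ← Real.norm_eq_abs]
  exact lp.norm_apply_le_norm (by norm_num) f n

theorem co_e (n m : ℕ) : co n (e m) = if n = m then 1 else 0 := by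
  rw [co_apply, e, lp.single_apply]
  split_ifs with h <;> simp_all

theorem hasSum_e (f : E1) : HasSum (fun n => co n f • e n) f := by
  have h := lp.hasSum_single (E := fun _ : ℕ => ℝ) (p := 1) (by norm_num) f
  have h2 : (fun n => co n f • e n) = fun i => lp.single 1 i (f i) := by
    funext n
    rw [e, ← lp.single_smul, co_apply, smul_eq_mul, mul_one]
  rw [h2]
  exact h

/-- The moment vectors. -/
noncomputable def x (t : ℝ) : E1 := ∑' n, (w n * t ^ n) • e n

theorem norm_term_le {t : ℝ} (ht0 : 0 ≤ t) (ht1 : t ≤ 1) (n : ℕ) :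
    ‖(w n * t ^ n) • e n‖ ≤ (1 / 2 : ℝ) ^ n := by
  rw [norm_smul, norm_e, mul_one, Real.norm_eq_abs,
    abs_of_nonneg (mul_nonneg (w_pos n).le (pow_nonneg ht0 n))]
  calc w n * t ^ n ≤ w n * 1 := mul_le_mul_of_nonneg_left (pow_le_one₀ ht0 ht1) (w_pos n).le
    _ ≤ (1 / 2) ^ n := by rw [mul_one]; exact w_le n

theorem hasSum_x {t : ℝ} (ht0 : 0 ≤ t) (ht1 : t ≤ 1) :
    HasSum (fun n => (w n * t ^ n) • e n) (x t) := by
  refine Summable.hasSum (Summable.of_norm_bounded
    (summable_geometric_of_lt_one (r := (1 / 2 : ℝ)) (by norm_num) (by norm_num)) ?_)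
  exact norm_term_le ht0 ht1

theorem norm_x_le {t : ℝ} (ht0 : 0 ≤ t) (ht1 : t ≤ 1) : ‖x t‖ ≤ 2 := by
  have h := tsum_of_norm_bounded (hasSum_geometric_of_lt_one (r := (1 / 2 : ℝ))
    (by norm_num) (by norm_num)) (norm_term_le ht0 ht1)
  refine h.trans (by norm_num)

theorem map_x {F : Type*} [NormedAddCommGroup F] [NormedSpace ℝ F] (f : E1 →L[ℝ] F) {t : ℝ}
    (ht0 : 0 ≤ t) (ht1 : t ≤ 1) : HasSum (fun n => (w n * t ^ n) • f (e n)) (f (x t)) := by
  have h := f.hasSum (hasSum_x ht0 ht1)
  simpa only [map_smul] using h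

theorem co_x (m : ℕ) {t : ℝ} (ht0 : 0 ≤ t) (ht1 : t ≤ 1) : co m (x t) = w m * t ^ m := by
  have h := map_x (co m) ht0 ht1
  have h2 : HasSum (fun n => (w n * t ^ n) • co m (e n)) ((w m * t ^ m) • co m (e m)) := by
    apply hasSum_single
    intro n hn
    rw [co_e, if_neg (Ne.symm hn), smul_zero]
  rw [h.unique h2, co_e, if_pos rfl, smul_eq_mul, mul_one]

theorem clm_ext {F : Type*} [NormedAddCommGroup F] [NormedSpace ℝ F] (f g : E1 →L[ℝ] F)
    (h : ∀ n, f (e n) = g (e n)) : f = g := by
  ext v
  have h1 := f.hasSum (hasSum_e v)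
  have h2 := g.hasSum (hasSum_e v)
  simp only [map_smul, h] at h1 h2
  exact h1.unique h2

/-- Tails of a null row have dense span. -/
theorem tail_dense (t : ℕ → ℝ) (ht0 : ∀ i, 0 < t i) (ht1 : ∀ i, t i ≤ 1)
    (hlim : Tendsto t atTop (𝓝 0)) (F : Finset ℕ) (z : E1) (ε : ℝ) (hε : 0 < ε) :
    ∃ (h : Finset ℕ) (c : ℕ → ℝ), Disjoint h F ∧ ‖∑ i ∈ h, c i • x (t i) - z‖ < ε := by
  set W : Submodule ℝ E1 := Submodule.span ℝ ((fun i => x (t i)) '' {i | i ∉ F}) with hW
  have hz : z ∈ closure (W : Set E1) := by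
    by_contra hz
    have hconv : Convex ℝ (closure (W : Set E1)) := W.convex.closure
    obtain ⟨f, u, hfu, huz⟩ := geometric_hahn_banach_closed_point hconv isClosed_closure hz
    have hu : 0 < u := by
      have := hfu 0 (subset_closure W.zero_mem)
      rwa [map_zero] at this
    have hf0 : ∀ a ∈ W, f a = 0 := by
      intro a ha
      by_contra hne
      have := hfu (((u + 1) / f a) • a) (subset_closure (W.smul_mem _ ha))
      rw [map_smul, smul_eq_mul, div_mul_cancel₀ _ hne] at this
      linarith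
    have hx0 : ∀ i, i ∉ F → f (x (t i)) = 0 := fun i hi =>
      hf0 _ (Submodule.subset_span ⟨i, hi, rfl⟩)
    have hall : ∀ n, w n * f (e n) = 0 := by
      refine ps_zero (fun n => w n * f (e n)) ‖f‖ ?_ t ht0 hlim ?_
      · intro m
        rw [abs_mul, abs_of_pos (w_pos m)]
        have h1 : |f (e m)| ≤ ‖f‖ := by
          have := f.le_opNorm (e m)
          rwa [norm_e, mul_one] at this
        calc w m * |f (e m)| ≤ 1 * ‖f‖ :=
              mul_le_mul (w_le_one m) h1 (abs_nonneg _) zero_le_one
          _ = ‖f‖ := one_mul _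
      · intro N
        refine ⟨0, Eventually.frequently ?_⟩
        have hev : ∀ᶠ i in atTop, i ∉ F := by
          have := F.finite_toSet.eventually_cofinite_notMem
          rw [Nat.cofinite_eq_atTop] at this
          exact this
        filter_upwards [hev] with i hi
        have h2 := (map_x f (ht0 i).le (ht1 i)).tsum_eq
        have h3 : ∑' m, w m * f (e m) * t i ^ m = f (x (t i)) := by
          rw [← h2]
          congr 1
          funext m
          rw [smul_eq_mul]; ring
        rw [h3, hx0 i hi, abs_zero, zero_mul]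
    have hf : f = 0 := clm_ext f 0 (fun n => by
      rcases mul_eq_zero.mp (hall n) with h | h
      · exact absurd h (w_pos n).ne'
      · rw [h]; rfl)
    rw [hf] at huz
    simp at huz
    linarith
  rw [Metric.mem_closure_iff] at hz
  obtain ⟨v, hv, hvz⟩ := hz ε hε
  rw [SetLike.mem_coe, hW, Finsupp.mem_span_image_iff_linearCombination] at hv
  obtain ⟨l, hl, hlv⟩ := hv
  refine ⟨l.support, l, ?_, ?_⟩
  · rw [Finset.disjoint_left]
    intro i hi
    exact (Finsupp.mem_supported ℝ l).mp hl hi
  · rw [Finsupp.linearCombination_apply, Finsupp.sum] at hlv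
    rw [hlv, ← dist_eq_norm, dist_comm]
    exact hvz

/-- Discrete measures on `(0, 1]` are determined by their moments. -/
theorem moments {J : Type*} (t : J → ℝ) (ht0 : ∀ j, 0 ≤ t j) (ht1 : ∀ j, t j ≤ 1)
    (hinj : Function.Injective t) (b : J → ℝ) (hb : Summable fun j => |b j|)
    (h : ∀ n : ℕ, ∑' j, b j * t j ^ n = 0) : ∀ j, b j = 0 := by
  have hbs : Summable b := hb.of_abs
  have hpow : ∀ n : ℕ, Summable fun j => b j * t j ^ n := fun n => by
    refine Summable.of_norm_bounded hb ?_
    intro j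
    rw [Real.norm_eq_abs, abs_mul, abs_of_nonneg (pow_nonneg (ht0 j) n)]
    exact mul_le_of_le_one_right (abs_nonneg _) (pow_le_one₀ (ht0 j) (ht1 j))
  have hpoly : ∀ p : Polynomial ℝ, HasSum (fun j => b j * p.eval (t j)) 0 := by
    intro p
    induction p using Polynomial.induction_on' with
    | add p q hp hq =>
      have := hp.add hq
      simpa [mul_add] using this
    | monomial n a =>
      have := ((hpow n).hasSum.mul_left a)
      rw [h n, mul_zero] at this
      simp only [Polynomial.eval_monomial]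
      have h2 : (fun j => b j * (a * t j ^ n)) = fun j => a * (b j * t j ^ n) := by
        funext j; ring
      rw [h2]
      exact this
  have hbdd : ∀ f : ℝ → ℝ, Continuous f → (∀ s, |f s| ≤ 1) → ∑' j, b j * f (t j) = 0 := by
    intro f hf hf1
    have hfs : Summable fun j => b j * f (t j) := by
      refine Summable.of_norm_bounded hb ?_
      intro j
      rw [Real.norm_eq_abs, abs_mul]
      exact mul_le_of_le_one_right (abs_nonneg _) (hf1 _)
    by_contra hne
    set B := ∑' j, |b j| with hB
    have hB0 : 0 ≤ B := tsum_nonneg fun j => abs_nonneg _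
    set ε := |∑' j, b j * f (t j)| / (2 * (B + 1)) with hε
    have hε0 : 0 < ε := div_pos (abs_pos.mpr hne) (by positivity)
    obtain ⟨p, hp⟩ := exists_polynomial_near_of_continuousOn 0 1 f hf.continuousOn ε hε0
    have h1 : HasSum (fun j => b j * f (t j) - b j * p.eval (t j))
        ((∑' j, b j * f (t j)) - 0) := hfs.hasSum.sub (hpoly p)
    have h2 : ‖∑' j, (b j * f (t j) - b j * p.eval (t j))‖ ≤ B * ε := by
      refine tsum_of_norm_bounded (hb.hasSum.mul_right ε) ?_
      intro j
      rw [← mul_sub, Real.norm_eq_abs, abs_mul]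
      refine mul_le_mul_of_nonneg_left ?_ (abs_nonneg _)
      rw [abs_sub_comm]
      exact (hp (t j) ⟨ht0 j, ht1 j⟩).le
    rw [h1.tsum_eq, sub_zero, Real.norm_eq_abs, hε] at h2
    have hpos : 0 < |∑' j, b j * f (t j)| := abs_pos.mpr hne
    have h3 : B * (|∑' j, b j * f (t j)| / (2 * (B + 1))) < |∑' j, b j * f (t j)| := by
      rw [mul_div_assoc', div_lt_iff₀ (by positivity)]
      nlinarith
    linarith
  intro j0
  classical
  have hlim : Tendsto (fun r : ℕ => ∑' j, b j * max 0 (1 - r * |t j - t j0|)) atTop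
      (𝓝 (∑' j, if j = j0 then b j0 else 0)) := by
    refine tendsto_tsum_of_dominated_convergence hb ?_ ?_
    · intro j
      by_cases hj : j = j0
      · subst hj
        simp
      · rw [if_neg hj]
        have hd : 0 < |t j - t j0| := abs_pos.mpr (sub_ne_zero.mpr fun h => hj (hinj h))
        apply tendsto_const_nhds.congr'
        obtain ⟨N, hN⟩ := exists_nat_gt (1 / |t j - t j0|)
        filter_upwards [eventually_ge_atTop N] with r hr
        have h1 : 1 < (r : ℝ) * |t j - t j0| := by
          have h2 : 1 < (N : ℝ) * |t j - t j0| := by rwa [div_lt_iff₀ hd] at hN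
          have h3 : (N : ℝ) ≤ r := by exact_mod_cast hr
          nlinarith
        rw [max_eq_left (by linarith), mul_zero]
    · refine Eventually.of_forall fun r j => ?_
      rw [Real.norm_eq_abs, abs_mul]
      refine mul_le_of_le_one_right (abs_nonneg _) ?_
      rw [abs_of_nonneg (le_max_left _ _)]
      apply max_le zero_le_one
      have : 0 ≤ (r : ℝ) * |t j - t j0| := by positivity
      linarith
  have hzero : ∀ r : ℕ, ∑' j, b j * max 0 (1 - r * |t j - t j0|) = 0 := by
    intro r
    refine hbdd (fun s => max 0 (1 - r * |s - t j0|)) (by fun_prop) ?_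
    intro s
    rw [abs_of_nonneg (le_max_left _ _)]
    apply max_le zero_le_one
    have : 0 ≤ (r : ℝ) * |s - t j0| := by positivity
    linarith
  simp only [hzero, tsum_ite_eq] at hlim
  exact (tendsto_nhds_unique tendsto_const_nhds hlim).symm

end Pool.Agent.V1199.Fr
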