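import Pool.Agent.V1199.FrA

open Set Filter Topology

namespace Pool.Agent.V1199.Fr

/-- Quasi-additive locally bounded maps are close to continuous linear maps (Hyers). -/
theorem hyers {X Y : Type*} [NormedAddCommGroup X] [NormedSpace ℝ X] [NormedAddCommGroup Y]
    [NormedSpace ℝ Y] [CompleteSpace Y] (b : X → Y) (K δ M : ℝ) (hδ : 0 < δ)
    (hadd : ∀ z z', ‖b (z + z') - b z - b z'‖ ≤ K) (hbd : ∀ z, ‖z‖ < δ → ‖b z‖ ≤ M) :
    ∃ Φ : X →L[ℝ] Y, ∀ z, ‖Φ z - b z‖ ≤ K := by
  have hK : 0 ≤ K := (norm_nonneg _).trans (hadd 0 0)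
  let c : X → ℕ → Y := fun z n => ((2 : ℝ) ^ n)⁻¹ • b ((2 : ℝ) ^ n • z)
  have hstep : ∀ z n, dist (c z n) (c z (n + 1)) ≤ (K / 2) * (1 / 2) ^ n := by
    intro z n
    have h1 := hadd ((2 : ℝ) ^ n • z) ((2 : ℝ) ^ n • z)
    have h2 : c z (n + 1) - c z n = ((2 : ℝ) ^ (n + 1))⁻¹ •
        (b ((2 : ℝ) ^ n • z + (2 : ℝ) ^ n • z) - b ((2 : ℝ) ^ n • z) - b ((2 : ℝ) ^ n • z)) := by
      have h3 : (2 : ℝ) ^ (n + 1) • z = (2 : ℝ) ^ n • z + (2 : ℝ) ^ n • z := by
        rw [← add_smul]; congr 1; ring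
      simp only [c]
      rw [h3, sub_sub, smul_sub, ← two_smul ℝ (b ((2 : ℝ) ^ n • z)), smul_smul]
      congr 2
      rw [pow_succ]
      field_simp
    rw [dist_comm, dist_eq_norm, h2, norm_smul, Real.norm_of_nonneg (by positivity)]
    calc ((2 : ℝ) ^ (n + 1))⁻¹ * _ ≤ ((2 : ℝ) ^ (n + 1))⁻¹ * K :=
          mul_le_mul_of_nonneg_left h1 (by positivity)
      _ = (K / 2) * (1 / 2) ^ n := by
          rw [pow_succ, one_div, inv_pow]
          field_simp
  have hc : ∀ z, ∃ a, Tendsto (c z) atTop (𝓝 a) := fun z =>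
    cauchySeq_tendsto_of_complete
      (cauchySeq_of_le_geometric (1 / 2) (K / 2) (by norm_num) (hstep z))
  choose Φ hΦ using hc
  have hclose : ∀ z, ‖Φ z - b z‖ ≤ K := by
    intro z
    have h1 := dist_le_of_le_geometric_of_tendsto₀ (1 / 2) (K / 2) (by norm_num) (hstep z) (hΦ z)
    have h2 : c z 0 = b z := by simp [c]
    rw [h2, dist_comm, dist_eq_norm] at h1
    refine h1.trans (le_of_eq ?_)
    ring
  have hlin : ∀ z z', Φ (z + z') = Φ z + Φ z' := by
    intro z z'
    have h1 : Tendsto (fun n => c (z + z') n - c z n - c z' n) atTop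
        (𝓝 (Φ (z + z') - Φ z - Φ z')) := ((hΦ _).sub (hΦ _)).sub (hΦ _)
    have h2 : Tendsto (fun n => c (z + z') n - c z n - c z' n) atTop (𝓝 0) := by
      have h3 : Tendsto (fun n : ℕ => K * (1 / 2 : ℝ) ^ n) atTop (𝓝 0) := by
        have := (tendsto_pow_atTop_nhds_zero_of_lt_one (r := (1 / 2 : ℝ)) (by norm_num)
          (by norm_num)).const_mul K
        rwa [mul_zero] at this
      refine squeeze_zero_norm (fun n => ?_) h3
      simp only [c]
      rw [smul_add, ← smul_sub, ← smul_sub, norm_smul, Real.norm_of_nonneg (by positivity),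
        mul_comm K, one_div, inv_pow]
      exact mul_le_mul_of_nonneg_left (hadd _ _) (by positivity)
    have h4 := tendsto_nhds_unique h1 h2
    rw [sub_sub, sub_eq_zero] at h4
    exact h4
  let Ψ : X →+ Y := AddMonoidHom.mk' Φ hlin
  have hcont : Continuous Ψ := by
    refine Ψ.continuous_of_isBounded_nhds_zero (Metric.ball_mem_nhds 0 hδ) ?_
    rw [isBounded_iff_forall_norm_le]
    refine ⟨M + K, ?_⟩
    rintro _ ⟨z, hz, rfl⟩
    rw [mem_ball_zero_iff] at hz
    have h1 := hclose z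
    have h2 := hbd z hz
    calc ‖Φ z‖ = ‖b z + (Φ z - b z)‖ := by congr 1; abel
      _ ≤ ‖b z‖ + ‖Φ z - b z‖ := norm_add_le _ _
      _ ≤ M + K := add_le_add h2 h1
  exact ⟨Ψ.toRealLinearMap hcont, hclose⟩

instance sep : TopologicalSpace.SeparableSpace E1 := by
  have h1 : TopologicalSpace.IsSeparable (range e) := (countable_range e).isSeparable
  have h3 := (h1.span (R := ℝ)).closure
  have h4 : closure (Submodule.span ℝ (range e) : Set E1) = univ := by
    rw [eq_univ_iff_forall]
    intro v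
    refine mem_closure_of_tendsto (hasSum_e v) (Eventually.of_forall fun s => ?_)
    exact Submodule.sum_mem _ fun n _ => Submodule.smul_mem _ _
      (Submodule.subset_span ⟨n, rfl⟩)
  rw [h4] at h3
  exact TopologicalSpace.isSeparable_univ_iff.mp h3

/-- Generic coefficient sequences. -/
theorem exists_generic (t : ℕ → ℝ) (ht0 : ∀ i, 0 < t i) (ht1 : ∀ i, t i ≤ 1)
    (hlim : Tendsto t atTop (𝓝 0)) :
    ∃ α : ℕ → ℝ,
      (∀ (F : Finset ℕ) (z : E1) (ε : ℝ), 0 < ε →
        ∃ h : Finset ℕ, Disjoint h F ∧ ‖∑ i ∈ h, α i • x (t i) - z‖ < ε) ∧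
      (∀ N : ℕ, ∃ i, N ≤ i ∧ 1 ≤ |α i| * t i ^ i) := by
  classical
  have hmod : ∀ (O : Set (ℕ → ℝ)), IsOpen O → ∀ α₀ ∈ O, ∃ I : Finset ℕ, ∀ α : ℕ → ℝ,
      (∀ i ∈ I, α i = α₀ i) → α ∈ O := by
    intro O hO α₀ hα
    obtain ⟨I, u, hu, hI⟩ := isOpen_pi_iff.mp hO α₀ hα
    refine ⟨I, fun α h => hI fun i hi => ?_⟩
    rw [h i hi]
    exact (hu i hi).2
  have hA : ∀ p : Finset ℕ × ℕ × ℕ, {α : ℕ → ℝ | ∃ h : Finset ℕ, Disjoint h p.1 ∧
      ‖∑ i ∈ h, α i • x (t i) - TopologicalSpace.denseSeq E1 p.2.1‖ < 1 / ((p.2.2 : ℝ) + 1)} ∈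
      residual (ℕ → ℝ) := by
    rintro ⟨F, m, r⟩
    apply residual_of_dense_open
    · have : {α : ℕ → ℝ | ∃ h : Finset ℕ, Disjoint h F ∧
          ‖∑ i ∈ h, α i • x (t i) - TopologicalSpace.denseSeq E1 m‖ < 1 / ((r : ℝ) + 1)} =
          ⋃ (h : Finset ℕ) (_ : Disjoint h F), {α : ℕ → ℝ |
          ‖∑ i ∈ h, α i • x (t i) - TopologicalSpace.denseSeq E1 m‖ < 1 / ((r : ℝ) + 1)} := by
        ext α
        simp only [mem_ofPred_eq, mem_iUnion, exists_prop]
      rw [this]
      refine isOpen_iUnion fun h => isOpen_iUnion fun _ => isOpen_lt ?_ continuous_const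
      refine (Continuous.sub ?_ continuous_const).norm
      exact continuous_finsetSum _ fun i _ => (continuous_apply i).smul continuous_const
    · rw [dense_iff_inter_open]
      rintro O hO ⟨α₀, hα⟩
      obtain ⟨I, hI⟩ := hmod O hO α₀ hα
      obtain ⟨h, c, hd, hc⟩ := tail_dense t ht0 ht1 hlim (F ∪ I)
        (TopologicalSpace.denseSeq E1 m) (1 / ((r : ℝ) + 1)) (by positivity)
      rw [Finset.disjoint_union_right] at hd
      refine ⟨fun i => if i ∈ I then α₀ i else c i, hI _ (fun i hi => if_pos hi), h, hd.1, ?_⟩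
      have : ∑ i ∈ h, (if i ∈ I then α₀ i else c i) • x (t i) = ∑ i ∈ h, c i • x (t i) := by
        refine Finset.sum_congr rfl fun i hi => ?_
        rw [if_neg (Finset.disjoint_left.mp hd.2 hi)]
      rw [this]
      exact hc
  have hB : ∀ N : ℕ, {α : ℕ → ℝ | ∃ i, N ≤ i ∧ 1 < |α i| * t i ^ i} ∈ residual (ℕ → ℝ) := by
    intro N
    apply residual_of_dense_open
    · have : {α : ℕ → ℝ | ∃ i, N ≤ i ∧ 1 < |α i| * t i ^ i} =
          ⋃ (i : ℕ) (_ : N ≤ i), {α : ℕ → ℝ | 1 < |α i| * t i ^ i} := by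
        ext α
        simp only [mem_ofPred_eq, mem_iUnion, exists_prop]
      rw [this]
      refine isOpen_iUnion fun i => isOpen_iUnion fun _ => isOpen_lt continuous_const ?_
      exact ((continuous_apply i).abs).mul continuous_const
    · rw [dense_iff_inter_open]
      rintro O hO ⟨α₀, hα⟩
      obtain ⟨I, hI⟩ := hmod O hO α₀ hα
      obtain ⟨i, hiN, hiI⟩ : ∃ i, N ≤ i ∧ i ∉ I := by
        obtain ⟨B, hB⟩ := I.bddAbove
        refine ⟨max N (B + 1), le_max_left _ _, fun hmem => ?_⟩
        have := hB hmem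
        have := le_max_right N (B + 1)
        omega
      refine ⟨Function.update α₀ i (2 / t i ^ i), hI _ (fun k hk => ?_), i, hiN, ?_⟩
      · rw [Function.update_of_ne]
        rintro rfl
        exact hiI hk
      · have hp : 0 < t i ^ i := pow_pos (ht0 i) i
        rw [Function.update_self, abs_of_pos (by positivity), div_mul_cancel₀ _ hp.ne']
        norm_num
  have hres : ∀ᶠ α in residual (ℕ → ℝ),
      (∀ p : Finset ℕ × ℕ × ℕ, ∃ h : Finset ℕ, Disjoint h p.1 ∧
        ‖∑ i ∈ h, α i • x (t i) - TopologicalSpace.denseSeq E1 p.2.1‖ < 1 / ((p.2.2 : ℝ) + 1)) ∧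
      (∀ N : ℕ, ∃ i, N ≤ i ∧ 1 < |α i| * t i ^ i) :=
    (eventually_countable_forall.mpr hA).and (eventually_countable_forall.mpr hB)
  obtain ⟨α, hα1, hα2⟩ := (dense_of_mem_residual hres).nonempty
  refine ⟨α, ?_, fun N => ?_⟩
  · intro F z ε hε
    obtain ⟨m, hm⟩ := (TopologicalSpace.denseRange_denseSeq E1).exists_dist_lt z (half_pos hε)
    obtain ⟨r, hr⟩ := exists_nat_one_div_lt (half_pos hε)
    obtain ⟨h, hd, hh⟩ := hα1 (F, m, r)
    refine ⟨h, hd, ?_⟩
    rw [dist_comm, dist_eq_norm] at hm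
    calc ‖∑ i ∈ h, α i • x (t i) - z‖ =
          ‖(∑ i ∈ h, α i • x (t i) - TopologicalSpace.denseSeq E1 m) +
            (TopologicalSpace.denseSeq E1 m - z)‖ := by congr 1; abel
      _ ≤ _ := norm_add_le _ _
      _ < ε := by
          have := hh.trans hr
          linarith
  · obtain ⟨i, h1, h2⟩ := hα2 N
    exact ⟨i, h1, h2.le⟩

/-- Rigidity of a generic block. -/
theorem rigid (t : ℕ → ℝ) (ht0 : ∀ i, 0 < t i) (ht1 : ∀ i, t i ≤ 1)
    (hlim : Tendsto t atTop (𝓝 0)) (α β : ℕ → ℝ)
    (P1 : ∀ (F : Finset ℕ) (z : E1) (ε : ℝ), 0 < ε →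
        ∃ h : Finset ℕ, Disjoint h F ∧ ‖∑ i ∈ h, α i • x (t i) - z‖ < ε)
    (P2 : ∀ N : ℕ, ∃ i, N ≤ i ∧ 1 ≤ |α i| * t i ^ i)
    (F : Finset ℕ) (δ : ℝ) (hδ : 0 < δ)
    (H : ∀ h : Finset ℕ, Disjoint h F → ‖∑ i ∈ h, α i • x (t i)‖ < δ →
      ‖∑ i ∈ h, β i • x (t i)‖ < 2) :
    ∃ l : ℝ, Summable fun i => |β i - l * α i| := by
  classical
  set A : Finset ℕ → E1 := fun h => ∑ i ∈ h, α i • x (t i) with hA
  set B : Finset ℕ → E1 := fun h => ∑ i ∈ h, β i • x (t i) with hB
  have hAu : ∀ h h', Disjoint h h' → A (h ∪ h') = A h + A h' := fun h h' hd =>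
    Finset.sum_union hd
  have hBu : ∀ h h', Disjoint h h' → B (h ∪ h') = B h + B h' := fun h h' hd =>
    Finset.sum_union hd
  have claimA : ∀ h h', Disjoint h F → Disjoint h' F → ‖A h - A h'‖ < δ / 2 →
      ‖B h - B h'‖ ≤ 4 := by
    intro h h' hd hd' hh
    obtain ⟨k, hk, hk2⟩ := P1 (F ∪ (h ∪ h')) (-A h) (δ / 4) (by positivity)
    rw [Finset.disjoint_union_right, Finset.disjoint_union_right] at hk
    obtain ⟨hkF, hkh, hkh'⟩ := hk
    have hk3 : ‖A k + A h‖ < δ / 4 := by
      rw [← sub_neg_eq_add]; exact hk2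
    have e1 : ‖B (k ∪ h)‖ < 2 := by
      refine H _ ?_ ?_
      · exact Finset.disjoint_union_left.mpr ⟨hkF, hd⟩
      · change ‖A (k ∪ h)‖ < δ
        rw [hAu _ _ hkh]
        linarith
    have e2 : ‖B (k ∪ h')‖ < 2 := by
      refine H _ ?_ ?_
      · exact Finset.disjoint_union_left.mpr ⟨hkF, hd'⟩
      · change ‖A (k ∪ h')‖ < δ
        rw [hAu _ _ hkh']
        have : A k + A h' = (A k + A h) - (A h - A h') := by abel
        rw [this]
        have := norm_sub_le (A k + A h) (A h - A h')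
        linarith
    rw [hBu _ _ hkh] at e1
    rw [hBu _ _ hkh'] at e2
    have : B h - B h' = (B k + B h) - (B k + B h') := by abel
    rw [this]
    have := norm_sub_le (B k + B h) (B k + B h')
    linarith
  have hch : ∀ z : E1, ∃ h : Finset ℕ, Disjoint h F ∧ ‖A h - z‖ < δ / 4 := fun z =>
    P1 F z (δ / 4) (by positivity)
  choose hz hzF hzc using hch
  obtain ⟨Φ, hΦ⟩ := hyers (fun z => B (hz z)) 12 (δ / 2) 2 (by positivity) (by
    intro z z'
    obtain ⟨h1, h1d, h1c⟩ := P1 F z (δ / 16) (by positivity)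
    obtain ⟨h2, h2d, h2c⟩ := P1 (F ∪ h1) z' (δ / 16) (by positivity)
    rw [Finset.disjoint_union_right] at h2d
    have e1 : ‖B h1 - B (hz z)‖ ≤ 4 := by
      refine claimA _ _ h1d (hzF z) ?_
      have : A h1 - A (hz z) = (A h1 - z) - (A (hz z) - z) := by abel
      rw [this]
      have h3 := norm_sub_le (A h1 - z) (A (hz z) - z)
      have h4 := hzc z
      have h5 : ‖A h1 - z‖ < δ / 16 := h1c
      linarith
    have e2 : ‖B h2 - B (hz z')‖ ≤ 4 := by
      refine claimA _ _ h2d.1 (hzF z') ?_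
      have : A h2 - A (hz z') = (A h2 - z') - (A (hz z') - z') := by abel
      rw [this]
      have h3 := norm_sub_le (A h2 - z') (A (hz z') - z')
      have h4 := hzc z'
      have h5 : ‖A h2 - z'‖ < δ / 16 := h2c
      linarith
    have e3 : ‖B (h1 ∪ h2) - B (hz (z + z'))‖ ≤ 4 := by
      refine claimA _ _ (Finset.disjoint_union_left.mpr ⟨h1d, h2d.1⟩) (hzF _) ?_
      rw [hAu _ _ h2d.2.symm]
      have : A h1 + A h2 - A (hz (z + z')) =
          (A h1 - z) + (A h2 - z') - (A (hz (z + z')) - (z + z')) := by abel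
      rw [this]
      have h3 := norm_sub_le ((A h1 - z) + (A h2 - z')) (A (hz (z + z')) - (z + z'))
      have h6 := norm_add_le (A h1 - z) (A h2 - z')
      have h4 := hzc (z + z')
      have h5 : ‖A h1 - z‖ < δ / 16 := h1c
      have h7 : ‖A h2 - z'‖ < δ / 16 := h2c
      linarith
    rw [hBu _ _ h2d.2.symm] at e3
    have : B (hz (z + z')) - B (hz z) - B (hz z') =
        (B h1 - B (hz z)) + (B h2 - B (hz z')) - (B h1 + B h2 - B (hz (z + z'))) := by abel
    rw [this]
    have h3 := norm_sub_le ((B h1 - B (hz z)) + (B h2 - B (hz z')))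
      (B h1 + B h2 - B (hz (z + z')))
    have h4 := norm_add_le (B h1 - B (hz z)) (B h2 - B (hz z'))
    linarith) (by
    intro z hzn
    refine (H _ (hzF z) ?_).le
    have h4 := hzc z
    have h5 : A (hz z) = (A (hz z) - z) + z := by abel
    change ‖A (hz z)‖ < δ
    rw [h5]
    have := norm_add_le (A (hz z) - z) z
    linarith)
  have hclose : ∀ h, Disjoint h F → ‖Φ (A h) - B h‖ ≤ 16 := by
    intro h hd
    have h1 := hΦ (A h)
    have h2 : ‖B (hz (A h)) - B h‖ ≤ 4 := by
      refine claimA _ _ (hzF _) hd ?_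
      have := hzc (A h)
      linarith
    have : Φ (A h) - B h = (Φ (A h) - B (hz (A h))) + (B (hz (A h)) - B h) := by abel
    rw [this]
    have := norm_add_le (Φ (A h) - B (hz (A h))) (B (hz (A h)) - B h)
    linarith
  -- matrix of Φ
  have hmat : ∀ n m, |co n (Φ (e m))| ≤ ‖Φ‖ := by
    intro n m
    refine (abs_co_le _ _).trans ?_
    have := Φ.le_opNorm (e m)
    rwa [norm_e, mul_one] at this
  have hcoef : ∀ n, ∀ m, w m * co n (Φ (e m)) -
      (if n ≤ m then w n * (w (m - n) * co 0 (Φ (e (m - n)))) else 0) = 0 := by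
    intro n
    refine ps_zero _ (2 * ‖Φ‖) ?_ t ht0 hlim ?_
    · intro m
      have h1 : |w m * co n (Φ (e m))| ≤ ‖Φ‖ := by
        rw [abs_mul, abs_of_pos (w_pos m)]
        calc w m * |co n (Φ (e m))| ≤ 1 * ‖Φ‖ :=
              mul_le_mul (w_le_one m) (hmat n m) (abs_nonneg _) zero_le_one
          _ = ‖Φ‖ := one_mul _
      have h2 : |if n ≤ m then w n * (w (m - n) * co 0 (Φ (e (m - n)))) else 0| ≤ ‖Φ‖ := by
        split_ifs
        · rw [abs_mul, abs_mul, abs_of_pos (w_pos n), abs_of_pos (w_pos (m - n))]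
          have h3 : w (m - n) * |co 0 (Φ (e (m - n)))| ≤ 1 * ‖Φ‖ :=
            mul_le_mul (w_le_one _) (hmat _ _) (abs_nonneg _) zero_le_one
          calc w n * (w (m - n) * |co 0 (Φ (e (m - n)))|) ≤ 1 * (1 * ‖Φ‖) :=
                mul_le_mul (w_le_one n) h3
                  (mul_nonneg (w_pos _).le (abs_nonneg _)) zero_le_one
            _ = ‖Φ‖ := by ring
        · rw [abs_zero]; exact norm_nonneg _
      have := abs_sub (w m * co n (Φ (e m)))
        (if n ≤ m then w n * (w (m - n) * co 0 (Φ (e (m - n)))) else 0)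
      linarith
    · intro N
      refine ⟨32, ?_⟩
      rw [frequently_atTop]
      intro N0
      obtain ⟨B0, hB0⟩ := F.bddAbove
      obtain ⟨i, hi, hαi⟩ := P2 (max N (max N0 (B0 + 1)))
      have hiN : N ≤ i := (le_max_left _ _).trans hi
      have hiN0 : N0 ≤ i := (le_max_left _ _).trans ((le_max_right _ _).trans hi)
      have hiF : i ∉ F := by
        intro hmem
        have h1 := hB0 hmem
        have h2 : B0 + 1 ≤ i := (le_max_right _ _).trans ((le_max_right _ _).trans hi)
        omega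
      refine ⟨i, hiN0, ?_⟩
      have hs0 := ht0 i
      have hs1 := ht1 i
      have hα0 : 0 < |α i| := by
        by_contra hcon
        have : |α i| = 0 := le_antisymm (not_lt.mp hcon) (abs_nonneg _)
        rw [this, zero_mul] at hαi
        linarith
      have hαne : α i ≠ 0 := abs_pos.mp hα0
      -- approximate eigenvector relation
      have h1 := hclose {i} (Finset.disjoint_singleton_left.mpr hiF)
      have hAi : A {i} = α i • x (t i) := Finset.sum_singleton _ _
      have hBi : B {i} = β i • x (t i) := Finset.sum_singleton _ _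
      rw [hAi, hBi, map_smul] at h1
      have hcon : ∀ n, |co n (Φ (x (t i))) - β i / α i * (w n * t i ^ n)| ≤ 16 / |α i| := by
        intro n
        have h2 := (abs_co_le n _).trans h1
        rw [map_sub, map_smul, map_smul, co_x n hs0.le hs1, smul_eq_mul, smul_eq_mul] at h2
        rw [le_div_iff₀ hα0, ← abs_mul]
        have : (co n (Φ (x (t i))) - β i / α i * (w n * t i ^ n)) * α i =
            α i * co n (Φ (x (t i))) - β i * (w n * t i ^ n) := by
          field_simp
        rw [this]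
        exact h2
      have hser : ∀ n, HasSum (fun m => w m * co n (Φ (e m)) * t i ^ m) (co n (Φ (x (t i)))) := by
        intro n
        have := map_x ((co n).comp Φ) hs0.le hs1
        simp only [ContinuousLinearMap.comp_apply, smul_eq_mul] at this
        have h2 : (fun m => w m * co n (Φ (e m)) * t i ^ m) =
            fun m => w m * t i ^ m * co n (Φ (e m)) := by
          funext m; ring
        rw [h2]
        exact this
      have hser2 : HasSum (fun m => (if n ≤ m then w n * (w (m - n) * co 0 (Φ (e (m - n))))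
          else 0) * t i ^ m) (w n * t i ^ n * co 0 (Φ (x (t i)))) := by
        have h2 := (hasSum_nat_add_iff (f := fun m => (if n ≤ m then
          w n * (w (m - n) * co 0 (Φ (e (m - n)))) else 0) * t i ^ m)
          (g := w n * t i ^ n * co 0 (Φ (x (t i)))) n).mp (by
            have h3 := (hser 0).mul_left (w n * t i ^ n)
            have h4 : (fun k => (if n ≤ k + n then
                w n * (w (k + n - n) * co 0 (Φ (e (k + n - n)))) else 0) * t i ^ (k + n)) =
                fun k => w n * t i ^ n * (w k * co 0 (Φ (e k)) * t i ^ k) := by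
              funext k
              rw [if_pos (Nat.le_add_left _ _), Nat.add_sub_cancel, pow_add]
              ring
            rw [h4]
            exact h3)
        rw [Finset.sum_eq_zero (fun k hk => by
          rw [if_neg (not_le.mpr (Finset.mem_range.mp hk)), zero_mul]), add_zero] at h2
        exact h2
      have hH : ∑' m, (w m * co n (Φ (e m)) -
          (if n ≤ m then w n * (w (m - n) * co 0 (Φ (e (m - n)))) else 0)) * t i ^ m =
          co n (Φ (x (t i))) - w n * t i ^ n * co 0 (Φ (x (t i))) := by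
        have h2 := ((hser n).sub hser2).tsum_eq
        rw [← h2]
        congr 1
        funext m
        ring
      rw [hH]
      have hn := hcon n
      have h0 := hcon 0
      rw [w_zero, pow_zero, mul_one, mul_one] at h0
      have hwt : 0 ≤ w n * t i ^ n ∧ w n * t i ^ n ≤ 1 :=
        ⟨mul_nonneg (w_pos n).le (pow_nonneg hs0.le n),
          mul_le_one₀ (w_le_one n) (pow_nonneg hs0.le n) (pow_le_one₀ hs0.le hs1)⟩
      have h3 : co n (Φ (x (t i))) - w n * t i ^ n * co 0 (Φ (x (t i))) =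
          (co n (Φ (x (t i))) - β i / α i * (w n * t i ^ n)) -
          w n * t i ^ n * (co 0 (Φ (x (t i))) - β i / α i) := by ring
      rw [h3]
      refine (abs_sub _ _).trans ?_
      rw [abs_mul, abs_of_nonneg hwt.1]
      have h4 : w n * t i ^ n * |co 0 (Φ (x (t i))) - β i / α i| ≤ 16 / |α i| := by
        calc w n * t i ^ n * |co 0 (Φ (x (t i))) - β i / α i| ≤
              1 * |co 0 (Φ (x (t i))) - β i / α i| :=
              mul_le_mul_of_nonneg_right hwt.2 (abs_nonneg _)
          _ ≤ 16 / |α i| := by rw [one_mul]; exact h0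
      have h5 : 1 / |α i| ≤ t i ^ N := by
        rw [div_le_iff₀ hα0]
        calc (1 : ℝ) ≤ |α i| * t i ^ i := hαi
          _ ≤ |α i| * t i ^ N := mul_le_mul_of_nonneg_left
              (pow_le_pow_of_le_one hs0.le hs1 hiN) hα0.le
          _ = t i ^ N * |α i| := mul_comm _ _
      have h6 : 16 / |α i| = 16 * (1 / |α i|) := by ring
      rw [h6] at h4 hn
      linarith
  have hwadd : ∀ n k, w (n + k) = w n * w k * (1 / 2) ^ (2 * n * k) := by
    intro n k
    unfold w
    rw [← pow_add, ← pow_add]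
    congr 1
    ring
  have hφ0 : ∀ k, 1 ≤ k → co 0 (Φ (e k)) = 0 := by
    intro k hk
    have hb : ∀ n : ℕ, |co 0 (Φ (e k))| ≤ ‖Φ‖ * (1 / 2) ^ n := by
      intro n
      have h1 := hcoef n (n + k)
      rw [if_pos (Nat.le_add_right _ _), Nat.add_sub_cancel_left, hwadd] at h1
      have h2 : co 0 (Φ (e k)) = (1 / 2) ^ (2 * n * k) * co n (Φ (e (n + k))) := by
        have h3 : w n * w k * ((1 / 2) ^ (2 * n * k) * co n (Φ (e (n + k))) - co 0 (Φ (e k))) = 0 := by
          linarith
        rcases mul_eq_zero.mp h3 with h4 | h4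
        · exact absurd h4 (mul_pos (w_pos n) (w_pos k)).ne'
        · linarith
      rw [h2, abs_mul, abs_of_pos (by positivity), mul_comm]
      refine mul_le_mul (hmat _ _) ?_ (by positivity) (norm_nonneg _)
      apply pow_le_pow_of_le_one (by norm_num) (by norm_num)
      nlinarith
    have hlim0 : Tendsto (fun n : ℕ => ‖Φ‖ * (1 / 2 : ℝ) ^ n) atTop (𝓝 0) := by
      have := (tendsto_pow_atTop_nhds_zero_of_lt_one (r := (1 / 2 : ℝ)) (by norm_num)
        (by norm_num)).const_mul ‖Φ‖
      rwa [mul_zero] at this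
    have := ge_of_tendsto' hlim0 hb
    exact abs_eq_zero.mp (le_antisymm this (abs_nonneg _))
  set l : ℝ := co 0 (Φ (e 0)) with hl
  have hco_ext : ∀ u v : E1, (∀ n, co n u = co n v) → u = v := by
    intro u v h
    have h1 := hasSum_e u
    have h2 := hasSum_e v
    simp only [h] at h1
    exact h1.unique h2
  have hΦe : ∀ m, Φ (e m) = l • e m := by
    intro m
    apply hco_ext
    intro n
    rw [map_smul, co_e, smul_eq_mul]
    have h1 := hcoef n m
    rcases lt_trichotomy n m with h | h | h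
    · rw [if_pos h.le, hφ0 (m - n) (by omega), mul_zero, mul_zero, sub_zero] at h1
      rw [if_neg h.ne, mul_zero]
      rcases mul_eq_zero.mp h1 with h2 | h2
      · exact absurd h2 (w_pos m).ne'
      · exact h2
    · subst h
      rw [if_pos le_rfl, Nat.sub_self, w_zero, one_mul, ← mul_sub] at h1
      rw [if_pos rfl, mul_one]
      rcases mul_eq_zero.mp h1 with h2 | h2
      · exact absurd h2 (w_pos n).ne'
      · linarith
    · rw [if_neg (not_le.mpr h), sub_zero] at h1
      rw [if_neg h.ne', mul_zero]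
      rcases mul_eq_zero.mp h1 with h2 | h2
      · exact absurd h2 (w_pos m).ne'
      · exact h2
  have hΦid : Φ = l • ContinuousLinearMap.id ℝ E1 := clm_ext _ _ (fun n => by
    rw [hΦe]; rfl)
  have hsumb : ∀ h, Disjoint h F → |∑ i ∈ h, (β i - l * α i)| ≤ 16 := by
    intro h hd
    have h1 := (abs_co_le 0 _).trans (hclose h hd)
    have h2 : co 0 (Φ (A h) - B h) = -∑ i ∈ h, (β i - l * α i) := by
      rw [hΦid, hA, hB]
      simp only [_root_.smul_apply, ContinuousLinearMap.id_apply]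
      rw [map_sub, map_smul, map_sum, map_sum]
      simp only [map_smul, co_x 0 (ht0 _).le (ht1 _), w_zero, pow_zero, smul_eq_mul, mul_one]
      rw [Finset.sum_sub_distrib, Finset.mul_sum]
      ring
    rwa [h2, abs_neg] at h1
  refine ⟨l, summable_of_sum_le (c := 32 + ∑ i ∈ F, |β i - l * α i|)
    (fun i => abs_nonneg _) ?_⟩
  intro u
  have hsplit : ∑ i ∈ u, |β i - l * α i| =
      ∑ i ∈ u.filter (fun i => i ∈ F), |β i - l * α i| +
      ∑ i ∈ u.filter (fun i => i ∉ F), |β i - l * α i| :=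
    (Finset.sum_filter_add_sum_filter_not u _ _).symm
  have hfirst : ∑ i ∈ u.filter (fun i => i ∈ F), |β i - l * α i| ≤ ∑ i ∈ F, |β i - l * α i| := by
    apply Finset.sum_le_sum_of_subset_of_nonneg
    · intro i hi
      exact (Finset.mem_filter.mp hi).2
    · intro i _ _
      exact abs_nonneg _
  have hsecond : ∑ i ∈ u.filter (fun i => i ∉ F), |β i - l * α i| ≤ 32 := by
    set v := u.filter (fun i => i ∉ F) with hv
    have hvd : Disjoint v F := by
      rw [Finset.disjoint_left]
      intro i hi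
      exact (Finset.mem_filter.mp hi).2
    rw [← Finset.sum_filter_add_sum_filter_not v (fun i => 0 ≤ β i - l * α i)]
    have e1 : ∑ i ∈ v.filter (fun i => 0 ≤ β i - l * α i), |β i - l * α i| ≤ 16 := by
      rw [Finset.sum_congr rfl (fun i hi => abs_of_nonneg (Finset.mem_filter.mp hi).2)]
      exact (le_abs_self _).trans (hsumb _ (hvd.mono_left (Finset.filter_subset _ _)))
    have e2 : ∑ i ∈ v.filter (fun i => ¬ 0 ≤ β i - l * α i), |β i - l * α i| ≤ 16 := by
      rw [Finset.sum_congr rfl (fun i hi =>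
        abs_of_neg (not_le.mp (Finset.mem_filter.mp hi).2)), Finset.sum_neg_distrib]
      exact (neg_le_abs _).trans (hsumb _ (hvd.mono_left (Finset.filter_subset _ _)))
    linarith
  linarith

end Pool.Agent.V1199.Fr
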