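import Pool.Agent.V1199.FrB

open Set Filter Topology

namespace Pool.Agent.V1199.Fr

/-- `v = Σ^D α i • x i`: for every `ε > 0` there is `d ∈ D` such that all partial sums over the
members `d'` of `D` containing `d` are within `ε` of `v`. -/
def DSum {I E : Type} [NormedAddCommGroup E] [NormedSpace ℝ E] (D : Set (Finset I)) (x : I → E)
    (α : I → ℝ) (v : E) : Prop :=
  ∀ ε : ℝ, 0 < ε → ∃ d ∈ D, ∀ d' ∈ D, d ⊆ d' → ‖v - ∑ i ∈ d', α i • x i‖ < ε

/-- `x` is an `(I, D)`-conditional basis of `E`. -/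
def IsConditionalBasis {I E : Type} [NormedAddCommGroup E] [NormedSpace ℝ E]
    (D : Set (Finset I)) (x : I → E) : Prop :=
  ∀ v : E, ∃! α : I → ℝ, DSum D x α v

section general

variable {I E : Type} [NormedAddCommGroup E] [NormedSpace ℝ E] {D : Set (Finset I)} {x : I → E}

theorem DSum.of_hasSum (cov : ∀ u : Finset I, ∃ d ∈ D, u ⊆ d) {α : I → ℝ} {v : E}
    (h : HasSum (fun i => α i • x i) v) : DSum D x α v := by
  intro ε hε
  have h1 : Tendsto (fun s : Finset I => ∑ i ∈ s, α i • x i) atTop (𝓝 v) := by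
    rw [HasSum, SummationFilter.unconditional_filter] at h
    exact h
  have h2 : ∀ᶠ s : Finset I in atTop, dist (∑ i ∈ s, α i • x i) v < ε :=
    Metric.tendsto_nhds.mp h1 ε hε
  obtain ⟨N, hN⟩ := Filter.eventually_atTop.mp h2
  obtain ⟨d, hd, hNd⟩ := cov N
  refine ⟨d, hd, fun d' _ hdd' => ?_⟩
  have h3 : N ≤ d' := Finset.Subset.trans hNd hdd'
  have h4 := hN d' h3
  rw [dist_comm, dist_eq_norm] at h4
  exact h4

theorem DSum.add (dir : ∀ d ∈ D, ∀ d' ∈ D, ∃ d'' ∈ D, d ⊆ d'' ∧ d' ⊆ d'') {α β : I → ℝ} {v u : E}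
    (h : DSum D x α v) (h' : DSum D x β u) : DSum D x (fun i => α i + β i) (v + u) := by
  intro ε hε
  obtain ⟨d, hd, h1⟩ := h (ε / 2) (half_pos hε)
  obtain ⟨d', hd', h2⟩ := h' (ε / 2) (half_pos hε)
  obtain ⟨d'', hd'', h3, h4⟩ := dir d hd d' hd'
  refine ⟨d'', hd'', fun k hk hdk => ?_⟩
  have e1 := h1 k hk (h3.trans hdk)
  have e2 := h2 k hk (h4.trans hdk)
  have : v + u - ∑ i ∈ k, (α i + β i) • x i =
      (v - ∑ i ∈ k, α i • x i) + (u - ∑ i ∈ k, β i • x i) := by
    simp only [add_smul, Finset.sum_add_distrib]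
    abel
  rw [this]
  refine (norm_add_le _ _).trans_lt ?_
  linarith

theorem DSum.smul {α : I → ℝ} {v : E} (h : DSum D x α v) (c : ℝ) :
    DSum D x (fun i => c * α i) (c • v) := by
  intro ε hε
  obtain ⟨d, hd, h1⟩ := h (ε / (|c| + 1)) (by positivity)
  refine ⟨d, hd, fun k hk hdk => ?_⟩
  have e1 := h1 k hk hdk
  have : c • v - ∑ i ∈ k, (c * α i) • x i = c • (v - ∑ i ∈ k, α i • x i) := by
    rw [smul_sub, Finset.smul_sum]
    simp only [mul_smul]
  rw [this, norm_smul, Real.norm_eq_abs]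
  rw [lt_div_iff₀ (by positivity)] at e1
  calc |c| * ‖v - ∑ i ∈ k, α i • x i‖ ≤ (|c| + 1) * ‖v - ∑ i ∈ k, α i • x i‖ :=
        mul_le_mul_of_nonneg_right (by linarith) (norm_nonneg _)
    _ < ε := by rw [mul_comm]; exact e1

theorem DSum.zero (hne : D.Nonempty) : DSum D x (fun _ => 0) 0 := by
  intro ε hε
  obtain ⟨d, hd⟩ := hne
  exact ⟨d, hd, fun k _ _ => by simpa using hε⟩

theorem DSum.sum (hne : D.Nonempty)
    (dir : ∀ d ∈ D, ∀ d' ∈ D, ∃ d'' ∈ D, d ⊆ d'' ∧ d' ⊆ d'') {κ : Type} (s : Finset κ)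
    {α : κ → I → ℝ} {v : κ → E} (h : ∀ k ∈ s, DSum D x (α k) (v k)) :
    DSum D x (fun i => ∑ k ∈ s, α k i) (∑ k ∈ s, v k) := by
  classical
  induction s using Finset.induction_on with
  | empty => simpa using DSum.zero hne
  | insert a s ha ih =>
    simp only [Finset.sum_insert ha]
    exact (h a (Finset.mem_insert_self _ _)).add dir
      (ih fun k hk => h k (Finset.mem_insert_of_mem hk))

theorem DSum.unique (dir : ∀ d ∈ D, ∀ d' ∈ D, ∃ d'' ∈ D, d ⊆ d'' ∧ d' ⊆ d'') {α : I → ℝ} {v u : E}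
    (h : DSum D x α v) (h' : DSum D x α u) : v = u := by
  by_contra hne
  have hpos : 0 < ‖v - u‖ := norm_pos_iff.mpr (sub_ne_zero.mpr hne)
  obtain ⟨d, hd, h1⟩ := h (‖v - u‖ / 2) (half_pos hpos)
  obtain ⟨d', hd', h2⟩ := h' (‖v - u‖ / 2) (half_pos hpos)
  obtain ⟨d'', hd'', h3, h4⟩ := dir d hd d' hd'
  have e1 := h1 d'' hd'' h3
  have e2 := h2 d'' hd'' h4
  have : v - u = (v - ∑ i ∈ d'', α i • x i) - (u - ∑ i ∈ d'', α i • x i) := by abel
  have h5 := norm_sub_le (v - ∑ i ∈ d'', α i • x i) (u - ∑ i ∈ d'', α i • x i)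
  rw [← this] at h5
  linarith

end general

/-- Block labels. -/
abbrev S : Type := Set.Ioc (1 / 2 : ℝ) 1

abbrev J : Type := S × ℕ

noncomputable def t (j : J) : ℝ := (j.1 : ℝ) / 2 ^ j.2

theorem t_pos (j : J) : 0 < t j := by
  have h := j.1.2.1
  unfold t
  apply div_pos
  · linarith
  · positivity

theorem t_le_one (j : J) : t j ≤ 1 := by
  unfold t
  rw [div_le_one (by positivity)]
  exact j.1.2.2.trans (one_le_pow₀ (by norm_num))

theorem t_inj : Function.Injective t := by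
  have key : ∀ (s s' : S) (i i' : ℕ), (s : ℝ) / 2 ^ i = (s' : ℝ) / 2 ^ i' → i ≤ i' → i = i' := by
    intro s s' i i' h hii
    by_contra hne
    obtain ⟨k, rfl⟩ := Nat.exists_eq_add_of_lt (lt_of_le_of_ne hii hne)
    have hp : (0 : ℝ) < 2 ^ i := by positivity
    rw [div_eq_div_iff hp.ne' (by positivity)] at h
    have h1 : (s : ℝ) * 2 ^ (k + 1) = s' := by
      have h2 : (s : ℝ) * 2 ^ (i + k + 1) = ((s : ℝ) * 2 ^ (k + 1)) * 2 ^ i := by ring
      rw [h2] at h
      exact mul_right_cancel₀ hp.ne' h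
    have h3 := s.2.1
    have h4 := s'.2.2
    have h5 : (2 : ℝ) ≤ 2 ^ (k + 1) := by
      calc (2 : ℝ) = 2 ^ 1 := by norm_num
        _ ≤ 2 ^ (k + 1) := pow_le_pow_right₀ (by norm_num) (by omega)
    nlinarith
  rintro ⟨s, i⟩ ⟨s', i'⟩ h
  unfold t at h
  simp only at h
  have hi : i = i' := by
    rcases le_total i i' with hle | hle
    · exact key s s' i i' h hle
    · exact (key s' s i' i h.symm hle).symm
  subst hi
  have hp : (0 : ℝ) < 2 ^ i := by positivity
  have hs : (s : ℝ) = s' := by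
    rw [div_eq_div_iff hp.ne' hp.ne'] at h
    exact mul_right_cancel₀ hp.ne' h
  rw [Subtype.ext hs]

theorem t_lim (s : S) : Tendsto (fun i => t (s, i)) atTop (𝓝 0) := by
  have h := (tendsto_pow_atTop_nhds_zero_of_lt_one (r := (1 / 2 : ℝ)) (by norm_num)
    (by norm_num)).const_mul (s : ℝ)
  rw [mul_zero] at h
  refine h.congr fun i => ?_
  calc (s : ℝ) * (1 / 2) ^ i = (s : ℝ) * ((2 : ℝ) ^ i)⁻¹ := by
        congr 1
        rw [one_div, inv_pow]
    _ = t (s, i) := rfl

/-- Absolutely convergent sums of the moment vectors. -/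
noncomputable def V : Submodule ℝ E1 where
  carrier := {z | ∃ η : J → ℝ, Summable (fun j => |η j|) ∧ HasSum (fun j => η j • x (t j)) z}
  add_mem' := by
    rintro a b ⟨η, h1, h2⟩ ⟨η', h1', h2'⟩
    refine ⟨fun j => η j + η' j, ?_, ?_⟩
    · exact Summable.of_nonneg_of_le (fun j => abs_nonneg _) (fun j => abs_add_le _ _) (h1.add h1')
    · simp only [add_smul]
      exact h2.add h2'
  zero_mem' := ⟨fun _ => 0, by simp, by simp⟩
  smul_mem' := by
    rintro c a ⟨η, h1, h2⟩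
    refine ⟨fun j => c * η j, ?_, ?_⟩
    · simp only [abs_mul]
      exact h1.mul_left _
    · simp only [mul_smul]
      exact h2.const_smul c

theorem hasSum_of_abs {η : J → ℝ} (h : Summable fun j => |η j|) :
    HasSum (fun j => η j • x (t j)) (∑' j, η j • x (t j)) := by
  apply Summable.hasSum
  refine Summable.of_norm_bounded (h.mul_right 2) ?_
  intro j
  rw [norm_smul, Real.norm_eq_abs]
  exact mul_le_mul_of_nonneg_left (norm_x_le (t_pos j).le (t_le_one j)) (abs_nonneg _)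

theorem eq_zero_of_hasSum {η : J → ℝ} (h : Summable fun j => |η j|)
    (h0 : HasSum (fun j => η j • x (t j)) 0) : ∀ j, η j = 0 := by
  refine moments t (fun j => (t_pos j).le) t_le_one t_inj η h ?_
  intro n
  have h1 := (co n).hasSum h0
  simp only [map_smul, map_zero, co_x n (t_pos _).le (t_le_one _), smul_eq_mul] at h1
  have h2 : HasSum (fun j => w n * (η j * t j ^ n)) 0 := by
    have : (fun j => w n * (η j * t j ^ n)) = fun j => η j * (w n * t j ^ n) := by
      funext j; ring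
    rw [this]
    exact h1
  have h3 := h2.tsum_eq
  rw [tsum_mul_left] at h3
  rcases mul_eq_zero.mp h3 with h4 | h4
  · exact absurd h4 (w_pos n).ne'
  · exact h4

theorem exists_label (ι : Type) (y : ι → E1) (hy : Function.Injective y) :
    ∃ σ : ι → S, Function.Injective σ := by
  have h1 : Cardinal.mk ι ≤ Cardinal.mk (ℕ → ℝ) := by
    refine Cardinal.mk_le_of_injective (f := fun b => fun n => (y b) n) ?_
    intro b b' h
    apply hy
    apply lp.ext
    exact h
  have h2 : Cardinal.mk (ℕ → ℝ) = Cardinal.continuum := by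
    rw [← Cardinal.power_def, Cardinal.mk_real, Cardinal.mk_nat, Cardinal.continuum_power_aleph0]
  have h3 : Cardinal.mk S = Cardinal.continuum := Cardinal.mk_Ioc_real (by norm_num)
  rw [h2, ← h3] at h1
  obtain ⟨f⟩ := Cardinal.le_def _ _ |>.mp h1
  exact ⟨f, f.injective⟩

end Pool.Agent.V1199.Fr
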