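import Pool.Agent.V1199.FrC

open Set Filter Topology

namespace Pool.Agent.V1199.Fr

section construction

variable {ι : Type} (σ : ι → S) (y : ι → E1) (α : ι → ℕ → ℝ)

open Classical in
/-- Wild coefficients of block `b`, extended by zero. -/
noncomputable def aJ (b : ι) (j : J) : ℝ := if j.1 = σ b then α b j.2 else 0

noncomputable def SS (b : ι) (g : Finset J) : E1 := ∑ j ∈ g, aJ σ α b j • x (t j)

/-- The directed family. -/
def D : Set (Finset (J ⊕ (ι × ℕ))) :=
  {d | ∀ p ∈ d.toRight, ‖SS σ α p.1 d.toLeft - y p.1‖ < 1 / ((p.2 : ℝ) + 1)}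

theorem aJ_self (b : ι) (i : ℕ) : aJ σ α b (σ b, i) = α b i := by
  unfold aJ; rw [if_pos rfl]

theorem aJ_ne {b : ι} {j : J} (h : j.1 ≠ σ b) : aJ σ α b j = 0 := by
  unfold aJ; rw [if_neg h]

theorem SS_union [DecidableEq J] (b : ι) {g h : Finset J} (hd : Disjoint g h) :
    SS σ α b (g ∪ h) = SS σ α b g + SS σ α b h := Finset.sum_union hd

theorem SS_zero (b : ι) {g : Finset J} (h : ∀ j ∈ g, j.1 ≠ σ b) : SS σ α b g = 0 := by
  refine Finset.sum_eq_zero fun j hj => ?_
  rw [aJ_ne σ α (h j hj), zero_smul]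

theorem SS_block [DecidableEq J] (b : ι) (h : Finset ℕ) :
    SS σ α b (h.image fun i => (σ b, i)) = ∑ i ∈ h, α b i • x (t (σ b, i)) := by
  unfold SS
  rw [Finset.sum_image]
  · simp only [aJ_self]
  · intro i _ i' _ hii
    exact (Prod.mk.inj hii).2

theorem ext_block (hσ : Function.Injective σ)
    (P1 : ∀ (b : ι) (F : Finset ℕ) (z : E1) (ε : ℝ), 0 < ε →
        ∃ h : Finset ℕ, Disjoint h F ∧ ‖∑ i ∈ h, α b i • x (t (σ b, i)) - z‖ < ε)
    (g k : Finset J) (Y : Finset ι) (ρ : ℝ) (hρ : 0 < ρ) :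
    ∃ v : Finset J, Disjoint v g ∧ Disjoint v k ∧
      ∀ b ∈ Y, ‖SS σ α b g + SS σ α b v - y b‖ < ρ := by
  classical
  have hex : ∀ b : ι, ∃ h : Finset ℕ,
      Disjoint h (((g ∪ k).filter fun j => j.1 = σ b).image Prod.snd) ∧
      ‖∑ i ∈ h, α b i • x (t (σ b, i)) - (y b - SS σ α b g)‖ < ρ := fun b => P1 b _ _ ρ hρ
  choose h hd hh using hex
  have hmem : ∀ j, j ∈ Y.biUnion (fun b => (h b).image fun i => (σ b, i)) → j ∉ g ∪ k := by
    intro j hj hjg
    rw [Finset.mem_biUnion] at hj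
    obtain ⟨b, _, hj⟩ := hj
    rw [Finset.mem_image] at hj
    obtain ⟨i, hi, rfl⟩ := hj
    refine Finset.disjoint_left.mp (hd b) hi ?_
    rw [Finset.mem_image]
    exact ⟨(σ b, i), Finset.mem_filter.mpr ⟨hjg, rfl⟩, rfl⟩
  refine ⟨Y.biUnion (fun b => (h b).image fun i => (σ b, i)), ?_, ?_, ?_⟩
  · rw [Finset.disjoint_left]
    intro j hj hjg
    exact hmem j hj (Finset.mem_union_left _ hjg)
  · rw [Finset.disjoint_left]
    intro j hj hjg
    exact hmem j hj (Finset.mem_union_right _ hjg)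
  · intro b hb
    have hsub : (h b).image (fun i => (σ b, i)) ⊆
        Y.biUnion (fun b => (h b).image fun i => (σ b, i)) :=
      Finset.subset_biUnion_of_mem (fun b => (h b).image fun i => (σ b, i)) hb
    have h1 : SS σ α b (Y.biUnion (fun b => (h b).image fun i => (σ b, i))) =
        SS σ α b ((h b).image (fun i => (σ b, i))) := by
      unfold SS
      refine (Finset.sum_subset hsub ?_).symm
      intro j hj hjn
      rw [Finset.mem_biUnion] at hj
      obtain ⟨b', _, hj⟩ := hj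
      rw [Finset.mem_image] at hj
      obtain ⟨i, hi, rfl⟩ := hj
      have hne : b' ≠ b := by
        rintro rfl
        exact hjn (Finset.mem_image.mpr ⟨i, hi, rfl⟩)
      rw [aJ_ne σ α (fun h => hne (hσ h)), zero_smul]
    rw [h1, SS_block]
    have h2 := hh b
    have h3 : SS σ α b g + ∑ i ∈ h b, α b i • x (t (σ b, i)) - y b =
        ∑ i ∈ h b, α b i • x (t (σ b, i)) - (y b - SS σ α b g) := by abel
    rw [h3]
    exact h2

theorem dir_cov (hσ : Function.Injective σ)
    (P1 : ∀ (b : ι) (F : Finset ℕ) (z : E1) (ε : ℝ), 0 < ε →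
        ∃ h : Finset ℕ, Disjoint h F ∧ ‖∑ i ∈ h, α b i • x (t (σ b, i)) - z‖ < ε)
    (g : Finset J) (c : Finset (ι × ℕ)) :
    ∃ d ∈ D σ y α, g ⊆ d.toLeft ∧ d.toRight = c := by
  classical
  set R := c.sup Prod.snd with hR
  obtain ⟨v, hvg, -, hv⟩ := ext_block σ y α hσ P1 g ∅ (c.image Prod.fst) (1 / ((R : ℝ) + 1))
    (by positivity)
  refine ⟨(g ∪ v).disjSum c, ?_, ?_, Finset.toRight_disjSum⟩
  · intro p hp
    rw [Finset.toRight_disjSum] at hp
    rw [Finset.toLeft_disjSum, SS_union σ α p.1 hvg.symm]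
    refine (hv p.1 (Finset.mem_image_of_mem _ hp)).trans_le ?_
    have h1 : p.2 ≤ R := Finset.le_sup (f := Prod.snd) hp
    have h2 : (p.2 : ℝ) ≤ R := by exact_mod_cast h1
    apply one_div_le_one_div_of_le (by positivity)
    linarith
  · rw [Finset.toLeft_disjSum]
    exact Finset.subset_union_left

theorem covD (hσ : Function.Injective σ)
    (P1 : ∀ (b : ι) (F : Finset ℕ) (z : E1) (ε : ℝ), 0 < ε →
        ∃ h : Finset ℕ, Disjoint h F ∧ ‖∑ i ∈ h, α b i • x (t (σ b, i)) - z‖ < ε)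
    (u : Finset (J ⊕ (ι × ℕ))) : ∃ d ∈ D σ y α, u ⊆ d := by
  obtain ⟨d, hd, h1, h2⟩ := dir_cov σ y α hσ P1 u.toLeft u.toRight
  refine ⟨d, hd, ?_⟩
  rw [← Finset.toLeft_disjSum_toRight (u := u), Finset.disjSum_subset]
  exact ⟨h1, h2.symm.subset⟩

theorem dirD (hσ : Function.Injective σ)
    (P1 : ∀ (b : ι) (F : Finset ℕ) (z : E1) (ε : ℝ), 0 < ε →
        ∃ h : Finset ℕ, Disjoint h F ∧ ‖∑ i ∈ h, α b i • x (t (σ b, i)) - z‖ < ε) :
    ∀ d ∈ D σ y α, ∀ d' ∈ D σ y α, ∃ d'' ∈ D σ y α, d ⊆ d'' ∧ d' ⊆ d'' := by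
  classical
  intro d _ d' _
  obtain ⟨d'', hd'', h⟩ := covD σ y α hσ P1 (d ∪ d')
  exact ⟨d'', hd'', Finset.subset_union_left.trans h, Finset.subset_union_right.trans h⟩

/-- The Banach space. -/
abbrev EE (ι : Type) : Type := E1 × lp (fun _ : ι × ℕ => ℝ) 1

open Classical in
/-- Unit vectors of the control part. -/
noncomputable def eC (c : ι × ℕ) : lp (fun _ : ι × ℕ => ℝ) 1 := lp.single 1 c (1 : ℝ)

theorem eC_self (c : ι × ℕ) : (eC c : ι × ℕ → ℝ) c = 1 := by
  classical
  unfold eC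
  rw [lp.single_apply_self]

theorem eC_ne {c c' : ι × ℕ} (h : c' ≠ c) : (eC c : ι × ℕ → ℝ) c' = 0 := by
  classical
  unfold eC
  rw [lp.single_apply_ne _ _ _ h]

theorem hasSum_eC (u : lp (fun _ : ι × ℕ => ℝ) 1) : HasSum (fun c => u c • eC c) u := by
  classical
  have h := lp.hasSum_single (E := fun _ : ι × ℕ => ℝ) (p := 1) (by norm_num) u
  have h2 : (fun c => u c • eC c) = fun c => lp.single 1 c (u c) := by
    funext c
    unfold eC
    rw [← lp.single_smul, smul_eq_mul, mul_one]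
  rw [h2]
  convert h

/-- The basis vectors. -/
noncomputable def xI : J ⊕ (ι × ℕ) → EE ι :=
  Sum.elim (fun j => (x (t j), 0)) (fun c => (0, eC c))

theorem sumI (f : J ⊕ (ι × ℕ) → ℝ) (d : Finset (J ⊕ (ι × ℕ))) :
    ∑ i ∈ d, f i • xI i = (∑ j ∈ d.toLeft, f (Sum.inl j) • x (t j),
      ∑ c ∈ d.toRight, f (Sum.inr c) • eC c) := by
  conv_lhs => rw [← Finset.toLeft_disjSum_toRight (u := d), Finset.sum_disjSum]
  apply Prod.ext
  · rw [Prod.fst_add, Prod.fst_sum, Prod.fst_sum]
    simp [xI]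
  · rw [Prod.snd_add, Prod.snd_sum, Prod.snd_sum]
    simp [xI]

theorem hasSum_left {η : J → ℝ} {z : E1} (h : HasSum (fun j => η j • x (t j)) z) :
    HasSum (fun i => Sum.elim η (fun _ => 0) i • (xI i : EE ι)) ((z, 0) : EE ι) := by
  have h2 : HasSum (fun j => ((η j • x (t j), 0) : EE ι)) (z, 0) := h.prodMk hasSum_zero
  have hinl : Function.Injective (Sum.inl : J → J ⊕ (ι × ℕ)) := Sum.inl_injective
  refine (hinl.hasSum_iff ?_).mp ?_
  · intro i hi
    rcases i with j | c
    · exact absurd ⟨j, rfl⟩ hi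
    · rw [Sum.elim_inr, zero_smul]
  · have h3 : (fun i => Sum.elim η (fun _ => 0) i • (xI i : EE ι)) ∘ Sum.inl =
        fun j => ((η j • x (t j), 0) : EE ι) := by
      funext j
      simp [xI]
    rw [h3]
    exact h2

theorem hasSum_right (u : lp (fun _ : ι × ℕ => ℝ) 1) :
    HasSum (fun i => Sum.elim (fun _ => 0) u i • (xI i : EE ι)) ((0, u) : EE ι) := by
  have h2 : HasSum (fun c => ((0, u c • eC c) : EE ι)) (0, u) := hasSum_zero.prodMk (hasSum_eC u)
  have hinr : Function.Injective (Sum.inr : (ι × ℕ) → J ⊕ (ι × ℕ)) := Sum.inr_injective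
  refine (hinr.hasSum_iff ?_).mp ?_
  · intro i hi
    rcases i with j | c
    · rw [Sum.elim_inl, zero_smul]
    · exact absurd ⟨c, rfl⟩ hi
  · have h3 : (fun i => Sum.elim (fun _ => 0) u i • (xI i : EE ι)) ∘ Sum.inr =
        fun c => ((0, u c • eC c) : EE ι) := by
      funext j
      simp [xI]
    rw [h3]
    exact h2

theorem dsum_wild (hσ : Function.Injective σ)
    (P1 : ∀ (b : ι) (F : Finset ℕ) (z : E1) (ε : ℝ), 0 < ε →
        ∃ h : Finset ℕ, Disjoint h F ∧ ‖∑ i ∈ h, α b i • x (t (σ b, i)) - z‖ < ε) (b : ι) :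
    DSum (D σ y α) xI (Sum.elim (aJ σ α b) (fun _ => 0)) (y b, 0) := by
  intro ε hε
  obtain ⟨r, hr⟩ := exists_nat_one_div_lt hε
  obtain ⟨d, hd, hcd⟩ := covD σ y α hσ P1 {Sum.inr (b, r)}
  refine ⟨d, hd, fun d' hd' hdd' => ?_⟩
  rw [sumI]
  have hmem : (b, r) ∈ d'.toRight := by
    rw [Finset.mem_toRight]
    exact hdd' (hcd (Finset.mem_singleton_self _))
  have h1 := hd' _ hmem
  simp only [Sum.elim_inl, Sum.elim_inr, zero_smul, Finset.sum_const_zero]
  have h2 : ((y b, 0) : EE ι) - (∑ j ∈ d'.toLeft, aJ σ α b j • x (t j), 0) =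
      (y b - SS σ α b d'.toLeft, 0) := by
    rw [Prod.mk_sub_mk, sub_zero]
    rfl
  rw [h2, Prod.norm_mk, norm_zero, max_eq_left (norm_nonneg _), norm_sub_rev]
  exact h1.trans hr

/-- Uniqueness: the only representation of `0` is `0`. -/
theorem zero_rep (hσ : Function.Injective σ)
    (P1 : ∀ (b : ι) (F : Finset ℕ) (z : E1) (ε : ℝ), 0 < ε →
        ∃ h : Finset ℕ, Disjoint h F ∧ ‖∑ i ∈ h, α b i • x (t (σ b, i)) - z‖ < ε)
    (P2 : ∀ (b : ι) (N : ℕ), ∃ i, N ≤ i ∧ 1 ≤ |α b i| * t (σ b, i) ^ i)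
    (hlin : ∀ (Y : Finset ι) (l : ι → ℝ), ∑ b ∈ Y, l b • y b ∈ V → ∀ b ∈ Y, l b = 0)
    (f : J ⊕ (ι × ℕ) → ℝ) (hf : DSum (D σ y α) xI f 0) : ∀ i, f i = 0 := by
  classical
  have hcov := covD σ y α hσ P1
  have hdir := dirD σ y α hσ P1
  -- the control part
  have hC : ∀ c, f (Sum.inr c) = 0 := by
    intro c
    by_contra hne
    obtain ⟨d, hd, h1⟩ := hf |f (Sum.inr c)| (abs_pos.mpr hne)
    obtain ⟨d', hd', h2⟩ := hcov (insert (Sum.inr c) d)
    have h3 := h1 d' hd' ((Finset.subset_insert _ _).trans h2)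
    have hc : c ∈ d'.toRight := by
      rw [Finset.mem_toRight]
      exact h2 (Finset.mem_insert_self _ _)
    rw [sumI, zero_sub, norm_neg, Prod.norm_mk] at h3
    have h4 := (le_max_right _ _).trans_lt h3
    have h5 := lp.norm_apply_le_norm (p := 1) (by norm_num)
      (∑ c ∈ d'.toRight, f (Sum.inr c) • eC c) c
    have h6 : (↑(∑ c ∈ d'.toRight, f (Sum.inr c) • eC c : lp (fun _ : ι × ℕ => ℝ) 1) :
        ι × ℕ → ℝ) c = f (Sum.inr c) := by
      rw [lp.coeFn_sum, Finset.sum_apply, Finset.sum_eq_single c]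
      · rw [lp.coeFn_smul, Pi.smul_apply, eC_self, smul_eq_mul, mul_one]
      · intro c' _ hne'
        rw [lp.coeFn_smul, Pi.smul_apply, eC_ne (Ne.symm hne'), smul_zero]
      · intro h; exact absurd hc h
    rw [h6, Real.norm_eq_abs] at h5
    exact absurd (h5.trans_lt h4) (lt_irrefl _)
  set β : J → ℝ := fun j => f (Sum.inl j) with hβ
  obtain ⟨d0, hd0, h0⟩ := hf 1 one_pos
  set g0 := d0.toLeft with hg0
  set c0 := d0.toRight with hc0
  set Y0 := c0.image Prod.fst with hY0
  set R := c0.sup Prod.snd with hR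
  set ρ : ℝ := 1 / ((R : ℝ) + 1) with hρ
  have hρ0 : 0 < ρ := by positivity
  let SB : Finset J → E1 := fun g => ∑ j ∈ g, β j • x (t j)
  have H0 : ∀ g : Finset J, g0 ⊆ g → (∀ b ∈ Y0, ‖SS σ α b g - y b‖ < ρ) → ‖SB g‖ < 1 := by
    intro g hg hY
    have hmem : g.disjSum c0 ∈ D σ y α := by
      intro p hp
      rw [Finset.toRight_disjSum] at hp
      rw [Finset.toLeft_disjSum]
      refine (hY p.1 (Finset.mem_image_of_mem _ hp)).trans_le ?_
      have h1 : p.2 ≤ R := Finset.le_sup (f := Prod.snd) hp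
      have h2 : (p.2 : ℝ) ≤ R := by exact_mod_cast h1
      apply one_div_le_one_div_of_le (by positivity)
      linarith
    have h1 := h0 _ hmem (Finset.subset_disjSum.mpr ⟨hg, Finset.Subset.refl _⟩)
    rw [sumI, zero_sub, norm_neg, Prod.norm_mk, Finset.toLeft_disjSum] at h1
    exact (le_max_left _ _).trans_lt h1
  have H1 : ∀ h : Finset J, Disjoint h g0 → (∀ b ∈ Y0, ‖SS σ α b h‖ < ρ / 2) → ‖SB h‖ < 2 := by
    intro h hd hY
    obtain ⟨v, hvg, hvh, hv⟩ := ext_block σ y α hσ P1 g0 h Y0 (ρ / 2) (half_pos hρ0)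
    have e1 : ‖SB (g0 ∪ v)‖ < 1 := by
      refine H0 _ Finset.subset_union_left fun b hb => ?_
      rw [SS_union σ α b hvg.symm]
      have := hv b hb
      linarith
    have hdisj : Disjoint (g0 ∪ v) h := Finset.disjoint_union_left.mpr ⟨hd.symm, hvh⟩
    have e2 : ‖SB ((g0 ∪ v) ∪ h)‖ < 1 := by
      refine H0 _ (Finset.subset_union_left.trans Finset.subset_union_left) fun b hb => ?_
      rw [SS_union σ α b hdisj, SS_union σ α b hvg.symm]
      have h1 := hv b hb
      have h2 := hY b hb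
      have h3 : SS σ α b g0 + SS σ α b v + SS σ α b h - y b =
          (SS σ α b g0 + SS σ α b v - y b) + SS σ α b h := by abel
      rw [h3]
      have := norm_add_le (SS σ α b g0 + SS σ α b v - y b) (SS σ α b h)
      linarith
    have e3 : SB ((g0 ∪ v) ∪ h) = SB (g0 ∪ v) + SB h := Finset.sum_union hdisj
    have e4 : SB h = SB ((g0 ∪ v) ∪ h) - SB (g0 ∪ v) := by rw [e3]; abel
    rw [e4]
    have := norm_sub_le (SB ((g0 ∪ v) ∪ h)) (SB (g0 ∪ v))
    linarith
  -- rigidity in the blocks of Y0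
  have hblock : ∀ b ∈ Y0, ∃ l : ℝ, Summable fun i => |β (σ b, i) - l * α b i| := by
    intro b hb
    refine rigid (fun i => t (σ b, i)) (fun i => t_pos _) (fun i => t_le_one _) (t_lim (σ b))
      (α b) (fun i => β (σ b, i)) (P1 b) (P2 b)
      ((g0.filter fun j => j.1 = σ b).image Prod.snd) (ρ / 2) (half_pos hρ0) ?_
    intro h hd hsmall
    have h1 := H1 (h.image fun i => (σ b, i)) ?_ ?_
    · have h2 : SB (h.image fun i => (σ b, i)) = ∑ i ∈ h, β (σ b, i) • x (t (σ b, i)) := by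
        refine Finset.sum_image ?_
        intro i _ i' _ hii
        exact (Prod.mk.inj hii).2
      rw [h2] at h1
      exact h1
    · rw [Finset.disjoint_left]
      intro j hj hjg
      rw [Finset.mem_image] at hj
      obtain ⟨i, hi, rfl⟩ := hj
      refine Finset.disjoint_left.mp hd hi ?_
      rw [Finset.mem_image]
      exact ⟨(σ b, i), Finset.mem_filter.mpr ⟨hjg, rfl⟩, rfl⟩
    · intro b' _
      by_cases hbb : b' = b
      · subst hbb
        rw [SS_block]
        exact hsmall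
      · rw [SS_zero σ α b' (g := h.image fun i => (σ b, i))]
        · rw [norm_zero]; exact half_pos hρ0
        · intro j hj
          rw [Finset.mem_image] at hj
          obtain ⟨i, _, rfl⟩ := hj
          exact fun h => hbb (hσ h).symm
  choose! l hl using hblock
  -- the rest is absolutely summable
  have hrest : Summable fun j : J => |if ∃ b ∈ Y0, j.1 = σ b then 0 else β j| := by
    have hsm : ∀ h : Finset J, Disjoint h g0 →
        |∑ j ∈ h, (if ∃ b ∈ Y0, j.1 = σ b then 0 else β j)| ≤ 2 := by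
      intro h hd
      have h1 := H1 (h.filter fun j => ¬ ∃ b ∈ Y0, j.1 = σ b)
        (hd.mono_left (Finset.filter_subset _ _)) (by
          intro b hb
          rw [SS_zero σ α b]
          · rw [norm_zero]; exact half_pos hρ0
          · intro j hj hjb
            exact (Finset.mem_filter.mp hj).2 ⟨b, hb, hjb⟩)
      have h2 := (abs_co_le 0 _).trans h1.le
      have h3 : co 0 (SB (h.filter fun j => ¬ ∃ b ∈ Y0, j.1 = σ b)) =
          ∑ j ∈ h, (if ∃ b ∈ Y0, j.1 = σ b then 0 else β j) := by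
        change co 0 (∑ j ∈ h.filter (fun j => ¬ ∃ b ∈ Y0, j.1 = σ b), β j • x (t j)) = _
        rw [map_sum]
        simp only [map_smul, co_x 0 (t_pos _).le (t_le_one _), w_zero, pow_zero, smul_eq_mul,
          mul_one]
        rw [Finset.sum_filter]
        refine Finset.sum_congr rfl fun j _ => ?_
        by_cases hj : ∃ b ∈ Y0, j.1 = σ b
        · rw [if_neg (not_not.mpr hj), if_pos hj]
        · rw [if_pos hj, if_neg hj]
      rw [h3] at h2
      exact h2
    set γ : J → ℝ := fun j => if ∃ b ∈ Y0, j.1 = σ b then 0 else β j with hγ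
    refine summable_of_sum_le (c := 4 + ∑ j ∈ g0, |γ j|) (fun i => abs_nonneg _) ?_
    intro u
    rw [← Finset.sum_filter_add_sum_filter_not u (fun i => i ∈ g0)]
    have hfirst : ∑ i ∈ u.filter (fun i => i ∈ g0), |γ i| ≤ ∑ i ∈ g0, |γ i| := by
      apply Finset.sum_le_sum_of_subset_of_nonneg
      · intro i hi
        exact (Finset.mem_filter.mp hi).2
      · intro i _ _
        exact abs_nonneg _
    have hsecond : ∑ i ∈ u.filter (fun i => i ∉ g0), |γ i| ≤ 4 := by
      set v := u.filter (fun i => i ∉ g0) with hv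
      have hvd : Disjoint v g0 := by
        rw [Finset.disjoint_left]
        intro i hi
        exact (Finset.mem_filter.mp hi).2
      rw [← Finset.sum_filter_add_sum_filter_not v (fun i => 0 ≤ γ i)]
      have e1 : ∑ i ∈ v.filter (fun i => 0 ≤ γ i), |γ i| ≤ 2 := by
        rw [Finset.sum_congr rfl (fun i hi => abs_of_nonneg (Finset.mem_filter.mp hi).2)]
        exact (le_abs_self _).trans (hsm _ (hvd.mono_left (Finset.filter_subset _ _)))
      have e2 : ∑ i ∈ v.filter (fun i => ¬ 0 ≤ γ i), |γ i| ≤ 2 := by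
        rw [Finset.sum_congr rfl (fun i hi =>
          abs_of_neg (not_le.mp (Finset.mem_filter.mp hi).2)), Finset.sum_neg_distrib]
        exact (neg_le_abs _).trans (hsm _ (hvd.mono_left (Finset.filter_subset _ _)))
      linarith
    linarith
  -- summability of the difference
  set η : J → ℝ := fun j => β j - ∑ b ∈ Y0, l b * aJ σ α b j with hη
  have hηs : Summable fun j => |η j| := by
    have hb : ∀ b ∈ Y0, Summable fun j : J => |if j.1 = σ b then β j - l b * α b j.2 else 0| := by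
      intro b hb
      have hinj : Function.Injective (fun i : ℕ => ((σ b, i) : J)) := by
        intro i i' h
        exact (Prod.mk.inj h).2
      rw [← hinj.summable_iff]
      · refine (hl b hb).congr fun i => ?_
        simp
      · intro j hj
        rw [if_neg, abs_zero]
        intro h
        apply hj
        exact ⟨j.2, Prod.ext h.symm rfl⟩
    have hsum : Summable fun j : J =>
        |if ∃ b ∈ Y0, j.1 = σ b then 0 else β j| +
        ∑ b ∈ Y0, |if j.1 = σ b then β j - l b * α b j.2 else 0| :=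
      hrest.add (summable_sum hb)
    refine Summable.of_nonneg_of_le (fun j => abs_nonneg _) (fun j => ?_) hsum
    by_cases hj : ∃ b ∈ Y0, j.1 = σ b
    · obtain ⟨b, hbY, hjb⟩ := hj
      have h1 : ∑ b' ∈ Y0, l b' * aJ σ α b' j = l b * α b j.2 := by
        rw [Finset.sum_eq_single b]
        · unfold aJ; rw [if_pos hjb]
        · intro b' _ hne
          rw [aJ_ne σ α (fun h => hne (hσ (h.symm.trans hjb))), mul_zero]
        · intro h; exact absurd hbY h
      have h2 : |η j| = |if j.1 = σ b then β j - l b * α b j.2 else 0| := by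
        rw [if_pos hjb]
        change |β j - ∑ b ∈ Y0, l b * aJ σ α b j| = _
        rw [h1]
      rw [h2]
      refine le_add_of_nonneg_of_le (abs_nonneg _) ?_
      exact Finset.single_le_sum
        (f := fun b => |if j.1 = σ b then β j - l b * α b j.2 else 0|)
        (fun i _ => abs_nonneg _) hbY
    · have h1 : ∑ b' ∈ Y0, l b' * aJ σ α b' j = 0 := by
        refine Finset.sum_eq_zero fun b' hb' => ?_
        rw [aJ_ne σ α (fun h => hj ⟨b', hb', h⟩), mul_zero]
      rw [if_neg hj]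
      refine le_add_of_le_of_nonneg ?_ (Finset.sum_nonneg fun _ _ => abs_nonneg _)
      change |β j - ∑ b ∈ Y0, l b * aJ σ α b j| ≤ |β j|
      rw [h1, sub_zero]
  -- compare representations
  set z := ∑' j, η j • x (t j) with hz
  have hne : (D σ y α).Nonempty := ⟨d0, hd0⟩
  have hrep1 : DSum (D σ y α) xI (Sum.elim η (fun _ => 0)) ((z, 0) : EE ι) := by
    exact DSum.of_hasSum hcov (hasSum_left (hasSum_of_abs hηs))
  have hrep2 := DSum.sum hne hdir Y0 (α := fun b i => l b * Sum.elim (aJ σ α b) (fun _ => 0) i)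
    (v := fun b => l b • ((y b, 0) : EE ι))
    (fun b _ => (dsum_wild σ y α hσ P1 b).smul (l b))
  have hrep3 := hrep1.add hdir hrep2
  have hfun : (fun i => Sum.elim η (fun _ => 0) i +
      ∑ b ∈ Y0, l b * Sum.elim (aJ σ α b) (fun _ => 0) i) = f := by
    funext i
    rcases i with j | c
    · simp only [Sum.elim_inl, hη, hβ]
      ring
    · simp [hC c]
  rw [hfun] at hrep3
  have hz0 := hf.unique hdir hrep3
  have hz1 : (0 : E1) = z + ∑ b ∈ Y0, l b • y b := by
    have := congrArg Prod.fst hz0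
    rw [Prod.fst_add, Prod.fst_sum] at this
    exact this
  have hzV : z ∈ V := ⟨η, hηs, hasSum_of_abs hηs⟩
  have hl0 : ∀ b ∈ Y0, l b = 0 := by
    apply hlin
    have : ∑ b ∈ Y0, l b • y b = -z := by
      rw [eq_neg_iff_add_eq_zero, add_comm]
      exact hz1.symm
    rw [this]
    exact V.neg_mem hzV
  have hz2 : z = 0 := by
    rw [Finset.sum_eq_zero (fun b hb => by rw [hl0 b hb, zero_smul]), add_zero] at hz1
    exact hz1.symm
  have hη0 : ∀ j, η j = 0 := by
    apply eq_zero_of_hasSum hηs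
    have := hasSum_of_abs hηs
    rw [← hz, hz2] at this
    exact this
  intro i
  rcases i with j | c
  · have h1 := hη0 j
    have h2 : ∑ b ∈ Y0, l b * aJ σ α b j = 0 :=
      Finset.sum_eq_zero fun b hb => by rw [hl0 b hb, zero_mul]
    have h3 : η j = β j - ∑ b ∈ Y0, l b * aJ σ α b j := rfl
    rw [h3, h2, sub_zero] at h1
    exact h1
  · exact hC c

end construction

end Pool.Agent.V1199.Fr
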