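import Mathlib

set_option autoImplicit false

open Filter Topology

namespace Pool.Agent.V1199.Ham

variable {H : Type*} [NormedAddCommGroup H] [InnerProductSpace ℝ H]

open scoped RealInnerProductSpace

/-- `z` is the weak limit of `v` along `U`. -/
def WL (U : Ultrafilter ℕ) (v : ℕ → H) (z : H) : Prop :=
  ∀ y : H, Tendsto (fun m => ⟪v m, y⟫) U (𝓝 ⟪z, y⟫)

lemma WL.const (U : Ultrafilter ℕ) (c : H) : WL U (fun _ => c) c := fun _ => tendsto_const_nhds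

lemma WL.sub {U : Ultrafilter ℕ} {v w : ℕ → H} {z z' : H} (h : WL U v z) (h' : WL U w z') :
    WL U (fun m => v m - w m) (z - z') := fun y => by
  simpa [inner_sub_left] using (h y).sub (h' y)

lemma WL.sum_sq_le {U : Ultrafilter ℕ} {ι : Type*} (S : Finset ι) {v : ℕ → ι → H} {z : ι → H}
    (h : ∀ p ∈ S, WL U (fun m => v m p) (z p)) {R : ℝ}
    (hR : ∀ᶠ m in (U : Filter ℕ), ∑ p ∈ S, ‖v m p‖ ^ 2 ≤ R) :
    ∑ p ∈ S, ‖z p‖ ^ 2 ≤ R := by
  have h1 : Tendsto (fun m => ∑ p ∈ S, ⟪v m p, z p⟫) U (𝓝 (∑ p ∈ S, ⟪z p, z p⟫)) :=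
    tendsto_finset_sum _ (fun p hp => h p hp (z p))
  have h2 : Tendsto (fun m => 2 * ∑ p ∈ S, ⟪v m p, z p⟫ - ∑ p ∈ S, ‖z p‖ ^ 2) U
      (𝓝 (2 * ∑ p ∈ S, ⟪z p, z p⟫ - ∑ p ∈ S, ‖z p‖ ^ 2)) := (h1.const_mul 2).sub_const _
  have h3 : 2 * ∑ p ∈ S, ⟪z p, z p⟫ - ∑ p ∈ S, ‖z p‖ ^ 2 ≤ R := by
    refine le_of_tendsto h2 (hR.mono fun m hm => ?_)
    have h4 : ∀ p ∈ S, 2 * ⟪v m p, z p⟫ ≤ ‖v m p‖ ^ 2 + ‖z p‖ ^ 2 := by
      intro p _
      have h5 := real_inner_le_norm (v m p) (z p)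
      nlinarith [sq_nonneg (‖v m p‖ - ‖z p‖)]
    have h6 := Finset.sum_le_sum h4
    rw [Finset.sum_add_distrib, ← Finset.mul_sum] at h6
    linarith
  have h7 : ∑ p ∈ S, ⟪z p, z p⟫ = ∑ p ∈ S, ‖z p‖ ^ 2 :=
    Finset.sum_congr rfl (fun p _ => real_inner_self_eq_norm_sq (z p))
  rw [h7] at h3
  linarith

lemma WL.sq_le {U : Ultrafilter ℕ} {v : ℕ → H} {z : H} (h : WL U v z) {R : ℝ}
    (hR : ∀ᶠ m in (U : Filter ℕ), ‖v m‖ ^ 2 ≤ R) : ‖z‖ ^ 2 ≤ R := by
  have := WL.sum_sq_le (U := U) (S := {()}) (v := fun m _ => v m) (z := fun _ => z)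
    (fun _ _ => h) (R := R) (by simpa using hR)
  simpa using this

lemma ultralimit {X : Type*} [NormedAddCommGroup X] [NormedSpace ℝ X] {ι : Type*}
    (U : Ultrafilter ι) (f : ι → X →L[ℝ] ℝ) (hf : ∀ i, ‖f i‖ ≤ 1) :
    ∃ q : X →L[ℝ] ℝ, ‖q‖ ≤ 1 ∧ ∀ v, Tendsto (fun i => f i v) U (𝓝 (q v)) := by
  have hc := WeakDual.isCompact_closedBall (𝕜 := ℝ) (E := X) (0 : StrongDual ℝ X) 1
  have h1 : ((U.map (fun i => StrongDual.toWeakDual (f i)) : Ultrafilter (WeakDual ℝ X)) :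
      Filter (WeakDual ℝ X)) ≤
      𝓟 (WeakDual.toStrongDual ⁻¹' Metric.closedBall (0 : StrongDual ℝ X) 1) := by
    rw [le_principal_iff]
    refine Filter.mem_map.2 (Filter.univ_mem' fun i => ?_)
    simpa using hf i
  obtain ⟨q, hq, hq2⟩ := hc.ultrafilter_le_nhds _ h1
  refine ⟨WeakDual.toStrongDual q, by simpa using hq, fun v => ?_⟩
  have h2 : Tendsto (fun i => StrongDual.toWeakDual (f i)) U (𝓝 q) := by
    rw [Tendsto]
    exact hq2
  exact ((WeakDual.eval_continuous v).tendsto q).comp h2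

lemma exists_WL [CompleteSpace H] (U : Ultrafilter ℕ) {v : ℕ → H} {R : ℝ}
    (hR : ∀ᶠ m in (U : Filter ℕ), ‖v m‖ ≤ R) : ∃ z, WL U v z := by
  classical
  have hR0 : 0 ≤ R := by
    obtain ⟨m, hm⟩ := hR.exists
    exact (norm_nonneg _).trans hm
  let v' : ℕ → H := fun m => if ‖v m‖ ≤ R then v m else 0
  have hv' : ∀ m, ‖v' m‖ ≤ R + 1 := by
    intro m
    simp only [v']
    split_ifs with h
    · linarith
    · simp; linarith
  let f : ℕ → H →L[ℝ] ℝ := fun m => (R + 1)⁻¹ • (InnerProductSpace.toDual ℝ H (v' m))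
  have hf : ∀ m, ‖f m‖ ≤ 1 := by
    intro m
    simp only [f]
    rw [norm_smul, norm_inv, Real.norm_of_nonneg (by linarith : 0 ≤ R + 1),
      LinearIsometryEquiv.norm_map, inv_mul_le_iff₀ (by linarith)]
    linarith [hv' m]
  obtain ⟨q, _, hq⟩ := ultralimit U f hf
  refine ⟨(R + 1) • (InnerProductSpace.toDual ℝ H).symm q, fun y => ?_⟩
  have h1 := (hq y).const_mul (R + 1)
  have h2 : (R + 1) * q y = ⟪(R + 1) • (InnerProductSpace.toDual ℝ H).symm q, y⟫ := by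
    rw [inner_smul_left, InnerProductSpace.toDual_symm_apply]
    simp
  rw [← h2]
  refine h1.congr' ?_
  filter_upwards [hR] with m hm
  have h3 : v' m = v m := by simp [v', hm]
  simp only [f, ContinuousLinearMap.smul_apply, InnerProductSpace.toDual_apply_apply, smul_eq_mul, h3]
  field_simp

open Classical in
/-- the weak limit -/
noncomputable def wl (U : Ultrafilter ℕ) (v : ℕ → H) : H :=
  if h : ∃ z, WL U v z then h.choose else 0

lemma wl_spec [CompleteSpace H] (U : Ultrafilter ℕ) {v : ℕ → H} {R : ℝ}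
    (hR : ∀ᶠ m in (U : Filter ℕ), ‖v m‖ ≤ R) : WL U v (wl U v) := by
  have h := exists_WL U hR
  rw [wl, dif_pos h]
  exact h.choose_spec

/-- finite families of disjoint intervals -/
def Chn (S : Finset (ℕ × ℕ)) : Prop :=
  (∀ p ∈ S, p.1 < p.2) ∧ ∀ p ∈ S, ∀ q ∈ S, p ≠ q → p.2 ≤ q.1 ∨ q.2 ≤ p.1

lemma Chn.subset {S S' : Finset (ℕ × ℕ)} (h : Chn S) (h' : S' ⊆ S) : Chn S' :=
  ⟨fun p hp => h.1 p (h' hp), fun p hp q hq => h.2 p (h' hp) q (h' hq)⟩

lemma chn_singleton {a b : ℕ} (h : a < b) : Chn {(a, b)} := by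
  constructor
  · intro p hp
    rw [Finset.mem_singleton] at hp
    subst hp
    exact h
  · intro p hp q hq hpq
    rw [Finset.mem_singleton] at hp hq
    exact absurd (hp.trans hq.symm) hpq

lemma chn_empty : Chn ∅ := ⟨by simp, by simp⟩

/-- square variation of a path along a family of intervals -/
noncomputable def Q (S : Finset (ℕ × ℕ)) (x : ℕ → H) : ℝ := ∑ p ∈ S, ‖x p.1 - x p.2‖ ^ 2

lemma Q_nonneg (S : Finset (ℕ × ℕ)) (x : ℕ → H) : 0 ≤ Q S x :=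
  Finset.sum_nonneg fun _ _ => sq_nonneg _

lemma Q_mono {S S' : Finset (ℕ × ℕ)} (h : S ⊆ S') (x : ℕ → H) : Q S x ≤ Q S' x :=
  Finset.sum_le_sum_of_subset_of_nonneg h fun _ _ _ => sq_nonneg _

/-- `x` has norm at most `L` -/
def NB (L : ℝ) (x : ℕ → H) : Prop := (∀ S, Chn S → Q S x ≤ L ^ 2) ∧ ∀ t, ‖x t‖ ^ 2 ≤ L ^ 2

lemma NB_of_WL {U : Ultrafilter ℕ} {x : ℕ → ℕ → H} {z : ℕ → H} {L : ℝ}
    (h : ∀ t, WL U (fun m => x m t) (z t)) (hL : ∀ᶠ m in (U : Filter ℕ), NB L (x m)) :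
    NB L z := by
  constructor
  · intro S hS
    refine WL.sum_sq_le (U := U) S (v := fun m p => x m p.1 - x m p.2)
      (z := fun p => z p.1 - z p.2) (fun p _ => (h p.1).sub (h p.2)) ?_
    filter_upwards [hL] with m hm
    exact hm.1 S hS
  · intro t
    exact (h t).sq_le (hL.mono fun m hm => hm.2 t)

lemma tail {x : ℕ → H} {R : ℝ} (hx : ∀ S, Chn S → Q S x ≤ R) {ε : ℝ} (hε : 0 < ε) :
    ∃ T : ℕ, ∀ S, Chn S → (∀ p ∈ S, T ≤ p.1) → Q S x ≤ ε := by
  classical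
  let A : Set ℝ := {r | ∃ S, Chn S ∧ Q S x = r}
  have hA : BddAbove A := ⟨R, by rintro r ⟨S, hS, rfl⟩; exact hx S hS⟩
  have hne : A.Nonempty := ⟨_, ∅, chn_empty, rfl⟩
  obtain ⟨r, ⟨S0, hS0, rfl⟩, hr⟩ := exists_lt_of_lt_csSup hne (show sSup A - ε < sSup A by linarith)
  refine ⟨S0.sup (fun p => p.2), fun S hS hT => ?_⟩
  have hle : ∀ p ∈ S0, p.2 ≤ S0.sup (fun p => p.2) := fun p hp =>
    Finset.le_sup (f := fun p : ℕ × ℕ => p.2) hp
  have hdisj : Disjoint S0 S := by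
    rw [Finset.disjoint_left]
    intro p hp hp'
    have h1 := hle p hp
    have h2 := hT p hp'
    have h3 := hS.1 p hp'
    omega
  have hU : Chn (S0 ∪ S) := by
    constructor
    · intro p hp
      rcases Finset.mem_union.1 hp with h | h
      · exact hS0.1 p h
      · exact hS.1 p h
    · intro p hp q hq hpq
      rcases Finset.mem_union.1 hp with h | h <;> rcases Finset.mem_union.1 hq with h' | h'
      · exact hS0.2 p h q h' hpq
      · left
        exact (hle p h).trans (hT q h')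
      · right
        exact (hle q h').trans (hT p h)
      · exact hS.2 p h q h' hpq
  have h1 : Q (S0 ∪ S) x ≤ sSup A := le_csSup hA ⟨_, hU, rfl⟩
  have h2 : Q (S0 ∪ S) x = Q S0 x + Q S x := Finset.sum_union hdisj
  linarith

/-- weak limit in the last variable -/
noncomputable def Lam (U : Ultrafilter ℕ) (G : List ℕ → ℕ → H) : List ℕ → ℕ → H :=
  fun s t => wl U (fun m => G (m :: s) t)

/-- value at infinity -/
noncomputable def Ev (U : Ultrafilter ℕ) (G : List ℕ → ℕ → H) : List ℕ → ℕ → H :=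
  fun s _ => wl U (fun t => G s t)

/-- decreasing lists -/
abbrev Dec (s : List ℕ) : Prop := s.Pairwise (· > ·)

def BdP (R : ℝ) (i : ℕ) (G : List ℕ → ℕ → H) : Prop :=
  ∀ s, s.length = i → Dec s → ∀ t, ‖G s t‖ ≤ R

def LipP (L : ℝ) (i : ℕ) (G : List ℕ → ℕ → H) : Prop :=
  ∀ t s m m', (t ++ m :: s).length = i → Dec (t ++ m :: s) → Dec (t ++ m' :: s) →
    NB L (G (t ++ m :: s) - G (t ++ m' :: s))

lemma ev_gt {U : Ultrafilter ℕ} (hU : (U : Filter ℕ) ≤ atTop) (s : List ℕ) :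
    ∀ᶠ m in (U : Filter ℕ), ∀ x ∈ s, x < m := by
  induction s with
  | nil => simp
  | cons a s ih =>
    filter_upwards [ih, hU (eventually_gt_atTop a)] with m h1 h2
    intro x hx
    rcases List.mem_cons.1 hx with rfl | hx
    · exact h2
    · exact h1 x hx

lemma ev_dec {U : Ultrafilter ℕ} (hU : (U : Filter ℕ) ≤ atTop) {s : List ℕ} (hs : Dec s) :
    ∀ᶠ m in (U : Filter ℕ), Dec (m :: s) := by
  filter_upwards [ev_gt hU s] with m hm
  exact List.pairwise_cons.2 ⟨fun x hx => hm x hx, hs⟩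

variable [CompleteSpace H]

lemma Lam_spec {U : Ultrafilter ℕ} (hU : (U : Filter ℕ) ≤ atTop) {G : List ℕ → ℕ → H} {R : ℝ} {i : ℕ}
    (hG : BdP R (i + 1) G) {s : List ℕ} (hs : s.length = i) (hd : Dec s) (t : ℕ) :
    WL U (fun m => G (m :: s) t) (Lam U G s t) := by
  refine wl_spec U (R := R) ?_
  filter_upwards [ev_dec hU hd] with m hm
  exact hG _ (by simp [hs]) hm t

lemma Lam_bd {U : Ultrafilter ℕ} (hU : (U : Filter ℕ) ≤ atTop) {G : List ℕ → ℕ → H} {R : ℝ} {i : ℕ}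
    (hG : BdP R (i + 1) G) : BdP R i (Lam U G) := by
  intro s hs hd t
  have hR0 : 0 ≤ R := by
    obtain ⟨m, hm⟩ := (ev_dec hU hd).exists
    exact (norm_nonneg _).trans (hG (m :: s) (by simp [hs]) hm t)
  have h1 := (Lam_spec hU hG hs hd t).sq_le (R := R ^ 2) (by
    filter_upwards [ev_dec hU hd] with m hm
    exact pow_le_pow_left₀ (norm_nonneg _) (hG _ (by simp [hs]) hm t) 2)
  exact (pow_le_pow_iff_left₀ (norm_nonneg _) hR0 two_ne_zero).1 h1

lemma Lam_lip {U : Ultrafilter ℕ} (hU : (U : Filter ℕ) ≤ atTop) {G : List ℕ → ℕ → H} {R L : ℝ}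
    {i : ℕ} (hG : BdP R (i + 1) G) (hL : LipP L (i + 1) G) : LipP L i (Lam U G) := by
  intro t s m m' hlen h1 h2
  have hlen' : (t ++ m' :: s).length = i := by simpa using hlen
  refine NB_of_WL (U := U) (x := fun n => G (n :: (t ++ m :: s)) - G (n :: (t ++ m' :: s)))
    (fun τ => (Lam_spec hU hG hlen h1 τ).sub (Lam_spec hU hG hlen' h2 τ)) ?_
  filter_upwards [ev_dec hU h1, ev_dec hU h2] with n hn1 hn2
  exact hL (n :: t) s m m' (by simpa using hlen) hn1 hn2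

lemma Ev_spec {U : Ultrafilter ℕ} {G : List ℕ → ℕ → H} {R : ℝ} {i : ℕ}
    (hG : BdP R i G) {s : List ℕ} (hs : s.length = i) (hd : Dec s) (t : ℕ) :
    WL U (fun τ => G s τ) (Ev U G s t) :=
  wl_spec U (R := R) (Eventually.of_forall fun τ => hG s hs hd τ)

lemma Ev_bd {U : Ultrafilter ℕ} {G : List ℕ → ℕ → H} {R : ℝ} {i : ℕ}
    (hG : BdP R i G) : BdP R i (Ev U G) := by
  intro s hs hd t
  have hR0 : 0 ≤ R := (norm_nonneg _).trans (hG s hs hd 0)
  have h1 := (Ev_spec (U := U) hG hs hd t).sq_le (R := R ^ 2) (Eventually.of_forall fun τ =>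
    pow_le_pow_left₀ (norm_nonneg _) (hG s hs hd τ) 2)
  exact (pow_le_pow_iff_left₀ (norm_nonneg _) hR0 two_ne_zero).1 h1

lemma Ev_lip {U : Ultrafilter ℕ} {G : List ℕ → ℕ → H} {R L : ℝ}
    {i : ℕ} (hG : BdP R i G) (hL : LipP L i G) : LipP L i (Ev U G) := by
  intro t s m m' hlen h1 h2
  have hlen' : (t ++ m' :: s).length = i := by simpa using hlen
  have h3 := hL t s m m' hlen h1 h2
  have h4 : ∀ τ, ‖(Ev U G (t ++ m :: s) - Ev U G (t ++ m' :: s)) τ‖ ^ 2 ≤ L ^ 2 := fun τ =>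
    ((Ev_spec (U := U) hG hlen h1 τ).sub (Ev_spec (U := U) hG hlen' h2 τ)).sq_le
      (Eventually.of_forall fun τ' => h3.2 τ')
  refine ⟨fun S hS => ?_, h4⟩
  have h5 : Q S (Ev U G (t ++ m :: s) - Ev U G (t ++ m' :: s)) = 0 := by
    refine Finset.sum_eq_zero fun p _ => ?_
    have : (Ev U G (t ++ m :: s) - Ev U G (t ++ m' :: s)) p.1
        - (Ev U G (t ++ m :: s) - Ev U G (t ++ m' :: s)) p.2 = 0 := by
      simp [Ev]
    rw [this]
    simp
  rw [h5]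
  positivity

lemma incr {U : Ultrafilter ℕ} (hU : (U : Filter ℕ) ≤ atTop) {G : List ℕ → ℕ → H} {R L : ℝ} {i : ℕ}
    (hG : BdP R (i + 1) G) (hL : LipP L (i + 1) G) {s : List ℕ} (hs : s.length = i) (hd : Dec s) :
    ∀ᶠ m in (U : Filter ℕ), NB L (G (m :: s) - Lam U G s) := by
  filter_upwards [ev_dec hU hd] with m hm
  refine NB_of_WL (U := U) (x := fun m' => G (m :: s) - G (m' :: s))
    (fun t => (WL.const U _).sub (Lam_spec hU hG hs hd t)) ?_
  filter_upwards [ev_dec hU hd] with m' hm'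
  exact hL [] s m m' (by simpa using hs) hm hm'

lemma incr_small {U : Ultrafilter ℕ} (hU : (U : Filter ℕ) ≤ atTop) {G : List ℕ → ℕ → H} {R : ℝ}
    {i : ℕ} (hG : BdP R (i + 1) G) {s : List ℕ} (hs : s.length = i) (hd : Dec s)
    (t : ℕ) (y : H) {ε : ℝ} (hε : 0 < ε) :
    ∀ᶠ m in (U : Filter ℕ), |⟪(G (m :: s) - Lam U G s) t, y⟫| ≤ ε := by
  have h1 := ((Lam_spec hU hG hs hd t).sub (WL.const U (Lam U G s t))) y
  simp only [sub_self, inner_zero_left] at h1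
  have h2 := h1.eventually (Metric.closedBall_mem_nhds (0 : ℝ) hε)
  filter_upwards [h2] with m hm
  simpa using hm

end Pool.Agent.V1199.Ham
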