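import Pool.Agent.V1199.HamA

set_option autoImplicit false

open Filter Topology

namespace Pool.Agent.V1199.Ham

variable {H : Type*} [NormedAddCommGroup H] [InnerProductSpace ℝ H]

open scoped RealInnerProductSpace

lemma cross1 {D w : ℕ → H} {T : ℕ} {η : ℝ}
    (hsm : ∀ t ≤ T, ∀ t' ≤ T, |⟪w t, D t'⟫| ≤ η) {S : Finset (ℕ × ℕ)}
    (hS : Chn S) (hT : ∀ p ∈ S, p.2 ≤ T) :
    ∑ p ∈ S, ⟪D p.1 - D p.2, w p.1 - w p.2⟫ ≤ (T + 1) ^ 2 * (4 * η) := by
  have hη : 0 ≤ η := (abs_nonneg _).trans (hsm 0 (Nat.zero_le _) 0 (Nat.zero_le _))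
  have h1 : ∀ p ∈ S, ⟪D p.1 - D p.2, w p.1 - w p.2⟫ ≤ 4 * η := by
    intro p hp
    have h2 := hT p hp
    have h3 : p.1 ≤ T := (hS.1 p hp).le.trans h2
    rw [real_inner_comm, inner_sub_left, inner_sub_right, inner_sub_right]
    have a1 := abs_le.1 (hsm p.1 h3 p.1 h3)
    have a2 := abs_le.1 (hsm p.1 h3 p.2 h2)
    have a3 := abs_le.1 (hsm p.2 h2 p.1 h3)
    have a4 := abs_le.1 (hsm p.2 h2 p.2 h2)
    linarith [a1.1, a1.2, a2.1, a2.2, a3.1, a3.2, a4.1, a4.2]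
  have h4 : S ⊆ Finset.range (T + 1) ×ˢ Finset.range (T + 1) := by
    intro p hp
    have h2 := hT p hp
    have h3 : p.1 ≤ T := (hS.1 p hp).le.trans h2
    rw [Finset.mem_product, Finset.mem_range, Finset.mem_range]
    omega
  have h5 : (S.card : ℝ) ≤ (T + 1) ^ 2 := by
    have := Finset.card_le_card h4
    rw [Finset.card_product, Finset.card_range] at this
    calc (S.card : ℝ) ≤ (((T + 1) * (T + 1) : ℕ) : ℝ) := by exact_mod_cast this
      _ = (T + 1) ^ 2 := by push_cast; ring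
  calc ∑ p ∈ S, ⟪D p.1 - D p.2, w p.1 - w p.2⟫ ≤ ∑ _p ∈ S, 4 * η := Finset.sum_le_sum h1
    _ = S.card * (4 * η) := by rw [Finset.sum_const, nsmul_eq_mul]
    _ ≤ (T + 1) ^ 2 * (4 * η) := by gcongr

lemma cross2 {D w : ℕ → H} {L : ℝ} (S : Finset (ℕ × ℕ))
    (hD : Q S D ≤ 1 / (64 * (L ^ 2 + 1))) (hw : Q S w ≤ 4 * L ^ 2) :
    ∑ p ∈ S, ⟪D p.1 - D p.2, w p.1 - w p.2⟫ ≤ 1 / 4 := by
  set lam : ℝ := 16 * (L ^ 2 + 1) with hlam
  have hl : 0 < lam := by positivity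
  have h1 : ∀ p ∈ S, ⟪D p.1 - D p.2, w p.1 - w p.2⟫ ≤
      (lam / 2) * ‖D p.1 - D p.2‖ ^ 2 + (1 / (2 * lam)) * ‖w p.1 - w p.2‖ ^ 2 := by
    intro p _
    have h2 := real_inner_le_norm (D p.1 - D p.2) (w p.1 - w p.2)
    have h3 : 0 ≤ (1 / (2 * lam)) * (lam * ‖D p.1 - D p.2‖ - ‖w p.1 - w p.2‖) ^ 2 := by positivity
    have h4 : (1 / (2 * lam)) * (lam * ‖D p.1 - D p.2‖ - ‖w p.1 - w p.2‖) ^ 2 =
        (lam / 2) * ‖D p.1 - D p.2‖ ^ 2 + (1 / (2 * lam)) * ‖w p.1 - w p.2‖ ^ 2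
          - ‖D p.1 - D p.2‖ * ‖w p.1 - w p.2‖ := by
      field_simp
      ring
    linarith
  have h2 := Finset.sum_le_sum h1
  rw [Finset.sum_add_distrib, ← Finset.mul_sum, ← Finset.mul_sum] at h2
  have h3 : (lam / 2) * Q S D ≤ (lam / 2) * (1 / (64 * (L ^ 2 + 1))) := by gcongr
  have h4 : (1 / (2 * lam)) * Q S w ≤ (1 / (2 * lam)) * (4 * L ^ 2) := by gcongr
  have h5 : (lam / 2) * (1 / (64 * (L ^ 2 + 1))) = 1 / 8 := by
    rw [hlam]; field_simp; norm_num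
  have h6 : (1 / (2 * lam)) * (4 * L ^ 2) ≤ 1 / 8 := by
    rw [hlam, div_mul_eq_mul_div, one_mul, div_le_iff₀ (by positivity)]
    nlinarith [sq_nonneg L]
  unfold Q at h3 h4
  linarith

lemma cross3 {D w : ℕ → H} {T : ℕ} {B L : ℝ} (hB : ∀ t, ‖D t‖ ≤ B) (hL : 0 ≤ L)
    (hw : NB (2 * L) w) {S : Finset (ℕ × ℕ)} (hS : Chn S) (h1 : ∀ p ∈ S, p.1 < T)
    (h2 : ∀ p ∈ S, T < p.2) :
    ∑ p ∈ S, ⟪D p.1 - D p.2, w p.1 - w p.2⟫ ≤ 4 * B * L := by
  have hB0 : 0 ≤ B := (norm_nonneg _).trans (hB 0)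
  have hcard : S.card ≤ 1 := by
    rw [Finset.card_le_one]
    intro p hp q hq
    by_contra hne
    have a1 := h1 p hp
    have a2 := h2 p hp
    have a3 := h1 q hq
    have a4 := h2 q hq
    rcases hS.2 p hp q hq hne with h | h <;> omega
  have h3 : ∀ p ∈ S, ⟪D p.1 - D p.2, w p.1 - w p.2⟫ ≤ 4 * B * L := by
    intro p hp
    have h4 := real_inner_le_norm (D p.1 - D p.2) (w p.1 - w p.2)
    have h5 : ‖D p.1 - D p.2‖ ≤ 2 * B := by
      have := norm_sub_le (D p.1) (D p.2)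
      linarith [hB p.1, hB p.2]
    have h6 : ‖w p.1 - w p.2‖ ≤ 2 * L := by
      have h7 := hw.1 {(p.1, p.2)} (chn_singleton (hS.1 p hp))
      simp only [Q, Finset.sum_singleton] at h7
      exact (pow_le_pow_iff_left₀ (norm_nonneg _) (by positivity) two_ne_zero).1 h7
    calc ⟪D p.1 - D p.2, w p.1 - w p.2⟫ ≤ ‖D p.1 - D p.2‖ * ‖w p.1 - w p.2‖ := h4
      _ ≤ (2 * B) * (2 * L) := by gcongr
      _ = 4 * B * L := by ring
  calc ∑ p ∈ S, ⟪D p.1 - D p.2, w p.1 - w p.2⟫ ≤ ∑ _p ∈ S, 4 * B * L := Finset.sum_le_sum h3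
    _ = S.card * (4 * B * L) := by rw [Finset.sum_const, nsmul_eq_mul]
    _ ≤ 1 * (4 * B * L) := by
      gcongr
      exact_mod_cast hcard
    _ = 4 * B * L := one_mul _

lemma Q_add_le {D w : ℕ → H} {T : ℕ} {B L : ℝ} (hB : ∀ t, ‖D t‖ ≤ B) (hL : 0 ≤ L)
    (hw : NB (2 * L) w)
    (hT : ∀ S, Chn S → (∀ p ∈ S, T ≤ p.1) → Q S D ≤ 1 / (64 * (L ^ 2 + 1)))
    (hsm : ∀ t ≤ T, ∀ t' ≤ T, |⟪w t, D t'⟫| ≤ 1 / (32 * ((T : ℝ) + 1) ^ 2))
    {S : Finset (ℕ × ℕ)} (hS : Chn S) : Q S (D + w) ≤ Q S D + 4 * L ^ 2 + 8 * B * L + 1 := by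
  classical
  have h1 : Q S (D + w) = Q S D + Q S w + 2 * ∑ p ∈ S, ⟪D p.1 - D p.2, w p.1 - w p.2⟫ := by
    unfold Q
    rw [Finset.mul_sum, ← Finset.sum_add_distrib, ← Finset.sum_add_distrib]
    refine Finset.sum_congr rfl fun p _ => ?_
    have h2 : (D + w) p.1 - (D + w) p.2 = (D p.1 - D p.2) + (w p.1 - w p.2) := by
      simp only [Pi.add_apply]; abel
    rw [h2, norm_add_sq_real]
    ring
  have hw4 : ∀ S', Chn S' → Q S' w ≤ 4 * L ^ 2 := fun S' hS' => by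
    have := hw.1 S' hS'
    linarith [show (2 * L) ^ 2 = 4 * L ^ 2 by ring]
  have h2 := Finset.sum_filter_add_sum_filter_not S (fun p : ℕ × ℕ => p.2 ≤ T)
    (fun p => ⟪D p.1 - D p.2, w p.1 - w p.2⟫)
  have h3 := Finset.sum_filter_add_sum_filter_not (S.filter (fun p : ℕ × ℕ => ¬ p.2 ≤ T))
    (fun p : ℕ × ℕ => T ≤ p.1) (fun p => ⟪D p.1 - D p.2, w p.1 - w p.2⟫)
  have c1 := cross1 (D := D) (w := w) hsm (S := S.filter (fun p : ℕ × ℕ => p.2 ≤ T))
    (hS.subset (Finset.filter_subset _ _)) (fun p hp => (Finset.mem_filter.1 hp).2)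
  have hS2 : Chn ((S.filter (fun p : ℕ × ℕ => ¬ p.2 ≤ T)).filter (fun p : ℕ × ℕ => T ≤ p.1)) :=
    hS.subset ((Finset.filter_subset _ _).trans (Finset.filter_subset _ _))
  have c2 := cross2 (D := D) (w := w) (L := L)
    ((S.filter (fun p : ℕ × ℕ => ¬ p.2 ≤ T)).filter (fun p : ℕ × ℕ => T ≤ p.1))
    (hT _ hS2 (fun p hp => (Finset.mem_filter.1 hp).2)) (hw4 _ hS2)
  have c3 := cross3 (D := D) (w := w) (T := T) hB hL hw
    (S := (S.filter (fun p : ℕ × ℕ => ¬ p.2 ≤ T)).filter (fun p : ℕ × ℕ => ¬ T ≤ p.1))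
    (hS.subset ((Finset.filter_subset _ _).trans (Finset.filter_subset _ _)))
    (fun p hp => not_le.1 (Finset.mem_filter.1 hp).2)
    (fun p hp => not_le.1 (Finset.mem_filter.1 (Finset.mem_filter.1 hp).1).2)
  have c1' : ((T : ℝ) + 1) ^ 2 * (4 * (1 / (32 * ((T : ℝ) + 1) ^ 2))) = 1 / 8 := by
    field_simp
    norm_num
  rw [c1'] at c1
  have := hw4 S hS
  rw [h1]
  linarith

variable [CompleteSpace H]

/-- iterated weak limits -/
noncomputable def Gd (U : Ultrafilter ℕ) (F : List ℕ → ℕ → H) : ℕ → List ℕ → ℕ → H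
  | 0 => F
  | d + 1 => Lam U (Gd U F d)

noncomputable def He (U : Ultrafilter ℕ) (F : List ℕ → ℕ → H) (d : ℕ) : ℕ → List ℕ → ℕ → H
  | 0 => Ev U (Gd U F d)
  | e + 1 => Lam U (He U F d e)

variable {U : Ultrafilter ℕ} {F : List ℕ → ℕ → H} {R L : ℝ} {K : ℕ}

lemma Gd_bd (hU : (U : Filter ℕ) ≤ atTop) (hF : BdP R K F) :
    ∀ d i, i + d = K → BdP R i (Gd U F d) := by
  intro d
  induction d with
  | zero => intro i hi; obtain rfl : i = K := by omega
            exact hF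
  | succ d ih => intro i hi; exact Lam_bd hU (ih (i + 1) (by omega))

lemma Gd_lip (hU : (U : Filter ℕ) ≤ atTop) (hF : BdP R K F) (hL : LipP L K F) :
    ∀ d i, i + d = K → LipP L i (Gd U F d) := by
  intro d
  induction d with
  | zero => intro i hi; obtain rfl : i = K := by omega
            exact hL
  | succ d ih => intro i hi; exact Lam_lip hU (Gd_bd hU hF d (i + 1) (by omega)) (ih (i + 1) (by omega))

lemma He_bd (hU : (U : Filter ℕ) ≤ atTop) (hF : BdP R K F) (d : ℕ) :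
    ∀ e i, i + e + d = K → BdP R i (He U F d e) := by
  intro e
  induction e with
  | zero => intro i hi; exact Ev_bd (Gd_bd hU hF d i (by omega))
  | succ e ih => intro i hi; exact Lam_bd hU (ih (i + 1) (by omega))

lemma He_lip (hU : (U : Filter ℕ) ≤ atTop) (hF : BdP R K F) (hL : LipP L K F) (d : ℕ) :
    ∀ e i, i + e + d = K → LipP L i (He U F d e) := by
  intro e
  induction e with
  | zero => intro i hi; exact Ev_lip (Gd_bd hU hF d i (by omega)) (Gd_lip hU hF hL d i (by omega))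
  | succ e ih => intro i hi; exact Lam_lip hU (He_bd hU hF d e (i + 1) (by omega)) (ih (i + 1) (by omega))

/-- the good choices of the next entry -/
lemma cond_ev (hU : (U : Filter ℕ) ≤ atTop) (hF : BdP R K F) (hL : LipP L K F) {a d : ℕ}
    (had : a + (d + 1) = K) {s : List ℕ} (hs : s.length = a) (hd : Dec s) (D : ℕ → H)
    (v : ℕ → ℕ → H) (T : ℕ) {η : ℝ} (hη : 0 < η) :
    ∀ᶠ m in (U : Filter ℕ), NB L (Gd U F d (m :: s) - Gd U F (d + 1) s) ∧
      (∀ t ≤ T, ∀ t' ≤ T, |⟪(Gd U F d (m :: s) - Gd U F (d + 1) s) t, D t'⟫| ≤ η) ∧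
      (∀ e ∈ Finset.range (K + 1), ∀ d' ∈ Finset.range (K + 1), a + 1 + e + d' = K →
        NB L (He U F d' e (m :: s) - He U F d' (e + 1) s) ∧
        |⟪(He U F d' e (m :: s) - He U F d' (e + 1) s) 0, v e d'⟫| ≤ η) := by
  have hG := Gd_bd hU hF d (a + 1) (by omega)
  have hGL := Gd_lip hU hF hL d (a + 1) (by omega)
  refine (incr hU hG hGL hs hd).and (Eventually.and ?_ ?_)
  · have h1 : ∀ᶠ m in (U : Filter ℕ), ∀ t ∈ Finset.range (T + 1), ∀ t' ∈ Finset.range (T + 1),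
        |⟪(Gd U F d (m :: s) - Gd U F (d + 1) s) t, D t'⟫| ≤ η := by
      rw [Filter.eventually_all_finset]
      intro t _
      rw [Filter.eventually_all_finset]
      intro t' _
      exact incr_small hU hG hs hd t (D t') hη
    filter_upwards [h1] with m hm t ht t' ht'
    exact hm t (Finset.mem_range.2 (by omega)) t' (Finset.mem_range.2 (by omega))
  · rw [Filter.eventually_all_finset]
    intro e _
    rw [Filter.eventually_all_finset]
    intro d' _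
    by_cases h : a + 1 + e + d' = K
    · have hH := He_bd hU hF d' e (a + 1) h
      have hHL := He_lip hU hF hL d' e (a + 1) h
      filter_upwards [incr hU hH hHL hs hd, incr_small hU hH hs hd 0 (v e d') hη] with m h1 h2 _
      exact ⟨h1, h2⟩
    · exact Eventually.of_forall fun m h' => absurd h' h

lemma NB.sub {x y : ℕ → H} (hx : NB L x) (hy : NB L y) : NB (2 * L) (x - y) := by
  have key : ∀ u v : H, ‖u - v‖ ^ 2 ≤ 2 * ‖u‖ ^ 2 + 2 * ‖v‖ ^ 2 := by
    intro u v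
    have := norm_sub_le u v
    have h2 := norm_nonneg (u - v)
    nlinarith [sq_nonneg (‖u‖ - ‖v‖)]
  constructor
  · intro S hS
    have h1 := hx.1 S hS
    have h2 := hy.1 S hS
    have h3 : Q S (x - y) ≤ 2 * Q S x + 2 * Q S y := by
      unfold Q
      rw [Finset.mul_sum, Finset.mul_sum, ← Finset.sum_add_distrib]
      refine Finset.sum_le_sum fun p _ => ?_
      have h4 : (x - y) p.1 - (x - y) p.2 = (x p.1 - x p.2) - (y p.1 - y p.2) := by
        simp only [Pi.sub_apply]; abel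
      rw [h4]
      exact key _ _
    linarith [show (2 * L) ^ 2 = 4 * L ^ 2 by ring]
  · intro t
    have h1 := hx.2 t
    have h2 := hy.2 t
    have h3 := key (x t) (y t)
    rw [Pi.sub_apply]
    linarith [show (2 * L) ^ 2 = 4 * L ^ 2 by ring]

/-- the induction hypothesis -/
structure Good (U : Ultrafilter ℕ) (F : List ℕ → ℕ → H) (K : ℕ) (C1 C2 C3 : ℝ) (a : ℕ)
    (s s' : List ℕ) : Prop where
  len : s.length = a
  len' : s'.length = a
  dec : Dec s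
  dec' : Dec s'
  disj : ∀ x ∈ s, ∀ y ∈ s', x ≠ y
  h : ∀ e d, a + e + d = K → ‖He U F d e s 0 - He U F d e s' 0‖ ^ 2 ≤ a * C1
  sup : ∀ d, a + d = K → ∀ t, ‖(Gd U F d s - Gd U F d s') t‖ ^ 2 ≤ C2 + a * C1
  var : ∀ d, a + d = K → ∀ S, Chn S → Q S (Gd U F d s - Gd U F d s') ≤ a * C3

lemma step (hU : (U : Filter ℕ) ≤ atTop) (hF : BdP R K F) (hLF : LipP L K F) (hL : 0 ≤ L)
    {C1 C2 C3 B : ℝ} (hC1 : C1 = 4 * L ^ 2 + 1) (hC2 : C2 = 6 * K * C1) (hB0 : 0 ≤ B)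
    (hB : C2 + K * C1 ≤ B ^ 2) (hC3 : C3 = 4 * L ^ 2 + 8 * B * L + 1)
    {a d : ℕ} (had : a + (d + 1) = K) {s s' : List ℕ} (h : Good U F K C1 C2 C3 a s s') :
    ∃ m m', Good U F K C1 C2 C3 (a + 1) (m :: s) (m' :: s') := by
  have hC1p : 1 ≤ C1 := by rw [hC1]; nlinarith [sq_nonneg L]
  have hC3p : 1 ≤ C3 := by
    rw [hC3]
    have := mul_nonneg hB0 hL
    nlinarith [sq_nonneg L]
  have haK : (a : ℝ) + 1 ≤ K := by exact_mod_cast (by omega : a + 1 ≤ K)
  have ha0 : (0 : ℝ) ≤ a := Nat.cast_nonneg a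
  obtain ⟨D, hDdef⟩ : ∃ D : ℕ → H, D = Gd U F (d + 1) s - Gd U F (d + 1) s' := ⟨_, rfl⟩
  have hDsup := h.sup (d + 1) had
  have hDvar := h.var (d + 1) had
  rw [← hDdef] at hDsup hDvar
  have hDB : ∀ t, ‖D t‖ ≤ B := by
    intro t
    refine (pow_le_pow_iff_left₀ (norm_nonneg _) hB0 two_ne_zero).1 ?_
    have h1 := hDsup t
    have h2 : (a : ℝ) * C1 ≤ K * C1 := by
      apply mul_le_mul_of_nonneg_right _ (by linarith)
      linarith
    linarith
  obtain ⟨T, hT⟩ := tail hDvar (show (0 : ℝ) < 1 / (64 * (L ^ 2 + 1)) by positivity)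
  set η : ℝ := 1 / (64 * ((T : ℝ) + 1) ^ 2) with hηdef
  have hη : 0 < η := by positivity
  have hη64 : η ≤ 1 / 64 := by
    rw [hηdef]
    apply one_div_le_one_div_of_le (by norm_num)
    have : (0 : ℝ) ≤ T := Nat.cast_nonneg T
    nlinarith
  let v : ℕ → ℕ → H := fun e d' => He U F d' (e + 1) s 0 - He U F d' (e + 1) s' 0
  obtain ⟨m, ⟨hm1, hm2⟩, hmA, hmB, hmC⟩ := (((ev_gt hU s).and (ev_gt hU s')).and
    (cond_ev hU hF hLF had h.len h.dec D v T hη)).exists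
  obtain ⟨m', ⟨hm1', hm2', hmm⟩, hmA', hmB', hmC'⟩ := (((ev_gt hU s).and ((ev_gt hU s').and
    (hU (eventually_gt_atTop m)))).and (cond_ev hU hF hLF had h.len' h.dec' D v T hη)).exists
  obtain ⟨w, hwdef⟩ : ∃ w : ℕ → H, w = (Gd U F d (m :: s) - Gd U F (d + 1) s) -
      (Gd U F d (m' :: s') - Gd U F (d + 1) s') := ⟨_, rfl⟩
  have hw : NB (2 * L) w := hwdef ▸ hmA.sub hmA'
  have hDw : Gd U F d (m :: s) - Gd U F d (m' :: s') = D + w := by
    rw [hDdef, hwdef]; abel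
  have hsm : ∀ t ≤ T, ∀ t' ≤ T, |⟪w t, D t'⟫| ≤ 2 * η := by
    intro t ht t' ht'
    have h1 := hmB t ht t' ht'
    have h2 := hmB' t ht t' ht'
    have h3 : w t = (Gd U F d (m :: s) - Gd U F (d + 1) s) t -
      (Gd U F d (m' :: s') - Gd U F (d + 1) s') t := by rw [hwdef]; rfl
    rw [h3, inner_sub_left]
    calc _ ≤ _ := abs_sub _ _
      _ ≤ η + η := add_le_add h1 h2
      _ = 2 * η := by ring
  have hw2 : ∀ t, ‖w t‖ ^ 2 ≤ 4 * L ^ 2 := fun t => by
    have := hw.2 t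
    linarith [show (2 * L) ^ 2 = 4 * L ^ 2 by ring]
  refine ⟨m, m', ⟨by simp [h.len], by simp [h.len'], List.pairwise_cons.2 ⟨hm1, h.dec⟩,
    List.pairwise_cons.2 ⟨hm2', h.dec'⟩, ?_, ?_, ?_, ?_⟩⟩
  · intro x hx y hy
    rcases List.mem_cons.1 hx with rfl | hx <;> rcases List.mem_cons.1 hy with rfl | hy
    · omega
    · exact (hm2 y hy).ne'
    · exact (hm1' x hx).ne
    · exact h.disj x hx y hy
  · intro e d' hed
    obtain ⟨hN, hi⟩ := hmC e (Finset.mem_range.2 (by omega)) d' (Finset.mem_range.2 (by omega)) hed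
    obtain ⟨hN', hi'⟩ := hmC' e (Finset.mem_range.2 (by omega)) d' (Finset.mem_range.2 (by omega)) hed
    have h1 := h.h (e + 1) d' (by omega)
    have h2 := (hN.sub hN').2 0
    obtain ⟨x, hx⟩ : ∃ x : H, x = (He U F d' e (m :: s) - He U F d' (e + 1) s) 0 := ⟨_, rfl⟩
    obtain ⟨y, hy⟩ : ∃ y : H, y = (He U F d' e (m' :: s') - He U F d' (e + 1) s') 0 := ⟨_, rfl⟩
    have h3 : He U F d' e (m :: s) 0 - He U F d' e (m' :: s') 0 = v e d' + (x - y) := by
      simp only [hx, hy, v, Pi.sub_apply]; abel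
    rw [← hx] at hi
    rw [← hy] at hi'
    have h4 : ‖x - y‖ ^ 2 ≤ 4 * L ^ 2 := by
      rw [hx, hy]
      have h5 : (2 * L) ^ 2 = 4 * L ^ 2 := by ring
      rw [h5] at h2
      exact h2
    rw [h3, norm_add_sq_real, inner_sub_right, real_inner_comm x, real_inner_comm y]
    have h6 : ‖v e d'‖ ^ 2 ≤ a * C1 := h1
    have h7 := (abs_le.1 hi).2
    have h8 := (abs_le.1 hi').1
    push_cast
    linarith
  · intro d₂ hd₂ t
    obtain rfl : d₂ = d := by omega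
    rw [hDw]
    push_cast
    rcases le_or_gt t T with ht | ht
    · have h1 := hDsup t
      have h2 := (abs_le.1 (hsm t ht t ht)).2
      rw [Pi.add_apply, norm_add_sq_real, real_inner_comm]
      linarith [hw2 t]
    · -- compare with the value at infinity
      have h0 := h.h 0 (d₂ + 1) (by omega)
      have hWL : WL U D (He U F (d₂ + 1) 0 s 0 - He U F (d₂ + 1) 0 s' 0) := by
        rw [hDdef]
        exact (Ev_spec (U := U) (Gd_bd hU hF (d₂ + 1) a had) h.len h.dec 0).sub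
          (Ev_spec (U := U) (Gd_bd hU hF (d₂ + 1) a had) h.len' h.dec' 0)
      obtain ⟨z, hz⟩ : ∃ z : H, z = He U F (d₂ + 1) 0 s 0 - He U F (d₂ + 1) 0 s' 0 := ⟨_, rfl⟩
      rw [← hz] at h0 hWL
      have h1 : ‖D t - z‖ ^ 2 ≤ 1 := by
        refine ((WL.const U (D t)).sub hWL).sq_le ?_
        filter_upwards [hU (eventually_gt_atTop t)] with t' ht'
        have h2 := hT {(t, t')} (chn_singleton ht') (by
          intro p hp
          rw [Finset.mem_singleton] at hp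
          rw [hp]
          exact ht.le)
        simp only [Q, Finset.sum_singleton] at h2
        refine h2.trans ?_
        rw [div_le_one (by positivity)]
        nlinarith [sq_nonneg L]
      have h2 : ‖D t - z‖ ≤ 1 := by
        have := norm_nonneg (D t - z)
        nlinarith
      have h3 : ‖w t‖ ≤ 2 * L := by
        refine (pow_le_pow_iff_left₀ (norm_nonneg _) (by positivity) two_ne_zero).1 (hw.2 t)
      have h4 : ‖(D + w) t‖ ≤ ‖z‖ + (1 + 2 * L) := by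
        have h5 : (D + w) t = z + ((D t - z) + w t) := by
          simp only [Pi.add_apply]; abel
        rw [h5]
        refine (norm_add_le _ _).trans ?_
        have := norm_add_le (D t - z) (w t)
        linarith
      have h5 : ‖(D + w) t‖ ^ 2 ≤ 2 * ‖z‖ ^ 2 + 2 * (1 + 2 * L) ^ 2 := by
        have h6 := norm_nonneg ((D + w) t)
        nlinarith [sq_nonneg (‖z‖ - (1 + 2 * L))]
      have h6 : (1 + 2 * L) ^ 2 ≤ 2 * C1 := by
        rw [hC1]; nlinarith [sq_nonneg (1 - 2 * L)]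
      have h7 : (a : ℝ) * C1 ≤ K * C1 := by
        apply mul_le_mul_of_nonneg_right _ (by linarith)
        linarith
      have h8 : C1 ≤ K * C1 := by
        have : (1 : ℝ) ≤ K := by linarith
        nlinarith
      have h9 : 0 ≤ ((a : ℝ) + 1) * C1 := by positivity
      rw [hC2]
      linarith
  · intro d₂ hd₂ S hS
    obtain rfl : d₂ = d := by omega
    rw [hDw]
    push_cast
    have h1 := Q_add_le (T := T) hDB hL hw hT (fun t ht t' ht' => (hsm t ht t' ht').trans (by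
      rw [hηdef]
      apply le_of_eq
      field_simp
      norm_num)) hS
    have h2 := hDvar S hS
    rw [hC3] at h2 ⊢
    linarith

theorem main (hU : (U : Filter ℕ) ≤ atTop) (hF : BdP R K F) (hLF : LipP L K F) (hL : 0 ≤ L)
    {C1 C2 C3 B : ℝ} (hC1 : C1 = 4 * L ^ 2 + 1) (hC2 : C2 = 6 * K * C1) (hB0 : 0 ≤ B)
    (hB : C2 + K * C1 ≤ B ^ 2) (hC3 : C3 = 4 * L ^ 2 + 8 * B * L + 1) :
    ∃ s s' : List ℕ, s.length = K ∧ s'.length = K ∧ Dec s ∧ Dec s' ∧ (∀ x ∈ s, ∀ y ∈ s', x ≠ y) ∧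
      (∀ t, ‖(F s - F s') t‖ ^ 2 ≤ C2 + K * C1) ∧ ∀ S, Chn S → Q S (F s - F s') ≤ K * C3 := by
  have key : ∀ a d, a + d = K → ∃ s s', Good U F K C1 C2 C3 a s s' := by
    intro a
    induction a with
    | zero =>
      intro d hd
      have hC2' : 0 ≤ C2 := by rw [hC2, hC1]; positivity
      refine ⟨[], [], ⟨rfl, rfl, List.Pairwise.nil, List.Pairwise.nil, by simp, ?_, ?_, ?_⟩⟩
      · intro e d _; simp
      · intro d _ t; simpa using hC2'
      · intro d _ S _; simp [Q]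
    | succ a ih =>
      intro d hd
      obtain ⟨s, s', h⟩ := ih (d + 1) (by omega)
      obtain ⟨m, m', h'⟩ := step hU hF hLF hL hC1 hC2 hB0 hB hC3 (by omega : a + (d + 1) = K) h
      exact ⟨_, _, h'⟩
  obtain ⟨s, s', h⟩ := key K 0 rfl
  exact ⟨s, s', h.len, h.len', h.dec, h.dec', h.disj, h.sup 0 rfl, h.var 0 rfl⟩

end Pool.Agent.V1199.Ham
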