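import Mathlib

/-!
Convex functions on the unit interval: comparison with linear functions.
-/

open MeasureTheory Set

namespace Pool.Agent.V1199.Proj

/-- Convex functions from `[0,1]` to `[0,1]` with a zero. -/
structure Cvx (u : ℝ → ℝ) : Prop where
  cvx : ConvexOn ℝ (Icc (0:ℝ) 1) u
  nonneg : ∀ x ∈ Icc (0:ℝ) 1, 0 ≤ u x
  le_one : ∀ x ∈ Icc (0:ℝ) 1, u x ≤ 1
  zero : ∃ b ∈ Icc (0:ℝ) 1, u b = 0

/-- A supporting line at an interior point. -/
lemma exists_slope {h : ℝ → ℝ} (hc : ConvexOn ℝ (Icc (0:ℝ) 1) h)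
    (hn : ∀ x ∈ Icc (0:ℝ) 1, 0 ≤ h x) (h0 : h 0 = 0) {θ : ℝ} (hθ : θ ∈ Ico (0:ℝ) 1) :
    ∃ σ : ℝ, ∀ t ∈ Icc (0:ℝ) 1, h θ + σ * (t - θ) ≤ h t := by
  obtain ⟨hθ0, hθ1⟩ := hθ
  have key : ∀ s ∈ Icc (0:ℝ) 1, ∀ t ∈ Icc (0:ℝ) 1, s < θ → θ < t →
      (h θ - h s) / (θ - s) ≤ (h t - h θ) / (t - θ) := by
    intro s hs t ht hsθ hθt
    exact hc.slope_mono_adjacent hs ht hsθ hθt
  set R : Set ℝ := {c | ∃ t ∈ Icc (0:ℝ) 1, θ < t ∧ c = (h t - h θ) / (t - θ)} with hR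
  have hRn : R.Nonempty := ⟨_, 1, ⟨zero_le_one, le_refl 1⟩, hθ1, rfl⟩
  have hlow : ∀ c ∈ R, 0 ≤ c := by
    rintro c ⟨t, ht, hθt, rfl⟩
    rcases eq_or_lt_of_le hθ0 with h' | h'
    · subst h'
      rw [h0]
      have := hn t ht
      have : 0 < t - 0 := by linarith
      positivity
    · have h1 := key 0 ⟨le_refl 0, zero_le_one⟩ t ht h' hθt
      have h2 : 0 ≤ (h θ - h 0) / (θ - 0) := by
        rw [h0]
        have := hn θ ⟨hθ0, hθ1.le⟩
        have : 0 < θ - 0 := by linarith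
        have h3 : 0 ≤ h θ - 0 := by linarith
        positivity
      linarith
  refine ⟨sInf R, ?_⟩
  intro t ht
  rcases lt_trichotomy t θ with h' | h' | h'
  · have h1 : (h θ - h t) / (θ - t) ≤ sInf R := by
      apply le_csInf hRn
      rintro c ⟨s, hs, hθs, rfl⟩
      exact key t ht s hs h' hθs
    rw [div_le_iff₀ (by linarith)] at h1
    linarith
  · subst h'
    simp
  · have h1 : sInf R ≤ (h t - h θ) / (t - θ) := csInf_le ⟨0, fun c hc => hlow c hc⟩ ⟨t, ht, h', rfl⟩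
    rw [le_div_iff₀ (by linarith)] at h1
    linarith

lemma chord {h : ℝ → ℝ} (hc : ConvexOn ℝ (Icc (0:ℝ) 1) h) {θ σ : ℝ} (hθ : θ ∈ Icc (0:ℝ) 1)
    (hσ : ∀ t ∈ Icc (0:ℝ) 1, h θ + σ * (t - θ) ≤ h t) {a b : ℝ} (hb : b ∈ Icc (0:ℝ) 1)
    (hab : (θ ≤ a ∧ a ≤ b) ∨ (b ≤ a ∧ a ≤ θ)) : h a + σ * (b - a) ≤ h b := by
  have hseg : a ∈ segment ℝ θ b := by
    rcases hab with hab | hab
    · rw [segment_eq_Icc (hab.1.trans hab.2)]; exact hab
    · rw [segment_symm, segment_eq_Icc (hab.1.trans hab.2)]; exact hab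
  obtain ⟨p, q, hp, hq, hpq, rfl⟩ := hseg
  have h1 := hc.2 hθ hb hp hq hpq
  have h2 := hσ b hb
  simp only [smul_eq_mul] at h1 ⊢
  have hq' : q = 1 - p := by linarith
  subst hq'
  nlinarith [mul_le_mul_of_nonneg_left h2 hp]

lemma le_id {u : ℝ → ℝ} (hc : ConvexOn ℝ (Icc (0:ℝ) 1) u)
    (h1 : ∀ x ∈ Icc (0:ℝ) 1, u x ≤ 1) (h0 : u 0 = 0) :
    ∀ x ∈ Icc (0:ℝ) 1, u x ≤ x := by
  intro x hx
  have := hc.2 (⟨le_refl 0, zero_le_one⟩ : (0:ℝ) ∈ Icc (0:ℝ) 1)
    (⟨zero_le_one, le_refl 1⟩ : (1:ℝ) ∈ Icc (0:ℝ) 1)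
    (by linarith [hx.2] : (0:ℝ) ≤ 1 - x) hx.1 (by ring)
  simp only [smul_eq_mul, mul_zero, mul_one, zero_add, h0] at this
  nlinarith [h1 1 ⟨zero_le_one, le_refl 1⟩, hx.1]

lemma scale {u : ℝ → ℝ} (hc : ConvexOn ℝ (Icc (0:ℝ) 1) u) (h0 : u 0 = 0) {x y : ℝ}
    (hx : 0 ≤ x) (hxy : x ≤ y) (hy0 : 0 < y) (hy : y ≤ 1) : u x ≤ x / y * u y := by
  have hd : x / y ≤ 1 := (div_le_one hy0).2 hxy
  have hd0 : 0 ≤ x / y := by positivity
  have := hc.2 (⟨le_refl 0, zero_le_one⟩ : (0:ℝ) ∈ Icc (0:ℝ) 1)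
    (⟨hy0.le, hy⟩ : y ∈ Icc (0:ℝ) 1)
    (by linarith : (0:ℝ) ≤ 1 - x / y) hd0 (by ring)
  simp only [smul_eq_mul, mul_zero, zero_add, h0] at this
  rwa [div_mul_cancel₀ x hy0.ne'] at this

lemma mono_of_zero {u : ℝ → ℝ} (hc : ConvexOn ℝ (Icc (0:ℝ) 1) u)
    (hn : ∀ x ∈ Icc (0:ℝ) 1, 0 ≤ u x) (h0 : u 0 = 0) : MonotoneOn u (Icc (0:ℝ) 1) := by
  intro x hx y hy hxy
  rcases eq_or_lt_of_le hy.1 with h | h
  · have : x = y := le_antisymm hxy (by rw [← h]; exact hx.1)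
    rw [this]
  · have h1 := scale hc h0 hx.1 hxy h hy.2
    have h2 : x / y ≤ 1 := (div_le_one h).2 hxy
    nlinarith [hn y hy]

lemma mono_int {f : ℝ → ℝ} (hf : MonotoneOn f (Icc (0:ℝ) 1)) :
    IntervalIntegrable f volume 0 1 := by
  apply MonotoneOn.intervalIntegrable
  rwa [uIcc_of_le zero_le_one]

/-- Comparison with the linear function with the same integral. -/
lemma B0 {u h : ℝ → ℝ} (uc : ConvexOn ℝ (Icc (0:ℝ) 1) u) (un : ∀ x ∈ Icc (0:ℝ) 1, 0 ≤ u x)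
    (u1 : ∀ x ∈ Icc (0:ℝ) 1, u x ≤ 1) (u0 : u 0 = 0)
    (hc : ConvexOn ℝ (Icc (0:ℝ) 1) h) (hn : ∀ x ∈ Icc (0:ℝ) 1, 0 ≤ h x) (h0 : h 0 = 0)
    {α : ℝ} (hα : α = ∫ y in (0:ℝ)..1, u y) :
    0 ≤ α ∧ α ≤ 1 / 2 ∧
    ∫ x in (0:ℝ)..1, h (2 * α * x) ≤ ∫ x in (0:ℝ)..1, h (u x) := by
  have umono := mono_of_zero uc un u0
  have hmono := mono_of_zero hc hn h0
  have uint : IntervalIntegrable u volume 0 1 := mono_int umono
  have uid := le_id uc u1 u0
  have hα0 : 0 ≤ α := by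
    rw [hα]
    exact intervalIntegral.integral_nonneg zero_le_one un
  have hidint : IntervalIntegrable (fun x : ℝ => x) volume 0 1 := continuous_id.intervalIntegrable 0 1
  have hid : ∫ x in (0:ℝ)..1, x = 1 / 2 := by simp
  have hα1 : α ≤ 1 / 2 := by
    rw [hα, ← hid]
    exact intervalIntegral.integral_mono_on zero_le_one uint hidint uid
  refine ⟨hα0, hα1, ?_⟩
  have hlin : ∀ x ∈ Icc (0:ℝ) 1, 2 * α * x ∈ Icc (0:ℝ) 1 := by
    intro x hx
    refine ⟨by have := hx.1; positivity, ?_⟩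
    have : 2 * α ≤ 1 := by linarith
    nlinarith [hx.1, hx.2]
  have humem : ∀ x ∈ Icc (0:ℝ) 1, u x ∈ Icc (0:ℝ) 1 := fun x hx => ⟨un x hx, u1 x hx⟩
  have hint1 : IntervalIntegrable (fun x => h (2 * α * x)) volume 0 1 := by
    apply mono_int
    intro x hx y hy hxy
    apply hmono (hlin x hx) (hlin y hy)
    apply mul_le_mul_of_nonneg_left hxy
    positivity
  have hint2 : IntervalIntegrable (fun x => h (u x)) volume 0 1 := by
    apply mono_int
    intro x hx y hy hxy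
    exact hmono (humem x hx) (humem y hy) (umono hx hy hxy)
  set S : Set ℝ := {x | x ∈ Icc (0:ℝ) 1 ∧ u x ≤ 2 * α * x} with hS
  have hS0 : (0:ℝ) ∈ S := ⟨⟨le_refl 0, zero_le_one⟩, by rw [u0]; simp⟩
  have hSb : BddAbove S := ⟨1, fun x hx => hx.1.2⟩
  set xs := sSup S with hxs
  have hxs0 : 0 ≤ xs := le_csSup hSb hS0
  have hxs1 : xs ≤ 1 := csSup_le ⟨0, hS0⟩ fun x hx => hx.1.2
  have hleft : ∀ x ∈ Icc (0:ℝ) 1, x < xs → u x ≤ 2 * α * x := by
    intro x hx hlt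
    obtain ⟨y, hy, hxy⟩ := exists_lt_of_lt_csSup ⟨0, hS0⟩ hlt
    have hy0 : 0 < y := lt_of_le_of_lt hx.1 hxy
    have h1 := scale uc u0 hx.1 hxy.le hy0 hy.1.2
    have h2 : x / y * u y ≤ x / y * (2 * α * y) :=
      mul_le_mul_of_nonneg_left hy.2 (by have := hx.1; positivity)
    have h3 : x / y * (2 * α * y) = 2 * α * x := by field_simp
    linarith
  have hright : ∀ x ∈ Icc (0:ℝ) 1, xs < x → 2 * α * x < u x := by
    intro x hx hlt
    by_contra hcon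
    push Not at hcon
    exact absurd (le_csSup hSb (⟨hx, hcon⟩ : x ∈ S)) (not_le.2 hlt)
  set θ := 2 * α * xs with hθ
  have hθI := hlin xs ⟨hxs0, hxs1⟩
  rcases lt_or_eq_of_le hθI.2 with hθ1 | hθ1
  · obtain ⟨σ, hσ⟩ := exists_slope hc hn h0 (θ := θ) ⟨hθI.1, hθ1⟩
    have hpt : ∀ x ∈ Icc (0:ℝ) 1, h (2 * α * x) + σ * (u x - 2 * α * x) ≤ h (u x) := by
      intro x hx
      rcases lt_trichotomy x xs with h' | h' | h'
      · apply chord hc hθI hσ (humem x hx)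
        right
        exact ⟨hleft x hx h', mul_le_mul_of_nonneg_left h'.le (by positivity)⟩
      · have := hσ (u x) (humem x hx)
        rw [h']
        rw [h'] at this
        exact this
      · apply chord hc hθI hσ (humem x hx)
        left
        exact ⟨mul_le_mul_of_nonneg_left h'.le (by positivity), (hright x hx h').le⟩
    have hlinint : IntervalIntegrable (fun x => 2 * α * x) volume 0 1 :=
      (by fun_prop : Continuous fun x : ℝ => 2 * α * x).intervalIntegrable 0 1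
    have h1 := intervalIntegral.integral_mono_on zero_le_one
      (hint1.add ((uint.sub hlinint).const_mul σ)) hint2 hpt
    rw [intervalIntegral.integral_add hint1 ((uint.sub hlinint).const_mul σ),
      intervalIntegral.integral_const_mul, intervalIntegral.integral_sub uint hlinint, ← hα] at h1
    have h2 : ∫ x in (0:ℝ)..1, 2 * α * x = α := by
      rw [intervalIntegral.integral_const_mul, hid]; ring
    rw [h2] at h1
    simpa using h1
  · -- degenerate case : `u x = x` almost everywhere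
    have hα2 : 2 * α = 1 := by
      have h3 : 2 * α * xs = 1 := hθ1
      nlinarith
    have hz : ∫ x in (0:ℝ)..1, (x - u x) = 0 := by
      rw [intervalIntegral.integral_sub hidint uint, hid, ← hα]
      linarith
    have hae : (fun x => x - u x) =ᵐ[volume.restrict (Ioc (0:ℝ) 1)] 0 := by
      rw [← intervalIntegral.integral_eq_zero_iff_of_le_of_nonneg_ae zero_le_one _
        (hidint.sub uint)]
      · exact hz
      · refine (ae_restrict_iff' measurableSet_Ioc).2 (Filter.Eventually.of_forall ?_)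
        intro x hx
        have := uid x ⟨hx.1.le, hx.2⟩
        simp only [Pi.zero_apply]
        linarith
    apply le_of_eq
    apply intervalIntegral.integral_congr_ae
    rw [uIoc_of_le zero_le_one]
    have := (ae_restrict_iff' measurableSet_Ioc).1 hae
    filter_upwards [this] with x hx hxm
    have h4 := hx hxm
    simp only [Pi.zero_apply] at h4
    rw [hα2, one_mul]
    congr 1
    linarith

end Pool.Agent.V1199.Proj
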