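import Pool.Agent.V1199.ProjA

/-!
The measure of `{u(x) + v(z) > 1}` for convex functions `u`, `v` on the unit interval.
-/

open MeasureTheory Set
open scoped Pointwise

namespace Pool.Agent.V1199.Proj

/-- Length of a bounded interval. -/
lemma len_eq {L : Set ℝ} (ho : L.OrdConnected) (hne : L.Nonempty) (hb : BddBelow L)
    (ha : BddAbove L) : volume.real L = sSup L - sInf L := by
  have h1 : Ioo (sInf L) (sSup L) ⊆ L := by
    intro x hx
    obtain ⟨a, ha1, ha2⟩ := exists_lt_of_csInf_lt hne hx.1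
    obtain ⟨b, hb1, hb2⟩ := exists_lt_of_lt_csSup hne hx.2
    exact ho.out ha1 hb1 ⟨ha2.le, hb2.le⟩
  have h2 : L ⊆ Icc (sInf L) (sSup L) := fun x hx => ⟨csInf_le hb hx, le_csSup ha hx⟩
  have hle : sInf L ≤ sSup L := csInf_le_csSup hne hb ha
  have v1 : volume L = ENNReal.ofReal (sSup L - sInf L) := by
    apply le_antisymm
    · calc volume L ≤ volume (Icc (sInf L) (sSup L)) := measure_mono h2
        _ = _ := Real.volume_Icc
    · calc _ = volume (Ioo (sInf L) (sSup L)) := Real.volume_Ioo.symm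
        _ ≤ volume L := measure_mono h1
  rw [Measure.real, v1, ENNReal.toReal_ofReal (by linarith)]

/-- Sublevel sets. -/
def Lv (v : ℝ → ℝ) (y : ℝ) : Set ℝ := {z | z ∈ Icc (0:ℝ) 1 ∧ v z ≤ y}

/-- Measure of `{z ∈ [0,1] : 1 - t < v z}`. -/
noncomputable def H (v : ℝ → ℝ) (t : ℝ) : ℝ := volume.real {z | z ∈ Icc (0:ℝ) 1 ∧ 1 - t < v z}

lemma Lv_conv {v : ℝ → ℝ} (hc : ConvexOn ℝ (Icc (0:ℝ) 1) v) (y : ℝ) : Convex ℝ (Lv v y) :=
  hc.convex_le y

lemma Lv_ord {v : ℝ → ℝ} (hc : ConvexOn ℝ (Icc (0:ℝ) 1) v) (y : ℝ) : (Lv v y).OrdConnected :=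
  (Lv_conv hc y).ordConnected

lemma Lv_meas {v : ℝ → ℝ} (hc : ConvexOn ℝ (Icc (0:ℝ) 1) v) (y : ℝ) : MeasurableSet (Lv v y) :=
  (Lv_ord hc y).measurableSet

lemma Lv_sub (v : ℝ → ℝ) (y : ℝ) : Lv v y ⊆ Icc 0 1 := fun _ hz => hz.1

lemma sup_meas {v : ℝ → ℝ} (y : ℝ) :
    {z | z ∈ Icc (0:ℝ) 1 ∧ y < v z} = Icc (0:ℝ) 1 \ Lv v y := by
  ext z
  simp only [mem_ofPred_eq, mem_sdiff, Lv, not_and, not_le]
  constructor
  · rintro ⟨h1, h2⟩
    exact ⟨h1, fun _ => h2⟩
  · rintro ⟨h1, h2⟩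
    exact ⟨h1, h2 h1⟩

lemma H_eq {v : ℝ → ℝ} (hc : ConvexOn ℝ (Icc (0:ℝ) 1) v) (t : ℝ) :
    H v t = 1 - volume.real (Lv v (1 - t)) := by
  unfold H
  rw [sup_meas (v := v), measureReal_sdiff (Lv_sub v _) (Lv_meas hc _) (by rw [Real.volume_Icc]; exact ENNReal.ofReal_ne_top)]
  simp [Measure.real]

lemma H_nonneg (v : ℝ → ℝ) (t : ℝ) : 0 ≤ H v t := measureReal_nonneg

lemma H_le_one (v : ℝ → ℝ) (t : ℝ) : H v t ≤ 1 := by
  unfold H
  calc volume.real {z | z ∈ Icc (0:ℝ) 1 ∧ 1 - t < v z} ≤ volume.real (Icc (0:ℝ) 1) :=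
        measureReal_mono (fun z hz => hz.1) (by simp)
    _ = 1 := by simp [Measure.real]

lemma H_zero {v : ℝ → ℝ} (hv : Cvx v) : H v 0 = 0 := by
  unfold H
  have : {z | z ∈ Icc (0:ℝ) 1 ∧ 1 - 0 < v z} = ∅ := by
    ext z
    simp only [mem_ofPred_eq, mem_empty_iff_false, iff_false, not_and, not_lt, sub_zero]
    exact hv.le_one z
  rw [this]
  simp

lemma Lv_len_concave {v : ℝ → ℝ} (hv : Cvx v) {y0 y1 p q : ℝ} (h0 : 0 ≤ y0) (h1 : 0 ≤ y1)
    (hp : 0 ≤ p) (hq : 0 ≤ q) (hpq : p + q = 1) :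
    p * volume.real (Lv v y0) + q * volume.real (Lv v y1) ≤ volume.real (Lv v (p * y0 + q * y1)) := by
  obtain ⟨b, hb, hvb⟩ := hv.zero
  have hne : ∀ y, 0 ≤ y → (Lv v y).Nonempty := fun y hy => ⟨b, hb, by rw [hvb]; exact hy⟩
  have hbb : ∀ y, BddBelow (Lv v y) := fun y => ⟨0, fun z hz => hz.1.1⟩
  have hba : ∀ y, BddAbove (Lv v y) := fun y => ⟨1, fun z hz => hz.1.2⟩
  have hlen : ∀ y, 0 ≤ y → volume.real (Lv v y) = sSup (Lv v y) - sInf (Lv v y) :=
    fun y hy => len_eq (Lv_ord hv.cvx y) (hne y hy) (hbb y) (hba y)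
  have hy : 0 ≤ p * y0 + q * y1 := by positivity
  rw [hlen y0 h0, hlen y1 h1, hlen _ hy]
  have hsub : p • Lv v y0 + q • Lv v y1 ⊆ Lv v (p * y0 + q * y1) := by
    rintro _ ⟨_, ⟨a, ha, rfl⟩, _, ⟨c, hc, rfl⟩, rfl⟩
    refine ⟨(convex_Icc (0:ℝ) 1) ha.1 hc.1 hp hq hpq, ?_⟩
    have := hv.cvx.2 ha.1 hc.1 hp hq hpq
    simp only [smul_eq_mul] at this ⊢
    have h3 := mul_le_mul_of_nonneg_left ha.2 hp
    have h4 := mul_le_mul_of_nonneg_left hc.2 hq
    linarith
  have hne0 : (p • Lv v y0).Nonempty := (hne y0 h0).smul_set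
  have hne1 : (q • Lv v y1).Nonempty := (hne y1 h1).smul_set
  have hA0 : BddAbove (p • Lv v y0) := (hba y0).smul_of_nonneg hp
  have hA1 : BddAbove (q • Lv v y1) := (hba y1).smul_of_nonneg hq
  have hB0 : BddBelow (p • Lv v y0) := (hbb y0).smul_of_nonneg hp
  have hB1 : BddBelow (q • Lv v y1) := (hbb y1).smul_of_nonneg hq
  have e1 : p * sSup (Lv v y0) + q * sSup (Lv v y1) ≤ sSup (Lv v (p * y0 + q * y1)) := by
    have : p * sSup (Lv v y0) + q * sSup (Lv v y1) = sSup (p • Lv v y0 + q • Lv v y1) := by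
      rw [csSup_add hne0 hA0 hne1 hA1, Real.sSup_smul_of_nonneg hp, Real.sSup_smul_of_nonneg hq]
      simp
    rw [this]
    exact csSup_le_csSup (hba _) (hne0.add hne1) hsub
  have e2 : sInf (Lv v (p * y0 + q * y1)) ≤ p * sInf (Lv v y0) + q * sInf (Lv v y1) := by
    have : p * sInf (Lv v y0) + q * sInf (Lv v y1) = sInf (p • Lv v y0 + q • Lv v y1) := by
      rw [csInf_add hne0 hB0 hne1 hB1, Real.sInf_smul_of_nonneg hp, Real.sInf_smul_of_nonneg hq]
      simp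
    rw [this]
    exact csInf_le_csInf (hbb _) (hne0.add hne1) hsub
  linarith

lemma H_cvx {v : ℝ → ℝ} (hv : Cvx v) : ConvexOn ℝ (Icc (0:ℝ) 1) (H v) := by
  refine ⟨convex_Icc 0 1, ?_⟩
  intro s hs t ht p q hp hq hpq
  simp only [smul_eq_mul]
  rw [H_eq hv.cvx, H_eq hv.cvx, H_eq hv.cvx]
  have := Lv_len_concave hv (y0 := 1 - s) (y1 := 1 - t) (by linarith [hs.2]) (by linarith [ht.2]) hp hq hpq
  have e : p * (1 - s) + q * (1 - t) = 1 - (p * s + q * t) := by
    have : p + q = 1 := hpq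
    linear_combination this
  rw [e] at this
  nlinarith

/-- The set `{(x,z) : u x + v z > 1}` in the unit square. -/
def E (u v : ℝ → ℝ) : Set (ℝ × ℝ) :=
  {p | p.1 ∈ Icc (0:ℝ) 1 ∧ p.2 ∈ Icc (0:ℝ) 1 ∧ 1 < u p.1 + v p.2}

open Classical in
/-- A measurable extension. -/
noncomputable def ext (u : ℝ → ℝ) (x : ℝ) : ℝ := if x ∈ Icc (0:ℝ) 1 then u x else 2

lemma ext_meas {u : ℝ → ℝ} (hc : ConvexOn ℝ (Icc (0:ℝ) 1) u) : Measurable (ext u) := by
  apply measurable_of_Iic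
  intro y
  have : ext u ⁻¹' Iic y = Lv u y ∪ (if 2 ≤ y then (Icc (0:ℝ) 1)ᶜ else ∅) := by
    ext x
    simp only [mem_preimage, mem_Iic, ext, mem_union, Lv, mem_ofPred_eq]
    by_cases hx : x ∈ Icc (0:ℝ) 1
    · simp only [hx, if_true, true_and]
      constructor
      · intro h; exact Or.inl h
      · rintro (h | h)
        · exact h
        · split_ifs at h
          · exact absurd hx h
          · exact absurd h (notMem_empty x)
    · simp only [hx, if_false, false_and, false_or]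
      split_ifs with h
      · simp [h, hx]
      · simp [h]
  rw [this]
  apply (Lv_meas hc y).union
  split_ifs
  · exact measurableSet_Icc.compl
  · exact MeasurableSet.empty

lemma E_meas {u v : ℝ → ℝ} (hu : ConvexOn ℝ (Icc (0:ℝ) 1) u) (hv : ConvexOn ℝ (Icc (0:ℝ) 1) v) :
    MeasurableSet (E u v) := by
  have : E u v = (Icc (0:ℝ) 1 ×ˢ Icc (0:ℝ) 1) ∩ {p | 1 < ext u p.1 + ext v p.2} := by
    ext p
    simp only [E, mem_ofPred_eq, mem_inter_iff, mem_prod, and_assoc]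
    constructor
    · rintro ⟨h1, h2, h3⟩
      refine ⟨h1, h2, ?_⟩
      simp only [ext, h1, h2, if_true]
      exact h3
    · rintro ⟨h1, h2, h3⟩
      refine ⟨h1, h2, ?_⟩
      simp only [ext, h1, h2, if_true] at h3
      exact h3
  rw [this]
  apply (measurableSet_Icc.prod measurableSet_Icc).inter
  exact measurableSet_lt measurable_const
    (((ext_meas hu).comp measurable_fst).add ((ext_meas hv).comp measurable_snd))

/-- Slices of subsets of the unit square. -/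
lemma real_prod {K : Set (ℝ × ℝ)} (hK : MeasurableSet K) (hsub : K ⊆ Icc (0:ℝ) 1 ×ˢ Icc (0:ℝ) 1) :
    volume.real K = ∫ x in (0:ℝ)..1, volume.real {y | (x, y) ∈ K} ∧
    IntervalIntegrable (fun x => volume.real {y | (x, y) ∈ K}) volume 0 1 := by
  have hm : Measurable fun x => volume (Prod.mk x ⁻¹' K) := measurable_measure_prodMk_left hK
  have hfin : ∀ x, volume (Prod.mk x ⁻¹' K) ≤ 1 := by
    intro x
    calc volume (Prod.mk x ⁻¹' K) ≤ volume (Icc (0:ℝ) 1) := measure_mono fun y hy => (hsub hy).2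
      _ = 1 := by simp
  have hm' : Measurable fun x => volume.real {y | (x, y) ∈ K} := hm.ennreal_toReal
  have hb : ∀ x, volume.real {y | (x, y) ∈ K} ≤ 1 := by
    intro x
    have := ENNReal.toReal_mono (by simp) (hfin x)
    rw [ENNReal.toReal_one] at this
    exact this
  constructor
  · have h1 : volume K = ∫⁻ x, volume (Prod.mk x ⁻¹' K) := by
      rw [Measure.volume_eq_prod, Measure.prod_apply hK]
    have h2 : ∫ x, (volume (Prod.mk x ⁻¹' K)).toReal = (∫⁻ x, volume (Prod.mk x ⁻¹' K)).toReal :=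
      integral_toReal hm.aemeasurable
        (Filter.Eventually.of_forall fun x => lt_of_le_of_lt (hfin x) (by simp))
    rw [Measure.real, h1, ← h2]
    rw [intervalIntegral.integral_of_le zero_le_one, ← integral_Icc_eq_integral_Ioc]
    rw [← integral_indicator measurableSet_Icc]
    congr 1
    ext x
    by_cases hx : x ∈ Icc (0:ℝ) 1
    · rw [indicator_of_mem hx]; rfl
    · rw [indicator_of_notMem hx]
      have : Prod.mk x ⁻¹' K = ∅ := by
        ext y
        simp only [mem_preimage, mem_empty_iff_false, iff_false]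
        intro hy
        exact hx (hsub hy).1
      rw [this]; simp
  · rw [intervalIntegrable_iff_integrableOn_Ioc_of_le zero_le_one]
    apply Measure.integrableOn_of_bounded (M := 1) (by simp) hm'.aestronglyMeasurable
    refine Filter.Eventually.of_forall fun x => ?_
    rw [Real.norm_of_nonneg measureReal_nonneg]
    exact hb x

lemma E_sub (u v : ℝ → ℝ) : E u v ⊆ Icc (0:ℝ) 1 ×ˢ Icc (0:ℝ) 1 := fun _ hp => ⟨hp.1, hp.2.1⟩

/-- `P u v` is the measure of `{u(x) + v(z) > 1}`. -/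
noncomputable def P (u v : ℝ → ℝ) : ℝ := volume.real (E u v)

lemma slice_E {u v : ℝ → ℝ} {x : ℝ} (hx : x ∈ Icc (0:ℝ) 1) :
    {y | (x, y) ∈ E u v} = {z | z ∈ Icc (0:ℝ) 1 ∧ 1 - u x < v z} := by
  ext z
  simp only [E, mem_ofPred_eq]
  constructor
  · rintro ⟨_, h2, h3⟩
    exact ⟨h2, by linarith⟩
  · rintro ⟨h2, h3⟩
    exact ⟨hx, h2, by linarith⟩

lemma P_eq {u v : ℝ → ℝ} (hu : ConvexOn ℝ (Icc (0:ℝ) 1) u) (hv : ConvexOn ℝ (Icc (0:ℝ) 1) v) :
    P u v = ∫ x in (0:ℝ)..1, H v (u x) ∧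
    IntervalIntegrable (fun x => H v (u x)) volume 0 1 := by
  obtain ⟨h1, h2⟩ := real_prod (E_meas hu hv) (E_sub u v)
  have heq : ∀ x ∈ Icc (0:ℝ) 1, volume.real {y | (x, y) ∈ E u v} = H v (u x) := by
    intro x hx
    rw [slice_E hx]; rfl
  constructor
  · rw [P, h1]
    apply intervalIntegral.integral_congr
    intro x hx
    rw [uIcc_of_le zero_le_one] at hx
    exact heq x hx
  · apply h2.congr
    intro x hx
    rw [uIoc_of_le zero_le_one] at hx
    exact heq x ⟨hx.1.le, hx.2⟩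

lemma P_symm {u v : ℝ → ℝ} (hu : ConvexOn ℝ (Icc (0:ℝ) 1) u) (hv : ConvexOn ℝ (Icc (0:ℝ) 1) v) :
    P u v = P v u := by
  unfold P
  have : E v u = Prod.swap ⁻¹' E u v := by
    ext p
    simp only [E, mem_ofPred_eq, mem_preimage, Prod.fst_swap, Prod.snd_swap]
    constructor
    · rintro ⟨h1, h2, h3⟩; exact ⟨h2, h1, by linarith⟩
    · rintro ⟨h1, h2, h3⟩; exact ⟨h2, h1, by linarith⟩
  rw [this, Measure.real, Measure.real]
  congr 1
  have h : MeasurePreserving (Prod.swap : ℝ × ℝ → ℝ × ℝ) volume volume :=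
    Measure.measurePreserving_swap
  exact (h.measure_preimage (E_meas hu hv).nullMeasurableSet).symm

end Pool.Agent.V1199.Proj
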