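import Pool.Agent.V1199.ProjB

/-!
The inequality `1/2 ≤ 9/8 (1 - ∫ u - ∫ v) + |{u(x) + v(z) > 1}|`.
-/

open MeasureTheory Set

namespace Pool.Agent.V1199.Proj

lemma real_prod_int {u v : ℝ → ℝ} (hu : ConvexOn ℝ (Icc (0:ℝ) 1) u)
    (hv : ConvexOn ℝ (Icc (0:ℝ) 1) v) : IntervalIntegrable (fun x => H v (u x)) volume 0 1 :=
  (P_eq hu hv).2

lemma Cvx.int {u : ℝ → ℝ} (hu : Cvx u) : IntervalIntegrable u volume 0 1 := by
  rw [intervalIntegrable_iff_integrableOn_Ioc_of_le zero_le_one]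
  have h1 : IntegrableOn (ext u) (Ioc (0:ℝ) 1) := by
    apply Measure.integrableOn_of_bounded (M := 1) (by simp) (ext_meas hu.cvx).aestronglyMeasurable
    refine (ae_restrict_iff' measurableSet_Ioc).2 (Filter.Eventually.of_forall fun x hx => ?_)
    have hx' : x ∈ Icc (0:ℝ) 1 := ⟨hx.1.le, hx.2⟩
    simp only [ext, hx', if_true]
    rw [Real.norm_of_nonneg (hu.nonneg x hx')]
    exact hu.le_one x hx'
  apply h1.congr_fun _ measurableSet_Ioc
  intro x hx
  have hx' : x ∈ Icc (0:ℝ) 1 := ⟨hx.1.le, hx.2⟩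
  simp only [ext, hx', if_true]

/-- Linear functions. -/
def lin (α x : ℝ) : ℝ := 2 * α * x

lemma lin_cvx {α : ℝ} (h0 : 0 ≤ α) (h1 : α ≤ 1 / 2) : Cvx (lin α) where
  cvx := by
    refine ⟨convex_Icc 0 1, ?_⟩
    intro x _ y _ a b _ _ _
    simp only [lin, smul_eq_mul]
    apply le_of_eq
    ring
  nonneg := fun x hx => by have := hx.1; unfold lin; positivity
  le_one := fun x hx => by
    unfold lin
    have : 2 * α ≤ 1 := by linarith
    nlinarith [hx.1, hx.2]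
  zero := ⟨0, ⟨le_refl 0, zero_le_one⟩, by simp [lin]⟩

lemma comp_cvx {u : ℝ → ℝ} (hu : ConvexOn ℝ (Icc (0:ℝ) 1) u) (d c : ℝ)
    (hm : ∀ r ∈ Icc (0:ℝ) 1, d + c * r ∈ Icc (0:ℝ) 1) :
    ConvexOn ℝ (Icc (0:ℝ) 1) (fun r => u (d + c * r)) := by
  refine ⟨convex_Icc 0 1, ?_⟩
  intro x hx y hy a b ha hb hab
  have := hu.2 (hm x hx) (hm y hy) ha hb hab
  simp only [smul_eq_mul] at this ⊢
  have e : a * (d + c * x) + b * (d + c * y) = d + c * (a * x + b * y) := by
    linear_combination d * hab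
  rw [e] at this
  exact this

lemma lin_step {u v : ℝ → ℝ} (hu : Cvx u) (hv : Cvx v) :
    ∃ b ∈ Icc (0:ℝ) 1, ∃ α₁ ∈ Icc (0:ℝ) (1/2), ∃ α₂ ∈ Icc (0:ℝ) (1/2),
      (∫ x in (0:ℝ)..1, u x) = b * α₁ + (1 - b) * α₂ ∧
      b * P (lin α₁) v + (1 - b) * P (lin α₂) v ≤ P u v := by
  obtain ⟨b, hb, hub⟩ := hu.zero
  have hm1 : ∀ r ∈ Icc (0:ℝ) 1, b + (-b) * r ∈ Icc (0:ℝ) 1 := by
    intro r hr
    constructor
    · nlinarith [hb.1, hr.1, hr.2]
    · nlinarith [hb.1, hb.2, hr.1, hr.2]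
  have hm2 : ∀ r ∈ Icc (0:ℝ) 1, b + (1 - b) * r ∈ Icc (0:ℝ) 1 := by
    intro r hr
    constructor
    · nlinarith [hb.1, hb.2, hr.1, hr.2]
    · nlinarith [hb.1, hb.2, hr.1, hr.2]
  have hHc := H_cvx hv
  have hHn : ∀ x ∈ Icc (0:ℝ) 1, 0 ≤ H v x := fun x _ => H_nonneg v x
  have hH0 := H_zero hv
  obtain ⟨a1, a1', h1⟩ := B0 (u := fun r => u (b + (-b) * r)) (h := H v) (comp_cvx hu.cvx b (-b) hm1)
    (fun x hx => hu.nonneg _ (hm1 x hx)) (fun x hx => hu.le_one _ (hm1 x hx))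
    (by simpa using hub) hHc hHn hH0 rfl
  obtain ⟨a2, a2', h2⟩ := B0 (u := fun r => u (b + (1 - b) * r)) (h := H v)
    (comp_cvx hu.cvx b (1 - b) hm2)
    (fun x hx => hu.nonneg _ (hm2 x hx)) (fun x hx => hu.le_one _ (hm2 x hx))
    (by simpa using hub) hHc hHn hH0 rfl
  set α₁ := ∫ y in (0:ℝ)..1, u (b + (-b) * y) with hα₁
  set α₂ := ∫ y in (0:ℝ)..1, u (b + (1 - b) * y) with hα₂
  refine ⟨b, hb, α₁, ⟨a1, a1'⟩, α₂, ⟨a2, a2'⟩, ?_, ?_⟩
  · have e1 : b * α₁ = ∫ x in (0:ℝ)..b, u x := by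
      have := intervalIntegral.smul_integral_comp_add_mul (a := 0) (b := 1) u (-b) b
      simp only [smul_eq_mul, mul_zero, add_zero, mul_one, add_neg_cancel] at this
      rw [intervalIntegral.integral_symm, ← this, hα₁]
      ring
    have e2 : (1 - b) * α₂ = ∫ x in b..(1:ℝ), u x := by
      have := intervalIntegral.smul_integral_comp_add_mul (a := 0) (b := 1) u (1 - b) b
      simp only [smul_eq_mul, mul_zero, add_zero, mul_one, add_sub_cancel] at this
      rw [← this]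
    rw [e1, e2]
    have hi := hu.int
    rw [intervalIntegral.integral_add_adjacent_intervals]
    · exact hi.mono_set (by rw [uIcc_of_le hb.1, uIcc_of_le zero_le_one]; exact Icc_subset_Icc_right hb.2)
    · exact hi.mono_set (by rw [uIcc_of_le hb.2, uIcc_of_le zero_le_one]; exact Icc_subset_Icc_left hb.1)
  · rw [(P_eq (lin_cvx a1 a1').cvx hv.cvx).1, (P_eq (lin_cvx a2 a2').cvx hv.cvx).1,
      (P_eq hu.cvx hv.cvx).1]
    have hi := (P_eq hu.cvx hv.cvx).2
    have e1 : b * ∫ r in (0:ℝ)..1, H v (u (b + (-b) * r)) = ∫ x in (0:ℝ)..b, H v (u x) := by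
      have := intervalIntegral.smul_integral_comp_add_mul (a := 0) (b := 1) (fun x => H v (u x)) (-b) b
      simp only [smul_eq_mul, mul_zero, add_zero, mul_one, add_neg_cancel] at this
      rw [intervalIntegral.integral_symm b 0, ← this]
      ring
    have e2 : (1 - b) * ∫ r in (0:ℝ)..1, H v (u (b + (1 - b) * r)) = ∫ x in b..(1:ℝ), H v (u x) := by
      have := intervalIntegral.smul_integral_comp_add_mul (a := 0) (b := 1) (fun x => H v (u x)) (1 - b) b
      simp only [smul_eq_mul, mul_zero, add_zero, mul_one, add_sub_cancel] at this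
      rw [← this]
    have e3 : (∫ x in (0:ℝ)..b, H v (u x)) + ∫ x in b..(1:ℝ), H v (u x) = ∫ x in (0:ℝ)..1, H v (u x) := by
      rw [intervalIntegral.integral_add_adjacent_intervals]
      · exact hi.mono_set (by rw [uIcc_of_le hb.1, uIcc_of_le zero_le_one]; exact Icc_subset_Icc_right hb.2)
      · exact hi.mono_set (by rw [uIcc_of_le hb.2, uIcc_of_le zero_le_one]; exact Icc_subset_Icc_left hb.1)
    rw [← e3, ← e1, ← e2]
    have g1 := mul_le_mul_of_nonneg_left h1 hb.1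
    have g2 := mul_le_mul_of_nonneg_left h2 (sub_nonneg.2 hb.2)
    exact add_le_add g1 g2

lemma H_lin_ge {α t : ℝ} (h0 : 0 < α) (ht : t ≤ 1) (ht' : 1 - t ≤ 2 * α) :
    1 - (1 - t) / (2 * α) ≤ H (lin α) t := by
  set c := (1 - t) / (2 * α) with hc
  have hc0 : 0 ≤ c := by
    rw [hc]
    have : 0 ≤ 1 - t := by linarith
    positivity
  have hc1 : c ≤ 1 := by rw [hc, div_le_one (by positivity)]; exact ht'
  have hv : volume.real (Ioc c 1) = 1 - c := by
    rw [Measure.real, Real.volume_Ioc, ENNReal.toReal_ofReal (by linarith)]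
  rw [← hv]
  unfold H
  apply measureReal_mono
  · intro z hz
    refine ⟨⟨hc0.trans hz.1.le, hz.2⟩, ?_⟩
    have h2 : c < z := hz.1
    rw [hc, div_lt_iff₀ (by positivity)] at h2
    unfold lin
    linarith
  · apply ne_of_lt
    calc volume {z | z ∈ Icc (0:ℝ) 1 ∧ 1 - t < lin α z} ≤ volume (Icc (0:ℝ) 1) :=
          measure_mono fun z hz => hz.1
      _ < ⊤ := by rw [Real.volume_Icc]; exact ENNReal.ofReal_lt_top

lemma P_nonneg (u v : ℝ → ℝ) : 0 ≤ P u v := measureReal_nonneg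

lemma poly (s t : ℝ) (hs : 0 < s) (ht : 0 < t) (hs1 : s ≤ 1) (ht1 : t ≤ 1) :
    1 / 2 - 9 / 8 * (1 - s / 2 - t / 2) ≤ (s + t - 1) ^ 2 / (2 * (s * t)) := by
  rw [le_div_iff₀ (by positivity)]
  set κ := 1 / 2 - 9 / 8 * (1 - s / 2 - t / 2) with hκ
  have hst : 0 < s * t := mul_pos hs ht
  rcases le_or_gt κ 0 with h | h
  · have : κ * (2 * (s * t)) ≤ 0 := mul_nonpos_of_nonpos_of_nonneg h (by positivity)
    nlinarith [sq_nonneg (s + t - 1)]
  · have h1 : κ * (2 * (s * t)) ≤ κ * ((s + t) ^ 2 / 2) := by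
      apply mul_le_mul_of_nonneg_left _ h.le
      nlinarith [sq_nonneg (s - t)]
    have h2 : κ * ((s + t) ^ 2 / 2) ≤ (s + t - 1) ^ 2 := by
      have : (s + t - 1) ^ 2 - κ * ((s + t) ^ 2 / 2)
          = (1 - (s + t) / 2) * (3 * ((s + t) / 2) / 2 - 1) ^ 2 := by
        rw [hκ]; ring
      have h3 : 0 ≤ (1 - (s + t) / 2) * (3 * ((s + t) / 2) / 2 - 1) ^ 2 := by
        apply mul_nonneg
        · linarith
        · positivity
      linarith
    linarith

lemma P_lin {α ν : ℝ} (hα : α ∈ Icc (0:ℝ) (1/2)) (hν : ν ∈ Icc (0:ℝ) (1/2)) :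
    1 / 2 - 9 / 8 * (1 - α - ν) ≤ P (lin ν) (lin α) := by
  rcases le_or_gt (2 * α + 2 * ν) 1 with h | h
  · have := P_nonneg (lin ν) (lin α)
    linarith
  · have ha : 0 < α := by linarith [hν.2]
    have hn : 0 < ν := by linarith [hα.2]
    obtain ⟨e1, e2⟩ := P_eq (lin_cvx hν.1 hν.2).cvx (lin_cvx hα.1 hα.2).cvx
    rw [e1]
    set x0 := (1 - 2 * α) / (2 * ν) with hx0
    have hx00 : 0 ≤ x0 := by
      rw [hx0]
      have : 0 ≤ 1 - 2 * α := by linarith [hα.2]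
      positivity
    have hx01 : x0 ≤ 1 := by rw [hx0, div_le_one (by positivity)]; linarith
    have s1 : ∫ x in x0..(1:ℝ), (1 - 1 / (2 * α) + (ν / α) * x) ≤ ∫ x in x0..(1:ℝ), H (lin α) (lin ν x) := by
      apply intervalIntegral.integral_mono_on hx01
      · exact (by fun_prop : Continuous fun x : ℝ => 1 - 1 / (2 * α) + (ν / α) * x).intervalIntegrable _ _
      · exact e2.mono_set (by rw [uIcc_of_le hx01, uIcc_of_le zero_le_one]; exact Icc_subset_Icc_left hx00)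
      · intro x hx
        have hlx : 1 - lin ν x ≤ 2 * α := by
          have h3 : x0 ≤ x := hx.1
          rw [hx0, div_le_iff₀ (by positivity)] at h3
          unfold lin
          linarith
        have hlx1 : lin ν x ≤ 1 := (lin_cvx hν.1 hν.2).le_one x ⟨hx00.trans hx.1, hx.2⟩
        have := H_lin_ge ha hlx1 hlx
        have e : 1 - 1 / (2 * α) + (ν / α) * x = 1 - (1 - lin ν x) / (2 * α) := by
          unfold lin
          field_simp
          ring
        rw [e]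
        exact this
    have s2 : ∫ x in x0..(1:ℝ), H (lin α) (lin ν x) ≤ ∫ x in (0:ℝ)..1, H (lin α) (lin ν x) := by
      apply intervalIntegral.integral_mono_interval hx00 hx01 (le_refl 1)
      · exact Filter.Eventually.of_forall fun x => H_nonneg _ _
      · exact e2
    have s3 : ∫ x in x0..(1:ℝ), (1 - 1 / (2 * α) + (ν / α) * x)
        = (1 - 1 / (2 * α)) * (1 - x0) + (ν / α) * ((1 - x0 ^ 2) / 2) := by
      rw [intervalIntegral.integral_add (by simp)
        ((by fun_prop : Continuous fun x : ℝ => (ν / α) * x).intervalIntegrable _ _),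
        intervalIntegral.integral_const_mul]
      simp
      ring
    have s4 := poly (2 * α) (2 * ν) (by positivity) (by positivity) (by linarith [hα.2]) (by linarith [hν.2])
    have s5 : (1 - 1 / (2 * α)) * (1 - x0) + (ν / α) * ((1 - x0 ^ 2) / 2)
        = (2 * α + 2 * ν - 1) ^ 2 / (2 * (2 * α * (2 * ν))) := by
      rw [hx0]
      field_simp
      ring
    have s6 : 1 / 2 - 9 / 8 * (1 - α - ν) = 1 / 2 - 9 / 8 * (1 - 2 * α / 2 - 2 * ν / 2) := by ring
    rw [s6]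
    linarith

lemma star_lin {α : ℝ} {v : ℝ → ℝ} (hα : α ∈ Icc (0:ℝ) (1/2)) (hv : Cvx v) :
    1 / 2 - 9 / 8 * (1 - α - ∫ x in (0:ℝ)..1, v x) ≤ P (lin α) v := by
  rw [P_symm (lin_cvx hα.1 hα.2).cvx hv.cvx]
  obtain ⟨b, hb, n1, h1, n2, h2, e, he⟩ := lin_step hv (lin_cvx hα.1 hα.2)
  have g1 := mul_le_mul_of_nonneg_left (P_lin hα h1) hb.1
  have g2 := mul_le_mul_of_nonneg_left (P_lin hα h2) (sub_nonneg.2 hb.2)
  rw [e]
  nlinarith

/-- The main inequality. -/
theorem star {u v : ℝ → ℝ} (hu : Cvx u) (hv : Cvx v) :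
    1 / 2 - 9 / 8 * (1 - (∫ x in (0:ℝ)..1, u x) - ∫ x in (0:ℝ)..1, v x) ≤ P u v := by
  obtain ⟨b, hb, a1, h1, a2, h2, e, he⟩ := lin_step hu hv
  have g1 := mul_le_mul_of_nonneg_left (star_lin h1 hv) hb.1
  have g2 := mul_le_mul_of_nonneg_left (star_lin h2 hv) (sub_nonneg.2 hb.2)
  rw [e]
  nlinarith

end Pool.Agent.V1199.Proj
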