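import Pool.Agent.V1199.ProjC

/-!
Areas of the coordinate projections of a convex body: the inequality
`w_j q_ik ≤ 9/8 (w_i q_jk + w_k q_ij)`.
-/

open MeasureTheory Set

namespace Pool.Agent.V1199.Proj

/-- Compact convex subsets of the unit square touching the sides. -/
structure Body (K : Set (ℝ × ℝ)) : Prop where
  compact : IsCompact K
  convex : Convex ℝ K
  sub : K ⊆ Icc (0:ℝ) 1 ×ˢ Icc (0:ℝ) 1
  full : ∀ x ∈ Icc (0:ℝ) 1, ∃ y, (x, y) ∈ K
  low : ∃ x, (x, (0:ℝ)) ∈ K
  high : ∃ x, (x, (1:ℝ)) ∈ K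

noncomputable def bot (K : Set (ℝ × ℝ)) (x : ℝ) : ℝ := sInf {y | (x, y) ∈ K}
noncomputable def top (K : Set (ℝ × ℝ)) (x : ℝ) : ℝ := sSup {y | (x, y) ∈ K}

namespace Body

variable {K : Set (ℝ × ℝ)}

lemma slice_compact (hK : Body K) (x : ℝ) : IsCompact {y | (x, y) ∈ K} := by
  have hcl : IsClosed {y | (x, y) ∈ K} := hK.compact.isClosed.preimage (by fun_prop : Continuous fun y : ℝ => (x, y))
  exact isCompact_Icc.of_isClosed_subset hcl (fun y hy => (hK.sub hy).2)

lemma bot_mem (hK : Body K) {x : ℝ} (hx : x ∈ Icc (0:ℝ) 1) : (x, bot K x) ∈ K :=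
  (hK.slice_compact x).sInf_mem (hK.full x hx)

lemma top_mem (hK : Body K) {x : ℝ} (hx : x ∈ Icc (0:ℝ) 1) : (x, top K x) ∈ K :=
  (hK.slice_compact x).sSup_mem (hK.full x hx)

lemma bot_le (hK : Body K) {x y : ℝ} (h : (x, y) ∈ K) : bot K x ≤ y :=
  csInf_le (hK.slice_compact x).bddBelow h

lemma le_top (hK : Body K) {x y : ℝ} (h : (x, y) ∈ K) : y ≤ top K x :=
  le_csSup (hK.slice_compact x).bddAbove h

lemma slice_eq (hK : Body K) {x : ℝ} (hx : x ∈ Icc (0:ℝ) 1) :
    {y | (x, y) ∈ K} = Icc (bot K x) (top K x) := by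
  ext y
  constructor
  · intro hy
    exact ⟨hK.bot_le hy, hK.le_top hy⟩
  · intro hy
    have hseg : y ∈ segment ℝ (bot K x) (top K x) := by
      rw [segment_eq_Icc (hy.1.trans hy.2)]; exact hy
    obtain ⟨a, b, ha, hb, hab, rfl⟩ := hseg
    have := hK.convex (hK.bot_mem hx) (hK.top_mem hx) ha hb hab
    have e : a • (x, bot K x) + b • (x, top K x) = (x, a • bot K x + b • top K x) := by
      ext
      · simp only [Prod.fst_add, Prod.smul_fst, smul_eq_mul]
        linear_combination x * hab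
      · simp
    rw [e] at this
    exact this

lemma bot_cvx (hK : Body K) : Cvx (bot K) where
  cvx := by
    refine ⟨convex_Icc 0 1, ?_⟩
    intro x hx y hy a b ha hb hab
    have := hK.convex (hK.bot_mem hx) (hK.bot_mem hy) ha hb hab
    have e : a • (x, bot K x) + b • (y, bot K y) = (a • x + b • y, a • bot K x + b • bot K y) := by
      ext <;> simp
    rw [e] at this
    exact hK.bot_le this
  nonneg := fun x hx => (hK.sub (hK.bot_mem hx)).2.1
  le_one := fun x hx => (hK.sub (hK.bot_mem hx)).2.2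
  zero := by
    obtain ⟨x, hx⟩ := hK.low
    have hx' := (hK.sub hx).1
    exact ⟨x, hx', le_antisymm (hK.bot_le hx) (hK.sub (hK.bot_mem hx')).2.1⟩

lemma top_cvx (hK : Body K) : Cvx (fun x => 1 - top K x) where
  cvx := by
    refine ⟨convex_Icc 0 1, ?_⟩
    intro x hx y hy a b ha hb hab
    have := hK.convex (hK.top_mem hx) (hK.top_mem hy) ha hb hab
    have e : a • (x, top K x) + b • (y, top K y) = (a • x + b • y, a • top K x + b • top K y) := by
      ext <;> simp
    rw [e] at this
    have h2 := hK.le_top this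
    simp only [smul_eq_mul] at h2 ⊢
    have e2 : a * (1 - top K x) + b * (1 - top K y) = 1 - (a * top K x + b * top K y) := by
      linear_combination hab
    rw [e2]
    linarith
  nonneg := fun x hx => by have := (hK.sub (hK.top_mem hx)).2.2; simp only at this ⊢; linarith
  le_one := fun x hx => by have := (hK.sub (hK.top_mem hx)).2.1; simp only at this ⊢; linarith
  zero := by
    obtain ⟨x, hx⟩ := hK.high
    have hx' := (hK.sub hx).1
    refine ⟨x, hx', ?_⟩
    have h1 := hK.le_top hx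
    have h2 := (hK.sub (hK.top_mem hx')).2.2
    simp only at h2 ⊢
    linarith

lemma bot_le_top (hK : Body K) {x : ℝ} (hx : x ∈ Icc (0:ℝ) 1) : bot K x ≤ top K x :=
  hK.bot_le (hK.top_mem hx)

lemma vol (hK : Body K) : volume.real K
    = 1 - (∫ x in (0:ℝ)..1, (1 - top K x)) - ∫ x in (0:ℝ)..1, bot K x := by
  rw [(real_prod hK.compact.measurableSet hK.sub).1]
  have h1 : ∫ x in (0:ℝ)..1, volume.real {y | (x, y) ∈ K}
      = ∫ x in (0:ℝ)..1, (1 - (1 - top K x) - bot K x) := by
    apply intervalIntegral.integral_congr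
    intro x hx
    rw [uIcc_of_le zero_le_one] at hx
    simp only
    rw [hK.slice_eq hx, Measure.real, Real.volume_Icc, ENNReal.toReal_ofReal (sub_nonneg.2 (hK.bot_le_top hx))]
    ring
  rw [h1, intervalIntegral.integral_sub ((by simp : IntervalIntegrable (fun _ : ℝ => (1:ℝ)) volume 0 1).sub
    hK.top_cvx.int) hK.bot_cvx.int, intervalIntegral.integral_sub (by simp) hK.top_cvx.int]
  simp

end Body

theorem T {K1 K2 K3 : Set (ℝ × ℝ)} (h1 : Body K1) (h2 : Body K2) (hm : MeasurableSet K3)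
    (hs : K3 ⊆ Icc (0:ℝ) 1 ×ˢ Icc (0:ℝ) 1)
    (h : ∀ p ∈ K3, ∃ y, (p.1, y) ∈ K1 ∧ (p.2, y) ∈ K2) :
    volume.real K3 ≤ 9 / 8 * (volume.real K1 + volume.real K2) := by
  obtain ⟨e1, e2⟩ := real_prod hm hs
  obtain ⟨f1, f2⟩ := P_eq h1.top_cvx.cvx h2.bot_cvx.cvx
  obtain ⟨g1, g2⟩ := P_eq h1.bot_cvx.cvx h2.top_cvx.cvx
  have hpt : ∀ x ∈ Icc (0:ℝ) 1, volume.real {y | (x, y) ∈ K3}
      ≤ 1 - H (bot K2) (1 - top K1 x) - H (fun x => 1 - top K2 x) (bot K1 x) := by
    intro x hx
    set A := {z | z ∈ Icc (0:ℝ) 1 ∧ 1 - (1 - top K1 x) < bot K2 z} with hA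
    set B := {z | z ∈ Icc (0:ℝ) 1 ∧ 1 - bot K1 x < 1 - top K2 z} with hB
    have hAm : MeasurableSet A := by
      rw [hA, sup_meas]
      exact measurableSet_Icc.diff (Lv_meas h2.bot_cvx.cvx _)
    have hBm : MeasurableSet B := by
      rw [hB, sup_meas (v := fun z => 1 - top K2 z)]
      exact measurableSet_Icc.diff (Lv_meas h2.top_cvx.cvx _)
    have hfin : ∀ C : Set ℝ, C ⊆ Icc (0:ℝ) 1 → volume C ≠ ⊤ := by
      intro C hC
      apply ne_of_lt
      calc volume C ≤ volume (Icc (0:ℝ) 1) := measure_mono hC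
        _ < ⊤ := by rw [Real.volume_Icc]; exact ENNReal.ofReal_lt_top
    have hdisj : Disjoint A B := by
      rw [disjoint_left]
      rintro z ⟨hz, hz1⟩ ⟨_, hz2⟩
      have := h1.bot_le_top hx
      have := h2.bot_le_top hz
      linarith
    have hd2 : Disjoint {y | (x, y) ∈ K3} (A ∪ B) := by
      rw [disjoint_left]
      rintro z hz hz'
      obtain ⟨y, hy1, hy2⟩ := h (x, z) hz
      simp only at hy1 hy2
      have b1 := h1.bot_le hy1
      have b2 := h1.le_top hy1
      have b3 := h2.bot_le hy2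
      have b4 := h2.le_top hy2
      rcases hz' with hz' | hz'
      · have := hz'.2; linarith
      · have := hz'.2; linarith
    have hsl : {y | (x, y) ∈ K3} ⊆ Icc (0:ℝ) 1 := fun y hy => (hs hy).2
    have hABs : A ∪ B ⊆ Icc (0:ℝ) 1 := by
      rintro z (hz | hz)
      · exact hz.1
      · exact hz.1
    have k1 : volume.real ({y | (x, y) ∈ K3} ∪ (A ∪ B)) ≤ volume.real (Icc (0:ℝ) 1) :=
      measureReal_mono (union_subset hsl hABs) (hfin _ (subset_refl _))
    rw [measureReal_union hd2 (hAm.union hBm) (hfin _ hsl) (hfin _ hABs),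
      measureReal_union hdisj hBm (hfin _ fun z hz => hz.1) (hfin _ fun z hz => hz.1)] at k1
    have k2 : volume.real (Icc (0:ℝ) 1) = 1 := by simp [Measure.real]
    rw [k2] at k1
    have k3 : H (bot K2) (1 - top K1 x) = volume.real A := rfl
    have k4 : H (fun x => 1 - top K2 x) (bot K1 x) = volume.real B := rfl
    rw [k3, k4]
    linarith
  have hint := intervalIntegral.integral_mono_on zero_le_one e2
    (((by simp : IntervalIntegrable (fun _ : ℝ => (1:ℝ)) volume 0 1).sub f2).sub g2) hpt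
  rw [intervalIntegral.integral_sub ((by simp : IntervalIntegrable (fun _ : ℝ => (1:ℝ)) volume 0 1).sub f2) g2,
    intervalIntegral.integral_sub (by simp) f2, ← f1, ← g1, ← e1] at hint
  have s1 := star h1.top_cvx h2.bot_cvx
  have s2 := star h1.bot_cvx h2.top_cvx
  rw [h1.vol, h2.vol]
  simp only [intervalIntegral.integral_const, sub_zero, smul_eq_mul, mul_one] at hint
  linarith

section coord

variable {n : ℕ} {A : Set (Fin n → ℝ)}

noncomputable def lo (A : Set (Fin n → ℝ)) (i : Fin n) : ℝ := sInf ((fun p => p i) '' A)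
noncomputable def hi (A : Set (Fin n → ℝ)) (i : Fin n) : ℝ := sSup ((fun p => p i) '' A)
/-- Widths. -/
noncomputable def w (A : Set (Fin n → ℝ)) (i : Fin n) : ℝ := hi A i - lo A i
/-- The projection of `A` onto the coordinate plane `(i, j)`. -/
def pr (A : Set (Fin n → ℝ)) (i j : Fin n) : Set (ℝ × ℝ) := (fun p => (p i, p j)) '' A
/-- Normalised projection. -/
noncomputable def npr (A : Set (Fin n → ℝ)) (i j : Fin n) : Set (ℝ × ℝ) :=
  (fun p => ((p i - lo A i) / w A i, (p j - lo A j) / w A j)) '' A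

lemma lo_mem (hc : IsCompact A) (hne : A.Nonempty) (i : Fin n) : ∃ p ∈ A, p i = lo A i :=
  (hc.image (continuous_apply i)).sInf_mem (hne.image _)

lemma hi_mem (hc : IsCompact A) (hne : A.Nonempty) (i : Fin n) : ∃ p ∈ A, p i = hi A i :=
  (hc.image (continuous_apply i)).sSup_mem (hne.image _)

lemma lo_le (hc : IsCompact A) {p : Fin n → ℝ} (hp : p ∈ A) (i : Fin n) : lo A i ≤ p i :=
  csInf_le (hc.image (continuous_apply i)).bddBelow ⟨p, hp, rfl⟩

lemma le_hi (hc : IsCompact A) {p : Fin n → ℝ} (hp : p ∈ A) (i : Fin n) : p i ≤ hi A i :=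
  le_csSup (hc.image (continuous_apply i)).bddAbove ⟨p, hp, rfl⟩

lemma npr_body (hc : IsCompact A) (hv : Convex ℝ A) (hne : A.Nonempty) {i j : Fin n}
    (hi0 : 0 < w A i) (hj0 : 0 < w A j) : Body (npr A i j) where
  compact := by
    apply hc.image
    fun_prop
  convex := by
    rintro _ ⟨p, hp, rfl⟩ _ ⟨q, hq, rfl⟩ a b ha hb hab
    refine ⟨a • p + b • q, hv hp hq ha hb hab, ?_⟩
    ext
    · simp only [Pi.add_apply, Pi.smul_apply, smul_eq_mul, Prod.fst_add, Prod.smul_fst]
      field_simp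
      linear_combination (lo A i) * hab
    · simp only [Pi.add_apply, Pi.smul_apply, smul_eq_mul, Prod.snd_add, Prod.smul_snd]
      field_simp
      linear_combination (lo A j) * hab
  sub := by
    rintro _ ⟨p, hp, rfl⟩
    have h1 := lo_le hc hp i
    have h2 := le_hi hc hp i
    have h3 := lo_le hc hp j
    have h4 := le_hi hc hp j
    refine ⟨⟨?_, ?_⟩, ⟨?_, ?_⟩⟩
    · exact div_nonneg (by linarith) hi0.le
    · rw [div_le_one hi0]; unfold w; linarith
    · exact div_nonneg (by linarith) hj0.le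
    · rw [div_le_one hj0]; unfold w; linarith
  full := by
    intro x hx
    obtain ⟨p, hp, hpi⟩ := lo_mem hc hne i
    obtain ⟨q, hq, hqi⟩ := hi_mem hc hne i
    have hr : (1 - x) • p + x • q ∈ A := hv hp hq (by linarith [hx.2]) hx.1 (by ring)
    refine ⟨(((1 - x) • p + x • q) j - lo A j) / w A j, (1 - x) • p + x • q, hr, ?_⟩
    refine Prod.ext ?_ rfl
    simp only [Pi.add_apply, Pi.smul_apply, smul_eq_mul, hpi, hqi]
    have : w A i = hi A i - lo A i := rfl
    rw [div_eq_iff hi0.ne', this]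
    ring
  low := by
    obtain ⟨p, hp, hpi⟩ := lo_mem hc hne j
    refine ⟨(p i - lo A i) / w A i, p, hp, ?_⟩
    refine Prod.ext rfl ?_
    simp [hpi]
  high := by
    obtain ⟨p, hp, hpi⟩ := hi_mem hc hne j
    refine ⟨(p i - lo A i) / w A i, p, hp, ?_⟩
    refine Prod.ext rfl ?_
    simp only [hpi]
    have : w A j = hi A j - lo A j := rfl
    rw [← this, div_self hj0.ne']

lemma npr_vol {i j : Fin n} (hi0 : 0 < w A i) (hj0 : 0 < w A j) :
    volume.real (npr A i j) = volume.real (pr A i j) / (w A i * w A j) := by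
  set f : ℝ × ℝ →ₗ[ℝ] ℝ × ℝ :=
    LinearMap.prodMap ((w A i)⁻¹ • LinearMap.id) ((w A j)⁻¹ • LinearMap.id) with hf
  have hdet : LinearMap.det f = (w A i)⁻¹ * (w A j)⁻¹ := by
    rw [hf, LinearMap.det_prodMap, LinearMap.det_smul, LinearMap.det_smul]
    simp
  have hset : npr A i j = (fun q : ℝ × ℝ => q + (-(lo A i) / w A i, -(lo A j) / w A j)) '' (f '' pr A i j) := by
    unfold npr pr
    rw [image_image, image_image]
    apply image_congr
    intro p _
    ext
    · simp [hf]; ring
    · simp [hf]; ring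
  rw [hset, Measure.real, Measure.real, image_add_right, measure_preimage_add_right,
    Measure.addHaar_image_linearMap, hdet, ENNReal.toReal_mul, ENNReal.toReal_ofReal (abs_nonneg _),
    abs_of_pos (by positivity)]
  field_simp

lemma pr_swap (i j : Fin n) (hc : IsCompact A) : volume.real (pr A i j) = volume.real (pr A j i) := by
  have h : MeasurePreserving (Prod.swap : ℝ × ℝ → ℝ × ℝ) volume volume :=
    Measure.measurePreserving_swap
  have hcp : IsCompact (pr A i j) := hc.image (by fun_prop)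
  have e : pr A j i = Prod.swap ⁻¹' pr A i j := by
    ext p
    constructor
    · rintro ⟨x, hx, rfl⟩; exact ⟨x, hx, rfl⟩
    · rintro ⟨x, hx, hp⟩
      refine ⟨x, hx, ?_⟩
      have := congrArg Prod.swap hp
      simpa using this
  rw [e, Measure.real, Measure.real, h.measure_preimage hcp.measurableSet.nullMeasurableSet]

/-- If an area is positive then so are the two widths. -/
lemma w_pos_of (hc : IsCompact A) {i j : Fin n} (h : 0 < volume.real (pr A i j)) : 0 < w A i := by
  by_contra hcon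
  push Not at hcon
  have hsub : pr A i j ⊆ {lo A i} ×ˢ univ := by
    rintro _ ⟨p, hp, rfl⟩
    have h1 := lo_le hc hp i
    have h2 := le_hi hc hp i
    refine ⟨?_, mem_univ _⟩
    have h3 : w A i = hi A i - lo A i := rfl
    simp only [mem_singleton_iff]
    linarith
  have hz : volume (pr A i j) = 0 := by
    apply measure_mono_null hsub
    rw [Measure.volume_eq_prod, Measure.prod_prod]
    simp
  rw [Measure.real, hz] at h
  simp at h

/-- The inequality `w_j q_ik ≤ 9/8 (w_k q_ij + w_i q_kj)`. -/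
theorem triple (hc : IsCompact A) (hv : Convex ℝ A) (hne : A.Nonempty) {i j k : Fin n}
    (hi0 : 0 < w A i) (hj0 : 0 < w A j) (hk0 : 0 < w A k) :
    w A j * volume.real (pr A i k)
      ≤ 9 / 8 * (w A k * volume.real (pr A i j) + w A i * volume.real (pr A k j)) := by
  have h := T (npr_body hc hv hne hi0 hj0) (npr_body hc hv hne hk0 hj0)
    (npr_body hc hv hne hi0 hk0).compact.measurableSet (npr_body hc hv hne hi0 hk0).sub
    (by
      rintro _ ⟨p, hp, rfl⟩
      exact ⟨(p j - lo A j) / w A j, ⟨p, hp, rfl⟩, ⟨p, hp, rfl⟩⟩)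
  rw [npr_vol hi0 hk0, npr_vol hi0 hj0, npr_vol hk0 hj0] at h
  have e1 : w A j * volume.real (pr A i k)
      = (w A i * w A j * w A k) * (volume.real (pr A i k) / (w A i * w A k)) := by
    field_simp
  have e2 : 9 / 8 * (w A k * volume.real (pr A i j) + w A i * volume.real (pr A k j))
      = (w A i * w A j * w A k) * (9 / 8 * (volume.real (pr A i j) / (w A i * w A j)
        + volume.real (pr A k j) / (w A k * w A j))) := by
    field_simp
  rw [e1, e2]
  exact mul_le_mul_of_nonneg_left h (by positivity)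

end coord

end Pool.Agent.V1199.Proj
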